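import Mathlib

set_option autoImplicit false
open MeasureTheory

namespace Pool.Agent.H19.Maass

/-- `IsHeckeMaass T U`: the function `U` (on the upper half plane) is an `L²`-normalised
Hecke-Maass cusp form for `SL₂(ℤ)` with Laplace eigenvalue `1/4 + T²`.
These are, word for word, the hypotheses on `U` in the frozen statement S17743. -/
structure IsHeckeMaass (T : ℝ) (U : ℂ → ℂ) : Prop where
  /-- `U` is `C²` -/
  smooth : ContDiffOn ℝ 2 U {z : ℂ | 0 < z.im}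
  /-- `U` is invariant under the two generators of `SL₂(ℤ)` -/
  modular : ∀ z : ℂ, 0 < z.im → U (z + 1) = U z ∧ U (-z⁻¹) = U z
  /-- `U` is an eigenfunction of the hyperbolic Laplacian -/
  laplace : ∀ z : ℂ, 0 < z.im →
    -((z.im : ℂ)) ^ 2 *
      (deriv (deriv (fun t : ℝ => U (z + (t : ℂ)))) 0 +
        deriv (deriv (fun t : ℝ => U (z + (t : ℂ) * Complex.I))) 0)
      = (1 / 4 + (T : ℂ) ^ 2) * U z
  /-- the constant term vanishes -/
  cuspidal : ∀ y : ℝ, 0 < y →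
    intervalIntegral (fun x : ℝ => U ((x : ℂ) + (y : ℂ) * Complex.I)) 0 1 volume = 0
  /-- `U` is `L²`-normalised on the standard fundamental domain -/
  normalised :
    (∫ z in {z : ℂ | 0 < z.im ∧ |z.re| ≤ 1 / 2 ∧ 1 ≤ ‖z‖}, ‖U z‖ ^ 2 / z.im ^ 2) = 1
  /-- `U` is an eigenfunction of all Hecke operators -/
  hecke : ∀ n : ℕ, 1 ≤ n → ∃ c : ℂ, ∀ z : ℂ, 0 < z.im →
    ∑ d ∈ n.divisors, ∑ b ∈ Finset.range d,
      U ((((n / d : ℕ) : ℂ) * z + (b : ℂ)) / (d : ℂ)) = c * U z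

/-- Orthogonality of `U` and `W` in `L²(SL₂(ℤ)\ℍ)`. -/
def OrthForms (U W : ℂ → ℂ) : Prop :=
  ∫ z in {z : ℂ | 0 < z.im ∧ |z.re| ≤ 1 / 2 ∧ 1 ≤ ‖z‖},
    U z * (starRingEnd ℂ) (W z) / ((z.im : ℂ)) ^ 2 = 0

end Pool.Agent.H19.Maass
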