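import Mathlib

set_option autoImplicit false

namespace Pool.Agent.H19.Maass

open MeasureTheory UpperHalfPlane ModularGroup
open scoped MatrixGroups Modular UpperHalfPlane ENNReal

/-- The boundary of the standard fundamental domain is a null set. -/
lemma volume_fd_diff_fdo : volume (𝒟 \ 𝒟ᵒ : Set ℍ) = 0 := by
  rw [UpperHalfPlane.volume_eq_lintegral]
  have hnull : volume (UpperHalfPlane.coe '' (𝒟 \ 𝒟ᵒ : Set ℍ)) = 0 := by
    have hvert : ∀ c : ℝ, volume {z : ℂ | z.re = c} = 0 := by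
      intro c
      have h1 : MeasurableSet {z : ℂ | z.re = c} :=
        measurableSet_eq_fun Complex.measurable_re measurable_const
      have h2 := Complex.volume_preserving_equiv_real_prod.symm.measure_preimage
        (h1.nullMeasurableSet)
      rw [← h2]
      have h3 : (Complex.measurableEquivRealProd.symm ⁻¹' {z : ℂ | z.re = c}) =
          ({c} : Set ℝ) ×ˢ (Set.univ : Set ℝ) := by
        ext ⟨x, y⟩
        simp [Complex.measurableEquivRealProd]
      rw [h3, Measure.volume_eq_prod, Measure.prod_prod]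
      simp
    have hsub : UpperHalfPlane.coe '' (𝒟 \ 𝒟ᵒ : Set ℍ) ⊆
        Metric.sphere (0 : ℂ) 1 ∪ ({z : ℂ | z.re = 1/2} ∪ {z : ℂ | z.re = -(1/2)}) := by
      rintro _ ⟨z, ⟨⟨h1, h2⟩, h3⟩, rfl⟩
      by_cases h : 1 < Complex.normSq (z : ℂ)
      · right
        have h4 : ¬ |z.re| < 1/2 := fun h5 => h3 ⟨h, h5⟩
        have h5 : |z.re| = 1/2 := le_antisymm h2 (not_lt.1 h4)
        rcases abs_eq (by norm_num : (0:ℝ) ≤ 1/2) |>.1 h5 with h6 | h6
        · left; simpa using h6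
        · right; simpa using h6
      · left
        have h4 : Complex.normSq (z : ℂ) = 1 := le_antisymm (not_lt.1 h) h1
        rw [mem_sphere_zero_iff_norm, ← Real.sqrt_one, ← h4]
        rfl
    refine measure_mono_null hsub ?_
    rw [measure_union_null_iff, measure_union_null_iff]
    exact ⟨Measure.addHaar_sphere _ _ _, hvert _, hvert _⟩
  exact setLIntegral_measure_zero _ _ hnull

instance : MeasurableConstSMul SL(2, ℤ) ℍ := ⟨fun g => by
  have : Continuous (fun z : ℍ => (g : GL (Fin 2) ℝ) • z) := continuous_const_smul _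
  exact this.measurable⟩

lemma measurePreserving_sl (g : SL(2, ℤ)) :
    MeasurePreserving (fun z : ℍ => g • z) volume volume := by
  have := measurePreserving_smul (g : GL (Fin 2) ℝ) (volume : Measure ℍ)
  exact this

lemma measurableEmbedding_sl (g : SL(2, ℤ)) :
    MeasurableEmbedding (fun z : ℍ => g • z) := measurableEmbedding_const_smul g

instance : Countable SL(2, ℤ) := by
  have : Countable (Matrix (Fin 2) (Fin 2) ℤ) :=
    inferInstanceAs (Countable (Fin 2 → Fin 2 → ℤ))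
  exact Subtype.countable

lemma ne_neg_self (g : SL(2, ℤ)) : g ≠ -g := by
  intro h
  have h1 : ∀ i j, g i j = 0 := by
    intro i j
    have h2 : g i j = (-g) i j := by rw [← h]
    rw [Matrix.SpecialLinearGroup.coe_neg] at h2
    simp only [Matrix.neg_apply] at h2
    omega
  have h2 := g.det_coe
  rw [Matrix.det_fin_two] at h2
  simp [h1] at h2

/-- For almost every `w`, the set of `σ` with `σ w ∈ 𝒟` is `{g, -g}`. -/
lemma ae_pair : ∀ᵐ w : ℍ, ∃ g : SL(2, ℤ), ∀ σ : SL(2, ℤ), σ • w ∈ 𝒟 ↔ (σ = g ∨ σ = -g) := by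
  have h1 : ∀ σ : SL(2, ℤ), ∀ᵐ w : ℍ, σ • w ∉ (𝒟 \ 𝒟ᵒ : Set ℍ) := by
    intro σ
    have := (measurePreserving_sl σ).quasiMeasurePreserving.preimage_null volume_fd_diff_fdo
    rw [ae_iff]
    simpa using! this
  have h2 := ae_all_iff.2 h1
  filter_upwards [h2] with w hw
  obtain ⟨g, hg⟩ := exists_smul_mem_fd w
  have hgo : g • w ∈ 𝒟ᵒ := by
    by_contra h
    exact hw g ⟨hg, h⟩
  refine ⟨g, fun σ => ⟨fun hσ => ?_, ?_⟩⟩
  · have h3 : (σ * g⁻¹) • (g • w) ∈ 𝒟 := by
      rwa [← mul_smul, inv_mul_cancel_right]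
    rcases eq_one_or_neg_one_of_mem_fdo_mem_fd hgo h3 with h | h
    · left; exact mul_inv_eq_one.1 h
    · right
      have : σ = (-1) * g := by rw [← h]; group
      rw [this]; simp
  · rintro (rfl | rfl)
    · exact hg
    · rw [SL_neg_smul]; exact hg

section
variable {E : Type*} [AddCommMonoid E] [TopologicalSpace E]

lemma tsum_pair (P : SL(2, ℤ) → Prop) [DecidablePred P] (g : SL(2, ℤ))
    (hg : ∀ σ : SL(2, ℤ), P σ ↔ (σ = g ∨ σ = -g)) (x : E) :
    (∑' σ : SL(2, ℤ), if P σ then x else 0) = x + x := by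
  classical
  rw [tsum_eq_sum (s := {g, -g})]
  · rw [Finset.sum_pair (ne_neg_self g), if_pos ((hg g).2 (Or.inl rfl)),
      if_pos ((hg (-g)).2 (Or.inr rfl))]
  · intro σ hσ
    rw [if_neg]
    intro h
    rcases (hg σ).1 h with h | h <;> simp [h] at hσ
end

lemma measurableSet_fd : MeasurableSet (𝒟 : Set ℍ) := isClosed_fd.measurableSet

open Classical in
/-- Unfolding for nonnegative functions. -/
theorem lintegral_unfold {f : ℍ → ℝ≥0∞} (hf : Measurable f) :
    ∫⁻ w in 𝒟, ∑' σ : SL(2, ℤ), f (σ • w) = 2 * ∫⁻ w, f w := by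
  have hm : ∀ σ : SL(2, ℤ), Measurable fun w : ℍ => f (σ • w) := fun σ =>
    hf.comp (measurePreserving_sl σ).measurable
  rw [lintegral_tsum (fun σ => (hm σ).aemeasurable)]
  have h1 : ∀ σ : SL(2, ℤ), ∫⁻ w in 𝒟, f (σ • w) =
      ∫⁻ v : ℍ, if σ⁻¹ • v ∈ 𝒟 then f v else 0 := by
    intro σ
    rw [← lintegral_indicator measurableSet_fd]
    have h2 := (measurePreserving_sl σ).lintegral_comp_emb (measurableEmbedding_sl σ)
      (fun v => if σ⁻¹ • v ∈ 𝒟 then f v else 0)
    rw [← h2]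
    refine lintegral_congr fun w => ?_
    rw [inv_smul_smul]
    by_cases h : w ∈ 𝒟 <;> simp [Set.indicator, h]
  simp_rw [h1]
  rw [← lintegral_tsum]
  · rw [← lintegral_const_mul _ hf]
    refine lintegral_congr_ae ?_
    filter_upwards [ae_pair] with w hw
    obtain ⟨g, hg⟩ := hw
    have h3 : (∑' σ : SL(2, ℤ), if σ⁻¹ • w ∈ 𝒟 then f w else 0) =
        ∑' σ : SL(2, ℤ), if σ • w ∈ 𝒟 then f w else 0 :=
      (Equiv.inv (SL(2, ℤ))).tsum_eq (fun σ : SL(2, ℤ) => if σ • w ∈ 𝒟 then f w else 0)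
    rw [h3, tsum_pair _ g hg, two_mul]
  · intro σ
    refine Measurable.aemeasurable ?_
    refine Measurable.ite ?_ hf measurable_const
    exact (measurePreserving_sl σ⁻¹).measurable measurableSet_fd

open Classical in
/-- Unfolding for integrable functions. -/
theorem integral_unfold {f : ℍ → ℂ} (hf : Integrable f) :
    ∫ w in 𝒟, ∑' σ : SL(2, ℤ), f (σ • w) = 2 * ∫ w, f w := by
  have h1 : ∀ σ : SL(2, ℤ), ∫ w in 𝒟, f (σ • w) =
      ∫ v : ℍ, if σ⁻¹ • v ∈ 𝒟 then f v else 0 := by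
    intro σ
    rw [← integral_indicator measurableSet_fd]
    have h2 := (measurePreserving_sl σ).integral_comp (measurableEmbedding_sl σ)
      (fun v => if σ⁻¹ • v ∈ 𝒟 then f v else 0)
    rw [← h2]
    refine integral_congr_ae (Filter.Eventually.of_forall fun w => ?_)
    simp only [inv_smul_smul]
    by_cases h : w ∈ 𝒟 <;> simp [Set.indicator, h]
  have hint : ∀ σ : SL(2, ℤ), Integrable fun w : ℍ => f (σ • w) := fun σ =>
    (measurePreserving_sl σ).integrable_comp_of_integrable hf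
  obtain ⟨f', hf'm, hff'⟩ := hf.aestronglyMeasurable.aemeasurable
  have key : (∑' σ : SL(2, ℤ), ∫⁻ w in 𝒟, ‖f (σ • w)‖ₑ) = 2 * ∫⁻ w, ‖f w‖ₑ := by
    have e1 : ∀ σ : SL(2, ℤ), ∫⁻ w in 𝒟, ‖f (σ • w)‖ₑ = ∫⁻ w in 𝒟, ‖f' (σ • w)‖ₑ := by
      intro σ
      refine lintegral_congr_ae (ae_restrict_of_ae ?_)
      filter_upwards [(measurePreserving_sl σ).quasiMeasurePreserving.ae_eq_comp hff'] with w hw
      have : f (σ • w) = f' (σ • w) := hw
      rw [this]
    have e2 : ∫⁻ w, ‖f w‖ₑ = ∫⁻ w, ‖f' w‖ₑ := by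
      refine lintegral_congr_ae ?_
      filter_upwards [hff'] with w hw
      rw [hw]
    simp_rw [e1]
    rw [e2, ← lintegral_unfold hf'm.enorm, lintegral_tsum]
    intro σ
    exact (hf'm.enorm.comp (measurePreserving_sl σ).measurable).aemeasurable
  have hfin : (2 * ∫⁻ w, ‖f w‖ₑ) ≠ ∞ :=
    ENNReal.mul_ne_top (by simp) hf.2.ne
  rw [integral_tsum (fun σ => (hint σ).aestronglyMeasurable.restrict) (by rw [key]; exact hfin)]
  simp_rw [h1]
  rw [← integral_tsum]
  · rw [← integral_const_mul]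
    refine integral_congr_ae ?_
    filter_upwards [ae_pair] with w hw
    obtain ⟨g, hg⟩ := hw
    have h3 : (∑' σ : SL(2, ℤ), if σ⁻¹ • w ∈ 𝒟 then f w else 0) =
        ∑' σ : SL(2, ℤ), if σ • w ∈ 𝒟 then f w else 0 :=
      (Equiv.inv (SL(2, ℤ))).tsum_eq (fun σ : SL(2, ℤ) => if σ • w ∈ 𝒟 then f w else 0)
    simp only [h3, tsum_pair _ g hg, two_mul]
  · intro σ
    have hms : MeasurableSet {v : ℍ | σ⁻¹ • v ∈ 𝒟} :=
      (measurePreserving_sl σ⁻¹).measurable measurableSet_fd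
    have := hf.aestronglyMeasurable.indicator hms
    refine this.congr (Filter.Eventually.of_forall fun v => ?_)
    simp [Set.indicator]
  · have e3 : ∀ σ : SL(2, ℤ), ∫⁻ v : ℍ, ‖if σ⁻¹ • v ∈ 𝒟 then f v else 0‖ₑ =
        ∫⁻ w in 𝒟, ‖f (σ • w)‖ₑ := by
      intro σ
      rw [← lintegral_indicator measurableSet_fd]
      have h2 := (measurePreserving_sl σ).lintegral_comp_emb (measurableEmbedding_sl σ)
        (fun v => ‖if σ⁻¹ • v ∈ 𝒟 then f v else 0‖ₑ)
      rw [← h2]
      refine lintegral_congr fun w => ?_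
      rw [inv_smul_smul]
      by_cases h : w ∈ 𝒟 <;> simp [Set.indicator, h]
    simp_rw [e3]
    rw [key]; exact hfin

end Pool.Agent.H19.Maass
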