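import Mathlib
import Pool.Agent.H19.Maass.Unfold

set_option autoImplicit false

namespace Pool.Agent.H19.Maass

open MeasureTheory UpperHalfPlane ModularGroup Metric
open scoped MatrixGroups Modular UpperHalfPlane ENNReal ComplexConjugate

/-- A bounded measurable kernel supported in `[0, R]`. -/
structure Ker (k : ℝ → ℝ) (R : ℝ) : Prop where
  meas : Measurable k
  bdd : ∃ B, ∀ r, |k r| ≤ B
  supp : ∀ r, R < r → k r = 0

instance : ContinuousConstSMul SL(2, ℤ) ℍ := ⟨fun g =>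
  (continuous_const_smul (g : GL (Fin 2) ℝ) : Continuous fun z : ℍ => (g : GL (Fin 2) ℝ) • z)⟩

lemma dist_sl (σ : SL(2, ℤ)) (z w : ℍ) : dist (σ • z) (σ • w) = dist z w := by
  have h : ∀ z : ℍ, σ • z = (Matrix.SpecialLinearGroup.map (Int.castRingHom ℝ) σ) • z := by
    intro z
    rfl
  rw [h z, h w, dist_smul]

lemma dist_sl' (σ : SL(2, ℤ)) (z w : ℍ) : dist z (σ • w) = dist (σ⁻¹ • z) w := by
  rw [← dist_sl σ (σ⁻¹ • z) w, smul_inv_smul]

lemma finite_near {K L : Set ℍ} (hK : IsCompact K) (hL : IsCompact L) :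
    {σ : SL(2, ℤ) | ∃ w ∈ K, σ • w ∈ L}.Finite := by
  have h1 := finite_disjoint_inter_image (Γ := (𝒮ℒ : Subgroup (GL (Fin 2) ℝ))) hK hL
  let f : SL(2, ℤ) → (𝒮ℒ : Subgroup (GL (Fin 2) ℝ)) := fun σ =>
    ⟨Matrix.SpecialLinearGroup.mapGL ℝ σ, ⟨σ, rfl⟩⟩
  have hf : Function.Injective f := by
    intro a b hab
    exact Matrix.SpecialLinearGroup.mapGL_injective (congrArg Subtype.val hab)
  refine (h1.preimage hf.injOn).subset ?_
  rintro σ ⟨w, hw, hσ⟩
  exact ⟨σ • w, ⟨w, hw, rfl⟩, hσ⟩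

/-- automorphic kernel -/
noncomputable def pk (k : ℝ → ℝ) (ζ w : ℍ) : ℝ := ∑' σ : SL(2, ℤ), k (dist ζ (σ • w))

/-- convolution square of the kernel -/
noncomputable def KK (k : ℝ → ℝ) (z w : ℍ) : ℝ := ∫ v : ℍ, k (dist z v) * k (dist v w)

variable {k : ℝ → ℝ} {R : ℝ}

lemma exists_finset_near (ζ ζ' : ℍ) (ρ R : ℝ) : ∃ S : Finset SL(2, ℤ),
    ∀ w ∈ closedBall ζ' ρ, ∀ σ : SL(2, ℤ), dist ζ (σ • w) ≤ R → σ ∈ S := by
  have h := finite_near (isCompact_closedBall ζ' ρ) (isCompact_closedBall ζ R)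
  refine ⟨h.toFinset, fun w hw σ hσ => ?_⟩
  rw [Set.Finite.mem_toFinset]
  exact ⟨w, hw, by rwa [mem_closedBall, dist_comm]⟩

lemma pk_eq_sum (hk : Ker k R) (ζ w : ℍ) {S : Finset SL(2, ℤ)}
    (hS : ∀ σ : SL(2, ℤ), dist ζ (σ • w) ≤ R → σ ∈ S) :
    pk k ζ w = ∑ σ ∈ S, k (dist ζ (σ • w)) := by
  refine tsum_eq_sum fun σ hσ => ?_
  refine hk.supp _ ?_
  by_contra h
  exact hσ (hS σ (not_lt.1 h))

lemma pk_smul (k : ℝ → ℝ) (ζ w : ℍ) (γ : SL(2, ℤ)) : pk k ζ (γ • w) = pk k ζ w := by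
  unfold pk
  rw [← (Equiv.mulRight γ).tsum_eq (fun σ : SL(2, ℤ) => k (dist ζ (σ • w)))]
  simp [mul_smul]

lemma measurable_kd (hk : Ker k R) (ζ : ℍ) : Measurable fun w : ℍ => k (dist ζ w) :=
  hk.meas.comp (continuous_const.dist continuous_id).measurable

lemma measurable_kds (hk : Ker k R) (ζ : ℍ) (σ : SL(2, ℤ)) :
    Measurable fun w : ℍ => k (dist ζ (σ • w)) :=
  hk.meas.comp (continuous_const.dist (continuous_const_smul σ)).measurable

lemma measurable_pk (hk : Ker k R) (ζ : ℍ) : Measurable (pk k ζ) := by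
  choose S hS using fun n : ℕ => exists_finset_near ζ ζ (n : ℝ) R
  refine measurable_of_tendsto_metrizable (f := fun (n : ℕ) w => ∑ σ ∈ S n, k (dist ζ (σ • w)))
    (fun n => Finset.measurable_fun_sum _ fun σ _ => measurable_kds hk ζ σ) ?_
  rw [tendsto_pi_nhds]
  intro w
  refine tendsto_const_nhds.congr' ?_
  obtain ⟨N, hN⟩ := exists_nat_ge (dist w ζ)
  filter_upwards [Filter.eventually_ge_atTop N] with n hn
  refine pk_eq_sum hk ζ w fun σ hσ => hS n w ?_ σ hσ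
  rw [mem_closedBall]
  exact hN.trans (by exact_mod_cast hn)

lemma pk_bdd (hk : Ker k R) (ζ ζ' : ℍ) (ρ : ℝ) : ∃ B, ∀ w ∈ closedBall ζ' ρ, |pk k ζ w| ≤ B := by
  obtain ⟨B, hB⟩ := hk.bdd
  obtain ⟨S, hS⟩ := exists_finset_near ζ ζ' ρ R
  refine ⟨∑ σ ∈ S, B, fun w hw => ?_⟩
  rw [pk_eq_sum hk ζ w (hS w hw)]
  exact (Finset.abs_sum_le_sum_abs _ _).trans (Finset.sum_le_sum fun σ _ => hB _)

lemma integrable_k_mul (hk : Ker k R) (ζ : ℍ) {f : ℍ → ℂ} (hf : Measurable f)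
    (hfb : ∃ B, ∀ w ∈ closedBall ζ R, ‖f w‖ ≤ B) :
    Integrable fun w : ℍ => (k (dist ζ w) : ℂ) * f w := by
  obtain ⟨B, hB⟩ := hfb
  obtain ⟨A, hA⟩ := hk.bdd
  have hA0 : 0 ≤ A := (abs_nonneg _).trans (hA 0)
  have hmeas : Measurable fun w : ℍ => (k (dist ζ w) : ℂ) * f w :=
    (Complex.measurable_ofReal.comp (measurable_kd hk ζ)).mul hf
  rw [← integrableOn_iff_integrable_of_support_subset (s := closedBall ζ R)]
  · refine Measure.integrableOn_of_bounded (M := A * B) ?_ hmeas.aestronglyMeasurable ?_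
    · exact (isCompact_closedBall ζ R).measure_lt_top.ne
    · refine (ae_restrict_iff' isClosed_closedBall.measurableSet).2
        (Filter.Eventually.of_forall fun w hw => ?_)
      rw [norm_mul, Complex.norm_real]
      exact mul_le_mul (hA _) (hB w hw) (norm_nonneg _) hA0
  · intro w hw
    rw [Function.mem_support] at hw
    by_contra h
    apply hw
    rw [mem_closedBall, not_le, dist_comm] at h
    rw [hk.supp _ h]; simp

lemma bdd_of_continuous {f : ℍ → ℂ} (hf : Continuous f) (ζ : ℍ) (R : ℝ) :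
    ∃ B, ∀ w ∈ closedBall ζ R, ‖f w‖ ≤ B :=
  (isCompact_closedBall ζ R).exists_bound_of_continuousOn hf.continuousOn

/-- pairing of an automorphic function with the automorphic kernel -/
theorem integral_mul_pk (hk : Ker k R) (ζ : ℍ) {f : ℍ → ℂ} (hf : Measurable f)
    (hfb : ∃ B, ∀ w ∈ closedBall ζ R, ‖f w‖ ≤ B)
    (hinv : ∀ (γ : SL(2, ℤ)) w, f (γ • w) = f w) :
    ∫ w in 𝒟, f w * (pk k ζ w : ℂ) = 2 * ∫ w : ℍ, (k (dist ζ w) : ℂ) * f w := by
  rw [← integral_unfold (integrable_k_mul hk ζ hf hfb)]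
  refine integral_congr_ae (Filter.Eventually.of_forall fun w => ?_)
  simp only [hinv]
  rw [tsum_mul_right, mul_comm]
  unfold pk
  rw [Complex.ofReal_tsum]

theorem integral_pk_mul_pk (hk : Ker k R) (ζ ζ' : ℍ) {S : Finset SL(2, ℤ)}
    (hS : ∀ w ∈ closedBall ζ R, ∀ σ : SL(2, ℤ), dist ζ' (σ • w) ≤ R → σ ∈ S) :
    ∫ w in 𝒟, (pk k ζ' w : ℂ) * (pk k ζ w : ℂ) =
      2 * ∑ σ ∈ S, (KK k ζ (σ⁻¹ • ζ') : ℂ) := by
  have hm : Measurable fun w => (pk k ζ' w : ℂ) :=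
    Complex.measurable_ofReal.comp (measurable_pk hk ζ')
  have hb : ∃ B, ∀ w ∈ closedBall ζ R, ‖(pk k ζ' w : ℂ)‖ ≤ B := by
    obtain ⟨B, hB⟩ := pk_bdd hk ζ' ζ R
    exact ⟨B, fun w hw => by rw [Complex.norm_real]; exact hB w hw⟩
  rw [integral_mul_pk hk ζ hm hb (fun γ w => by rw [pk_smul])]
  congr 1
  have h1 : ∀ w : ℍ, (k (dist ζ w) : ℂ) * (pk k ζ' w : ℂ) =
      ∑ σ ∈ S, (k (dist ζ w) : ℂ) * (k (dist ζ' (σ • w)) : ℂ) := by
    intro w
    rw [← Finset.mul_sum]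
    by_cases hw : w ∈ closedBall ζ R
    · rw [pk_eq_sum hk ζ' w (hS w hw)]
      push_cast
      rfl
    · rw [mem_closedBall, not_le, dist_comm] at hw
      rw [hk.supp _ hw]; simp
  simp_rw [h1]
  rw [integral_finsetSum]
  · refine Finset.sum_congr rfl fun σ _ => ?_
    unfold KK
    rw [← integral_complex_ofReal]
    refine integral_congr_ae (Filter.Eventually.of_forall fun w => ?_)
    simp only
    rw [dist_sl' σ ζ' w, dist_comm (σ⁻¹ • ζ') w]
    push_cast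
    rfl
  · intro σ _
    refine integrable_k_mul hk ζ (Complex.measurable_ofReal.comp (measurable_kds hk ζ' σ)) ?_
    obtain ⟨B, hB⟩ := hk.bdd
    exact ⟨B, fun w _ => by rw [Complex.norm_real]; exact hB _⟩

lemma memLp_pk (hk : Ker k R) (ζ : ℍ) :
    MemLp (fun w => (pk k ζ w : ℂ)) 2 ((volume : Measure ℍ).restrict 𝒟) := by
  have hm : Measurable fun w => (pk k ζ w : ℂ) :=
    Complex.measurable_ofReal.comp (measurable_pk hk ζ)
  have hb : ∃ B, ∀ w ∈ closedBall ζ R, ‖(pk k ζ w : ℂ)‖ ≤ B := by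
    obtain ⟨B, hB⟩ := pk_bdd hk ζ ζ R
    exact ⟨B, fun w hw => by rw [Complex.norm_real]; exact hB w hw⟩
  have hint := integrable_k_mul hk ζ hm hb
  rw [memLp_two_iff_integrable_sq_norm hm.aestronglyMeasurable]
  refine ⟨(hm.norm.pow_const 2).aestronglyMeasurable, ?_⟩
  rw [hasFiniteIntegral_iff_enorm]
  set f : ℍ → ℝ≥0∞ := fun w => ‖(k (dist ζ w) : ℂ) * (pk k ζ w : ℂ)‖ₑ with hf
  have hfm : Measurable f :=
    ((Complex.measurable_ofReal.comp (measurable_kd hk ζ)).mul hm).enorm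
  have h1 : ∀ w : ℍ, ‖‖(pk k ζ w : ℂ)‖ ^ 2‖ₑ ≤ ∑' σ : SL(2, ℤ), f (σ • w) := by
    intro w
    have h2 : ∀ σ : SL(2, ℤ), f (σ • w) = ‖k (dist ζ (σ • w))‖ₑ * ‖pk k ζ w‖ₑ := by
      intro σ
      rw [hf]
      simp only [pk_smul, enorm_mul]
      rw [← enorm_norm, Complex.norm_real, enorm_norm]
      congr 1
      rw [← enorm_norm, Complex.norm_real, enorm_norm]
    simp_rw [h2]
    rw [ENNReal.tsum_mul_right]
    have h3 : ‖‖(pk k ζ w : ℂ)‖ ^ 2‖ₑ = ‖pk k ζ w‖ₑ * ‖pk k ζ w‖ₑ := by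
      rw [Complex.norm_real, sq, enorm_mul, enorm_norm]
    rw [h3]
    gcongr
    exact enorm_tsum_le_tsum_enorm
  calc ∫⁻ w in 𝒟, ‖‖(pk k ζ w : ℂ)‖ ^ 2‖ₑ ≤ ∫⁻ w in 𝒟, ∑' σ : SL(2, ℤ), f (σ • w) :=
        lintegral_mono h1
    _ = 2 * ∫⁻ w, f w := lintegral_unfold hfm
    _ < ∞ := ENNReal.mul_lt_top (by simp) hint.2

/-- Bessel's inequality for automorphic kernels. -/
theorem bessel (hk : Ker k R) {J ι : Type*} [Fintype J] [DecidableEq J] (u : J → ℍ → ℂ)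
    (hu : ∀ j, Continuous (u j)) (hinv : ∀ j (γ : SL(2, ℤ)) w, u j (γ • w) = u j w)
    (hL2 : ∀ j, MemLp (u j) 2 ((volume : Measure ℍ).restrict 𝒟))
    (horth : ∀ i j, ∫ w in 𝒟, u i w * conj (u j w) = if i = j then 1 else 0)
    (h : J → ℂ) (heig : ∀ j z, ∫ w : ℍ, (k (dist z w) : ℂ) * u j w = h j * u j z)
    (I : Finset ι) (a : ι → ℂ) (ζ : ι → ℍ) (Φ : ι → ι → ℝ)
    (hΦ : ∀ i ∈ I, ∀ i' ∈ I, ‖∫ w in 𝒟, (pk k (ζ i') w : ℂ) * (pk k (ζ i) w : ℂ)‖ ≤ Φ i i') :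
    ∑ j, ‖2 * h j * ∑ i ∈ I, a i * u j (ζ i)‖ ^ 2 ≤
      ∑ i ∈ I, ∑ i' ∈ I, ‖a i‖ * ‖a i'‖ * Φ i i' := by
  set μ := (volume : Measure ℍ).restrict 𝒟 with hμ
  set F : ℍ → ℂ := fun w => ∑ i ∈ I, a i * (pk k (ζ i) w : ℂ) with hF
  have hFL : MemLp F 2 μ := memLp_finsetSum I fun i _ => (memLp_pk hk (ζ i)).const_mul (a i)
  have hcL : ∀ j, MemLp (fun w => conj (u j w)) 2 μ := fun j => (hL2 j).star
  set e : J → Lp ℂ 2 μ := fun j => (hcL j).toLp _ with he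
  have hb : ∀ j, ∫ w, u j w * F w ∂μ = 2 * h j * ∑ i ∈ I, a i * u j (ζ i) := by
    intro j
    have h1 : ∀ w, u j w * F w = ∑ i ∈ I, a i * (u j w * (pk k (ζ i) w : ℂ)) := by
      intro w
      rw [hF]; simp only
      rw [Finset.mul_sum]
      exact Finset.sum_congr rfl fun i _ => by ring
    simp_rw [h1]
    rw [integral_finsetSum]
    · rw [Finset.mul_sum]
      refine Finset.sum_congr rfl fun i _ => ?_
      rw [integral_const_mul, hμ, integral_mul_pk hk (ζ i) (hu j).measurable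
        (bdd_of_continuous (hu j) _ _) (hinv j), heig]
      ring
    · intro i _
      exact ((hL2 j).integrable_mul (memLp_pk hk (ζ i))).const_mul _
  have hinner : ∀ j, inner ℂ (e j) (hFL.toLp F) = 2 * h j * ∑ i ∈ I, a i * u j (ζ i) := by
    intro j
    rw [← hb, L2.inner_def]
    refine integral_congr_ae ?_
    filter_upwards [(hcL j).coeFn_toLp, hFL.coeFn_toLp] with w h1 h2
    rw [h1, h2]
    simp [mul_comm]
  have hon : Orthonormal ℂ e := by
    rw [orthonormal_iff_ite]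
    intro i j
    rw [L2.inner_def, ← horth i j]
    refine integral_congr_ae ?_
    filter_upwards [(hcL i).coeFn_toLp, (hcL j).coeFn_toLp] with w h1 h2
    rw [h1, h2]
    simp [mul_comm]
  have hnorm : ‖hFL.toLp F‖ ^ 2 ≤ ∑ i ∈ I, ∑ i' ∈ I, ‖a i‖ * ‖a i'‖ * Φ i i' := by
    have h1 : inner ℂ (hFL.toLp F) (hFL.toLp F) = ∫ w, conj (F w) * F w ∂μ := by
      rw [L2.inner_def]
      refine integral_congr_ae ?_
      filter_upwards [hFL.coeFn_toLp] with w h1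
      rw [h1, RCLike.inner_apply, mul_comm]
    have h2 : ‖hFL.toLp F‖ ^ 2 = ‖∫ w, conj (F w) * F w ∂μ‖ := by
      rw [← h1, inner_self_eq_norm_sq_to_K]
      simp
    rw [h2]
    have h3 : ∀ w, conj (F w) * F w = ∑ i ∈ I, ∑ i' ∈ I, (conj (a i) * a i') *
        ((pk k (ζ i') w : ℂ) * (pk k (ζ i) w : ℂ)) := by
      intro w
      rw [hF]; simp only
      rw [map_sum, Finset.sum_mul_sum]
      refine Finset.sum_congr rfl fun i _ => Finset.sum_congr rfl fun i' _ => ?_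
      rw [map_mul, Complex.conj_ofReal]
      ring
    simp_rw [h3]
    have hint : ∀ i i' : ι, Integrable (fun w => (conj (a i) * a i') *
        ((pk k (ζ i') w : ℂ) * (pk k (ζ i) w : ℂ))) μ := fun i i' =>
      ((memLp_pk hk (ζ i')).integrable_mul (memLp_pk hk (ζ i))).const_mul _
    rw [integral_finsetSum _ (fun i _ => integrable_finsetSum _ fun i' _ => hint i i')]
    refine (norm_sum_le _ _).trans (Finset.sum_le_sum fun i hi => ?_)
    rw [integral_finsetSum _ (fun i' _ => hint i i')]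
    refine (norm_sum_le _ _).trans (Finset.sum_le_sum fun i' hi' => ?_)
    rw [integral_const_mul, norm_mul, norm_mul, RCLike.norm_conj]
    exact mul_le_mul_of_nonneg_left (hΦ i hi i' hi') (by positivity)
  have hbes := hon.sum_inner_products_le (hFL.toLp F) (s := Finset.univ)
  simp_rw [hinner] at hbes
  exact hbes.trans hnorm

end Pool.Agent.H19.Maass
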