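import Mathlib

set_option autoImplicit false

namespace Pool.Agent.H19.Maass

open MeasureTheory Complex Set Filter Topology

/-- the open upper half plane -/
def UH : Set ℂ := {z : ℂ | 0 < z.im}

/-- the open left half plane -/
def LH : Set ℂ := {z : ℂ | z.re < 0}

lemma isOpen_UH : IsOpen UH := isOpen_lt continuous_const Complex.continuous_im
lemma isOpen_LH : IsOpen LH := isOpen_lt Complex.continuous_re continuous_const

/-- `C²` eigenfunctions of the hyperbolic Laplacian -/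
structure IsEig (lam : ℂ) (F : ℂ → ℂ) : Prop where
  smooth : ContDiffOn ℝ 2 F UH
  eq : ∀ z ∈ UH, ((z.im : ℂ)) ^ 2 *
    (fderiv ℝ (fderiv ℝ F) z 1 1 + fderiv ℝ (fderiv ℝ F) z I I) = -lam * F z

lemma hasDerivAt_param {f f' : ℝ → ℝ → ℂ} {a b : ℝ} {s : Set ℝ} (hs : IsOpen s)
    (hf : ∀ x ∈ s, Continuous (f x))
    (hd : ∀ x ∈ s, ∀ t, HasDerivAt (fun x => f x t) (f' x t) x)
    (hc : ContinuousOn (fun p : ℝ × ℝ => f' p.1 p.2) (s ×ˢ univ)) {x0 : ℝ} (hx0 : x0 ∈ s) :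
    HasDerivAt (fun x => ∫ t in a..b, f x t) (∫ t in a..b, f' x0 t) x0 := by
  obtain ⟨ε, hε, hball⟩ := Metric.isOpen_iff.1 hs x0 hx0
  have hsub : Metric.closedBall x0 (ε / 2) ⊆ s := fun x hx =>
    hball (lt_of_le_of_lt (Metric.mem_closedBall.1 hx) (by linarith))
  have hcomp : IsCompact (Metric.closedBall x0 (ε / 2) ×ˢ uIcc a b) :=
    (isCompact_closedBall _ _).prod isCompact_uIcc
  obtain ⟨C, hC⟩ := hcomp.exists_bound_of_continuousOn
    (hc.mono (prod_mono hsub (subset_univ _)))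
  have hf'c : ∀ x ∈ s, Continuous (f' x) := by
    intro x hx
    have h1 : Continuous fun t : ℝ => (x, t) := by fun_prop
    have := hc.comp_continuous h1 (fun t => ⟨hx, mem_univ _⟩)
    exact this
  refine (intervalIntegral.hasDerivAt_integral_of_dominated_loc_of_deriv_le
    (F := f) (F' := f') (x₀ := x0) (s := Metric.closedBall x0 (ε / 2)) (bound := fun _ => C)
    (Metric.closedBall_mem_nhds _ (by linarith)) ?_ ?_ ?_ ?_ ?_ ?_).2
  · filter_upwards [hs.mem_nhds hx0] with x hx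
    exact (hf x hx).aestronglyMeasurable
  · exact (hf x0 hx0).intervalIntegrable _ _
  · exact (hf'c x0 hx0).aestronglyMeasurable
  · refine Eventually.of_forall fun t ht x hx => ?_
    exact hC (x, t) ⟨hx, uIoc_subset_uIcc ht⟩
  · exact intervalIntegrable_const
  · exact Eventually.of_forall fun t _ x hx => hd x (hsub hx) t

lemma ContDiffOn.hasFDerivAt_UH {F : ℂ → ℂ} (h : ContDiffOn ℝ 2 F UH) {z : ℂ} (hz : z ∈ UH) :
    HasFDerivAt F (fderiv ℝ F z) z :=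
  ((h.contDiffAt (isOpen_UH.mem_nhds hz)).differentiableAt (by norm_num)).hasFDerivAt

lemma ContDiffOn.fderiv_UH {F : ℂ → ℂ} (h : ContDiffOn ℝ 2 F UH) :
    ContDiffOn ℝ 1 (fderiv ℝ F) UH :=
  h.fderiv_of_isOpen isOpen_UH (by norm_num)

lemma ContDiffOn.hasFDerivAt2_UH {F : ℂ → ℂ} (h : ContDiffOn ℝ 2 F UH) {z : ℂ} (hz : z ∈ UH) :
    HasFDerivAt (fderiv ℝ F) (fderiv ℝ (fderiv ℝ F) z) z :=
  (((ContDiffOn.fderiv_UH h).contDiffAt (isOpen_UH.mem_nhds hz)).differentiableAt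
    (by norm_num)).hasFDerivAt

lemma continuousOn_D1 {F : ℂ → ℂ} (h : ContDiffOn ℝ 2 F UH) : ContinuousOn (fderiv ℝ F) UH :=
  (ContDiffOn.fderiv_UH h).continuousOn

lemma continuousOn_D2 {F : ℂ → ℂ} (h : ContDiffOn ℝ 2 F UH) :
    ContinuousOn (fderiv ℝ (fderiv ℝ F)) UH :=
  (ContDiffOn.fderiv_UH h).continuousOn_fderiv_of_isOpen isOpen_UH (by norm_num)

section comp
variable {F ψ : ℂ → ℂ}

/-- first derivative of `F ∘ ψ` in direction `v` -/
noncomputable def P1 (F ψ : ℂ → ℂ) (ζ v : ℂ) : ℂ := fderiv ℝ F (ψ ζ) (deriv ψ ζ * v)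

/-- second derivative of `F ∘ ψ` in direction `v` -/
noncomputable def P2 (F ψ : ℂ → ℂ) (ζ v : ℂ) : ℂ :=
  fderiv ℝ (fderiv ℝ F) (ψ ζ) (deriv ψ ζ * v) (deriv ψ ζ * v) +
    fderiv ℝ F (ψ ζ) (deriv (deriv ψ) ζ * v * v)

lemma hasDerivAt_P1 (hF : ContDiffOn ℝ 2 F UH) (hψ : DifferentiableOn ℂ ψ LH)
    (hm : MapsTo ψ LH UH) {c : ℝ → ℂ} {v : ℂ} {t : ℝ} (hc : HasDerivAt c v t)
    (hct : c t ∈ LH) :
    HasDerivAt (fun s => F (ψ (c s))) (P1 F ψ (c t) v) t := by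
  have h1 : HasDerivAt ψ (deriv ψ (c t)) (c t) :=
    (hψ.differentiableAt (isOpen_LH.mem_nhds hct)).hasDerivAt
  have h2 : HasDerivAt (fun s => ψ (c s)) (deriv ψ (c t) * v) t := h1.comp t hc
  exact (ContDiffOn.hasFDerivAt_UH hF (hm hct)).comp_hasDerivAt t h2

lemma hasDerivAt_P2 (hF : ContDiffOn ℝ 2 F UH) (hψ : DifferentiableOn ℂ ψ LH)
    (hm : MapsTo ψ LH UH) {c : ℝ → ℂ} {v : ℂ} {t : ℝ} (hc : HasDerivAt c v t)
    (hct : c t ∈ LH) :
    HasDerivAt (fun s => P1 F ψ (c s) v) (P2 F ψ (c t) v) t := by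
  have h1 : HasDerivAt ψ (deriv ψ (c t)) (c t) :=
    (hψ.differentiableAt (isOpen_LH.mem_nhds hct)).hasDerivAt
  have h1' : HasDerivAt (deriv ψ) (deriv (deriv ψ) (c t)) (c t) :=
    ((hψ.deriv isOpen_LH).differentiableAt (isOpen_LH.mem_nhds hct)).hasDerivAt
  have h2 : HasDerivAt (fun s => ψ (c s)) (deriv ψ (c t) * v) t := h1.comp t hc
  have h3 : HasDerivAt (fun s => deriv ψ (c s) * v) (deriv (deriv ψ) (c t) * v * v) t :=
    (h1'.comp t hc).mul_const v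
  have h4 : HasDerivAt (fun s => fderiv ℝ F (ψ (c s)))
      (fderiv ℝ (fderiv ℝ F) (ψ (c t)) (deriv ψ (c t) * v)) t :=
    (ContDiffOn.hasFDerivAt2_UH hF (hm hct)).comp_hasDerivAt t h2
  exact h4.clm_apply h3

lemma continuousOn_P1 (hF : ContDiffOn ℝ 2 F UH) (hψ : DifferentiableOn ℂ ψ LH)
    (hm : MapsTo ψ LH UH) (v : ℂ) : ContinuousOn (fun ζ => P1 F ψ ζ v) LH := by
  have h1 := hψ.continuousOn
  have h2 := (hψ.deriv isOpen_LH).continuousOn
  have h3 : ContinuousOn (fun ζ => fderiv ℝ F (ψ ζ)) LH := (continuousOn_D1 hF).comp h1 hm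
  exact h3.clm_apply (h2.mul continuousOn_const)

lemma continuousOn_P2 (hF : ContDiffOn ℝ 2 F UH) (hψ : DifferentiableOn ℂ ψ LH)
    (hm : MapsTo ψ LH UH) (v : ℂ) : ContinuousOn (fun ζ => P2 F ψ ζ v) LH := by
  have h1 := hψ.continuousOn
  have h2 := (hψ.deriv isOpen_LH).continuousOn
  have h2' := ((hψ.deriv isOpen_LH).deriv isOpen_LH).continuousOn
  have h3 : ContinuousOn (fun ζ => fderiv ℝ F (ψ ζ)) LH := (continuousOn_D1 hF).comp h1 hm
  have h4 : ContinuousOn (fun ζ => fderiv ℝ (fderiv ℝ F) (ψ ζ)) LH :=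
    (continuousOn_D2 hF).comp h1 hm
  exact ((h4.clm_apply (h2.mul continuousOn_const)).clm_apply (h2.mul continuousOn_const)).add
    (h3.clm_apply ((h2'.mul continuousOn_const).mul continuousOn_const))

lemma bilin_conf (B : ℂ →L[ℝ] ℂ →L[ℝ] ℂ) (w : ℂ) :
    B w w + B (w * I) (w * I) = (normSq w : ℂ) * (B 1 1 + B I I) := by
  have h1 : w = w.re • (1 : ℂ) + w.im • I := by
    apply Complex.ext <;> simp
  have h2 : w * I = (-w.im) • (1 : ℂ) + w.re • I := by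
    apply Complex.ext <;> simp
  rw [h2]
  conv_lhs => rw [show B w w = B (w.re • (1 : ℂ) + w.im • I) (w.re • (1 : ℂ) + w.im • I) by rw [← h1]]
  simp only [map_add, map_smul, _root_.add_apply, _root_.smul_apply]
  simp only [normSq_apply, Complex.real_smul]
  push_cast
  ring

lemma P2_add (F ψ : ℂ → ℂ) (ζ : ℂ) : P2 F ψ ζ 1 + P2 F ψ ζ I =
    (normSq (deriv ψ ζ) : ℂ) * (fderiv ℝ (fderiv ℝ F) (ψ ζ) 1 1 +
      fderiv ℝ (fderiv ℝ F) (ψ ζ) I I) := by
  rw [← bilin_conf]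
  unfold P2
  have h : deriv (deriv ψ) ζ * I * I = -(deriv (deriv ψ) ζ * 1 * 1) := by
    rw [mul_assoc, I_mul_I]; ring
  rw [h, map_neg]
  simp only [mul_one]
  ring

end comp

end Pool.Agent.H19.Maass
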