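import Mathlib
import Pool.Agent.H19.Maass.Polar

set_option autoImplicit false

namespace Pool.Agent.H19.Maass

open MeasureTheory Complex Set Filter Topology

/-- polar coordinates around `z` -/
noncomputable def psi (z ζ : ℂ) : ℂ := z.re + z.im * I * ((1 + exp ζ) / (1 - exp ζ))

lemma norm_exp_lt_one {ζ : ℂ} (h : ζ ∈ LH) : ‖exp ζ‖ < 1 := by
  rw [Complex.norm_exp, ← Real.exp_zero]
  exact Real.exp_lt_exp.2 h

lemma one_sub_exp_ne {ζ : ℂ} (h : ζ ∈ LH) : 1 - exp ζ ≠ 0 := by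
  intro h1
  have h2 := norm_exp_lt_one h
  have h3 : exp ζ = 1 := (sub_eq_zero.1 h1).symm
  rw [h3] at h2
  simp at h2

lemma psi_im (z ζ : ℂ) :
    (psi z ζ).im = z.im * ((1 - normSq (exp ζ)) / normSq (1 - exp ζ)) := by
  have h1 : ((1 + exp ζ) / (1 - exp ζ)).re = (1 - normSq (exp ζ)) / normSq (1 - exp ζ) := by
    rw [div_re, ← add_div]
    congr 1
    simp only [normSq_apply, add_re, sub_re, add_im, sub_im, one_re, one_im]
    ring
  rw [← h1]
  unfold psi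
  simp only [add_im, mul_im, ofReal_im, ofReal_re, mul_re, I_re, I_im]
  ring

lemma psi_mem (z : ℂ) (hz : z ∈ UH) : MapsTo (psi z) LH UH := by
  intro ζ h
  show 0 < (psi z ζ).im
  rw [psi_im z ζ]
  have h1 : normSq (exp ζ) < 1 := by
    rw [normSq_eq_norm_sq]
    have := norm_exp_lt_one h
    nlinarith [norm_nonneg (exp ζ)]
  exact mul_pos hz (div_pos (by linarith) (normSq_pos.2 (one_sub_exp_ne h)))

lemma hasDerivAt_psi (z : ℂ) {ζ : ℂ} (h : ζ ∈ LH) :
    HasDerivAt (psi z) (z.im * I * (2 * exp ζ / (1 - exp ζ) ^ 2)) ζ := by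
  have h0 := one_sub_exp_ne h
  have h1 : HasDerivAt (fun ζ => 1 + exp ζ) (exp ζ) ζ := (Complex.hasDerivAt_exp ζ).const_add 1
  have h2 : HasDerivAt (fun ζ => 1 - exp ζ) (-exp ζ) ζ := (Complex.hasDerivAt_exp ζ).const_sub 1
  have h3 := ((h1.div h2 h0).const_mul ((z.im : ℂ) * I)).const_add (z.re : ℂ)
  convert! h3 using 1
  congr 1
  field_simp
  ring

lemma differentiableOn_psi (z : ℂ) : DifferentiableOn ℂ (psi z) LH := fun _ h =>
  (hasDerivAt_psi z h).differentiableAt.differentiableWithinAt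

lemma deriv_psi (z : ℂ) {ζ : ℂ} (h : ζ ∈ LH) :
    deriv (psi z) ζ = z.im * I * (2 * exp ζ / (1 - exp ζ) ^ 2) := (hasDerivAt_psi z h).deriv

lemma psi_conf (z : ℂ) (hz : z ∈ UH) {ζ : ℂ} (h : ζ ∈ LH) :
    normSq (deriv (psi z) ζ) = (psi z ζ).im ^ 2 / Real.sinh ζ.re ^ 2 := by
  have h0 := one_sub_exp_ne h
  have hz' : 0 < z.im := hz
  have hn : normSq (1 - exp ζ) ≠ 0 := by rwa [Ne, normSq_eq_zero]
  have hs : Real.sinh ζ.re ≠ 0 := by
    rw [Ne, Real.sinh_eq_zero]; exact ne_of_lt h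
  rw [deriv_psi z h, psi_im z ζ]
  simp only [map_mul, map_div₀, map_pow, normSq_I, normSq_ofReal]
  have h2 : normSq (2 : ℂ) = 4 := by
    rw [show (2 : ℂ) = ((2 : ℝ) : ℂ) by norm_num, normSq_ofReal]; norm_num
  rw [h2, normSq_eq_norm_sq (exp ζ), Complex.norm_exp]
  have h3 : Real.sinh ζ.re = (Real.exp ζ.re - (Real.exp ζ.re)⁻¹) / 2 := by
    rw [Real.sinh_eq, Real.exp_neg]
  have he : Real.exp ζ.re ≠ 0 := (Real.exp_pos _).ne'
  have h4 : 1 - Real.exp ζ.re ^ 2 ≠ 0 := by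
    have : Real.exp ζ.re < 1 := by rw [← Real.exp_zero]; exact Real.exp_lt_exp.2 h
    have := Real.exp_pos ζ.re
    nlinarith
  have h5 : Real.sinh ζ.re ^ 2 = (1 - Real.exp ζ.re ^ 2) ^ 2 / (4 * Real.exp ζ.re ^ 2) := by
    rw [h3]; field_simp; ring
  rw [h5]
  field_simp

lemma psi_add (z ζ : ℂ) : psi z (ζ + 2 * Real.pi * I) = psi z ζ := by
  unfold psi
  rw [Complex.exp_add]
  simp [Complex.exp_two_pi_mul_I]

lemma mem_LH {τ φ : ℝ} (h : τ < 0) : (τ : ℂ) + φ * I ∈ LH := by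
  show ((τ : ℂ) + φ * I).re < 0
  simpa using h

lemma mem_LH_add {ζ : ℂ} (h : ζ ∈ LH) : ζ + 2 * Real.pi * I ∈ LH := by
  show (ζ + 2 * Real.pi * I).re < 0
  have : (ζ + 2 * Real.pi * I).re = ζ.re := by simp
  rw [this]; exact h

lemma P1_add (F : ℂ → ℂ) (z : ℂ) {ζ : ℂ} (h : ζ ∈ LH) (v : ℂ) :
    P1 F (psi z) (ζ + 2 * Real.pi * I) v = P1 F (psi z) ζ v := by
  unfold P1
  rw [psi_add, deriv_psi z h, deriv_psi z (mem_LH_add h), Complex.exp_add]
  simp [Complex.exp_two_pi_mul_I]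

lemma exp_neg_two_le : Real.exp (-2) ≤ 1 / 7 := by
  have h1 : (2.7 : ℝ) ≤ Real.exp 1 := by have := Real.exp_one_gt_d9; linarith
  have h2 : (7 : ℝ) ≤ Real.exp 2 := by
    have : Real.exp 2 = Real.exp 1 * Real.exp 1 := by rw [← Real.exp_add]; norm_num
    rw [this]; nlinarith
  rw [Real.exp_neg, inv_eq_one_div]
  exact one_div_le_one_div_of_le (by norm_num) h2

lemma norm_one_sub_exp_ge {ζ : ℂ} (h : ζ.re ≤ -2) : 3 / 4 ≤ ‖1 - exp ζ‖ := by
  have h1 : ‖exp ζ‖ ≤ 1 / 4 := by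
    rw [Complex.norm_exp]
    exact ((Real.exp_le_exp.2 h).trans exp_neg_two_le).trans (by norm_num)
  have h2 := norm_sub_norm_le (1 : ℂ) (exp ζ)
  rw [norm_one] at h2
  linarith

lemma psi_sub (z : ℂ) {ζ : ℂ} (h : ζ ∈ LH) :
    psi z ζ - z = z.im * I * (2 * exp ζ / (1 - exp ζ)) := by
  have h0 := one_sub_exp_ne h
  conv_lhs => rw [← re_add_im z]
  unfold psi
  simp only [add_re, ofReal_re, mul_re, I_re, mul_zero, ofReal_im, I_im, mul_one, sub_self,
    add_zero, add_im, mul_im, zero_add]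
  field_simp
  ring

lemma norm_psi_sub_le (z : ℂ) (hz : z ∈ UH) {ζ : ℂ} (h : ζ.re ≤ -2) :
    ‖psi z ζ - z‖ ≤ 4 * z.im * Real.exp ζ.re := by
  have hL : ζ ∈ LH := show ζ.re < 0 by linarith
  have hz' : 0 < z.im := hz
  rw [psi_sub z hL, norm_mul, norm_mul, norm_I, norm_div, norm_mul, Complex.norm_exp]
  have h1 := norm_one_sub_exp_ge h
  have h2 : ‖(z.im : ℂ)‖ = z.im := by rw [norm_real]; exact abs_of_pos hz'
  have h3 : ‖(2 : ℂ)‖ = 2 := by simp
  rw [h2, h3, mul_one]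
  have h4 : 2 * Real.exp ζ.re / ‖1 - exp ζ‖ ≤ 4 * Real.exp ζ.re := by
    rw [div_le_iff₀ (by linarith)]
    nlinarith [Real.exp_pos ζ.re]
  calc z.im * (2 * Real.exp ζ.re / ‖1 - exp ζ‖) ≤ z.im * (4 * Real.exp ζ.re) :=
        mul_le_mul_of_nonneg_left h4 hz'.le
    _ = 4 * z.im * Real.exp ζ.re := by ring

lemma norm_deriv_psi_le (z : ℂ) (hz : z ∈ UH) {ζ : ℂ} (h : ζ.re ≤ -2) :
    ‖deriv (psi z) ζ‖ ≤ 4 * z.im * Real.exp ζ.re := by
  have hL : ζ ∈ LH := show ζ.re < 0 by linarith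
  have hz' : 0 < z.im := hz
  rw [deriv_psi z hL, norm_mul, norm_mul, norm_I, norm_div, norm_mul, norm_pow, Complex.norm_exp]
  have h1 := norm_one_sub_exp_ge h
  have h2 : ‖(z.im : ℂ)‖ = z.im := by rw [norm_real]; exact abs_of_pos hz'
  have h3 : ‖(2 : ℂ)‖ = 2 := by simp
  rw [h2, h3, mul_one]
  have h5 : 9 / 16 ≤ ‖1 - exp ζ‖ ^ 2 := by nlinarith
  have h4 : 2 * Real.exp ζ.re / ‖1 - exp ζ‖ ^ 2 ≤ 4 * Real.exp ζ.re := by
    rw [div_le_iff₀ (by linarith)]
    nlinarith [Real.exp_pos ζ.re]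
  calc z.im * (2 * Real.exp ζ.re / ‖1 - exp ζ‖ ^ 2) ≤ z.im * (4 * Real.exp ζ.re) :=
        mul_le_mul_of_nonneg_left h4 hz'.le
    _ = 4 * z.im * Real.exp ζ.re := by ring

/-- An energy argument for `A'' = -(lam / sinh²) A` near `-∞`. -/
lemma ode_unique {A A1 : ℝ → ℂ} {lam : ℂ} {C : ℝ}
    (hA : ∀ τ < 0, HasDerivAt A (A1 τ) τ)
    (hA1 : ∀ τ < 0, HasDerivAt A1 (-(lam / (Real.sinh τ ^ 2 : ℝ)) * A τ) τ)
    (hb : ∀ τ ≤ -2, ‖A τ‖ ≤ C * Real.exp τ) (hb1 : ∀ τ ≤ -2, ‖A1 τ‖ ≤ C * Real.exp τ) :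
    ∀ τ < 0, A τ = 0 := by
  set E : ℝ → ℝ := fun τ => ‖A τ‖ ^ 2 + ‖A1 τ‖ ^ 2 with hE
  set W : ℝ → ℝ := fun τ => Real.exp (-τ + ‖lam‖ * (Real.cosh τ / Real.sinh τ)) with hW
  have hsinh : ∀ τ : ℝ, τ < 0 → Real.sinh τ < 0 := fun τ h => Real.sinh_neg_iff.2 h
  have hWd : ∀ τ < 0, HasDerivAt W (-(1 + ‖lam‖ / Real.sinh τ ^ 2) * W τ) τ := by
    intro τ hτ
    have h0 : Real.sinh τ ≠ 0 := (hsinh τ hτ).ne
    have h1 : HasDerivAt (fun τ => Real.cosh τ / Real.sinh τ)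
        ((Real.sinh τ * Real.sinh τ - Real.cosh τ * Real.cosh τ) / Real.sinh τ ^ 2) τ :=
      (Real.hasDerivAt_cosh τ).div (Real.hasDerivAt_sinh τ) h0
    have h2 := ((hasDerivAt_neg τ).add (h1.const_mul ‖lam‖)).exp
    convert! h2 using 1
    have h3 : Real.sinh τ * Real.sinh τ - Real.cosh τ * Real.cosh τ = -1 := by
      have := Real.cosh_sq τ
      nlinarith
    rw [h3, hW]
    simp only [Pi.add_apply]
    rw [mul_comm]
    congr 1
    ring
  have hEd : ∀ τ < 0, HasDerivAt E (2 * inner ℝ (A τ) (A1 τ) +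
      2 * inner ℝ (A1 τ) (-(lam / (Real.sinh τ ^ 2 : ℝ)) * A τ)) τ := by
    intro τ hτ
    exact (hA τ hτ).norm_sq.add (hA1 τ hτ).norm_sq
  have hEbound : ∀ τ < 0, 2 * inner ℝ (A τ) (A1 τ) +
      2 * inner ℝ (A1 τ) (-(lam / (Real.sinh τ ^ 2 : ℝ)) * A τ) ≤
      (1 + ‖lam‖ / Real.sinh τ ^ 2) * E τ := by
    intro τ hτ
    have h1 := real_inner_le_norm (A τ) (A1 τ)
    have h2 := real_inner_le_norm (A1 τ) (-(lam / (Real.sinh τ ^ 2 : ℝ)) * A τ)
    have h3 : ‖-(lam / (Real.sinh τ ^ 2 : ℝ)) * A τ‖ = ‖lam‖ / Real.sinh τ ^ 2 * ‖A τ‖ := by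
      rw [norm_mul, norm_neg, norm_div, norm_real, Real.norm_eq_abs, abs_of_nonneg (sq_nonneg _)]
    rw [h3] at h2
    have h4 : 2 * (‖A τ‖ * ‖A1 τ‖) ≤ E τ := by
      rw [hE]; simp only; nlinarith [sq_nonneg (‖A τ‖ - ‖A1 τ‖)]
    have h5 : 0 ≤ ‖lam‖ / Real.sinh τ ^ 2 := by positivity
    calc _ ≤ 2 * (‖A τ‖ * ‖A1 τ‖) + 2 * (‖A1 τ‖ * (‖lam‖ / Real.sinh τ ^ 2 * ‖A τ‖)) := by
          linarith
      _ = (1 + ‖lam‖ / Real.sinh τ ^ 2) * (2 * (‖A τ‖ * ‖A1 τ‖)) := by ring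
      _ ≤ _ := mul_le_mul_of_nonneg_left h4 (by linarith)
  have hanti : AntitoneOn (fun τ => E τ * W τ) (Iio 0) := by
    refine antitoneOn_of_deriv_nonpos (convex_Iio 0) ?_ ?_ ?_
    · intro τ hτ
      exact ((hEd τ hτ).mul (hWd τ hτ)).continuousAt.continuousWithinAt
    · intro τ hτ
      rw [interior_Iio] at hτ
      exact ((hEd τ hτ).mul (hWd τ hτ)).differentiableAt.differentiableWithinAt
    · intro τ hτ
      rw [interior_Iio] at hτ
      have h1 : deriv (fun τ => E τ * W τ) τ = _ := ((hEd τ hτ).mul (hWd τ hτ)).deriv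
      rw [h1]
      have h2 := hEbound τ hτ
      have h3 : 0 < W τ := Real.exp_pos _
      nlinarith
  have hsmall : ∀ σ ≤ -2, E σ * W σ ≤ 2 * C ^ 2 * Real.exp σ := by
    intro σ hσ
    have h1 := hb σ hσ
    have h2 := hb1 σ hσ
    have h3 : W σ ≤ Real.exp (-σ) := by
      refine Real.exp_le_exp.2 ?_
      have h4 : Real.cosh σ / Real.sinh σ ≤ 0 :=
        div_nonpos_of_nonneg_of_nonpos (Real.cosh_pos σ).le (hsinh σ (by linarith)).le
      nlinarith [norm_nonneg lam]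
    have h5 : E σ ≤ 2 * C ^ 2 * Real.exp σ ^ 2 := by
      have e1 : ‖A σ‖ ^ 2 ≤ (C * Real.exp σ) ^ 2 := pow_le_pow_left₀ (norm_nonneg _) h1 2
      have e2 : ‖A1 σ‖ ^ 2 ≤ (C * Real.exp σ) ^ 2 := pow_le_pow_left₀ (norm_nonneg _) h2 2
      rw [hE]; simp only
      nlinarith
    have hE0 : 0 ≤ E σ := by rw [hE]; positivity
    calc E σ * W σ ≤ (2 * C ^ 2 * Real.exp σ ^ 2) * Real.exp (-σ) :=
          mul_le_mul h5 h3 (Real.exp_pos _).le (by positivity)
      _ = 2 * C ^ 2 * Real.exp σ := by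
          rw [Real.exp_neg]
          field_simp
  intro τ hτ
  have hle : E τ * W τ ≤ 0 := by
    refine ge_of_tendsto (f := fun σ => 2 * C ^ 2 * Real.exp σ) (x := atBot) ?_ ?_
    · have := (Real.tendsto_exp_atBot).const_mul (2 * C ^ 2)
      simpa using this
    · filter_upwards [eventually_le_atBot (min τ (-2))] with σ hσ
      have h1 : σ ≤ τ := hσ.trans (min_le_left _ _)
      have h2 : σ ≤ -2 := hσ.trans (min_le_right _ _)
      exact (hanti (show σ < 0 by linarith) hτ h1).trans (hsmall σ h2)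
  have hW0 : 0 < W τ := Real.exp_pos _
  have hE0 : E τ ≤ 0 := by
    by_contra h
    rw [not_le] at h
    nlinarith [mul_pos h hW0]
  have h1 : ‖A τ‖ ^ 2 ≤ 0 := by
    have : ‖A τ‖ ^ 2 ≤ E τ := by rw [hE]; simp only; nlinarith [sq_nonneg ‖A1 τ‖]
    linarith
  have h2 : ‖A τ‖ = 0 := by nlinarith [norm_nonneg (A τ)]
  exact norm_eq_zero.1 h2

/-- Circle averages of an eigenfunction vanishing at the centre vanish. -/
theorem circle_avg_zero {lam : ℂ} {F : ℂ → ℂ} (hF : IsEig lam F) {z : ℂ} (hz : z ∈ UH)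
    (hz0 : F z = 0) : ∀ τ : ℝ, τ < 0 →
      ∫ φ in (0 : ℝ)..(2 * Real.pi), F (psi z (τ + φ * I)) = 0 := by
  have hψ := differentiableOn_psi z
  have hm := psi_mem z hz
  have hz' : 0 < z.im := hz
  have hcurve1 : ∀ φ τ : ℝ, HasDerivAt (fun τ : ℝ => (τ : ℂ) + φ * I) 1 τ := fun φ τ =>
    (Complex.ofRealCLM.hasDerivAt (x := τ)).add_const _
  have hcurve2 : ∀ τ φ : ℝ, HasDerivAt (fun φ : ℝ => (τ : ℂ) + φ * I) I φ := by
    intro τ φ
    have := ((Complex.ofRealCLM.hasDerivAt (x := φ)).mul_const I).const_add (τ : ℂ)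
    simpa using this
  have hcont : ∀ x ∈ Iio (0 : ℝ), Continuous fun φ : ℝ => (x : ℂ) + φ * I := by
    intro x _; fun_prop
  have hsmooth : ContinuousOn (fun p : ℝ × ℝ => (p.1 : ℂ) + p.2 * I) (Iio (0 : ℝ) ×ˢ univ) := by
    fun_prop
  have hmaps : MapsTo (fun p : ℝ × ℝ => (p.1 : ℂ) + p.2 * I) (Iio (0 : ℝ) ×ˢ univ) LH := by
    rintro ⟨a, b⟩ ⟨ha, _⟩
    exact mem_LH ha
  have hFc : ContinuousOn F UH := hF.smooth.continuousOn
  have hKsub : Metric.closedBall z (4 / 7 * z.im) ⊆ UH := by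
    intro w hw
    show 0 < w.im
    have h1 : |(w - z).im| ≤ ‖w - z‖ := abs_im_le_norm _
    rw [mem_closedBall_iff_norm] at hw
    rw [sub_im] at h1
    have h2 := (abs_le.1 (h1.trans hw)).1
    linarith
  obtain ⟨M, hM⟩ := (isCompact_closedBall z (4 / 7 * z.im)).exists_bound_of_continuousOn
    ((continuousOn_D1 hF.smooth).mono hKsub)
  have hzK : z ∈ Metric.closedBall z (4 / 7 * z.im) :=
    Metric.mem_closedBall_self (by positivity)
  have hM0 : 0 ≤ M := (norm_nonneg _).trans (hM z hzK)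
  have hψK : ∀ ζ : ℂ, ζ.re ≤ -2 → psi z ζ ∈ Metric.closedBall z (4 / 7 * z.im) := by
    intro ζ h
    rw [mem_closedBall_iff_norm]
    refine (norm_psi_sub_le z hz h).trans ?_
    have := (Real.exp_le_exp.2 h).trans exp_neg_two_le
    nlinarith
  refine ode_unique (A := fun τ => ∫ φ in (0 : ℝ)..(2 * Real.pi), F (psi z (τ + φ * I)))
    (A1 := fun τ => ∫ φ in (0 : ℝ)..(2 * Real.pi), P1 F (psi z) (τ + φ * I) 1)
    (lam := lam) (C := M * (4 * z.im) * (2 * Real.pi)) ?_ ?_ ?_ ?_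
  · intro τ hτ
    refine hasDerivAt_param (f := fun x t => F (psi z (x + t * I)))
      (f' := fun x t => P1 F (psi z) (x + t * I) 1) isOpen_Iio ?_ ?_ ?_ hτ
    · intro x hx
      exact (hFc.comp hψ.continuousOn hm).comp_continuous (hcont x hx) (fun t => mem_LH hx)
    · intro x hx t
      exact hasDerivAt_P1 hF.smooth hψ hm (hcurve1 t x) (mem_LH hx)
    · exact (continuousOn_P1 hF.smooth hψ hm 1).comp hsmooth hmaps
  · intro τ hτ
    have h1 := hasDerivAt_param (f := fun x t => P1 F (psi z) (x + t * I) 1)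
      (f' := fun x t => P2 F (psi z) (x + t * I) 1) (a := 0) (b := 2 * Real.pi)
      (isOpen_Iio (a := (0 : ℝ))) ?_ ?_ ?_ hτ
    · convert! h1 using 1
      have h2 : ∫ t in (0 : ℝ)..(2 * Real.pi), P2 F (psi z) (τ + t * I) I = 0 := by
        rw [intervalIntegral.integral_eq_sub_of_hasDerivAt
          (f := fun t : ℝ => P1 F (psi z) (τ + t * I) I)]
        · have := P1_add F z (mem_LH (φ := 0) hτ) I
          simp only [ofReal_zero, zero_mul, add_zero] at this ⊢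
          rw [show ((2 * Real.pi : ℝ) : ℂ) = 2 * Real.pi by push_cast; ring, this, sub_self]
        · intro t _
          exact hasDerivAt_P2 hF.smooth hψ hm (hcurve2 τ t) (mem_LH hτ)
        · have hc := (continuousOn_P2 hF.smooth hψ hm I).comp_continuous (hcont τ hτ)
            (fun t => mem_LH hτ)
          exact hc.intervalIntegrable _ _
      have h3 : ∀ t : ℝ, P2 F (psi z) (τ + t * I) 1 =
          -(lam / (Real.sinh τ ^ 2 : ℝ)) * F (psi z (τ + t * I)) -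
            P2 F (psi z) (τ + t * I) I := by
        intro t
        have hL := mem_LH (φ := t) hτ
        have e1 := P2_add F (psi z) (τ + t * I)
        rw [psi_conf z hz hL] at e1
        have e2 := hF.eq _ (hm hL)
        have e3 : ((τ : ℂ) + t * I).re = τ := by simp
        rw [e3] at e1
        have hs : (Real.sinh τ : ℂ) ^ 2 ≠ 0 := by
          have : Real.sinh τ ≠ 0 := (Real.sinh_neg_iff.2 hτ).ne
          exact pow_ne_zero 2 (by exact_mod_cast this)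
        rw [eq_sub_iff_add_eq, e1]
        push_cast
        rw [div_mul_eq_mul_div, e2]
        ring
      simp_rw [h3]
      rw [intervalIntegral.integral_sub, h2, sub_zero, intervalIntegral.integral_const_mul]
      · exact (continuous_const.mul ((hFc.comp hψ.continuousOn hm).comp_continuous (hcont τ hτ)
          (fun t => mem_LH hτ))).intervalIntegrable _ _
      · exact ((continuousOn_P2 hF.smooth hψ hm I).comp_continuous (hcont τ hτ)
            (fun t => mem_LH hτ)).intervalIntegrable _ _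
    · intro x hx
      exact (continuousOn_P1 hF.smooth hψ hm 1).comp_continuous (hcont x hx) (fun t => mem_LH hx)
    · intro x hx t
      exact hasDerivAt_P2 hF.smooth hψ hm (hcurve1 t x) (mem_LH hx)
    · exact (continuousOn_P2 hF.smooth hψ hm 1).comp hsmooth hmaps
  · intro τ hτ
    have h1 : ∀ t : ℝ, ‖F (psi z (τ + t * I))‖ ≤ M * (4 * z.im * Real.exp τ) := by
      intro t
      have e3 : ((τ : ℂ) + t * I).re = τ := by simp
      have hre : ((τ : ℂ) + t * I).re ≤ -2 := by rw [e3]; exact hτ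
      have h2 := (convex_closedBall z (4 / 7 * z.im)).norm_image_sub_le_of_norm_fderiv_le
        (f := F) (𝕜 := ℝ) (C := M)
        (fun x hx => (ContDiffOn.hasFDerivAt_UH hF.smooth (hKsub hx)).differentiableAt)
        hM hzK (hψK _ hre)
      rw [hz0, sub_zero] at h2
      refine h2.trans (mul_le_mul_of_nonneg_left ?_ hM0)
      have h3 := norm_psi_sub_le z hz hre
      rwa [e3] at h3
    have h2 := intervalIntegral.norm_integral_le_of_norm_le_const (a := 0) (b := 2 * Real.pi)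
      (f := fun t : ℝ => F (psi z (τ + t * I))) (C := M * (4 * z.im * Real.exp τ))
      (fun t _ => h1 t)
    refine h2.trans (le_of_eq ?_)
    rw [sub_zero, abs_of_pos (by positivity)]
    ring
  · intro τ hτ
    have h1 : ∀ t : ℝ, ‖P1 F (psi z) (τ + t * I) 1‖ ≤ M * (4 * z.im * Real.exp τ) := by
      intro t
      have e3 : ((τ : ℂ) + t * I).re = τ := by simp
      have hre : ((τ : ℂ) + t * I).re ≤ -2 := by rw [e3]; exact hτ
      have h3 := norm_deriv_psi_le z hz hre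
      rw [e3] at h3
      unfold P1
      rw [mul_one]
      refine (ContinuousLinearMap.le_opNorm _ _).trans ?_
      exact mul_le_mul (hM _ (hψK _ hre)) h3 (norm_nonneg _) hM0
    have h2 := intervalIntegral.norm_integral_le_of_norm_le_const (a := 0) (b := 2 * Real.pi)
      (f := fun t : ℝ => P1 F (psi z) (τ + t * I) 1) (C := M * (4 * z.im * Real.exp τ))
      (fun t _ => h1 t)
    refine h2.trans (le_of_eq ?_)
    rw [sub_zero, abs_of_pos (by positivity)]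
    ring

end Pool.Agent.H19.Maass
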