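import Mathlib
import Pool.Agent.H19.Maass.Ode
import Pool.Agent.H19.Maass.Bessel

set_option autoImplicit false

namespace Pool.Agent.H19.Maass

open MeasureTheory Set Filter Topology UpperHalfPlane
open scoped MatrixGroups UpperHalfPlane

/-- rotation about `I` -/
noncomputable def rot (θ : ℝ) : SL(2, ℝ) :=
  ⟨!![Real.cos θ, Real.sin θ; -Real.sin θ, Real.cos θ], by
    rw [Matrix.det_fin_two_of]
    have := Real.cos_sq_add_sin_sq θ
    nlinarith⟩

lemma continuous_rot : Continuous rot := by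
  refine Continuous.subtype_mk ?_ _
  refine continuous_matrix fun i j => ?_
  fin_cases i <;> fin_cases j <;> simp <;> fun_prop

lemma coe_rot_smul (θ : ℝ) (w : ℍ) : ((rot θ • w : ℍ) : ℂ) =
    ((Real.cos θ : ℂ) * w + Real.sin θ) / (-(Real.sin θ : ℂ) * w + Real.cos θ) := by
  rw [coe_specialLinearGroup_apply]
  simp [rot]

lemma den_ne {c s : ℝ} (h : c ^ 2 + s ^ 2 = 1) (w : ℍ) : -(s : ℂ) * w + c ≠ 0 := by
  intro h0
  have h1 := congrArg Complex.re h0
  have h2 := congrArg Complex.im h0
  simp at h1 h2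
  have h3 : w.im ≠ 0 := w.im_pos.ne'
  have h4 : s = 0 := by tauto
  rw [h4] at h1 h
  have h5 : c = 0 := by simpa using h1
  rw [h5] at h
  norm_num at h

lemma rot_smul_I (θ : ℝ) : rot θ • UpperHalfPlane.I = UpperHalfPlane.I := by
  ext
  rw [coe_rot_smul]
  have h : -(Real.sin θ : ℂ) * (UpperHalfPlane.I : ℍ) + Real.cos θ ≠ 0 :=
    den_ne (Real.cos_sq_add_sin_sq θ) _
  rw [div_eq_iff h]
  simp only [coe_I]
  ring_nf
  rw [Complex.I_sq]
  ring

lemma coe_toSL2R_smul (z w : ℍ) : ((toSL2R z • w : ℍ) : ℂ) = z.re + z.im * w := by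
  rw [coe_specialLinearGroup_apply]
  have h1 : (√z.im : ℂ) ≠ 0 := by
    have : √z.im ≠ 0 := Real.sqrt_ne_zero'.mpr z.im_pos
    exact_mod_cast this
  have h2 : (√z.im : ℂ) * (√z.im : ℂ) = z.im := by
    rw [← Complex.ofReal_mul, Real.mul_self_sqrt z.im_pos.le]
  simp
  field_simp
  linear_combination (w : ℂ) * h2

lemma psi_affine (z ζ : ℂ) : psi z ζ = z.re + z.im * psi Complex.I ζ := by
  unfold psi
  simp
  ring

lemma exists_polar (w : ℍ) (hw : w ≠ UpperHalfPlane.I) : ∃ ζ ∈ LH, ∀ θ : ℝ,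
    ((rot θ • w : ℍ) : ℂ) = psi Complex.I (ζ + 2 * θ * Complex.I) := by
  have hwI : (w : ℂ) ≠ Complex.I := by
    intro h; apply hw; ext; rw [h]; rfl
  have hwim : 0 < (w : ℂ).im := w.im_pos
  have h1 : (w : ℂ) + Complex.I ≠ 0 := by
    intro h
    have h2 := congrArg Complex.im h
    simp at h2
    have : 0 < w.im := w.im_pos
    linarith
  have h0 : (w : ℂ) - Complex.I ≠ 0 := sub_ne_zero.2 hwI
  set q : ℂ := (w - Complex.I) / (w + Complex.I) with hq
  have hq0 : q ≠ 0 := div_ne_zero h0 h1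
  have hqn : ‖q‖ < 1 := by
    rw [hq, norm_div, div_lt_one (norm_pos_iff.2 h1)]
    rw [← sq_lt_sq₀ (norm_nonneg _) (norm_nonneg _), ← Complex.normSq_eq_norm_sq,
      ← Complex.normSq_eq_norm_sq, Complex.normSq_apply, Complex.normSq_apply]
    simp only [Complex.sub_re, Complex.add_re, Complex.I_re, Complex.sub_im, Complex.add_im,
      Complex.I_im]
    nlinarith
  refine ⟨Complex.log q, ?_, fun θ => ?_⟩
  · show (Complex.log q).re < 0
    rw [Complex.log_re]
    exact Real.log_neg (norm_pos_iff.2 hq0) hqn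
  · have hL : Complex.log q + 2 * θ * Complex.I ∈ LH := by
      show (Complex.log q + 2 * θ * Complex.I).re < 0
      simp only [Complex.add_re, Complex.mul_re, Complex.I_re, Complex.I_im]
      have h3 := Real.log_neg (norm_pos_iff.2 hq0) hqn
      rw [← Complex.log_re] at h3
      simpa using h3
    have hne := one_sub_exp_ne hL
    rw [coe_rot_smul]
    have hden : -(Real.sin θ : ℂ) * w + Real.cos θ ≠ 0 := den_ne (Real.cos_sq_add_sin_sq θ) _
    have hexp : Complex.exp (Complex.log q + 2 * θ * Complex.I) =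
        q * (Complex.exp (θ * Complex.I)) ^ 2 := by
      rw [Complex.exp_add, Complex.exp_log hq0, ← Complex.exp_nat_mul]
      congr 2
      push_cast
      ring
    unfold psi
    rw [hexp] at hne ⊢
    have hcs : Complex.exp (θ * Complex.I) = Real.cos θ + Real.sin θ * Complex.I := by
      rw [Complex.exp_mul_I]; push_cast; ring
    rw [hcs] at hne ⊢
    have hone : (Real.cos θ : ℂ) ^ 2 + (Real.sin θ : ℂ) ^ 2 = 1 := by
      have := Real.cos_sq_add_sin_sq θ
      exact_mod_cast this
    set c : ℂ := (Real.cos θ : ℂ) with hc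
    set s : ℂ := (Real.sin θ : ℂ) with hs
    have hne' : (w + Complex.I) - (w - Complex.I) * (c + s * Complex.I) ^ 2 ≠ 0 := by
      intro h
      apply hne
      rw [hq]
      have h5 : 1 - (w - Complex.I) / (w + Complex.I) * (c + s * Complex.I) ^ 2 =
          ((w + Complex.I) - (w - Complex.I) * (c + s * Complex.I) ^ 2) / (w + Complex.I) := by
        field_simp
      rw [h5, h, zero_div]
    have hfrac : (1 + q * (c + s * Complex.I) ^ 2) / (1 - q * (c + s * Complex.I) ^ 2) =
        ((w + Complex.I) + (w - Complex.I) * (c + s * Complex.I) ^ 2) /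
        ((w + Complex.I) - (w - Complex.I) * (c + s * Complex.I) ^ 2) := by
      rw [hq]
      field_simp
    rw [hfrac]
    simp only [Complex.I_re, Complex.I_im, Complex.ofReal_zero, Complex.ofReal_one, zero_add,
      one_mul]
    rw [← mul_div_assoc, div_eq_div_iff hden hne']
    have hI : Complex.I ^ 2 = -1 := Complex.I_sq
    have e1 : (w : ℂ) + Complex.I = (c + s * Complex.I) * ((c * w + s) +
        Complex.I * (-s * w + c)) := by
      linear_combination (-((w : ℂ) + Complex.I)) * hone - (-s ^ 2 * w + c * s) * hI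
    have e2 : ((w : ℂ) - Complex.I) * (c + s * Complex.I) = (c * w + s) -
        Complex.I * (-s * w + c) := by
      linear_combination (-s) * hI
    linear_combination ((c * w + s) - Complex.I * (-s * w + c)) * e1 -
      ((c * w + s) + Complex.I * (-s * w + c)) * (c + s * Complex.I) * e2

lemma measurePreserving_slr (g : SL(2, ℝ)) :
    MeasurePreserving (fun z : ℍ => g • z) volume volume :=
  measurePreserving_smul (Matrix.SpecialLinearGroup.mapGL ℝ g : GL (Fin 2) ℝ) (volume : Measure ℍ)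

lemma integral_slr (g : SL(2, ℝ)) (f : ℍ → ℂ) : ∫ w : ℍ, f (g • w) = ∫ w : ℍ, f w := by
  have hme : MeasurableEmbedding (fun z : ℍ => g • z) :=
    (Homeomorph.smul g : ℍ ≃ₜ ℍ).measurableEmbedding
  exact (measurePreserving_slr g).integral_comp hme f

lemma inner_zero {lam : ℂ} {F : ℂ → ℂ} (hF : IsEig lam F) (z : ℍ) (hz0 : F z = 0) (w : ℍ) :
    ∫ θ in (0 : ℝ)..Real.pi, F ((toSL2R z • (rot θ • w) : ℍ) : ℂ) = 0 := by
  by_cases hw : w = UpperHalfPlane.I
  · subst hw
    have : ∀ θ : ℝ, F ((toSL2R z • (rot θ • UpperHalfPlane.I) : ℍ) : ℂ) = 0 := by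
      intro θ
      rw [rot_smul_I, toSL2R_smul_I, hz0]
    simp_rw [this]
    simp
  · obtain ⟨ζ, hζ, h⟩ := exists_polar w hw
    have h1 : ∀ θ : ℝ, F ((toSL2R z • (rot θ • w) : ℍ) : ℂ) =
        F (psi z (ζ.re + ((2 * θ + ζ.im : ℝ) : ℂ) * Complex.I)) := by
      intro θ
      rw [coe_toSL2R_smul, h θ]
      conv_rhs => rw [psi_affine]
      congr 4
      conv_lhs => rw [← Complex.re_add_im ζ]
      push_cast
      ring
    simp_rw [h1]
    have h2 := intervalIntegral.integral_comp_mul_add (a := 0) (b := Real.pi)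
      (fun t : ℝ => F (psi z (ζ.re + (t : ℂ) * Complex.I))) (c := 2) (by norm_num) ζ.im
    rw [h2]
    have hper : Function.Periodic (fun t : ℝ => F (psi z (ζ.re + (t : ℂ) * Complex.I)))
        (2 * Real.pi) := by
      intro t
      simp only
      rw [← psi_add z (ζ.re + (t : ℂ) * Complex.I)]
      congr 2
      push_cast
      ring
    have h3 := hper.intervalIntegral_add_eq (2 * 0 + ζ.im) 0
    rw [zero_add, circle_avg_zero hF z.im_pos hz0 ζ.re hζ] at h3
    rw [show 2 * Real.pi + ζ.im = 2 * 0 + ζ.im + 2 * Real.pi by ring, h3, smul_zero]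

theorem mean_zero {lam : ℂ} {F : ℂ → ℂ} (hF : IsEig lam F) (z : ℍ) (hz0 : F z = 0)
    {k : ℝ → ℝ} {R : ℝ} (hk : Ker k R) :
    ∫ w : ℍ, (k (dist z w) : ℂ) * F w = 0 := by
  have hFc : Continuous fun w : ℍ => F w :=
    hF.smooth.continuousOn.comp_continuous continuous_coe fun w => w.im_pos
  set g := toSL2R z with hg
  have hdist : ∀ w : ℍ, dist z (g • w) = dist UpperHalfPlane.I w := by
    intro w
    conv_lhs => rw [← toSL2R_smul_I z]
    exact dist_smul g _ _
  have hdist2 : ∀ (θ : ℝ) (w : ℍ), dist UpperHalfPlane.I (rot θ • w) =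
      dist UpperHalfPlane.I w := by
    intro θ w
    conv_lhs => rw [← rot_smul_I θ]
    exact dist_smul (rot θ) _ _
  have h1 : ∀ θ : ℝ, ∫ w : ℍ, (k (dist z w) : ℂ) * F w =
      ∫ w : ℍ, (k (dist UpperHalfPlane.I w) : ℂ) * F ((g • (rot θ • w) : ℍ) : ℂ) := by
    intro θ
    rw [← integral_slr g, ← integral_slr (rot θ)]
    simp_rw [hdist, hdist2]
  have h2 : (Real.pi : ℂ) * ∫ w : ℍ, (k (dist z w) : ℂ) * F w =
      ∫ θ in (0 : ℝ)..Real.pi, ∫ w : ℍ, (k (dist UpperHalfPlane.I w) : ℂ) *
        F ((g • (rot θ • w) : ℍ) : ℂ) := by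
    simp_rw [← h1]
    rw [intervalIntegral.integral_const]
    simp
  have h3 : ∫ θ in (0 : ℝ)..Real.pi, ∫ w : ℍ, (k (dist UpperHalfPlane.I w) : ℂ) *
        F ((g • (rot θ • w) : ℍ) : ℂ) =
      ∫ w : ℍ, ∫ θ in (0 : ℝ)..Real.pi, (k (dist UpperHalfPlane.I w) : ℂ) *
        F ((g • (rot θ • w) : ℍ) : ℂ) := by
    simp_rw [intervalIntegral.integral_of_le Real.pi_pos.le]
    rw [integral_integral_swap]
    obtain ⟨B, hB⟩ := hk.bdd
    obtain ⟨M, hM⟩ := bdd_of_continuous hFc z R
    have hB0 : 0 ≤ B := (abs_nonneg _).trans (hB 0)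
    have hind : Integrable ((Metric.closedBall UpperHalfPlane.I R).indicator
        (fun _ : ℍ => (1 : ℝ))) := by
      rw [integrable_indicator_iff Metric.isClosed_closedBall.measurableSet]
      exact integrableOn_const (isCompact_closedBall _ _).measure_lt_top.ne
    have hconst : Integrable (fun _ : ℝ => B * M) (volume.restrict (Ioc 0 Real.pi)) :=
      integrable_const _
    refine (hconst.mul_prod hind).mono' ?_ ?_
    · refine Measurable.aestronglyMeasurable ?_
      have c1 : Measurable fun p : ℝ × ℍ => (k (dist UpperHalfPlane.I p.2) : ℂ) :=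
        Complex.measurable_ofReal.comp (hk.meas.comp
          (continuous_const.dist continuous_snd).measurable)
      have c2 : Continuous fun p : ℝ × ℍ => F ((g • (rot p.1 • p.2) : ℍ) : ℂ) := by
        have : Continuous fun p : ℝ × ℍ => (g • (rot p.1 • p.2) : ℍ) :=
          ((continuous_rot.comp continuous_fst).smul continuous_snd).const_smul g
        exact hFc.comp this
      exact c1.mul c2.measurable
    · refine Eventually.of_forall fun p => ?_
      simp only [Function.uncurry]
      rw [norm_mul, Complex.norm_real, Real.norm_eq_abs]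
      by_cases hp : p.2 ∈ Metric.closedBall UpperHalfPlane.I R
      · rw [indicator_of_mem hp, mul_one]
        refine mul_le_mul (hB _) (hM _ ?_) (norm_nonneg _) hB0
        rw [Metric.mem_closedBall, dist_comm, hdist, hdist2, dist_comm]
        exact hp
      · rw [indicator_of_notMem hp, mul_zero]
        rw [Metric.mem_closedBall, not_le, dist_comm] at hp
        rw [hk.supp _ hp, abs_zero, zero_mul]
  have h4 : ∀ w : ℍ, ∫ θ in (0 : ℝ)..Real.pi, (k (dist UpperHalfPlane.I w) : ℂ) *
        F ((g • (rot θ • w) : ℍ) : ℂ) = 0 := by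
    intro w
    rw [intervalIntegral.integral_const_mul, inner_zero hF z hz0 w, mul_zero]
  rw [h3] at h2
  simp_rw [h4] at h2
  rw [integral_zero] at h2
  have hpi : (Real.pi : ℂ) ≠ 0 := by exact_mod_cast Real.pi_ne_zero
  exact (mul_eq_zero.1 h2).resolve_left hpi

end Pool.Agent.H19.Maass
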