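import Mathlib
import Pool.Agent.H19.Maass.Mean

set_option autoImplicit false

namespace Pool.Agent.H19.Maass

open MeasureTheory Set Filter Topology UpperHalfPlane
open scoped MatrixGroups UpperHalfPlane

lemma line_mem {z v : ℂ} (hz : z ∈ UH) : ∀ᶠ t : ℝ in 𝓝 0, z + t * v ∈ UH := by
  have hc : Continuous fun t : ℝ => z + t * v := by fun_prop
  refine hc.continuousAt.eventually_mem (isOpen_UH.mem_nhds ?_)
  simpa using hz

lemma hasDerivAt_line1 {F : ℂ → ℂ} (hF : ContDiffOn ℝ 2 F UH) {z v : ℂ} {t : ℝ}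
    (hz : z + t * v ∈ UH) :
    HasDerivAt (fun t : ℝ => F (z + t * v)) (fderiv ℝ F (z + t * v) v) t := by
  have hc : HasDerivAt (fun t : ℝ => z + t * v) v t := by
    have := ((Complex.ofRealCLM.hasDerivAt (x := t)).mul_const v).const_add z
    simpa using this
  exact (ContDiffOn.hasFDerivAt_UH hF hz).comp_hasDerivAt t hc

lemma hasDerivAt_line2 {F : ℂ → ℂ} (hF : ContDiffOn ℝ 2 F UH) {z v : ℂ} {t : ℝ}
    (hz : z + t * v ∈ UH) :
    HasDerivAt (fun t : ℝ => fderiv ℝ F (z + t * v) v)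
      (fderiv ℝ (fderiv ℝ F) (z + t * v) v v) t := by
  have hc : HasDerivAt (fun t : ℝ => z + t * v) v t := by
    have := ((Complex.ofRealCLM.hasDerivAt (x := t)).mul_const v).const_add z
    simpa using this
  have h := (ContDiffOn.hasFDerivAt2_UH hF hz).comp_hasDerivAt t hc
  have := h.clm_apply (hasDerivAt_const t v)
  simpa using this

lemma D2_eq_of_line {F : ℂ → ℂ} (hF : ContDiffOn ℝ 2 F UH) {z v : ℂ} (hz : z ∈ UH) {g : ℝ → ℂ}
    {g' : ℂ} (hg : ∀ᶠ t : ℝ in 𝓝 0, HasDerivAt (fun t : ℝ => F (z + t * v)) (g t) t)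
    (hg' : HasDerivAt g g' 0) : fderiv ℝ (fderiv ℝ F) z v v = g' := by
  have h0 : z + ((0 : ℝ) : ℂ) * v ∈ UH := by simpa using hz
  have h1 := hasDerivAt_line2 hF h0
  have h2 : (fun t : ℝ => fderiv ℝ F (z + t * v) v) =ᶠ[𝓝 0] g := by
    filter_upwards [hg, line_mem (v := v) hz] with t ht hzt
    exact (hasDerivAt_line1 hF hzt).unique ht
  have h3 := h1.unique (hg'.congr_of_eventuallyEq h2)
  simpa using h3

lemma deriv2_line {F : ℂ → ℂ} (hF : ContDiffOn ℝ 2 F UH) {z : ℂ} (hz : z ∈ UH) (v : ℂ) :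
    deriv (deriv (fun t : ℝ => F (z + t * v))) 0 = fderiv ℝ (fderiv ℝ F) z v v := by
  have h1 : deriv (fun t : ℝ => F (z + t * v)) =ᶠ[𝓝 0] fun t : ℝ => fderiv ℝ F (z + t * v) v := by
    filter_upwards [line_mem (v := v) hz] with t ht
    exact (hasDerivAt_line1 hF ht).deriv
  rw [h1.deriv_eq]
  have h0 : z + ((0 : ℝ) : ℂ) * v ∈ UH := by simpa using hz
  have h2 := (hasDerivAt_line2 hF h0).deriv
  simpa using h2

/-- the eigenfunction `y^s` -/
noncomputable def pw (s w : ℂ) : ℂ := Complex.exp (s * (Real.log w.im : ℂ))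

lemma contDiffOn_pw (s : ℂ) : ContDiffOn ℝ 2 (pw s) UH := by
  intro w hw
  have hw' : w.im ≠ 0 := ne_of_gt hw
  refine ContDiffAt.contDiffWithinAt ?_
  unfold pw
  have h1 : ContDiffAt ℝ 2 (fun w : ℂ => Real.log w.im) w := by
    refine ContDiffAt.log ?_ hw'
    exact Complex.imCLM.contDiff.contDiffAt
  have h2 : ContDiffAt ℝ 2 (fun w : ℂ => s * (Real.log w.im : ℂ)) w :=
    contDiffAt_const.mul (Complex.ofRealCLM.contDiff.contDiffAt.comp w h1)
  exact h2.cexp

lemma isEig_pw (s : ℂ) : IsEig (s * (1 - s)) (pw s) := by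
  refine ⟨contDiffOn_pw s, fun z hz => ?_⟩
  have hz' : 0 < z.im := hz
  have h1 : fderiv ℝ (fderiv ℝ (pw s)) z 1 1 = 0 := by
    refine D2_eq_of_line (contDiffOn_pw s) hz (g := fun _ => 0) ?_ (hasDerivAt_const _ _)
    refine Eventually.of_forall fun t => ?_
    have : (fun t : ℝ => pw s (z + t * 1)) = fun _ => pw s z := by
      funext t
      simp [pw]
    rw [this]
    exact hasDerivAt_const _ _
  have hline : (fun t : ℝ => pw s (z + t * Complex.I)) =
      fun t : ℝ => Complex.exp (s * (Real.log (z.im + t) : ℂ)) := by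
    funext t
    simp [pw]
  have hd : ∀ t : ℝ, z.im + t ≠ 0 → HasDerivAt (fun t : ℝ => Complex.exp (s * (Real.log (z.im + t) : ℂ)))
      (Complex.exp (s * (Real.log (z.im + t) : ℂ)) * (s * (((z.im + t)⁻¹ : ℝ) : ℂ))) t := by
    intro t ht
    have e1 : HasDerivAt (fun t : ℝ => Real.log (z.im + t)) ((z.im + t)⁻¹) t := by
      exact HasDerivAt.congr_deriv
        ((Real.hasDerivAt_log ht).comp t ((hasDerivAt_id t).const_add z.im)) (by simp)
    have e2 := (e1.ofReal_comp).const_mul s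
    exact e2.cexp
  have h2 : fderiv ℝ (fderiv ℝ (pw s)) z Complex.I Complex.I =
      pw s z * (s * (s - 1)) / (z.im : ℂ) ^ 2 := by
    refine D2_eq_of_line (contDiffOn_pw s) hz
      (g := fun t : ℝ => Complex.exp (s * (Real.log (z.im + t) : ℂ)) *
        (s * (((z.im + t)⁻¹ : ℝ) : ℂ))) ?_ ?_
    · filter_upwards [line_mem (v := Complex.I) hz] with t ht
      rw [hline]
      refine hd t ?_
      have : 0 < (z + t * Complex.I).im := ht
      simp at this
      exact this.ne'
    · have e1 := hd 0 (by rw [add_zero]; exact hz'.ne')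
      have e2 : HasDerivAt (fun t : ℝ => (z.im + t)⁻¹) (-((z.im + 0) ^ 2)⁻¹) 0 := by
        exact HasDerivAt.congr_deriv
          ((hasDerivAt_inv (x := z.im + 0) (by rw [add_zero]; exact hz'.ne')).comp 0
          ((hasDerivAt_id (0 : ℝ)).const_add z.im)) (by simp)
      have e3 := e1.mul ((e2.ofReal_comp).const_mul s)
      convert! e3 using 1
      simp only [add_zero, pw]
      have hzc : (z.im : ℂ) ≠ 0 := by exact_mod_cast hz'.ne'
      push_cast
      field_simp
      ring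
  rw [h1, h2, zero_add]
  have hzc : (z.im : ℂ) ≠ 0 := by exact_mod_cast hz'.ne'
  field_simp
  ring

lemma IsEig.sub_const_mul {lam : ℂ} {F G : ℂ → ℂ} (hF : IsEig lam F) (hG : IsEig lam G) (c : ℂ) :
    IsEig lam (fun z => F z - c * G z) := by
  have hsm : ContDiffOn ℝ 2 (fun z => F z - c * G z) UH :=
    hF.smooth.sub (contDiffOn_const.mul hG.smooth)
  refine ⟨hsm, fun z hz => ?_⟩
  have hD : ∀ v : ℂ, fderiv ℝ (fderiv ℝ (fun z => F z - c * G z)) z v v =
      fderiv ℝ (fderiv ℝ F) z v v - c * fderiv ℝ (fderiv ℝ G) z v v := by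
    intro v
    refine D2_eq_of_line hsm hz (g := fun t : ℝ => fderiv ℝ F (z + t * v) v -
      c * fderiv ℝ G (z + t * v) v) ?_ ?_
    · filter_upwards [line_mem (v := v) hz] with t ht
      exact (hasDerivAt_line1 hF.smooth ht).sub ((hasDerivAt_line1 hG.smooth ht).const_mul c)
    · have h0 : z + ((0 : ℝ) : ℂ) * v ∈ UH := by simpa using hz
      exact ((hasDerivAt_line2 hF.smooth h0).sub
        ((hasDerivAt_line2 hG.smooth h0).const_mul c)).congr_deriv (by simp)
  rw [hD, hD]
  have e1 := hF.eq z hz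
  have e2 := hG.eq z hz
  linear_combination e1 - c * e2

/-- Selberg transform of the kernel `k` at the spectral parameter `s` (eigenvalue `s(1-s)`). -/
noncomputable def selb (k : ℝ → ℝ) (s : ℂ) : ℂ :=
  ∫ w : ℍ, (k (dist UpperHalfPlane.I w) : ℂ) * pw s w

lemma pw_mul (s : ℂ) (z w : ℍ) : pw s ((toSL2R z • w : ℍ) : ℂ) = pw s z * pw s w := by
  unfold pw
  rw [← Complex.exp_add, ← mul_add]
  congr 2
  rw [coe_toSL2R_smul]
  have h1 : ((z.re : ℂ) + z.im * w).im = z.im * w.im := by simp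
  rw [h1]
  simp only [coe_im]
  rw [Real.log_mul z.im_pos.ne' w.im_pos.ne']
  push_cast
  rfl

lemma continuous_coe_of {F : ℂ → ℂ} (hF : ContinuousOn F UH) : Continuous fun w : ℍ => F w :=
  hF.comp_continuous continuous_coe fun w => w.im_pos

lemma dist_toSL2R (z w : ℍ) : dist z (toSL2R z • w) = dist UpperHalfPlane.I w := by
  have h := dist_smul (toSL2R z) UpperHalfPlane.I w
  rwa [toSL2R_smul_I] at h

theorem selberg {s : ℂ} {U : ℂ → ℂ} (hU : IsEig (s * (1 - s)) U) {k : ℝ → ℝ} {R : ℝ}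
    (hk : Ker k R) (z : ℍ) :
    ∫ w : ℍ, (k (dist z w) : ℂ) * U w = selb k s * U z := by
  have hpz : pw s z ≠ 0 := Complex.exp_ne_zero _
  set c : ℂ := U z / pw s z with hc
  have h0 := mean_zero (hU.sub_const_mul (isEig_pw s) c) z (by rw [hc]; field_simp; ring) hk
  have i1 : Integrable fun w : ℍ => (k (dist z w) : ℂ) * U w :=
    integrable_k_mul hk z (continuous_coe_of hU.smooth.continuousOn).measurable
      (bdd_of_continuous (continuous_coe_of hU.smooth.continuousOn) _ _)
  have i2 : Integrable fun w : ℍ => (k (dist z w) : ℂ) * pw s w :=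
    integrable_k_mul hk z (continuous_coe_of (contDiffOn_pw s).continuousOn).measurable
      (bdd_of_continuous (continuous_coe_of (contDiffOn_pw s).continuousOn) _ _)
  have h1 : ∀ w : ℍ, (k (dist z w) : ℂ) * (U w - c * pw s w) =
      (k (dist z w) : ℂ) * U w - c * ((k (dist z w) : ℂ) * pw s w) := fun w => by ring
  simp_rw [h1] at h0
  rw [integral_sub i1 (i2.const_mul c), integral_const_mul, sub_eq_zero] at h0
  rw [h0]
  have h2 : ∫ w : ℍ, (k (dist z w) : ℂ) * pw s w = pw s z * selb k s := by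
    rw [← integral_slr (toSL2R z)]
    unfold selb
    rw [← integral_const_mul]
    refine integral_congr_ae (Eventually.of_forall fun w => ?_)
    simp only
    rw [pw_mul]
    rw [dist_toSL2R]
    ring
  rw [h2, hc]
  field_simp

end Pool.Agent.H19.Maass
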