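import Mathlib

set_option autoImplicit false

namespace Pool.Agent.H19.Maass

open UpperHalfPlane

/-- squared size of the quadratic polynomial attached to an integral matrix -/
noncomputable def PP (a b c d : ℤ) (z : ℍ) : ℝ :=
  Complex.normSq ((c : ℂ) * (z : ℂ) ^ 2 + ((d : ℂ) - a) * z - b)

/-- displacement of `z` by an integral matrix of positive determinant -/
noncomputable def sf (a b c d : ℤ) (z : ℍ) : ℝ :=
  PP a b c d z / (((a * d - b * c : ℤ) : ℝ) * z.im ^ 2)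

lemma PP_eq (a b c d : ℤ) (z : ℍ) : PP a b c d z =
    ((c : ℝ) * (z.re ^ 2 - z.im ^ 2) + (d - a) * z.re - b) ^ 2 +
      (z.im * (2 * c * z.re + (d - a))) ^ 2 := by
  unfold PP
  rw [Complex.normSq_apply]
  have h1 : ((c : ℂ) * (z : ℂ) ^ 2 + ((d : ℂ) - a) * z - b).re =
      (c : ℝ) * (z.re ^ 2 - z.im ^ 2) + (d - a) * z.re - b := by
    simp [sq]
  have h2 : ((c : ℂ) * (z : ℂ) ^ 2 + ((d : ℂ) - a) * z - b).im =
      z.im * (2 * c * z.re + (d - a)) := by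
    simp [sq]
    ring
  rw [h1, h2]
  ring

/-- The conditions satisfied by a matrix of determinant `n` moving `z` by at most `S`. -/
lemma near_of_sf {a b c d : ℤ} {z : ℍ} {S n : ℝ} (hx : |z.re| ≤ 1 / 2) (hy : 1 / 2 ≤ z.im)
    (hS : 0 ≤ S) (hS6 : S ≤ 6) (hn : ((a * d - b * c : ℤ) : ℝ) = n) (hn0 : 0 < n)
    (hs : sf a b c d z ≤ S) :
    |2 * c * z.re + (d - a : ℤ)| ≤ √S * √n ∧
    |b + c * (z.re ^ 2 + z.im ^ 2)| ≤ 2 * (√S * √n * z.im) ∧
    |(c : ℝ)| * z.im ≤ 10 * √n ∧ |((a + d : ℤ) : ℝ)| ≤ 8 * √n := by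
  have hy0 : 0 < z.im := z.im_pos
  set x := z.re with hxd
  set y := z.im with hyd
  set r := √S * √n with hr
  have hr0 : 0 ≤ r := by positivity
  have hr2 : r ^ 2 = S * n := by
    rw [hr, mul_pow, Real.sq_sqrt hS, Real.sq_sqrt hn0.le]
  have hPP : PP a b c d z ≤ r ^ 2 * y ^ 2 := by
    unfold sf at hs
    rw [hn, div_le_iff₀ (by positivity)] at hs
    rw [hr2]; nlinarith
  rw [PP_eq] at hPP
  set R := (c : ℝ) * (x ^ 2 - y ^ 2) + (d - a) * x - b with hR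
  set e1 : ℝ := 2 * c * x + (d - a) with he1
  have h1 : (y * e1) ^ 2 ≤ (r * y) ^ 2 := by nlinarith [sq_nonneg R]
  have h2 : R ^ 2 ≤ (r * y) ^ 2 := by nlinarith [sq_nonneg (y * e1)]
  have h3 : |e1| ≤ r := by
    have h4 : |y * e1| ≤ r * y := abs_le_of_sq_le_sq h1 (by positivity)
    rw [abs_mul, abs_of_pos hy0] at h4
    have h5 : y * |e1| ≤ y * r := by linarith
    exact le_of_mul_le_mul_left h5 hy0
  have h4 : |R| ≤ r * y := abs_le_of_sq_le_sq h2 (by positivity)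
  have h5 : (b : ℝ) + c * (x ^ 2 + y ^ 2) = -R + x * e1 := by
    rw [hR, he1]; ring
  have h6 : |(b : ℝ) + c * (x ^ 2 + y ^ 2)| ≤ 2 * (r * y) := by
    rw [h5]
    have h7 : |x * e1| ≤ 1 / 2 * r := by
      rw [abs_mul]; exact mul_le_mul hx h3 (abs_nonneg _) (by norm_num)
    have h8 := abs_add_le (-R) (x * e1)
    rw [abs_neg] at h8
    nlinarith
  set e2 : ℝ := (b : ℝ) + c * (x ^ 2 + y ^ 2) with he2
  -- the trace identity
  have h7 : ((a + d : ℤ) : ℝ) ^ 2 = 4 * n - 4 * (c * y) ^ 2 - 4 * c * x * e1 + e1 ^ 2 + 4 * c * e2 := by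
    rw [← hn, he1, he2]
    push_cast
    ring
  set v := |(c : ℝ)| * y with hv
  have hv0 : 0 ≤ v := by positivity
  have hv2 : (c * y) ^ 2 = v ^ 2 := by rw [hv, mul_pow, mul_pow, sq_abs]
  have b1 : -4 * c * x * e1 ≤ 4 * (v * r) := by
    have e : -4 * c * x * e1 ≤ |(-4 * c * x * e1 : ℝ)| := le_abs_self _
    have e' : |(-4 * c * x * e1 : ℝ)| = 4 * (|(c : ℝ)| * |x| * |e1|) := by
      rw [abs_mul, abs_mul, abs_mul]; norm_num; ring
    have e'' : |(c : ℝ)| * |x| ≤ v := by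
      rw [hv]; exact mul_le_mul_of_nonneg_left (hx.trans hy) (abs_nonneg _)
    have : |(c : ℝ)| * |x| * |e1| ≤ v * r := mul_le_mul e'' h3 (abs_nonneg _) hv0
    linarith
  have b2 : e1 ^ 2 ≤ r ^ 2 := by rw [← sq_abs]; exact pow_le_pow_left₀ (abs_nonneg _) h3 2
  have b3 : 4 * c * e2 ≤ 8 * (v * r) := by
    have e : 4 * c * e2 ≤ |(4 * c * e2 : ℝ)| := le_abs_self _
    have e' : |(4 * c * e2 : ℝ)| = 4 * (|(c : ℝ)| * |e2|) := by
      rw [abs_mul, abs_mul]; norm_num; ring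
    have e'' : |(c : ℝ)| * |e2| ≤ |(c : ℝ)| * (2 * (r * y)) :=
      mul_le_mul_of_nonneg_left h6 (abs_nonneg _)
    have : |(c : ℝ)| * (2 * (r * y)) = 2 * (v * r) := by rw [hv]; ring
    linarith
  have h8 : ((a + d : ℤ) : ℝ) ^ 2 ≤ 4 * n - 4 * v ^ 2 + 12 * (v * r) + r ^ 2 := by
    rw [h7, hv2]; linarith
  have hSn : r ^ 2 ≤ 6 * n := by rw [hr2]; exact mul_le_mul_of_nonneg_right hS6 hn0.le
  have hsn : √n ^ 2 = n := Real.sq_sqrt hn0.le
  refine ⟨?_, h6, ?_, ?_⟩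
  · push_cast; exact h3
  · have h9 : v ^ 2 ≤ (10 * √n) ^ 2 := by
      rw [mul_pow 10 (√n) 2, hsn]
      have k1 : 12 * (v * r) ≤ 2 * v ^ 2 + 18 * r ^ 2 := by nlinarith [sq_nonneg (v - 3 * r)]
      have k2 := sq_nonneg ((a + d : ℤ) : ℝ)
      linarith
    exact abs_le_of_sq_le_sq h9 (by positivity) |>.trans' (le_abs_self v)
  · refine abs_le_of_sq_le_sq ?_ (by positivity)
    rw [mul_pow 8 (√n) 2, hsn]
    have k1 : 12 * (v * r) ≤ 4 * v ^ 2 + 9 * r ^ 2 := by nlinarith [sq_nonneg (2 * v - 3 * r)]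
    linarith

end Pool.Agent.H19.Maass
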