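import Mathlib
import Pool.Agent.H19.Maass.Geom
import Pool.Agent.H41.Eis.Divisor

set_option autoImplicit false

namespace Pool.Agent.H19.Maass

open UpperHalfPlane
open scoped ENNReal

/-- indicator of a proposition -/
noncomputable def ic (p : Prop) : ℝ≥0∞ := by classical exact if p then 1 else 0

lemma ic_true {p : Prop} (h : p) : ic p = 1 := by unfold ic; rw [if_pos h]
lemma ic_false {p : Prop} (h : ¬ p) : ic p = 0 := by unfold ic; rw [if_neg h]

lemma ic_mono {p q : Prop} (h : p → q) : ic p ≤ ic q := by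
  by_cases hp : p
  · rw [ic_true hp, ic_true (h hp)]
  · rw [ic_false hp]; exact zero_le

lemma ic_and (p q : Prop) : ic (p ∧ q) = ic p * ic q := by
  by_cases hp : p
  · by_cases hq : q
    · rw [ic_true hp, ic_true hq, ic_true ⟨hp, hq⟩, one_mul]
    · rw [ic_false hq, ic_false fun h => hq h.2, mul_zero]
  · rw [ic_false hp, ic_false fun h => hp h.1, zero_mul]

lemma ic_le_one (p : Prop) : ic p ≤ 1 := by
  by_cases hp : p
  · rw [ic_true hp]
  · rw [ic_false hp]; exact zero_le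

lemma ic_or (p q : Prop) : ic (p ∨ q) ≤ ic p + ic q := by
  by_cases hp : p
  · rw [ic_true (Or.inl hp), ic_true hp]; exact le_self_add
  · by_cases hq : q
    · rw [ic_true (Or.inr hq), ic_true hq]; exact le_add_self
    · rw [ic_false (by tauto)]; exact zero_le

/-- number of integers in an interval -/
lemma tsum_int_le (u r : ℝ) (hr : 0 ≤ r) :
    ∑' x : ℤ, ic (|(x : ℝ) + u| ≤ r) ≤ ENNReal.ofReal (2 * r + 1) := by
  rw [tsum_eq_sum (s := Finset.Icc ⌈-u - r⌉ ⌊-u + r⌋)]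
  · refine (Finset.sum_le_card_nsmul _ _ 1 fun x _ => ic_le_one _).trans ?_
    rw [nsmul_one, Int.card_Icc]
    rw [← ENNReal.ofReal_natCast]
    refine ENNReal.ofReal_le_ofReal ?_
    have h1 : ((⌊-u + r⌋ + 1 - ⌈-u - r⌉).toNat : ℝ) ≤ 2 * r + 1 := by
      by_cases h : 0 ≤ ⌊-u + r⌋ + 1 - ⌈-u - r⌉
      · have h2 : ((⌊-u + r⌋ + 1 - ⌈-u - r⌉).toNat : ℝ) =
            ((⌊-u + r⌋ + 1 - ⌈-u - r⌉ : ℤ) : ℝ) := by
          rw [← Int.cast_natCast, Int.toNat_of_nonneg h]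
        rw [h2]
        push_cast
        have h3 := Int.floor_le (-u + r)
        have h4 := Int.le_ceil (-u - r)
        linarith
      · rw [Int.toNat_of_nonpos (by omega)]
        simp; linarith
    exact h1
  · intro x hx
    refine ic_false fun h => hx ?_
    rw [abs_le] at h
    rw [Finset.mem_Icc]
    exact ⟨Int.ceil_le.2 (by linarith [h.1]), Int.le_floor.2 (by linarith [h.2])⟩

/-- number of nonzero integers in a symmetric interval -/
lemma tsum_int_ne_le (r : ℝ) (hr : 0 ≤ r) :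
    ∑' x : ℤ, ic (|(x : ℝ)| ≤ r ∧ x ≠ 0) ≤ ENNReal.ofReal (2 * r) := by
  have h0 : ∀ x : ℤ, ic (|(x : ℝ)| ≤ r ∧ x ≠ 0) =
      if x ∈ (Finset.Icc (-⌊r⌋) ⌊r⌋).erase 0 then 1 else 0 := by
    intro x
    unfold ic
    congr 1
    simp only [Finset.mem_erase, Finset.mem_Icc, eq_iff_iff]
    constructor
    · rintro ⟨h1, h2⟩
      rw [abs_le] at h1
      refine ⟨h2, ?_, Int.le_floor.2 h1.2⟩
      have : -x ≤ ⌊r⌋ := Int.le_floor.2 (by push_cast; linarith [h1.1])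
      omega
    · rintro ⟨h1, h2, h3⟩
      refine ⟨abs_le.2 ⟨?_, ?_⟩, h1⟩
      · have h4 : ((-⌊r⌋ : ℤ) : ℝ) ≤ x := by exact_mod_cast h2
        have := Int.floor_le r
        push_cast at h4
        linarith
      · have h4 : (x : ℝ) ≤ (⌊r⌋ : ℤ) := by exact_mod_cast h3
        have := Int.floor_le r
        linarith
  simp_rw [h0]
  rw [tsum_eq_sum (s := (Finset.Icc (-⌊r⌋) ⌊r⌋).erase 0) (fun x hx => by rw [if_neg hx])]
  rw [Finset.sum_congr rfl (fun x hx => if_pos hx)]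
  simp only [Finset.sum_const, nsmul_one]
  have hf : 0 ≤ ⌊r⌋ := Int.floor_nonneg.2 hr
  rw [Finset.card_erase_of_mem (by rw [Finset.mem_Icc]; omega), Int.card_Icc,
    ← ENNReal.ofReal_natCast]
  refine ENNReal.ofReal_le_ofReal ?_
  have h2 : ((⌊r⌋ + 1 - -⌊r⌋).toNat - 1 : ℕ) = (2 * ⌊r⌋).toNat := by omega
  rw [h2]
  have h3 : (((2 * ⌊r⌋).toNat : ℕ) : ℝ) = ((2 * ⌊r⌋ : ℤ) : ℝ) := by
    rw [← Int.cast_natCast, Int.toNat_of_nonneg (by omega)]
  rw [h3]
  push_cast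
  have := Int.floor_le r
  linarith

/-- number of square roots modulo `p` in an interval -/
lemma tsum_roots_le {p : ℕ} (hp : p.Prime) (Δ : ℤ) (M A : ℝ) (hA : 0 ≤ A) (hM : M ≤ A * p) :
    ∑' t : ℤ, ic (|(t : ℝ)| ≤ M ∧ (p : ℤ) ∣ t ^ 2 - Δ) ≤ ENNReal.ofReal (2 * (2 * A + 1)) := by
  have hp0 : (0 : ℝ) < p := by exact_mod_cast hp.pos
  have hpz : (p : ℤ) ≠ 0 := by exact_mod_cast hp.ne_zero
  by_cases hex : ∃ t0 : ℤ, (p : ℤ) ∣ t0 ^ 2 - Δ
  · obtain ⟨t0, ht0⟩ := hex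
    have hprog : ∀ s : ℤ, ∑' t : ℤ, ic (|(t : ℝ)| ≤ M ∧ (p : ℤ) ∣ t - s) ≤
        ENNReal.ofReal (2 * A + 1) := by
      intro s
      -- parametrise by k
      have h1 : ∑' t : ℤ, ic (|(t : ℝ)| ≤ M ∧ (p : ℤ) ∣ t - s) ≤
          ∑' k : ℤ, ic (|(k : ℝ) + (s : ℝ) / p| ≤ A) := by
        have h2 : ∑' t : ℤ, ic (|(t : ℝ)| ≤ M ∧ (p : ℤ) ∣ t - s) =
            ∑' k : ℤ, ic (|((s + p * k : ℤ) : ℝ)| ≤ M) := by
          have hinj : Function.Injective fun k : ℤ => s + p * k := by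
            intro k k' h
            have : (p : ℤ) * k = p * k' := by simpa using h
            exact mul_left_cancel₀ hpz this
          rw [← hinj.tsum_eq (f := fun t : ℤ => ic (|(t : ℝ)| ≤ M ∧ (p : ℤ) ∣ t - s))]
          · refine tsum_congr fun k => ?_
            congr 1
            have : (p : ℤ) ∣ s + p * k - s := ⟨k, by ring⟩
            simp only [this, and_true]
          · intro t ht
            rw [Function.mem_support] at ht
            have h3 : |(t : ℝ)| ≤ M ∧ (p : ℤ) ∣ t - s := by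
              by_contra h4
              exact ht (ic_false h4)
            obtain ⟨k, hk⟩ := h3.2
            exact ⟨k, by simp only; omega⟩
        rw [h2]
        refine ENNReal.tsum_le_tsum fun k => ic_mono fun h => ?_
        have h3 : (k : ℝ) + (s : ℝ) / p = ((s + p * k : ℤ) : ℝ) / p := by
          push_cast; field_simp; ring
        rw [h3, abs_div, abs_of_pos hp0, div_le_iff₀ hp0]
        exact h.trans hM
      exact h1.trans (tsum_int_le _ _ hA)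
    have h2 : ∀ t : ℤ, ic (|(t : ℝ)| ≤ M ∧ (p : ℤ) ∣ t ^ 2 - Δ) ≤
        ic (|(t : ℝ)| ≤ M ∧ (p : ℤ) ∣ t - t0) + ic (|(t : ℝ)| ≤ M ∧ (p : ℤ) ∣ t - (-t0)) := by
      intro t
      refine le_trans (ic_mono ?_) (ic_or _ _)
      rintro ⟨h3, h4⟩
      have h5 : (p : ℤ) ∣ (t - t0) * (t - -t0) := by
        have := dvd_sub h4 ht0
        have e : t ^ 2 - Δ - (t0 ^ 2 - Δ) = (t - t0) * (t - -t0) := by ring
        rwa [e] at this
      rcases (Nat.prime_iff_prime_int.1 hp).dvd_or_dvd h5 with h6 | h6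
      · exact Or.inl ⟨h3, h6⟩
      · exact Or.inr ⟨h3, h6⟩
    refine (ENNReal.tsum_le_tsum h2).trans ?_
    rw [ENNReal.tsum_add]
    refine (add_le_add (hprog t0) (hprog (-t0))).trans (le_of_eq ?_)
    rw [← ENNReal.ofReal_add (by positivity) (by positivity)]
    congr 1; ring
  · rw [not_exists] at hex
    have : ∀ t : ℤ, ic (|(t : ℝ)| ≤ M ∧ (p : ℤ) ∣ t ^ 2 - Δ) = 0 := fun t =>
      ic_false fun h => hex t h.2
    simp_rw [this]
    simp

/-- quadruples of integers -/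
abbrev Z4 := ℤ × ℤ × ℤ × ℤ

/-- determinant -/
def det4 (β : Z4) : ℤ := β.1 * β.2.2.2 - β.2.1 * β.2.2.1

/-- displacement -/
noncomputable def sf4 (β : Z4) (z : ℍ) : ℝ := sf β.1 β.2.1 β.2.2.1 β.2.2.2 z

/-- change of variables `(a,b,c,d) ↦ (c, d-a, b, a+d)` -/
def cov (β : Z4) : Z4 := (β.2.2.1, β.2.2.2 - β.1, β.2.1, β.1 + β.2.2.2)

lemma cov_injective : Function.Injective cov := by
  rintro ⟨a, b, c, d⟩ ⟨a', b', c', d'⟩ h
  simp only [cov, Prod.mk.injEq] at h ⊢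
  omega

lemma det4_cov (β : Z4) : (cov β).2.2.2 ^ 2 - ((cov β).2.1 ^ 2 + 4 * (cov β).2.2.1 * (cov β).1) =
    4 * det4 β := by
  simp only [cov, det4]
  ring

lemma tsum_cov_le {f : Z4 → ℝ≥0∞} {g : ℤ → ℤ → ℤ → ℤ → ℝ≥0∞}
    (h : ∀ β : Z4, f β ≤ g (cov β).1 (cov β).2.1 (cov β).2.2.1 (cov β).2.2.2) :
    ∑' β, f β ≤ ∑' c, ∑' e, ∑' b, ∑' t, g c e b t := by
  have h1 : ∑' β, f β ≤ ∑' β : Z4, g β.1 β.2.1 β.2.2.1 β.2.2.2 :=
    (ENNReal.tsum_le_tsum h).trans (ENNReal.tsum_comp_le_tsum_of_injective cov_injective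
      (fun β : Z4 => g β.1 β.2.1 β.2.2.1 β.2.2.2))
  refine h1.trans (le_of_eq ?_)
  rw [ENNReal.tsum_prod']
  refine tsum_congr fun c => ?_
  rw [ENNReal.tsum_prod']
  refine tsum_congr fun e => ?_
  rw [ENNReal.tsum_prod']

/-- nested bound -/
lemma nested_le {g : ℤ → ℤ → ℤ → ℤ → ℝ≥0∞} {P : ℤ → Prop} {Q : ℤ → ℤ → Prop}
    {R : ℤ → ℤ → ℤ → Prop} {S : ℤ → ℤ → ℤ → ℤ → Prop}
    (hg : ∀ c e b t, g c e b t ≤ ic (P c) * (ic (Q c e) * (ic (R c e b) * ic (S c e b t))))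
    {A B C D : ℝ≥0∞} (hP : ∑' c, ic (P c) ≤ A) (hQ : ∀ c, ∑' e, ic (Q c e) ≤ B)
    (hR : ∀ c e, ∑' b, ic (R c e b) ≤ C) (hS : ∀ c e b, ∑' t, ic (S c e b t) ≤ D) :
    ∑' c, ∑' e, ∑' b, ∑' t, g c e b t ≤ A * (B * (C * D)) := by
  calc ∑' c, ∑' e, ∑' b, ∑' t, g c e b t
      ≤ ∑' c, ∑' e, ∑' b, ∑' t, ic (P c) * (ic (Q c e) * (ic (R c e b) * ic (S c e b t))) :=
        ENNReal.tsum_le_tsum fun c => ENNReal.tsum_le_tsum fun e => ENNReal.tsum_le_tsum fun b =>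
          ENNReal.tsum_le_tsum fun t => hg c e b t
    _ = ∑' c, ic (P c) * ∑' e, ic (Q c e) * ∑' b, ic (R c e b) * ∑' t, ic (S c e b t) := by
        simp_rw [ENNReal.tsum_mul_left]
    _ ≤ ∑' c, ic (P c) * ∑' e, ic (Q c e) * ∑' b, ic (R c e b) * D := by
        gcongr; exact hS _ _ _
    _ = ∑' c, ic (P c) * ∑' e, ic (Q c e) * ((∑' b, ic (R c e b)) * D) := by
        simp_rw [ENNReal.tsum_mul_right]
    _ ≤ ∑' c, ic (P c) * ∑' e, ic (Q c e) * (C * D) := by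
        gcongr; exact hR _ _
    _ = ∑' c, ic (P c) * ((∑' e, ic (Q c e)) * (C * D)) := by
        simp_rw [ENNReal.tsum_mul_right]
    _ ≤ ∑' c, ic (P c) * (B * (C * D)) := by
        gcongr; exact hQ _
    _ = (∑' c, ic (P c)) * (B * (C * D)) := ENNReal.tsum_mul_right
    _ ≤ A * (B * (C * D)) := by gcongr

/-- counting for the linear amplifier -/
theorem count_p (z : ℍ) (hx : |z.re| ≤ 1 / 2) (hy : 1 / 2 ≤ z.im) {Y : ℝ} (hY : z.im ≤ Y)
    {N : ℝ} (hN : 1 ≤ N) {p : ℕ} (hp : p.Prime) (hp1 : N ≤ p) (hp2 : p ≤ 4 * N)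
    (Q : Finset ℕ) (hQ : ∀ q ∈ Q, 1 ≤ q ∧ (q : ℝ) ≤ 4 * N) {S : ℝ} (hS : 0 ≤ S) (hS6 : S ≤ 6) :
    ∑ q ∈ Q, ∑' β : Z4, ic (det4 β = p * q ∧ sf4 β z ≤ S) ≤
      ENNReal.ofReal (161 * N * ((8 * (√S * N) + 1) * ((16 * (√S * N) * Y + 1) * 130))) := by
  have hY0 : 0 < Y := lt_of_lt_of_le z.im_pos hY
  have hN0 : 0 < N := by linarith
  have hp0 : (0 : ℝ) < p := by exact_mod_cast hp.pos
  have hx1 : ∀ β : Z4, ∑ q ∈ Q, ic (det4 β = p * q ∧ sf4 β z ≤ S) ≤
      ic (∃ q ∈ Q, det4 β = p * q ∧ sf4 β z ≤ S) := by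
    intro β
    by_cases h : ∃ q ∈ Q, det4 β = p * q ∧ sf4 β z ≤ S
    · rw [ic_true h]
      obtain ⟨q, hq, h1, h2⟩ := h
      rw [Finset.sum_eq_single q]
      · exact ic_le_one _
      · intro q' _ hne
        refine ic_false fun h3 => hne ?_
        have h4 : (p : ℤ) * q' = p * q := by rw [← h3.1, h1]
        have h5 := mul_left_cancel₀ (by exact_mod_cast hp.ne_zero) h4
        exact_mod_cast h5
      · intro h; exact absurd hq h
    · refine le_of_eq ?_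
      rw [ic_false h]
      refine Finset.sum_eq_zero fun q hq => ic_false fun h1 => h ⟨q, hq, h1⟩
  rw [← Summable.tsum_finsetSum (fun _ _ => ENNReal.summable)]
  refine (ENNReal.tsum_le_tsum hx1).trans ?_
  refine (tsum_cov_le (g := fun c e b t => ic (∃ n : ℝ, 0 < n ∧ n ≤ 16 * N ^ 2 ∧
    |2 * c * z.re + (e : ℝ)| ≤ √S * √n ∧ |b + c * (z.re ^ 2 + z.im ^ 2)| ≤ 2 * (√S * √n * z.im) ∧
    |(c : ℝ)| * z.im ≤ 10 * √n ∧ |(t : ℝ)| ≤ 8 * √n ∧
      (p : ℤ) ∣ t ^ 2 - (e ^ 2 + 4 * b * c))) ?_).trans ?_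
  · intro β
    refine ic_mono ?_
    rintro ⟨q, hq, h1, h2⟩
    obtain ⟨hq1, hq2⟩ := hQ q hq
    have hq0 : (1 : ℝ) ≤ q := by exact_mod_cast hq1
    have hn0 : (0 : ℝ) < p * q := by positivity
    have h3 := near_of_sf (a := β.1) (b := β.2.1) (c := β.2.2.1) (d := β.2.2.2) (n := p * q)
      hx hy hS hS6 (by
        have : ((det4 β : ℤ) : ℝ) = p * q := by rw [h1]; push_cast; ring
        exact this) hn0 h2
    refine ⟨p * q, hn0, ?_, h3.1, h3.2.1, h3.2.2.1, h3.2.2.2, ?_⟩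
    · calc (p : ℝ) * q ≤ (4 * N) * (4 * N) := mul_le_mul hp2 hq2 (by linarith) (by linarith)
        _ = 16 * N ^ 2 := by ring
    · rw [det4_cov, h1]
      exact ⟨4 * q, by ring⟩
  · have hsq : ∀ n : ℝ, n ≤ 16 * N ^ 2 → √n ≤ 4 * N := by
      intro n hn
      rw [Real.sqrt_le_left (by linarith)]
      nlinarith
    have hsS : 0 ≤ √S := Real.sqrt_nonneg S
    refine (nested_le (P := fun c => |(c : ℝ) + 0| ≤ 80 * N)
      (Q := fun c e => |(e : ℝ) + 2 * c * z.re| ≤ 4 * (√S * N))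
      (R := fun c _ b => |(b : ℝ) + c * (z.re ^ 2 + z.im ^ 2)| ≤ 8 * (√S * N) * Y)
      (S := fun c e b t => |(t : ℝ)| ≤ 32 * N ∧ (p : ℤ) ∣ t ^ 2 - (e ^ 2 + 4 * b * c))
      (A := ENNReal.ofReal (161 * N)) (B := ENNReal.ofReal (8 * (√S * N) + 1))
      (C := ENNReal.ofReal (16 * (√S * N) * Y + 1)) (D := ENNReal.ofReal 130)
      ?_ ?_ ?_ ?_ ?_).trans (le_of_eq ?_)
    · intro c e b t
      rw [← ic_and, ← ic_and, ← ic_and]
      refine ic_mono ?_
      rintro ⟨n, hn0, hn, h1, h2, h3, h4, h5⟩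
      have hs := hsq n hn
      have hs0 : 0 ≤ √n := Real.sqrt_nonneg n
      refine ⟨?_, ?_, ?_, ?_, h5⟩
      · rw [add_zero]
        nlinarith [abs_nonneg (c : ℝ)]
      · rw [add_comm]
        refine h1.trans ?_
        nlinarith
      · refine h2.trans ?_
        have e1 : √S * √n ≤ √S * (4 * N) := mul_le_mul_of_nonneg_left hs hsS
        have e2 : √S * √n * z.im ≤ √S * (4 * N) * Y :=
          mul_le_mul e1 hY z.im_pos.le (by positivity)
        linarith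
      · refine h4.trans ?_
        linarith
    · refine (tsum_int_le 0 (80 * N) (by positivity)).trans (ENNReal.ofReal_le_ofReal ?_)
      linarith
    · intro c
      refine (tsum_int_le _ _ (by positivity)).trans (ENNReal.ofReal_le_ofReal ?_)
      linarith
    · intro c e
      refine (tsum_int_le _ _ (by positivity)).trans (ENNReal.ofReal_le_ofReal ?_)
      linarith
    · intro c e b
      refine (tsum_roots_le hp _ _ 32 (by norm_num) ?_).trans (ENNReal.ofReal_le_ofReal ?_)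
      · linarith
      · norm_num
    · rw [← ENNReal.ofReal_mul (by positivity), ← ENNReal.ofReal_mul (by positivity),
        ← ENNReal.ofReal_mul (by positivity)]

end Pool.Agent.H19.Maass
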