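import Mathlib
import Pool.Agent.H19.Maass.Count
import Pool.Agent.H19.Maass.Unfold

set_option autoImplicit false

namespace Pool.Agent.H19.Maass

open UpperHalfPlane
open scoped ENNReal MatrixGroups

/-- Hecke point `(a z + b)/d` -/
noncomputable def hp (a b d : ℕ) (z : ℍ) : ℍ := ofComplex (((a : ℂ) * z + b) / d)

lemma hp_im_pos {a b d : ℕ} (ha : 0 < a) (hd : 0 < d) (z : ℍ) :
    0 < (((a : ℂ) * z + b) / d).im := by
  have h1 : (((a : ℂ) * z + b) / d).im = a * z.im / d := by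
    rw [Complex.div_natCast_im]
    simp
  rw [h1]
  have ha' : (0 : ℝ) < a := by exact_mod_cast ha
  have hd' : (0 : ℝ) < d := by exact_mod_cast hd
  have := z.im_pos
  positivity

lemma coe_hp {a b d : ℕ} (ha : 0 < a) (hd : 0 < d) (z : ℍ) :
    ((hp a b d z : ℍ) : ℂ) = ((a : ℂ) * z + b) / d := by
  unfold hp
  rw [ofComplex_apply_of_im_pos (hp_im_pos ha hd z)]

lemma hp_im {a b d : ℕ} (ha : 0 < a) (hd : 0 < d) (z : ℍ) :
    (hp a b d z).im = a * z.im / d := by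
  rw [← coe_im, coe_hp ha hd, Complex.div_natCast_im]
  simp

/-- `adj(δ) σ δ'` -/
def psi4 (a b d : ℕ) (σ : SL(2, ℤ)) (a' b' d' : ℕ) : Z4 :=
  ((d * σ 0 0 - b * σ 1 0) * a', (d * σ 0 0 - b * σ 1 0) * b' + (d * σ 0 1 - b * σ 1 1) * d',
    a * σ 1 0 * a', a * σ 1 0 * b' + a * σ 1 1 * d')

lemma sl_det (σ : SL(2, ℤ)) : σ 0 0 * σ 1 1 - σ 0 1 * σ 1 0 = 1 := by
  have := σ.det_coe
  rwa [Matrix.det_fin_two] at this

lemma det_psi4 (a b d : ℕ) (σ : SL(2, ℤ)) (a' b' d' : ℕ) :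
    det4 (psi4 a b d σ a' b' d') = (a * d) * (a' * d') := by
  unfold det4 psi4
  simp only
  linear_combination (a * d * (a' * d') : ℤ) * sl_det σ

lemma dist_hecke {a b d a' b' d' : ℕ} (ha : 0 < a) (hd : 0 < d) (ha' : 0 < a') (hd' : 0 < d')
    (σ : SL(2, ℤ)) (z : ℍ) :
    2 * Real.cosh (dist (hp a b d z) (σ • hp a' b' d' z)) - 2 =
      sf4 (psi4 a b d σ a' b' d') z := by
  set w := hp a' b' d' z with hw
  have hy := z.im_pos
  have haR : (0 : ℝ) < a := by exact_mod_cast ha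
  have hdR : (0 : ℝ) < d := by exact_mod_cast hd
  have haR' : (0 : ℝ) < a' := by exact_mod_cast ha'
  have hdR' : (0 : ℝ) < d' := by exact_mod_cast hd'
  have hdC : (d : ℂ) ≠ 0 := by exact_mod_cast hd.ne'
  have hdC' : (d' : ℂ) ≠ 0 := by exact_mod_cast hd'.ne'
  set j : ℂ := (σ 1 0 : ℂ) * w + σ 1 1 with hj
  have hj0 : j ≠ 0 := by
    have := UpperHalfPlane.denom_ne_zero (σ : GL (Fin 2) ℝ) w
    rwa [ModularGroup.denom_apply] at this
  have hjn : 0 < Complex.normSq j := Complex.normSq_pos.2 hj0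
  have him : (σ • w).im = w.im / Complex.normSq j := by
    rw [ModularGroup.im_smul_eq_div_normSq, ModularGroup.denom_apply]
  have hco : ((σ • w : ℍ) : ℂ) = ((σ 0 0 : ℂ) * w + σ 0 1) / j := by
    rw [coe_specialLinearGroup_apply]
    simp [hj]
  have hcosh := cosh_dist (hp a b d z) (σ • w)
  have h1 : 2 * Real.cosh (dist (hp a b d z) (σ • w)) - 2 =
      dist ((hp a b d z : ℍ) : ℂ) ((σ • w : ℍ) : ℂ) ^ 2 / ((hp a b d z).im * (σ • w).im) := by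
    rw [hcosh]
    have := (hp a b d z).im_pos
    have := (σ • w).im_pos
    field_simp
    ring
  rw [h1, him, hp_im ha hd, Complex.dist_eq, ← Complex.normSq_eq_norm_sq, hco, coe_hp ha hd,
    hw, hp_im ha' hd']
  have hwc : ((w : ℍ) : ℂ) = ((a' : ℂ) * z + b') / d' := coe_hp ha' hd' z
  have h2 : ((a : ℂ) * z + b) / d - ((σ 0 0 : ℂ) * w + σ 0 1) / j =
      (((psi4 a b d σ a' b' d').2.2.1 : ℂ) * (z : ℂ) ^ 2 +
        (((psi4 a b d σ a' b' d').2.2.2 : ℂ) - (psi4 a b d σ a' b' d').1) * z -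
        (psi4 a b d σ a' b' d').2.1) / (d * d' * j) := by
    rw [div_sub_div _ _ hdC hj0, div_eq_div_iff (mul_ne_zero hdC hj0)
      (mul_ne_zero (mul_ne_zero hdC hdC') hj0)]
    unfold psi4
    rw [hj, hwc]
    push_cast
    field_simp
    ring
  rw [← hw, h2]
  unfold sf4 sf PP
  rw [map_div₀, map_mul, map_mul]
  have h3 : ((((psi4 a b d σ a' b' d').1 * (psi4 a b d σ a' b' d').2.2.2 -
      (psi4 a b d σ a' b' d').2.1 * (psi4 a b d σ a' b' d').2.2.1 : ℤ)) : ℝ) =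
      (a * d) * (a' * d') := by
    have := det_psi4 a b d σ a' b' d'
    unfold det4 at this
    rw [this]
    push_cast
    ring
  rw [h3, Complex.normSq_natCast, Complex.normSq_natCast]
  field_simp

/-- Hecke indices `(d, b)` -/
def RR (n : ℕ) : Finset (Σ _ : ℕ, ℕ) := n.divisors.sigma fun d => Finset.range d

lemma mem_RR {n : ℕ} {x : Σ _ : ℕ, ℕ} : x ∈ RR n ↔ x.1 ∈ n.divisors ∧ x.2 < x.1 := by
  simp [RR]

/-- the Hecke point attached to an index -/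
noncomputable def hx (n : ℕ) (x : Σ _ : ℕ, ℕ) (z : ℍ) : ℍ := hp (n / x.1) x.2 x.1 z

/-- uniqueness of Hermite forms -/
lemma hermite {m : ℕ} {x y : Σ _ : ℕ, ℕ} (hx : x ∈ RR m) (hy : y ∈ RR m)
    {σ τ : SL(2, ℤ)}
    (h1 : σ 0 0 * ((m / x.1 : ℕ) : ℤ) = τ 0 0 * ((m / y.1 : ℕ) : ℤ))
    (h2 : σ 0 0 * (x.2 : ℤ) + σ 0 1 * x.1 = τ 0 0 * (y.2 : ℤ) + τ 0 1 * y.1)
    (h3 : σ 1 0 * ((m / x.1 : ℕ) : ℤ) = τ 1 0 * ((m / y.1 : ℕ) : ℤ))
    (h4 : σ 1 0 * (x.2 : ℤ) + σ 1 1 * x.1 = τ 1 0 * (y.2 : ℤ) + τ 1 1 * y.1) :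
    x = y ∧ σ = τ := by
  rw [mem_RR, Nat.mem_divisors] at hx hy
  obtain ⟨⟨hxd, hm⟩, hxb⟩ := hx
  obtain ⟨⟨hyd, _⟩, hyb⟩ := hy
  have hx0 : 0 < x.1 := Nat.pos_of_dvd_of_pos hxd (Nat.pos_of_ne_zero hm)
  have hy0 : 0 < y.1 := Nat.pos_of_dvd_of_pos hyd (Nat.pos_of_ne_zero hm)
  have hax : 0 < m / x.1 := Nat.div_pos (Nat.le_of_dvd (Nat.pos_of_ne_zero hm) hxd) hx0
  have hay : 0 < m / y.1 := Nat.div_pos (Nat.le_of_dvd (Nat.pos_of_ne_zero hm) hyd) hy0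
  set ax : ℤ := ((m / x.1 : ℕ) : ℤ) with hax'
  set ay : ℤ := ((m / y.1 : ℕ) : ℤ) with hay'
  have e1 := sl_det σ
  have e2 := sl_det τ
  have d1 : ax ∣ ay := ⟨τ 1 1 * σ 0 0 - τ 0 1 * σ 1 0, by
    linear_combination (-ay) * e2 - τ 1 1 * h1 + τ 0 1 * h3⟩
  have d2 : ay ∣ ax := ⟨σ 1 1 * τ 0 0 - σ 0 1 * τ 1 0, by
    linear_combination (-ax) * e1 + σ 1 1 * h1 - σ 0 1 * h3⟩
  have haxy : ax = ay := Int.dvd_antisymm (by positivity) (by positivity) d1 d2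
  have haxyN : m / x.1 = m / y.1 := by
    rw [hax', hay'] at haxy
    exact_mod_cast haxy
  have hxy : x.1 = y.1 := by
    have h5 := Nat.div_mul_cancel hxd
    have h6 := Nat.div_mul_cancel hyd
    rw [haxyN] at h5
    exact Nat.eq_of_mul_eq_mul_left hay (h5.trans h6.symm)
  have hax0 : ax ≠ 0 := by rw [hax']; exact_mod_cast hax.ne'
  have p1 : σ 0 0 = τ 0 0 := by
    rw [← haxy] at h1; exact mul_right_cancel₀ hax0 h1
  have p2 : σ 1 0 = τ 1 0 := by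
    rw [← haxy] at h3; exact mul_right_cancel₀ hax0 h3
  rw [hxy, p1] at h2
  rw [hxy, p2] at h4
  rw [p1, p2] at e1
  have h5 : (y.1 : ℤ) ∣ (x.2 : ℤ) - y.2 := ⟨(τ 0 1 - σ 0 1) * τ 1 1 - (τ 1 1 - σ 1 1) * τ 0 1, by
    linear_combination τ 1 1 * h2 - τ 0 1 * h4 - ((x.2 : ℤ) - y.2) * e2⟩
  have h6 : x.2 = y.2 := by
    have h7 : |(x.2 : ℤ) - y.2| < y.1 := by
      rw [abs_lt]
      rw [hxy] at hxb
      constructor <;> omega
    have h8 := Int.eq_zero_of_abs_lt_dvd h5 h7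
    omega
  have hyz : (y.1 : ℤ) ≠ 0 := by exact_mod_cast hy0.ne'
  rw [h6] at h2 h4
  have q1 : σ 0 1 = τ 0 1 := mul_right_cancel₀ hyz (by linarith)
  have q2 : σ 1 1 = τ 1 1 := mul_right_cancel₀ hyz (by linarith)
  constructor
  · exact Sigma.ext hxy (heq_of_eq h6)
  · ext i j
    fin_cases i <;> fin_cases j
    · exact p1
    · exact q1
    · exact p2
    · exact q2

lemma psi4_injective {n m : ℕ} {x : Σ _ : ℕ, ℕ} (hx : x ∈ RR n) {y y' : Σ _ : ℕ, ℕ}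
    (hy : y ∈ RR m) (hy' : y' ∈ RR m) {σ σ' : SL(2, ℤ)}
    (h : psi4 (n / x.1) x.2 x.1 σ (m / y.1) y.2 y.1 =
      psi4 (n / x.1) x.2 x.1 σ' (m / y'.1) y'.2 y'.1) : y = y' ∧ σ = σ' := by
  rw [mem_RR, Nat.mem_divisors] at hx
  obtain ⟨⟨hxd, hn⟩, hxb⟩ := hx
  have hx0 : 0 < x.1 := Nat.pos_of_dvd_of_pos hxd (Nat.pos_of_ne_zero hn)
  have hax : 0 < n / x.1 := Nat.div_pos (Nat.le_of_dvd (Nat.pos_of_ne_zero hn) hxd) hx0
  have hd0 : (x.1 : ℤ) ≠ 0 := by exact_mod_cast hx0.ne'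
  have ha0 : (((n / x.1 : ℕ)) : ℤ) ≠ 0 := by exact_mod_cast hax.ne'
  simp only [psi4, Prod.mk.injEq] at h
  obtain ⟨g1, g2, g3, g4⟩ := h
  have k3 : σ 1 0 * ((m / y.1 : ℕ) : ℤ) = σ' 1 0 * ((m / y'.1 : ℕ) : ℤ) :=
    mul_left_cancel₀ ha0 (by linarith)
  have k4 : σ 1 0 * (y.2 : ℤ) + σ 1 1 * y.1 = σ' 1 0 * (y'.2 : ℤ) + σ' 1 1 * y'.1 :=
    mul_left_cancel₀ ha0 (by linarith)
  have k1 : σ 0 0 * ((m / y.1 : ℕ) : ℤ) = σ' 0 0 * ((m / y'.1 : ℕ) : ℤ) :=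
    mul_left_cancel₀ hd0 (by linear_combination g1 + (x.2 : ℤ) * k3)
  have k2 : σ 0 0 * (y.2 : ℤ) + σ 0 1 * y.1 = σ' 0 0 * (y'.2 : ℤ) + σ' 0 1 * y'.1 :=
    mul_left_cancel₀ hd0 (by linear_combination g2 + (x.2 : ℤ) * k4)
  exact hermite hy hy' k1 k2 k3 k4

/-- `n ∣ δ β` -/
def dv (n a b d : ℕ) (β : Z4) : Prop :=
  (n : ℤ) ∣ a * β.1 + b * β.2.2.1 ∧ (n : ℤ) ∣ a * β.2.1 + b * β.2.2.2 ∧
    (n : ℤ) ∣ d * β.2.2.1 ∧ (n : ℤ) ∣ d * β.2.2.2

lemma dv_psi4 {n a b d : ℕ} (h : a * d = n) (σ : SL(2, ℤ)) (a' b' d' : ℕ) :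
    dv n a b d (psi4 a b d σ a' b' d') := by
  have h' : (a : ℤ) * d = n := by exact_mod_cast h
  unfold dv psi4
  refine ⟨⟨σ 0 0 * a', ?_⟩, ⟨σ 0 0 * b' + σ 0 1 * d', ?_⟩, ⟨σ 1 0 * a', ?_⟩,
    ⟨σ 1 0 * b' + σ 1 1 * d', ?_⟩⟩
  · simp only; rw [← h']; ring
  · simp only; rw [← h']; ring
  · simp only; rw [← h']; ring
  · simp only; rw [← h']; ring

/-- `h ∣ β` -/
def dvb (h : ℕ) (β : Z4) : Prop :=
  (h : ℤ) ∣ β.1 ∧ (h : ℤ) ∣ β.2.1 ∧ (h : ℤ) ∣ β.2.2.1 ∧ (h : ℤ) ∣ β.2.2.2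

lemma sum_range_dv_le {n a d : ℕ} (hn : 0 < n) (h : a * d = n) (β : Z4) :
    ∑ b ∈ Finset.range d, ic (dv n a b d β) ≤ ∑ h ∈ n.divisors, (h : ℝ≥0∞) * ic (dvb h β) := by
  classical
  have ha : 0 < a := Nat.pos_of_ne_zero (by rintro rfl; simp at h; omega)
  have hd : 0 < d := Nat.pos_of_ne_zero (by rintro rfl; simp at h; omega)
  have ha' : (a : ℤ) ≠ 0 := by exact_mod_cast ha.ne'
  have hd' : (d : ℤ) ≠ 0 := by exact_mod_cast hd.ne'
  by_cases hex : ∃ b, dv n a b d β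
  · obtain ⟨b0, h01, h02, h03, h04⟩ := hex
    have hn' : (n : ℤ) = a * d := by rw [← h]; push_cast; ring
    rw [hn'] at h01 h02 h03 h04
    obtain ⟨c1, hc1⟩ : (a : ℤ) ∣ β.2.2.1 := by
      have : (d : ℤ) * a ∣ d * β.2.2.1 := by rwa [mul_comm (d : ℤ) a]
      exact (mul_dvd_mul_iff_left hd').1 this
    obtain ⟨e1, he1⟩ : (a : ℤ) ∣ β.2.2.2 := by
      have : (d : ℤ) * a ∣ d * β.2.2.2 := by rwa [mul_comm (d : ℤ) a]
      exact (mul_dvd_mul_iff_left hd').1 this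
    have g1 : ∀ b : ℕ, dv n a b d β → (d : ℤ) ∣ β.1 + b * c1 ∧ (d : ℤ) ∣ β.2.1 + b * e1 := by
      rintro b ⟨k1, k2, _, _⟩
      rw [hn'] at k1 k2
      constructor
      · refine (mul_dvd_mul_iff_left ha').1 ?_
        have : (a : ℤ) * (β.1 + b * c1) = a * β.1 + b * β.2.2.1 := by rw [hc1]; ring
        rwa [this]
      · refine (mul_dvd_mul_iff_left ha').1 ?_
        have : (a : ℤ) * (β.2.1 + b * e1) = a * β.2.1 + b * β.2.2.2 := by rw [he1]; ring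
        rwa [this]
    obtain ⟨j1, j2⟩ := g1 b0 ⟨by rwa [hn'], by rwa [hn'], by rwa [hn'], by rwa [hn']⟩
    set H : ℕ := Int.gcd (Int.gcd c1 e1) d with hH
    have hHd : H ∣ d := by
      have : ((Int.gcd (Int.gcd c1 e1) d : ℕ) : ℤ) ∣ (d : ℤ) := Int.gcd_dvd_right _ _
      exact_mod_cast this
    have hHpos : 0 < H := Nat.pos_of_dvd_of_pos hHd hd
    have hHc : (H : ℤ) ∣ c1 :=
      (Int.gcd_dvd_left _ _ : ((Int.gcd (Int.gcd c1 e1) d : ℕ) : ℤ) ∣ _).trans (Int.gcd_dvd_left _ _)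
    have hHe : (H : ℤ) ∣ e1 :=
      (Int.gcd_dvd_left _ _ : ((Int.gcd (Int.gcd c1 e1) d : ℕ) : ℤ) ∣ _).trans (Int.gcd_dvd_right _ _)
    have hHdz : (H : ℤ) ∣ (d : ℤ) := by exact_mod_cast hHd
    have hdvb : dvb H β := by
      refine ⟨?_, ?_, ?_, ?_⟩
      · have := dvd_sub (hHdz.trans j1) (hHc.mul_left (b0 : ℤ))
        simpa using this
      · have := dvd_sub (hHdz.trans j2) (hHe.mul_left (b0 : ℤ))
        simpa using this
      · rw [hc1]; exact hHc.mul_left _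
      · rw [he1]; exact hHe.mul_left _
    have hHn : H ∈ n.divisors := by
      rw [Nat.mem_divisors]
      exact ⟨hHd.trans ⟨a, by rw [← h]; ring⟩, hn.ne'⟩
    -- the solutions lie in one residue class modulo d / H
    obtain ⟨q, hq⟩ := hHd
    have hq0 : 0 < q := Nat.pos_of_ne_zero (by rintro rfl; simp at hq; omega)
    have hcount : ∑ b ∈ Finset.range d, ic (dv n a b d β) ≤ (H : ℝ≥0∞) := by
      have h5 : ∀ b ∈ Finset.range d, ic (dv n a b d β) ≤ ic (b ≡ b0 [MOD q]) := by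
        intro b _
        refine ic_mono fun hb => ?_
        obtain ⟨k1, k2⟩ := g1 b hb
        have l1 : (d : ℤ) ∣ ((b : ℤ) - b0) * c1 := by
          have := dvd_sub k1 j1
          have e : β.1 + b * c1 - (β.1 + b0 * c1) = ((b : ℤ) - b0) * c1 := by ring
          rwa [e] at this
        have l2 : (d : ℤ) ∣ ((b : ℤ) - b0) * e1 := by
          have := dvd_sub k2 j2
          have e : β.2.1 + b * e1 - (β.2.1 + b0 * e1) = ((b : ℤ) - b0) * e1 := by ring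
          rwa [e] at this
        have l3 : (d : ℤ) ∣ ((b : ℤ) - b0) * d := dvd_mul_left _ _
        have l4 : (d : ℤ) ∣ ((b : ℤ) - b0) * H := by
          have m1 := Int.gcd_eq_gcd_ab c1 e1
          have m2 := Int.gcd_eq_gcd_ab (Int.gcd c1 e1 : ℤ) d
          rw [hH, m2, m1]
          have e : ((b : ℤ) - b0) * ((c1 * c1.gcdA e1 + e1 * c1.gcdB e1) *
              (Int.gcd c1 e1 : ℤ).gcdA d + d * (Int.gcd c1 e1 : ℤ).gcdB d) =
              (((b : ℤ) - b0) * c1) * (c1.gcdA e1 * (Int.gcd c1 e1 : ℤ).gcdA d) +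
              (((b : ℤ) - b0) * e1) * (c1.gcdB e1 * (Int.gcd c1 e1 : ℤ).gcdA d) +
              (((b : ℤ) - b0) * d) * (Int.gcd c1 e1 : ℤ).gcdB d := by ring
          rw [← m1] at e ⊢
          rw [e]
          exact ((l1.mul_right _).add (l2.mul_right _)).add (l3.mul_right _)
        have l5 : (q : ℤ) ∣ (b : ℤ) - b0 := by
          have hHz : (H : ℤ) ≠ 0 := by exact_mod_cast hHpos.ne'
          refine (mul_dvd_mul_iff_left hHz).1 ?_
          have e : (H : ℤ) * q = d := by rw [hq]; push_cast; ring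
          rw [e, mul_comm]
          exact l4
        exact (Nat.modEq_iff_dvd.2 (by
          have := (dvd_neg.2 l5)
          rwa [neg_sub] at this))
      refine (Finset.sum_le_sum h5).trans ?_
      have h6 : ∀ b, ic (b ≡ b0 [MOD q]) = if b ≡ b0 [MOD q] then 1 else 0 := by
        intro b; unfold ic; congr
      simp_rw [h6]
      rw [Finset.sum_boole]
      have h7 : ((Finset.range d).filter fun b => b ≡ b0 [MOD q]).card = H := by
        have := Nat.count_modEq_card d hq0 b0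
        rw [Nat.count_eq_card_filter_range] at this
        rw [this, hq, Nat.mul_div_cancel _ hq0, Nat.mul_mod_left]
        simp
      rw [h7]
    refine hcount.trans ?_
    refine le_trans ?_ (Finset.single_le_sum (f := fun h : ℕ => (h : ℝ≥0∞) * ic (dvb h β))
      (fun _ _ => zero_le) hHn)
    rw [ic_true hdvb, mul_one]
  · rw [not_exists] at hex
    rw [Finset.sum_eq_zero fun b _ => ic_false (hex b)]
    exact zero_le

lemma sf4_smul {h : ℕ} (hh : 0 < h) (β : Z4) (z : ℍ) :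
    sf4 ((h : ℤ) * β.1, (h : ℤ) * β.2.1, (h : ℤ) * β.2.2.1, (h : ℤ) * β.2.2.2) z = sf4 β z := by
  have hR : (h : ℝ) ≠ 0 := by exact_mod_cast hh.ne'
  unfold sf4 sf PP
  simp only
  have h1 : ((((h : ℤ) * β.2.2.1 : ℤ) : ℂ)) * (z : ℂ) ^ 2 +
      (((((h : ℤ) * β.2.2.2 : ℤ) : ℂ)) - (((h : ℤ) * β.1 : ℤ) : ℂ)) * z -
      (((h : ℤ) * β.2.1 : ℤ) : ℂ) =
      (h : ℂ) * ((β.2.2.1 : ℂ) * (z : ℂ) ^ 2 + ((β.2.2.2 : ℂ) - β.1) * z - β.2.1) := by
    push_cast; ring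
  rw [h1, map_mul, Complex.normSq_natCast]
  have h2 : ((((h : ℤ) * β.1 * ((h : ℤ) * β.2.2.2) - (h : ℤ) * β.2.1 * ((h : ℤ) * β.2.2.1) : ℤ)) : ℝ)
      = (h : ℝ) * h * ((β.1 * β.2.2.2 - β.2.1 * β.2.2.1 : ℤ) : ℝ) := by
    push_cast; ring
  rw [h2, mul_assoc ((h : ℝ) * h)]
  exact mul_div_mul_left _ _ (mul_ne_zero hR hR)

/-- The matching inequality. -/
theorem match_le {n m : ℕ} (hn : 0 < n) (hm : 0 < m) (z : ℍ) (φ : ℝ → ℝ≥0∞) :
    ∑ x ∈ RR n, ∑ y ∈ RR m, ∑' σ : SL(2, ℤ),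
      φ (2 * Real.cosh (dist (hx n x z) (σ • hx m y z)) - 2) ≤
    (n.divisors.card : ℝ≥0∞) * ∑ h ∈ n.divisors, (h : ℝ≥0∞) *
      ∑' β : Z4, ic ((h : ℤ) ^ 2 * det4 β = n * m) * φ (sf4 β z) := by
  classical
  have hpos : ∀ {k : ℕ}, 0 < k → ∀ x ∈ RR k, 0 < k / x.1 ∧ 0 < x.1 ∧ (k / x.1) * x.1 = k := by
    intro k hk x hx
    rw [mem_RR, Nat.mem_divisors] at hx
    have h0 : 0 < x.1 := Nat.pos_of_dvd_of_pos hx.1.1 hk
    exact ⟨Nat.div_pos (Nat.le_of_dvd hk hx.1.1) h0, h0, Nat.div_mul_cancel hx.1.1⟩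
  -- step 1
  have step1 : ∀ x ∈ RR n, ∑ y ∈ RR m, ∑' σ : SL(2, ℤ),
      φ (2 * Real.cosh (dist (hx n x z) (σ • hx m y z)) - 2) ≤
      ∑' β : Z4, ic (dv n (n / x.1) x.2 x.1 β) * (ic (det4 β = n * m) * φ (sf4 β z)) := by
    intro x hxR
    obtain ⟨hx1, hx2, hx3⟩ := hpos hn x hxR
    have e1 : ∑ y ∈ RR m, ∑' σ : SL(2, ℤ),
        φ (2 * Real.cosh (dist (hx n x z) (σ • hx m y z)) - 2) =
        ∑' p : (RR m) × SL(2, ℤ), φ (sf4 (psi4 (n / x.1) x.2 x.1 p.2 (m / p.1.1.1) p.1.1.2 p.1.1.1) z) := by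
      rw [ENNReal.tsum_prod', tsum_fintype, ← Finset.sum_coe_sort (RR m)]
      refine Finset.sum_congr rfl fun y _ => tsum_congr fun σ => ?_
      obtain ⟨hy1, hy2, hy3⟩ := hpos hm y.1 y.2
      unfold hx
      rw [dist_hecke hx1 hx2 hy1 hy2]
    rw [e1]
    set Ψ : (RR m) × SL(2, ℤ) → Z4 := fun p =>
      psi4 (n / x.1) x.2 x.1 p.2 (m / p.1.1.1) p.1.1.2 p.1.1.1 with hΨ
    have hinj : Function.Injective Ψ := by
      rintro ⟨⟨y, hy⟩, σ⟩ ⟨⟨y', hy'⟩, σ'⟩ h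
      obtain ⟨h1, h2⟩ := psi4_injective hxR hy hy' h
      have h2' : σ = σ' := h2
      subst h1 h2'
      rfl
    have e2 : ∀ p : (RR m) × SL(2, ℤ), φ (sf4 (Ψ p) z) =
        (fun β : Z4 => ic (dv n (n / x.1) x.2 x.1 β) * (ic (det4 β = n * m) * φ (sf4 β z))) (Ψ p) := by
      rintro ⟨⟨y, hy⟩, σ⟩
      obtain ⟨hy1, hy2, hy3⟩ := hpos hm y hy
      simp only
      rw [ic_true (dv_psi4 hx3 _ _ _ _), ic_true, one_mul, one_mul]
      rw [hΨ]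
      simp only
      rw [det_psi4]
      have a1 : (((n / x.1 : ℕ) : ℤ)) * x.1 = n := by exact_mod_cast hx3
      have a2 : (((m / y.1 : ℕ) : ℤ)) * y.1 = m := by exact_mod_cast hy3
      rw [a1, a2]
    calc ∑' p, φ (sf4 (Ψ p) z) = ∑' p, (fun β : Z4 => ic (dv n (n / x.1) x.2 x.1 β) *
          (ic (det4 β = n * m) * φ (sf4 β z))) (Ψ p) := tsum_congr e2
      _ ≤ _ := ENNReal.tsum_comp_le_tsum_of_injective hinj _
  refine (Finset.sum_le_sum step1).trans ?_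
  rw [← Summable.tsum_finsetSum (fun _ _ => ENNReal.summable)]
  -- step 2
  have step2 : ∀ β : Z4, ∑ x ∈ RR n, ic (dv n (n / x.1) x.2 x.1 β) *
      (ic (det4 β = n * m) * φ (sf4 β z)) ≤
      (n.divisors.card : ℝ≥0∞) * ((∑ h ∈ n.divisors, (h : ℝ≥0∞) * ic (dvb h β)) *
        (ic (det4 β = n * m) * φ (sf4 β z))) := by
    intro β
    rw [← Finset.sum_mul]
    refine (mul_le_mul_left ?_ _).trans (le_of_eq (mul_assoc _ _ _))
    unfold RR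
    rw [Finset.sum_sigma]
    refine (Finset.sum_le_card_nsmul _ _ (∑ h ∈ n.divisors, (h : ℝ≥0∞) * ic (dvb h β))
      fun d hd => ?_).trans (by rw [nsmul_eq_mul])
    rw [Nat.mem_divisors] at hd
    exact sum_range_dv_le hn (Nat.div_mul_cancel hd.1) β
  refine (ENNReal.tsum_le_tsum step2).trans ?_
  rw [ENNReal.tsum_mul_left]
  refine mul_le_mul_right ?_ _
  simp_rw [Finset.sum_mul]
  rw [Summable.tsum_finsetSum (fun _ _ => ENNReal.summable)]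
  refine Finset.sum_le_sum fun h hh => ?_
  simp_rw [mul_assoc]
  rw [ENNReal.tsum_mul_left]
  refine mul_le_mul_right ?_ _
  -- step 3: β = h β₀
  have hh0 : 0 < h := Nat.pos_of_mem_divisors hh
  have hhz : (h : ℤ) ≠ 0 := by exact_mod_cast hh0.ne'
  set M : Z4 → Z4 := fun β => ((h : ℤ) * β.1, (h : ℤ) * β.2.1, (h : ℤ) * β.2.2.1,
    (h : ℤ) * β.2.2.2) with hM
  have hMinj : Function.Injective M := by
    rintro ⟨a, b, c, d⟩ ⟨a', b', c', d'⟩ h1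
    simp only [hM, Prod.mk.injEq] at h1 ⊢
    exact ⟨mul_left_cancel₀ hhz h1.1, mul_left_cancel₀ hhz h1.2.1,
      mul_left_cancel₀ hhz h1.2.2.1, mul_left_cancel₀ hhz h1.2.2.2⟩
  rw [← hMinj.tsum_eq (f := fun β : Z4 => ic (dvb h β) * (ic (det4 β = n * m) * φ (sf4 β z)))]
  · refine ENNReal.tsum_le_tsum fun β => ?_
    have e3 : sf4 (M β) z = sf4 β z := sf4_smul hh0 β z
    have e4 : det4 (M β) = (h : ℤ) ^ 2 * det4 β := by
      simp only [hM, det4]; ring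
    rw [e3, e4]
    calc ic (dvb h (M β)) * (ic ((h : ℤ) ^ 2 * det4 β = n * m) * φ (sf4 β z)) ≤
        1 * (ic ((h : ℤ) ^ 2 * det4 β = n * m) * φ (sf4 β z)) :=
          mul_le_mul_left (ic_le_one _) _
      _ = _ := one_mul _
  · intro β hβ
    rw [Function.mem_support] at hβ
    have h1 : dvb h β := by
      by_contra h2
      apply hβ
      rw [ic_false h2, zero_mul]
    obtain ⟨⟨a, ha⟩, ⟨b, hb⟩, ⟨c, hc⟩, ⟨d, hd⟩⟩ := h1
    refine ⟨(a, b, c, d), ?_⟩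
    simp only [hM]
    rw [← ha, ← hb, ← hc, ← hd]

end Pool.Agent.H19.Maass
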