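import Mathlib
import Pool.Agent.H19.Maass.Count

set_option autoImplicit false

namespace Pool.Agent.H19.Maass

open UpperHalfPlane
open scoped ENNReal

/-- number of `t` with `t² - 4D² = Δ` -/
lemma tsum_factor_le {Δ : ℤ} (hΔ : Δ ≠ 0) :
    ∑' t : ℤ, ic (∃ D : ℤ, t ^ 2 - 4 * D ^ 2 = Δ) ≤
      ENNReal.ofReal (2 * (Δ.natAbs.divisors.card : ℝ)) := by
  classical
  set F : Finset ℤ := Δ.natAbs.divisors.image (fun d : ℕ => ((d : ℤ) + Δ / d) / 2) ∪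
    Δ.natAbs.divisors.image (fun d : ℕ => (-(d : ℤ) + Δ / (-(d : ℤ))) / 2) with hF
  have hmem : ∀ t : ℤ, (∃ D : ℤ, t ^ 2 - 4 * D ^ 2 = Δ) → t ∈ F := by
    rintro t ⟨D, hD⟩
    set u := t + 2 * D with hu
    have hfac : u * (t - 2 * D) = Δ := by rw [← hD, hu]; ring
    have hu0 : u ≠ 0 := by rintro h; rw [h, zero_mul] at hfac; exact hΔ hfac.symm
    have hdiv : Δ / u = t - 2 * D := by rw [← hfac, Int.mul_ediv_cancel_left _ hu0]
    have hmd : u.natAbs ∈ Δ.natAbs.divisors := by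
      rw [Nat.mem_divisors]
      exact ⟨Int.natAbs_dvd_natAbs.2 ⟨_, hfac.symm⟩, Int.natAbs_ne_zero.2 hΔ⟩
    rw [hF, Finset.mem_union, Finset.mem_image, Finset.mem_image]
    rcases Int.natAbs_eq u with h | h
    · left
      refine ⟨u.natAbs, hmd, ?_⟩
      rw [← h, hdiv, hu]
      omega
    · right
      refine ⟨u.natAbs, hmd, ?_⟩
      rw [← h, hdiv, hu]
      omega
  rw [tsum_eq_sum (s := F) (fun t ht => ic_false fun h => ht (hmem t h))]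
  refine (Finset.sum_le_card_nsmul _ _ 1 fun x _ => ic_le_one _).trans ?_
  rw [nsmul_one, ← ENNReal.ofReal_natCast]
  refine ENNReal.ofReal_le_ofReal ?_
  have h1 : F.card ≤ 2 * Δ.natAbs.divisors.card := by
    refine (Finset.card_union_le _ _).trans ?_
    have := Finset.card_image_le (s := Δ.natAbs.divisors)
      (f := fun d : ℕ => ((d : ℤ) + Δ / d) / 2)
    have := Finset.card_image_le (s := Δ.natAbs.divisors)
      (f := fun d : ℕ => (-(d : ℤ) + Δ / (-(d : ℤ))) / 2)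
    omega
  exact_mod_cast h1

lemma tsum_sq_le (D : ℤ) : ∑' t : ℤ, ic (t ^ 2 = 4 * D ^ 2) ≤ ENNReal.ofReal 2 := by
  classical
  rw [tsum_eq_sum (s := {2 * D, -(2 * D)})]
  · refine (Finset.sum_le_card_nsmul _ _ 1 fun x _ => ic_le_one _).trans ?_
    rw [nsmul_one, ← ENNReal.ofReal_natCast]
    refine ENNReal.ofReal_le_ofReal ?_
    exact_mod_cast Finset.card_le_two
  · intro t ht
    refine ic_false fun h => ht ?_
    have : t ^ 2 = (2 * D) ^ 2 := by rw [h]; ring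
    rcases sq_eq_sq_iff_eq_or_eq_neg.1 this with h | h <;> simp [h]

lemma tsum_one_le {P : ℤ → Prop} (h : ∀ x y, P x → P y → x = y) :
    ∑' x : ℤ, ic (P x) ≤ ENNReal.ofReal 1 := by
  by_cases hex : ∃ x, P x
  · obtain ⟨x, hx⟩ := hex
    rw [tsum_eq_single x (fun y hy => ic_false fun h1 => hy (h y x h1 hx)), ENNReal.ofReal_one]
    exact ic_le_one _
  · rw [not_exists] at hex
    simp_rw [fun x => ic_false (hex x)]
    simp

/-- In the parabolic case the lower left entry is small. -/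
lemma parabolic_c {a b c d : ℤ} {z : ℍ} {S n : ℝ} (hS : 0 ≤ S)
    (hn : ((a * d - b * c : ℤ) : ℝ) = n) (hn0 : 0 < n) (hs : sf a b c d z ≤ S)
    (hΔ : (d - a) ^ 2 + 4 * b * c = 0) : |(c : ℝ)| * z.im ≤ √S * √n := by
  have hy0 : 0 < z.im := z.im_pos
  by_cases hc : c = 0
  · rw [hc]; simp; positivity
  have hPP : PP a b c d z ≤ S * n * z.im ^ 2 := by
    unfold sf at hs
    rw [hn, div_le_iff₀ (by positivity)] at hs
    linarith
  have hc0 : (c : ℝ) ≠ 0 := by exact_mod_cast hc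
  have h1 : (c : ℂ) * ((c : ℂ) * (z : ℂ) ^ 2 + ((d : ℂ) - a) * z - b) =
      (c * z + ((d : ℂ) - a) / 2) ^ 2 := by
    have h2 : ((d : ℂ) - a) ^ 2 + 4 * b * c = 0 := by exact_mod_cast hΔ
    linear_combination (-1 / 4 : ℂ) * h2
  have h3 : (c : ℝ) ^ 2 * PP a b c d z = Complex.normSq (c * z + ((d : ℂ) - a) / 2) ^ 2 := by
    unfold PP
    rw [← map_pow, ← h1, map_mul]
    congr 1
    rw [Complex.normSq_intCast]
    ring
  have h4 : ((c : ℝ) * z.im) ^ 2 ≤ Complex.normSq (c * z + ((d : ℂ) - a) / 2) := by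
    rw [Complex.normSq_apply]
    have : ((c : ℂ) * z + ((d : ℂ) - a) / 2).im = c * z.im := by simp
    rw [this]
    nlinarith [mul_self_nonneg ((c : ℂ) * z + ((d : ℂ) - a) / 2).re]
  have h5 : (((c : ℝ) * z.im) ^ 2) ^ 2 ≤ (c : ℝ) ^ 2 * (S * n * z.im ^ 2) := by
    refine (pow_le_pow_left₀ (sq_nonneg _) h4 2).trans ?_
    rw [← h3]
    exact mul_le_mul_of_nonneg_left hPP (sq_nonneg _)
  have h6 : ((c : ℝ) * z.im) ^ 2 ≤ S * n := by
    have h7 : 0 < (c : ℝ) ^ 2 * z.im ^ 2 := by positivity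
    have h8 : ((c : ℝ) ^ 2 * z.im ^ 2) * ((c : ℝ) * z.im) ^ 2 ≤
        ((c : ℝ) ^ 2 * z.im ^ 2) * (S * n) := by nlinarith
    exact le_of_mul_le_mul_left h8 h7
  have h9 : |(c : ℝ)| * z.im = |(c : ℝ) * z.im| := by rw [abs_mul, abs_of_pos hy0]
  rw [h9, ← Real.sqrt_mul hS]
  exact Real.abs_le_sqrt h6

/-- discriminant -/
def disc (β : Z4) : ℤ := (β.2.2.2 - β.1) ^ 2 + 4 * β.2.1 * β.2.2.1

lemma near4 {β : Z4} {z : ℍ} {S : ℝ} (hx : |z.re| ≤ 1 / 2) (hy : 1 / 2 ≤ z.im)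
    (hS : 0 ≤ S) (hS6 : S ≤ 6) {D : ℕ} (hD : 1 ≤ D) (h1 : det4 β = (D : ℤ) ^ 2)
    (h2 : sf4 β z ≤ S) :
    |2 * (β.2.2.1 : ℝ) * z.re + ((β.2.2.2 - β.1 : ℤ) : ℝ)| ≤ √S * D ∧
    |(β.2.1 : ℝ) + β.2.2.1 * (z.re ^ 2 + z.im ^ 2)| ≤ 2 * (√S * D * z.im) ∧
    |(β.2.2.1 : ℝ)| * z.im ≤ 10 * D ∧ |((β.1 + β.2.2.2 : ℤ) : ℝ)| ≤ 8 * D := by
  have hD0 : (0 : ℝ) < D := by exact_mod_cast hD
  have h3 := near_of_sf (a := β.1) (b := β.2.1) (c := β.2.2.1) (d := β.2.2.2) (n := (D : ℝ) ^ 2)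
      hx hy hS hS6 (by
        have : ((det4 β : ℤ) : ℝ) = (D : ℝ) ^ 2 := by rw [h1]; push_cast; ring
        exact this) (by positivity) h2
  rw [Real.sqrt_sq hD0.le] at h3
  exact h3

lemma collapse {ι : Type*} (s : Finset ι) (P : ι → Prop)
    (h : ∀ i ∈ s, ∀ j ∈ s, P i → P j → i = j) : ∑ i ∈ s, ic (P i) ≤ ic (∃ i ∈ s, P i) := by
  classical
  by_cases hex : ∃ i ∈ s, P i
  · rw [ic_true hex]
    obtain ⟨i, hi, hPi⟩ := hex
    rw [Finset.sum_eq_single i]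
    · exact ic_le_one _
    · intro j hj hne
      exact ic_false fun h1 => hne (h j hj i hi h1 hPi)
    · intro h1; exact absurd hi h1
  · rw [ic_false hex]
    exact (Finset.sum_eq_zero fun i hi => ic_false fun h1 => hex ⟨i, hi, h1⟩).le

lemma collapse_det (Y : ℕ) (β : Z4) (P : ℕ → Prop) :
    ∑ D ∈ Finset.Icc 1 Y, ic (det4 β = (D : ℤ) ^ 2 ∧ P D) ≤
      ic (∃ D ∈ Finset.Icc 1 Y, det4 β = (D : ℤ) ^ 2 ∧ P D) := by
  refine collapse _ _ ?_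
  rintro D hD D' hD' ⟨h1, _⟩ ⟨h2, _⟩
  have h3 : (D : ℤ) ^ 2 = (D' : ℤ) ^ 2 := by rw [← h1, h2]
  have h4 : D ^ 2 = D' ^ 2 := by exact_mod_cast h3
  exact Nat.pow_left_injective (n := 2) (by norm_num) h4

section
variable {z : ℍ} (hx : |z.re| ≤ 1 / 2) (hy : 1 / 2 ≤ z.im) {S : ℝ} (hS : 0 ≤ S) (hS6 : S ≤ 6)
  {Y : ℕ}
include hx hy hS hS6

lemma caseA1 {K : ℝ}
    (hK : ∀ Δ : ℤ, Δ ≠ 0 → |(Δ : ℝ)| ≤ 68 * (Y : ℝ) ^ 2 → 2 * (Δ.natAbs.divisors.card : ℝ) ≤ K) :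
    ∑ D ∈ Finset.Icc 1 Y, ∑' β : Z4, ic (det4 β = (D : ℤ) ^ 2 ∧ (sf4 β z ≤ S ∧
      disc β ≠ 0 ∧ β.2.2.1 = 0)) ≤
      ENNReal.ofReal (1 * (2 * (√S * Y) * ((4 * (√S * Y * z.im) + 1) * K))) := by
  have hsS : 0 ≤ √S := Real.sqrt_nonneg S
  have hy0 := z.im_pos
  rw [← Summable.tsum_finsetSum (fun _ _ => ENNReal.summable)]
  refine (ENNReal.tsum_le_tsum fun β => collapse_det Y β _).trans ?_
  refine (tsum_cov_le (g := fun c e b t => ic (c = 0 ∧ (|(e : ℝ)| ≤ √S * Y ∧ e ≠ 0) ∧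
    |(b : ℝ) + 0| ≤ 2 * (√S * Y * z.im) ∧
      (e ^ 2 + 4 * b * c ≠ 0 ∧ |((e ^ 2 + 4 * b * c : ℤ) : ℝ)| ≤ 68 * (Y : ℝ) ^ 2 ∧
      ∃ D : ℤ, t ^ 2 - 4 * D ^ 2 = e ^ 2 + 4 * b * c))) ?_).trans ?_
  · intro β
    refine ic_mono ?_
    rintro ⟨D, hD, h1, h2, h3, h4⟩
    rw [Finset.mem_Icc] at hD
    have hDY : (D : ℝ) ≤ Y := by exact_mod_cast hD.2
    have hD0 : (0 : ℝ) ≤ D := by positivity
    have hn := near4 hx hy hS hS6 hD.1 h1 h2
    have hcov := det4_cov β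
    simp only [cov] at hcov ⊢
    rw [h4] at hn hcov ⊢
    simp only [Int.cast_zero, mul_zero, zero_mul, zero_add, add_zero] at hn hcov ⊢
    unfold disc at h3
    rw [h4, mul_zero, add_zero] at h3
    refine ⟨trivial, ⟨?_, ?_⟩, ?_, h3, ?_, D, ?_⟩
    · exact hn.1.trans (mul_le_mul_of_nonneg_left hDY hsS)
    · intro h5; apply h3; rw [h5]; norm_num
    · refine hn.2.1.trans ?_
      have := mul_le_mul_of_nonneg_left hDY hsS
      nlinarith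
    · have h6 : (β.2.2.2 - β.1) ^ 2 = (β.1 + β.2.2.2) ^ 2 - 4 * (D : ℤ) ^ 2 := by
        rw [h1] at hcov; linarith
      rw [h6]
      push_cast
      have h7 := hn.2.2.2
      push_cast at h7
      have h8 : ((β.1 : ℝ) + β.2.2.2) ^ 2 ≤ (8 * D) ^ 2 := by
        rw [← sq_abs]; exact pow_le_pow_left₀ (abs_nonneg _) h7 2
      have h9 : (D : ℝ) ^ 2 ≤ (Y : ℝ) ^ 2 := pow_le_pow_left₀ hD0 hDY 2
      rw [abs_le]
      constructor <;> nlinarith [sq_nonneg ((β.1 : ℝ) + β.2.2.2)]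
    · rw [h1] at hcov; linarith
  · refine (nested_le (P := fun c => c = 0)
      (Q := fun c e => |(e : ℝ)| ≤ √S * Y ∧ e ≠ 0)
      (R := fun c _ b => |(b : ℝ) + 0| ≤ 2 * (√S * Y * z.im))
      (S := fun c e b t => e ^ 2 + 4 * b * c ≠ 0 ∧
        |((e ^ 2 + 4 * b * c : ℤ) : ℝ)| ≤ 68 * (Y : ℝ) ^ 2 ∧
        ∃ D : ℤ, t ^ 2 - 4 * D ^ 2 = e ^ 2 + 4 * b * c)
      (A := ENNReal.ofReal 1) (B := ENNReal.ofReal (2 * (√S * Y)))
      (C := ENNReal.ofReal (4 * (√S * Y * z.im) + 1)) (D := ENNReal.ofReal K)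
      ?_ ?_ ?_ ?_ ?_).trans (le_of_eq ?_)
    · intro c e b t
      rw [← ic_and, ← ic_and, ← ic_and]
    · exact tsum_one_le fun x y h1 h2 => by rw [h1, h2]
    · intro c
      exact tsum_int_ne_le _ (by positivity)
    · intro c e
      refine (tsum_int_le _ _ (by positivity)).trans (ENNReal.ofReal_le_ofReal ?_)
      linarith
    · intro c e b
      by_cases h : e ^ 2 + 4 * b * c ≠ 0 ∧ |((e ^ 2 + 4 * b * c : ℤ) : ℝ)| ≤ 68 * (Y : ℝ) ^ 2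
      · refine ((ENNReal.tsum_le_tsum fun t => ic_mono fun h1 => h1.2.2).trans
          (tsum_factor_le h.1)).trans ?_
        exact ENNReal.ofReal_le_ofReal (hK _ h.1 h.2)
      · have : ∀ t : ℤ, ic (e ^ 2 + 4 * b * c ≠ 0 ∧
            |((e ^ 2 + 4 * b * c : ℤ) : ℝ)| ≤ 68 * (Y : ℝ) ^ 2 ∧
            ∃ D : ℤ, t ^ 2 - 4 * D ^ 2 = e ^ 2 + 4 * b * c) = 0 := fun t =>
          ic_false fun h1 => h ⟨h1.1, h1.2.1⟩
        simp_rw [this]
        simp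
    · rw [← ENNReal.ofReal_mul (by positivity), ← ENNReal.ofReal_mul (by positivity),
        ← ENNReal.ofReal_mul (by positivity)]

lemma caseA2 {K : ℝ}
    (hK : ∀ Δ : ℤ, Δ ≠ 0 → |(Δ : ℝ)| ≤ 68 * (Y : ℝ) ^ 2 → 2 * (Δ.natAbs.divisors.card : ℝ) ≤ K) :
    ∑ D ∈ Finset.Icc 1 Y, ∑' β : Z4, ic (det4 β = (D : ℤ) ^ 2 ∧ (sf4 β z ≤ S ∧
      disc β ≠ 0 ∧ β.2.2.1 ≠ 0)) ≤
      ENNReal.ofReal (2 * (10 * Y / z.im) * ((2 * (√S * Y) + 1) *
        ((4 * (√S * Y * z.im) + 1) * K))) := by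
  have hsS : 0 ≤ √S := Real.sqrt_nonneg S
  have hy0 := z.im_pos
  rw [← Summable.tsum_finsetSum (fun _ _ => ENNReal.summable)]
  refine (ENNReal.tsum_le_tsum fun β => collapse_det Y β _).trans ?_
  refine (tsum_cov_le (g := fun c e b t => ic ((|(c : ℝ)| ≤ 10 * Y / z.im ∧ c ≠ 0) ∧
    |(e : ℝ) + 2 * c * z.re| ≤ √S * Y ∧
    |(b : ℝ) + c * (z.re ^ 2 + z.im ^ 2)| ≤ 2 * (√S * Y * z.im) ∧
      (e ^ 2 + 4 * b * c ≠ 0 ∧ |((e ^ 2 + 4 * b * c : ℤ) : ℝ)| ≤ 68 * (Y : ℝ) ^ 2 ∧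
      ∃ D : ℤ, t ^ 2 - 4 * D ^ 2 = e ^ 2 + 4 * b * c))) ?_).trans ?_
  · intro β
    refine ic_mono ?_
    rintro ⟨D, hD, h1, h2, h3, h4⟩
    rw [Finset.mem_Icc] at hD
    have hDY : (D : ℝ) ≤ Y := by exact_mod_cast hD.2
    have hD0 : (0 : ℝ) ≤ D := by positivity
    have hn := near4 hx hy hS hS6 hD.1 h1 h2
    have hcov := det4_cov β
    rw [h1] at hcov
    unfold disc at h3
    simp only [cov] at hcov ⊢
    refine ⟨⟨?_, h4⟩, ?_, ?_, h3, ?_, D, ?_⟩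
    · rw [le_div_iff₀ hy0]
      exact hn.2.2.1.trans (by linarith)
    · rw [add_comm]
      exact hn.1.trans (mul_le_mul_of_nonneg_left hDY hsS)
    · refine hn.2.1.trans ?_
      have := mul_le_mul_of_nonneg_left hDY hsS
      nlinarith
    · have h6 : (β.2.2.2 - β.1) ^ 2 + 4 * β.2.1 * β.2.2.1 =
          (β.1 + β.2.2.2) ^ 2 - 4 * (D : ℤ) ^ 2 := by
        linarith
      rw [h6]
      push_cast
      have h7 := hn.2.2.2
      push_cast at h7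
      have h8 : ((β.1 : ℝ) + β.2.2.2) ^ 2 ≤ (8 * D) ^ 2 := by
        rw [← sq_abs]; exact pow_le_pow_left₀ (abs_nonneg _) h7 2
      have h9 : (D : ℝ) ^ 2 ≤ (Y : ℝ) ^ 2 := pow_le_pow_left₀ hD0 hDY 2
      rw [abs_le]
      constructor <;> nlinarith [sq_nonneg ((β.1 : ℝ) + β.2.2.2)]
    · linarith
  · refine (nested_le (P := fun c => |(c : ℝ)| ≤ 10 * Y / z.im ∧ c ≠ 0)
      (Q := fun c e => |(e : ℝ) + 2 * c * z.re| ≤ √S * Y)
      (R := fun c _ b => |(b : ℝ) + c * (z.re ^ 2 + z.im ^ 2)| ≤ 2 * (√S * Y * z.im))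
      (S := fun c e b t => e ^ 2 + 4 * b * c ≠ 0 ∧
        |((e ^ 2 + 4 * b * c : ℤ) : ℝ)| ≤ 68 * (Y : ℝ) ^ 2 ∧
        ∃ D : ℤ, t ^ 2 - 4 * D ^ 2 = e ^ 2 + 4 * b * c)
      (A := ENNReal.ofReal (2 * (10 * Y / z.im))) (B := ENNReal.ofReal (2 * (√S * Y) + 1))
      (C := ENNReal.ofReal (4 * (√S * Y * z.im) + 1)) (D := ENNReal.ofReal K)
      ?_ ?_ ?_ ?_ ?_).trans (le_of_eq ?_)
    · intro c e b t
      rw [← ic_and, ← ic_and, ← ic_and]
    · exact tsum_int_ne_le _ (by positivity)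
    · intro c
      exact tsum_int_le _ _ (by positivity)
    · intro c e
      refine (tsum_int_le _ _ (by positivity)).trans (ENNReal.ofReal_le_ofReal ?_)
      linarith
    · intro c e b
      by_cases h : e ^ 2 + 4 * b * c ≠ 0 ∧ |((e ^ 2 + 4 * b * c : ℤ) : ℝ)| ≤ 68 * (Y : ℝ) ^ 2
      · refine ((ENNReal.tsum_le_tsum fun t => ic_mono fun h1 => h1.2.2).trans
          (tsum_factor_le h.1)).trans ?_
        exact ENNReal.ofReal_le_ofReal (hK _ h.1 h.2)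
      · have : ∀ t : ℤ, ic (e ^ 2 + 4 * b * c ≠ 0 ∧
            |((e ^ 2 + 4 * b * c : ℤ) : ℝ)| ≤ 68 * (Y : ℝ) ^ 2 ∧
            ∃ D : ℤ, t ^ 2 - 4 * D ^ 2 = e ^ 2 + 4 * b * c) = 0 := fun t =>
          ic_false fun h1 => h ⟨h1.1, h1.2.1⟩
        simp_rw [this]
        simp
    · rw [← ENNReal.ofReal_mul (by positivity), ← ENNReal.ofReal_mul (by positivity),
        ← ENNReal.ofReal_mul (by positivity)]

lemma caseB1 : ∑ D ∈ Finset.Icc 1 Y, ∑' β : Z4, ic (det4 β = (D : ℤ) ^ 2 ∧ (sf4 β z ≤ S ∧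
      disc β = 0 ∧ β.2.2.1 = 0)) ≤
      ENNReal.ofReal (Y * (1 * (1 * ((4 * (√S * Y * z.im) + 1) * 2)))) := by
  have hsS : 0 ≤ √S := Real.sqrt_nonneg S
  have hy0 := z.im_pos
  have hD : ∀ D ∈ Finset.Icc 1 Y, ∑' β : Z4, ic (det4 β = (D : ℤ) ^ 2 ∧ (sf4 β z ≤ S ∧
      disc β = 0 ∧ β.2.2.1 = 0)) ≤
      ENNReal.ofReal (1 * (1 * ((4 * (√S * Y * z.im) + 1) * 2))) := by
    intro D hD
    rw [Finset.mem_Icc] at hD
    have hDY : (D : ℝ) ≤ Y := by exact_mod_cast hD.2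
    refine (tsum_cov_le (g := fun c e b t => ic (c = 0 ∧ e = 0 ∧
      |(b : ℝ) + 0| ≤ 2 * (√S * Y * z.im) ∧ t ^ 2 = 4 * (D : ℤ) ^ 2)) ?_).trans ?_
    · intro β
      refine ic_mono ?_
      rintro ⟨h1, h2, h3, h4⟩
      have hn := near4 hx hy hS hS6 hD.1 h1 h2
      have hcov := det4_cov β
      rw [h1] at hcov
      unfold disc at h3
      rw [h4, mul_zero, add_zero] at h3
      simp only [cov] at hcov ⊢
      rw [h4] at hn hcov
      simp only [Int.cast_zero, mul_zero, zero_mul, zero_add, add_zero] at hn hcov ⊢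
      refine ⟨h4, pow_eq_zero_iff (two_ne_zero) |>.1 h3, ?_, ?_⟩
      · refine hn.2.1.trans ?_
        have := mul_le_mul_of_nonneg_left hDY hsS
        nlinarith
      · linarith
    · refine (nested_le (P := fun c => c = 0) (Q := fun c e => e = 0)
        (R := fun c _ b => |(b : ℝ) + 0| ≤ 2 * (√S * Y * z.im))
        (S := fun c e b t => t ^ 2 = 4 * (D : ℤ) ^ 2)
        (A := ENNReal.ofReal 1) (B := ENNReal.ofReal 1)
        (C := ENNReal.ofReal (4 * (√S * Y * z.im) + 1)) (D := ENNReal.ofReal 2)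
        ?_ ?_ ?_ ?_ ?_).trans (le_of_eq ?_)
      · intro c e b t
        rw [← ic_and, ← ic_and, ← ic_and]
      · exact tsum_one_le fun x y h1 h2 => by rw [h1, h2]
      · intro c
        exact tsum_one_le fun x y h1 h2 => by rw [h1, h2]
      · intro c e
        refine (tsum_int_le _ _ (by positivity)).trans (ENNReal.ofReal_le_ofReal ?_)
        linarith
      · intro c e b
        exact tsum_sq_le _
      · rw [← ENNReal.ofReal_mul (by positivity), ← ENNReal.ofReal_mul (by positivity),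
          ← ENNReal.ofReal_mul (by positivity)]
  refine (Finset.sum_le_card_nsmul _ _ _ hD).trans (le_of_eq ?_)
  rw [Nat.card_Icc, Nat.add_sub_cancel, nsmul_eq_mul, ← ENNReal.ofReal_natCast,
    ← ENNReal.ofReal_mul (by positivity)]

lemma caseB2 : ∑ D ∈ Finset.Icc 1 Y, ∑' β : Z4, ic (det4 β = (D : ℤ) ^ 2 ∧ (sf4 β z ≤ S ∧
      disc β = 0 ∧ β.2.2.1 ≠ 0)) ≤
      ENNReal.ofReal (Y * (2 * (2 * (√S * Y)) * ((2 * (√S * Y) + 1) * (1 * 2)))) := by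
  have hsS : 0 ≤ √S := Real.sqrt_nonneg S
  have hy0 := z.im_pos
  have hD : ∀ D ∈ Finset.Icc 1 Y, ∑' β : Z4, ic (det4 β = (D : ℤ) ^ 2 ∧ (sf4 β z ≤ S ∧
      disc β = 0 ∧ β.2.2.1 ≠ 0)) ≤
      ENNReal.ofReal (2 * (2 * (√S * Y)) * ((2 * (√S * Y) + 1) * (1 * 2))) := by
    intro D hD
    rw [Finset.mem_Icc] at hD
    have hDY : (D : ℝ) ≤ Y := by exact_mod_cast hD.2
    have hD0 : (0 : ℝ) < D := by exact_mod_cast hD.1
    refine (tsum_cov_le (g := fun c e b t => ic ((|(c : ℝ)| ≤ 2 * (√S * Y) ∧ c ≠ 0) ∧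
      |(e : ℝ) + 2 * c * z.re| ≤ √S * Y ∧
      (c ≠ 0 ∧ e ^ 2 + 4 * b * c = 0) ∧ t ^ 2 = 4 * (D : ℤ) ^ 2)) ?_).trans ?_
    · intro β
      refine ic_mono ?_
      rintro ⟨h1, h2, h3, h4⟩
      have hn := near4 hx hy hS hS6 hD.1 h1 h2
      have hcov := det4_cov β
      rw [h1] at hcov
      unfold disc at h3
      simp only [cov] at hcov ⊢
      refine ⟨⟨?_, h4⟩, ?_, ⟨h4, h3⟩, ?_⟩
      · have hp := parabolic_c (a := β.1) (b := β.2.1) (c := β.2.2.1) (d := β.2.2.2) (z := z)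
          (n := (D : ℝ) ^ 2) hS (by
            have : ((det4 β : ℤ) : ℝ) = (D : ℝ) ^ 2 := by rw [h1]; push_cast; ring
            exact this) (by positivity) h2 h3
        rw [Real.sqrt_sq hD0.le] at hp
        have h5 : |(β.2.2.1 : ℝ)| * (1 / 2) ≤ |(β.2.2.1 : ℝ)| * z.im :=
          mul_le_mul_of_nonneg_left hy (abs_nonneg _)
        have := mul_le_mul_of_nonneg_left hDY hsS
        linarith
      · rw [add_comm]
        exact hn.1.trans (mul_le_mul_of_nonneg_left hDY hsS)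
      · linarith
    · refine (nested_le (P := fun c => |(c : ℝ)| ≤ 2 * (√S * Y) ∧ c ≠ 0)
        (Q := fun c e => |(e : ℝ) + 2 * c * z.re| ≤ √S * Y)
        (R := fun c e b => c ≠ 0 ∧ e ^ 2 + 4 * b * c = 0)
        (S := fun c e b t => t ^ 2 = 4 * (D : ℤ) ^ 2)
        (A := ENNReal.ofReal (2 * (2 * (√S * Y)))) (B := ENNReal.ofReal (2 * (√S * Y) + 1))
        (C := ENNReal.ofReal 1) (D := ENNReal.ofReal 2)
        ?_ ?_ ?_ ?_ ?_).trans (le_of_eq ?_)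
      · intro c e b t
        rw [← ic_and, ← ic_and, ← ic_and]
      · exact tsum_int_ne_le _ (by positivity)
      · intro c
        exact tsum_int_le _ _ (by positivity)
      · intro c e
        refine tsum_one_le ?_
        rintro b b' ⟨hc, h1⟩ ⟨_, h2⟩
        have h3 : (4 * c) * b = (4 * c) * b' := by linarith
        exact mul_left_cancel₀ (by simpa using hc) h3
      · intro c e b
        exact tsum_sq_le _
      · rw [← ENNReal.ofReal_mul (by positivity), ← ENNReal.ofReal_mul (by positivity),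
          ← ENNReal.ofReal_mul (by positivity)]
  refine (Finset.sum_le_card_nsmul _ _ _ hD).trans (le_of_eq ?_)
  rw [Nat.card_Icc, Nat.add_sub_cancel, nsmul_eq_mul, ← ENNReal.ofReal_natCast,
    ← ENNReal.ofReal_mul (by positivity)]

end

/-- **Counting for square determinants.** -/
theorem count_sq (ε : ℝ) (hε : 0 < ε) : ∃ C : ℝ, 0 < C ∧ ∀ (z : ℍ), |z.re| ≤ 1 / 2 →
    1 / 2 ≤ z.im → ∀ S : ℝ, 0 ≤ S → S ≤ 6 → ∀ Y : ℕ, 1 ≤ Y →
    ∑ D ∈ Finset.Icc 1 Y, ∑' β : Z4, ic (det4 β = (D : ℤ) ^ 2 ∧ sf4 β z ≤ S) ≤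
      ENNReal.ofReal (C * (Y * (Y : ℝ) ^ ε * ((1 + √S * Y) ^ 2 + √S * Y * z.im))) := by
  obtain ⟨C0, hC0, hdiv⟩ := H41.Eis.divisor_bound (ε / 2) (by positivity)
  refine ⟨400 * (C0 * 68 ^ (ε / 2)), by positivity, ?_⟩
  intro z hx hy S hS hS6 Y hY
  have hY1 : (1 : ℝ) ≤ Y := by exact_mod_cast hY
  have hY0 : (0 : ℝ) < Y := by linarith
  have hy0 := z.im_pos
  set K : ℝ := 2 * (C0 * 68 ^ (ε / 2)) * (Y : ℝ) ^ ε with hKdef
  have h68 : (1 : ℝ) ≤ 68 ^ (ε / 2) := Real.one_le_rpow (by norm_num) (by positivity)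
  have hYe : (1 : ℝ) ≤ (Y : ℝ) ^ ε := Real.one_le_rpow hY1 hε.le
  have hC1 : 1 ≤ C0 * 68 ^ (ε / 2) := by nlinarith
  have hK2 : 2 ≤ K := by
    rw [hKdef]
    nlinarith
  have hK : ∀ Δ : ℤ, Δ ≠ 0 → |(Δ : ℝ)| ≤ 68 * (Y : ℝ) ^ 2 →
      2 * (Δ.natAbs.divisors.card : ℝ) ≤ K := by
    intro Δ hΔ hb
    have h1 := hdiv Δ.natAbs (Nat.one_le_iff_ne_zero.2 (Int.natAbs_ne_zero.2 hΔ))
    have h2 : ((Δ.natAbs : ℕ) : ℝ) = |(Δ : ℝ)| := by
      rw [← Int.cast_abs, Int.abs_eq_natAbs]; simp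
    rw [h2] at h1
    have h3 : |(Δ : ℝ)| ^ (ε / 2) ≤ (68 * (Y : ℝ) ^ 2) ^ (ε / 2) :=
      Real.rpow_le_rpow (abs_nonneg _) hb (by positivity)
    have h4 : (68 * (Y : ℝ) ^ 2) ^ (ε / 2) = 68 ^ (ε / 2) * (Y : ℝ) ^ ε := by
      rw [Real.mul_rpow (by norm_num) (by positivity), ← Real.rpow_natCast,
        ← Real.rpow_mul hY0.le]
      congr 2
      push_cast; ring
    rw [h4] at h3
    have h5 : (Δ.natAbs.divisors.card : ℝ) ≤ C0 * (68 ^ (ε / 2) * (Y : ℝ) ^ ε) :=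
      h1.trans (mul_le_mul_of_nonneg_left h3 (by linarith))
    rw [hKdef]; linarith
  have hsplit : ∀ D ∈ Finset.Icc 1 Y, ∑' β : Z4, ic (det4 β = (D : ℤ) ^ 2 ∧ sf4 β z ≤ S) ≤
      ∑' β : Z4, ic (det4 β = (D : ℤ) ^ 2 ∧ (sf4 β z ≤ S ∧ disc β ≠ 0 ∧ β.2.2.1 = 0)) +
      ∑' β : Z4, ic (det4 β = (D : ℤ) ^ 2 ∧ (sf4 β z ≤ S ∧ disc β ≠ 0 ∧ β.2.2.1 ≠ 0)) +
      (∑' β : Z4, ic (det4 β = (D : ℤ) ^ 2 ∧ (sf4 β z ≤ S ∧ disc β = 0 ∧ β.2.2.1 = 0)) +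
      ∑' β : Z4, ic (det4 β = (D : ℤ) ^ 2 ∧ (sf4 β z ≤ S ∧ disc β = 0 ∧ β.2.2.1 ≠ 0))) := by
    intro D _
    rw [← ENNReal.tsum_add, ← ENNReal.tsum_add, ← ENNReal.tsum_add]
    refine ENNReal.tsum_le_tsum fun β => ?_
    refine le_trans (ic_mono (q := ((det4 β = (D : ℤ) ^ 2 ∧ (sf4 β z ≤ S ∧ disc β ≠ 0 ∧
      β.2.2.1 = 0)) ∨ (det4 β = (D : ℤ) ^ 2 ∧ (sf4 β z ≤ S ∧ disc β ≠ 0 ∧ β.2.2.1 ≠ 0))) ∨
      ((det4 β = (D : ℤ) ^ 2 ∧ (sf4 β z ≤ S ∧ disc β = 0 ∧ β.2.2.1 = 0)) ∨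
      (det4 β = (D : ℤ) ^ 2 ∧ (sf4 β z ≤ S ∧ disc β = 0 ∧ β.2.2.1 ≠ 0)))) (by tauto)) ?_
    refine (ic_or _ _).trans (add_le_add (ic_or _ _) (ic_or _ _))
  refine (Finset.sum_le_sum hsplit).trans ?_
  rw [Finset.sum_add_distrib, Finset.sum_add_distrib, Finset.sum_add_distrib]
  have hr6 : √S ≤ 5 / 2 := by
    rw [Real.sqrt_le_left (by norm_num)]; linarith
  set r : ℝ := √S * Y with hr
  have hr0 : 0 ≤ r := by positivity
  have hrY : r ≤ 5 / 2 * Y := mul_le_mul_of_nonneg_right hr6 hY0.le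
  refine (add_le_add (add_le_add (caseA1 hx hy hS hS6 hK)
    (caseA2 hx hy hS hS6 hK)) (add_le_add (caseB1 hx hy hS hS6) (caseB2 hx hy hS hS6))).trans ?_
  rw [← ENNReal.ofReal_add (by positivity) (by positivity),
    ← ENNReal.ofReal_add (by positivity) (by positivity),
    ← ENNReal.ofReal_add (by positivity) (by positivity)]
  refine ENNReal.ofReal_le_ofReal ?_
  rw [← hr]
  set y := z.im with hyd
  set W : ℝ := (1 + r) ^ 2 + r * y with hW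
  have hW1 : 1 ≤ W := by rw [hW]; nlinarith [mul_nonneg hr0 hy0.le]
  have hry : 0 ≤ r * y := by positivity
  have hKY : K * Y * W = 2 * (C0 * 68 ^ (ε / 2)) * (Y * (Y : ℝ) ^ ε * W) := by
    rw [hKdef]; ring
  have a1 : 1 * (2 * r * ((4 * (r * y) + 1) * K)) ≤ 25 * (K * Y * W) := by
    have e1 : 2 * r * (4 * (r * y) + 1) ≤ 25 * (Y * W) := by
      have e2 : 2 * r * (4 * (r * y) + 1) ≤ 5 * Y * (4 * (r * y) + 1) :=
        mul_le_mul_of_nonneg_right (by linarith) (by positivity)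
      have e3 : 4 * (r * y) + 1 ≤ 5 * W := by rw [hW]; nlinarith
      nlinarith
    have := mul_le_mul_of_nonneg_right e1 (by linarith : 0 ≤ K)
    nlinarith
  have a2 : 2 * (10 * Y / y) * ((2 * r + 1) * ((4 * (r * y) + 1) * K)) ≤ 160 * (K * Y * W) := by
    have e1 : 2 * (10 * Y / y) * ((2 * r + 1) * ((4 * (r * y) + 1) * K)) =
        20 * Y * K * ((2 * r + 1) * (4 * r + 1 / y)) := by
      field_simp
      ring
    rw [e1]
    have e2 : 1 / y ≤ 2 := by rw [div_le_iff₀ hy0]; linarith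
    have e3 : (2 * r + 1) * (4 * r + 1 / y) ≤ 8 * W := by
      have : (2 * r + 1) * (4 * r + 1 / y) ≤ (2 * r + 1) * (4 * r + 2) :=
        mul_le_mul_of_nonneg_left (by linarith) (by positivity)
      rw [hW]; nlinarith
    have e4 : 0 ≤ 20 * Y * K := by positivity
    have := mul_le_mul_of_nonneg_left e3 e4
    nlinarith
  have a3 : Y * (1 * (1 * ((4 * (r * y) + 1) * 2))) ≤ 5 * (K * Y * W) := by
    have e3 : 4 * (r * y) + 1 ≤ 5 * W := by rw [hW]; nlinarith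
    have e5 : (4 * (r * y) + 1) * 2 ≤ 5 * W * K :=
      mul_le_mul e3 hK2 (by norm_num) (by positivity)
    have := mul_le_mul_of_nonneg_left e5 hY0.le
    nlinarith
  have a4 : Y * (2 * (2 * r) * ((2 * r + 1) * (1 * 2))) ≤ 8 * (K * Y * W) := by
    have e3 : 4 * r * (2 * r + 1) ≤ 8 * W := by rw [hW]; nlinarith
    have e5 : 4 * r * (2 * r + 1) * 2 ≤ 8 * W * K :=
      mul_le_mul e3 hK2 (by norm_num) (by positivity)
    have := mul_le_mul_of_nonneg_left e5 hY0.le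
    nlinarith
  have hfin : 400 * (C0 * 68 ^ (ε / 2)) * (Y * (Y : ℝ) ^ ε * W) = 200 * (K * Y * W) := by
    rw [hKY]; ring
  rw [hfin]
  have hKYW : 0 ≤ K * Y * W := by positivity
  linarith

end Pool.Agent.H19.Maass
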