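import Mathlib

set_option autoImplicit false

namespace Pool.Agent.H19.Maass

open MeasureTheory Set Filter Topology

/-- bounded measurable, vanishing beyond `S` -/
structure BC (f : ℝ → ℝ) (C S : ℝ) : Prop where
  meas : Measurable f
  bdd : ∀ t, |f t| ≤ C
  supp : ∀ t, S < t → f t = 0

lemma BC.integrable_sq {f : ℝ → ℝ} {C S : ℝ} (hf : BC f C S) (w : ℝ) :
    Integrable (fun ξ : ℝ => f (w + ξ ^ 2)) := by
  have hm : Measurable fun ξ : ℝ => f (w + ξ ^ 2) := hf.meas.comp (by fun_prop)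
  set A := √(|S - w|) with hA
  rw [← integrableOn_iff_integrable_of_support_subset (s := Icc (-A) A)]
  · refine Measure.integrableOn_of_bounded (M := C) (by simp) hm.aestronglyMeasurable
      (Eventually.of_forall fun t => hf.bdd _)
  · intro ξ hξ
    rw [Function.mem_support] at hξ
    have h1 : w + ξ ^ 2 ≤ S := by
      by_contra h
      exact hξ (hf.supp _ (not_le.1 h))
    have h2 : ξ ^ 2 ≤ |S - w| := by
      have := le_abs_self (S - w)
      linarith
    exact abs_le.1 (Real.abs_le_sqrt h2)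

lemma BC.shift {f : ℝ → ℝ} {C S : ℝ} (hf : BC f C S) (w : ℝ) :
    BC (fun t => f (w + t)) C (S - w) :=
  ⟨hf.meas.comp (by fun_prop), fun t => hf.bdd _, fun t ht => hf.supp _ (by linarith)⟩

/-- polar coordinates -/
theorem BC.polar {f : ℝ → ℝ} {C S : ℝ} (hf : BC f C S) :
    ∫ ξ : ℝ, ∫ η : ℝ, f (ξ ^ 2 + η ^ 2) = Real.pi * ∫ t in Ioi 0, f t := by
  have hint : Integrable (fun p : ℝ × ℝ => f (p.1 ^ 2 + p.2 ^ 2)) (volume.prod volume) := by
    have hm : Measurable fun p : ℝ × ℝ => f (p.1 ^ 2 + p.2 ^ 2) := hf.meas.comp (by fun_prop)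
    set A := √(|S|) with hA
    rw [← integrableOn_iff_integrable_of_support_subset (s := Icc (-A) A ×ˢ Icc (-A) A)]
    · refine Measure.integrableOn_of_bounded (M := C) ?_ hm.aestronglyMeasurable
        (Eventually.of_forall fun t => hf.bdd _)
      rw [Measure.prod_prod]
      exact ENNReal.mul_ne_top (by simp) (by simp)
    · intro p hp
      rw [Function.mem_support] at hp
      have h1 : p.1 ^ 2 + p.2 ^ 2 ≤ S := by
        by_contra h
        exact hp (hf.supp _ (not_le.1 h))
      have h2 := le_abs_self S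
      have h3 : p.1 ^ 2 ≤ |S| := by nlinarith [sq_nonneg p.2]
      have h4 : p.2 ^ 2 ≤ |S| := by nlinarith [sq_nonneg p.1]
      exact ⟨abs_le.1 (Real.abs_le_sqrt h3), abs_le.1 (Real.abs_le_sqrt h4)⟩
  rw [← integral_prod _ hint, ← Measure.volume_eq_prod, ← integral_comp_polarCoord_symm]
  have h1 : ∀ p : ℝ × ℝ, p.1 • f ((polarCoord.symm p).1 ^ 2 + (polarCoord.symm p).2 ^ 2) =
      (p.1 * f (p.1 ^ 2)) * (1 : ℝ) := by
    intro p
    simp only [polarCoord_symm_apply, smul_eq_mul, mul_one]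
    congr 2
    have := Real.cos_sq_add_sin_sq p.2
    linear_combination p.1 ^ 2 * this
  simp_rw [h1]
  rw [polarCoord_target, Measure.volume_eq_prod, setIntegral_prod_mul
    (fun r : ℝ => r * f (r ^ 2)) (fun _ => (1 : ℝ))]
  have h2 : ∫ _y in Ioo (-Real.pi) Real.pi, (1 : ℝ) = 2 * Real.pi := by
    rw [setIntegral_const]
    simp [Measure.real]
    rw [← two_mul, ENNReal.toReal_ofReal (by positivity)]
  have h3 : ∫ x in Ioi (0 : ℝ), x * f (x ^ 2) = (1 / 2) * ∫ y in Ioi 0, f y := by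
    rw [← integral_comp_rpow_Ioi_of_pos (g := f) (p := 2) (by norm_num), ← integral_const_mul]
    refine setIntegral_congr_fun measurableSet_Ioi fun x hx => ?_
    simp only [smul_eq_mul]
    have h4 : (2 : ℝ) - 1 = 1 := by norm_num
    rw [h4, Real.rpow_one, Real.rpow_two]
    ring
  rw [h2, h3]
  ring

/-- `arc (2 cosh x - 2) = |x|` -/
noncomputable def arc (w : ℝ) : ℝ := Real.arcosh (1 + w / 2)

lemma arc_nonneg {w : ℝ} (hw : 0 ≤ w) : 0 ≤ arc w := Real.arcosh_nonneg (by linarith)

lemma cosh_arc {w : ℝ} (hw : 0 ≤ w) : Real.cosh (arc w) = 1 + w / 2 :=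
  Real.cosh_arcosh (by linarith)

lemma arc_cosh (x : ℝ) : arc (2 * Real.cosh x - 2) = |x| := by
  unfold arc
  rw [show 1 + (2 * Real.cosh x - 2) / 2 = Real.cosh x by ring, ← Real.cosh_abs]
  exact Real.arcosh_cosh (abs_nonneg x)

lemma sinh_arc_sq {w : ℝ} (hw : 0 ≤ w) : Real.sinh (arc w) ^ 2 = w + w ^ 2 / 4 := by
  have h1 := Real.cosh_sq (arc w)
  rw [cosh_arc hw] at h1
  nlinarith

lemma sinh_arc_nonneg {w : ℝ} (hw : 0 ≤ w) : 0 ≤ Real.sinh (arc w) :=
  Real.sinh_nonneg_iff.2 (arc_nonneg hw)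

lemma sqrt_le_sinh_arc {w : ℝ} (hw : 0 ≤ w) : √w ≤ Real.sinh (arc w) := by
  rw [Real.sqrt_le_left (sinh_arc_nonneg hw), sinh_arc_sq hw]
  nlinarith [sq_nonneg w]

lemma sinh_arc_pos {w : ℝ} (hw : 0 < w) : 0 < Real.sinh (arc w) :=
  (Real.sqrt_pos.2 hw).trans_le (sqrt_le_sinh_arc hw.le)

lemma arc_pos {w : ℝ} (hw : 0 < w) : 0 < arc w := Real.sinh_pos_iff.1 (sinh_arc_pos hw)

lemma measurable_arc : Measurable arc := by
  unfold arc Real.arcosh
  fun_prop

lemma continuousOn_arc : ContinuousOn arc (Ici 0) := by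
  refine Real.continuousOn_arcosh.comp (by fun_prop) ?_
  intro w hw
  have : (0 : ℝ) ≤ w := hw
  show (1 : ℝ) ≤ 1 + w / 2
  linarith

lemma hasDerivAt_arc {w : ℝ} (hw : 0 < w) : HasDerivAt arc (1 / (2 * Real.sinh (arc w))) w := by
  have h1 : (1 : ℝ) < 1 + w / 2 := by linarith
  have h2 : HasDerivAt (fun w : ℝ => 1 + w / 2) (1 / 2) w :=
    ((hasDerivAt_id w).div_const 2).const_add 1
  have h3 := (Real.hasDerivAt_arcosh (x := 1 + w / 2) h1).comp w h2
  refine HasDerivAt.congr_deriv h3 ?_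
  have h4 : Real.sinh (arc w) = √((1 + w / 2) ^ 2 - 1) := Real.sinh_arcosh h1.le
  rw [h4]
  have h5 : √((1 + w / 2) ^ 2 - 1) ≠ 0 := by
    rw [← h4]; exact (sinh_arc_pos hw).ne'
  field_simp

/-- even twice differentiable compactly supported functions with bounds -/
structure EV (g : ℝ → ℝ) (a C0 C1 C2 : ℝ) : Prop where
  d1 : Differentiable ℝ g
  d2 : Differentiable ℝ (deriv g)
  even : ∀ x, g (-x) = g x
  apos : 0 ≤ a
  supp : ∀ x, a < |x| → g x = 0
  b0 : ∀ x, |g x| ≤ C0
  b1 : ∀ x, |deriv g x| ≤ C1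
  b2 : ∀ x, |deriv (deriv g) x| ≤ C2

variable {g : ℝ → ℝ} {a C0 C1 C2 : ℝ}

lemma EV.deriv_zero (h : EV g a C0 C1 C2) : deriv g 0 = 0 := by
  have h1 : deriv (fun x => g (-x)) 0 = deriv g 0 := by
    congr 1
    funext x
    exact h.even x
  rw [deriv_comp_neg] at h1
  simp at h1
  linarith

lemma EV.deriv_le (h : EV g a C0 C1 C2) (x : ℝ) : |deriv g x| ≤ C2 * |x| := by
  have h1 := Convex.norm_image_sub_le_of_norm_deriv_le (f := deriv g) (C := C2) (s := univ)
    (fun x _ => h.d2 x) (fun x _ => h.b2 x) convex_univ (mem_univ 0) (mem_univ x)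
  rw [h.deriv_zero, sub_zero, sub_zero] at h1
  exact h1

lemma EV.deriv_supp (h : EV g a C0 C1 C2) {x : ℝ} (hx : a < |x|) : deriv g x = 0 := by
  have h1 : g =ᶠ[𝓝 x] fun _ => 0 := by
    have : ∀ᶠ y in 𝓝 x, a < |y| := (continuous_abs.continuousAt).eventually_const_lt hx
    filter_upwards [this] with y hy
    exact h.supp y hy
  rw [h1.deriv_eq]
  simp

/-- derivative of `w ↦ g (arc w)` -/
noncomputable def qf (g : ℝ → ℝ) (w : ℝ) : ℝ :=
  if 0 < w then deriv g (arc w) / (2 * Real.sinh (arc w)) else 0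

lemma EV.hasDerivAt_comp_arc (h : EV g a C0 C1 C2) {w : ℝ} (hw : 0 < w) :
    HasDerivAt (fun w => g (arc w)) (qf g w) w := by
  have h1 := (h.d1 (arc w)).hasDerivAt.comp w (hasDerivAt_arc hw)
  refine HasDerivAt.congr_deriv h1 ?_
  unfold qf
  rw [if_pos hw]
  ring

lemma lt_arc {w : ℝ} (ha : 0 ≤ a) (hw : 2 * Real.cosh a - 2 < w) : a < arc w := by
  have h0 : 0 ≤ w := by have := Real.one_le_cosh a; linarith
  have h1 : Real.cosh a < Real.cosh (arc w) := by rw [cosh_arc h0]; linarith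
  rw [Real.cosh_lt_cosh, abs_of_nonneg ha, abs_of_nonneg (arc_nonneg h0)] at h1
  exact h1

lemma EV.bc_qf (h : EV g a C0 C1 C2) : BC (qf g) (C2 / 2) (2 * Real.cosh a - 2) := by
  have hC2 : 0 ≤ C2 := (abs_nonneg _).trans (h.b2 0)
  refine ⟨?_, ?_, ?_⟩
  · unfold qf
    refine Measurable.ite (measurableSet_lt measurable_const measurable_id) ?_ measurable_const
    exact (h.d2.continuous.measurable.comp measurable_arc).div
      ((Real.continuous_sinh.measurable.comp measurable_arc).const_mul 2)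
  · intro w
    unfold qf
    split_ifs with hw
    · have hpos : 0 < 2 * Real.sinh (arc w) := by have := sinh_arc_pos hw; positivity
      rw [abs_div, abs_of_pos hpos, div_le_iff₀ hpos]
      have h1 := h.deriv_le (arc w)
      have h2 : |arc w| ≤ Real.sinh (arc w) := by
        rw [abs_of_nonneg (arc_nonneg hw.le)]
        exact Real.self_le_sinh_iff.2 (arc_nonneg hw.le)
      calc |deriv g (arc w)| ≤ C2 * |arc w| := h1
        _ ≤ C2 * Real.sinh (arc w) := mul_le_mul_of_nonneg_left h2 hC2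
        _ = _ := by ring
    · rw [abs_zero]; positivity
  · intro w hw
    have h0 : 0 < w := by have := Real.one_le_cosh a; linarith
    unfold qf
    rw [if_pos h0]
    have h1 := lt_arc h.apos hw
    rw [h.deriv_supp (h1.trans_le (le_abs_self _)), zero_div]

lemma EV.continuousOn_qf (h : EV g a C0 C1 C2) : ContinuousOn (qf g) (Ioi 0) := by
  have h1 : ContinuousOn (fun w => deriv g (arc w) / (2 * Real.sinh (arc w))) (Ioi 0) := by
    have h2 : ContinuousOn arc (Ioi 0) := continuousOn_arc.mono Ioi_subset_Ici_self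
    refine ContinuousOn.div (h.d2.continuous.comp_continuousOn h2)
      (continuousOn_const.mul (Real.continuous_sinh.comp_continuousOn h2)) ?_
    intro w hw
    have := sinh_arc_pos (w := w) hw
    positivity
  refine h1.congr fun w hw => ?_
  unfold qf
  rw [if_pos (show 0 < w from hw)]

lemma BC.integrableOn_Ioi {f : ℝ → ℝ} {C S : ℝ} (hf : BC f C S) (c : ℝ) :
    IntegrableOn f (Ioi c) := by
  rw [← integrable_indicator_iff measurableSet_Ioi]
  rw [← integrableOn_iff_integrable_of_support_subset (s := Icc c (max c S))]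
  · refine Measure.integrableOn_of_bounded (M := C) (by simp)
      (hf.meas.indicator measurableSet_Ioi).aestronglyMeasurable
      (Eventually.of_forall fun t => ?_)
    exact (norm_indicator_le_norm_self _ _).trans (hf.bdd t)
  · intro t ht
    rw [Function.mem_support] at ht
    have h3 : t ∈ Ioi c := by
      by_contra h4
      exact ht (indicator_of_notMem h4 _)
    refine ⟨(le_of_lt h3), ?_⟩
    by_contra h4
    rw [not_le, max_lt_iff] at h4
    rw [indicator_of_mem h3] at ht
    exact ht (hf.supp t h4.2)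

lemma EV.integral_qf (h : EV g a C0 C1 C2) {w : ℝ} (hw : 0 ≤ w) :
    ∫ t in Ioi 0, qf g (w + t) = - g (arc w) := by
  have h2 := integral_Ioi_of_hasDerivAt_of_tendsto (f := fun t => g (arc (w + t)))
    (f' := fun t => qf g (w + t)) (a := 0) (m := 0) ?_ ?_ ?_ ?_
  · rw [h2]; simp
  · have : ContinuousOn (fun t => g (arc (w + t))) (Ici 0) :=
      h.d1.continuous.comp_continuousOn (continuousOn_arc.comp (by fun_prop) fun t ht => by
        have : (0 : ℝ) ≤ t := ht
        show (0 : ℝ) ≤ w + t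
        linarith)
    exact this 0 self_mem_Ici
  · intro x hx
    have hx' : (0 : ℝ) < x := hx
    have := (h.hasDerivAt_comp_arc (w := w + x) (by linarith)).comp x
      ((hasDerivAt_id x).const_add w)
    exact HasDerivAt.congr_deriv this (by simp)
  · exact (h.bc_qf.shift w).integrableOn_Ioi 0
  · refine tendsto_const_nhds.congr' ?_
    filter_upwards [eventually_gt_atTop (2 * Real.cosh a - 2)] with x hx
    have h3 := lt_arc (w := w + x) h.apos (by linarith)
    exact (h.supp _ (h3.trans_le (le_abs_self _))).symm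

/-- inverse Abel transform -/
noncomputable def kq (g : ℝ → ℝ) (s : ℝ) : ℝ := -(1 / Real.pi) * ∫ ξ : ℝ, qf g (max s 0 + ξ ^ 2)

lemma EV.integral_kq (h : EV g a C0 C1 C2) {w : ℝ} (hw : 0 ≤ w) :
    ∫ η : ℝ, kq g (w + η ^ 2) = g (arc w) := by
  unfold kq
  rw [integral_const_mul]
  have h1 := (h.bc_qf.shift w).polar
  have h2 : ∀ η : ℝ, max (w + η ^ 2) 0 = w + η ^ 2 := fun η => max_eq_left (by positivity)
  simp_rw [h2, add_assoc]
  rw [h1, h.integral_qf hw]
  have := Real.pi_ne_zero
  field_simp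

lemma EV.continuous_kq (h : EV g a C0 C1 C2) : Continuous (kq g) := by
  unfold kq
  refine continuous_const.mul ?_
  set S := 2 * Real.cosh a - 2 with hS
  have hbc := h.bc_qf
  have hC : 0 ≤ C2 / 2 := (abs_nonneg _).trans (hbc.bdd 0)
  refine continuous_of_dominated (bound := (Icc (-√S) (√S)).indicator fun _ => C2 / 2) ?_ ?_ ?_ ?_
  · intro s
    exact (hbc.integrable_sq _).aestronglyMeasurable
  · intro s
    refine Eventually.of_forall fun ξ => ?_
    by_cases hξ : ξ ∈ Icc (-√S) (√S)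
    · rw [indicator_of_mem hξ]; exact hbc.bdd _
    · rw [indicator_of_notMem hξ]
      have h1 : S < max s 0 + ξ ^ 2 := by
        have h2 : S < ξ ^ 2 := by
          by_contra h3
          exact hξ (abs_le.1 (Real.abs_le_sqrt (not_lt.1 h3)))
        have := le_max_right s 0
        linarith
      rw [hbc.supp _ h1, norm_zero]
  · rw [integrable_indicator_iff measurableSet_Icc]
    exact integrableOn_const (by simp)
  · have hne : ∀ᵐ ξ : ℝ, ξ ≠ 0 := by
      rw [ae_iff]; simp
    filter_upwards [hne] with ξ hξ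
    refine h.continuousOn_qf.comp_continuous (by fun_prop) fun s => ?_
    show 0 < max s 0 + ξ ^ 2
    have := le_max_right s 0
    have := sq_pos_of_ne_zero hξ
    linarith

lemma EV.bc_kq (h : EV g a C0 C1 C2) :
    ∃ C, BC (kq g) C (2 * Real.cosh a - 2) := by
  set S := 2 * Real.cosh a - 2 with hS
  have hS0 : 0 ≤ S := by have := Real.one_le_cosh a; linarith
  have hbc := h.bc_qf
  have hsupp : ∀ t, S < t → kq g t = 0 := by
    intro t ht
    unfold kq
    have : ∀ ξ : ℝ, qf g (max t 0 + ξ ^ 2) = 0 := by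
      intro ξ
      refine hbc.supp _ ?_
      have := le_max_left t 0
      have := sq_nonneg ξ
      linarith
    simp_rw [this]
    simp
  obtain ⟨C, hC⟩ := (isCompact_Icc (a := (0 : ℝ)) (b := S)).exists_bound_of_continuousOn
    h.continuous_kq.continuousOn
  refine ⟨C, h.continuous_kq.measurable, ?_, hsupp⟩
  intro t
  have h0 : 0 ≤ C := (norm_nonneg _).trans (hC 0 ⟨le_rfl, hS0⟩)
  by_cases h1 : S < t
  · rw [hsupp t h1, abs_zero]; exact h0
  · by_cases h2 : 0 ≤ t
    · exact hC t ⟨h2, not_lt.1 h1⟩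
    · have h3 : kq g t = kq g 0 := by
        unfold kq
        rw [max_eq_right (not_le.1 h2).le, max_self]
      rw [h3]; exact hC 0 ⟨le_rfl, hS0⟩

end Pool.Agent.H19.Maass
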