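import Mathlib
import Pool.Agent.H19.Maass.Abel
import Pool.Agent.H19.Maass.Eigen

set_option autoImplicit false

namespace Pool.Agent.H19.Maass

open MeasureTheory Set Filter Topology UpperHalfPlane
open scoped MatrixGroups UpperHalfPlane

/-- horocyclic coordinates -/
noncomputable def pt (x a : ℝ) : ℍ := ⟨⟨x, Real.exp a⟩, Real.exp_pos a⟩

@[simp] lemma pt_re (x a : ℝ) : (pt x a).re = x := rfl
@[simp] lemma pt_im (x a : ℝ) : (pt x a).im = Real.exp a := rfl

section
variable {E : Type*} [NormedAddCommGroup E] [NormedSpace ℝ E]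

lemma integral_H_eq (F : ℂ → E) :
    ∫ w : ℍ, F w = ∫ z in UH, (1 / z.im ^ 2) • F z := by
  have hmeas : Measurable fun z : ℍ => ((1 / NNReal.mk z.im z.im_pos.le : NNReal) ^ 2) := by
    refine Measurable.pow_const ?_ _
    refine Measurable.div measurable_const ?_
    refine Continuous.measurable ?_
    exact continuous_im.subtype_mk _
  rw [UpperHalfPlane.volume_def]
  rw [integral_withDensity_eq_integral_smul hmeas]
  have hmp : MeasurePreserving UpperHalfPlane.coe (volume.comap UpperHalfPlane.coe)
      (volume.restrict (.range UpperHalfPlane.coe)) :=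
    ⟨measurable_coe, by rw [measurableEmbedding_coe.map_comap]⟩
  have hrange : Set.range UpperHalfPlane.coe = UH := by
    ext z
    constructor
    · rintro ⟨w, rfl⟩; exact w.im_pos
    · intro hz; exact ⟨⟨z, hz⟩, rfl⟩
  rw [← hrange, ← hmp.integral_comp measurableEmbedding_coe]
  refine integral_congr_ae (Eventually.of_forall fun w => ?_)
  simp only [NNReal.smul_def]
  congr 1
  simp

lemma integrable_H_iff (F : ℂ → E) :
    Integrable (fun w : ℍ => F w) ↔ IntegrableOn (fun z => (1 / z.im ^ 2) • F z) UH := by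
  have hmeas : Measurable fun z : ℍ => ((1 / NNReal.mk z.im z.im_pos.le : NNReal) ^ 2) := by
    refine Measurable.pow_const ?_ _
    refine Measurable.div measurable_const ?_
    refine Continuous.measurable ?_
    exact continuous_im.subtype_mk _
  rw [UpperHalfPlane.volume_def]
  rw [integrable_withDensity_iff_integrable_smul hmeas]
  have hmp : MeasurePreserving UpperHalfPlane.coe (volume.comap UpperHalfPlane.coe)
      (volume.restrict (.range UpperHalfPlane.coe)) :=
    ⟨measurable_coe, by rw [measurableEmbedding_coe.map_comap]⟩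
  have hrange : Set.range UpperHalfPlane.coe = UH := by
    ext z
    constructor
    · rintro ⟨w, rfl⟩; exact w.im_pos
    · intro hz; exact ⟨⟨z, hz⟩, rfl⟩
  unfold IntegrableOn
  rw [← hrange, ← hmp.integrable_comp_emb measurableEmbedding_coe]
  refine integrable_congr (Eventually.of_forall fun w => ?_)
  simp only [NNReal.smul_def, Function.comp]
  congr 1
  simp

/-- integration in horocyclic coordinates -/
theorem horo {f : ℍ → E} (hf : Integrable f) :
    ∫ w : ℍ, f w = ∫ a : ℝ, Real.exp (-a) • ∫ x : ℝ, f (pt x a) := by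
  set F : ℂ → E := fun z => f (ofComplex z) with hF
  have hFf : ∀ w : ℍ, F w = f w := fun w => by rw [hF]; simp
  have h1 : ∫ w : ℍ, f w = ∫ w : ℍ, F w := by simp_rw [hFf]
  have hint : Integrable (fun w : ℍ => F w) := by simpa only [hFf] using hf
  rw [integrable_H_iff] at hint
  rw [h1, integral_H_eq]
  have hset : Complex.measurableEquivRealProd.symm ⁻¹' UH = (univ : Set ℝ) ×ˢ Ioi (0 : ℝ) := by
    ext ⟨x, y⟩
    simp [Complex.measurableEquivRealProd, UH]
  have hmp := (Complex.volume_preserving_equiv_real_prod.symm)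
  rw [← hmp.setIntegral_preimage_emb Complex.measurableEquivRealProd.symm.measurableEmbedding,
    hset]
  have hint2 : IntegrableOn (fun p : ℝ × ℝ => (1 / (Complex.measurableEquivRealProd.symm p).im ^ 2) •
      F (Complex.measurableEquivRealProd.symm p)) ((univ : Set ℝ) ×ˢ Ioi (0 : ℝ)) := by
    rw [← hset]
    exact (hmp.integrableOn_comp_preimage
      Complex.measurableEquivRealProd.symm.measurableEmbedding).2 hint
  unfold IntegrableOn at hint2
  rw [Measure.volume_eq_prod, ← Measure.prod_restrict] at hint2 ⊢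
  rw [integral_prod_symm _ hint2]
  have himg : Real.exp '' univ = Ioi (0 : ℝ) := by rw [image_univ, Real.range_exp]
  rw [← himg, integral_image_eq_integral_abs_deriv_smul MeasurableSet.univ
    (fun x _ => (Real.hasDerivAt_exp x).hasDerivWithinAt) Real.exp_injective.injOn]
  rw [setIntegral_univ]
  refine integral_congr_ae (Eventually.of_forall fun a => ?_)
  simp only [Measure.restrict_univ]
  have h2 : ∀ x : ℝ, (1 / (Complex.measurableEquivRealProd.symm (x, Real.exp a)).im ^ 2) •
      F (Complex.measurableEquivRealProd.symm (x, Real.exp a)) =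
      (1 / Real.exp a ^ 2) • f (pt x a) := by
    intro x
    have h3 : Complex.measurableEquivRealProd.symm (x, Real.exp a) = ((pt x a : ℍ) : ℂ) := by
      apply Complex.ext
      · simp [Complex.measurableEquivRealProd, pt, Complex.equivRealProdCLM_symm_apply]
      · simp only [Complex.measurableEquivRealProd, pt]
        simp [-Complex.ofReal_exp, Complex.equivRealProdCLM_symm_apply]
    rw [h3, hFf]
    rfl
  simp_rw [h2]
  rw [integral_smul, smul_smul, abs_of_pos (Real.exp_pos a)]
  congr 1
  rw [Real.exp_neg]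
  have := Real.exp_pos a
  field_simp

end

/-- the kernel as a function of the distance -/
noncomputable def kd (g : ℝ → ℝ) (r : ℝ) : ℝ := kq g (2 * Real.cosh r - 2)

variable {g : ℝ → ℝ} {a C0 C1 C2 : ℝ}

lemma EV.continuous_kd (h : EV g a C0 C1 C2) : Continuous (kd g) :=
  h.continuous_kq.comp (by fun_prop)

lemma EV.ker (h : EV g a C0 C1 C2) : Ker (kd g) a := by
  obtain ⟨C, hC⟩ := h.bc_kq
  refine ⟨h.continuous_kd.measurable, ⟨C, fun r => hC.bdd _⟩, fun r hr => hC.supp _ ?_⟩
  have h1 : Real.cosh a < Real.cosh r := by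
    rw [Real.cosh_lt_cosh, abs_of_nonneg h.apos]
    exact hr.trans_le (le_abs_self r)
  linarith

lemma cosh_dist_pt (v : ℍ) (u b : ℝ) : 2 * Real.cosh (dist v (pt u b)) - 2 =
    (u - v.re) ^ 2 / (v.im * Real.exp b) + (2 * Real.cosh (b - Real.log v.im) - 2) := by
  have hv := v.im_pos
  have hb := Real.exp_pos b
  rw [cosh_dist', Real.cosh_eq (b - Real.log v.im), neg_sub, Real.exp_sub, Real.exp_sub,
    Real.exp_log hv]
  simp only [pt_re, pt_im]
  field_simp
  ring

/-- horizontal integral of the kernel -/
lemma EV.integral_line (h : EV g a C0 C1 C2) (v : ℍ) (b : ℝ) :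
    ∫ u : ℝ, kd g (dist v (pt u b)) =
      √(v.im * Real.exp b) * g (b - Real.log v.im) := by
  have hpos : 0 < v.im * Real.exp b := mul_pos v.im_pos (Real.exp_pos b)
  set c := √(v.im * Real.exp b) with hc
  have hc0 : 0 < c := Real.sqrt_pos.2 hpos
  set w := 2 * Real.cosh (b - Real.log v.im) - 2 with hw
  have hw0 : 0 ≤ w := by have := Real.one_le_cosh (b - Real.log v.im); linarith
  have h1 : ∀ u : ℝ, kd g (dist v (pt u b)) = kq g (w + (c⁻¹ * (u - v.re)) ^ 2) := by
    intro u
    unfold kd
    rw [cosh_dist_pt, add_comm]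
    congr 2
    rw [mul_pow, inv_pow, hc, Real.sq_sqrt hpos.le]
    ring
  simp_rw [h1]
  have h2 := integral_sub_right_eq_self (fun u : ℝ => kq g (w + (c⁻¹ * u) ^ 2)) v.re
    (μ := volume)
  rw [h2, Measure.integral_comp_mul_left (fun η => kq g (w + η ^ 2)), h.integral_kq hw0,
    inv_inv, abs_of_pos hc0, smul_eq_mul, hw, arc_cosh]
  congr 1
  rcases abs_choice (b - Real.log v.im) with h3 | h3
  · rw [h3]
  · rw [h3, h.even]

end Pool.Agent.H19.Maass
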