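import Mathlib
import Pool.Agent.H19.Maass.Horo

set_option autoImplicit false

namespace Pool.Agent.H19.Maass

open MeasureTheory Set Filter Topology UpperHalfPlane
open scoped MatrixGroups UpperHalfPlane

variable {g : ℝ → ℝ} {a C0 C1 C2 : ℝ}

lemma sqrt_exp (b : ℝ) : √(Real.exp b) = Real.exp (b / 2) := by
  rw [Real.sqrt_eq_iff_mul_self_eq (Real.exp_pos _).le (Real.exp_pos _).le, ← Real.exp_add]
  congr 1; ring

lemma EV.integral_line_I (h : EV g a C0 C1 C2) (b : ℝ) :
    ∫ u : ℝ, kd g (dist UpperHalfPlane.I (pt u b)) = Real.exp (b / 2) * g b := by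
  rw [h.integral_line]
  simp [sqrt_exp]

/-- Selberg transform of the inverse Abel transform -/
theorem EV.selb_eq (h : EV g a C0 C1 C2) (s : ℂ) :
    selb (kd g) s = ∫ b : ℝ, (g b : ℂ) * Complex.exp ((s - 1 / 2) * b) := by
  unfold selb
  have hc : Continuous fun w : ℍ => pw s w := continuous_coe_of (contDiffOn_pw s).continuousOn
  rw [horo (integrable_k_mul h.ker UpperHalfPlane.I hc.measurable (bdd_of_continuous hc _ _))]
  refine integral_congr_ae (Eventually.of_forall fun b => ?_)
  have h1 : ∀ x : ℝ, pw s (pt x b) = Complex.exp (s * b) := by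
    intro x
    unfold pw
    have : ((pt x b : ℍ) : ℂ).im = Real.exp b := rfl
    rw [this, Real.log_exp]
  simp_rw [h1]
  rw [integral_mul_const, integral_complex_ofReal, h.integral_line_I]
  rw [Complex.real_smul]
  push_cast
  have e1 : Complex.exp (-b) * (Complex.exp (b / 2) * (g b : ℂ) * Complex.exp (s * b)) =
      (g b : ℂ) * (Complex.exp (-b) * Complex.exp (b / 2) * Complex.exp (s * b)) := by ring
  rw [e1, ← Complex.exp_add, ← Complex.exp_add]
  congr 2
  ring

lemma KK_smul (k : ℝ → ℝ) (γ : SL(2, ℝ)) (z w : ℍ) : KK k (γ • z) (γ • w) = KK k z w := by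
  unfold KK
  have hme : MeasurableEmbedding (fun z : ℍ => γ • z) :=
    (Homeomorph.smul γ : ℍ ≃ₜ ℍ).measurableEmbedding
  rw [← (measurePreserving_slr γ).integral_comp hme]
  simp only [dist_smul]

lemma dist_I_pt (r : ℝ) : dist UpperHalfPlane.I (pt 0 r) = |r| := by
  have h1 : UpperHalfPlane.I.re = (pt 0 r).re := by simp
  rw [dist_of_re_eq h1]
  simp [Real.dist_eq]

lemma homog (z w : ℍ) : ∃ γ : SL(2, ℝ), γ • z = UpperHalfPlane.I ∧ γ • w = pt 0 (dist z w) := by
  set w' : ℍ := (toSL2R z)⁻¹ • w with hw'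
  have hz : (toSL2R z)⁻¹ • z = UpperHalfPlane.I := by
    rw [inv_smul_eq_iff, toSL2R_smul_I]
  have hdist : dist z w = dist UpperHalfPlane.I w' := by
    rw [hw', ← hz, dist_smul]
  by_cases h : w' = UpperHalfPlane.I
  · refine ⟨(toSL2R z)⁻¹, hz, ?_⟩
    rw [hdist, ← hw', h, dist_self]
    ext
    simp [pt, UpperHalfPlane.I]
    apply Complex.ext <;> simp
  · obtain ⟨ζ, hζ, hrot⟩ := exists_polar w' h
    have hζ' : ζ.re < 0 := hζ
    set θ : ℝ := -(ζ.im / 2) with hθ
    have h1 := hrot θ
    have h2 : ζ + 2 * (θ : ℂ) * Complex.I = (ζ.re : ℂ) := by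
      rw [hθ]
      apply Complex.ext
      · simp
      · simp
        ring
    rw [h2] at h1
    set t := Real.exp ζ.re with ht
    have ht0 : 0 < t := Real.exp_pos _
    have ht1 : t < 1 := by rw [ht, ← Real.exp_zero]; exact Real.exp_lt_exp.2 hζ'
    set ρ := (1 + t) / (1 - t) with hρ
    have hρ1 : 1 < ρ := by
      rw [hρ, lt_div_iff₀ (by linarith)]; linarith
    have h3 : rot θ • w' = pt 0 (Real.log ρ) := by
      ext
      rw [h1]
      unfold psi
      have e1 : Complex.exp (ζ.re : ℂ) = (t : ℂ) := by rw [ht]; push_cast; rfl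
      rw [e1]
      have e2 : (1 + (t : ℂ)) / (1 - (t : ℂ)) = (ρ : ℂ) := by rw [hρ]; push_cast; rfl
      rw [e2]
      have e3 : Real.exp (Real.log ρ) = ρ := Real.exp_log (by linarith)
      apply Complex.ext
      · simp [pt]
      · simp only [pt, e3]
        simp
    have h4 : dist UpperHalfPlane.I w' = Real.log ρ := by
      have h5 := dist_smul (rot θ) UpperHalfPlane.I w'
      rw [rot_smul_I, h3, dist_I_pt, abs_of_pos (Real.log_pos hρ1)] at h5
      exact h5.symm
    refine ⟨rot θ * (toSL2R z)⁻¹, ?_, ?_⟩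
    · rw [mul_smul, hz, rot_smul_I]
    · rw [mul_smul, ← hw', h3, hdist, h4]

/-- the convolution square as a function of the distance -/
noncomputable def kap (k : ℝ → ℝ) (r : ℝ) : ℝ := KK k UpperHalfPlane.I (pt 0 r)

lemma KK_eq_kap (k : ℝ → ℝ) (z w : ℍ) : KK k z w = kap k (dist z w) := by
  obtain ⟨γ, h1, h2⟩ := homog z w
  unfold kap
  rw [← h1, ← h2, KK_smul]

lemma KK_supp {k : ℝ → ℝ} {R : ℝ} (hk : Ker k R) {z w : ℍ} (h : 2 * R < dist z w) :
    KK k z w = 0 := by
  unfold KK
  have : ∀ v : ℍ, k (dist z v) * k (dist v w) = 0 := by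
    intro v
    by_cases h1 : R < dist z v
    · rw [hk.supp _ h1, zero_mul]
    · have h2 : R < dist v w := by
        have := dist_triangle z v w
        linarith
      rw [hk.supp _ h2, mul_zero]
  simp_rw [this]
  simp

lemma kap_bdd {k : ℝ → ℝ} {R : ℝ} (hk : Ker k R) : ∃ B, ∀ r, |kap k r| ≤ B := by
  obtain ⟨B, hB⟩ := hk.bdd
  have hB0 : 0 ≤ B := (abs_nonneg _).trans (hB 0)
  refine ⟨B * B * volume.real (Metric.closedBall UpperHalfPlane.I R), fun r => ?_⟩
  unfold kap KK
  have hfin : volume (Metric.closedBall UpperHalfPlane.I R) < ⊤ :=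
    (isCompact_closedBall _ _).measure_lt_top
  have h1 : ∫ v : ℍ, k (dist UpperHalfPlane.I v) * k (dist v (pt 0 r)) =
      ∫ v in Metric.closedBall UpperHalfPlane.I R,
        k (dist UpperHalfPlane.I v) * k (dist v (pt 0 r)) := by
    refine (setIntegral_eq_integral_of_forall_compl_eq_zero fun v hv => ?_).symm
    rw [Metric.mem_closedBall, not_le, dist_comm] at hv
    rw [hk.supp _ hv, zero_mul]
  rw [h1]
  refine norm_setIntegral_le_of_norm_le_const (f := fun v : ℍ =>
    k (dist UpperHalfPlane.I v) * k (dist v (pt 0 r))) (C := B * B) hfin fun v _ => ?_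
  rw [norm_mul]
  exact mul_le_mul (hB _) (hB _) (norm_nonneg _) hB0

lemma continuous_pt0 : Continuous (pt 0) := by
  rw [continuous_induced_rng]
  show Continuous fun a => ((pt 0 a : ℍ) : ℂ)
  have : (fun a => ((pt 0 a : ℍ) : ℂ)) = fun a : ℝ => (Real.exp a : ℂ) * Complex.I := by
    funext a
    apply Complex.ext
    · simp [pt]
    · simp only [pt]; simp [-Complex.ofReal_exp]
  rw [this]
  fun_prop

lemma continuous_kap {k : ℝ → ℝ} {R : ℝ} (hk : Ker k R) (hkc : Continuous k) :
    Continuous (kap k) := by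
  obtain ⟨B, hB⟩ := hk.bdd
  have hB0 : 0 ≤ B := (abs_nonneg _).trans (hB 0)
  unfold kap KK
  refine continuous_of_dominated
    (bound := (Metric.closedBall UpperHalfPlane.I R).indicator fun _ => B * B) ?_ ?_ ?_ ?_
  · intro r
    exact ((hkc.comp (continuous_const.dist continuous_id)).mul
      (hkc.comp (continuous_id.dist continuous_const))).aestronglyMeasurable
  · intro r
    refine Eventually.of_forall fun v => ?_
    by_cases hv : v ∈ Metric.closedBall UpperHalfPlane.I R
    · rw [indicator_of_mem hv, norm_mul]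
      exact mul_le_mul (hB _) (hB _) (norm_nonneg _) hB0
    · rw [indicator_of_notMem hv]
      rw [Metric.mem_closedBall, not_le, dist_comm] at hv
      rw [hk.supp _ hv, zero_mul, norm_zero]
  · rw [integrable_indicator_iff Metric.isClosed_closedBall.measurableSet]
    exact integrableOn_const (isCompact_closedBall _ _).measure_lt_top.ne
  · refine Eventually.of_forall fun v => ?_
    exact continuous_const.mul (hkc.comp (continuous_const.dist continuous_pt0))

lemma continuous_ptb (b : ℝ) : Continuous fun u : ℝ => pt u b := by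
  rw [continuous_induced_rng]
  show Continuous fun u => ((pt u b : ℍ) : ℂ)
  have : (fun u => ((pt u b : ℍ) : ℂ)) =
      fun u : ℝ => (u : ℂ) + (Real.exp b : ℂ) * Complex.I := by
    funext u
    apply Complex.ext
    · simp only [pt]; simp [-Complex.ofReal_exp]
    · simp only [pt]; simp [-Complex.ofReal_exp]
  rw [this]
  fun_prop

lemma abs_le_of_dist_le {b R : ℝ} {u : ℝ} (h : dist UpperHalfPlane.I (pt u b) ≤ R) :
    |u| ≤ √(Real.exp b * (2 * Real.cosh R)) := by
  refine Real.abs_le_sqrt ?_
  have h1 := cosh_dist_pt UpperHalfPlane.I u b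
  have h2 : Real.cosh (dist UpperHalfPlane.I (pt u b)) ≤ Real.cosh R := by
    rw [Real.cosh_le_cosh, abs_of_nonneg dist_nonneg]
    exact h.trans (le_abs_self R)
  simp only [I_re, I_im, sub_zero, one_mul, Real.log_one] at h1
  have h3 := Real.one_le_cosh b
  have h4 : u ^ 2 / Real.exp b ≤ 2 * Real.cosh R := by linarith
  rwa [div_le_iff₀' (Real.exp_pos b)] at h4

theorem EV.integral_KK_line (h : EV g a C0 C1 C2) (b : ℝ) :
    ∫ u : ℝ, KK (kd g) UpperHalfPlane.I (pt u b) =
      Real.exp (b / 2) * ∫ c : ℝ, g c * g (b - c) := by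
  have hk := h.ker
  have hkc := h.continuous_kd
  unfold KK
  have hcont : Continuous fun p : ℝ × ℍ =>
      kd g (dist UpperHalfPlane.I p.2) * kd g (dist p.2 (pt p.1 b)) :=
    (hkc.comp (continuous_const.dist continuous_snd)).mul
      (hkc.comp (continuous_snd.dist ((continuous_ptb b).comp continuous_fst)))
  rw [integral_integral_swap]
  swap
  · refine hcont.integrable_of_hasCompactSupport ?_
    refine HasCompactSupport.intro (K := Icc (-√(Real.exp b * (2 * Real.cosh (2 * a))))
      (√(Real.exp b * (2 * Real.cosh (2 * a)))) ×ˢ Metric.closedBall UpperHalfPlane.I a)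
      (isCompact_Icc.prod (isCompact_closedBall _ _)) ?_
    rintro ⟨u, v⟩ hp
    by_contra hne
    have h1 : dist UpperHalfPlane.I v ≤ a := by
      by_contra h2
      apply hne
      simp only
      rw [hk.supp _ (not_le.1 h2), zero_mul]
    have h2 : dist v (pt u b) ≤ a := by
      by_contra h2
      apply hne
      simp only
      rw [hk.supp _ (not_le.1 h2), mul_zero]
    apply hp
    refine ⟨abs_le.1 (abs_le_of_dist_le ?_), ?_⟩
    · have := dist_triangle UpperHalfPlane.I v (pt u b)
      linarith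
    · rw [Metric.mem_closedBall, dist_comm]; exact h1
  have h1 : ∀ v : ℍ, ∫ u : ℝ, kd g (dist UpperHalfPlane.I v) * kd g (dist v (pt u b)) =
      kd g (dist UpperHalfPlane.I v) * (√(v.im * Real.exp b) * g (b - Real.log v.im)) := by
    intro v
    rw [integral_const_mul, h.integral_line]
  simp_rw [h1]
  have hint : Integrable fun v : ℍ =>
      kd g (dist UpperHalfPlane.I v) * (√(v.im * Real.exp b) * g (b - Real.log v.im)) := by
    have hc2 : Continuous fun v : ℍ =>
        kd g (dist UpperHalfPlane.I v) * (√(v.im * Real.exp b) * g (b - Real.log v.im)) := by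
      refine (hkc.comp (continuous_const.dist continuous_id)).mul ?_
      refine (Real.continuous_sqrt.comp (continuous_im.mul continuous_const)).mul ?_
      refine h.d1.continuous.comp (continuous_const.sub ?_)
      exact continuous_im.log fun v => v.im_pos.ne'
    refine hc2.integrable_of_hasCompactSupport ?_
    refine HasCompactSupport.intro (isCompact_closedBall UpperHalfPlane.I a) fun v hv => ?_
    rw [Metric.mem_closedBall, not_le, dist_comm] at hv
    rw [hk.supp _ hv, zero_mul]
  rw [horo hint, ← integral_const_mul]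
  refine integral_congr_ae (Eventually.of_forall fun c => ?_)
  simp only [pt_im, Real.log_exp, smul_eq_mul]
  rw [integral_mul_const, h.integral_line_I, ← Real.exp_add, sqrt_exp]
  have e1 : Real.exp (-c) * (Real.exp (c / 2) * g c * (Real.exp ((c + b) / 2) * g (b - c))) =
      (Real.exp (-c) * Real.exp (c / 2) * Real.exp ((c + b) / 2)) * (g c * g (b - c)) := by ring
  rw [e1, ← Real.exp_add, ← Real.exp_add]
  congr 2
  ring

/-- one-dimensional convolution square -/
noncomputable def cv (g : ℝ → ℝ) (b : ℝ) : ℝ := ∫ c : ℝ, g c * g (b - c)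

/-- the convolution square as a function of `s = 2 cosh r - 2` -/
noncomputable def kas (g : ℝ → ℝ) (s : ℝ) : ℝ := kap (kd g) (arc (max s 0))

lemma arc_cosh_dist (z w : ℍ) : arc (2 * Real.cosh (dist z w) - 2) = dist z w := by
  rw [arc_cosh, abs_of_nonneg dist_nonneg]

lemma KK_eq_kas (g : ℝ → ℝ) (z w : ℍ) :
    KK (kd g) z w = kas g (2 * Real.cosh (dist z w) - 2) := by
  unfold kas
  have h0 : 0 ≤ 2 * Real.cosh (dist z w) - 2 := by have := Real.one_le_cosh (dist z w); linarith
  rw [max_eq_left h0, arc_cosh_dist, KK_eq_kap]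

lemma EV.bc_kas (h : EV g a C0 C1 C2) : ∃ C, BC (kas g) C (2 * Real.cosh (2 * a) - 2) := by
  obtain ⟨B, hB⟩ := kap_bdd h.ker
  refine ⟨B, ?_, fun t => hB _, ?_⟩
  · exact (continuous_kap h.ker h.continuous_kd).measurable.comp
      (measurable_arc.comp (by fun_prop))
  · intro t ht
    have h0 : 0 ≤ t := by have := Real.one_le_cosh (2 * a); linarith
    unfold kas
    rw [max_eq_left h0]
    unfold kap
    refine KK_supp h.ker ?_
    rw [dist_I_pt, abs_of_nonneg (arc_nonneg h0)]
    exact lt_arc (by have := h.apos; linarith) ht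

lemma EV.continuous_kas (h : EV g a C0 C1 C2) : Continuous (kas g) := by
  refine (continuous_kap h.ker h.continuous_kd).comp ?_
  exact continuousOn_arc.comp_continuous (by fun_prop) fun s => le_max_right s 0

lemma EV.integral_kas (h : EV g a C0 C1 C2) {w : ℝ} (hw : 0 ≤ w) :
    ∫ η : ℝ, kas g (w + η ^ 2) = cv g (arc w) := by
  set b := arc w with hb
  have hbw : 2 * Real.cosh b - 2 = w := by rw [hb, cosh_arc hw]; ring
  have h1 := h.integral_KK_line b
  have hpos : 0 < Real.exp b := Real.exp_pos b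
  set c := √(Real.exp b) with hc
  have hc0 : 0 < c := Real.sqrt_pos.2 hpos
  have h2 : ∀ u : ℝ, KK (kd g) UpperHalfPlane.I (pt u b) = kas g (w + (c⁻¹ * u) ^ 2) := by
    intro u
    rw [KK_eq_kas, cosh_dist_pt]
    congr 1
    simp only [I_re, I_im, sub_zero, one_mul, Real.log_one]
    rw [hbw, mul_pow, inv_pow, hc, Real.sq_sqrt hpos.le]
    ring
  simp_rw [h2] at h1
  rw [Measure.integral_comp_mul_left (fun η => kas g (w + η ^ 2)), inv_inv, abs_of_pos hc0,
    smul_eq_mul, hc, sqrt_exp] at h1
  exact mul_left_cancel₀ (Real.exp_pos _).ne' h1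

end Pool.Agent.H19.Maass
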