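import Mathlib
import Pool.Agent.H19.Maass.Conv

set_option autoImplicit false

namespace Pool.Agent.H19.Maass

open MeasureTheory Set Filter Topology UpperHalfPlane
open scoped MatrixGroups UpperHalfPlane

variable {g : ℝ → ℝ} {a C0 C1 C2 : ℝ}

lemma EV.hcs (h : EV g a C0 C1 C2) : HasCompactSupport g :=
  HasCompactSupport.intro (isCompact_Icc (a := -a) (b := a)) fun x hx => h.supp x (by
    by_contra h1
    exact hx (abs_le.1 (not_lt.1 h1)))

lemma EV.C0_nonneg (h : EV g a C0 C1 C2) : 0 ≤ C0 := (abs_nonneg _).trans (h.b0 0)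
lemma EV.C1_nonneg (h : EV g a C0 C1 C2) : 0 ≤ C1 := (abs_nonneg _).trans (h.b1 0)
lemma EV.C2_nonneg (h : EV g a C0 C1 C2) : 0 ≤ C2 := (abs_nonneg _).trans (h.b2 0)

lemma EV.conv_deriv (h : EV g a C0 C1 C2) {φ : ℝ → ℝ} {C : ℝ} (hφ : Differentiable ℝ φ)
    (hb : ∀ x, |deriv φ x| ≤ C) (b : ℝ) :
    HasDerivAt (fun b => ∫ c, g c * φ (b - c)) (∫ c, g c * deriv φ (b - c)) b := by
  have hgc := h.d1.continuous
  refine (hasDerivAt_integral_of_dominated_loc_of_deriv_le (F := fun b c => g c * φ (b - c))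
    (F' := fun b c => g c * deriv φ (b - c)) (s := univ) (bound := fun c => |g c| * C)
    univ_mem ?_ ?_ ?_ ?_ ?_ ?_).2
  · exact Eventually.of_forall fun x =>
      (hgc.mul (hφ.continuous.comp (by fun_prop))).aestronglyMeasurable
  · exact (hgc.mul (hφ.continuous.comp (by fun_prop))).integrable_of_hasCompactSupport
      h.hcs.mul_right
  · exact (hgc.measurable.mul ((measurable_deriv φ).comp (by fun_prop))).aestronglyMeasurable
  · refine Eventually.of_forall fun c x _ => ?_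
    rw [norm_mul]
    exact mul_le_mul_of_nonneg_left (hb _) (norm_nonneg _)
  · exact ((hgc.abs).mul continuous_const).integrable_of_hasCompactSupport
      ((h.hcs.comp_left (g := fun x : ℝ => |x|) (by simp)).mul_right)
  · refine Eventually.of_forall fun c x _ => ?_
    have h1 := ((hφ (x - c)).hasDerivAt.comp x ((hasDerivAt_id x).sub_const c)).const_mul (g c)
    exact HasDerivAt.congr_deriv h1 (by simp)

lemma EV.conv_bound (h : EV g a C0 C1 C2) {φ : ℝ → ℝ} {C : ℝ} (hb : ∀ x, |φ x| ≤ C) (b : ℝ) :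
    |∫ c, g c * φ (b - c)| ≤ C0 * C * (2 * a) := by
  have h1 : ∫ c, g c * φ (b - c) = ∫ c in Icc (-a) a, g c * φ (b - c) := by
    refine (setIntegral_eq_integral_of_forall_compl_eq_zero fun c hc => ?_).symm
    rw [h.supp c, zero_mul]
    by_contra h1
    exact hc (abs_le.1 (not_lt.1 h1))
  rw [h1]
  have h2 := norm_setIntegral_le_of_norm_le_const (f := fun c : ℝ => g c * φ (b - c))
    (C := C0 * C) (s := Icc (-a) a) (μ := volume) (by simp) (fun c _ => by
      rw [norm_mul]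
      exact mul_le_mul (h.b0 _) (hb _) (norm_nonneg _) h.C0_nonneg)
  refine h2.trans (le_of_eq ?_)
  have : volume.real (Icc (-a) a) = 2 * a := by
    rw [Real.volume_real_Icc_of_le (by have := h.apos; linarith)]; ring
  rw [this]

theorem EV.cv (h : EV g a C0 C1 C2) :
    EV (cv g) (2 * a) (C0 * C0 * (2 * a)) (C0 * C1 * (2 * a)) (C0 * C2 * (2 * a)) := by
  have e0 : Maass.cv g = fun b => ∫ c, g c * g (b - c) := rfl
  have hd1 : ∀ b, HasDerivAt (Maass.cv g) (∫ c, g c * deriv g (b - c)) b := fun b =>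
    h.conv_deriv h.d1 h.b1 b
  have e1 : deriv (Maass.cv g) = fun b => ∫ c, g c * deriv g (b - c) :=
    funext fun b => (hd1 b).deriv
  have hd2 : ∀ b, HasDerivAt (deriv (Maass.cv g)) (∫ c, g c * deriv (deriv g) (b - c)) b := by
    intro b; rw [e1]; exact h.conv_deriv h.d2 h.b2 b
  have e2 : deriv (deriv (Maass.cv g)) = fun b => ∫ c, g c * deriv (deriv g) (b - c) :=
    funext fun b => (hd2 b).deriv
  refine ⟨fun b => (hd1 b).differentiableAt, fun b => (hd2 b).differentiableAt, ?_, ?_, ?_,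
    fun b => h.conv_bound h.b0 b, ?_, ?_⟩
  · intro x
    show ∫ c, g c * g (-x - c) = ∫ c, g c * g (x - c)
    rw [← integral_neg_eq_self]
    refine integral_congr_ae (Eventually.of_forall fun c => ?_)
    simp only
    rw [h.even c, ← h.even (x - c)]
    congr 2
    ring
  · have := h.apos; linarith
  · intro x hx
    show ∫ c, g c * g (x - c) = 0
    have : ∀ c, g c * g (x - c) = 0 := by
      intro c
      by_cases h1 : a < |c|
      · rw [h.supp c h1, zero_mul]
      · rw [h.supp (x - c), mul_zero]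
        have h2 : |x| ≤ |x - c| + |c| := by
          have := abs_add_le (x - c) c
          rwa [sub_add_cancel] at this
        linarith [not_lt.1 h1]
    simp_rw [this]
    simp
  · intro x
    rw [e1]
    exact h.conv_bound h.b1 x
  · intro x
    rw [e2]
    exact h.conv_bound h.b2 x

/-- inversion -/
theorem EV.kas_eq (h : EV g a C0 C1 C2) {s : ℝ} (hs : 0 < s) :
    kas g s = -(1 / Real.pi) * ∫ ξ : ℝ, qf (Maass.cv g) (s + ξ ^ 2) := by
  have hG := h.cv
  set G := Maass.cv g with hGdef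
  obtain ⟨Cκ, hκ⟩ := h.bc_kas
  have hκc := h.continuous_kas
  -- the double integral
  have hJ : ∀ w : ℝ, 0 ≤ w → ∫ ξ : ℝ, G (arc (w + ξ ^ 2)) =
      Real.pi * ∫ t in Ioi 0, kas g (w + t) := by
    intro w hw
    rw [← (hκ.shift w).polar]
    refine integral_congr_ae (Eventually.of_forall fun ξ => ?_)
    simp only
    have h1 := h.integral_kas (w := w + ξ ^ 2) (by positivity)
    rw [← hGdef] at h1
    rw [← h1]
    simp_rw [add_assoc]
  -- derivative of the left side
  have hbc := hG.bc_qf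
  have hd1 : HasDerivAt (fun w => ∫ ξ : ℝ, G (arc (w + ξ ^ 2)))
      (∫ ξ : ℝ, qf G (s + ξ ^ 2)) s := by
    set S := 2 * Real.cosh (2 * a) - 2 with hS
    refine (hasDerivAt_integral_of_dominated_loc_of_deriv_le
      (F := fun w ξ => G (arc (w + ξ ^ 2))) (F' := fun w ξ => qf G (w + ξ ^ 2))
      (s := Ioi 0) (bound := (Icc (-√S) (√S)).indicator fun _ => C0 * C2 * (2 * a) / 2)
      (Ioi_mem_nhds hs) ?_ ?_ ?_ ?_ ?_ ?_).2
    · refine Eventually.of_forall fun w => ?_
      exact (hG.d1.continuous.measurable.comp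
        (measurable_arc.comp (by fun_prop))).aestronglyMeasurable
    · have hb : BC (fun t => G (arc t)) (C0 * C0 * (2 * a)) S :=
        ⟨hG.d1.continuous.measurable.comp measurable_arc, fun t => hG.b0 _, fun t ht =>
          hG.supp _ ((lt_arc hG.apos ht).trans_le (le_abs_self _))⟩
      exact hb.integrable_sq s
    · exact (hbc.integrable_sq s).aestronglyMeasurable
    · refine Eventually.of_forall fun ξ w hw => ?_
      have hw' : (0 : ℝ) < w := hw
      by_cases hξ : ξ ∈ Icc (-√S) (√S)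
      · rw [indicator_of_mem hξ]; exact hbc.bdd _
      · rw [indicator_of_notMem hξ]
        have h1 : S < w + ξ ^ 2 := by
          have h2 : S < ξ ^ 2 := by
            by_contra h3
            exact hξ (abs_le.1 (Real.abs_le_sqrt (not_lt.1 h3)))
          linarith
        rw [hbc.supp _ h1, norm_zero]
    · rw [integrable_indicator_iff measurableSet_Icc]
      exact integrableOn_const (by simp)
    · refine Eventually.of_forall fun ξ w hw => ?_
      have hw' : (0 : ℝ) < w := hw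
      have h1 := (hG.hasDerivAt_comp_arc (w := w + ξ ^ 2) (by positivity)).comp w
        ((hasDerivAt_id w).add_const (ξ ^ 2))
      exact HasDerivAt.congr_deriv h1 (by simp)
  -- derivative of the right side
  have hd2 : HasDerivAt (fun w => ∫ ξ : ℝ, G (arc (w + ξ ^ 2))) (Real.pi * (-kas g s)) s := by
    have h1 : (fun w => ∫ ξ : ℝ, G (arc (w + ξ ^ 2))) =ᶠ[𝓝 s]
        fun w => Real.pi * ((∫ t in Ioi 0, kas g t) - ∫ t in (0 : ℝ)..w, kas g t) := by
      filter_upwards [Ioi_mem_nhds hs] with w hw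
      have hw' : (0 : ℝ) < w := hw
      rw [hJ w hw'.le]
      congr 1
      have e1 : ∫ t in Ioi 0, kas g (w + t) = ∫ t in Ioi w, kas g t := by
        have e2 := (measurePreserving_add_left volume w).setIntegral_preimage_emb
          (measurableEmbedding_addLeft w) (kas g) (Ioi w)
        rw [← e2]
        congr 1
        simp
      rw [e1, ← intervalIntegral.integral_Ioi_sub_Ioi (hκ.integrableOn_Ioi 0)
        hw'.le]
      ring
    refine HasDerivAt.congr_of_eventuallyEq ?_ h1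
    refine HasDerivAt.const_mul _ ?_
    have h2 := intervalIntegral.integral_hasDerivAt_right
      (hκc.intervalIntegrable 0 s) (hκc.stronglyMeasurableAtFilter _ _) hκc.continuousAt
    exact h2.const_sub _
  have h3 := hd1.unique hd2
  rw [h3]
  have := Real.pi_ne_zero
  field_simp

lemma tail_bound (h : EV g a C0 C1 C2) {s δ : ℝ} (hs : 0 < s) (hδ : 0 < δ) :
    |∫ ξ in Ioi δ, qf g (s + ξ ^ 2)| ≤ C0 / δ := by
  have hbc := h.bc_qf
  have hqint : IntegrableOn (fun ξ : ℝ => qf g (s + ξ ^ 2)) (Ioi δ) :=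
    (hbc.integrable_sq s).integrableOn
  set u : ℝ → ℝ := fun ξ => g (arc (s + ξ ^ 2)) with hu
  have hub : ∀ ξ, |u ξ| ≤ C0 := fun ξ => h.b0 _
  have hum : Measurable u := h.d1.continuous.measurable.comp (measurable_arc.comp (by fun_prop))
  have hpow : IntegrableOn (fun ξ : ℝ => ξ ^ (-2 : ℝ)) (Ioi δ) :=
    integrableOn_Ioi_rpow_of_lt (by norm_num) hδ
  have hpowv : ∫ ξ in Ioi δ, ξ ^ (-2 : ℝ) = 1 / δ := by
    rw [integral_Ioi_rpow_of_lt (by norm_num) hδ]
    have : (-2 : ℝ) + 1 = -1 := by norm_num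
    rw [this, Real.rpow_neg_one]
    field_simp
  have hu2b : ∀ ξ ∈ Ioi δ, |u ξ / (2 * ξ ^ 2)| ≤ C0 / 2 * ξ ^ (-2 : ℝ) := by
    intro ξ hξ
    have hξ' : 0 < ξ := hδ.trans hξ
    rw [abs_div, abs_of_pos (by positivity : (0 : ℝ) < 2 * ξ ^ 2), Real.rpow_neg hξ'.le,
      Real.rpow_two, div_le_iff₀ (by positivity)]
    have e : C0 / 2 * (ξ ^ 2)⁻¹ * (2 * ξ ^ 2) = C0 := by field_simp
    rw [e]
    exact hub ξ
  have hu2int : IntegrableOn (fun ξ : ℝ => u ξ / (2 * ξ ^ 2)) (Ioi δ) := by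
    refine Integrable.mono' (hpow.const_mul (C0 / 2))
      ((hum.div (by fun_prop)).aestronglyMeasurable) ?_
    exact (ae_restrict_iff' measurableSet_Ioi).2 (Eventually.of_forall hu2b)
  have hV : ∫ ξ in Ioi δ, (qf g (s + ξ ^ 2) - u ξ / (2 * ξ ^ 2)) = 0 - u δ / (2 * δ) := by
    refine integral_Ioi_of_hasDerivAt_of_tendsto (f := fun ξ => u ξ / (2 * ξ)) ?_ ?_ ?_ ?_
    · refine ContinuousAt.continuousWithinAt ?_
      have e1 := (h.hasDerivAt_comp_arc (w := s + δ ^ 2) (by positivity)).comp δ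
        (((hasDerivAt_pow 2 δ)).const_add s)
      exact e1.continuousAt.div (by fun_prop) (by positivity)
    · intro ξ hξ
      have hξ' : 0 < ξ := hδ.trans hξ
      have e1 := (h.hasDerivAt_comp_arc (w := s + ξ ^ 2) (by positivity)).comp ξ
        (((hasDerivAt_pow 2 ξ)).const_add s)
      have e2 : HasDerivAt (fun ξ : ℝ => 2 * ξ) 2 ξ := by
        simpa using (hasDerivAt_id ξ).const_mul (2 : ℝ)
      have e3 := e1.div e2 (by positivity)
      refine HasDerivAt.congr_deriv e3 ?_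
      simp only [Function.comp, hu]
      field_simp
      ring
    · exact hqint.sub hu2int
    · refine tendsto_const_nhds.congr' ?_
      filter_upwards [eventually_gt_atTop (max 1 (2 * Real.cosh a - 2))] with ξ hξ
      have h1 : 1 < ξ := lt_of_le_of_lt (le_max_left _ _) hξ
      have h2 : 2 * Real.cosh a - 2 < ξ := lt_of_le_of_lt (le_max_right _ _) hξ
      have h3 : a < arc (s + ξ ^ 2) := lt_arc h.apos (by nlinarith)
      rw [hu]
      simp only
      rw [h.supp _ (h3.trans_le (le_abs_self _)), zero_div]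
  rw [integral_sub hqint hu2int] at hV
  have h1 : ∫ ξ in Ioi δ, qf g (s + ξ ^ 2) =
      -(u δ / (2 * δ)) + ∫ ξ in Ioi δ, u ξ / (2 * ξ ^ 2) := by linarith
  rw [h1]
  have h2 : |∫ ξ in Ioi δ, u ξ / (2 * ξ ^ 2)| ≤ C0 / 2 * (1 / δ) := by
    have e1 := norm_integral_le_of_norm_le (f := fun ξ => u ξ / (2 * ξ ^ 2))
      (hpow.const_mul (C0 / 2))
      ((ae_restrict_iff' measurableSet_Ioi).2 (Eventually.of_forall hu2b))
    rw [integral_const_mul, hpowv] at e1
    exact e1
  have h3 : |-(u δ / (2 * δ))| ≤ C0 / (2 * δ) := by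
    rw [abs_neg, abs_div, abs_of_pos (by positivity : (0 : ℝ) < 2 * δ)]
    exact div_le_div_of_nonneg_right (hub δ) (by positivity)
  calc _ ≤ |-(u δ / (2 * δ))| + |∫ ξ in Ioi δ, u ξ / (2 * ξ ^ 2)| := abs_add_le _ _
    _ ≤ C0 / (2 * δ) + C0 / 2 * (1 / δ) := add_le_add h3 h2
    _ = C0 / δ := by field_simp; ring

lemma qf_bound1 (h : EV g a C0 C1 C2) {s w : ℝ} (hs : 0 < s) (hw : s ≤ w) :
    |qf g w| ≤ C1 / (2 * √s) := by
  have hw0 : 0 < w := hs.trans_le hw
  have hpos : 0 < 2 * Real.sinh (arc w) := by have := sinh_arc_pos hw0; positivity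
  unfold qf
  rw [if_pos hw0, abs_div, abs_of_pos hpos]
  have h1 : √s ≤ Real.sinh (arc w) := (Real.sqrt_le_sqrt hw).trans (sqrt_le_sinh_arc hw0.le)
  have h2 : 0 < √s := Real.sqrt_pos.2 hs
  exact div_le_div₀ h.C1_nonneg (h.b1 _) (by positivity) (by linarith)

lemma full_bound (h : EV g a C0 C1 C2) {s δ M : ℝ} (hs : 0 < s) (hδ : 0 < δ)
    (hM : ∀ w, s ≤ w → |qf g w| ≤ M) :
    |∫ ξ : ℝ, qf g (s + ξ ^ 2)| ≤ 2 * (M * δ + C0 / δ) := by
  have hbc := h.bc_qf
  have e1 : ∫ ξ : ℝ, qf g (s + ξ ^ 2) = 2 * ∫ ξ in Ioi (0 : ℝ), qf g (s + ξ ^ 2) := by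
    rw [← integral_comp_abs (f := fun ξ => qf g (s + ξ ^ 2))]
    simp_rw [sq_abs]
  have hint := hbc.integrable_sq s
  have e2 : ∫ ξ in Ioi (0 : ℝ), qf g (s + ξ ^ 2) =
      (∫ ξ in (0 : ℝ)..δ, qf g (s + ξ ^ 2)) + ∫ ξ in Ioi δ, qf g (s + ξ ^ 2) := by
    rw [← intervalIntegral.integral_Ioi_sub_Ioi hint.integrableOn hδ.le]
    ring
  have e3 : |∫ ξ in (0 : ℝ)..δ, qf g (s + ξ ^ 2)| ≤ M * δ := by
    have := intervalIntegral.norm_integral_le_of_norm_le_const (a := 0) (b := δ)
      (f := fun ξ => qf g (s + ξ ^ 2)) (C := M) (fun ξ _ => hM _ (by nlinarith [sq_nonneg ξ]))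
    rwa [sub_zero, abs_of_pos hδ] at this
  rw [e1, e2, abs_mul, abs_two]
  refine mul_le_mul_of_nonneg_left ?_ (by norm_num)
  exact (abs_add_le _ _).trans (add_le_add e3 (tail_bound h hs hδ))

/-- pointwise bounds for the convolution square -/
theorem EV.kas_bound (h : EV g a C0 C1 C2) {s δ : ℝ} (hs : 0 < s) (hδ : 0 < δ) :
    |kas g s| ≤ 2 * a * C0 * (C1 / (2 * √s) * δ + C0 / δ) ∧
    |kas g s| ≤ 2 * a * C0 * (C2 / 2 * δ + C0 / δ) := by
  have hG := h.cv
  have hpi : 2 ≤ Real.pi := Real.two_le_pi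
  have h1 := full_bound hG (M := C0 * C1 * (2 * a) / (2 * √s)) hs hδ
    (fun w hw => qf_bound1 hG hs hw)
  have h2 := full_bound hG (M := C0 * C2 * (2 * a) / 2) hs hδ (fun w _ => hG.bc_qf.bdd w)
  have key : ∀ X Y : ℝ, 0 ≤ Y → |X| ≤ 2 * Y → |-(1 / Real.pi) * X| ≤ Y := by
    intro X Y hY hX
    rw [abs_mul, abs_neg, abs_of_pos (by positivity)]
    have h3 : 1 / Real.pi ≤ 1 / 2 := one_div_le_one_div_of_le (by norm_num) hpi
    calc 1 / Real.pi * |X| ≤ 1 / 2 * (2 * Y) :=
          mul_le_mul h3 hX (abs_nonneg _) (by norm_num)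
      _ = Y := by ring
  have ha := h.apos
  have c0 := h.C0_nonneg
  have c1 := h.C1_nonneg
  have c2 := h.C2_nonneg
  rw [h.kas_eq hs]
  constructor
  · refine (key _ _ (by positivity) h1).trans (le_of_eq ?_)
    ring
  · refine (key _ _ (by positivity) h2).trans (le_of_eq ?_)
    ring

end Pool.Agent.H19.Maass
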