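import Mathlib
import Pool.Agent.H19.Maass.Inv

set_option autoImplicit false

namespace Pool.Agent.H19.Maass

open MeasureTheory Set Filter Topology UpperHalfPlane
open scoped MatrixGroups UpperHalfPlane

/-- the bump function -/
noncomputable def rho : ContDiffBump (0 : ℝ) := ⟨1 / 2, 1, by norm_num, by norm_num⟩

noncomputable def gT (T x : ℝ) : ℝ := rho x * Real.cos (T * x)

lemma rho_contDiff (n : ℕ∞) : ContDiff ℝ n (rho : ℝ → ℝ) := rho.contDiff

lemma rho_even (x : ℝ) : rho (-x) = rho x := rho.neg x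

lemma rho_supp {x : ℝ} (hx : 1 ≤ |x|) : rho x = 0 := by
  refine rho.zero_of_le_dist ?_
  show (1 : ℝ) ≤ dist x 0
  simpa [Real.dist_eq] using hx

lemma rho_nonneg (x : ℝ) : 0 ≤ rho x := rho.nonneg
lemma rho_le_one (x : ℝ) : rho x ≤ 1 := rho.le_one

lemma rho_one {x : ℝ} (hx : |x| ≤ 1 / 2) : rho x = 1 := by
  refine rho.one_of_mem_closedBall ?_
  rw [Metric.mem_closedBall]
  show dist x 0 ≤ 1 / 2
  simpa [Real.dist_eq] using hx

lemma rho_hcs : HasCompactSupport (rho : ℝ → ℝ) := rho.hasCompactSupport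

lemma exists_rho_bounds : ∃ B1 B2 : ℝ, 0 ≤ B1 ∧ 0 ≤ B2 ∧ (∀ x, |deriv rho x| ≤ B1) ∧
    (∀ x, |deriv (deriv rho) x| ≤ B2) := by
  have h2 : ContDiff ℝ 2 (rho : ℝ → ℝ) := rho_contDiff 2
  have h1 : ContDiff ℝ 1 (deriv rho) := by
    have : ContDiff ℝ (1 + 1) (rho : ℝ → ℝ) := by
      have := rho_contDiff 2
      exact_mod_cast this
    exact (contDiff_succ_iff_deriv.1 this).2.2
  have h0 : Continuous (deriv (deriv rho)) := h1.continuous_deriv (by norm_num)
  obtain ⟨B1, hB1⟩ := h1.continuous.bounded_above_of_compact_support rho_hcs.deriv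
  obtain ⟨B2, hB2⟩ := h0.bounded_above_of_compact_support rho_hcs.deriv.deriv
  exact ⟨B1, B2, (norm_nonneg _).trans (hB1 0), (norm_nonneg _).trans (hB2 0), hB1, hB2⟩

lemma rho_diff : Differentiable ℝ (rho : ℝ → ℝ) :=
  (rho_contDiff 1).differentiable (by norm_num)

lemma rho_diff2 : Differentiable ℝ (deriv rho) := by
  have h1 : ContDiff ℝ 1 (deriv rho) := by
    have : ContDiff ℝ (1 + 1) (rho : ℝ → ℝ) := by
      have := rho_contDiff 2
      exact_mod_cast this
    exact (contDiff_succ_iff_deriv.1 this).2.2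
  exact h1.differentiable (by norm_num)

lemma hasDerivAt_cosT (T x : ℝ) : HasDerivAt (fun x => Real.cos (T * x)) (-(T * Real.sin (T * x))) x := by
  have := (Real.hasDerivAt_cos (T * x)).comp x ((hasDerivAt_id x).const_mul T)
  exact HasDerivAt.congr_deriv this (by simp; ring)

lemma hasDerivAt_sinT (T x : ℝ) : HasDerivAt (fun x => Real.sin (T * x)) (T * Real.cos (T * x)) x := by
  have := (Real.hasDerivAt_sin (T * x)).comp x ((hasDerivAt_id x).const_mul T)
  exact HasDerivAt.congr_deriv this (by simp; ring)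

lemma hasDerivAt_gT (T x : ℝ) : HasDerivAt (gT T)
    (deriv rho x * Real.cos (T * x) - T * (rho x * Real.sin (T * x))) x := by
  have := (rho_diff x).hasDerivAt.mul (hasDerivAt_cosT T x)
  exact HasDerivAt.congr_deriv this (by ring)

lemma deriv_gT (T : ℝ) : deriv (gT T) =
    fun x => deriv rho x * Real.cos (T * x) - T * (rho x * Real.sin (T * x)) :=
  funext fun x => (hasDerivAt_gT T x).deriv

lemma hasDerivAt_deriv_gT (T x : ℝ) : HasDerivAt (deriv (gT T))
    (deriv (deriv rho) x * Real.cos (T * x) - 2 * T * (deriv rho x * Real.sin (T * x)) -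
      T ^ 2 * (rho x * Real.cos (T * x))) x := by
  rw [deriv_gT]
  have h1 := (rho_diff2 x).hasDerivAt.mul (hasDerivAt_cosT T x)
  have h2 := ((rho_diff x).hasDerivAt.mul (hasDerivAt_sinT T x)).const_mul T
  exact HasDerivAt.congr_deriv (h1.sub h2) (by ring)

theorem exists_EV : ∃ B : ℝ, 1 ≤ B ∧ ∀ T : ℝ, 1 ≤ T → EV (gT T) 1 1 (B * T) (B * T ^ 2) := by
  obtain ⟨B1, B2, h1, h2, hB1, hB2⟩ := exists_rho_bounds
  refine ⟨B2 + 2 * B1 + 1, by linarith, fun T hT => ?_⟩
  refine ⟨fun x => (hasDerivAt_gT T x).differentiableAt,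
    fun x => (hasDerivAt_deriv_gT T x).differentiableAt, ?_, by norm_num, ?_, ?_, ?_, ?_⟩
  · intro x
    unfold gT
    rw [rho_even, mul_neg, Real.cos_neg]
  · intro x hx
    unfold gT
    rw [rho_supp hx.le, zero_mul]
  · intro x
    unfold gT
    rw [abs_mul]
    have := Real.abs_cos_le_one (T * x)
    have h3 : |rho x| ≤ 1 := by rw [abs_of_nonneg (rho_nonneg x)]; exact rho_le_one x
    calc |rho x| * |Real.cos (T * x)| ≤ 1 * 1 := mul_le_mul h3 this (abs_nonneg _) (by norm_num)
      _ = 1 := by norm_num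
  · intro x
    rw [deriv_gT]
    simp only
    have hc := Real.abs_cos_le_one (T * x)
    have hs := Real.abs_sin_le_one (T * x)
    have h3 : |rho x| ≤ 1 := by rw [abs_of_nonneg (rho_nonneg x)]; exact rho_le_one x
    have e1 : |deriv rho x * Real.cos (T * x)| ≤ B1 * 1 := by
      rw [abs_mul]; exact mul_le_mul (hB1 x) hc (abs_nonneg _) h1
    have e2 : |T * (rho x * Real.sin (T * x))| ≤ T * (1 * 1) := by
      rw [abs_mul, abs_mul, abs_of_pos (by linarith : 0 < T)]
      exact mul_le_mul_of_nonneg_left (mul_le_mul h3 hs (abs_nonneg _) (by norm_num))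
        (by linarith)
    have e3 := abs_sub (deriv rho x * Real.cos (T * x)) (T * (rho x * Real.sin (T * x)))
    nlinarith [mul_nonneg h1 (by linarith : 0 ≤ T - 1), mul_nonneg h2 (by linarith : 0 ≤ T - 1)]
  · intro x
    rw [(hasDerivAt_deriv_gT T x).deriv]
    have hc := Real.abs_cos_le_one (T * x)
    have hs := Real.abs_sin_le_one (T * x)
    have h3 : |rho x| ≤ 1 := by rw [abs_of_nonneg (rho_nonneg x)]; exact rho_le_one x
    have hT0 : 0 < T := by linarith
    have e1 : |deriv (deriv rho) x * Real.cos (T * x)| ≤ B2 * 1 := by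
      rw [abs_mul]; exact mul_le_mul (hB2 x) hc (abs_nonneg _) h2
    have e2 : |2 * T * (deriv rho x * Real.sin (T * x))| ≤ 2 * T * (B1 * 1) := by
      rw [abs_mul, abs_mul (deriv rho x), abs_of_pos (by positivity : 0 < 2 * T)]
      exact mul_le_mul_of_nonneg_left (mul_le_mul (hB1 x) hs (abs_nonneg _) h1)
        (by positivity)
    have e3 : |T ^ 2 * (rho x * Real.cos (T * x))| ≤ T ^ 2 * (1 * 1) := by
      rw [abs_mul, abs_mul (rho x), abs_of_pos (by positivity : 0 < T ^ 2)]
      exact mul_le_mul_of_nonneg_left (mul_le_mul h3 hc (abs_nonneg _) (by norm_num))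
        (by positivity)
    have e4 := abs_sub (deriv (deriv rho) x * Real.cos (T * x) -
      2 * T * (deriv rho x * Real.sin (T * x))) (T ^ 2 * (rho x * Real.cos (T * x)))
    have e5 := abs_sub (deriv (deriv rho) x * Real.cos (T * x))
      (2 * T * (deriv rho x * Real.sin (T * x)))
    have hT2 : 1 ≤ T ^ 2 := by nlinarith
    have hTT : T ≤ T ^ 2 := by nlinarith
    nlinarith [mul_nonneg h1 (by linarith : 0 ≤ T ^ 2 - T), mul_nonneg h2 (by linarith : 0 ≤ T ^ 2 - 1)]

lemma continuous_rho : Continuous (rho : ℝ → ℝ) := (rho_contDiff 0).continuous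

lemma integrable_rho_mul {f : ℝ → ℝ} (hf : Continuous f) : Integrable fun x => rho x * f x :=
  (continuous_rho.mul hf).integrable_of_hasCompactSupport rho_hcs.mul_right

lemma sin_div_ge {T : ℝ} (hT : 1 ≤ T) : -(1 / 3) ≤ Real.sin T / T := by
  have hT0 : 0 < T := by linarith
  by_cases h : T ≤ Real.pi
  · have : 0 ≤ Real.sin T := Real.sin_nonneg_of_nonneg_of_le_pi hT0.le h
    have : 0 ≤ Real.sin T / T := by positivity
    linarith
  · have h1 : 3 ≤ T := by have := Real.pi_gt_three; linarith [not_le.1 h]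
    rw [le_div_iff₀ hT0]
    have := Real.neg_one_le_sin T
    linarith

lemma integral_rho_cos_sq {T : ℝ} (hT : 1 ≤ T) :
    1 / 3 ≤ ∫ x : ℝ, rho x * (Real.cos (T * x) * Real.cos (T * x)) := by
  have hT0 : 0 < T := by linarith
  have hc : Continuous fun x : ℝ => Real.cos (T * x) * Real.cos (T * x) := by fun_prop
  have h1 : ∫ x in Icc (-(1 / 2) : ℝ) (1 / 2), rho x * (Real.cos (T * x) * Real.cos (T * x)) ≤
      ∫ x : ℝ, rho x * (Real.cos (T * x) * Real.cos (T * x)) := by
    refine setIntegral_le_integral (integrable_rho_mul hc) (Eventually.of_forall fun x => ?_)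
    exact mul_nonneg (rho_nonneg x) (mul_self_nonneg _)
  refine le_trans ?_ h1
  have h2 : ∫ x in Icc (-(1 / 2) : ℝ) (1 / 2), rho x * (Real.cos (T * x) * Real.cos (T * x)) =
      ∫ x in (-(1 / 2) : ℝ)..(1 / 2), Real.cos (T * x) ^ 2 := by
    rw [intervalIntegral.integral_of_le (by norm_num), ← integral_Icc_eq_integral_Ioc]
    refine setIntegral_congr_fun measurableSet_Icc fun x hx => ?_
    rw [rho_one (abs_le.2 hx)]
    ring
  rw [h2]
  have h3 : ∫ x in (-(1 / 2) : ℝ)..(1 / 2), Real.cos (T * x) ^ 2 =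
      T⁻¹ * ∫ x in (-(T / 2))..(T / 2), Real.cos x ^ 2 := by
    have := intervalIntegral.integral_comp_mul_left (a := -(1 / 2)) (b := 1 / 2)
      (fun x => Real.cos x ^ 2) hT0.ne'
    rw [this, smul_eq_mul]
    congr 2 <;> ring
  rw [h3, integral_cos_sq]
  have h4 : Real.cos (-(T / 2)) = Real.cos (T / 2) := Real.cos_neg _
  have h5 : Real.sin (-(T / 2)) = - Real.sin (T / 2) := Real.sin_neg _
  rw [h4, h5]
  have h6 : Real.sin T = 2 * Real.sin (T / 2) * Real.cos (T / 2) := by
    rw [← Real.sin_two_mul]; congr 1; ring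
  have h7 := sin_div_ge hT
  rw [h6] at h7
  have h8 : T⁻¹ * ((Real.cos (T / 2) * Real.sin (T / 2) - Real.cos (T / 2) * -Real.sin (T / 2) +
      T / 2 - -(T / 2)) / 2) = (2 * Real.sin (T / 2) * Real.cos (T / 2) / T) / 2 + 1 / 2 := by
    field_simp
    ring
  rw [h8]
  linarith

lemma integral_rho_abs_le : ∫ x : ℝ, rho x * |x| ≤ 1 := by
  have h1 : ∫ x : ℝ, rho x * |x| = ∫ x in Icc (-1 : ℝ) 1, rho x * |x| := by
    refine (setIntegral_eq_integral_of_forall_compl_eq_zero fun x hx => ?_).symm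
    rw [rho_supp, zero_mul]
    by_contra h
    exact hx (abs_le.1 (not_le.1 h).le)
  have hint : Integrable fun x : ℝ => rho x * |x| := integrable_rho_mul continuous_abs
  have h2 : ∫ x in Icc (-1 : ℝ) 1, rho x * |x| ≤ ∫ x in Icc (-1 : ℝ) 1, |x| := by
    refine setIntegral_mono hint.integrableOn ?_ fun x => ?_
    · exact (continuous_abs.integrableOn_Icc)
    · have := rho_le_one x
      calc rho x * |x| ≤ 1 * |x| := mul_le_mul_of_nonneg_right this (abs_nonneg x)
        _ = |x| := one_mul _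
  have h3 : ∫ x in Icc (-1 : ℝ) 1, |x| = 1 := by
    rw [integral_Icc_eq_integral_Ioc, ← intervalIntegral.integral_of_le (by norm_num)]
    have h4 := intervalIntegral.integral_add_adjacent_intervals (a := (-1 : ℝ)) (b := 0) (c := 1)
      (f := fun x : ℝ => |x|) (μ := volume) (continuous_abs.intervalIntegrable _ _)
      (continuous_abs.intervalIntegrable _ _)
    rw [← h4]
    have h5 : ∫ x in (-1 : ℝ)..0, |x| = ∫ x in (-1 : ℝ)..0, -x := by
      refine intervalIntegral.integral_congr fun x hx => ?_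
      rw [uIcc_of_le (by norm_num)] at hx
      exact abs_of_nonpos hx.2
    have h6 : ∫ x in (0 : ℝ)..1, |x| = ∫ x in (0 : ℝ)..1, x := by
      refine intervalIntegral.integral_congr fun x hx => ?_
      rw [uIcc_of_le (by norm_num)] at hx
      exact abs_of_nonneg hx.1
    rw [h5, h6, intervalIntegral.integral_neg]
    simp
    norm_num
  linarith

theorem selb_ge {B T t : ℝ} (hT : 1 ≤ T) (hEV : EV (gT T) 1 1 (B * T) (B * T ^ 2))
    (ht : |t - T| ≤ 1 / 10) : 1 / 5 ≤ (selb (kd (gT T)) (1 / 2 + t * Complex.I)).re := by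
  rw [hEV.selb_eq]
  have hc : Continuous fun b : ℝ => (gT T b : ℂ) *
      Complex.exp ((1 / 2 + t * Complex.I - 1 / 2) * b) := by
    have := hEV.d1.continuous
    fun_prop
  have hint : Integrable fun b : ℝ => (gT T b : ℂ) *
      Complex.exp ((1 / 2 + t * Complex.I - 1 / 2) * b) := by
    refine hc.integrable_of_hasCompactSupport ?_
    exact (hEV.hcs.comp_left (g := fun x : ℝ => (x : ℂ)) (by simp)).mul_right
  have h1 : (∫ b : ℝ, (gT T b : ℂ) * Complex.exp ((1 / 2 + t * Complex.I - 1 / 2) * b)).re =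
      ∫ b : ℝ, rho b * (Real.cos (T * b) * Real.cos (t * b)) := by
    have h2 := integral_re (𝕜 := ℂ) hint
    have h3 : RCLike.re (∫ b : ℝ, (gT T b : ℂ) *
        Complex.exp ((1 / 2 + t * Complex.I - 1 / 2) * b)) =
      (∫ b : ℝ, (gT T b : ℂ) * Complex.exp ((1 / 2 + t * Complex.I - 1 / 2) * b)).re := rfl
    rw [← h3, ← h2]
    refine integral_congr_ae (Eventually.of_forall fun b => ?_)
    simp only
    have h4 : (1 / 2 + (t : ℂ) * Complex.I - 1 / 2) * (b : ℂ) = ((t * b : ℝ) : ℂ) * Complex.I := by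
      push_cast; ring
    rw [h4]
    show ((gT T b : ℂ) * Complex.exp (((t * b : ℝ) : ℂ) * Complex.I)).re = _
    rw [Complex.re_ofReal_mul, Complex.exp_ofReal_mul_I_re]
    unfold gT
    ring
  rw [h1]
  have hA := integral_rho_cos_sq hT
  have hB : |(∫ b : ℝ, rho b * (Real.cos (T * b) * Real.cos (t * b))) -
      ∫ b : ℝ, rho b * (Real.cos (T * b) * Real.cos (T * b))| ≤ 1 / 10 := by
    rw [← integral_sub (integrable_rho_mul (by fun_prop)) (integrable_rho_mul (by fun_prop))]
    have h5 : ∀ b : ℝ, ‖rho b * (Real.cos (T * b) * Real.cos (t * b)) -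
        rho b * (Real.cos (T * b) * Real.cos (T * b))‖ ≤ 1 / 10 * (rho b * |b|) := by
      intro b
      have e1 : rho b * (Real.cos (T * b) * Real.cos (t * b)) -
        rho b * (Real.cos (T * b) * Real.cos (T * b)) =
        rho b * (Real.cos (T * b) * (Real.cos (t * b) - Real.cos (T * b))) := by ring
      rw [e1, norm_mul, norm_mul, Real.norm_eq_abs, Real.norm_eq_abs, Real.norm_eq_abs,
        abs_of_nonneg (rho_nonneg b)]
      have e2 : |Real.cos (t * b) - Real.cos (T * b)| ≤ 1 / 10 * |b| := by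
        have e3 := Real.abs_cos_sub_cos_le (t * b) (T * b)
        refine e3.trans ?_
        rw [← sub_mul, abs_mul]
        exact mul_le_mul_of_nonneg_right ht (abs_nonneg b)
      have e4 := Real.abs_cos_le_one (T * b)
      calc rho b * (|Real.cos (T * b)| * |Real.cos (t * b) - Real.cos (T * b)|) ≤
            rho b * (1 * (1 / 10 * |b|)) :=
            mul_le_mul_of_nonneg_left (mul_le_mul e4 e2 (abs_nonneg _) (by norm_num))
              (rho_nonneg b)
        _ = _ := by ring
    have h6 := norm_integral_le_of_norm_le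
      ((integrable_rho_mul continuous_abs).const_mul (1 / 10)) (Eventually.of_forall h5)
    rw [integral_const_mul] at h6
    have := integral_rho_abs_le
    rw [Real.norm_eq_abs] at h6
    linarith
  have := (abs_le.1 hB).1
  linarith

/-- The short-window kernel. -/
theorem exists_kernel : ∃ C : ℝ, 0 < C ∧ ∀ T : ℝ, 1 ≤ T → ∃ k : ℝ → ℝ, Ker k 1 ∧
    (∀ t : ℝ, |t - T| ≤ 1 / 10 → 1 / 5 ≤ ‖selb k (1 / 2 + t * Complex.I)‖) ∧
    (∀ z w : ℍ, |KK k z w| ≤ C * T) ∧
    (∀ z w : ℍ, ∀ q : ℝ, 0 < q → q ^ 4 = 2 * Real.cosh (dist z w) - 2 →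
      |KK k z w| ≤ C * √T / q) := by
  obtain ⟨B, hB, hEV⟩ := exists_EV
  refine ⟨2 * (B + 1), by linarith, fun T hT => ⟨kd (gT T), (hEV T hT).ker, ?_, ?_, ?_⟩⟩
  · intro t ht
    exact (selb_ge hT (hEV T hT) ht).trans (Complex.re_le_norm _)
  · have hT0 : 0 < T := by linarith
    have h1 : ∀ s : ℝ, 0 < s → |kas (gT T) s| ≤ 2 * (B + 1) * T := by
      intro s hs
      have h2 := ((hEV T hT).kas_bound hs (δ := 1 / T) (by positivity)).2
      refine h2.trans ?_
      have h3 : 2 * (1 : ℝ) * 1 * (B * T ^ 2 / 2 * (1 / T) + 1 / (1 / T)) = (B + 2) * T := by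
        field_simp
      rw [h3]
      exact mul_le_mul_of_nonneg_right (by linarith) hT0.le
    have h0 : |kas (gT T) 0| ≤ 2 * (B + 1) * T := by
      have hc := (hEV T hT).continuous_kas
      have h4 : Tendsto (fun s => |kas (gT T) s|) (𝓝[>] 0) (𝓝 |kas (gT T) 0|) :=
        (hc.abs.tendsto 0).mono_left nhdsWithin_le_nhds
      refine le_of_tendsto h4 ?_
      filter_upwards [self_mem_nhdsWithin] with s hs
      exact h1 s hs
    intro z w
    rw [KK_eq_kas]
    have h5 : 0 ≤ 2 * Real.cosh (dist z w) - 2 := by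
      have := Real.one_le_cosh (dist z w); linarith
    rcases h5.eq_or_lt with h6 | h6
    · rw [← h6]; exact h0
    · exact h1 _ h6
  · intro z w q hq hqs
    have hT0 : 0 < T := by linarith
    have hsT : 0 < √T := Real.sqrt_pos.2 hT0
    rw [KK_eq_kas, ← hqs]
    have h2 := ((hEV T hT).kas_bound (s := q ^ 4) (by positivity) (δ := q / √T)
      (by positivity)).1
    refine h2.trans ?_
    have h3 : √(q ^ 4) = q ^ 2 := by
      rw [show q ^ 4 = (q ^ 2) ^ 2 by ring, Real.sqrt_sq (by positivity)]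
    rw [h3]
    have h4 : T = √T * √T := (Real.mul_self_sqrt hT0.le).symm
    have h5 : 2 * (1 : ℝ) * 1 * (B * T / (2 * q ^ 2) * (q / √T) + 1 / (q / √T)) =
        (B + 2) * √T / q := by
      conv_lhs => rw [h4]
      rw [Real.sqrt_mul_self hsT.le]
      field_simp
    rw [h5]
    exact div_le_div_of_nonneg_right (mul_le_mul_of_nonneg_right (by linarith) hsT.le) hq.le

end Pool.Agent.H19.Maass
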