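import Mathlib
import Pool.Agent.H19.Maass.Kernel
import Pool.Agent.H19.Maass.CountSq

set_option autoImplicit false

namespace Pool.Agent.H19.Maass

open UpperHalfPlane
open scoped ENNReal MatrixGroups

/-- dyadic majorant of the kernel -/
noncomputable def ph (C T : ℝ) (L : ℕ) (s : ℝ) : ℝ≥0∞ :=
  ∑ j ∈ Finset.range (L + 1), ENNReal.ofReal (C * √T * 2 ^ j) * ic (s ≤ 6 / 16 ^ j)

lemma cosh_two_le : 2 * Real.cosh 2 - 2 ≤ 6 := by
  have h1 : Real.cosh 2 = (Real.exp 2 + Real.exp (-2)) / 2 := Real.cosh_eq 2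
  have h2 : Real.exp (-2) ≤ 1 / 7 := exp_neg_two_le
  have h3 : Real.exp 2 = Real.exp 1 * Real.exp 1 := by rw [← Real.exp_add]; norm_num
  have h4 : Real.exp 1 < 2.7182818286 := Real.exp_one_lt_d9
  have h5 : 0 < Real.exp 1 := Real.exp_pos 1
  rw [h1]
  nlinarith

theorem window_kernel : ∃ C : ℝ, 0 < C ∧ ∀ T : ℝ, 1 ≤ T → ∃ (L : ℕ) (k : ℝ → ℝ),
    √T ≤ 2 ^ L ∧ (2 : ℝ) ^ L ≤ 2 * √T ∧ Ker k 1 ∧
    (∀ t : ℝ, |t - T| ≤ 1 / 10 → 1 / 5 ≤ ‖selb k (1 / 2 + t * Complex.I)‖) ∧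
    (∀ z w : ℍ, ENNReal.ofReal |KK k z w| ≤ ph C T L (2 * Real.cosh (dist z w) - 2)) := by
  obtain ⟨C, hC, hker⟩ := exists_kernel
  refine ⟨2 * C, by positivity, fun T hT => ?_⟩
  obtain ⟨k, hk, hsel, hb1, hb2⟩ := hker T hT
  have hT0 : 0 < T := by linarith
  have hsT : 1 ≤ √T := by rw [Real.one_le_sqrt]; exact hT
  obtain ⟨n, hn1, hn2⟩ := exists_nat_pow_near hsT (by norm_num : (1 : ℝ) < 2)
  refine ⟨n + 1, k, hn2.le, by rw [pow_succ]; linarith, hk, hsel, fun z w => ?_⟩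
  set s := 2 * Real.cosh (dist z w) - 2 with hs
  have hs0 : 0 ≤ s := by have := Real.one_le_cosh (dist z w); linarith
  have hterm : ∀ j ∈ Finset.range (n + 1 + 1), s ≤ 6 / 16 ^ j →
      ENNReal.ofReal (2 * C * √T * 2 ^ j) ≤ ph (2 * C) T (n + 1) s := by
    intro j hj hsj
    unfold ph
    refine le_trans ?_ (Finset.single_le_sum (f := fun j : ℕ =>
      ENNReal.ofReal (2 * C * √T * 2 ^ j) * ic (s ≤ 6 / 16 ^ j)) (fun _ _ => zero_le) hj)
    rw [ic_true hsj, mul_one]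
  by_cases hd : 2 < dist z w
  · rw [KK_supp hk (by linarith)]
    simp
  rw [not_lt] at hd
  have hs6 : s ≤ 6 := by
    have h1 : Real.cosh (dist z w) ≤ Real.cosh 2 := by
      rw [Real.cosh_le_cosh, abs_of_nonneg dist_nonneg, abs_of_pos (by norm_num)]
      exact hd
    have := cosh_two_le
    linarith
  by_cases hlast : s ≤ 6 / 16 ^ (n + 1)
  · refine le_trans (ENNReal.ofReal_le_ofReal ?_) (hterm (n + 1) (by simp) hlast)
    refine (hb1 z w).trans ?_
    have h2 : T = √T * √T := (Real.mul_self_sqrt hT0.le).symm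
    calc C * T = C * √T * √T := by rw [mul_assoc, ← h2]
      _ ≤ C * √T * 2 ^ (n + 1) := mul_le_mul_of_nonneg_left hn2.le (by positivity)
      _ ≤ 2 * C * √T * 2 ^ (n + 1) := by
          have : 0 ≤ C * √T * 2 ^ (n + 1) := by positivity
          nlinarith
  · -- find the dyadic scale
    have hex : ∃ j, j ≤ n ∧ s ≤ 6 / 16 ^ j ∧ 6 / 16 ^ (j + 1) < s := by
      have hex0 : ∃ j, ¬ s ≤ 6 / 16 ^ j := ⟨n + 1, hlast⟩
      classical
      set j0 := Nat.find hex0 with hj0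
      have h1 := Nat.find_spec hex0
      have h2 : j0 ≤ n + 1 := Nat.find_min' hex0 hlast
      have h3 : j0 ≠ 0 := by
        intro h
        rw [← hj0, h] at h1
        apply h1; simpa using hs6
      obtain ⟨j, hj⟩ := Nat.exists_eq_succ_of_ne_zero h3
      refine ⟨j, by omega, ?_, ?_⟩
      · have := Nat.find_min hex0 (m := j) (by rw [← hj0, hj]; exact Nat.lt_succ_self j)
        exact not_not.1 this
      · rw [← hj0, hj] at h1
        exact not_le.1 h1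
    obtain ⟨j, hjn, hj1, hj2⟩ := hex
    refine le_trans (ENNReal.ofReal_le_ofReal ?_) (hterm j (by
      rw [Finset.mem_range]; omega) hj1)
    have hspos : 0 < s := lt_trans (by positivity) hj2
    set q := √(√s) with hq
    have hq0 : 0 < q := Real.sqrt_pos.2 (Real.sqrt_pos.2 hspos)
    have hq4 : q ^ 4 = s := by
      have e1 : q ^ 2 = √s := Real.sq_sqrt (Real.sqrt_nonneg s)
      calc q ^ 4 = (q ^ 2) ^ 2 := by ring
        _ = s := by rw [e1, Real.sq_sqrt hs0]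
    have hb := hb2 z w q hq0 hq4
    refine hb.trans ?_
    have hqj : 1 ≤ q * 2 ^ (j + 1) := by
      by_contra hlt
      rw [not_le] at hlt
      have h5 : (q * 2 ^ (j + 1)) ^ 4 < 1 := pow_lt_one₀ (by positivity) hlt (by norm_num)
      rw [mul_pow, hq4, ← pow_mul, mul_comm (j + 1) 4, pow_mul] at h5
      norm_num at h5
      have h6 : 6 / 16 ^ (j + 1) * (16 : ℝ) ^ (j + 1) < s * 16 ^ (j + 1) :=
        mul_lt_mul_of_pos_right hj2 (by positivity)
      rw [div_mul_cancel₀ _ (by positivity)] at h6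
      linarith
    rw [div_le_iff₀ hq0]
    calc C * √T = C * √T * 1 := by ring
      _ ≤ C * √T * (q * 2 ^ (j + 1)) := mul_le_mul_of_nonneg_left hqj (by positivity)
      _ = 2 * C * √T * 2 ^ j * q := by rw [pow_succ]; ring

lemma sqrt_six_div (j : ℕ) : √(6 / 16 ^ j) ≤ 5 / 2 * (1 / 4) ^ j := by
  rw [Real.sqrt_le_left (by positivity), mul_pow, ← pow_mul, mul_comm j 2, pow_mul]
  have : (6 : ℝ) / 16 ^ j = 6 * (((1 : ℝ) / 4) ^ 2) ^ j := by
    rw [div_eq_mul_inv, ← inv_pow]; norm_num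
  rw [this]
  have : 0 ≤ (((1 : ℝ) / 4) ^ 2) ^ j := by positivity
  nlinarith

lemma geom_two_le (L : ℕ) : ∑ j ∈ Finset.range (L + 1), (2 : ℝ) ^ j ≤ 2 * 2 ^ L := by
  rw [geom_sum_eq (by norm_num)]
  rw [pow_succ]
  have : (0 : ℝ) < 2 ^ L := by positivity
  linarith

lemma geom_half_le (L : ℕ) : ∑ j ∈ Finset.range (L + 1), (1 / 2 : ℝ) ^ j ≤ 2 := by
  rw [geom_sum_eq (by norm_num)]
  have : (0 : ℝ) < (1 / 2) ^ (L + 1) := by positivity
  rw [div_le_iff_of_neg (by norm_num)]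
  linarith

end Pool.Agent.H19.Maass
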