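import Mathlib
import Pool.Agent.H19.Maass.Eigen
import Pool.Agent.H19.Maass.Match
import Pool.Agent.H19.Maass.Window

set_option autoImplicit false

namespace Pool.Agent.H19.Maass

open MeasureTheory UpperHalfPlane ModularGroup
open scoped MatrixGroups Modular UpperHalfPlane ENNReal

open scoped ComplexConjugate

/-- the double sum over Hecke points -/
noncomputable def MM (φ : ℝ → ℝ≥0∞) (n m : ℕ) (z : ℍ) : ℝ≥0∞ :=
  ∑ x ∈ RR n, ∑ y ∈ RR m, ∑' σ : SL(2, ℤ),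
      φ (2 * Real.cosh (dist (hx n x z) (σ • hx m y z)) - 2)

lemma MM_comm (φ : ℝ → ℝ≥0∞) (n m : ℕ) (z : ℍ) : MM φ n m z = MM φ m n z := by
  unfold MM
  rw [Finset.sum_comm]
  refine Finset.sum_congr rfl fun y _ => Finset.sum_congr rfl fun x _ => ?_
  rw [← (Equiv.inv SL(2, ℤ)).tsum_eq]
  refine tsum_congr fun σ => ?_
  rw [Equiv.inv_apply, dist_sl', inv_inv, dist_comm]

/-- A normalised Hecke-Maass cusp form (with what is needed for the amplified inequality). -/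
structure Frm (T : ℝ) (U : ℂ → ℂ) (c : ℕ → ℂ) : Prop where
  eig : IsEig ((1 / 2 + T * Complex.I) * (1 - (1 / 2 + T * Complex.I))) U
  inv : ∀ (γ : SL(2, ℤ)) (w : ℍ), U ((γ • w : ℍ) : ℂ) = U w
  l2 : MemLp (fun w : ℍ => U w) 2 ((volume : Measure ℍ).restrict 𝒟)
  nrm : ∫ w : ℍ in 𝒟, U w * conj (U w) = 1
  heckeC : ∀ n : ℕ, 1 ≤ n → ∀ z : ℂ, 0 < z.im → ∑ d ∈ n.divisors, ∑ b ∈ Finset.range d,
    U ((((n / d : ℕ) : ℂ) * z + (b : ℂ)) / (d : ℂ)) = c n * U z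

lemma Frm.hecke {T : ℝ} {U : ℂ → ℂ} {c : ℕ → ℂ} (h : Frm T U c) (n : ℕ) (hn : 1 ≤ n) (z : ℍ) :
    ∑ x ∈ RR n, U (hx n x z) = c n * U z := by
  rw [← h.heckeC n hn z z.im_pos, RR, Finset.sum_sigma]
  refine Finset.sum_congr rfl fun d hd => Finset.sum_congr rfl fun b _ => ?_
  rw [Nat.mem_divisors] at hd
  have hd0 : 0 < d := Nat.pos_of_dvd_of_pos hd.1 hn
  unfold hx
  rw [coe_hp (Nat.div_pos (Nat.le_of_dvd hn hd.1) hd0) hd0]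

lemma Frm.continuous {T : ℝ} {U : ℂ → ℂ} {c : ℕ → ℂ} (h : Frm T U c) :
    Continuous fun w : ℍ => U w := continuous_coe_of h.eig.smooth.continuousOn

/-- the pairing of two automorphic kernels -/
lemma pair_le {k : ℝ → ℝ} {R : ℝ} (hk : Ker k R) (φ : ℝ → ℝ≥0∞)
    (hφ : ∀ z w : ℍ, ENNReal.ofReal |KK k z w| ≤ φ (2 * Real.cosh (dist z w) - 2)) (ζ ζ' : ℍ) :
    ENNReal.ofReal ‖∫ w in 𝒟, (pk k ζ' w : ℂ) * (pk k ζ w : ℂ)‖ ≤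
      2 * ∑' σ : SL(2, ℤ), φ (2 * Real.cosh (dist ζ (σ • ζ')) - 2) := by
  obtain ⟨S, hS⟩ := exists_finset_near ζ' ζ R R
  rw [integral_pk_mul_pk hk ζ ζ' hS]
  have h1 : (2 * ∑ σ ∈ S, (KK k ζ (σ⁻¹ • ζ') : ℂ)) =
      ((2 * ∑ σ ∈ S, KK k ζ (σ⁻¹ • ζ') : ℝ) : ℂ) := by push_cast; rfl
  rw [h1, Complex.norm_real, Real.norm_eq_abs, abs_mul, abs_of_pos (by norm_num : (0 : ℝ) < 2),
    ENNReal.ofReal_mul (by norm_num)]
  rw [show ENNReal.ofReal 2 = 2 by norm_num]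
  refine mul_le_mul_right ?_ 2
  calc ENNReal.ofReal |∑ σ ∈ S, KK k ζ (σ⁻¹ • ζ')|
      ≤ ENNReal.ofReal (∑ σ ∈ S, |KK k ζ (σ⁻¹ • ζ')|) :=
        ENNReal.ofReal_le_ofReal (Finset.abs_sum_le_sum_abs _ _)
    _ = ∑ σ ∈ S, ENNReal.ofReal |KK k ζ (σ⁻¹ • ζ')| :=
        ENNReal.ofReal_sum_of_nonneg fun _ _ => abs_nonneg _
    _ ≤ ∑ σ ∈ S, φ (2 * Real.cosh (dist ζ (σ⁻¹ • ζ')) - 2) :=
        Finset.sum_le_sum fun σ _ => hφ _ _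
    _ ≤ ∑' σ : SL(2, ℤ), φ (2 * Real.cosh (dist ζ (σ⁻¹ • ζ')) - 2) := ENNReal.sum_le_tsum _
    _ = _ := (Equiv.inv SL(2, ℤ)).tsum_eq
        (fun σ => φ (2 * Real.cosh (dist ζ (σ • ζ')) - 2))

/-- The amplified pre-trace inequality. -/
theorem amplified {k : ℝ → ℝ} {R : ℝ} (hk : Ker k R) (φ : ℝ → ℝ≥0∞)
    (hφ : ∀ z w : ℍ, ENNReal.ofReal |KK k z w| ≤ φ (2 * Real.cosh (dist z w) - 2))
    {J : Type*} [Fintype J] (T : J → ℝ) (U : J → ℂ → ℂ) (c : J → ℕ → ℂ)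
    (hF : ∀ j, Frm (T j) (U j) (c j))
    (horth : ∀ i j, i ≠ j → ∫ w : ℍ in 𝒟, U i w * conj (U j w) = 0)
    (hsel : ∀ j, 1 / 5 ≤ ‖selb k (1 / 2 + T j * Complex.I)‖)
    (𝒩 : Finset ℕ) (h𝒩 : ∀ n ∈ 𝒩, 1 ≤ n) (a : ℕ → ℂ) (z : ℍ) :
    ENNReal.ofReal (∑ j, ‖∑ n ∈ 𝒩, a n * c j n‖ ^ 2 * ‖U j z‖ ^ 2) ≤
      13 * ∑ n ∈ 𝒩, ∑ m ∈ 𝒩, ENNReal.ofReal (‖a n‖ * ‖a m‖) * MM φ n m z := by
  classical
  set I : Finset (Σ _ : ℕ, Σ _ : ℕ, ℕ) := 𝒩.sigma fun n => RR n with hI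
  set Φ : (Σ _ : ℕ, Σ _ : ℕ, ℕ) → (Σ _ : ℕ, Σ _ : ℕ, ℕ) → ℝ := fun i i' =>
    ‖∫ w in 𝒟, (pk k (hx i'.1 i'.2 z) w : ℂ) * (pk k (hx i.1 i.2 z) w : ℂ)‖ with hΦ
  have hb := bessel hk (fun j (w : ℍ) => U j w) (fun j => (hF j).continuous)
    (fun j γ w => (hF j).inv γ w) (fun j => (hF j).l2)
    (fun i j => by
      by_cases h : i = j
      · subst h; rw [if_pos rfl]; exact (hF i).nrm
      · rw [if_neg h]; exact horth i j h)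
    (fun j => selb k (1 / 2 + T j * Complex.I))
    (fun j z => selberg (hF j).eig hk z) I (fun i => a i.1) (fun i => hx i.1 i.2 z) Φ
    (fun i _ i' _ => le_refl _)
  have h1 : ∀ j, ∑ i ∈ I, a i.1 * U j (hx i.1 i.2 z) = (∑ n ∈ 𝒩, a n * c j n) * U j z := by
    intro j
    rw [hI, Finset.sum_sigma, Finset.sum_mul]
    refine Finset.sum_congr rfl fun n hn => ?_
    rw [mul_assoc, ← (hF j).hecke n (h𝒩 n hn) z, Finset.mul_sum]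
  have h2 : ∑ j, ‖∑ n ∈ 𝒩, a n * c j n‖ ^ 2 * ‖U j z‖ ^ 2 ≤
      25 / 4 * ∑ i ∈ I, ∑ i' ∈ I, ‖a i.1‖ * ‖a i'.1‖ * Φ i i' := by
    have : ∑ j, ‖∑ n ∈ 𝒩, a n * c j n‖ ^ 2 * ‖U j z‖ ^ 2 ≤
        25 / 4 * ∑ j, ‖2 * selb k (1 / 2 + T j * Complex.I) *
          ∑ i ∈ I, a i.1 * U j (hx i.1 i.2 z)‖ ^ 2 := by
      rw [Finset.mul_sum]
      refine Finset.sum_le_sum fun j _ => ?_
      rw [h1 j, norm_mul, norm_mul, norm_mul, Complex.norm_ofNat]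
      have h3 := hsel j
      set s := ‖selb k (1 / 2 + T j * Complex.I)‖
      set A := ‖∑ n ∈ 𝒩, a n * c j n‖
      set B := ‖U j z‖
      have h4 : (1 : ℝ) ≤ 25 * s ^ 2 := by nlinarith
      have h5 : 0 ≤ A ^ 2 * B ^ 2 := by positivity
      calc A ^ 2 * B ^ 2 ≤ 25 * s ^ 2 * (A ^ 2 * B ^ 2) := le_mul_of_one_le_left h5 h4
        _ = 25 / 4 * (2 * s * (A * B)) ^ 2 := by ring
    refine this.trans (mul_le_mul_of_nonneg_left hb (by norm_num))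
  refine (ENNReal.ofReal_le_ofReal h2).trans ?_
  rw [ENNReal.ofReal_mul (by norm_num), ENNReal.ofReal_sum_of_nonneg
    (fun i _ => Finset.sum_nonneg fun i' _ => by positivity)]
  have h6 : ∑ i ∈ I, ENNReal.ofReal (∑ i' ∈ I, ‖a i.1‖ * ‖a i'.1‖ * Φ i i') ≤
      2 * ∑ n ∈ 𝒩, ∑ m ∈ 𝒩, ENNReal.ofReal (‖a n‖ * ‖a m‖) * MM φ n m z := by
    have h7 : ∀ i i' : (Σ _ : ℕ, Σ _ : ℕ, ℕ), ENNReal.ofReal (‖a i.1‖ * ‖a i'.1‖ * Φ i i') ≤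
        2 * (ENNReal.ofReal (‖a i.1‖ * ‖a i'.1‖) * ∑' σ : SL(2, ℤ),
          φ (2 * Real.cosh (dist (hx i.1 i.2 z) (σ • hx i'.1 i'.2 z)) - 2)) := by
      intro i i'
      rw [ENNReal.ofReal_mul (by positivity)]
      refine (mul_le_mul_right (pair_le hk φ hφ _ _) _).trans (le_of_eq ?_)
      ring
    calc ∑ i ∈ I, ENNReal.ofReal (∑ i' ∈ I, ‖a i.1‖ * ‖a i'.1‖ * Φ i i')
        = ∑ i ∈ I, ∑ i' ∈ I, ENNReal.ofReal (‖a i.1‖ * ‖a i'.1‖ * Φ i i') := by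
          refine Finset.sum_congr rfl fun i _ => ?_
          exact ENNReal.ofReal_sum_of_nonneg fun i' _ => by positivity
      _ ≤ ∑ i ∈ I, ∑ i' ∈ I, 2 * (ENNReal.ofReal (‖a i.1‖ * ‖a i'.1‖) * ∑' σ : SL(2, ℤ),
          φ (2 * Real.cosh (dist (hx i.1 i.2 z) (σ • hx i'.1 i'.2 z)) - 2)) :=
          Finset.sum_le_sum fun i _ => Finset.sum_le_sum fun i' _ => h7 i i'
      _ = 2 * ∑ n ∈ 𝒩, ∑ m ∈ 𝒩, ENNReal.ofReal (‖a n‖ * ‖a m‖) * MM φ n m z := by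
          simp_rw [← Finset.mul_sum]
          congr 1
          rw [hI, Finset.sum_sigma]
          refine Finset.sum_congr rfl fun n _ => ?_
          simp_rw [Finset.sum_sigma]
          rw [Finset.sum_comm]
          refine Finset.sum_congr rfl fun m _ => ?_
          unfold MM
          simp_rw [Finset.mul_sum]
  refine (mul_le_mul_right h6 _).trans ?_
  rw [← mul_assoc]
  refine mul_le_mul_left ?_ _
  rw [show (2 : ℝ≥0∞) = ENNReal.ofReal 2 by norm_num, show (13 : ℝ≥0∞) = ENNReal.ofReal 13 by norm_num,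
    ← ENNReal.ofReal_mul (by norm_num)]
  exact ENNReal.ofReal_le_ofReal (by norm_num)

end Pool.Agent.H19.Maass
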