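import Mathlib
import Pool.Agent.H19.Maass.Defs
import Pool.Agent.H19.Maass.Amp

set_option autoImplicit false

namespace Pool.Agent.H19.Maass

open MeasureTheory UpperHalfPlane ModularGroup
open scoped MatrixGroups Modular UpperHalfPlane ENNReal

open scoped ComplexConjugate

/-- the standard fundamental domain as a set of complex numbers -/
def FD : Set ℂ := {z : ℂ | 0 < z.im ∧ |z.re| ≤ 1 / 2 ∧ 1 ≤ ‖z‖}

lemma mem_FD_iff (w : ℍ) : (w : ℂ) ∈ FD ↔ w ∈ 𝒟 := by
  have h := coe_fd
  constructor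
  · intro hw
    have : (w : ℂ) ∈ ((↑) '' 𝒟 : Set ℂ) := by
      rw [h]; exact ⟨hw.1, hw.2.2, hw.2.1⟩
    obtain ⟨w', hw', he⟩ := this
    rwa [UpperHalfPlane.ext he] at hw'
  · intro hw
    have : (w : ℂ) ∈ ((↑) '' 𝒟 : Set ℂ) := ⟨w, hw, rfl⟩
    rw [h] at this
    exact ⟨this.1, this.2.2, this.2.1⟩

lemma measurableSet_FD : MeasurableSet FD := by
  unfold FD
  refine MeasurableSet.inter ?_ (MeasurableSet.inter ?_ ?_)
  · exact measurableSet_lt measurable_const Complex.measurable_im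
  · exact measurableSet_le (Complex.measurable_re.abs) measurable_const
  · exact measurableSet_le measurable_const measurable_norm

section
variable {E : Type*} [NormedAddCommGroup E] [NormedSpace ℝ E]

omit [NormedSpace ℝ E] in
lemma indicator_coe (F : ℂ → E) (w : ℍ) :
    (𝒟 : Set ℍ).indicator (fun w : ℍ => F w) w = FD.indicator F w := by
  by_cases h : w ∈ 𝒟
  · rw [Set.indicator_of_mem h, Set.indicator_of_mem ((mem_FD_iff w).2 h)]
  · rw [Set.indicator_of_notMem h, Set.indicator_of_notMem (fun h' => h ((mem_FD_iff w).1 h'))]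

lemma smul_indicator (F : ℂ → E) (z : ℂ) :
    (1 / z.im ^ 2) • FD.indicator F z = FD.indicator (fun z => (1 / z.im ^ 2) • F z) z := by
  by_cases h : z ∈ FD
  · rw [Set.indicator_of_mem h, Set.indicator_of_mem h]
  · rw [Set.indicator_of_notMem h, Set.indicator_of_notMem h, smul_zero]

lemma FD_inter_UH : UH ∩ FD = FD := by
  ext z
  constructor
  · exact fun h => h.2
  · exact fun h => ⟨h.1, h⟩

lemma integral_fd (F : ℂ → E) :
    ∫ w : ℍ in 𝒟, F w = ∫ z in FD, (1 / z.im ^ 2) • F z := by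
  rw [← integral_indicator measurableSet_fd]
  simp_rw [indicator_coe F]
  rw [integral_H_eq (FD.indicator F)]
  simp_rw [smul_indicator F]
  rw [setIntegral_indicator measurableSet_FD, FD_inter_UH]

lemma integrable_fd (F : ℂ → E) :
    IntegrableOn (fun w : ℍ => F w) 𝒟 ↔ IntegrableOn (fun z => (1 / z.im ^ 2) • F z) FD := by
  rw [← integrable_indicator_iff measurableSet_fd]
  have h1 : (𝒟 : Set ℍ).indicator (fun w : ℍ => F w) = fun w : ℍ => FD.indicator F w :=
    funext fun w => indicator_coe F w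
  rw [h1, integrable_H_iff (FD.indicator F)]
  have h2 : (fun z : ℂ => (1 / z.im ^ 2) • FD.indicator F z) =
      FD.indicator (fun z => (1 / z.im ^ 2) • F z) := funext fun z => smul_indicator F z
  rw [h2, IntegrableOn, integrable_indicator_iff measurableSet_FD, IntegrableOn,
    Measure.restrict_restrict measurableSet_FD, Set.inter_comm, FD_inter_UH]
  exact Iff.rfl

end

/-- invariance under `SL₂(ℤ)` from the generators -/
lemma inv_of_gen {U : ℂ → ℂ} (h : ∀ z : ℂ, 0 < z.im → U (z + 1) = U z ∧ U (-z⁻¹) = U z)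
    (γ : SL(2, ℤ)) (w : ℍ) : U ((γ • w : ℍ) : ℂ) = U w := by
  have hγ : γ ∈ Subgroup.closure {S, T} := by
    rw [SpecialLinearGroup.SL2Z_generators]; trivial
  have hT : ∀ w : ℍ, U ((T • w : ℍ) : ℂ) = U w := by
    intro w
    have : ((T • w : ℍ) : ℂ) = w + 1 := by
      have := coe_T_zpow_smul_eq (z := w) (n := 1)
      simpa using this
    rw [this]
    exact (h w w.im_pos).1
  have hS : ∀ w : ℍ, U ((S • w : ℍ) : ℂ) = U w := by
    intro w
    have : ((S • w : ℍ) : ℂ) = -(w : ℂ)⁻¹ := by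
      rw [UpperHalfPlane.modular_S_smul]
      exact inv_neg
    rw [this]
    exact (h w w.im_pos).2
  induction hγ using Subgroup.closure_induction generalizing w with
  | mem x hx =>
    rcases hx with rfl | rfl
    · exact hS w
    · exact hT w
  | one => rw [one_smul]
  | mul x y _ _ hx hy => rw [mul_smul, hx, hy]
  | inv x _ hx => rw [← hx (x⁻¹ • w), smul_inv_smul]

lemma per_nat {U : ℂ → ℂ} (h : ∀ z : ℂ, 0 < z.im → U (z + 1) = U z) (b : ℕ) {z : ℂ}
    (hz : 0 < z.im) : U (z + b) = U z := by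
  induction b with
  | zero => simp
  | succ b ih =>
    rw [Nat.cast_succ, ← add_assoc, h (z + b) (by simpa using hz), ih]

lemma sum_range_sq (p : ℕ) (f : ℕ → ℂ) :
    ∑ b ∈ Finset.range (p ^ 2), f b =
      ∑ b ∈ Finset.range p, ∑ b' ∈ Finset.range p, f (b + p * b') := by
  rcases Nat.eq_zero_or_pos p with rfl | hp
  · simp
  rw [← Finset.sum_product']
  refine Finset.sum_nbij' (fun b => (b % p, b / p)) (fun x => x.1 + p * x.2) ?_ ?_ ?_ ?_ ?_
  · intro b hb
    rw [Finset.mem_range] at hb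
    rw [Finset.mem_product, Finset.mem_range, Finset.mem_range]
    exact ⟨Nat.mod_lt _ hp, Nat.div_lt_of_lt_mul (by rwa [← sq])⟩
  · intro x hx
    rw [Finset.mem_product, Finset.mem_range, Finset.mem_range] at hx
    rw [Finset.mem_range, sq]
    have : p * x.2 + p ≤ p * p := by nlinarith [hx.2]
    omega
  · intro b _
    exact Nat.mod_add_div b p
  · intro x hx
    rw [Finset.mem_product, Finset.mem_range, Finset.mem_range] at hx
    refine Prod.ext ?_ ?_
    · simp [Nat.mod_eq_of_lt hx.1]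
    · change (x.1 + p * x.2) / p = x.2
      rw [Nat.add_mul_div_left _ _ hp, Nat.div_eq_of_lt hx.1, zero_add]
  · intro b _
    rw [Nat.mod_add_div]

lemma hecke_rel {U : ℂ → ℂ} {c : ℕ → ℂ} (hper : ∀ z : ℂ, 0 < z.im → U (z + 1) = U z)
    (hH : ∀ n : ℕ, 1 ≤ n → ∀ z : ℂ, 0 < z.im → ∑ d ∈ n.divisors, ∑ b ∈ Finset.range d,
      U ((((n / d : ℕ) : ℂ) * z + (b : ℂ)) / (d : ℂ)) = c n * U z) {p : ℕ} (hp : p.Prime)
    {z : ℂ} (hz : 0 < z.im) : c p * (c p * U z) = (c (p ^ 2) + p) * U z := by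
  have hp0 : (p : ℂ) ≠ 0 := by exact_mod_cast hp.ne_zero
  have hp0r : (0 : ℝ) < p := by exact_mod_cast hp.pos
  have hTp : ∀ z : ℂ, 0 < z.im → c p * U z = U (p * z) +
      ∑ b ∈ Finset.range p, U ((z + b) / p) := by
    intro z hz
    rw [← hH p hp.pos z hz, hp.divisors, Finset.sum_pair hp.one_lt.ne, Nat.div_self hp.pos]
    simp
  have him1 : 0 < ((p : ℂ) * z).im := by
    simp only [Complex.mul_im, Complex.natCast_re, Complex.natCast_im, zero_mul, add_zero]
    positivity
  have him2 : ∀ b : ℕ, 0 < ((z + b) / p).im := by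
    intro b
    rw [Complex.div_natCast_im]
    simp only [Complex.add_im, Complex.natCast_im, add_zero]
    positivity
  rw [hTp z hz, mul_add, hTp _ him1, Finset.mul_sum]
  simp_rw [hTp _ (him2 _)]
  rw [Finset.sum_add_distrib]
  have h1 : ∀ b : ℕ, U ((p : ℂ) * ((z + b) / p)) = U z := by
    intro b
    rw [mul_div_cancel₀ _ hp0, per_nat hper b hz]
  simp_rw [h1]
  rw [Finset.sum_const, Finset.card_range, nsmul_eq_mul]
  have h2 := hH (p ^ 2) (Nat.pos_of_ne_zero (pow_ne_zero 2 hp.ne_zero)) z hz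
  have hdiv : (p ^ 2).divisors = {1, p, p ^ 2} := by
    rw [Nat.divisors_prime_pow hp]
    ext d
    simp only [Finset.mem_map, Finset.mem_range, Function.Embedding.coeFn_mk, Finset.mem_insert,
      Finset.mem_singleton]
    constructor
    · rintro ⟨k, hk, rfl⟩
      interval_cases k <;> simp
    · rintro (rfl | rfl | rfl)
      · exact ⟨0, by norm_num, by simp⟩
      · exact ⟨1, by norm_num, by simp⟩
      · exact ⟨2, by norm_num, rfl⟩
  have hpp2 : p ≠ p ^ 2 := by
    intro h; have := hp.one_lt; nlinarith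
  have h1p2 : 1 ≠ p ^ 2 := by
    intro h; have := hp.one_lt; nlinarith
  rw [hdiv, Finset.sum_insert (by
    simp only [Finset.mem_insert, Finset.mem_singleton, not_or]
    exact ⟨hp.one_lt.ne, h1p2⟩), Finset.sum_pair hpp2, Nat.div_self (pow_pos hp.pos 2),
    show p ^ 2 / p = p by rw [sq, Nat.mul_div_cancel _ hp.pos], sum_range_sq] at h2
  rw [add_mul, ← h2]
  have h3 : ∀ b b' : ℕ, U (((z + b) / p + b') / p) =
      U ((((1 : ℕ) : ℂ) * z + ((b + p * b' : ℕ) : ℂ)) / ((p ^ 2 : ℕ) : ℂ)) := by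
    intro b b'
    congr 1
    push_cast
    field_simp
    ring
  simp_rw [h3]
  simp only [Nat.div_one, Finset.range_one, Finset.sum_singleton, Nat.cast_zero, add_zero,
    Nat.cast_one, div_one]
  have h4 : (p : ℂ) * (p * z) = ((p ^ 2 : ℕ) : ℂ) * z := by push_cast; ring
  rw [h4]
  ring

lemma IsHeckeMaass.exists_frm {T : ℝ} {U : ℂ → ℂ} (h : IsHeckeMaass T U) :
    ∃ c : ℕ → ℂ, Frm T U c ∧ ∀ p : ℕ, p.Prime → c p ^ 2 = c (p ^ 2) + p := by
  have hc : ∀ n : ℕ, ∃ c : ℂ, 1 ≤ n → ∀ z : ℂ, 0 < z.im →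
      ∑ d ∈ n.divisors, ∑ b ∈ Finset.range d,
        U ((((n / d : ℕ) : ℂ) * z + (b : ℂ)) / (d : ℂ)) = c * U z := by
    intro n
    by_cases hn : 1 ≤ n
    · obtain ⟨c, hc⟩ := h.hecke n hn
      exact ⟨c, fun _ => hc⟩
    · exact ⟨0, fun h => absurd h hn⟩
  choose c hc using hc
  have hint : ∫ z in FD, (1 / z.im ^ 2) • ‖U z‖ ^ 2 = 1 := by
    refine Eq.trans ?_ h.normalised
    refine integral_congr_ae (Filter.Eventually.of_forall fun z => ?_)
    simp only [smul_eq_mul]
    ring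
  have hintble : IntegrableOn (fun z : ℂ => (1 / z.im ^ 2) • ‖U z‖ ^ 2) FD := by
    by_contra hcon
    rw [integral_undef hcon] at hint
    exact zero_ne_one hint
  have hcont : Continuous fun w : ℍ => U w := continuous_coe_of h.smooth.continuousOn
  have hl2 : MemLp (fun w : ℍ => U w) 2 ((volume : Measure ℍ).restrict 𝒟) := by
    rw [memLp_two_iff_integrable_sq_norm hcont.aestronglyMeasurable]
    exact (integrable_fd (fun z => ‖U z‖ ^ 2)).2 hintble
  have hnrm : ∫ w : ℍ in 𝒟, U w * conj (U w) = 1 := by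
    have h1 : ∀ w : ℍ, U w * conj (U w) = ((‖U w‖ ^ 2 : ℝ) : ℂ) := by
      intro w
      rw [Complex.mul_conj, Complex.normSq_eq_norm_sq]
    simp_rw [h1]
    rw [integral_complex_ofReal, integral_fd (fun z => ‖U z‖ ^ 2), hint, Complex.ofReal_one]
  have hne : ∃ z : ℂ, 0 < z.im ∧ U z ≠ 0 := by
    by_contra hcon
    push Not at hcon
    have : ∫ w : ℍ in 𝒟, U w * conj (U w) = 0 := by
      refine integral_eq_zero_of_ae (Filter.Eventually.of_forall fun w => ?_)
      simp [hcon w w.im_pos]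
    rw [hnrm] at this
    exact one_ne_zero this
  refine ⟨c, ⟨⟨h.smooth, ?_⟩, inv_of_gen h.modular, hl2, hnrm, hc⟩, ?_⟩
  · intro z hz
    have h1 := h.laplace z hz
    have h2 := deriv2_line h.smooth hz 1
    have h3 := deriv2_line h.smooth hz Complex.I
    simp only [mul_one] at h2
    rw [h2, h3] at h1
    have h4 : (1 / 2 + (T : ℂ) * Complex.I) * (1 - (1 / 2 + T * Complex.I)) = 1 / 4 + T ^ 2 := by
      have : Complex.I ^ 2 = -1 := Complex.I_sq
      linear_combination (-(T : ℂ) ^ 2) * this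
    rw [h4, neg_mul, ← h1]
    ring
  · intro p hp
    obtain ⟨z, hz, hUz⟩ := hne
    have h1 := hecke_rel (fun z hz => (h.modular z hz).1) hc hp hz
    rw [← mul_assoc] at h1
    have := mul_right_cancel₀ hUz h1
    rw [sq, this]

end Pool.Agent.H19.Maass
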