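import Mathlib
import Pool.Agent.H19.Maass.Amp

set_option autoImplicit false

namespace Pool.Agent.H19.Maass

open MeasureTheory UpperHalfPlane ModularGroup
open scoped MatrixGroups Modular UpperHalfPlane ENNReal

/-- weighted count of integral matrices of given determinant -/
noncomputable def ct (φ : ℝ → ℝ≥0∞) (n : ℤ) (z : ℍ) : ℝ≥0∞ :=
  ∑' β : Z4, ic (det4 β = n) * φ (sf4 β z)

lemma sum_ct_ph {ι : Type*} (I : Finset ι) (ν : ι → ℤ) (C T : ℝ) (L : ℕ) (z : ℍ) :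
    ∑ i ∈ I, ct (ph C T L) (ν i) z = ∑ j ∈ Finset.range (L + 1), ENNReal.ofReal (C * √T * 2 ^ j) *
      ∑ i ∈ I, ∑' β : Z4, ic (det4 β = ν i ∧ sf4 β z ≤ 6 / 16 ^ j) := by
  simp_rw [Finset.mul_sum]
  rw [Finset.sum_comm]
  refine Finset.sum_congr rfl fun i _ => ?_
  unfold ct ph
  simp_rw [Finset.mul_sum]
  rw [Summable.tsum_finsetSum (fun _ _ => ENNReal.summable)]
  refine Finset.sum_congr rfl fun j _ => ?_
  rw [← ENNReal.tsum_mul_left]
  refine tsum_congr fun β => ?_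
  rw [ic_and]
  ring

lemma sum_scale_le {C T : ℝ} (hC : 0 ≤ C) {L : ℕ} (hT : 1 ≤ T) (hL : (2 : ℝ) ^ L ≤ 2 * √T)
    {A B D : ℝ} (hA : 0 ≤ A) (hB : 0 ≤ B) (hD : 0 ≤ D) (f : ℕ → ℝ≥0∞)
    (hf : ∀ j, f j ≤ ENNReal.ofReal (A + B * √(6 / 16 ^ j) + D * (6 / 16 ^ j))) :
    ∑ j ∈ Finset.range (L + 1), ENNReal.ofReal (C * √T * 2 ^ j) * f j ≤
      ENNReal.ofReal (12 * C * (A * T + B * √T + D * √T)) := by
  have hT0 : 0 ≤ √T := Real.sqrt_nonneg T
  have hTT : √T * √T = T := Real.mul_self_sqrt (by linarith)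
  have h1 : ∀ j ∈ Finset.range (L + 1), ENNReal.ofReal (C * √T * 2 ^ j) * f j ≤
      ENNReal.ofReal (C * √T * (A * 2 ^ j + 5 / 2 * B * (1 / 2) ^ j + 6 * D * (1 / 2) ^ j)) := by
    intro j _
    refine (mul_le_mul_right (hf j) _).trans ?_
    rw [← ENNReal.ofReal_mul (by positivity)]
    refine ENNReal.ofReal_le_ofReal ?_
    rw [mul_assoc]
    refine mul_le_mul_of_nonneg_left ?_ (by positivity)
    have h2 := sqrt_six_div j
    have h3 : (2 : ℝ) ^ j * (1 / 4) ^ j = (1 / 2) ^ j := by rw [← mul_pow]; norm_num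
    have h4 : (2 : ℝ) ^ j * (6 / 16 ^ j) ≤ 6 * (1 / 2) ^ j := by
      have h5 : (2 : ℝ) ^ j * (6 / 16 ^ j) = 6 * (1 / 8) ^ j := by
        have : (2 : ℝ) ^ j * (1 / 16) ^ j = (1 / 8) ^ j := by rw [← mul_pow]; norm_num
        rw [← this, div_pow, one_pow]; ring
      rw [h5]
      refine mul_le_mul_of_nonneg_left ?_ (by norm_num)
      exact pow_le_pow_left₀ (by norm_num) (by norm_num) _
    have h6 : (2 : ℝ) ^ j * (B * √(6 / 16 ^ j)) ≤ 5 / 2 * B * (1 / 2) ^ j := by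
      rw [← h3]
      calc (2 : ℝ) ^ j * (B * √(6 / 16 ^ j)) ≤ (2 : ℝ) ^ j * (B * (5 / 2 * (1 / 4) ^ j)) := by
            gcongr
        _ = _ := by ring
    have h7 : (2 : ℝ) ^ j * (D * (6 / 16 ^ j)) ≤ 6 * D * (1 / 2) ^ j := by
      calc (2 : ℝ) ^ j * (D * (6 / 16 ^ j)) = D * ((2 : ℝ) ^ j * (6 / 16 ^ j)) := by ring
        _ ≤ D * (6 * (1 / 2) ^ j) := mul_le_mul_of_nonneg_left h4 hD
        _ = _ := by ring
    calc (2 : ℝ) ^ j * (A + B * √(6 / 16 ^ j) + D * (6 / 16 ^ j))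
        = A * 2 ^ j + (2 : ℝ) ^ j * (B * √(6 / 16 ^ j)) + (2 : ℝ) ^ j * (D * (6 / 16 ^ j)) := by
          ring
      _ ≤ _ := by linarith
  refine (Finset.sum_le_sum h1).trans ?_
  rw [← ENNReal.ofReal_sum_of_nonneg (fun j _ => by positivity)]
  refine ENNReal.ofReal_le_ofReal ?_
  rw [← Finset.mul_sum, Finset.sum_add_distrib, Finset.sum_add_distrib, ← Finset.mul_sum,
    ← Finset.mul_sum, ← Finset.mul_sum]
  have h8 := geom_two_le L
  have h9 := geom_half_le L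
  calc C * √T * (A * ∑ j ∈ Finset.range (L + 1), (2 : ℝ) ^ j +
        5 / 2 * B * ∑ j ∈ Finset.range (L + 1), (1 / 2 : ℝ) ^ j +
        6 * D * ∑ j ∈ Finset.range (L + 1), (1 / 2 : ℝ) ^ j)
      ≤ C * √T * (A * (4 * √T) + 5 / 2 * B * 2 + 6 * D * 2) := by
        gcongr
        linarith
    _ = C * (4 * A * (√T * √T) + 5 * (B * √T) + 12 * (D * √T)) := by ring
    _ ≤ 12 * C * (A * T + B * √T + D * √T) := by
        rw [hTT]
        have e1 : 0 ≤ A * T := by positivity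
        have e2 : 0 ≤ B * √T := by positivity
        have e3 : 0 ≤ D * √T := by positivity
        nlinarith

/-- weighted counts for the linear amplifier -/
theorem ph_count_p (z : ℍ) (hx : |z.re| ≤ 1 / 2) (hy : 1 / 2 ≤ z.im) {Y : ℝ} (hY : z.im ≤ Y)
    {N : ℝ} (hN : 1 ≤ N) {p : ℕ} (hp : p.Prime) (hp1 : N ≤ p) (hp2 : p ≤ 4 * N)
    (Q : Finset ℕ) (hQ : ∀ q ∈ Q, 1 ≤ q ∧ (q : ℝ) ≤ 4 * N)
    {C T : ℝ} (hC : 0 ≤ C) {L : ℕ} (hT : 1 ≤ T) (hL : (2 : ℝ) ^ L ≤ 2 * √T) :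
    ∑ q ∈ Q, ct (ph C T L) (p * q) z ≤
      ENNReal.ofReal (100000000 * C * (1 + Y) * (N * (T + √T * N ^ 2))) := by
  have hY0 : 0 < Y := lt_of_lt_of_le z.im_pos hY
  have hT0 : 0 ≤ √T := Real.sqrt_nonneg T
  rw [sum_ct_ph Q (fun q => (p : ℤ) * q) C T L z]
  refine (sum_scale_le (A := 161 * N * 130 * (5 + 8 * Y)) (B := 0)
    (D := 161 * N * 130 * (4 + 136 * Y) * N ^ 2) hC hT hL (by positivity) le_rfl
    (by positivity) _ fun j => ?_).trans ?_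
  · refine (count_p z hx hy hY hN hp hp1 hp2 Q hQ (S := 6 / 16 ^ j) (by positivity) ?_).trans ?_
    · exact div_le_self (by norm_num) (one_le_pow₀ (by norm_num))
    · refine ENNReal.ofReal_le_ofReal ?_
      set r := √(6 / 16 ^ j) with hr
      have hr0 : 0 ≤ r := Real.sqrt_nonneg _
      have hr2 : r ^ 2 = 6 / 16 ^ j := Real.sq_sqrt (by positivity)
      rw [← hr2]
      have hN0 : 0 < N := by linarith
      have h1 : (8 * (r * N) + 1) * ((16 * (r * N) * Y + 1)) ≤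
          (5 + 8 * Y) + (4 + 136 * Y) * (r * N) ^ 2 := by
        have h2 : 2 * (r * N) ≤ 1 + (r * N) ^ 2 := by nlinarith [sq_nonneg (r * N - 1)]
        have h3 : (16 * Y + 8) * (r * N) ≤ (8 * Y + 4) * (1 + (r * N) ^ 2) := by nlinarith
        nlinarith
      calc 161 * N * ((8 * (r * N) + 1) * ((16 * (r * N) * Y + 1) * 130))
          = 161 * N * 130 * ((8 * (r * N) + 1) * ((16 * (r * N) * Y + 1))) := by ring
        _ ≤ 161 * N * 130 * ((5 + 8 * Y) + (4 + 136 * Y) * (r * N) ^ 2) :=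
            mul_le_mul_of_nonneg_left h1 (by positivity)
        _ = _ := by ring
  · refine ENNReal.ofReal_le_ofReal ?_
    have e1 : 0 ≤ C * N * T := by positivity
    have e2 : 0 ≤ C * N ^ 3 * √T := by positivity
    have e3 : 0 ≤ C * N * T * Y := by positivity
    have e4 : 0 ≤ C * N ^ 3 * √T * Y := by positivity
    nlinarith

/-- weighted counts for square determinants -/
theorem ph_count_sq (ε : ℝ) (hε : 0 < ε) : ∃ C' : ℝ, 0 < C' ∧ ∀ (z : ℍ), |z.re| ≤ 1 / 2 →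
    1 / 2 ≤ z.im → ∀ (C T : ℝ), 0 ≤ C → ∀ L : ℕ, 1 ≤ T → (2 : ℝ) ^ L ≤ 2 * √T →
    ∀ X : ℕ, 1 ≤ X → ∑ D ∈ Finset.Icc 1 X, ct (ph C T L) ((D : ℤ) ^ 2) z ≤
      ENNReal.ofReal (C' * C * (X * (X : ℝ) ^ ε) * (T + √T * X ^ 2 + √T * X * z.im)) := by
  obtain ⟨C', hC', hcount⟩ := count_sq ε hε
  refine ⟨24 * C', by positivity, ?_⟩
  intro z hx hy C T hC L hT hL X hX
  have hX0 : (0 : ℝ) ≤ X := Nat.cast_nonneg X
  have hT0 : 0 ≤ √T := Real.sqrt_nonneg T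
  have hXe : 0 ≤ (X : ℝ) ^ ε := Real.rpow_nonneg hX0 ε
  have hy0 := z.im_pos
  rw [sum_ct_ph (Finset.Icc 1 X) (fun D => (D : ℤ) ^ 2) C T L z]
  refine (sum_scale_le (A := C' * (X * (X : ℝ) ^ ε) * 2) (B := C' * (X * (X : ℝ) ^ ε) * (X * z.im))
    (D := C' * (X * (X : ℝ) ^ ε) * (2 * X ^ 2)) hC hT hL (by positivity) (by positivity)
    (by positivity) _ fun j => ?_).trans ?_
  · refine (hcount z hx hy (6 / 16 ^ j) (by positivity) ?_ X hX).trans ?_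
    · exact div_le_self (by norm_num) (one_le_pow₀ (by norm_num))
    · refine ENNReal.ofReal_le_ofReal ?_
      set r := √(6 / 16 ^ j) with hr
      have hr0 : 0 ≤ r := Real.sqrt_nonneg _
      have hr2 : r ^ 2 = 6 / 16 ^ j := Real.sq_sqrt (by positivity)
      rw [← hr2]
      have h1 : (1 + r * X) ^ 2 ≤ 2 + 2 * (r * X) ^ 2 := by nlinarith [sq_nonneg (r * X - 1)]
      calc C' * (X * (X : ℝ) ^ ε * ((1 + r * X) ^ 2 + r * X * z.im))
          = C' * (X * (X : ℝ) ^ ε) * ((1 + r * X) ^ 2 + r * X * z.im) := by ring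
        _ ≤ C' * (X * (X : ℝ) ^ ε) * ((2 + 2 * (r * X) ^ 2) + r * X * z.im) := by
            refine mul_le_mul_of_nonneg_left ?_ (by positivity)
            linarith
        _ = _ := by ring
  · refine ENNReal.ofReal_le_ofReal ?_
    have e1 : 0 ≤ C' * C * (X * (X : ℝ) ^ ε) := by positivity
    have e2 : 0 ≤ C' * C * (X * (X : ℝ) ^ ε) * (√T * X * z.im) := by positivity
    nlinarith

/-- the determinant one term -/
theorem ph_count_one : ∃ C' : ℝ, 0 < C' ∧ ∀ (z : ℍ), |z.re| ≤ 1 / 2 →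
    1 / 2 ≤ z.im → ∀ (C T : ℝ), 0 ≤ C → ∀ L : ℕ, 1 ≤ T → (2 : ℝ) ^ L ≤ 2 * √T →
    ct (ph C T L) 1 z ≤ ENNReal.ofReal (C' * C * (T + √T * z.im)) := by
  obtain ⟨C', hC', h⟩ := ph_count_sq 1 one_pos
  refine ⟨2 * C', by positivity, fun z hx hy C T hC L hT hL => ?_⟩
  have h1 := h z hx hy C T hC L hT hL 1 le_rfl
  simp only [Finset.Icc_self, Finset.sum_singleton, Nat.cast_one, one_pow, mul_one,
    Real.one_rpow] at h1
  refine h1.trans (ENNReal.ofReal_le_ofReal ?_)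
  have h2 : √T ≤ T := by
    rw [Real.sqrt_le_left (by linarith)]
    nlinarith
  have hy0 := z.im_pos
  have e1 : 0 ≤ C' * C := by positivity
  have e2 : 0 ≤ √T * z.im := by positivity
  nlinarith

end Pool.Agent.H19.Maass
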