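import Mathlib
import Pool.Agent.H19.Maass.Sum

set_option autoImplicit false

namespace Pool.Agent.H19.Maass

open MeasureTheory UpperHalfPlane ModularGroup
open scoped MatrixGroups Modular UpperHalfPlane ENNReal

/-- the primes in `(N, 4N]` -/
def PR (N : ℕ) : Finset ℕ := (Finset.Ioc N (4 * N)).filter Nat.Prime

lemma mem_PR {N p : ℕ} : p ∈ PR N ↔ (N < p ∧ p ≤ 4 * N) ∧ p.Prime := by
  unfold PR; rw [Finset.mem_filter, Finset.mem_Ioc]

lemma card_PR_le (N : ℕ) : (PR N).card ≤ 3 * N := by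
  unfold PR
  refine (Finset.card_filter_le _ _).trans ?_
  rw [Nat.card_Ioc]; omega

lemma tsum_ic_eq {φ : ℝ → ℝ≥0∞} {P : Z4 → Prop} {n : ℤ} {z : ℍ}
    (h : ∀ β, P β → det4 β = n) : ∑' β : Z4, ic (P β) * φ (sf4 β z) ≤ ct φ n z := by
  unfold ct
  refine ENNReal.tsum_le_tsum fun β => ?_
  gcongr
  exact ic_mono (h β)

lemma tsum_ic_zero {φ : ℝ → ℝ≥0∞} {P : Z4 → Prop} {z : ℍ}
    (h : ∀ β, ¬ P β) : ∑' β : Z4, ic (P β) * φ (sf4 β z) = 0 := by
  rw [ENNReal.tsum_eq_zero]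
  intro β
  rw [ic_false (h β), zero_mul]

lemma MM_prime_le (φ : ℝ → ℝ≥0∞) {p q : ℕ} (hp : p.Prime) (hq : q.Prime) (z : ℍ) :
    MM φ p q z ≤ 2 * (ct φ (p * q) z + if q = p then (p : ℝ≥0∞) * ct φ 1 z else 0) := by
  have hp0 : (p : ℤ) ≠ 0 := by exact_mod_cast hp.ne_zero
  have h1 := match_le hp.pos hq.pos z φ
  unfold MM
  refine h1.trans ?_
  rw [hp.divisors, Finset.card_pair hp.one_lt.ne, Finset.sum_pair hp.one_lt.ne]
  push_cast
  refine mul_le_mul_right ?_ 2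
  rw [one_mul]
  refine add_le_add (tsum_ic_eq fun β h => by simpa using h) ?_
  by_cases hqp : q = p
  · rw [if_pos hqp]
    refine mul_le_mul_right ?_ _
    refine tsum_ic_eq fun β h => ?_
    rw [hqp, sq] at h
    have h2 : (p : ℤ) * p * det4 β = p * p * 1 := by rw [h]; ring
    exact mul_left_cancel₀ (mul_ne_zero hp0 hp0) h2
  · rw [if_neg hqp]
    rw [tsum_ic_zero, mul_zero]
    intro β h
    have h2 : (p : ℤ) * (p * det4 β) = p * q := by rw [← h]; ring
    have h3 : (p : ℤ) * det4 β = q := mul_left_cancel₀ hp0 h2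
    have h4 : (p : ℤ) ∣ q := ⟨_, h3.symm⟩
    have h5 : p ∣ q := by exact_mod_cast h4
    exact hqp ((Nat.prime_dvd_prime_iff_eq hp hq).1 h5).symm

theorem row_p : ∃ C' : ℝ, 0 < C' ∧ ∀ (z : ℍ), |z.re| ≤ 1 / 2 → 1 / 2 ≤ z.im →
    ∀ (C T : ℝ), 0 ≤ C → ∀ L : ℕ, 1 ≤ T → (2 : ℝ) ^ L ≤ 2 * √T → ∀ N : ℕ, 1 ≤ N →
    ∀ p ∈ PR N, ∑ q ∈ PR N, MM (ph C T L) p q z ≤
      ENNReal.ofReal (C' * C * (1 + z.im) * (N * (T + √T * N ^ 2))) := by
  obtain ⟨C₁, hC₁, h1⟩ := ph_count_one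
  refine ⟨200000000 + 8 * C₁, by positivity, ?_⟩
  intro z hx hy C T hC L hT hL N hN p hp
  rw [mem_PR] at hp
  obtain ⟨⟨hp1, hp2⟩, hpp⟩ := hp
  have hNr : (1 : ℝ) ≤ N := by exact_mod_cast hN
  have hp1r : (N : ℝ) ≤ p := by exact_mod_cast hp1.le
  have hp2r : (p : ℝ) ≤ 4 * N := by exact_mod_cast hp2
  have hT0 : 0 ≤ √T := Real.sqrt_nonneg T
  have hy0 := z.im_pos
  have hsum : ∑ q ∈ PR N, MM (ph C T L) p q z ≤
      2 * (∑ q ∈ PR N, ct (ph C T L) (p * q) z + (p : ℝ≥0∞) * ct (ph C T L) 1 z) := by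
    calc ∑ q ∈ PR N, MM (ph C T L) p q z
        ≤ ∑ q ∈ PR N, 2 * (ct (ph C T L) (p * q) z +
            if q = p then (p : ℝ≥0∞) * ct (ph C T L) 1 z else 0) :=
          Finset.sum_le_sum fun q hq => MM_prime_le _ hpp (mem_PR.1 hq).2 z
      _ = 2 * (∑ q ∈ PR N, ct (ph C T L) (p * q) z + ∑ q ∈ PR N,
            if q = p then (p : ℝ≥0∞) * ct (ph C T L) 1 z else 0) := by
          rw [← Finset.mul_sum, Finset.sum_add_distrib]
      _ ≤ _ := by
          refine mul_le_mul_right (add_le_add le_rfl ?_) 2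
          rw [Finset.sum_ite_eq']
          split_ifs
          · exact le_rfl
          · exact zero_le
  refine hsum.trans ?_
  have h2 := ph_count_p z hx hy (Y := z.im) le_rfl hNr hpp hp1r hp2r (PR N)
    (fun q hq => by
      obtain ⟨⟨h3, h4⟩, _⟩ := mem_PR.1 hq
      exact ⟨by omega, by exact_mod_cast h4⟩) hC hT hL
  have h3 := h1 z hx hy C T hC L hT hL
  calc 2 * (∑ q ∈ PR N, ct (ph C T L) (p * q) z + (p : ℝ≥0∞) * ct (ph C T L) 1 z)
      ≤ ENNReal.ofReal 2 * (ENNReal.ofReal (100000000 * C * (1 + z.im) * (N * (T + √T * N ^ 2))) +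
          ENNReal.ofReal (4 * N) * ENNReal.ofReal (C₁ * C * (T + √T * z.im))) := by
        rw [show (2 : ℝ≥0∞) = ENNReal.ofReal 2 by norm_num]
        refine mul_le_mul_right (add_le_add h2 (mul_le_mul' ?_ h3)) _
        rw [← ENNReal.ofReal_natCast]
        exact ENNReal.ofReal_le_ofReal hp2r
    _ = ENNReal.ofReal (2 * (100000000 * C * (1 + z.im) * (N * (T + √T * N ^ 2)) +
          4 * N * (C₁ * C * (T + √T * z.im)))) := by
        rw [← ENNReal.ofReal_mul (by positivity), ← ENNReal.ofReal_add (by positivity)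
          (by positivity), ← ENNReal.ofReal_mul (by positivity)]
    _ ≤ _ := by
        refine ENNReal.ofReal_le_ofReal ?_
        have hsT : √T ≤ T := by
          rw [Real.sqrt_le_left (by linarith)]
          nlinarith
        have e1 : T + √T * z.im ≤ (1 + z.im) * T := by nlinarith
        have e2 : (1 + z.im) * T ≤ (1 + z.im) * (T + √T * N ^ 2) := by
          have : 0 ≤ √T * (N : ℝ) ^ 2 := by positivity
          nlinarith
        have e3 : 4 * (N : ℝ) * (C₁ * C * (T + √T * z.im)) ≤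
            4 * N * (C₁ * C * ((1 + z.im) * (T + √T * N ^ 2))) := by
          gcongr
          exact e1.trans e2
        calc 2 * (100000000 * C * (1 + z.im) * (N * (T + √T * N ^ 2)) +
              4 * N * (C₁ * C * (T + √T * z.im)))
            ≤ 2 * (100000000 * C * (1 + z.im) * (N * (T + √T * N ^ 2)) +
              4 * N * (C₁ * C * ((1 + z.im) * (T + √T * N ^ 2)))) := by linarith
          _ = _ := by ring

lemma divisors_sq {p : ℕ} (hp : p.Prime) : (p ^ 2).divisors = {1, p, p ^ 2} := by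
  rw [Nat.divisors_prime_pow hp]
  ext d
  simp only [Finset.mem_map, Finset.mem_range, Function.Embedding.coeFn_mk, Finset.mem_insert,
    Finset.mem_singleton]
  constructor
  · rintro ⟨k, hk, rfl⟩
    interval_cases k <;> simp
  · rintro (rfl | rfl | rfl)
    · exact ⟨0, by norm_num, by simp⟩
    · exact ⟨1, by norm_num, by simp⟩
    · exact ⟨2, by norm_num, rfl⟩

lemma MM_sq_le (φ : ℝ → ℝ≥0∞) {p q : ℕ} (hp : p.Prime) (hq : q.Prime) (z : ℍ) :
    MM φ (p ^ 2) (q ^ 2) z ≤ 3 * (ct φ (((p * q : ℕ) : ℤ) ^ 2) z + (p : ℝ≥0∞) * ct φ ((q : ℤ) ^ 2) z +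
      if q = p then (p : ℝ≥0∞) ^ 2 * ct φ 1 z else 0) := by
  have hp0 : (p : ℤ) ≠ 0 := by exact_mod_cast hp.ne_zero
  have hpp2 : p ≠ p ^ 2 := by
    intro h; have := hp.one_lt; nlinarith
  have h1p2 : 1 ≠ p ^ 2 := by
    intro h; have := hp.one_lt; nlinarith
  have h1 := match_le (pow_pos hp.pos 2) (pow_pos hq.pos 2) z φ
  unfold MM
  refine h1.trans ?_
  have hd := divisors_sq hp
  rw [hd]
  have hcard : ({1, p, p ^ 2} : Finset ℕ).card = 3 := by
    rw [Finset.card_insert_of_notMem, Finset.card_pair hpp2]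
    simp only [Finset.mem_insert, Finset.mem_singleton, not_or]
    exact ⟨hp.one_lt.ne, h1p2⟩
  rw [hcard, Finset.sum_insert (by
    simp only [Finset.mem_insert, Finset.mem_singleton, not_or]
    exact ⟨hp.one_lt.ne, h1p2⟩), Finset.sum_pair hpp2]
  rw [← add_assoc]
  push_cast
  refine mul_le_mul_right ?_ 3
  rw [one_mul]
  refine add_le_add (add_le_add (tsum_ic_eq fun β h => by
    rw [one_mul] at h; rw [h]; ring) ?_) ?_
  · refine mul_le_mul_right ?_ _
    refine tsum_ic_eq fun β h => ?_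
    exact mul_left_cancel₀ (pow_ne_zero 2 hp0) h
  · by_cases hqp : q = p
    · rw [if_pos hqp]
      refine mul_le_mul_right ?_ _
      refine tsum_ic_eq fun β h => ?_
      rw [hqp] at h
      have h2 : ((p : ℤ) ^ 2) ^ 2 * det4 β = ((p : ℤ) ^ 2) ^ 2 * 1 := by rw [h]; ring
      exact mul_left_cancel₀ (pow_ne_zero 2 (pow_ne_zero 2 hp0)) h2
    · rw [if_neg hqp]
      rw [tsum_ic_zero, mul_zero]
      intro β h
      have h2 : (p : ℤ) ^ 2 * (p ^ 2 * det4 β) = p ^ 2 * q ^ 2 := by rw [← h]; ring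
      have h3 : (p : ℤ) ^ 2 * det4 β = q ^ 2 := mul_left_cancel₀ (pow_ne_zero 2 hp0) h2
      have h4 : (p : ℤ) ∣ q ^ 2 := ⟨p * det4 β, by rw [← h3]; ring⟩
      have h5 : p ∣ q ^ 2 := by exact_mod_cast h4
      exact hqp ((Nat.prime_dvd_prime_iff_eq hp hq).1 (hp.dvd_of_dvd_pow h5)).symm

/-- products of two primes: at most two representations -/
lemma sum_prod_le (N : ℕ) (f : ℕ → ℝ≥0∞) :
    ∑ p ∈ PR N, ∑ q ∈ PR N, f (p * q) ≤ 2 * ∑ D ∈ Finset.Icc 1 (16 * N ^ 2), f D := by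
  classical
  rw [← Finset.sum_product']
  have hmaps : ∀ x ∈ PR N ×ˢ PR N, x.1 * x.2 ∈ Finset.Icc 1 (16 * N ^ 2) := by
    intro x hx
    rw [Finset.mem_product, mem_PR, mem_PR] at hx
    obtain ⟨⟨⟨h1, h2⟩, _⟩, ⟨h3, h4⟩, _⟩ := hx
    rw [Finset.mem_Icc]
    constructor
    · exact Nat.mul_pos (by omega) (by omega)
    · calc x.1 * x.2 ≤ (4 * N) * (4 * N) := Nat.mul_le_mul h2 h4
        _ = 16 * N ^ 2 := by ring
  rw [← Finset.sum_fiberwise_of_maps_to hmaps, Finset.mul_sum]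
  refine Finset.sum_le_sum fun D _ => ?_
  have hcard : ((PR N ×ˢ PR N).filter fun x => x.1 * x.2 = D).card ≤ 2 := by
    by_cases he : ((PR N ×ˢ PR N).filter fun x => x.1 * x.2 = D) = ∅
    · rw [he]; simp
    obtain ⟨x0, hx0⟩ := Finset.nonempty_iff_ne_empty.2 he
    rw [Finset.mem_filter, Finset.mem_product, mem_PR, mem_PR] at hx0
    obtain ⟨⟨⟨_, hp0⟩, _, hq0⟩, hD⟩ := hx0
    have hsub : ((PR N ×ˢ PR N).filter fun x => x.1 * x.2 = D) ⊆ {x0, (x0.2, x0.1)} := by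
      intro x hx
      rw [Finset.mem_filter, Finset.mem_product, mem_PR, mem_PR] at hx
      obtain ⟨⟨⟨_, hp⟩, _, hq⟩, hD'⟩ := hx
      have h1 : x.1 ∣ x0.1 * x0.2 := ⟨x.2, by rw [hD, ← hD']⟩
      rw [Finset.mem_insert, Finset.mem_singleton]
      rcases (hp.dvd_mul).1 h1 with h | h
      · left
        have h2 : x.1 = x0.1 := (Nat.prime_dvd_prime_iff_eq hp hp0).1 h
        have h3 : x.2 = x0.2 := by
          have : x0.1 * x.2 = x0.1 * x0.2 := by rw [hD, ← hD', h2]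
          exact Nat.eq_of_mul_eq_mul_left hp0.pos this
        exact Prod.ext h2 h3
      · right
        have h2 : x.1 = x0.2 := (Nat.prime_dvd_prime_iff_eq hp hq0).1 h
        have h3 : x.2 = x0.1 := by
          have : x0.2 * x.2 = x0.2 * x0.1 := by rw [mul_comm x0.2 x0.1, hD, ← hD', h2]
          exact Nat.eq_of_mul_eq_mul_left hq0.pos this
        exact Prod.ext h2 h3
    exact (Finset.card_le_card hsub).trans Finset.card_le_two
  calc ∑ x ∈ (PR N ×ˢ PR N).filter fun x => x.1 * x.2 = D, f (x.1 * x.2)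
      = ∑ x ∈ (PR N ×ˢ PR N).filter fun x => x.1 * x.2 = D, f D :=
        Finset.sum_congr rfl fun x hx => by rw [(Finset.mem_filter.1 hx).2]
    _ = (((PR N ×ˢ PR N).filter fun x => x.1 * x.2 = D).card : ℝ≥0∞) * f D := by
        rw [Finset.sum_const, nsmul_eq_mul]
    _ ≤ 2 * f D := by
        gcongr
        exact_mod_cast hcard

theorem total_sq (ε : ℝ) (hε : 0 < ε) : ∃ C' : ℝ, 0 < C' ∧ ∀ (z : ℍ), |z.re| ≤ 1 / 2 →
    1 / 2 ≤ z.im → ∀ (C T : ℝ), 0 ≤ C → ∀ L : ℕ, 1 ≤ T → (2 : ℝ) ^ L ≤ 2 * √T → ∀ N : ℕ, 1 ≤ N →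
    ∑ p ∈ PR N, ∑ q ∈ PR N, ENNReal.ofReal (1 / p * (1 / q)) *
        MM (ph C T L) (p ^ 2) (q ^ 2) z ≤
      ENNReal.ofReal (C' * C * (1 + z.im) * ((N : ℝ) ^ (2 * ε) * (N * T + √T * N ^ 4))) := by
  obtain ⟨C₁, hC₁, h1⟩ := ph_count_one
  obtain ⟨C₂, hC₂, h2⟩ := ph_count_sq ε hε
  refine ⟨3 * (8192 * 16 ^ ε * C₂ + 192 * 4 ^ ε * C₂ + 3 * C₁), by positivity, ?_⟩
  intro z hx hy C T hC L hT hL N hN
  have hNr : (1 : ℝ) ≤ N := by exact_mod_cast hN
  have hN0 : (0 : ℝ) < N := by linarith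
  have hT0 : 0 ≤ √T := Real.sqrt_nonneg T
  have hy0 := z.im_pos
  have hsT : √T ≤ T := by
    rw [Real.sqrt_le_left (by linarith)]
    nlinarith
  set φ := ph C T L with hφ
  -- the three pieces
  have hpt : ∀ p ∈ PR N, ∀ q ∈ PR N, ENNReal.ofReal (1 / p * (1 / q)) * MM φ (p ^ 2) (q ^ 2) z ≤
      3 * (ENNReal.ofReal (1 / N ^ 2) * ct φ (((p * q : ℕ) : ℤ) ^ 2) z +
        ENNReal.ofReal (1 / N) * ct φ ((q : ℤ) ^ 2) z + if q = p then ct φ 1 z else 0) := by
    intro p hp q hq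
    rw [mem_PR] at hp hq
    obtain ⟨⟨hp1, _⟩, hpp⟩ := hp
    obtain ⟨⟨hq1, _⟩, hqq⟩ := hq
    have hp0 : (0 : ℝ) < p := by exact_mod_cast hpp.pos
    have hq0 : (0 : ℝ) < q := by exact_mod_cast hqq.pos
    have hpN : (N : ℝ) ≤ p := by exact_mod_cast hp1.le
    have hqN : (N : ℝ) ≤ q := by exact_mod_cast hq1.le
    refine (mul_le_mul_right (MM_sq_le φ hpp hqq z) _).trans ?_
    rw [← mul_assoc, mul_comm _ (3 : ℝ≥0∞), mul_assoc]
    refine mul_le_mul_right ?_ 3
    rw [mul_add, mul_add]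
    refine add_le_add (add_le_add ?_ ?_) ?_
    · refine mul_le_mul_left (ENNReal.ofReal_le_ofReal ?_) _
      rw [one_div_mul_one_div, sq]
      exact one_div_le_one_div_of_le (by positivity) (mul_le_mul hpN hqN hN0.le hp0.le)
    · rw [← mul_assoc]
      refine mul_le_mul_left ?_ _
      rw [← ENNReal.ofReal_natCast, ← ENNReal.ofReal_mul (by positivity)]
      refine ENNReal.ofReal_le_ofReal ?_
      rw [show 1 / (p : ℝ) * (1 / q) * p = 1 / q by field_simp]
      exact one_div_le_one_div_of_le hN0 hqN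
    · by_cases h : q = p
      · rw [if_pos h, if_pos h, ← mul_assoc]
        subst h
        have : ENNReal.ofReal (1 / (q : ℝ) * (1 / q)) * (q : ℝ≥0∞) ^ 2 = 1 := by
          rw [← ENNReal.ofReal_natCast, ← ENNReal.ofReal_pow hq0.le,
            ← ENNReal.ofReal_mul (by positivity), ← ENNReal.ofReal_one]
          congr 1
          field_simp
        rw [this, one_mul]
      · rw [if_neg h, if_neg h, mul_zero]
  have hG : ∀ X : ℕ, 1 ≤ X → ∑ D ∈ Finset.Icc 1 X, ct φ ((D : ℤ) ^ 2) z ≤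
      ENNReal.ofReal (C₂ * C * (X * (X : ℝ) ^ ε) * (T + √T * X ^ 2 + √T * X * z.im)) :=
    fun X hX => h2 z hx hy C T hC L hT hL X hX
  have hB := h1 z hx hy C T hC L hT hL
  have hs1 : ∑ p ∈ PR N, ∑ q ∈ PR N, ct φ (((p * q : ℕ) : ℤ) ^ 2) z ≤
      2 * ∑ D ∈ Finset.Icc (1 : ℕ) (16 * N ^ 2), ct φ ((D : ℤ) ^ 2) z :=
    sum_prod_le N (fun D => ct φ ((D : ℤ) ^ 2) z)
  have hs2 : ∑ q ∈ PR N, ct φ ((q : ℤ) ^ 2) z ≤
      ∑ D ∈ Finset.Icc (1 : ℕ) (4 * N), ct φ ((D : ℤ) ^ 2) z := by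
    refine Finset.sum_le_sum_of_subset ?_
    intro q hq
    rw [mem_PR] at hq
    rw [Finset.mem_Icc]
    omega
  have hcard : ((PR N).card : ℝ≥0∞) ≤ ENNReal.ofReal (3 * N) := by
    rw [← ENNReal.ofReal_natCast]
    refine ENNReal.ofReal_le_ofReal ?_
    exact_mod_cast card_PR_le N
  calc ∑ p ∈ PR N, ∑ q ∈ PR N, ENNReal.ofReal (1 / p * (1 / q)) * MM φ (p ^ 2) (q ^ 2) z
      ≤ ∑ p ∈ PR N, ∑ q ∈ PR N, 3 * (ENNReal.ofReal (1 / N ^ 2) * ct φ (((p * q : ℕ) : ℤ) ^ 2) z +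
        ENNReal.ofReal (1 / N) * ct φ ((q : ℤ) ^ 2) z + if q = p then ct φ 1 z else 0) :=
        Finset.sum_le_sum fun p hp => Finset.sum_le_sum fun q hq => hpt p hp q hq
    _ = 3 * (ENNReal.ofReal (1 / N ^ 2) * ∑ p ∈ PR N, ∑ q ∈ PR N, ct φ (((p * q : ℕ) : ℤ) ^ 2) z +
        ENNReal.ofReal (1 / N) * (((PR N).card : ℝ≥0∞) * ∑ q ∈ PR N, ct φ ((q : ℤ) ^ 2) z) +
        ((PR N).card : ℝ≥0∞) * ct φ 1 z) := by
        simp_rw [← Finset.mul_sum, Finset.sum_add_distrib, ← Finset.mul_sum]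
        congr 3
        · rw [Finset.sum_const, nsmul_eq_mul]
        · rw [← nsmul_eq_mul, ← Finset.sum_const]
          refine Finset.sum_congr rfl fun p hp => ?_
          rw [Finset.sum_ite_eq', if_pos hp]
    _ ≤ ENNReal.ofReal 3 * (ENNReal.ofReal (1 / N ^ 2) * (ENNReal.ofReal 2 * ENNReal.ofReal
          (C₂ * C * ((16 * N ^ 2 : ℕ) * ((16 * N ^ 2 : ℕ) : ℝ) ^ ε) *
            (T + √T * (16 * N ^ 2 : ℕ) ^ 2 + √T * (16 * N ^ 2 : ℕ) * z.im))) +
        ENNReal.ofReal (1 / N) * (ENNReal.ofReal (3 * N) * ENNReal.ofReal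
          (C₂ * C * ((4 * N : ℕ) * ((4 * N : ℕ) : ℝ) ^ ε) *
            (T + √T * (4 * N : ℕ) ^ 2 + √T * (4 * N : ℕ) * z.im))) +
        ENNReal.ofReal (3 * N) * ENNReal.ofReal (C₁ * C * (T + √T * z.im))) := by
        rw [show (3 : ℝ≥0∞) = ENNReal.ofReal 3 by norm_num]
        gcongr
        · refine hs1.trans ?_
          rw [show (2 : ℝ≥0∞) = ENNReal.ofReal 2 by norm_num]
          gcongr
          exact hG _ (by nlinarith)
        · exact hs2.trans (hG _ (by omega))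
    _ = ENNReal.ofReal (3 * (1 / N ^ 2 * (2 *
          (C₂ * C * ((16 * N ^ 2 : ℕ) * ((16 * N ^ 2 : ℕ) : ℝ) ^ ε) *
            (T + √T * (16 * N ^ 2 : ℕ) ^ 2 + √T * (16 * N ^ 2 : ℕ) * z.im))) +
        1 / N * (3 * N *
          (C₂ * C * ((4 * N : ℕ) * ((4 * N : ℕ) : ℝ) ^ ε) *
            (T + √T * (4 * N : ℕ) ^ 2 + √T * (4 * N : ℕ) * z.im))) +
        3 * N * (C₁ * C * (T + √T * z.im)))) := by
        rw [← ENNReal.ofReal_mul (by positivity), ← ENNReal.ofReal_mul (by positivity),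
          ← ENNReal.ofReal_mul (by positivity), ← ENNReal.ofReal_mul (by positivity),
          ← ENNReal.ofReal_mul (by positivity), ← ENNReal.ofReal_add (by positivity)
          (by positivity), ← ENNReal.ofReal_add (by positivity) (by positivity),
          ← ENNReal.ofReal_mul (by positivity)]
    _ ≤ _ := by
        refine ENNReal.ofReal_le_ofReal ?_
        push_cast
        set E := (N : ℝ) ^ (2 * ε) with hE
        set y := z.im with hyd
        have hE1 : 1 ≤ E := Real.one_le_rpow hNr (by positivity)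
        have hE16 : (16 * (N : ℝ) ^ 2) ^ ε = 16 ^ ε * E := by
          rw [Real.mul_rpow (by norm_num) (by positivity), hE, Real.rpow_mul hN0.le]
          norm_cast
        have hE4 : (4 * (N : ℝ)) ^ ε ≤ 4 ^ ε * E := by
          rw [Real.mul_rpow (by norm_num) (by positivity)]
          refine mul_le_mul_of_nonneg_left ?_ (by positivity)
          exact Real.rpow_le_rpow_of_exponent_le hNr (by linarith)
        rw [hE16]
        have hN1 : (1 : ℝ) ≤ N ^ 2 := one_le_pow₀ hNr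
        have hN24 : (N : ℝ) ^ 2 ≤ N ^ 4 := pow_le_pow_right₀ hNr (by norm_num)
        have hN34 : (N : ℝ) ^ 3 ≤ N ^ 4 := pow_le_pow_right₀ hNr (by norm_num)
        have hX0 : 0 ≤ √T * (N : ℝ) ^ 2 := by positivity
        have hTN : T ≤ N * T := by nlinarith
        have hTT0 : 0 ≤ (N : ℝ) * T := by positivity
        have a1 : T + √T * (16 * N ^ 2) ^ 2 + √T * (16 * N ^ 2) * y ≤
            256 * ((1 + y) * (N * T + √T * N ^ 4)) := by
          have b1 : √T * (N : ℝ) ^ 2 * y ≤ √T * N ^ 4 * y := by gcongr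
          have b2 : 0 ≤ √T * (N : ℝ) ^ 4 * y := by positivity
          have b3 : 0 ≤ (N : ℝ) * T * y := by positivity
          nlinarith
        have a2 : N * (T + √T * (4 * N) ^ 2 + √T * (4 * N) * y) ≤
            16 * ((1 + y) * (N * T + √T * N ^ 4)) := by
          have b1 : √T * (N : ℝ) ^ 3 ≤ √T * N ^ 4 := by gcongr
          have b2 : √T * (N : ℝ) ^ 2 * y ≤ √T * N ^ 4 * y := by gcongr
          have b3 : 0 ≤ (N : ℝ) * T * y := by positivity
          have b4 : 0 ≤ √T * (N : ℝ) ^ 4 * y := by positivity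
          have b5 : 0 ≤ √T * (N : ℝ) ^ 4 := by positivity
          calc N * (T + √T * (4 * N) ^ 2 + √T * (4 * N) * y)
              = N * T + 16 * (√T * N ^ 3) + 4 * (√T * N ^ 2 * y) := by ring
            _ ≤ N * T + 16 * (√T * N ^ 4) + 4 * (√T * N ^ 4 * y) := by linarith
            _ ≤ 16 * (N * T + √T * N ^ 4 + N * T * y + √T * N ^ 4 * y) := by linarith
            _ = _ := by ring
        have a3 : N * (T + √T * y) ≤ (1 + y) * (N * T + √T * N ^ 4) := by
          have b1 : N * (√T * y) ≤ N * (T * y) := by gcongr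
          have b4 : 0 ≤ √T * (N : ℝ) ^ 4 * y := by positivity
          have b5 : 0 ≤ √T * (N : ℝ) ^ 4 := by positivity
          calc N * (T + √T * y) = N * T + N * (√T * y) := by ring
            _ ≤ N * T + N * (T * y) := by linarith
            _ ≤ N * T + N * (T * y) + √T * N ^ 4 + √T * N ^ 4 * y := by linarith
            _ = _ := by ring
        set W := (1 + y) * (N * T + √T * N ^ 4) with hW
        have hW0 : 0 ≤ W := by positivity
        have c1 : 1 / (N : ℝ) ^ 2 * (2 * (C₂ * C * (16 * N ^ 2 * (16 ^ ε * E)) *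
            (T + √T * (16 * N ^ 2) ^ 2 + √T * (16 * N ^ 2) * y))) ≤
            8192 * 16 ^ ε * C₂ * (C * E * W) := by
          calc 1 / (N : ℝ) ^ 2 * (2 * (C₂ * C * (16 * N ^ 2 * (16 ^ ε * E)) *
              (T + √T * (16 * N ^ 2) ^ 2 + √T * (16 * N ^ 2) * y)))
              = 32 * 16 ^ ε * C₂ * C * E *
                (T + √T * (16 * N ^ 2) ^ 2 + √T * (16 * N ^ 2) * y) := by
                field_simp; ring
            _ ≤ 32 * 16 ^ ε * C₂ * C * E * (256 * W) :=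
                mul_le_mul_of_nonneg_left a1 (by positivity)
            _ = _ := by ring
        have c2 : 1 / (N : ℝ) * (3 * N * (C₂ * C * (4 * N * (4 * N) ^ ε) *
            (T + √T * (4 * N) ^ 2 + √T * (4 * N) * y))) ≤
            192 * 4 ^ ε * C₂ * (C * E * W) := by
          calc 1 / (N : ℝ) * (3 * N * (C₂ * C * (4 * N * (4 * N) ^ ε) *
              (T + √T * (4 * N) ^ 2 + √T * (4 * N) * y)))
              = 12 * C₂ * C * (4 * N) ^ ε * (N *
                (T + √T * (4 * N) ^ 2 + √T * (4 * N) * y)) := by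
                field_simp; ring
            _ ≤ 12 * C₂ * C * (4 ^ ε * E) * (16 * W) := by
                gcongr
            _ = _ := by ring
        have c3 : 3 * N * (C₁ * C * (T + √T * y)) ≤ 3 * C₁ * (C * E * W) := by
          calc 3 * N * (C₁ * C * (T + √T * y)) = 3 * C₁ * C * (N * (T + √T * y)) := by ring
            _ ≤ 3 * C₁ * C * W := mul_le_mul_of_nonneg_left a3 (by positivity)
            _ ≤ 3 * C₁ * C * W * E := le_mul_of_one_le_right (by positivity) hE1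
            _ = _ := by ring
        calc _ ≤ 3 * (8192 * 16 ^ ε * C₂ * (C * E * W) + 192 * 4 ^ ε * C₂ * (C * E * W) +
              3 * C₁ * (C * E * W)) := by
              refine mul_le_mul_of_nonneg_left ?_ (by norm_num)
              exact add_le_add (add_le_add c1 c2) c3
          _ = _ := by rw [hW]; ring

end Pool.Agent.H19.Maass
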