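import Mathlib
import Pool.Agent.H19.Maass.Rows

set_option autoImplicit false

namespace Pool.Agent.H19.Maass

open MeasureTheory UpperHalfPlane ModularGroup
open scoped MatrixGroups Modular UpperHalfPlane ENNReal

open scoped ComplexConjugate

/-- orthogonality of a family -/
def Orth {J : Type*} (U : J → ℂ → ℂ) : Prop :=
  ∀ i j, i ≠ j → ∫ w : ℍ in 𝒟, U i w * conj (U j w) = 0

lemma MM_one_le (φ : ℝ → ℝ≥0∞) (z : ℍ) : MM φ 1 1 z ≤ ct φ 1 z := by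
  have h := match_le one_pos one_pos z φ
  unfold MM
  refine h.trans ?_
  rw [Nat.divisors_one, Finset.card_singleton, Finset.sum_singleton, Nat.cast_one, one_mul,
    one_mul]
  exact tsum_ic_eq fun β h => by simpa using h

lemma RR_one : RR 1 = {⟨1, 0⟩} := by
  ext ⟨d, b⟩
  rw [mem_RR, Nat.mem_divisors]
  simp only [Finset.mem_singleton, Sigma.mk.injEq, heq_eq_eq]
  constructor
  · rintro ⟨⟨h1, _⟩, h2⟩
    have := Nat.dvd_one.1 h1
    subst this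
    exact ⟨rfl, by omega⟩
  · rintro ⟨rfl, rfl⟩
    exact ⟨⟨dvd_rfl, one_ne_zero⟩, by norm_num⟩

lemma Frm.one {T : ℝ} {U : ℂ → ℂ} {c : ℕ → ℂ} (h : Frm T U c) (z : ℍ) : c 1 * U z = U z := by
  have h1 := h.heckeC 1 le_rfl z z.im_pos
  rw [← h1]
  simp

/-- local Weyl law (upper bound) -/
theorem weyl_bound : ∃ C : ℝ, 0 < C ∧ ∀ T : ℝ, 1 ≤ T → ∀ (J : Type) [Fintype J] (t : J → ℝ)
    (U : J → ℂ → ℂ) (c : J → ℕ → ℂ), (∀ j, |t j - T| ≤ 1 / 10) → (∀ j, Frm (t j) (U j) (c j)) →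
    Orth U → ∀ z : ℍ, |z.re| ≤ 1 / 2 → 1 / 2 ≤ z.im →
    ∑ j, ‖U j z‖ ^ 2 ≤ C * (1 + z.im) * T := by
  obtain ⟨C, hC, hker⟩ := window_kernel
  obtain ⟨C₁, hC₁, h1⟩ := ph_count_one
  refine ⟨13 * C₁ * C, by positivity, ?_⟩
  intro T hT J _ t U c ht hF horth z hx hy
  obtain ⟨L, k, _, hL, hk, hsel, hφ⟩ := hker T hT
  have hy0 := z.im_pos
  have hT0 : 0 ≤ √T := Real.sqrt_nonneg T
  have hsT : √T ≤ T := by
    rw [Real.sqrt_le_left (by linarith)]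
    nlinarith
  have h2 := amplified hk _ hφ t U c hF horth (fun j => hsel _ (ht j)) {1} (by simp)
    (fun _ => 1) z
  simp only [Finset.sum_singleton, one_mul, norm_one, mul_one, ENNReal.ofReal_one] at h2
  have h3 : ∀ j, ‖c j 1‖ ^ 2 * ‖U j z‖ ^ 2 = ‖U j z‖ ^ 2 := by
    intro j
    rw [← mul_pow, ← norm_mul, (hF j).one z]
  simp_rw [h3] at h2
  have h4 : ENNReal.ofReal (∑ j, ‖U j z‖ ^ 2) ≤
      ENNReal.ofReal (13 * (C₁ * C * (T + √T * z.im))) := by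
    refine h2.trans ?_
    rw [ENNReal.ofReal_mul (by norm_num), show ENNReal.ofReal 13 = 13 by norm_num]
    exact mul_le_mul_right ((MM_one_le _ z).trans (h1 z hx hy C T hC.le L hT hL)) _
  have h5 := (ENNReal.ofReal_le_ofReal_iff (by positivity)).1 h4
  refine h5.trans ?_
  have h6 : T + √T * z.im ≤ (1 + z.im) * T := by nlinarith
  calc 13 * (C₁ * C * (T + √T * z.im)) ≤ 13 * (C₁ * C * ((1 + z.im) * T)) := by gcongr
    _ = _ := by ring

/-- bound for forms with large Hecke eigenvalues at primes -/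
theorem large_bound : ∃ C : ℝ, 0 < C ∧ ∀ T : ℝ, 1 ≤ T → ∀ (t : ℝ) (U : ℂ → ℂ) (c : ℕ → ℂ),
    |t - T| ≤ 1 / 10 → Frm t U c → ∀ z : ℍ, |z.re| ≤ 1 / 2 → 1 / 2 ≤ z.im → ∀ N : ℕ, 1 ≤ N →
    (∑ p ∈ PR N, ‖c p‖ ^ 2 / p) * ‖U z‖ ^ 2 ≤ C * (1 + z.im) * (T + √T * N ^ 2) := by
  obtain ⟨C, hC, hker⟩ := window_kernel
  obtain ⟨C₁, hC₁, h1⟩ := row_p
  refine ⟨13 * C₁ * C, by positivity, ?_⟩
  intro T hT t U c ht hF z hx hy N hN
  obtain ⟨L, k, _, hL, hk, hsel, hφ⟩ := hker T hT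
  have hy0 := z.im_pos
  have hT0 : 0 ≤ √T := Real.sqrt_nonneg T
  have hN0 : (0 : ℝ) < N := by exact_mod_cast hN
  set S := ∑ p ∈ PR N, ‖c p‖ ^ 2 / p with hS
  have hS0 : 0 ≤ S := Finset.sum_nonneg fun p _ => by positivity
  rcases hS0.eq_or_lt with hS1 | hS1
  · rw [← hS1, zero_mul]; positivity
  set φ := ph C T L
  set a : ℕ → ℂ := fun p => conj (c p) / p with ha
  have h2 := amplified hk φ hφ (fun _ : Unit => t) (fun _ => U) (fun _ => c) (fun _ => hF)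
    (fun i j h => absurd (Subsingleton.elim i j) h)
    (fun _ => hsel t ht) (PR N) (fun n hn => (mem_PR.1 hn).2.one_lt.le) a z
  simp only [Finset.univ_unique, Finset.sum_singleton] at h2
  have hac : ∑ n ∈ PR N, a n * c n = (S : ℂ) := by
    rw [hS]
    push_cast
    refine Finset.sum_congr rfl fun p _ => ?_
    rw [ha]; simp only
    rw [div_mul_eq_mul_div, mul_comm, Complex.mul_conj, Complex.normSq_eq_norm_sq]
    push_cast
    rfl
  rw [hac, Complex.norm_real, Real.norm_eq_abs, sq_abs] at h2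
  have ha2 : ∀ p ∈ PR N, ‖a p‖ ^ 2 ≤ 1 / N * (‖c p‖ ^ 2 / p) := by
    intro p hp
    rw [mem_PR] at hp
    have hp0 : (0 : ℝ) < p := by exact_mod_cast hp.2.pos
    have hNp : (N : ℝ) ≤ p := by exact_mod_cast hp.1.1.le
    rw [ha]; simp only
    rw [norm_div, RCLike.norm_conj, Complex.norm_natCast, div_pow, sq (p : ℝ),
      ← div_div, div_eq_mul_one_div _ (p : ℝ), mul_comm]
    refine mul_le_mul_of_nonneg_right (one_div_le_one_div_of_le hN0 hNp) (by positivity)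
  set V := C₁ * C * (1 + z.im) * (N * (T + √T * N ^ 2)) with hV
  have hV0 : 0 ≤ V := by positivity
  have hrow : ∀ p ∈ PR N, ∑ q ∈ PR N, MM φ p q z ≤ ENNReal.ofReal V :=
    fun p hp => h1 z hx hy C T hC.le L hT hL N hN p hp
  have h3 : ∑ n ∈ PR N, ∑ m ∈ PR N, ENNReal.ofReal (‖a n‖ * ‖a m‖) * MM φ n m z ≤
      ENNReal.ofReal (1 / N * S * V) := by
    have hsym : ∀ n m : ℕ, ENNReal.ofReal (‖a n‖ * ‖a m‖) * MM φ n m z ≤
        ENNReal.ofReal (‖a n‖ ^ 2 / 2) * MM φ n m z + ENNReal.ofReal (‖a m‖ ^ 2 / 2) * MM φ m n z := by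
      intro n m
      rw [MM_comm φ m n z, ← add_mul, ← ENNReal.ofReal_add (by positivity) (by positivity)]
      refine mul_le_mul_left (ENNReal.ofReal_le_ofReal ?_) _
      nlinarith [sq_nonneg (‖a n‖ - ‖a m‖)]
    calc ∑ n ∈ PR N, ∑ m ∈ PR N, ENNReal.ofReal (‖a n‖ * ‖a m‖) * MM φ n m z
        ≤ ∑ n ∈ PR N, ∑ m ∈ PR N, (ENNReal.ofReal (‖a n‖ ^ 2 / 2) * MM φ n m z +
            ENNReal.ofReal (‖a m‖ ^ 2 / 2) * MM φ m n z) :=
          Finset.sum_le_sum fun n _ => Finset.sum_le_sum fun m _ => hsym n m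
      _ = ∑ n ∈ PR N, ∑ m ∈ PR N, ENNReal.ofReal (‖a n‖ ^ 2 / 2) * MM φ n m z +
            ∑ n ∈ PR N, ∑ m ∈ PR N, ENNReal.ofReal (‖a n‖ ^ 2 / 2) * MM φ n m z := by
          simp_rw [Finset.sum_add_distrib]
          congr 1
          rw [Finset.sum_comm]
      _ = ∑ n ∈ PR N, ENNReal.ofReal (‖a n‖ ^ 2) * ∑ m ∈ PR N, MM φ n m z := by
          rw [← Finset.sum_add_distrib]
          refine Finset.sum_congr rfl fun n _ => ?_
          rw [← Finset.mul_sum, ← add_mul, ← ENNReal.ofReal_add (by positivity) (by positivity)]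
          congr 2
          ring
      _ ≤ ∑ n ∈ PR N, ENNReal.ofReal (1 / N * (‖c n‖ ^ 2 / n)) * ENNReal.ofReal V :=
          Finset.sum_le_sum fun n hn => mul_le_mul' (ENNReal.ofReal_le_ofReal (ha2 n hn))
            (hrow n hn)
      _ = ENNReal.ofReal (1 / N * S * V) := by
          rw [← Finset.sum_mul, ← ENNReal.ofReal_sum_of_nonneg (fun n _ => by positivity),
            ← ENNReal.ofReal_mul (Finset.sum_nonneg fun n _ => by positivity), ← Finset.mul_sum]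
  have h4 : ENNReal.ofReal (S ^ 2 * ‖U z‖ ^ 2) ≤ ENNReal.ofReal (13 * (1 / N * S * V)) := by
    refine h2.trans ?_
    rw [ENNReal.ofReal_mul (by norm_num), show ENNReal.ofReal 13 = 13 by norm_num]
    exact mul_le_mul_right h3 _
  have h5 := (ENNReal.ofReal_le_ofReal_iff (by positivity)).1 h4
  have h6 : S * (S * ‖U z‖ ^ 2) ≤ S * (13 * C₁ * C * (1 + z.im) * (T + √T * N ^ 2)) := by
    calc S * (S * ‖U z‖ ^ 2) = S ^ 2 * ‖U z‖ ^ 2 := by ring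
      _ ≤ 13 * (1 / N * S * V) := h5
      _ = S * (13 * C₁ * C * (1 + z.im) * (T + √T * N ^ 2)) := by
          rw [hV]; field_simp
  exact le_of_mul_le_mul_left h6 hS1

/-- bound for families of forms with small Hecke eigenvalues at primes -/
theorem small_bound (ε : ℝ) (hε : 0 < ε) : ∃ C : ℝ, 0 < C ∧ ∀ T : ℝ, 1 ≤ T →
    ∀ (J : Type) [Fintype J] (t : J → ℝ) (U : J → ℂ → ℂ) (c : J → ℕ → ℂ),
    (∀ j, |t j - T| ≤ 1 / 10) → (∀ j, Frm (t j) (U j) (c j)) → Orth U →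
    (∀ j, ∀ p : ℕ, p.Prime → c j p ^ 2 = c j (p ^ 2) + p) →
    ∀ z : ℍ, |z.re| ≤ 1 / 2 → 1 / 2 ≤ z.im → ∀ N : ℕ, 1 ≤ N →
    (∀ j, ∑ p ∈ PR N, ‖c j p‖ ^ 2 / p ≤ (PR N).card / 2) →
    ((PR N).card : ℝ) ^ 2 * ∑ j, ‖U j z‖ ^ 2 ≤
      C * (1 + z.im) * ((N : ℝ) ^ (2 * ε) * (N * T + √T * N ^ 4)) := by
  obtain ⟨C, hC, hker⟩ := window_kernel
  obtain ⟨C₁, hC₁, h1⟩ := total_sq ε hε
  refine ⟨4 * 13 * C₁ * C, by positivity, ?_⟩
  intro T hT J _ t U c ht hF horth hrel z hx hy N hN hsmall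
  obtain ⟨L, k, _, hL, hk, hsel, hφ⟩ := hker T hT
  have hy0 := z.im_pos
  have hT0 : 0 ≤ √T := Real.sqrt_nonneg T
  have hN0 : (0 : ℝ) < N := by exact_mod_cast hN
  set φ := ph C T L
  have hinj : Set.InjOn (fun p : ℕ => p ^ 2) (PR N : Set ℕ) := by
    intro p _ q _ h
    exact Nat.pow_left_injective (by norm_num) h
  set 𝒩 := (PR N).image fun p => p ^ 2 with h𝒩
  set a : ℕ → ℂ := fun n => 1 / (Nat.sqrt n : ℂ) with ha
  have hasq : ∀ p : ℕ, a (p ^ 2) = 1 / (p : ℂ) := by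
    intro p
    rw [ha]; simp only
    rw [sq, Nat.sqrt_eq]
  have h2 := amplified hk φ hφ t U c hF horth (fun j => hsel _ (ht j)) 𝒩
    (fun n hn => by
      rw [h𝒩, Finset.mem_image] at hn
      obtain ⟨p, hp, rfl⟩ := hn
      exact Nat.one_le_pow _ _ (mem_PR.1 hp).2.pos) a z
  have hlow : ∀ j, (PR N).card / 2 ≤ ‖∑ n ∈ 𝒩, a n * c j n‖ := by
    intro j
    have e1 : ∑ n ∈ 𝒩, a n * c j n = ∑ p ∈ PR N, c j p ^ 2 / p - (PR N).card := by
      rw [h𝒩, Finset.sum_image hinj]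
      rw [Finset.card_eq_sum_ones]
      push_cast
      rw [← Finset.sum_sub_distrib]
      refine Finset.sum_congr rfl fun p hp => ?_
      have hp0 : (p : ℂ) ≠ 0 := by exact_mod_cast (mem_PR.1 hp).2.ne_zero
      rw [hasq, hrel j p (mem_PR.1 hp).2]
      field_simp
      ring
    rw [e1]
    have e2 : ‖∑ p ∈ PR N, c j p ^ 2 / (p : ℂ)‖ ≤ (PR N).card / 2 := by
      refine (norm_sum_le _ _).trans (le_trans (le_of_eq ?_) (hsmall j))
      refine Finset.sum_congr rfl fun p _ => ?_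
      rw [norm_div, norm_pow, Complex.norm_natCast]
    have e3 := norm_sub_norm_le ((PR N).card : ℂ) (∑ p ∈ PR N, c j p ^ 2 / (p : ℂ))
    rw [norm_sub_rev, Complex.norm_natCast] at e3
    linarith
  have h3 : ∑ n ∈ 𝒩, ∑ m ∈ 𝒩, ENNReal.ofReal (‖a n‖ * ‖a m‖) * MM φ n m z ≤
      ENNReal.ofReal (C₁ * C * (1 + z.im) * ((N : ℝ) ^ (2 * ε) * (N * T + √T * N ^ 4))) := by
    refine le_trans (le_of_eq ?_) (h1 z hx hy C T hC.le L hT hL N hN)
    rw [h𝒩, Finset.sum_image hinj]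
    refine Finset.sum_congr rfl fun p _ => ?_
    rw [Finset.sum_image hinj]
    refine Finset.sum_congr rfl fun q _ => ?_
    rw [hasq, hasq, norm_div, norm_div, norm_one, Complex.norm_natCast, Complex.norm_natCast]
  have h4 : ENNReal.ofReal (∑ j, ‖∑ n ∈ 𝒩, a n * c j n‖ ^ 2 * ‖U j z‖ ^ 2) ≤
      ENNReal.ofReal (13 * (C₁ * C * (1 + z.im) *
        ((N : ℝ) ^ (2 * ε) * (N * T + √T * N ^ 4)))) := by
    refine h2.trans ?_
    rw [ENNReal.ofReal_mul (by norm_num), show ENNReal.ofReal 13 = 13 by norm_num]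
    exact mul_le_mul_right h3 _
  have h5 := (ENNReal.ofReal_le_ofReal_iff (by positivity)).1 h4
  have h6 : ((PR N).card : ℝ) ^ 2 * ∑ j, ‖U j z‖ ^ 2 ≤
      4 * ∑ j, ‖∑ n ∈ 𝒩, a n * c j n‖ ^ 2 * ‖U j z‖ ^ 2 := by
    rw [Finset.mul_sum, Finset.mul_sum]
    refine Finset.sum_le_sum fun j _ => ?_
    have h7 := hlow j
    have h8 : ((PR N).card : ℝ) ^ 2 ≤ 4 * ‖∑ n ∈ 𝒩, a n * c j n‖ ^ 2 := by
      have : (0 : ℝ) ≤ (PR N).card := Nat.cast_nonneg _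
      nlinarith
    calc ((PR N).card : ℝ) ^ 2 * ‖U j z‖ ^ 2 ≤ (4 * ‖∑ n ∈ 𝒩, a n * c j n‖ ^ 2) * ‖U j z‖ ^ 2 :=
          mul_le_mul_of_nonneg_right h8 (by positivity)
      _ = _ := by ring
  refine h6.trans ?_
  calc 4 * ∑ j, ‖∑ n ∈ 𝒩, a n * c j n‖ ^ 2 * ‖U j z‖ ^ 2
      ≤ 4 * (13 * (C₁ * C * (1 + z.im) * ((N : ℝ) ^ (2 * ε) * (N * T + √T * N ^ 4)))) := by
        gcongr
    _ = _ := by ring

end Pool.Agent.H19.Maass
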