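import Mathlib
import Pool.Agent.H19.Maass.Rows

set_option autoImplicit false

namespace Pool.Agent.H19.Maass

open UpperHalfPlane
open scoped ENNReal MatrixGroups

/-- displacement between `z` and the image of `w` under an integral matrix -/
noncomputable def sf2 (β : Z4) (z w : ℍ) : ℝ :=
  Complex.normSq ((β.2.2.1 : ℂ) * z * w + (β.2.2.2 : ℂ) * z - (β.1 : ℂ) * w - (β.2.1 : ℂ)) /
    (((det4 β : ℤ) : ℝ) * (z.im * w.im))

lemma dist_hecke2 {a b d a' b' d' : ℕ} (ha : 0 < a) (hd : 0 < d) (ha' : 0 < a') (hd' : 0 < d')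
    (σ : SL(2, ℤ)) (z v : ℍ) :
    2 * Real.cosh (dist (hp a b d z) (σ • hp a' b' d' v)) - 2 =
      sf2 (psi4 a b d σ a' b' d') z v := by
  set w := hp a' b' d' v with hw
  have hy := z.im_pos
  have hyv := v.im_pos
  have haR : (0 : ℝ) < a := by exact_mod_cast ha
  have hdR : (0 : ℝ) < d := by exact_mod_cast hd
  have haR' : (0 : ℝ) < a' := by exact_mod_cast ha'
  have hdR' : (0 : ℝ) < d' := by exact_mod_cast hd'
  have hdC : (d : ℂ) ≠ 0 := by exact_mod_cast hd.ne'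
  have hdC' : (d' : ℂ) ≠ 0 := by exact_mod_cast hd'.ne'
  set j : ℂ := (σ 1 0 : ℂ) * w + σ 1 1 with hj
  have hj0 : j ≠ 0 := by
    have := UpperHalfPlane.denom_ne_zero (σ : GL (Fin 2) ℝ) w
    rwa [ModularGroup.denom_apply] at this
  have hjn : 0 < Complex.normSq j := Complex.normSq_pos.2 hj0
  have him : (σ • w).im = w.im / Complex.normSq j := by
    rw [ModularGroup.im_smul_eq_div_normSq, ModularGroup.denom_apply]
  have hco : ((σ • w : ℍ) : ℂ) = ((σ 0 0 : ℂ) * w + σ 0 1) / j := by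
    rw [coe_specialLinearGroup_apply]
    simp [hj]
  have hcosh := cosh_dist (hp a b d z) (σ • w)
  have h1 : 2 * Real.cosh (dist (hp a b d z) (σ • w)) - 2 =
      dist ((hp a b d z : ℍ) : ℂ) ((σ • w : ℍ) : ℂ) ^ 2 / ((hp a b d z).im * (σ • w).im) := by
    rw [hcosh]
    have := (hp a b d z).im_pos
    have := (σ • w).im_pos
    field_simp
    ring
  rw [h1, him, hp_im ha hd, Complex.dist_eq, ← Complex.normSq_eq_norm_sq, hco, coe_hp ha hd,
    hw, hp_im ha' hd']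
  have hwc : ((w : ℍ) : ℂ) = ((a' : ℂ) * v + b') / d' := coe_hp ha' hd' v
  have h2 : ((a : ℂ) * z + b) / d - ((σ 0 0 : ℂ) * w + σ 0 1) / j =
      (((psi4 a b d σ a' b' d').2.2.1 : ℂ) * z * v +
        ((psi4 a b d σ a' b' d').2.2.2 : ℂ) * z - ((psi4 a b d σ a' b' d').1 : ℂ) * v -
        ((psi4 a b d σ a' b' d').2.1 : ℂ)) / (d * d' * j) := by
    rw [div_sub_div _ _ hdC hj0, div_eq_div_iff (mul_ne_zero hdC hj0)
      (mul_ne_zero (mul_ne_zero hdC hdC') hj0)]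
    unfold psi4
    rw [hj, hwc]
    push_cast
    field_simp
    ring
  rw [← hw, h2]
  unfold sf2
  rw [map_div₀, map_mul, map_mul, det_psi4]
  rw [Complex.normSq_natCast, Complex.normSq_natCast]
  push_cast
  field_simp

lemma sf2_smul {h : ℕ} (hh : 0 < h) (β : Z4) (z w : ℍ) :
    sf2 ((h : ℤ) * β.1, (h : ℤ) * β.2.1, (h : ℤ) * β.2.2.1, (h : ℤ) * β.2.2.2) z w =
      sf2 β z w := by
  have hR : (h : ℝ) ≠ 0 := by exact_mod_cast hh.ne'
  unfold sf2 det4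
  simp only
  have h1 : ((((h : ℤ) * β.2.2.1 : ℤ) : ℂ)) * (z : ℂ) * w + ((((h : ℤ) * β.2.2.2 : ℤ) : ℂ)) * z -
      (((h : ℤ) * β.1 : ℤ) : ℂ) * w - (((h : ℤ) * β.2.1 : ℤ) : ℂ) =
      (h : ℂ) * ((β.2.2.1 : ℂ) * z * w + (β.2.2.2 : ℂ) * z - (β.1 : ℂ) * w - β.2.1) := by
    push_cast; ring
  rw [h1, map_mul, Complex.normSq_natCast]
  have h2 : ((((h : ℤ) * β.1 * ((h : ℤ) * β.2.2.2) - (h : ℤ) * β.2.1 * ((h : ℤ) * β.2.2.1) : ℤ)) : ℝ)
      = (h : ℝ) * h * ((β.1 * β.2.2.2 - β.2.1 * β.2.2.1 : ℤ) : ℝ) := by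
    push_cast; ring
  rw [h2, mul_assoc ((h : ℝ) * h)]
  exact mul_div_mul_left _ _ (mul_ne_zero hR hR)

/-- the double sum over Hecke points, two base points -/
noncomputable def MM2 (φ : ℝ → ℝ≥0∞) (n m : ℕ) (z w : ℍ) : ℝ≥0∞ :=
  ∑ x ∈ RR n, ∑ y ∈ RR m, ∑' σ : SL(2, ℤ),
      φ (2 * Real.cosh (dist (hx n x z) (σ • hx m y w)) - 2)

/-- weighted count of integral matrices of given determinant, two base points -/
noncomputable def ct2 (φ : ℝ → ℝ≥0∞) (n : ℤ) (z w : ℍ) : ℝ≥0∞ :=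
  ∑' β : Z4, ic (det4 β = n) * φ (sf2 β z w)

/-- The matching inequality. -/
theorem match_le2 {n m : ℕ} (hn : 0 < n) (hm : 0 < m) (z w : ℍ) (φ : ℝ → ℝ≥0∞) :
    ∑ x ∈ RR n, ∑ y ∈ RR m, ∑' σ : SL(2, ℤ),
      φ (2 * Real.cosh (dist (hx n x z) (σ • hx m y w)) - 2) ≤
    (n.divisors.card : ℝ≥0∞) * ∑ h ∈ n.divisors, (h : ℝ≥0∞) *
      ∑' β : Z4, ic ((h : ℤ) ^ 2 * det4 β = n * m) * φ (sf2 β z w) := by
  classical
  have hpos : ∀ {k : ℕ}, 0 < k → ∀ x ∈ RR k, 0 < k / x.1 ∧ 0 < x.1 ∧ (k / x.1) * x.1 = k := by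
    intro k hk x hx
    rw [mem_RR, Nat.mem_divisors] at hx
    have h0 : 0 < x.1 := Nat.pos_of_dvd_of_pos hx.1.1 hk
    exact ⟨Nat.div_pos (Nat.le_of_dvd hk hx.1.1) h0, h0, Nat.div_mul_cancel hx.1.1⟩
  -- step 1
  have step1 : ∀ x ∈ RR n, ∑ y ∈ RR m, ∑' σ : SL(2, ℤ),
      φ (2 * Real.cosh (dist (hx n x z) (σ • hx m y w)) - 2) ≤
      ∑' β : Z4, ic (dv n (n / x.1) x.2 x.1 β) * (ic (det4 β = n * m) * φ (sf2 β z w)) := by
    intro x hxR
    obtain ⟨hx1, hx2, hx3⟩ := hpos hn x hxR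
    have e1 : ∑ y ∈ RR m, ∑' σ : SL(2, ℤ),
        φ (2 * Real.cosh (dist (hx n x z) (σ • hx m y w)) - 2) =
        ∑' p : (RR m) × SL(2, ℤ), φ (sf2 (psi4 (n / x.1) x.2 x.1 p.2 (m / p.1.1.1) p.1.1.2 p.1.1.1) z w) := by
      rw [ENNReal.tsum_prod', tsum_fintype, ← Finset.sum_coe_sort (RR m)]
      refine Finset.sum_congr rfl fun y _ => tsum_congr fun σ => ?_
      obtain ⟨hy1, hy2, hy3⟩ := hpos hm y.1 y.2
      unfold hx
      rw [dist_hecke2 hx1 hx2 hy1 hy2]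
    rw [e1]
    set Ψ : (RR m) × SL(2, ℤ) → Z4 := fun p =>
      psi4 (n / x.1) x.2 x.1 p.2 (m / p.1.1.1) p.1.1.2 p.1.1.1 with hΨ
    have hinj : Function.Injective Ψ := by
      rintro ⟨⟨y, hy⟩, σ⟩ ⟨⟨y', hy'⟩, σ'⟩ h
      obtain ⟨h1, h2⟩ := psi4_injective hxR hy hy' h
      have h2' : σ = σ' := h2
      subst h1 h2'
      rfl
    have e2 : ∀ p : (RR m) × SL(2, ℤ), φ (sf2 (Ψ p) z w) =
        (fun β : Z4 => ic (dv n (n / x.1) x.2 x.1 β) * (ic (det4 β = n * m) * φ (sf2 β z w))) (Ψ p) := by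
      rintro ⟨⟨y, hy⟩, σ⟩
      obtain ⟨hy1, hy2, hy3⟩ := hpos hm y hy
      simp only
      rw [ic_true (dv_psi4 hx3 _ _ _ _), ic_true, one_mul, one_mul]
      rw [hΨ]
      simp only
      rw [det_psi4]
      have a1 : (((n / x.1 : ℕ) : ℤ)) * x.1 = n := by exact_mod_cast hx3
      have a2 : (((m / y.1 : ℕ) : ℤ)) * y.1 = m := by exact_mod_cast hy3
      rw [a1, a2]
    calc ∑' p, φ (sf2 (Ψ p) z w) = ∑' p, (fun β : Z4 => ic (dv n (n / x.1) x.2 x.1 β) *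
          (ic (det4 β = n * m) * φ (sf2 β z w))) (Ψ p) := tsum_congr e2
      _ ≤ _ := ENNReal.tsum_comp_le_tsum_of_injective hinj _
  refine (Finset.sum_le_sum step1).trans ?_
  rw [← Summable.tsum_finsetSum (fun _ _ => ENNReal.summable)]
  -- step 2
  have step2 : ∀ β : Z4, ∑ x ∈ RR n, ic (dv n (n / x.1) x.2 x.1 β) *
      (ic (det4 β = n * m) * φ (sf2 β z w)) ≤
      (n.divisors.card : ℝ≥0∞) * ((∑ h ∈ n.divisors, (h : ℝ≥0∞) * ic (dvb h β)) *
        (ic (det4 β = n * m) * φ (sf2 β z w))) := by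
    intro β
    rw [← Finset.sum_mul]
    refine (mul_le_mul_left ?_ _).trans (le_of_eq (mul_assoc _ _ _))
    unfold RR
    rw [Finset.sum_sigma]
    refine (Finset.sum_le_card_nsmul _ _ (∑ h ∈ n.divisors, (h : ℝ≥0∞) * ic (dvb h β))
      fun d hd => ?_).trans (by rw [nsmul_eq_mul])
    rw [Nat.mem_divisors] at hd
    exact sum_range_dv_le hn (Nat.div_mul_cancel hd.1) β
  refine (ENNReal.tsum_le_tsum step2).trans ?_
  rw [ENNReal.tsum_mul_left]
  refine mul_le_mul_right ?_ _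
  simp_rw [Finset.sum_mul]
  rw [Summable.tsum_finsetSum (fun _ _ => ENNReal.summable)]
  refine Finset.sum_le_sum fun h hh => ?_
  simp_rw [mul_assoc]
  rw [ENNReal.tsum_mul_left]
  refine mul_le_mul_right ?_ _
  -- step 3: β = h β₀
  have hh0 : 0 < h := Nat.pos_of_mem_divisors hh
  have hhz : (h : ℤ) ≠ 0 := by exact_mod_cast hh0.ne'
  set M : Z4 → Z4 := fun β => ((h : ℤ) * β.1, (h : ℤ) * β.2.1, (h : ℤ) * β.2.2.1,
    (h : ℤ) * β.2.2.2) with hM
  have hMinj : Function.Injective M := by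
    rintro ⟨a, b, c, d⟩ ⟨a', b', c', d'⟩ h1
    simp only [hM, Prod.mk.injEq] at h1 ⊢
    exact ⟨mul_left_cancel₀ hhz h1.1, mul_left_cancel₀ hhz h1.2.1,
      mul_left_cancel₀ hhz h1.2.2.1, mul_left_cancel₀ hhz h1.2.2.2⟩
  rw [← hMinj.tsum_eq (f := fun β : Z4 => ic (dvb h β) * (ic (det4 β = n * m) * φ (sf2 β z w)))]
  · refine ENNReal.tsum_le_tsum fun β => ?_
    have e3 : sf2 (M β) z w = sf2 β z w := sf2_smul hh0 β z w
    have e4 : det4 (M β) = (h : ℤ) ^ 2 * det4 β := by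
      simp only [hM, det4]; ring
    rw [e3, e4]
    calc ic (dvb h (M β)) * (ic ((h : ℤ) ^ 2 * det4 β = n * m) * φ (sf2 β z w)) ≤
        1 * (ic ((h : ℤ) ^ 2 * det4 β = n * m) * φ (sf2 β z w)) :=
          mul_le_mul_left (ic_le_one _) _
      _ = _ := one_mul _
  · intro β hβ
    rw [Function.mem_support] at hβ
    have h1 : dvb h β := by
      by_contra h2
      apply hβ
      rw [ic_false h2, zero_mul]
    obtain ⟨⟨a, ha⟩, ⟨b, hb⟩, ⟨c, hc⟩, ⟨d, hd⟩⟩ := h1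
    refine ⟨(a, b, c, d), ?_⟩
    simp only [hM]
    rw [← ha, ← hb, ← hc, ← hd]

lemma left_unique_aux {n m a b d a' b' d' : ℕ} (hnm : Nat.Coprime n m) (ha : 0 < a)
    (hd' : 0 < d') (h1 : a * d = n) (h2 : a' * d' = n) (hb : b < d) (hb' : b' < d')
    {α γ δ : ℕ} (hP : α * δ = m) {σ : SL(2, ℤ)}
    (hdv : dv n a' b' d' (psi4 a b d σ α γ δ)) : a = a' ∧ b = b' ∧ d = d' := by
  obtain ⟨k1, k2, k3, k4⟩ := hdv
  have hcop : IsCoprime (n : ℤ) (m : ℤ) := Nat.isCoprime_iff_coprime.2 hnm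
  have hs := sl_det σ
  have hPz : (α : ℤ) * δ = m := by exact_mod_cast hP
  have h1z : (n : ℤ) = a * d := by rw [← h1]; push_cast; ring
  have h2z : (n : ℤ) = a' * d' := by rw [← h2]; push_cast; ring
  have e1 : (n : ℤ) ∣ a' * d := by
    refine hcop.dvd_of_dvd_mul_left ?_
    have h3 := dvd_sub (k1.mul_right (σ 1 0 * γ + σ 1 1 * δ)) (k2.mul_right (σ 1 0 * α))
    have h4 : (m : ℤ) * (a' * d) = (a' * (psi4 a b d σ α γ δ).1 +
        b' * (psi4 a b d σ α γ δ).2.2.1) * (σ 1 0 * γ + σ 1 1 * δ) -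
        (a' * (psi4 a b d σ α γ δ).2.1 + b' * (psi4 a b d σ α γ δ).2.2.2) * (σ 1 0 * α) := by
      unfold psi4
      simp only
      linear_combination (-(a' * d) : ℤ) * hPz - (a' * d * α * δ : ℤ) * hs
    rw [h4]; exact h3
  have e2 : (n : ℤ) ∣ d' * a := by
    refine hcop.dvd_of_dvd_mul_left ?_
    have h3 := dvd_sub (k4.mul_right (σ 0 0 * α)) (k3.mul_right (σ 0 0 * γ + σ 0 1 * δ))
    have h4 : (m : ℤ) * (d' * a) = (d' * (psi4 a b d σ α γ δ).2.2.2) * (σ 0 0 * α) -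
        (d' * (psi4 a b d σ α γ δ).2.2.1) * (σ 0 0 * γ + σ 0 1 * δ) := by
      unfold psi4
      simp only
      linear_combination (-(d' * a) : ℤ) * hPz - (d' * a * α * δ : ℤ) * hs
    rw [h4]; exact h3
  have e3 : (n : ℤ) ∣ b' * a - a' * b := by
    refine hcop.dvd_of_dvd_mul_left ?_
    have h3 := dvd_sub (k2.mul_right (σ 0 0 * α)) (k1.mul_right (σ 0 0 * γ + σ 0 1 * δ))
    have h4 : (m : ℤ) * (b' * a - a' * b) = (a' * (psi4 a b d σ α γ δ).2.1 +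
        b' * (psi4 a b d σ α γ δ).2.2.2) * (σ 0 0 * α) -
        (a' * (psi4 a b d σ α γ δ).1 + b' * (psi4 a b d σ α γ δ).2.2.1) *
          (σ 0 0 * γ + σ 0 1 * δ) := by
      unfold psi4
      simp only
      linear_combination (-(b' * a - a' * b) : ℤ) * hPz -
        ((b' * a - a' * b) * α * δ : ℤ) * hs
    rw [h4]; exact h3
  have haz : (a : ℤ) ≠ 0 := by exact_mod_cast ha.ne'
  have hdz : (d : ℤ) ≠ 0 := by have : 0 < d := by omega
                               exact_mod_cast this.ne'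
  have hd'z : (d' : ℤ) ≠ 0 := by exact_mod_cast hd'.ne'
  have f1 : (a : ℤ) ∣ a' := by
    rw [h1z] at e1
    exact (mul_dvd_mul_iff_right hdz).1 e1
  have f2 : (a' : ℤ) ∣ a := by
    rw [h2z, mul_comm] at e2
    exact (mul_dvd_mul_iff_left hd'z).1 e2
  have f3 : (a : ℤ) = a' := Int.dvd_antisymm (by positivity) (by positivity) f1 f2
  have f3' : a = a' := by exact_mod_cast f3
  have f4 : d = d' := by
    rw [← f3', ← h1] at h2
    exact (Nat.eq_of_mul_eq_mul_left ha h2).symm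
  refine ⟨f3', ?_, f4⟩
  rw [← f3, h1z, show (b' : ℤ) * a - a * b = a * (b' - b) by ring] at e3
  have f5 : (d : ℤ) ∣ (b' : ℤ) - b := (mul_dvd_mul_iff_left haz).1 e3
  have f6 : |(b' : ℤ) - b| < d := by
    rw [abs_lt]
    constructor <;> omega
  have f7 := Int.eq_zero_of_abs_lt_dvd f5 f6
  omega

lemma RR_pos {k : ℕ} (hk : 0 < k) {x : Σ _ : ℕ, ℕ} (hx : x ∈ RR k) :
    0 < k / x.1 ∧ 0 < x.1 ∧ (k / x.1) * x.1 = k ∧ x.2 < x.1 := by
  rw [mem_RR, Nat.mem_divisors] at hx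
  have h0 : 0 < x.1 := Nat.pos_of_dvd_of_pos hx.1.1 hk
  exact ⟨Nat.div_pos (Nat.le_of_dvd hk hx.1.1) h0, h0, Nat.div_mul_cancel hx.1.1, hx.2⟩

/-- The matching inequality for coprime indices. -/
theorem match_coprime {n m : ℕ} (hn : 0 < n) (hm : 0 < m) (hnm : Nat.Coprime n m) (z w : ℍ)
    (φ : ℝ → ℝ≥0∞) : MM2 φ n m z w ≤ ct2 φ ((n : ℤ) * m) z w := by
  classical
  set Ψ : (RR n) × (RR m) × SL(2, ℤ) → Z4 := fun p =>
    psi4 (n / p.1.1.1) p.1.1.2 p.1.1.1 p.2.2 (m / p.2.1.1.1) p.2.1.1.2 p.2.1.1.1 with hΨ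
  have hinj : Function.Injective Ψ := by
    rintro ⟨⟨x, hx⟩, ⟨y, hy⟩, σ⟩ ⟨⟨x', hx'⟩, ⟨y', hy'⟩, σ'⟩ h
    simp only [hΨ] at h
    obtain ⟨a1, a2, a3, a4⟩ := RR_pos hn hx
    obtain ⟨b1, b2, b3, b4⟩ := RR_pos hn hx'
    obtain ⟨c1, c2, c3, c4⟩ := RR_pos hm hy
    have hxx : x = x' := by
      obtain ⟨g1, g2, g3⟩ := left_unique_aux hnm a1 b2 a3 b3 a4 b4 c3
        (σ := σ) (γ := y.2) (by rw [h]; exact dv_psi4 b3 _ _ _ _)
      exact Sigma.ext g3 (heq_of_eq g2)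
    subst hxx
    obtain ⟨h1, h2⟩ := psi4_injective hx hy hy' h
    have h2' : σ = σ' := h2
    subst h1 h2'
    rfl
  have e1 : MM2 φ n m z w = ∑' p : (RR n) × (RR m) × SL(2, ℤ), φ (sf2 (Ψ p) z w) := by
    unfold MM2
    rw [ENNReal.tsum_prod', tsum_fintype, ← Finset.sum_coe_sort (RR n)]
    refine Finset.sum_congr rfl fun x _ => ?_
    rw [ENNReal.tsum_prod', tsum_fintype, ← Finset.sum_coe_sort (RR m)]
    refine Finset.sum_congr rfl fun y _ => tsum_congr fun σ => ?_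
    obtain ⟨hx1, hx2, hx3, _⟩ := RR_pos hn x.2
    obtain ⟨hy1, hy2, hy3, _⟩ := RR_pos hm y.2
    unfold hx
    rw [dist_hecke2 hx1 hx2 hy1 hy2]
  rw [e1]
  have e2 : ∀ p, φ (sf2 (Ψ p) z w) =
      (fun β : Z4 => ic (det4 β = (n : ℤ) * m) * φ (sf2 β z w)) (Ψ p) := by
    rintro ⟨⟨x, hx⟩, ⟨y, hy⟩, σ⟩
    obtain ⟨a1, a2, a3, a4⟩ := RR_pos hn hx
    obtain ⟨c1, c2, c3, c4⟩ := RR_pos hm hy
    simp only [hΨ]
    rw [ic_true, one_mul]
    rw [det_psi4]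
    have a1 : (((n / x.1 : ℕ) : ℤ)) * x.1 = n := by exact_mod_cast a3
    have a2 : (((m / y.1 : ℕ) : ℤ)) * y.1 = m := by exact_mod_cast c3
    rw [a1, a2]
  calc ∑' p, φ (sf2 (Ψ p) z w) =
      ∑' p, (fun β : Z4 => ic (det4 β = (n : ℤ) * m) * φ (sf2 β z w)) (Ψ p) := tsum_congr e2
    _ ≤ _ := ENNReal.tsum_comp_le_tsum_of_injective hinj _

/-- Existence of the Hermite form. -/
lemma exists_hermite {l : ℕ} (hl : 0 < l) {β : Z4} (h : det4 β = l) :
    ∃ u ∈ RR l, ∃ τ : SL(2, ℤ), psi4 (l / u.1) u.2 u.1 τ 1 0 1 = β := by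
  obtain ⟨β1, β2, β3, β4⟩ := β
  unfold det4 at h
  simp only at h
  set a : ℕ := Int.gcd β3 β4 with ha
  have ha0 : 0 < a := by
    rw [ha, Int.gcd_pos_iff]
    by_contra hcon
    push Not at hcon
    rw [hcon.1, hcon.2] at h
    simp at h
    omega
  obtain ⟨c, hc⟩ : (a : ℤ) ∣ β3 := Int.gcd_dvd_left _ _
  obtain ⟨e, he⟩ : (a : ℤ) ∣ β4 := Int.gcd_dvd_right _ _
  have haz : (a : ℤ) ≠ 0 := by exact_mod_cast ha0.ne'
  have hbez := Int.gcd_eq_gcd_ab β3 β4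
  rw [← ha] at hbez
  set x := Int.gcdA β3 β4
  set y := Int.gcdB β3 β4
  have h1 : c * x + e * y = 1 := by
    refine mul_left_cancel₀ haz ?_
    rw [hc, he] at hbez
    linear_combination -hbez
  have hl' : (l : ℤ) = a * (β1 * e - β2 * c) := by rw [← h, hc, he]; ring
  obtain ⟨d, hd⟩ : a ∣ l := by
    have : (a : ℤ) ∣ (l : ℤ) := ⟨_, hl'⟩
    exact_mod_cast this
  have hdz : (d : ℤ) = β1 * e - β2 * c := by
    refine mul_left_cancel₀ haz ?_
    rw [← hl', hd]; push_cast; ring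
  have hd0 : 0 < d := Nat.pos_of_ne_zero (by rintro rfl; simp at hd; omega)
  have hdz0 : (0 : ℤ) < d := by exact_mod_cast hd0
  set b0 : ℤ := -(β1 * x) - β2 * y with hb0
  set k : ℤ := -(b0 / d) with hk
  have hb : ((b0 % d).toNat : ℤ) = b0 % d := Int.toNat_of_nonneg (Int.emod_nonneg _ hdz0.ne')
  have hbd : (b0 % d).toNat < d := by
    have := Int.emod_lt_of_pos b0 hdz0
    omega
  have hmod : b0 % d = b0 + k * d := by
    have := Int.emod_add_mul_ediv b0 d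
    rw [hk]; linarith
  have hld : l / d = a := by rw [hd, Nat.mul_div_cancel _ hd0]
  obtain ⟨bb, hbb⟩ : ∃ bb : ℕ, bb = (b0 % d).toNat := ⟨_, rfl⟩
  rw [← hbb] at hb hbd
  rw [hmod] at hb
  refine ⟨⟨d, bb⟩, ?_, ⟨!![y + k * c, -x + k * e; c, e], ?_⟩, ?_⟩
  · rw [mem_RR, Nat.mem_divisors]
    exact ⟨⟨⟨a, by rw [hd]; ring⟩, hl.ne'⟩, hbd⟩
  · rw [Matrix.det_fin_two_of]
    linear_combination h1
  · simp only [hld, psi4]
    simp only [Matrix.of_apply, Matrix.cons_val', Matrix.cons_val_zero,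
      Matrix.cons_val_one,
      hb, Nat.cast_one, Nat.cast_zero, mul_one, mul_zero, zero_add, Prod.mk.injEq]
    refine ⟨?_, ?_, hc.symm, he.symm⟩
    · rw [hb0, hdz]
      linear_combination (β1) * h1
    · rw [hb0, hdz]
      linear_combination (β2) * h1

/-- sum over Hecke points of the first variable -/
noncomputable def HH (φ : ℝ → ℝ≥0∞) (l : ℕ) (z w : ℍ) : ℝ≥0∞ :=
  ∑ u ∈ RR l, ∑' τ : SL(2, ℤ), φ (2 * Real.cosh (dist (hx l u z) (τ • w)) - 2)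

lemma hp_one (w : ℍ) : hp 1 0 1 w = w := by
  apply UpperHalfPlane.ext
  rw [coe_hp one_pos one_pos]
  simp

theorem ct2_le (φ : ℝ → ℝ≥0∞) {l : ℕ} (hl : 0 < l) (z w : ℍ) :
    ct2 φ l z w ≤ HH φ l z w := by
  classical
  set Ψ : (RR l) × SL(2, ℤ) → Z4 := fun p => psi4 (l / p.1.1.1) p.1.1.2 p.1.1.1 p.2 1 0 1 with hΨ
  have e1 : HH φ l z w = ∑' p : (RR l) × SL(2, ℤ), φ (sf2 (Ψ p) z w) := by
    unfold HH
    rw [ENNReal.tsum_prod', tsum_fintype, ← Finset.sum_coe_sort (RR l)]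
    refine Finset.sum_congr rfl fun u _ => tsum_congr fun τ => ?_
    obtain ⟨h1, h2, _, _⟩ := RR_pos hl u.2
    have h3 := dist_hecke2 (b := u.1.2) h1 h2 (b' := 0) one_pos one_pos τ z w
    rw [hp_one] at h3
    unfold hx
    rw [h3]
  rw [e1]
  have hex : ∀ β : {β : Z4 // det4 β = l}, ∃ p : (RR l) × SL(2, ℤ), Ψ p = β := by
    rintro ⟨β, hβ⟩
    obtain ⟨u, hu, τ, hτ⟩ := exists_hermite hl hβ
    exact ⟨⟨⟨u, hu⟩, τ⟩, hτ⟩
  choose s hs using hex
  have hinj : Function.Injective s := by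
    intro β β' h
    apply Subtype.ext
    rw [← hs β, ← hs β', h]
  unfold ct2
  have e2 : ∑' β : Z4, ic (det4 β = l) * φ (sf2 β z w) =
      ∑' β : {β : Z4 // det4 β = l}, φ (sf2 β z w) := by
    refine Eq.trans ?_ (tsum_subtype {β : Z4 | det4 β = l} (fun β => φ (sf2 β z w))).symm
    refine tsum_congr fun β => ?_
    by_cases h : det4 β = l
    · rw [ic_true h, one_mul, Set.indicator_of_mem (by exact h)]
    · rw [ic_false h, zero_mul, Set.indicator_of_notMem (by exact h)]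
  rw [e2]
  calc ∑' β : {β : Z4 // det4 β = l}, φ (sf2 β z w) =
      ∑' β : {β : Z4 // det4 β = l}, (fun p => φ (sf2 (Ψ p) z w)) (s β) := by
        refine tsum_congr fun β => ?_
        simp only
        rw [hs β]
    _ ≤ _ := ENNReal.tsum_comp_le_tsum_of_injective hinj _

lemma ct2_of {φ : ℝ → ℝ≥0∞} {P : Z4 → Prop} {n : ℤ} {z w : ℍ}
    (h : ∀ β, P β → det4 β = n) : ∑' β : Z4, ic (P β) * φ (sf2 β z w) ≤ ct2 φ n z w := by
  unfold ct2
  refine ENNReal.tsum_le_tsum fun β => ?_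
  gcongr
  exact ic_mono (h β)

lemma MM2_prime (φ : ℝ → ℝ≥0∞) {p q : ℕ} (hp : p.Prime) (hq : q.Prime) (z w : ℍ) :
    MM2 φ p q z w ≤ 2 * ct2 φ (p * q : ℕ) z w +
      if q = p then 2 * (p : ℝ≥0∞) * ct2 φ (1 : ℕ) z w else 0 := by
  have hp0 : (p : ℤ) ≠ 0 := by exact_mod_cast hp.ne_zero
  by_cases hqp : q = p
  · subst hqp
    rw [if_pos rfl]
    refine (match_le2 hq.pos hq.pos z w φ).trans ?_
    rw [hq.divisors, Finset.card_pair hq.one_lt.ne, Finset.sum_pair hq.one_lt.ne, mul_add]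
    push_cast
    refine add_le_add ?_ ?_
    · refine mul_le_mul_right ?_ 2
      rw [one_mul]
      exact ct2_of fun β h => by simpa using h
    · rw [mul_assoc]
      refine mul_le_mul_right ?_ 2
      refine mul_le_mul_right ?_ _
      refine ct2_of fun β h => ?_
      rw [sq] at h
      have h2 : (q : ℤ) * q * det4 β = q * q * 1 := by rw [h]; ring
      exact mul_left_cancel₀ (mul_ne_zero hp0 hp0) h2
  · rw [if_neg hqp, add_zero]
    have h1 := match_coprime hp.pos hq.pos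
      ((Nat.coprime_primes hp hq).2 (fun h => hqp h.symm)) z w φ
    refine h1.trans ?_
    push_cast
    exact le_mul_of_one_le_left zero_le (by norm_num)

lemma MM2_sq (φ : ℝ → ℝ≥0∞) {p q : ℕ} (hp : p.Prime) (hq : q.Prime) (z w : ℍ) :
    MM2 φ (p ^ 2) (q ^ 2) z w ≤ 3 * ct2 φ ((p * q) ^ 2 : ℕ) z w +
      if q = p then 3 * (p : ℝ≥0∞) * ct2 φ (p ^ 2 : ℕ) z w +
        3 * (p : ℝ≥0∞) ^ 2 * ct2 φ (1 : ℕ) z w else 0 := by
  have hp0 : (p : ℤ) ≠ 0 := by exact_mod_cast hp.ne_zero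
  by_cases hqp : q = p
  · subst hqp
    rw [if_pos rfl]
    have hpp2 : q ≠ q ^ 2 := by
      intro h; have := hq.one_lt; nlinarith
    have h1p2 : 1 ≠ q ^ 2 := by
      intro h; have := hq.one_lt; nlinarith
    refine (match_le2 (pow_pos hq.pos 2) (pow_pos hq.pos 2) z w φ).trans ?_
    rw [divisors_sq hq]
    have hcard : ({1, q, q ^ 2} : Finset ℕ).card = 3 := by
      rw [Finset.card_insert_of_notMem, Finset.card_pair hpp2]
      simp only [Finset.mem_insert, Finset.mem_singleton, not_or]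
      exact ⟨hq.one_lt.ne, h1p2⟩
    rw [hcard, Finset.sum_insert (by
      simp only [Finset.mem_insert, Finset.mem_singleton, not_or]
      exact ⟨hq.one_lt.ne, h1p2⟩), Finset.sum_pair hpp2, mul_add, mul_add]
    push_cast
    refine add_le_add ?_ (add_le_add ?_ ?_)
    · refine mul_le_mul_right ?_ 3
      rw [one_mul]
      exact ct2_of fun β h => by rw [one_mul] at h; rw [h]; ring
    · rw [mul_assoc]
      refine mul_le_mul_right ?_ 3
      refine mul_le_mul_right ?_ _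
      refine ct2_of fun β h => ?_
      exact mul_left_cancel₀ (pow_ne_zero 2 hp0) h
    · rw [mul_assoc]
      refine mul_le_mul_right ?_ 3
      refine mul_le_mul_right ?_ _
      refine ct2_of fun β h => ?_
      have h2 : ((q : ℤ) ^ 2) ^ 2 * det4 β = ((q : ℤ) ^ 2) ^ 2 * 1 := by rw [h]; ring
      exact mul_left_cancel₀ (pow_ne_zero 2 (pow_ne_zero 2 hp0)) h2
  · rw [if_neg hqp, add_zero]
    have h1 := match_coprime (pow_pos hp.pos 2) (pow_pos hq.pos 2)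
      (((Nat.coprime_primes hp hq).2 (fun h => hqp h.symm)).pow 2 2) z w φ
    refine h1.trans ?_
    have h2 : ((p ^ 2 : ℕ) : ℤ) * ((q ^ 2 : ℕ) : ℤ) = (((p * q) ^ 2 : ℕ) : ℤ) := by
      push_cast; ring
    rw [h2]
    exact le_mul_of_one_le_left zero_le (by norm_num)

end Pool.Agent.H19.Maass
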