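import Mathlib
import Pool.Agent.H19.Maass.Amp
import Pool.Agent.H19.Maass.Two

set_option autoImplicit false

namespace Pool.Agent.H19.Maass

open MeasureTheory UpperHalfPlane ModularGroup
open scoped MatrixGroups Modular UpperHalfPlane ENNReal

open scoped ComplexConjugate

lemma exists_unit (u : ℂ) : ∃ e : ℂ, ‖e‖ ≤ 1 ∧ e * u = (‖u‖ : ℂ) := by
  by_cases h : u = 0
  · exact ⟨0, by simp, by simp [h]⟩
  · have hn : (‖u‖ : ℂ) ≠ 0 := by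
      rw [Ne, Complex.ofReal_eq_zero, norm_eq_zero]; exact h
    refine ⟨conj u / ‖u‖, ?_, ?_⟩
    · rw [norm_div, RCLike.norm_conj, Complex.norm_real, norm_norm, div_self]
      rwa [Ne, norm_eq_zero]
    · rw [div_mul_eq_mul_div, mul_comm, Complex.mul_conj, Complex.normSq_eq_norm_sq]
      push_cast
      field_simp

lemma sum_six {ι α : Type*} {M : Type*} [AddCommMonoid M] (𝒩 : Finset ℕ) (J : Finset ι)
    (R : ℕ → Finset α) (G : (Σ _ : ℕ × ι, α) → (Σ _ : ℕ × ι, α) → M) :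
    ∑ i ∈ (𝒩 ×ˢ J).sigma fun p => R p.1, ∑ i' ∈ (𝒩 ×ˢ J).sigma fun p => R p.1, G i i' =
      ∑ n ∈ 𝒩, ∑ n' ∈ 𝒩, ∑ r ∈ J, ∑ s ∈ J, ∑ x ∈ R n, ∑ y ∈ R n',
        G ⟨(n, r), x⟩ ⟨(n', s), y⟩ := by
  rw [Finset.sum_sigma, Finset.sum_product]
  refine Finset.sum_congr rfl fun n _ => ?_
  have h1 : ∀ i : (Σ _ : ℕ × ι, α), ∑ i' ∈ (𝒩 ×ˢ J).sigma fun p => R p.1, G i i' =
      ∑ n' ∈ 𝒩, ∑ s ∈ J, ∑ y ∈ R n', G i ⟨(n', s), y⟩ := by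
    intro i
    rw [Finset.sum_sigma, Finset.sum_product]
  simp_rw [h1]
  calc ∑ r ∈ J, ∑ x ∈ R n, ∑ n' ∈ 𝒩, ∑ s ∈ J, ∑ y ∈ R n', G ⟨(n, r), x⟩ ⟨(n', s), y⟩
      = ∑ r ∈ J, ∑ n' ∈ 𝒩, ∑ x ∈ R n, ∑ s ∈ J, ∑ y ∈ R n', G ⟨(n, r), x⟩ ⟨(n', s), y⟩ :=
        Finset.sum_congr rfl fun r _ => Finset.sum_comm
    _ = ∑ n' ∈ 𝒩, ∑ r ∈ J, ∑ x ∈ R n, ∑ s ∈ J, ∑ y ∈ R n', G ⟨(n, r), x⟩ ⟨(n', s), y⟩ :=
        Finset.sum_comm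
    _ = _ := Finset.sum_congr rfl fun n' _ => Finset.sum_congr rfl fun r _ => Finset.sum_comm

/-- The amplified pre-trace inequality for one form and several points. -/
theorem amplified2 {k : ℝ → ℝ} {R : ℝ} (hk : Ker k R) (φ : ℝ → ℝ≥0∞)
    (hφ : ∀ z w : ℍ, ENNReal.ofReal |KK k z w| ≤ φ (2 * Real.cosh (dist z w) - 2))
    {t : ℝ} {U : ℂ → ℂ} {c : ℕ → ℂ} (hF : Frm t U c)
    (hsel : 1 / 5 ≤ ‖selb k (1 / 2 + t * Complex.I)‖)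
    (𝒩 : Finset ℕ) (h𝒩 : ∀ n ∈ 𝒩, 1 ≤ n) (a : ℕ → ℂ) {ι : Type*} (J : Finset ι)
    (m : ι → ℝ) (hm : ∀ r, 0 ≤ m r) (z : ι → ℍ) :
    ENNReal.ofReal (‖∑ n ∈ 𝒩, a n * c n‖ ^ 2 * (∑ r ∈ J, m r * ‖U (z r)‖) ^ 2) ≤
      13 * ∑ n ∈ 𝒩, ∑ n' ∈ 𝒩, ENNReal.ofReal (‖a n‖ * ‖a n'‖) *
        ∑ r ∈ J, ∑ s ∈ J, ENNReal.ofReal (m r * m s) * MM2 φ n n' (z r) (z s) := by
  classical
  choose e he1 he2 using fun r => exists_unit (U (z r))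
  set I : Finset (Σ _ : ℕ × ι, (Σ _ : ℕ, ℕ)) := (𝒩 ×ˢ J).sigma fun p => RR p.1 with hI
  set α : (Σ _ : ℕ × ι, (Σ _ : ℕ, ℕ)) → ℂ := fun i => e i.1.2 * m i.1.2 * a i.1.1 with hα
  set ζ : (Σ _ : ℕ × ι, (Σ _ : ℕ, ℕ)) → ℍ := fun i => hx i.1.1 i.2 (z i.1.2) with hζ
  set Φ : (Σ _ : ℕ × ι, (Σ _ : ℕ, ℕ)) → (Σ _ : ℕ × ι, (Σ _ : ℕ, ℕ)) → ℝ := fun i i' =>
    ‖∫ w in 𝒟, (pk k (ζ i') w : ℂ) * (pk k (ζ i) w : ℂ)‖ with hΦ
  have hb := bessel hk (J := Unit) (fun _ (w : ℍ) => U w) (fun _ => hF.continuous)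
    (fun _ γ w => hF.inv γ w) (fun _ => hF.l2)
    (fun i j => by rw [if_pos (Subsingleton.elim i j)]; exact hF.nrm)
    (fun _ => selb k (1 / 2 + t * Complex.I))
    (fun _ z => selberg hF.eig hk z) I α ζ Φ (fun i _ i' _ => le_refl _)
  simp only [Finset.univ_unique, Finset.sum_singleton] at hb
  have h1 : ∑ i ∈ I, α i * U (ζ i) = (∑ n ∈ 𝒩, a n * c n) * (∑ r ∈ J, m r * ‖U (z r)‖ : ℝ) := by
    rw [hI, Finset.sum_sigma, Finset.sum_product, Finset.sum_mul]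
    refine Finset.sum_congr rfl fun n hn => ?_
    push_cast
    rw [Finset.mul_sum]
    refine Finset.sum_congr rfl fun r _ => ?_
    simp only [hα, hζ]
    rw [← Finset.mul_sum, hF.hecke n (h𝒩 n hn) (z r), ← he2 r]
    ring
  have h2 : ‖∑ n ∈ 𝒩, a n * c n‖ ^ 2 * (∑ r ∈ J, m r * ‖U (z r)‖) ^ 2 ≤
      25 / 4 * ∑ i ∈ I, ∑ i' ∈ I, ‖α i‖ * ‖α i'‖ * Φ i i' := by
    have h3 : ‖∑ n ∈ 𝒩, a n * c n‖ ^ 2 * (∑ r ∈ J, m r * ‖U (z r)‖) ^ 2 ≤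
        25 / 4 * ‖2 * selb k (1 / 2 + t * Complex.I) * ∑ i ∈ I, α i * U (ζ i)‖ ^ 2 := by
      rw [h1, norm_mul, norm_mul, norm_mul, Complex.norm_ofNat, Complex.norm_real, Real.norm_eq_abs,
        ← sq_abs (∑ r ∈ J, m r * ‖U (z r)‖)]
      set s := ‖selb k (1 / 2 + t * Complex.I)‖
      set A := ‖∑ n ∈ 𝒩, a n * c n‖
      set B := |∑ r ∈ J, m r * ‖U (z r)‖|
      have h4 : (1 : ℝ) ≤ 25 * s ^ 2 := by nlinarith
      have h5 : 0 ≤ A ^ 2 * B ^ 2 := by positivity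
      calc A ^ 2 * B ^ 2 ≤ 25 * s ^ 2 * (A ^ 2 * B ^ 2) := le_mul_of_one_le_left h5 h4
        _ = 25 / 4 * (2 * s * (A * B)) ^ 2 := by ring
    exact h3.trans (mul_le_mul_of_nonneg_left hb (by norm_num))
  refine (ENNReal.ofReal_le_ofReal h2).trans ?_
  rw [ENNReal.ofReal_mul (by norm_num), ENNReal.ofReal_sum_of_nonneg
    (fun i _ => Finset.sum_nonneg fun i' _ => by positivity)]
  have hnα : ∀ i, ‖α i‖ ≤ m i.1.2 * ‖a i.1.1‖ := by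
    intro i
    simp only [hα]
    rw [norm_mul, norm_mul, Complex.norm_real, Real.norm_of_nonneg (hm _)]
    have := he1 i.1.2
    have h0 : 0 ≤ m i.1.2 * ‖a i.1.1‖ := mul_nonneg (hm _) (norm_nonneg _)
    calc ‖e i.1.2‖ * m i.1.2 * ‖a i.1.1‖ = ‖e i.1.2‖ * (m i.1.2 * ‖a i.1.1‖) := by ring
      _ ≤ 1 * (m i.1.2 * ‖a i.1.1‖) := mul_le_mul_of_nonneg_right this h0
      _ = _ := one_mul _
  have h6 : ∑ i ∈ I, ENNReal.ofReal (∑ i' ∈ I, ‖α i‖ * ‖α i'‖ * Φ i i') ≤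
      2 * ∑ n ∈ 𝒩, ∑ n' ∈ 𝒩, ENNReal.ofReal (‖a n‖ * ‖a n'‖) *
        ∑ r ∈ J, ∑ s ∈ J, ENNReal.ofReal (m r * m s) * MM2 φ n n' (z r) (z s) := by
    have h7 : ∀ i i', ENNReal.ofReal (‖α i‖ * ‖α i'‖ * Φ i i') ≤
        2 * (ENNReal.ofReal (‖a i.1.1‖ * ‖a i'.1.1‖) * (ENNReal.ofReal (m i.1.2 * m i'.1.2) *
          ∑' σ : SL(2, ℤ), φ (2 * Real.cosh (dist (ζ i) (σ • ζ i')) - 2))) := by
      intro i i'
      rw [ENNReal.ofReal_mul (by positivity)]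
      have h8 : ENNReal.ofReal (‖α i‖ * ‖α i'‖) ≤
          ENNReal.ofReal (‖a i.1.1‖ * ‖a i'.1.1‖) * ENNReal.ofReal (m i.1.2 * m i'.1.2) := by
        rw [← ENNReal.ofReal_mul (by positivity)]
        refine ENNReal.ofReal_le_ofReal ?_
        calc ‖α i‖ * ‖α i'‖ ≤ (m i.1.2 * ‖a i.1.1‖) * (m i'.1.2 * ‖a i'.1.1‖) :=
              mul_le_mul (hnα i) (hnα i') (norm_nonneg _) (mul_nonneg (hm _) (norm_nonneg _))
          _ = _ := by ring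
      refine (mul_le_mul' h8 (pair_le hk φ hφ _ _)).trans (le_of_eq ?_)
      ring
    calc ∑ i ∈ I, ENNReal.ofReal (∑ i' ∈ I, ‖α i‖ * ‖α i'‖ * Φ i i')
        = ∑ i ∈ I, ∑ i' ∈ I, ENNReal.ofReal (‖α i‖ * ‖α i'‖ * Φ i i') := by
          refine Finset.sum_congr rfl fun i _ => ?_
          exact ENNReal.ofReal_sum_of_nonneg fun i' _ => by positivity
      _ ≤ ∑ i ∈ I, ∑ i' ∈ I, 2 * (ENNReal.ofReal (‖a i.1.1‖ * ‖a i'.1.1‖) *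
          (ENNReal.ofReal (m i.1.2 * m i'.1.2) *
          ∑' σ : SL(2, ℤ), φ (2 * Real.cosh (dist (ζ i) (σ • ζ i')) - 2))) :=
          Finset.sum_le_sum fun i _ => Finset.sum_le_sum fun i' _ => h7 i i'
      _ = 2 * ∑ n ∈ 𝒩, ∑ n' ∈ 𝒩, ENNReal.ofReal (‖a n‖ * ‖a n'‖) *
        ∑ r ∈ J, ∑ s ∈ J, ENNReal.ofReal (m r * m s) * MM2 φ n n' (z r) (z s) := by
          simp_rw [← Finset.mul_sum]
          congr 1
          rw [hI, sum_six 𝒩 J RR]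
          refine Finset.sum_congr rfl fun n _ => Finset.sum_congr rfl fun n' _ => ?_
          simp only [hζ]
          unfold MM2
          simp_rw [Finset.mul_sum]
  refine (mul_le_mul_right h6 _).trans ?_
  rw [← mul_assoc]
  refine mul_le_mul_left ?_ _
  rw [show (2 : ℝ≥0∞) = ENNReal.ofReal 2 by norm_num, show (13 : ℝ≥0∞) = ENNReal.ofReal 13 by norm_num,
    ← ENNReal.ofReal_mul (by norm_num)]
  exact ENNReal.ofReal_le_ofReal (by norm_num)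

end Pool.Agent.H19.Maass
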