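import Mathlib
import Pool.Agent.H19.Maass.Count
import Pool.Agent.H19.Maass.Bessel

set_option autoImplicit false

namespace Pool.Agent.H19.Maass

open MeasureTheory UpperHalfPlane ModularGroup Metric
open scoped MatrixGroups Modular UpperHalfPlane ENNReal NNReal

lemma dens_eq {z : ℂ} (hz : 0 < z.im) :
    ((((1 / ‖z.im‖₊) ^ 2 : ℝ≥0)) : ℝ≥0∞) = ENNReal.ofReal ((1 / z.im) ^ 2) := by
  rw [ENNReal.ofReal, ENNReal.coe_inj]
  apply NNReal.eq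
  rw [Real.coe_toNNReal _ (by positivity)]
  push_cast
  rw [Real.norm_of_nonneg hz.le]

lemma exp_bd {ρ : ℝ} (h1 : ρ ≤ 1) : Real.exp ρ ≤ 3 := by
  have h2 : Real.exp ρ ≤ Real.exp 1 := Real.exp_le_exp.2 h1
  have h3 := Real.exp_one_lt_d9
  linarith

lemma im_ball {z : ℍ} {ρ : ℝ} (h1 : ρ ≤ 1) {w : ℂ}
    (hw : w ∈ closedBall ((z.center ρ : ℍ) : ℂ) (z.im * Real.sinh ρ)) :
    z.im / 3 ≤ w.im ∧ w.im ≤ 3 * z.im := by
  have hy := z.im_pos
  rw [mem_closedBall, dist_eq_norm] at hw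
  have h2 : |w.im - z.im * Real.cosh ρ| ≤ z.im * Real.sinh ρ := by
    refine le_trans ?_ hw
    have h3 := Complex.abs_im_le_norm (w - ((z.center ρ : ℍ) : ℂ))
    rw [Complex.sub_im, coe_im, center_im] at h3
    exact h3
  rw [abs_le] at h2
  have h4 := exp_bd h1
  have e1 : Real.cosh ρ + Real.sinh ρ = Real.exp ρ := Real.cosh_add_sinh ρ
  have e2 : Real.cosh ρ - Real.sinh ρ = Real.exp (-ρ) := Real.cosh_sub_sinh ρ
  have h5 : 1 / 3 ≤ Real.exp (-ρ) := by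
    rw [Real.exp_neg, ← one_div]
    exact one_div_le_one_div_of_le (Real.exp_pos _) h4
  constructor
  · have : z.im * Real.exp (-ρ) ≤ w.im := by rw [← e2]; linarith [h2.1]
    nlinarith
  · have : w.im ≤ z.im * Real.exp ρ := by rw [← e1]; linarith [h2.2]
    nlinarith

lemma sinh_bd {ρ : ℝ} (h0 : 0 < ρ) (h1 : ρ ≤ 1) : ρ ≤ Real.sinh ρ ∧ Real.sinh ρ ≤ 3 / 2 * ρ := by
  refine ⟨Real.self_le_sinh_iff.2 h0.le, ?_⟩
  rw [Real.sinh_eq]
  have h2 := Real.abs_exp_sub_one_sub_id_le (x := ρ) (by rw [abs_of_pos h0]; exact h1)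
  rw [abs_le] at h2
  have h3 := Real.add_one_le_exp (-ρ)
  nlinarith [h2.2]

lemma vol_ball_le (z : ℍ) {ρ : ℝ} (h0 : 0 < ρ) (h1 : ρ ≤ 1) :
    volume (closedBall z ρ) ≤ ENNReal.ofReal (100 * ρ ^ 2) := by
  have hy := z.im_pos
  obtain ⟨hs1, hs2⟩ := sinh_bd h0 h1
  have hs0 : 0 < Real.sinh ρ := lt_of_lt_of_le h0 hs1
  rw [volume_eq_lintegral, image_coe_closedBall]
  calc ∫⁻ w in closedBall ((z.center ρ : ℍ) : ℂ) (z.im * Real.sinh ρ),
        ((((1 / ‖w.im‖₊) ^ 2 : ℝ≥0)) : ℝ≥0∞)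
      ≤ ∫⁻ _ in closedBall ((z.center ρ : ℍ) : ℂ) (z.im * Real.sinh ρ),
        ENNReal.ofReal (9 / z.im ^ 2) := by
        refine setLIntegral_mono' isClosed_closedBall.measurableSet fun w hw => ?_
        obtain ⟨h2, h3⟩ := im_ball h1 hw
        have h4 : 0 < w.im := by linarith
        rw [dens_eq h4]
        refine ENNReal.ofReal_le_ofReal ?_
        rw [one_div_pow, div_le_div_iff₀ (by positivity) (by positivity)]
        nlinarith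
    _ = ENNReal.ofReal (9 / z.im ^ 2) * (ENNReal.ofReal (z.im * Real.sinh ρ) ^ 2 * NNReal.pi) := by
        rw [setLIntegral_const, Complex.volume_closedBall]
    _ = ENNReal.ofReal (9 / z.im ^ 2 * ((z.im * Real.sinh ρ) ^ 2 * Real.pi)) := by
        rw [← ENNReal.ofReal_pow (by positivity), ← NNReal.coe_real_pi, ENNReal.ofReal_mul (by positivity),
          ENNReal.ofReal_mul (by positivity), ENNReal.ofReal_coe_nnreal]
    _ ≤ ENNReal.ofReal (100 * ρ ^ 2) := by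
        refine ENNReal.ofReal_le_ofReal ?_
        have h5 : 9 / z.im ^ 2 * ((z.im * Real.sinh ρ) ^ 2 * Real.pi) =
            9 * (Real.sinh ρ ^ 2 * Real.pi) := by field_simp
        rw [h5]
        have h6 : Real.sinh ρ ^ 2 ≤ (3 / 2 * ρ) ^ 2 := pow_le_pow_left₀ hs0.le hs2 2
        have h7 := Real.pi_lt_d2
        have h8 := Real.pi_pos
        have h9 : Real.sinh ρ ^ 2 * Real.pi ≤ (3 / 2 * ρ) ^ 2 * 3.15 :=
          mul_le_mul h6 h7.le h8.le (by positivity)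
        nlinarith [sq_nonneg ρ]

lemma le_vol_ball (z : ℍ) {ρ : ℝ} (h0 : 0 < ρ) (h1 : ρ ≤ 1) :
    ENNReal.ofReal (ρ ^ 2 / 10) ≤ volume (closedBall z ρ) := by
  have hy := z.im_pos
  obtain ⟨hs1, hs2⟩ := sinh_bd h0 h1
  have hs0 : 0 < Real.sinh ρ := lt_of_lt_of_le h0 hs1
  rw [volume_eq_lintegral, image_coe_closedBall]
  calc ENNReal.ofReal (ρ ^ 2 / 10)
      ≤ ENNReal.ofReal (1 / (9 * z.im ^ 2) * ((z.im * Real.sinh ρ) ^ 2 * Real.pi)) := by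
        refine ENNReal.ofReal_le_ofReal ?_
        have h5 : 1 / (9 * z.im ^ 2) * ((z.im * Real.sinh ρ) ^ 2 * Real.pi) =
            1 / 9 * (Real.sinh ρ ^ 2 * Real.pi) := by field_simp
        rw [h5]
        have h6 : ρ ^ 2 ≤ Real.sinh ρ ^ 2 := pow_le_pow_left₀ h0.le hs1 2
        have h7 := Real.pi_gt_three
        have h9 : ρ ^ 2 * 3 ≤ Real.sinh ρ ^ 2 * Real.pi :=
          mul_le_mul h6 h7.le (by norm_num) (by positivity)
        nlinarith [sq_nonneg ρ]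
    _ = ENNReal.ofReal (1 / (9 * z.im ^ 2)) *
          (ENNReal.ofReal (z.im * Real.sinh ρ) ^ 2 * NNReal.pi) := by
        rw [← ENNReal.ofReal_pow (by positivity), ← NNReal.coe_real_pi, ENNReal.ofReal_mul (by positivity),
          ENNReal.ofReal_mul (by positivity), ENNReal.ofReal_coe_nnreal]
    _ = ∫⁻ _ in closedBall ((z.center ρ : ℍ) : ℂ) (z.im * Real.sinh ρ),
        ENNReal.ofReal (1 / (9 * z.im ^ 2)) := by
        rw [setLIntegral_const, Complex.volume_closedBall]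
    _ ≤ _ := by
        refine setLIntegral_mono' isClosed_closedBall.measurableSet fun w hw => ?_
        obtain ⟨h2, h3⟩ := im_ball h1 hw
        have h4 : 0 < w.im := by linarith
        rw [dens_eq h4]
        refine ENNReal.ofReal_le_ofReal ?_
        rw [one_div_pow, div_le_div_iff₀ (by positivity) (by positivity)]
        nlinarith

/-- number of `σ` moving `w` close to `z` -/
noncomputable def NN (ρ : ℝ) (z w : ℍ) : ℝ≥0∞ := ∑' σ : SL(2, ℤ), ic (dist z (σ • w) ≤ ρ)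

lemma measurable_ic_dist (P : ℍ) (ρ : ℝ) (σ : SL(2, ℤ)) :
    Measurable fun w : ℍ => ic (dist P (σ • w) ≤ ρ) := by
  have h1 : MeasurableSet {w : ℍ | dist P (σ • w) ≤ ρ} :=
    (isClosed_le (continuous_const.dist (continuous_const_smul σ)) continuous_const).measurableSet
  have h2 : (fun w : ℍ => ic (dist P (σ • w) ≤ ρ)) =
      Set.indicator {w : ℍ | dist P (σ • w) ≤ ρ} 1 := by
    ext w
    by_cases h : dist P (σ • w) ≤ ρ
    · rw [ic_true h, Set.indicator_of_mem (by exact h), Pi.one_apply]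
    · rw [ic_false h, Set.indicator_of_notMem (by exact h)]
  rw [h2]
  exact measurable_one.indicator h1

lemma measurable_ic_dist' (P : ℍ) (ρ : ℝ) :
    Measurable fun w : ℍ => ic (dist P w ≤ ρ) := by
  have := measurable_ic_dist P ρ 1
  simpa using this

lemma measurable_NN (P : ℍ) (ρ : ℝ) : Measurable fun w : ℍ => NN ρ P w := by
  unfold NN
  exact Measurable.tsum fun σ => measurable_ic_dist P ρ σ

lemma NN_smul (ρ : ℝ) (P w : ℍ) (γ : SL(2, ℤ)) : NN ρ P (γ • w) = NN ρ P w := by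
  unfold NN
  rw [← (Equiv.mulRight γ).tsum_eq (fun σ : SL(2, ℤ) => ic (dist P (σ • w) ≤ ρ))]
  simp [mul_smul]

/-- unfolding the product of two counting functions -/
lemma lintegral_NN_mul (ρ₁ ρ₂ : ℝ) (P Q : ℍ) :
    ∫⁻ w in 𝒟, NN ρ₁ P w * NN ρ₂ Q w =
      2 * ∑' τ : SL(2, ℤ), ∫⁻ v : ℍ, ic (dist P v ≤ ρ₁) * ic (dist Q (τ • v) ≤ ρ₂) := by
  have hm : Measurable fun v : ℍ => ic (dist P v ≤ ρ₁) * NN ρ₂ Q v :=
    (measurable_ic_dist' P ρ₁).mul (measurable_NN Q ρ₂)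
  have h1 : ∀ w : ℍ, NN ρ₁ P w * NN ρ₂ Q w =
      ∑' σ : SL(2, ℤ), (fun v : ℍ => ic (dist P v ≤ ρ₁) * NN ρ₂ Q v) (σ • w) := by
    intro w
    simp only [NN_smul]
    rw [ENNReal.tsum_mul_right]
    rfl
  simp_rw [h1]
  rw [lintegral_unfold hm, ← lintegral_tsum]
  · congr 1
    refine lintegral_congr fun v => ?_
    rw [ENNReal.tsum_mul_left]
    rfl
  · intro τ
    exact ((measurable_ic_dist' P ρ₁).mul (measurable_ic_dist Q ρ₂ τ)).aemeasurable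

lemma lintegral_ic_le (P : ℍ) {ρ : ℝ} : ∫⁻ v : ℍ, ic (dist P v ≤ ρ) = volume (closedBall P ρ) := by
  rw [← lintegral_indicator_one isClosed_closedBall.measurableSet]
  refine lintegral_congr fun v => ?_
  by_cases h : dist P v ≤ ρ
  · rw [ic_true h, Set.indicator_of_mem (by rw [mem_closedBall, dist_comm]; exact h), Pi.one_apply]
  · rw [ic_false h, Set.indicator_of_notMem (by rw [mem_closedBall, dist_comm]; exact h)]

lemma pair_upper {ρ₁ ρ₂ : ℝ} (P Q : ℍ) (h0 : 0 < ρ₁) (h1 : ρ₁ ≤ 1) :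
    ∫⁻ w in 𝒟, NN ρ₁ P w * NN ρ₂ Q w ≤
      ENNReal.ofReal (200 * ρ₁ ^ 2) * NN (ρ₁ + ρ₂) P Q := by
  rw [lintegral_NN_mul]
  have h2 : ∀ τ : SL(2, ℤ), ∫⁻ v : ℍ, ic (dist P v ≤ ρ₁) * ic (dist Q (τ • v) ≤ ρ₂) ≤
      ENNReal.ofReal (100 * ρ₁ ^ 2) * ic (dist P (τ⁻¹ • Q) ≤ ρ₁ + ρ₂) := by
    intro τ
    calc ∫⁻ v : ℍ, ic (dist P v ≤ ρ₁) * ic (dist Q (τ • v) ≤ ρ₂)
        ≤ ∫⁻ v : ℍ, ic (dist P v ≤ ρ₁) * ic (dist P (τ⁻¹ • Q) ≤ ρ₁ + ρ₂) := by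
          refine lintegral_mono fun v => ?_
          rw [← ic_and, ← ic_and]
          refine ic_mono ?_
          rintro ⟨a, b⟩
          refine ⟨a, ?_⟩
          have h3 : dist (τ⁻¹ • Q) v = dist Q (τ • v) := by
            rw [dist_sl' τ Q v]
          have h4 := dist_triangle P v (τ⁻¹ • Q)
          rw [dist_comm v, h3] at h4
          linarith
      _ = (∫⁻ v : ℍ, ic (dist P v ≤ ρ₁)) * ic (dist P (τ⁻¹ • Q) ≤ ρ₁ + ρ₂) := by
          rw [lintegral_mul_const _ (measurable_ic_dist' P ρ₁)]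
      _ ≤ _ := by
          rw [lintegral_ic_le]
          exact mul_le_mul_left (vol_ball_le P h0 h1) _
  calc 2 * ∑' τ : SL(2, ℤ), ∫⁻ v : ℍ, ic (dist P v ≤ ρ₁) * ic (dist Q (τ • v) ≤ ρ₂)
      ≤ 2 * ∑' τ : SL(2, ℤ), ENNReal.ofReal (100 * ρ₁ ^ 2) * ic (dist P (τ⁻¹ • Q) ≤ ρ₁ + ρ₂) := by
        gcongr with τ
        exact h2 τ
    _ = _ := by
        rw [ENNReal.tsum_mul_left, ← mul_assoc]
        have h5 : (2 : ℝ≥0∞) * ENNReal.ofReal (100 * ρ₁ ^ 2) = ENNReal.ofReal (200 * ρ₁ ^ 2) := by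
          rw [show (2 : ℝ≥0∞) = ENNReal.ofReal 2 by norm_num, ← ENNReal.ofReal_mul (by norm_num)]
          congr 1; ring
        rw [h5]
        congr 1
        exact (Equiv.inv SL(2, ℤ)).tsum_eq (fun τ : SL(2, ℤ) => ic (dist P (τ • Q) ≤ ρ₁ + ρ₂))

lemma pair_lower {ρ : ℝ} (P Q : ℍ) (h0 : 0 < ρ) (h1 : ρ ≤ 1) :
    ENNReal.ofReal (ρ ^ 2 / 5) * NN ρ P Q ≤ ∫⁻ w in 𝒟, NN ρ P w * NN (2 * ρ) Q w := by
  rw [lintegral_NN_mul]
  have h2 : ∀ τ : SL(2, ℤ), ENNReal.ofReal (ρ ^ 2 / 10) * ic (dist P (τ⁻¹ • Q) ≤ ρ) ≤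
      ∫⁻ v : ℍ, ic (dist P v ≤ ρ) * ic (dist Q (τ • v) ≤ 2 * ρ) := by
    intro τ
    by_cases h : dist P (τ⁻¹ • Q) ≤ ρ
    · rw [ic_true h, mul_one]
      refine (le_vol_ball P h0 h1).trans ?_
      rw [← lintegral_ic_le]
      refine lintegral_mono fun v => ?_
      rw [← ic_and]
      refine ic_mono fun h3 => ⟨h3, ?_⟩
      have h4 : dist (τ⁻¹ • Q) v = dist Q (τ • v) := by
        rw [dist_sl' τ Q v]
      have h5 := dist_triangle (τ⁻¹ • Q) P v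
      rw [h4, dist_comm (τ⁻¹ • Q) P] at h5
      linarith
    · rw [ic_false h, mul_zero]
      exact zero_le
  calc ENNReal.ofReal (ρ ^ 2 / 5) * NN ρ P Q
      = 2 * ∑' τ : SL(2, ℤ), ENNReal.ofReal (ρ ^ 2 / 10) * ic (dist P (τ⁻¹ • Q) ≤ ρ) := by
        rw [ENNReal.tsum_mul_left, ← mul_assoc]
        have h5 : (2 : ℝ≥0∞) * ENNReal.ofReal (ρ ^ 2 / 10) = ENNReal.ofReal (ρ ^ 2 / 5) := by
          rw [show (2 : ℝ≥0∞) = ENNReal.ofReal 2 by norm_num, ← ENNReal.ofReal_mul (by norm_num)]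
          congr 1; ring
        rw [h5]
        congr 1
        exact ((Equiv.inv SL(2, ℤ)).tsum_eq (fun τ : SL(2, ℤ) => ic (dist P (τ • Q) ≤ ρ))).symm
    _ ≤ _ := by
        gcongr with τ
        exact h2 τ

lemma lint_prod {α β : Type*} (A : Finset α) (B : Finset β) (u : α → ℝ≥0∞) (v : β → ℝ≥0∞)
    (F : α → ℍ → ℝ≥0∞) (G : β → ℍ → ℝ≥0∞) (hF : ∀ i, Measurable (F i))
    (hG : ∀ j, Measurable (G j)) :
    ∫⁻ w in 𝒟, (∑ i ∈ A, u i * F i w) * (∑ j ∈ B, v j * G j w) =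
      ∑ i ∈ A, ∑ j ∈ B, u i * v j * ∫⁻ w in 𝒟, F i w * G j w := by
  have h1 : ∀ w : ℍ, (∑ i ∈ A, u i * F i w) * (∑ j ∈ B, v j * G j w) =
      ∑ i ∈ A, ∑ j ∈ B, u i * v j * (F i w * G j w) := by
    intro w
    rw [Finset.sum_mul_sum]
    refine Finset.sum_congr rfl fun i _ => Finset.sum_congr rfl fun j _ => ?_
    ring
  simp_rw [h1]
  have h2 : ∀ i j, Measurable fun w : ℍ => u i * v j * (F i w * G j w) := fun i j =>
    ((hF i).mul (hG j)).const_mul _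
  rw [lintegral_finsetSum A (fun i _ => Finset.measurable_fun_sum B fun j _ => h2 i j)]
  refine Finset.sum_congr rfl fun i _ => ?_
  rw [lintegral_finsetSum B (fun j _ => h2 i j)]
  refine Finset.sum_congr rfl fun j _ => ?_
  exact lintegral_const_mul _ ((hF i).mul (hG j))

/-- Cauchy-Schwarz for the counting function. -/
theorem cs_count {ι κ : Type*} (I : Finset ι) (J : Finset κ) (a : ι → ℝ≥0∞) (b : κ → ℝ≥0∞)
    (P : ι → ℍ) (Q : κ → ℍ) {ρ : ℝ} (h0 : 0 < ρ) (h1 : 2 * ρ ≤ 1) {X E1 E2 : ℝ≥0∞}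
    (hX : X = ∑ i ∈ I, ∑ j ∈ J, a i * b j * NN ρ (P i) (Q j))
    (hE1 : E1 = ∑ i ∈ I, ∑ i' ∈ I, a i * a i' * NN (2 * ρ) (P i) (P i'))
    (hE2 : E2 = ∑ j ∈ J, ∑ j' ∈ J, b j * b j' * NN (4 * ρ) (Q j) (Q j')) :
    X ^ 2 ≤ ENNReal.ofReal 4000000 * (E1 * E2) := by
  obtain ⟨f, hf⟩ : ∃ f : ℍ → ℝ≥0∞, f = fun w => ∑ i ∈ I, a i * NN ρ (P i) w := ⟨_, rfl⟩
  obtain ⟨g, hg⟩ : ∃ g : ℍ → ℝ≥0∞, g = fun w => ∑ j ∈ J, b j * NN (2 * ρ) (Q j) w := ⟨_, rfl⟩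
  have hfm : Measurable f := by
    rw [hf]
    exact Finset.measurable_fun_sum _ fun i _ => (measurable_NN (P i) ρ).const_mul _
  have hgm : Measurable g := by
    rw [hg]
    exact Finset.measurable_fun_sum _ fun j _ => (measurable_NN (Q j) (2 * ρ)).const_mul _
  have hlow : ENNReal.ofReal (ρ ^ 2 / 5) * X ≤ ∫⁻ w in 𝒟, f w * g w := by
    have e : ∫⁻ w in 𝒟, f w * g w =
        ∑ i ∈ I, ∑ j ∈ J, a i * b j * ∫⁻ w in 𝒟, NN ρ (P i) w * NN (2 * ρ) (Q j) w := by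
      rw [hf, hg]
      exact lint_prod I J a b _ _ (fun i => measurable_NN (P i) ρ)
        (fun j => measurable_NN (Q j) (2 * ρ))
    rw [e, hX, Finset.mul_sum]
    refine Finset.sum_le_sum fun i _ => ?_
    rw [Finset.mul_sum]
    refine Finset.sum_le_sum fun j _ => ?_
    calc ENNReal.ofReal (ρ ^ 2 / 5) * (a i * b j * NN ρ (P i) (Q j))
        = a i * b j * (ENNReal.ofReal (ρ ^ 2 / 5) * NN ρ (P i) (Q j)) := by ring
      _ ≤ _ := mul_le_mul_right (pair_lower (P i) (Q j) h0 (by linarith)) _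
  have hup1 : ∫⁻ w in 𝒟, f w * f w ≤ ENNReal.ofReal (200 * ρ ^ 2) * E1 := by
    have e : ∫⁻ w in 𝒟, f w * f w =
        ∑ i ∈ I, ∑ j ∈ I, a i * a j * ∫⁻ w in 𝒟, NN ρ (P i) w * NN ρ (P j) w := by
      rw [hf]
      exact lint_prod I I a a _ _ (fun i => measurable_NN (P i) ρ)
        (fun j => measurable_NN (P j) ρ)
    rw [e, hE1, Finset.mul_sum]
    refine Finset.sum_le_sum fun i _ => ?_
    rw [Finset.mul_sum]
    refine Finset.sum_le_sum fun j _ => ?_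
    calc a i * a j * ∫⁻ w in 𝒟, NN ρ (P i) w * NN ρ (P j) w
        ≤ a i * a j * (ENNReal.ofReal (200 * ρ ^ 2) * NN (ρ + ρ) (P i) (P j)) :=
          mul_le_mul_right (pair_upper (P i) (P j) h0 (by linarith)) _
      _ = _ := by rw [← two_mul]; ring
  have hup2 : ∫⁻ w in 𝒟, g w * g w ≤ ENNReal.ofReal (800 * ρ ^ 2) * E2 := by
    have e : ∫⁻ w in 𝒟, g w * g w =
        ∑ i ∈ J, ∑ j ∈ J, b i * b j * ∫⁻ w in 𝒟, NN (2 * ρ) (Q i) w * NN (2 * ρ) (Q j) w := by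
      rw [hg]
      exact lint_prod J J b b _ _ (fun i => measurable_NN (Q i) (2 * ρ))
        (fun j => measurable_NN (Q j) (2 * ρ))
    rw [e, hE2, Finset.mul_sum]
    refine Finset.sum_le_sum fun i _ => ?_
    rw [Finset.mul_sum]
    refine Finset.sum_le_sum fun j _ => ?_
    calc b i * b j * ∫⁻ w in 𝒟, NN (2 * ρ) (Q i) w * NN (2 * ρ) (Q j) w
        ≤ b i * b j * (ENNReal.ofReal (200 * (2 * ρ) ^ 2) * NN (2 * ρ + 2 * ρ) (Q i) (Q j)) :=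
          mul_le_mul_right (pair_upper (Q i) (Q j) (by linarith) h1) _
      _ = _ := by
          rw [show 2 * ρ + 2 * ρ = 4 * ρ by ring, show 200 * (2 * ρ) ^ 2 = 800 * ρ ^ 2 by ring]
          ring
  have hcs : (∫⁻ w in 𝒟, f w * g w) ^ 2 ≤ (∫⁻ w in 𝒟, f w * f w) * (∫⁻ w in 𝒟, g w * g w) := by
    have h2 := ENNReal.lintegral_mul_le_Lp_mul_Lq ((volume : Measure ℍ).restrict 𝒟)
      Real.HolderConjugate.two_two hfm.aemeasurable hgm.aemeasurable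
    have h3 : ∀ F : ℍ → ℝ≥0∞, ∫⁻ w in 𝒟, F w ^ (2 : ℝ) = ∫⁻ w in 𝒟, F w * F w := by
      intro F
      refine lintegral_congr fun w => ?_
      rw [ENNReal.rpow_two, sq]
    rw [h3, h3] at h2
    have h4 : ∀ A : ℝ≥0∞, (A ^ (1 / 2 : ℝ)) ^ 2 = A := by
      intro A
      rw [← ENNReal.rpow_natCast, ← ENNReal.rpow_mul]
      norm_num
    calc (∫⁻ w in 𝒟, f w * g w) ^ 2 ≤ ((∫⁻ w in 𝒟, f w * f w) ^ (1 / 2 : ℝ) *
          (∫⁻ w in 𝒟, g w * g w) ^ (1 / 2 : ℝ)) ^ 2 := by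
          gcongr
          exact h2
      _ = _ := by rw [mul_pow, h4, h4]
  have h5 : ENNReal.ofReal (ρ ^ 4 / 25) * X ^ 2 ≤
      ENNReal.ofReal (160000 * ρ ^ 4) * (E1 * E2) := by
    calc ENNReal.ofReal (ρ ^ 4 / 25) * X ^ 2 = (ENNReal.ofReal (ρ ^ 2 / 5) * X) ^ 2 := by
          rw [mul_pow, ← ENNReal.ofReal_pow (by positivity)]
          congr 2; ring
      _ ≤ (∫⁻ w in 𝒟, f w * g w) ^ 2 := by gcongr
      _ ≤ _ := hcs
      _ ≤ (ENNReal.ofReal (200 * ρ ^ 2) * E1) * (ENNReal.ofReal (800 * ρ ^ 2) * E2) := by gcongr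
      _ = (ENNReal.ofReal (200 * ρ ^ 2) * ENNReal.ofReal (800 * ρ ^ 2)) * (E1 * E2) := by ring
      _ = _ := by
          rw [← ENNReal.ofReal_mul (by positivity)]
          congr 2; ring
  calc X ^ 2 = ENNReal.ofReal (25 / ρ ^ 4) * (ENNReal.ofReal (ρ ^ 4 / 25) * X ^ 2) := by
        rw [← mul_assoc, ← ENNReal.ofReal_mul (by positivity)]
        have : 25 / ρ ^ 4 * (ρ ^ 4 / 25) = 1 := by field_simp
        rw [this, ENNReal.ofReal_one, one_mul]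
    _ ≤ ENNReal.ofReal (25 / ρ ^ 4) * (ENNReal.ofReal (160000 * ρ ^ 4) * (E1 * E2)) := by gcongr
    _ = _ := by
        rw [← mul_assoc, ← ENNReal.ofReal_mul (by positivity)]
        congr 2
        field_simp
        norm_num

lemma sqrt_le_of_sq {X : ℝ≥0∞} {s : ℝ} (hs : 0 ≤ s) (h : X ^ 2 ≤ ENNReal.ofReal (s ^ 2)) :
    X ≤ ENNReal.ofReal s := by
  have h1 : ∀ A : ℝ≥0∞, (A ^ 2) ^ (1 / 2 : ℝ) = A := by
    intro A
    rw [← ENNReal.rpow_natCast, ← ENNReal.rpow_mul]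
    norm_num
  rw [← h1 X, ← h1 (ENNReal.ofReal s), ← ENNReal.ofReal_pow hs]
  exact ENNReal.rpow_le_rpow h (by norm_num)

/-- Cauchy-Schwarz with real bounds for the energies -/
theorem cs_real {ι κ : Type*} (I : Finset ι) (J : Finset κ) (a : ι → ℝ≥0∞) (b : κ → ℝ≥0∞)
    (P : ι → ℍ) (Q : κ → ℍ) {ρ : ℝ} (h0 : 0 < ρ) (h1 : 2 * ρ ≤ 1) {e1 e2 : ℝ} (he1 : 0 ≤ e1)
    (he2 : 0 ≤ e2)
    (hE1 : ∑ i ∈ I, ∑ i' ∈ I, a i * a i' * NN (2 * ρ) (P i) (P i') ≤ ENNReal.ofReal (e1 ^ 2))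
    (hE2 : ∑ j ∈ J, ∑ j' ∈ J, b j * b j' * NN (4 * ρ) (Q j) (Q j') ≤ ENNReal.ofReal (e2 ^ 2)) :
    ∑ i ∈ I, ∑ j ∈ J, a i * b j * NN ρ (P i) (Q j) ≤ ENNReal.ofReal (2000 * (e1 * e2)) := by
  refine sqrt_le_of_sq (by positivity) ((cs_count I J a b P Q h0 h1 rfl rfl rfl).trans ?_)
  calc ENNReal.ofReal 4000000 * ((∑ i ∈ I, ∑ i' ∈ I, a i * a i' * NN (2 * ρ) (P i) (P i')) *
        (∑ j ∈ J, ∑ j' ∈ J, b j * b j' * NN (4 * ρ) (Q j) (Q j')))
      ≤ ENNReal.ofReal 4000000 * (ENNReal.ofReal (e1 ^ 2) * ENNReal.ofReal (e2 ^ 2)) := by gcongr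
    _ = _ := by
        rw [← ENNReal.ofReal_mul (by positivity), ← ENNReal.ofReal_mul (by positivity)]
        congr 1; ring

end Pool.Agent.H19.Maass
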