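import Mathlib
import Pool.Agent.H19.Maass.Rows
import Pool.Agent.H19.Maass.Cauchy

set_option autoImplicit false

namespace Pool.Agent.H19.Maass

open UpperHalfPlane
open scoped ENNReal MatrixGroups

/-- energy of the Hecke points -/
noncomputable def EEP (F : Finset ℕ) (S : ℝ) (z : ℍ) : ℝ≥0∞ :=
  ∑ n ∈ F, ∑ m ∈ F, MM (fun s => ic (s ≤ S)) n m z

lemma pairs_le (F : Finset ℕ) {K : ℕ} (hF : ∀ n ∈ F, 0 < n)
    (hK : ∀ n ∈ F, ∀ m ∈ F, (n * m).divisors.card ≤ K) (c : ℤ) :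
    ∑ n ∈ F, ∑ m ∈ F, ic (c = (n : ℤ) * m) ≤
      (K : ℝ≥0∞) * ic (∃ n ∈ F, ∃ m ∈ F, c = (n : ℤ) * m) := by
  classical
  by_cases hex : ∃ n ∈ F, ∃ m ∈ F, c = (n : ℤ) * m
  · rw [ic_true hex, mul_one]
    obtain ⟨n0, hn0, m0, hm0, h0⟩ := hex
    have h1 : ∀ n ∈ F, ∑ m ∈ F, ic (c = (n : ℤ) * m) ≤ ic (n ∣ n0 * m0) := by
      intro n hn
      refine (collapse F _ ?_).trans (ic_mono ?_)
      · intro i _ j _ hi hj
        have hnz : (n : ℤ) ≠ 0 := by exact_mod_cast (hF n hn).ne'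
        have h2 : (n : ℤ) * i = n * j := by rw [← hi, ← hj]
        exact_mod_cast mul_left_cancel₀ hnz h2
      · rintro ⟨m, _, h2⟩
        refine ⟨m, ?_⟩
        rw [h0] at h2
        exact_mod_cast h2
    refine (Finset.sum_le_sum h1).trans ?_
    have h3 : ∀ n ∈ F, ic (n ∣ n0 * m0) = if n ∣ n0 * m0 then 1 else 0 := by
      intro n _
      unfold ic; congr
    rw [Finset.sum_congr rfl h3, Finset.sum_boole]
    have h4 : (F.filter fun n => n ∣ n0 * m0).card ≤ K := by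
      refine le_trans (Finset.card_le_card ?_) (hK n0 hn0 m0 hm0)
      intro n hn
      rw [Finset.mem_filter] at hn
      rw [Nat.mem_divisors]
      exact ⟨hn.2, (Nat.mul_pos (hF n0 hn0) (hF m0 hm0)).ne'⟩
    exact_mod_cast h4
  · rw [ic_false hex, mul_zero]
    refine (Finset.sum_eq_zero fun n hn => Finset.sum_eq_zero fun m hm => ic_false fun h => ?_).le
    exact hex ⟨n, hn, m, hm, h⟩

/-- general bound for the energy of Hecke points -/
theorem energy_le (F H : Finset ℕ) {K : ℕ} (hF : ∀ n ∈ F, 0 < n)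
    (hK1 : ∀ n ∈ F, n.divisors.card ≤ K)
    (hK : ∀ n ∈ F, ∀ m ∈ F, (n * m).divisors.card ≤ K)
    (hH : ∀ n ∈ F, ∀ h ∈ n.divisors, h ∈ H) (S : ℝ) (z : ℍ) :
    EEP F S z ≤ (K : ℝ≥0∞) ^ 2 * ∑ h ∈ H, (h : ℝ≥0∞) *
      ∑' β : Z4, ic ((∃ n ∈ F, ∃ m ∈ F, (h : ℤ) ^ 2 * det4 β = (n : ℤ) * m) ∧ sf4 β z ≤ S) := by
  classical
  have h1 : ∀ n ∈ F, ∀ m ∈ F, MM (fun s => ic (s ≤ S)) n m z ≤
      (K : ℝ≥0∞) * ∑ h ∈ H, (h : ℝ≥0∞) *
        ∑' β : Z4, ic ((h : ℤ) ^ 2 * det4 β = n * m) * ic (sf4 β z ≤ S) := by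
    intro n hn m hm
    unfold MM
    refine (match_le (hF n hn) (hF m hm) z (fun s => ic (s ≤ S))).trans ?_
    refine mul_le_mul' (by exact_mod_cast hK1 n hn) ?_
    exact Finset.sum_le_sum_of_subset (fun h hh => hH n hn h hh)
  unfold EEP
  refine (Finset.sum_le_sum fun n hn => Finset.sum_le_sum fun m hm => h1 n hn m hm).trans ?_
  simp_rw [← Finset.mul_sum]
  rw [sq, mul_assoc]
  refine mul_le_mul_right ?_ _
  have h2 : ∑ n ∈ F, ∑ m ∈ F, ∑ h ∈ H, (h : ℝ≥0∞) *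
        ∑' β : Z4, ic ((h : ℤ) ^ 2 * det4 β = n * m) * ic (sf4 β z ≤ S) =
      ∑ h ∈ H, (h : ℝ≥0∞) * ∑' β : Z4, (∑ n ∈ F, ∑ m ∈ F,
        ic ((h : ℤ) ^ 2 * det4 β = n * m)) * ic (sf4 β z ≤ S) := by
    have h3 : ∀ h ∈ H, (h : ℝ≥0∞) * ∑' β : Z4, (∑ n ∈ F, ∑ m ∈ F,
        ic ((h : ℤ) ^ 2 * det4 β = n * m)) * ic (sf4 β z ≤ S) =
        ∑ n ∈ F, ∑ m ∈ F, (h : ℝ≥0∞) *
          ∑' β : Z4, ic ((h : ℤ) ^ 2 * det4 β = n * m) * ic (sf4 β z ≤ S) := by
      intro h _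
      simp_rw [Finset.sum_mul, ← Finset.mul_sum]
      congr 1
      rw [Summable.tsum_finsetSum (fun _ _ => ENNReal.summable)]
      refine Finset.sum_congr rfl fun n _ => ?_
      rw [Summable.tsum_finsetSum (fun _ _ => ENNReal.summable)]
    rw [Finset.sum_congr rfl h3]
    have h4 : ∀ n ∈ F, ∑ m ∈ F, ∑ h ∈ H, (h : ℝ≥0∞) *
        ∑' β : Z4, ic ((h : ℤ) ^ 2 * det4 β = n * m) * ic (sf4 β z ≤ S) =
        ∑ h ∈ H, ∑ m ∈ F, (h : ℝ≥0∞) *
        ∑' β : Z4, ic ((h : ℤ) ^ 2 * det4 β = n * m) * ic (sf4 β z ≤ S) := fun n _ =>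
      Finset.sum_comm
    rw [Finset.sum_congr rfl h4, Finset.sum_comm]
  rw [h2, Finset.mul_sum]
  refine Finset.sum_le_sum fun h _ => ?_
  rw [← mul_assoc, mul_comm (K : ℝ≥0∞) (h : ℝ≥0∞), mul_assoc]
  refine mul_le_mul_right ?_ _
  rw [← ENNReal.tsum_mul_left]
  refine ENNReal.tsum_le_tsum fun β => ?_
  rw [ic_and, ← mul_assoc]
  exact mul_le_mul_left (pairs_le F hF hK _) _

lemma tsum_card_le {M : ℝ} (hM : 0 ≤ M) :
    ∑' x : ℤ, ic (|(x : ℝ)| ≤ M) ≤ ENNReal.ofReal (2 * M + 1) := by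
  simpa using tsum_int_le 0 M hM

/-- counting all matrices of bounded determinant -/
theorem count_all (z : ℍ) (hx : |z.re| ≤ 1 / 2) (hy : 1 / 2 ≤ z.im) {Y : ℝ} (hY : z.im ≤ Y)
    {D : ℝ} (hD : 1 ≤ D) {S : ℝ} (hS : 0 ≤ S) (hS6 : S ≤ 6) :
    ∑' β : Z4, ic ((1 ≤ det4 β ∧ ((det4 β : ℤ) : ℝ) ≤ D) ∧ sf4 β z ≤ S) ≤
      ENNReal.ofReal (7000 * (1 + Y) * (D * (1 + S * D))) := by
  have hY0 : 0 < Y := lt_of_lt_of_le z.im_pos hY
  have hD0 : 0 < D := by linarith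
  have hsD : 1 ≤ √D := by rw [Real.one_le_sqrt]; exact hD
  have hsS : 0 ≤ √S := Real.sqrt_nonneg S
  refine (tsum_cov_le (g := fun c e b t => ic (|(c : ℝ)| ≤ 20 * √D ∧
    |(e : ℝ) + 2 * c * z.re| ≤ √S * √D ∧ |(b : ℝ) + c * (z.re ^ 2 + z.im ^ 2)| ≤
      2 * (√S * √D * Y) ∧ |(t : ℝ)| ≤ 8 * √D)) ?_).trans ?_
  · intro β
    refine ic_mono ?_
    rintro ⟨⟨h1, h2⟩, h3⟩
    have hn0 : (0 : ℝ) < ((det4 β : ℤ) : ℝ) := by
      have : (0 : ℤ) < det4 β := by omega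
      exact_mod_cast this
    have h4 := near_of_sf (a := β.1) (b := β.2.1) (c := β.2.2.1) (d := β.2.2.2)
      (n := ((det4 β : ℤ) : ℝ)) hx hy hS hS6 rfl hn0 h3
    have h5 : √(((det4 β : ℤ) : ℝ)) ≤ √D := Real.sqrt_le_sqrt h2
    have h6 : √S * √(((det4 β : ℤ) : ℝ)) ≤ √S * √D := mul_le_mul_of_nonneg_left h5 hsS
    simp only [cov]
    refine ⟨?_, ?_, ?_, ?_⟩
    · have := h4.2.2.1
      nlinarith [abs_nonneg (β.2.2.1 : ℝ)]
    · rw [add_comm]
      exact h4.1.trans h6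
    · refine h4.2.1.trans ?_
      have := mul_le_mul h6 hY z.im_pos.le (by positivity)
      linarith
    · refine h4.2.2.2.trans ?_
      linarith
  · refine (nested_le (P := fun c => |(c : ℝ)| ≤ 20 * √D)
      (Q := fun c e => |(e : ℝ) + 2 * c * z.re| ≤ √S * √D)
      (R := fun c _ b => |(b : ℝ) + c * (z.re ^ 2 + z.im ^ 2)| ≤ 2 * (√S * √D * Y))
      (S := fun c e b t => |(t : ℝ)| ≤ 8 * √D)
      (A := ENNReal.ofReal (2 * (20 * √D) + 1)) (B := ENNReal.ofReal (2 * (√S * √D) + 1))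
      (C := ENNReal.ofReal (2 * (2 * (√S * √D * Y)) + 1)) (D := ENNReal.ofReal (2 * (8 * √D) + 1))
      ?_ ?_ ?_ ?_ ?_).trans ?_
    · intro c e b t
      rw [← ic_and, ← ic_and, ← ic_and]
    · exact tsum_card_le (by positivity)
    · intro c
      exact tsum_int_le _ _ (by positivity)
    · intro c e
      exact tsum_int_le _ _ (by positivity)
    · intro c e b
      exact tsum_card_le (by positivity)
    · rw [← ENNReal.ofReal_mul (by positivity), ← ENNReal.ofReal_mul (by positivity),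
        ← ENNReal.ofReal_mul (by positivity)]
      refine ENNReal.ofReal_le_ofReal ?_
      set d := √D with hd
      have hdd : d ^ 2 = D := Real.sq_sqrt hD0.le
      set r := √S * d with hr
      have hr0 : 0 ≤ r := by positivity
      have hr2 : r ^ 2 = S * D := by rw [hr, mul_pow, Real.sq_sqrt hS, hdd]
      have a1 : 2 * (20 * d) + 1 ≤ 41 * d := by linarith
      have a2 : 2 * (8 * d) + 1 ≤ 17 * d := by linarith
      have a3 : (2 * r + 1) * (2 * (2 * (r * Y)) + 1) ≤ 10 * (1 + Y) * (1 + r ^ 2) := by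
        have h2 : 2 * r ≤ 1 + r ^ 2 := by nlinarith [sq_nonneg (r - 1)]
        have h3 : (4 * Y + 2) * r ≤ (2 * Y + 1) * (1 + r ^ 2) := by nlinarith
        nlinarith [mul_nonneg hY0.le (sq_nonneg r)]
      calc (2 * (20 * d) + 1) * ((2 * r + 1) * ((2 * (2 * (r * Y)) + 1) * (2 * (8 * d) + 1)))
          = (2 * (20 * d) + 1) * (2 * (8 * d) + 1) * ((2 * r + 1) * (2 * (2 * (r * Y)) + 1)) := by
            ring
        _ ≤ (41 * d) * (17 * d) * (10 * (1 + Y) * (1 + r ^ 2)) := by gcongr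
        _ = 6970 * (1 + Y) * (d ^ 2 * (1 + r ^ 2)) := by ring
        _ = 6970 * (1 + Y) * (D * (1 + S * D)) := by rw [hdd, hr2]
        _ ≤ 7000 * (1 + Y) * (D * (1 + S * D)) := by gcongr; norm_num

lemma sum_inv_sq_leP (M : ℕ) : ∑ h ∈ Finset.Icc 1 M, 1 / (h : ℝ) ^ 2 ≤ 2 := by
  have h1 : ∀ M : ℕ, 1 ≤ M → ∑ h ∈ Finset.Icc 1 M, 1 / (h : ℝ) ^ 2 ≤ 2 - 1 / (M : ℝ) := by
    intro M hM
    induction M, hM using Nat.le_induction with
    | base => norm_num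
    | succ n hn ih =>
      rw [Finset.sum_Icc_succ_top (by omega)]
      have hn0 : (0 : ℝ) < n := by exact_mod_cast hn
      have h2 : 1 / ((n + 1 : ℕ) : ℝ) ^ 2 ≤ 1 / n - 1 / ((n + 1 : ℕ) : ℝ) := by
        push_cast
        rw [div_sub_div _ _ (by positivity) (by positivity), div_le_div_iff₀ (by positivity)
          (by positivity)]
        nlinarith
      linarith
  rcases Nat.eq_zero_or_pos M with h | h
  · rw [h]; simp
  · have := h1 M h
    have h2 : (0 : ℝ) ≤ 1 / (M : ℝ) := by positivity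
    linarith

lemma sum_inv_le (L : ℕ) :
    ∑ h ∈ Finset.Icc 1 L, 1 / (h : ℝ) ≤ 1 + Real.log L := by
  have h1 := harmonic_le_one_add_log L
  refine le_trans (le_of_eq ?_) h1
  rw [harmonic_eq_sum_Icc]
  push_cast
  refine Finset.sum_congr rfl fun h _ => ?_
  rw [one_div]

lemma ennsum_le {ι : Type*} (H : Finset ι) (f : ι → ℝ≥0∞) (g : ι → ℝ) {B : ℝ}
    (h0 : ∀ i ∈ H, 0 ≤ g i) (h1 : ∀ i ∈ H, f i ≤ ENNReal.ofReal (g i)) (h2 : ∑ i ∈ H, g i ≤ B) :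
    ∑ i ∈ H, f i ≤ ENNReal.ofReal B := by
  refine (Finset.sum_le_sum h1).trans ?_
  rw [← ENNReal.ofReal_sum_of_nonneg h0]
  exact ENNReal.ofReal_le_ofReal h2

/-- energy of the Hecke points of all indices `≤ L` -/
theorem energy_all (ε : ℝ) (hε : 0 < ε) : ∃ C : ℝ, 0 < C ∧ ∀ (z : ℍ), |z.re| ≤ 1 / 2 →
    1 / 2 ≤ z.im → ∀ Y : ℝ, z.im ≤ Y → ∀ S : ℝ, 0 ≤ S → S ≤ 6 → ∀ L : ℕ, 1 ≤ L →
    EEP (Finset.Icc 1 L) S z ≤
      ENNReal.ofReal (C * (1 + Y) * ((L : ℝ) ^ ε * ((L : ℝ) ^ 2 * (1 + S * (L : ℝ) ^ 2)))) := by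
  obtain ⟨C0, hC0, hdiv⟩ := H41.Eis.divisor_bound (ε / 8) (by positivity)
  refine ⟨C0 ^ 2 * 7000 * (1 + 2 / ε), by positivity, ?_⟩
  intro z hx hy Y hY S hS hS6 L hL
  have hL1 : (1 : ℝ) ≤ L := by exact_mod_cast hL
  have hL0 : (0 : ℝ) < L := by linarith
  have hY0 : 0 < Y := lt_of_lt_of_le z.im_pos hY
  set E := (L : ℝ) ^ (ε / 8) with hE
  have hE1 : 1 ≤ E := Real.one_le_rpow hL1 (by positivity)
  have hKb : ∀ n : ℕ, 1 ≤ n → n ≤ L * L → (n.divisors.card : ℝ) ≤ C0 * E ^ 2 := by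
    intro n h1 h2
    refine (hdiv n h1).trans ?_
    refine mul_le_mul_of_nonneg_left ?_ (by linarith)
    have h3 : (n : ℝ) ≤ L * L := by exact_mod_cast h2
    calc (n : ℝ) ^ (ε / 8) ≤ ((L : ℝ) * L) ^ (ε / 8) :=
          Real.rpow_le_rpow (Nat.cast_nonneg n) h3 (by positivity)
      _ = E ^ 2 := by rw [Real.mul_rpow hL0.le hL0.le, hE]; ring
  set K : ℕ := ⌊C0 * E ^ 2⌋₊ with hK
  have hKr : (K : ℝ) ≤ C0 * E ^ 2 := Nat.floor_le (by positivity)
  have hen := energy_le (Finset.Icc 1 L) (Finset.Icc 1 L) (K := K)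
    (fun n hn => (Finset.mem_Icc.1 hn).1)
    (fun n hn => Nat.le_floor (hKb n (Finset.mem_Icc.1 hn).1
      ((Finset.mem_Icc.1 hn).2.trans (Nat.le_mul_self L))))
    (fun n hn m hm => Nat.le_floor (hKb (n * m)
      (Nat.mul_pos (Finset.mem_Icc.1 hn).1 (Finset.mem_Icc.1 hm).1)
      (Nat.mul_le_mul (Finset.mem_Icc.1 hn).2 (Finset.mem_Icc.1 hm).2)))
    (fun n hn h hh => by
      rw [Finset.mem_Icc] at hn ⊢
      have := Nat.divisor_le hh
      have := Nat.pos_of_mem_divisors hh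
      omega) S z
  refine hen.trans ?_
  have hsum : ∑ h ∈ Finset.Icc 1 L, (h : ℝ≥0∞) * ∑' β : Z4, ic ((∃ n ∈ Finset.Icc 1 L,
      ∃ m ∈ Finset.Icc 1 L, (h : ℤ) ^ 2 * det4 β = (n : ℤ) * m) ∧ sf4 β z ≤ S) ≤
      ENNReal.ofReal (7000 * (1 + Y) * ((L : ℝ) ^ 2 * (1 + S * (L : ℝ) ^ 2)) *
        (1 + Real.log L)) := by
    refine ennsum_le _ _ (fun h : ℕ => 7000 * (1 + Y) * ((L : ℝ) ^ 2 * (1 + S * (L : ℝ) ^ 2)) *
      (1 / (h : ℝ))) (fun h _ => by positivity) ?_ ?_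
    · intro h hh
      rw [Finset.mem_Icc] at hh
      have hh1 : (1 : ℝ) ≤ h := by exact_mod_cast hh.1
      have hh0 : (0 : ℝ) < h := by linarith
      have hhL : (h : ℝ) ≤ L := by exact_mod_cast hh.2
      have h1 : ∑' β : Z4, ic ((∃ n ∈ Finset.Icc 1 L,
          ∃ m ∈ Finset.Icc 1 L, (h : ℤ) ^ 2 * det4 β = (n : ℤ) * m) ∧ sf4 β z ≤ S) ≤
          ENNReal.ofReal (7000 * (1 + Y) * ((L / h : ℝ) ^ 2 * (1 + S * (L / h : ℝ) ^ 2))) := by
        refine le_trans (ENNReal.tsum_le_tsum fun β => ic_mono ?_)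
          (count_all z hx hy hY (D := (L / h : ℝ) ^ 2) ?_ hS hS6)
        · rintro ⟨⟨n, hn, m, hm, h2⟩, h3⟩
          rw [Finset.mem_Icc] at hn hm
          refine ⟨⟨?_, ?_⟩, h3⟩
          · have h4 : (0 : ℤ) < (h : ℤ) ^ 2 * det4 β := by
              rw [h2]
              have : 0 < n * m := Nat.mul_pos hn.1 hm.1
              exact_mod_cast this
            have h5 : (0 : ℤ) < (h : ℤ) ^ 2 := by
              have : (0 : ℤ) < h := by exact_mod_cast hh.1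
              positivity
            have := pos_of_mul_pos_right h4 h5.le
            omega
          · have h4 : (h : ℝ) ^ 2 * ((det4 β : ℤ) : ℝ) = n * m := by exact_mod_cast h2
            have h5 : (n : ℝ) * m ≤ L * L := by
              have : n * m ≤ L * L := Nat.mul_le_mul hn.2 hm.2
              exact_mod_cast this
            rw [div_pow, le_div_iff₀ (by positivity)]
            nlinarith
        · have : 1 ≤ (L / h : ℝ) := by rw [le_div_iff₀ hh0]; linarith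
          exact one_le_pow₀ this
      refine (mul_le_mul_right h1 _).trans ?_
      rw [← ENNReal.ofReal_natCast, ← ENNReal.ofReal_mul (by positivity)]
      refine ENNReal.ofReal_le_ofReal ?_
      have h6 : (L / h : ℝ) ^ 2 ≤ (L : ℝ) ^ 2 := by
        refine pow_le_pow_left₀ (by positivity) ?_ 2
        exact div_le_self hL0.le hh1
      calc (h : ℝ) * (7000 * (1 + Y) * ((L / h : ℝ) ^ 2 * (1 + S * (L / h : ℝ) ^ 2)))
          ≤ (h : ℝ) * (7000 * (1 + Y) * ((L / h : ℝ) ^ 2 * (1 + S * (L : ℝ) ^ 2))) := by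
            gcongr
        _ = _ := by field_simp
    · rw [← Finset.mul_sum]
      exact mul_le_mul_of_nonneg_left (sum_inv_le L) (by positivity)
  have hlog : 1 + Real.log L ≤ (1 + 2 / ε) * E ^ 4 := by
    have h1 := Real.log_le_rpow_div hL0.le (by positivity : 0 < ε / 2)
    have h2 : (L : ℝ) ^ (ε / 2) = E ^ 4 := by
      rw [hE, ← Real.rpow_natCast, ← Real.rpow_mul hL0.le]
      congr 1; push_cast; ring
    rw [h2] at h1
    have h3 : 1 ≤ E ^ 4 := one_le_pow₀ hE1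
    have h4 : E ^ 4 / (ε / 2) = 2 / ε * E ^ 4 := by field_simp
    rw [h4] at h1
    linarith
  have hE8 : E ^ 8 = (L : ℝ) ^ ε := by
    rw [hE, ← Real.rpow_natCast, ← Real.rpow_mul hL0.le]
    congr 1; push_cast; ring
  calc (K : ℝ≥0∞) ^ 2 * ∑ h ∈ Finset.Icc 1 L, (h : ℝ≥0∞) * ∑' β : Z4, ic ((∃ n ∈ Finset.Icc 1 L,
      ∃ m ∈ Finset.Icc 1 L, (h : ℤ) ^ 2 * det4 β = (n : ℤ) * m) ∧ sf4 β z ≤ S)
      ≤ ENNReal.ofReal ((C0 * E ^ 2) ^ 2) * ENNReal.ofReal (7000 * (1 + Y) *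
        ((L : ℝ) ^ 2 * (1 + S * (L : ℝ) ^ 2)) * (1 + Real.log L)) := by
        refine mul_le_mul' ?_ hsum
        rw [ENNReal.ofReal_pow (by positivity), ← ENNReal.ofReal_natCast]
        gcongr
    _ = ENNReal.ofReal ((C0 * E ^ 2) ^ 2 * (7000 * (1 + Y) *
        ((L : ℝ) ^ 2 * (1 + S * (L : ℝ) ^ 2)) * (1 + Real.log L))) := by
        rw [← ENNReal.ofReal_mul (by positivity)]
    _ ≤ _ := by
        refine ENNReal.ofReal_le_ofReal ?_
        rw [← hE8]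
        calc (C0 * E ^ 2) ^ 2 * (7000 * (1 + Y) *
            ((L : ℝ) ^ 2 * (1 + S * (L : ℝ) ^ 2)) * (1 + Real.log L))
            ≤ (C0 * E ^ 2) ^ 2 * (7000 * (1 + Y) *
            ((L : ℝ) ^ 2 * (1 + S * (L : ℝ) ^ 2)) * ((1 + 2 / ε) * E ^ 4)) := by gcongr
          _ = _ := by ring

/-- energy of the Hecke points of all square indices `≤ X²` -/
theorem energy_sq (ε : ℝ) (hε : 0 < ε) : ∃ C : ℝ, 0 < C ∧ ∀ (z : ℍ), |z.re| ≤ 1 / 2 →
    1 / 2 ≤ z.im → ∀ Y : ℝ, z.im ≤ Y → ∀ S : ℝ, 0 ≤ S → S ≤ 6 → ∀ X : ℕ, 1 ≤ X →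
    EEP ((Finset.Icc 1 X).image fun D => D ^ 2) S z ≤
      ENNReal.ofReal (C * (1 + Y) * ((X : ℝ) ^ ε * ((X : ℝ) ^ 3 + S * (X : ℝ) ^ 6))) := by
  classical
  obtain ⟨C0, hC0, hdiv⟩ := H41.Eis.divisor_bound (ε / 16) (by positivity)
  obtain ⟨C1, hC1, hcount⟩ := count_sq (ε / 8) (by positivity)
  refine ⟨C0 ^ 3 * C1 * 4, by positivity, ?_⟩
  intro z hx hy Y hY S hS hS6 X hX
  have hX1 : (1 : ℝ) ≤ X := by exact_mod_cast hX
  have hX0 : (0 : ℝ) < X := by linarith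
  have hY0 : 0 < Y := lt_of_lt_of_le z.im_pos hY
  set E := (X : ℝ) ^ (ε / 16) with hE
  have hE1 : 1 ≤ E := Real.one_le_rpow hX1 (by positivity)
  have hKb : ∀ n : ℕ, 1 ≤ n → n ≤ X ^ 4 → (n.divisors.card : ℝ) ≤ C0 * E ^ 4 := by
    intro n h1 h2
    refine (hdiv n h1).trans ?_
    refine mul_le_mul_of_nonneg_left ?_ (by linarith)
    have h3 : (n : ℝ) ≤ (X : ℝ) ^ 4 := by exact_mod_cast h2
    calc (n : ℝ) ^ (ε / 16) ≤ ((X : ℝ) ^ 4) ^ (ε / 16) :=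
          Real.rpow_le_rpow (Nat.cast_nonneg n) h3 (by positivity)
      _ = E ^ 4 := by
          rw [hE, ← Real.rpow_natCast, ← Real.rpow_natCast, ← Real.rpow_mul hX0.le,
            ← Real.rpow_mul hX0.le]
          congr 1; push_cast; ring
  set K : ℕ := ⌊C0 * E ^ 4⌋₊ with hK
  have hKr : (K : ℝ) ≤ C0 * E ^ 4 := Nat.floor_le (by positivity)
  set F := (Finset.Icc 1 X).image fun D => D ^ 2 with hF
  set H := (Finset.Icc 1 X).biUnion fun D => (D ^ 2).divisors with hH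
  have hmemF : ∀ n ∈ F, ∃ D, 1 ≤ D ∧ D ≤ X ∧ n = D ^ 2 := by
    intro n hn
    rw [hF, Finset.mem_image] at hn
    obtain ⟨D, hD, rfl⟩ := hn
    rw [Finset.mem_Icc] at hD
    exact ⟨D, hD.1, hD.2, rfl⟩
  have hen := energy_le F H (K := K)
    (fun n hn => by
      obtain ⟨D, hD, _, rfl⟩ := hmemF n hn
      exact pow_pos hD 2)
    (fun n hn => by
      obtain ⟨D, hD, hDX, rfl⟩ := hmemF n hn
      refine Nat.le_floor (hKb _ (Nat.one_le_pow 2 D hD) ?_)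
      calc D ^ 2 ≤ X ^ 2 := Nat.pow_le_pow_left hDX 2
        _ ≤ X ^ 4 := Nat.pow_le_pow_right hX (by norm_num))
    (fun n hn m hm => by
      obtain ⟨D, hD, hDX, rfl⟩ := hmemF n hn
      obtain ⟨D', hD', hDX', rfl⟩ := hmemF m hm
      refine Nat.le_floor (hKb _ (Nat.mul_pos (Nat.pow_pos hD) (Nat.pow_pos hD')) ?_)
      calc D ^ 2 * D' ^ 2 ≤ X ^ 2 * X ^ 2 :=
            Nat.mul_le_mul (Nat.pow_le_pow_left hDX 2) (Nat.pow_le_pow_left hDX' 2)
        _ = X ^ 4 := by ring)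
    (fun n hn h hh => by
      obtain ⟨D, hD, hDX, rfl⟩ := hmemF n hn
      rw [hH, Finset.mem_biUnion]
      exact ⟨D, Finset.mem_Icc.2 ⟨hD, hDX⟩, hh⟩) S z
  refine hen.trans ?_
  have hHpos : ∀ h ∈ H, 1 ≤ h ∧ h ≤ X ^ 2 := by
    intro h hh
    rw [hH, Finset.mem_biUnion] at hh
    obtain ⟨D, hD, hh⟩ := hh
    rw [Finset.mem_Icc] at hD
    exact ⟨Nat.pos_of_mem_divisors hh, (Nat.divisor_le hh).trans (Nat.pow_le_pow_left hD.2 2)⟩
  have hHcard : (H.card : ℝ) ≤ X * (C0 * E ^ 4) := by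
    have h1 : H.card ≤ ∑ D ∈ Finset.Icc 1 X, (D ^ 2).divisors.card := Finset.card_biUnion_le
    have h2 : ∑ D ∈ Finset.Icc 1 X, (((D ^ 2).divisors.card : ℕ) : ℝ) ≤
        ∑ D ∈ Finset.Icc 1 X, C0 * E ^ 4 := by
      refine Finset.sum_le_sum fun D hD => ?_
      rw [Finset.mem_Icc] at hD
      refine hKb _ (Nat.one_le_pow 2 D hD.1) ?_
      calc D ^ 2 ≤ X ^ 2 := Nat.pow_le_pow_left hD.2 2
        _ ≤ X ^ 4 := Nat.pow_le_pow_right hX (by norm_num)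
    rw [Finset.sum_const, Nat.card_Icc, Nat.add_sub_cancel, nsmul_eq_mul] at h2
    refine le_trans ?_ h2
    exact_mod_cast h1
  have hHsq : ∑ h ∈ H, 1 / (h : ℝ) ^ 2 ≤ 2 := by
    refine le_trans (Finset.sum_le_sum_of_subset_of_nonneg (t := Finset.Icc 1 (X ^ 2)) ?_ ?_)
      (sum_inv_sq_leP _)
    · intro h hh
      exact Finset.mem_Icc.2 (hHpos h hh)
    · intro h _ _
      positivity
  have hsum : ∑ h ∈ H, (h : ℝ≥0∞) * ∑' β : Z4, ic ((∃ n ∈ F,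
      ∃ m ∈ F, (h : ℤ) ^ 2 * det4 β = (n : ℤ) * m) ∧ sf4 β z ≤ S) ≤
      ENNReal.ofReal (C1 * (X : ℝ) ^ 2 * E ^ 4 * (2 + Y) * (X * (C0 * E ^ 4) +
        S * (X : ℝ) ^ 4 * 2)) := by
    refine ennsum_le _ _ (fun h : ℕ => C1 * (X : ℝ) ^ 2 * E ^ 4 * (2 + Y) *
      (1 + S * (X : ℝ) ^ 4 * (1 / (h : ℝ) ^ 2))) (fun h _ => by positivity) ?_ ?_
    · intro h hh
      obtain ⟨hh1, hh2⟩ := hHpos h hh
      have hh1r : (1 : ℝ) ≤ h := by exact_mod_cast hh1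
      have hh0 : (0 : ℝ) < h := by linarith
      set M : ℕ := X ^ 2 / h with hM
      have hM1 : 1 ≤ M := Nat.div_pos hh2 hh1
      have hMr : (M : ℝ) ≤ (X : ℝ) ^ 2 / h := by
        rw [hM]
        have := Nat.cast_div_le (α := ℝ) (m := X ^ 2) (n := h)
        push_cast at this
        exact this
      have hM0 : (0 : ℝ) ≤ M := Nat.cast_nonneg M
      have h1 : ∑' β : Z4, ic ((∃ n ∈ F, ∃ m ∈ F, (h : ℤ) ^ 2 * det4 β = (n : ℤ) * m) ∧
          sf4 β z ≤ S) ≤ ENNReal.ofReal (C1 * (M * (M : ℝ) ^ (ε / 8) *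
            ((1 + √S * M) ^ 2 + √S * M * z.im))) := by
        refine le_trans ?_ (hcount z hx hy S hS hS6 M hM1)
        rw [← Summable.tsum_finsetSum (fun _ _ => ENNReal.summable)]
        refine ENNReal.tsum_le_tsum fun β => ?_
        by_cases hex : (∃ n ∈ F, ∃ m ∈ F, (h : ℤ) ^ 2 * det4 β = (n : ℤ) * m) ∧ sf4 β z ≤ S
        · rw [ic_true hex]
          obtain ⟨⟨n, hn, m, hm, h2⟩, h3⟩ := hex
          obtain ⟨D, hD, hDX, rfl⟩ := hmemF n hn
          obtain ⟨D', hD', hDX', rfl⟩ := hmemF m hm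
          have h4 : (h : ℤ) ^ 2 * det4 β = ((D * D' : ℕ) : ℤ) ^ 2 := by
            rw [h2]; push_cast; ring
          have h5 : h ∣ D * D' := by
            have h6 : (h : ℤ) ^ 2 ∣ ((D * D' : ℕ) : ℤ) ^ 2 := ⟨_, h4.symm⟩
            have h7 : (h : ℤ) ∣ ((D * D' : ℕ) : ℤ) := (Int.pow_dvd_pow_iff two_ne_zero).1 h6
            exact_mod_cast h7
          obtain ⟨e, he⟩ := h5
          have he0 : 0 < e := Nat.pos_of_ne_zero (by
            rintro rfl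
            have := Nat.mul_pos hD hD'
            omega)
          have heM : e ≤ M := by
            rw [hM, Nat.le_div_iff_mul_le hh1, mul_comm, ← he]
            calc D * D' ≤ X * X := Nat.mul_le_mul hDX hDX'
              _ = X ^ 2 := by ring
          have hde : det4 β = (e : ℤ) ^ 2 := by
            have hhz : (h : ℤ) ^ 2 ≠ 0 := by
              have : (h : ℤ) ≠ 0 := by exact_mod_cast (by omega : h ≠ 0)
              positivity
            refine mul_left_cancel₀ hhz ?_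
            rw [h4, he]; push_cast; ring
          refine le_trans ?_ (Finset.single_le_sum (f := fun D : ℕ =>
            ic (det4 β = (D : ℤ) ^ 2 ∧ sf4 β z ≤ S)) (fun _ _ => zero_le)
            (Finset.mem_Icc.2 ⟨he0, heM⟩))
          rw [ic_true ⟨hde, h3⟩]
        · rw [ic_false hex]
          exact zero_le
      refine (mul_le_mul_right h1 _).trans ?_
      rw [← ENNReal.ofReal_natCast, ← ENNReal.ofReal_mul (by positivity)]
      refine ENNReal.ofReal_le_ofReal ?_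
      have hMe : (M : ℝ) ^ (ε / 8) ≤ E ^ 4 := by
        have h2 : (M : ℝ) ≤ (X : ℝ) ^ 2 := hMr.trans (div_le_self (by positivity) hh1r)
        calc (M : ℝ) ^ (ε / 8) ≤ ((X : ℝ) ^ 2) ^ (ε / 8) :=
              Real.rpow_le_rpow hM0 h2 (by positivity)
          _ = E ^ 4 := by
              rw [hE, ← Real.rpow_natCast, ← Real.rpow_natCast, ← Real.rpow_mul hX0.le,
                ← Real.rpow_mul hX0.le]
              congr 1; push_cast; ring
      have hsS : 0 ≤ √S := Real.sqrt_nonneg S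
      set r := √S * M with hr
      have hr0 : 0 ≤ r := by positivity
      have hy0 := z.im_pos
      have hr2 : r ^ 2 ≤ S * (X : ℝ) ^ 4 * (1 / (h : ℝ) ^ 2) := by
        rw [hr, mul_pow, Real.sq_sqrt hS, mul_assoc]
        refine mul_le_mul_of_nonneg_left ?_ hS
        calc (M : ℝ) ^ 2 ≤ ((X : ℝ) ^ 2 / h) ^ 2 := pow_le_pow_left₀ hM0 hMr 2
          _ = _ := by field_simp
      have h8 : (1 + r) ^ 2 + r * z.im ≤ (2 + Y) * (1 + S * (X : ℝ) ^ 4 * (1 / (h : ℝ) ^ 2)) := by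
        have h9 : 2 * r ≤ 1 + r ^ 2 := by nlinarith [sq_nonneg (r - 1)]
        have h10 : r * z.im ≤ (1 + r ^ 2) * Y := by
          have : r ≤ 1 + r ^ 2 := by nlinarith
          exact mul_le_mul this hY hy0.le (by positivity)
        have h11 : (1 + r) ^ 2 + r * z.im ≤ (2 + Y) * (1 + r ^ 2) := by nlinarith
        refine h11.trans ?_
        refine mul_le_mul_of_nonneg_left ?_ (by positivity)
        linarith
      have h12 : (h : ℝ) * M ≤ (X : ℝ) ^ 2 := by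
        rw [le_div_iff₀ hh0] at hMr
        linarith
      calc (h : ℝ) * (C1 * (M * (M : ℝ) ^ (ε / 8) * ((1 + r) ^ 2 + r * z.im)))
          = C1 * ((h : ℝ) * M) * (M : ℝ) ^ (ε / 8) * ((1 + r) ^ 2 + r * z.im) := by ring
        _ ≤ C1 * (X : ℝ) ^ 2 * E ^ 4 * ((2 + Y) * (1 + S * (X : ℝ) ^ 4 * (1 / (h : ℝ) ^ 2))) := by
            gcongr
        _ = _ := by ring
    · rw [← Finset.mul_sum]
      refine mul_le_mul_of_nonneg_left ?_ (by positivity)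
      rw [Finset.sum_add_distrib, ← Finset.mul_sum, Finset.sum_const, nsmul_eq_mul, mul_one]
      refine add_le_add hHcard ?_
      exact mul_le_mul_of_nonneg_left hHsq (by positivity)
  have hE16 : E ^ 16 = (X : ℝ) ^ ε := by
    rw [hE, ← Real.rpow_natCast, ← Real.rpow_mul hX0.le]
    congr 1; push_cast; ring
  calc (K : ℝ≥0∞) ^ 2 * ∑ h ∈ H, (h : ℝ≥0∞) * ∑' β : Z4, ic ((∃ n ∈ F,
      ∃ m ∈ F, (h : ℤ) ^ 2 * det4 β = (n : ℤ) * m) ∧ sf4 β z ≤ S)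
      ≤ ENNReal.ofReal ((C0 * E ^ 4) ^ 2) * ENNReal.ofReal (C1 * (X : ℝ) ^ 2 * E ^ 4 * (2 + Y) *
        (X * (C0 * E ^ 4) + S * (X : ℝ) ^ 4 * 2)) := by
        refine mul_le_mul' ?_ hsum
        rw [ENNReal.ofReal_pow (by positivity), ← ENNReal.ofReal_natCast]
        gcongr
    _ = ENNReal.ofReal ((C0 * E ^ 4) ^ 2 * (C1 * (X : ℝ) ^ 2 * E ^ 4 * (2 + Y) *
        (X * (C0 * E ^ 4) + S * (X : ℝ) ^ 4 * 2))) := by
        rw [← ENNReal.ofReal_mul (by positivity)]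
    _ ≤ _ := by
        refine ENNReal.ofReal_le_ofReal ?_
        rw [← hE16]
        have h1 : X * (C0 * E ^ 4) + S * (X : ℝ) ^ 4 * 2 ≤
            2 * C0 * E ^ 4 * (X + S * (X : ℝ) ^ 4) := by
          have h2 : 1 ≤ C0 * E ^ 4 := by
            have := one_le_pow₀ hE1 (n := 4)
            nlinarith
          have h3 : 0 ≤ S * (X : ℝ) ^ 4 := by positivity
          have h4 : 0 ≤ (X : ℝ) * (C0 * E ^ 4) := by positivity
          nlinarith
        calc (C0 * E ^ 4) ^ 2 * (C1 * (X : ℝ) ^ 2 * E ^ 4 * (2 + Y) *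
            (X * (C0 * E ^ 4) + S * (X : ℝ) ^ 4 * 2))
            ≤ (C0 * E ^ 4) ^ 2 * (C1 * (X : ℝ) ^ 2 * E ^ 4 * (2 * (1 + Y)) *
            (2 * C0 * E ^ 4 * (X + S * (X : ℝ) ^ 4))) := by
              gcongr
              linarith
          _ = _ := by ring

end Pool.Agent.H19.Maass
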