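import Mathlib
import Pool.Agent.H19.Maass.Multi
import Pool.Agent.H19.Maass.Pairs

set_option autoImplicit false

namespace Pool.Agent.H19.Maass

open MeasureTheory UpperHalfPlane ModularGroup Metric
open scoped MatrixGroups Modular UpperHalfPlane ENNReal

/-- the truncated strip -/
def D0 (Y : ℝ) : Set ℍ := {w : ℍ | |w.re| ≤ 1 / 2 ∧ 1 / 2 ≤ w.im ∧ w.im ≤ Y}

lemma isCompact_D0 (Y : ℝ) : IsCompact (D0 Y) := by
  rw [isEmbedding_coe.isCompact_iff (f := ((↑) : ℍ → ℂ))]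
  have h1 : ((↑) : ℍ → ℂ) '' D0 Y = Set.Icc (-(1 / 2) : ℝ) (1 / 2) ×ℂ Set.Icc (1 / 2 : ℝ) Y := by
    ext w
    rw [Complex.mem_reProdIm]
    constructor
    · rintro ⟨v, ⟨h1, h2, h3⟩, rfl⟩
      rw [abs_le] at h1
      exact ⟨⟨h1.1, h1.2⟩, ⟨h2, h3⟩⟩
    · rintro ⟨h1, h2⟩
      have hw : 0 < w.im := by have := h2.1; linarith
      refine ⟨⟨w, hw⟩, ⟨?_, h2.1, h2.2⟩, rfl⟩
      rw [abs_le]
      exact ⟨h1.1, h1.2⟩
  rw [h1]
  exact isCompact_Icc.reProdIm isCompact_Icc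

lemma exists_group (Y R : ℝ) : ∃ G : Finset SL(2, ℤ), ∀ z ∈ D0 Y, ∀ w ∈ D0 Y, ∀ σ : SL(2, ℤ),
    dist z (σ • w) ≤ R → σ ∈ G := by
  have hK : IsCompact (cthickening R (D0 Y)) := (isCompact_D0 Y).cthickening
  have h := finite_near (isCompact_D0 Y) hK
  refine ⟨h.toFinset, fun z hz w hw σ hσ => ?_⟩
  rw [Set.Finite.mem_toFinset]
  exact ⟨w, hw, mem_cthickening_of_dist_le _ z _ _ hz (by rwa [dist_comm])⟩

lemma NN_mono {ρ ρ' : ℝ} (h : ρ ≤ ρ') (z w : ℍ) : NN ρ z w ≤ NN ρ' z w :=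
  ENNReal.tsum_le_tsum fun _ => ic_mono fun h1 => h1.trans h

/-- uniform bound for the number of translates in a bounded ball -/
lemma exists_NN_bound (Y R : ℝ) : ∃ G : ℕ, ∀ (P : ℍ), ∀ w ∈ D0 Y, NN R P w ≤ (G : ℝ≥0∞) := by
  obtain ⟨G, hG⟩ := exists_group Y (2 * R)
  refine ⟨G.card, fun P w hw => ?_⟩
  by_cases hex : ∃ σ : SL(2, ℤ), dist P (σ • w) ≤ R
  · obtain ⟨σ0, h0⟩ := hex
    have h1 : NN R P w ≤ ∑' σ : SL(2, ℤ), ic (σ0⁻¹ * σ ∈ G) := by
      refine ENNReal.tsum_le_tsum fun σ => ic_mono fun h => ?_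
      refine hG w hw w hw _ ?_
      have h2 : dist w ((σ0⁻¹ * σ) • w) = dist (σ0 • w) (σ • w) := by
        rw [mul_smul, ← dist_sl σ0 w, smul_inv_smul]
      rw [h2]
      have := dist_triangle (σ0 • w) P (σ • w)
      rw [dist_comm (σ0 • w) P] at this
      linarith
    refine h1.trans ?_
    have h3 := (Equiv.mulLeft σ0⁻¹).tsum_eq (fun τ : SL(2, ℤ) => ic (τ ∈ G))
    simp only [Equiv.coe_mulLeft] at h3
    rw [h3]
    rw [tsum_eq_sum (s := G) (fun τ hτ => ic_false hτ)]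
    refine (Finset.sum_le_card_nsmul _ _ 1 fun x _ => ic_le_one _).trans ?_
    rw [nsmul_one]
  · rw [not_exists] at hex
    unfold NN
    rw [ENNReal.tsum_eq_zero.2 (fun σ => ic_false (hex σ))]
    exact zero_le

/-- energy of the points against a growth bound -/
lemma exists_growth (Y : ℝ) : ∃ G : ℝ, 1 ≤ G ∧ ∀ {ι : Type} (J : Finset ι) (m : ι → ℝ≥0∞)
    (z : ι → ℍ), (∀ s ∈ J, z s ∈ D0 Y) → ∀ ρ : ℝ, ρ ≤ 1 → ∀ b : ℝ≥0∞,
    (∀ w : ℍ, ∑ s ∈ J, m s * ic (dist w (z s) ≤ ρ) ≤ b) → ∀ r ∈ J,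
    ∑ s ∈ J, m s * NN ρ (z r) (z s) ≤ ENNReal.ofReal G * b := by
  obtain ⟨G, hG⟩ := exists_group Y 1
  refine ⟨(G.card : ℝ) + 1, by have := Nat.cast_nonneg (α := ℝ) G.card; linarith, ?_⟩
  intro ι J m z hz ρ hρ b hb r hr
  unfold NN
  simp_rw [← ENNReal.tsum_mul_left]
  rw [← Summable.tsum_finsetSum (fun _ _ => ENNReal.summable)]
  have h1 : ∀ σ : SL(2, ℤ), σ ∉ G → ∑ s ∈ J, m s * ic (dist (z r) (σ • z s) ≤ ρ) = 0 := by
    intro σ hσ
    refine Finset.sum_eq_zero fun s hs => ?_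
    rw [ic_false, mul_zero]
    intro h
    exact hσ (hG _ (hz r hr) _ (hz s hs) σ (h.trans hρ))
  rw [tsum_eq_sum (s := G) (fun σ hσ => h1 σ hσ)]
  have h2 : ∀ σ ∈ G, ∑ s ∈ J, m s * ic (dist (z r) (σ • z s) ≤ ρ) ≤ b := by
    intro σ _
    refine le_trans (le_of_eq ?_) (hb (σ⁻¹ • z r))
    refine Finset.sum_congr rfl fun s _ => ?_
    rw [dist_sl']
  refine (Finset.sum_le_card_nsmul _ _ b h2).trans ?_
  rw [nsmul_eq_mul]
  refine mul_le_mul_left ?_ _
  rw [← ENNReal.ofReal_natCast]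
  exact ENNReal.ofReal_le_ofReal (by linarith)

lemma dist_le_of_cosh {S : ℝ} {z w : ℍ} (h : 2 * Real.cosh (dist z w) - 2 ≤ S) :
    dist z w ≤ √S := by
  refine Real.le_sqrt_of_sq_le (le_trans ?_ h)
  have h1 := Real.cosh_two_mul (dist z w / 2)
  have h2 := Real.cosh_sq (dist z w / 2)
  have h3 : dist z w / 2 ≤ Real.sinh (dist z w / 2) := Real.self_le_sinh_iff.2 (by positivity)
  have h4 : (dist z w / 2) ^ 2 ≤ Real.sinh (dist z w / 2) ^ 2 :=
    pow_le_pow_left₀ (by positivity) h3 2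
  rw [show 2 * (dist z w / 2) = dist z w by ring] at h1
  nlinarith

lemma cosh_le_of_dist {x : ℝ} (h0 : 0 ≤ x) (h1 : x ≤ 1) : 2 * Real.cosh x - 2 ≤ 2 * x ^ 2 := by
  have h2 := Real.abs_exp_sub_one_sub_id_le (x := x) (by rw [abs_of_nonneg h0]; exact h1)
  have h3 := Real.abs_exp_sub_one_sub_id_le (x := -x) (by rw [abs_neg, abs_of_nonneg h0]; exact h1)
  rw [abs_le] at h2 h3
  rw [Real.cosh_eq]
  nlinarith [h2.2, h3.2]

lemma HH_le {S : ℝ} (l : ℕ) (z w : ℍ) :
    HH (fun s => ic (s ≤ S)) l z w ≤ ∑ u ∈ RR l, NN (√S) (hx l u z) w := by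
  unfold HH NN
  refine Finset.sum_le_sum fun u _ => ENNReal.tsum_le_tsum fun τ => ic_mono fun h => ?_
  exact dist_le_of_cosh h

lemma HH_ph (C T : ℝ) (L l : ℕ) (z w : ℍ) : HH (ph C T L) l z w =
    ∑ j ∈ Finset.range (L + 1), ENNReal.ofReal (C * √T * 2 ^ j) *
      HH (fun s => ic (s ≤ 6 / 16 ^ j)) l z w := by
  unfold HH ph
  simp_rw [Finset.mul_sum]
  rw [Finset.sum_comm]
  refine Finset.sum_congr rfl fun u _ => ?_
  rw [Summable.tsum_finsetSum (fun _ _ => ENNReal.summable)]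
  refine Finset.sum_congr rfl fun j _ => ?_
  rw [ENNReal.tsum_mul_left]

lemma energy_NN (F : Finset ℕ) (z : ℍ) {ρ : ℝ} (h1 : 2 * ρ ≤ 1) :
    ∑ i ∈ F.sigma RR, ∑ i' ∈ F.sigma RR, (1 : ℝ≥0∞) * 1 *
      NN (2 * ρ) (hx i.1 i.2 z) (hx i'.1 i'.2 z) ≤ EEP F (8 * ρ ^ 2) z := by
  unfold EEP MM
  rw [Finset.sum_sigma]
  refine Finset.sum_le_sum fun n _ => ?_
  have h2 : ∀ x, ∑ i' ∈ F.sigma RR, (1 : ℝ≥0∞) * 1 * NN (2 * ρ) (hx n x z) (hx i'.1 i'.2 z) =
      ∑ m ∈ F, ∑ y ∈ RR m, (1 : ℝ≥0∞) * 1 * NN (2 * ρ) (hx n x z) (hx m y z) := fun x =>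
    Finset.sum_sigma F RR (fun i' => (1 : ℝ≥0∞) * 1 * NN (2 * ρ) (hx n x z) (hx i'.1 i'.2 z))
  simp_rw [h2]
  rw [Finset.sum_comm]
  refine Finset.sum_le_sum fun m _ => Finset.sum_le_sum fun x _ => Finset.sum_le_sum fun y _ => ?_
  rw [one_mul, one_mul]
  unfold NN
  refine ENNReal.tsum_le_tsum fun σ => ic_mono fun h => ?_
  have h3 : 0 ≤ dist (hx n x z) (σ • hx m y z) := dist_nonneg
  refine (cosh_le_of_dist h3 (h.trans h1)).trans ?_
  have h4 := pow_le_pow_left₀ h3 h 2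
  linarith

theorem scale_sum (Y : ℝ) : ∃ A : ℝ, 0 < A ∧ ∀ {ι : Type} (J : Finset ι) (m : ι → ℝ≥0∞)
    (z : ι → ℍ), (∀ s ∈ J, z s ∈ D0 Y) → ∀ (C T M B : ℝ) (L : ℕ), 0 ≤ C → 1 ≤ T →
    (2 : ℝ) ^ L ≤ 2 * √T → 0 ≤ M → 0 ≤ B → ∑ s ∈ J, m s ≤ ENNReal.ofReal M →
    (∀ w : ℍ, ∀ ρ : ℝ, 1 / T ≤ ρ → ρ ≤ 1 →
      ∑ s ∈ J, m s * ic (dist w (z s) ≤ ρ) ≤ ENNReal.ofReal (B * ρ)) →
    ∀ (F : Finset ℕ), (∀ n ∈ F, 0 < n) → ∀ (Q1 Q2 : ℝ), 0 ≤ Q1 → 0 ≤ Q2 →
    (∀ r ∈ J, ∀ j : ℕ, 2 ≤ j → EEP F (48 / 16 ^ j) (z r) ≤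
      ENNReal.ofReal ((Q1 + Q2 / 4 ^ j) ^ 2)) →
    ∑ l ∈ F, ((RR l).card : ℝ) ≤ Q2 →
    ∑ l ∈ F, ∑ r ∈ J, ∑ s ∈ J, m r * m s * ct2 (ph C T L) (l : ℕ) (z r) (z s) ≤
      ENNReal.ofReal (A * C * √T * M * (√(M * B) * Q1 * (L + 1) + M * Q2)) := by
  classical
  obtain ⟨G', hG'⟩ := exists_NN_bound Y (√6)
  obtain ⟨G, hG1, hG⟩ := exists_growth Y
  set A' : ℝ := 4 * (G' : ℝ) + 2000 * √(10 * G) with hA'
  have hsG : 1 ≤ √(10 * G) := by rw [Real.one_le_sqrt]; linarith
  have hG'0 : (0 : ℝ) ≤ G' := Nat.cast_nonneg _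
  have hA'0 : 0 < A' := by rw [hA']; linarith
  refine ⟨2 * A', by positivity, ?_⟩
  intro ι J m z hz C T M B L hC hT hL hM hB hmM hgr F hF Q1 Q2 hQ1 hQ2 hEE hcard
  have hT0 : 0 < T := by linarith
  have hsT : 0 ≤ √T := Real.sqrt_nonneg T
  -- W j
  have hW : ∀ j ∈ Finset.range (L + 1), ∑ l ∈ F, ∑ r ∈ J, ∑ s ∈ J, m r * m s *
      HH (fun s => ic (s ≤ 6 / 16 ^ j)) l (z r) (z s) ≤
      ENNReal.ofReal (A' * M * (√(M * B) * Q1 * (1 / 2) ^ j + M * Q2 * (1 / 4) ^ j)) := by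
    intro j hj
    rw [Finset.mem_range] at hj
    set ρ : ℝ := √(6 / 16 ^ j) with hρ
    have h16 : (1 : ℝ) ≤ 16 ^ j := one_le_pow₀ (by norm_num)
    have hρ0 : 0 < ρ := Real.sqrt_pos.2 (by positivity)
    have hρ6 : ρ ≤ √6 := Real.sqrt_le_sqrt (div_le_self (by norm_num) h16)
    have hρ4 : ρ ≤ 5 / 2 * (1 / 4) ^ j := sqrt_six_div j
    -- rearrange
    have e1 : ∑ l ∈ F, ∑ r ∈ J, ∑ s ∈ J, m r * m s *
        HH (fun s => ic (s ≤ 6 / 16 ^ j)) l (z r) (z s) ≤
        ∑ r ∈ J, m r * ∑ i ∈ F.sigma RR, ∑ s ∈ J, 1 * m s * NN ρ (hx i.1 i.2 (z r)) (z s) := by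
      rw [Finset.sum_comm]
      refine Finset.sum_le_sum fun r _ => ?_
      rw [Finset.sum_sigma, Finset.mul_sum]
      refine Finset.sum_le_sum fun l _ => ?_
      rw [Finset.sum_comm, Finset.mul_sum]
      refine Finset.sum_le_sum fun s _ => ?_
      rw [← Finset.mul_sum, one_mul, ← mul_assoc]
      exact mul_le_mul_right (HH_le l (z r) (z s)) _
    refine e1.trans ?_
    rcases Nat.lt_or_ge j 2 with hj2 | hj2
    · -- large scales
      have e2 : ∀ r ∈ J, ∑ i ∈ F.sigma RR, ∑ s ∈ J, 1 * m s * NN ρ (hx i.1 i.2 (z r)) (z s) ≤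
          ENNReal.ofReal (Q2 * (M * G')) := by
        intro r _
        have e3 : ∀ i ∈ F.sigma RR, ∑ s ∈ J, 1 * m s * NN ρ (hx i.1 i.2 (z r)) (z s) ≤
            ENNReal.ofReal (M * G') := by
          intro i _
          calc ∑ s ∈ J, 1 * m s * NN ρ (hx i.1 i.2 (z r)) (z s)
              ≤ ∑ s ∈ J, m s * (G' : ℝ≥0∞) := by
                refine Finset.sum_le_sum fun s hs => ?_
                rw [one_mul]
                exact mul_le_mul_right ((NN_mono hρ6 _ _).trans (hG' _ _ (hz s hs))) _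
            _ = (∑ s ∈ J, m s) * G' := by rw [Finset.sum_mul]
            _ ≤ ENNReal.ofReal M * G' := mul_le_mul_left hmM _
            _ = _ := by rw [ENNReal.ofReal_mul hM, ENNReal.ofReal_natCast]
        refine (Finset.sum_le_card_nsmul _ _ _ e3).trans ?_
        rw [nsmul_eq_mul, ENNReal.ofReal_mul hQ2, Finset.card_sigma]
        refine mul_le_mul_left ?_ _
        rw [← ENNReal.ofReal_natCast]
        refine ENNReal.ofReal_le_ofReal (le_trans (le_of_eq ?_) hcard)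
        push_cast
        rfl
      calc ∑ r ∈ J, m r * ∑ i ∈ F.sigma RR, ∑ s ∈ J, 1 * m s * NN ρ (hx i.1 i.2 (z r)) (z s)
          ≤ ∑ r ∈ J, m r * ENNReal.ofReal (Q2 * (M * G')) :=
            Finset.sum_le_sum fun r hr => mul_le_mul_right (e2 r hr) _
        _ = (∑ r ∈ J, m r) * ENNReal.ofReal (Q2 * (M * G')) := by rw [Finset.sum_mul]
        _ ≤ ENNReal.ofReal M * ENNReal.ofReal (Q2 * (M * G')) := mul_le_mul_left hmM _
        _ = ENNReal.ofReal (M * (Q2 * (M * G'))) := (ENNReal.ofReal_mul hM).symm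
        _ ≤ _ := by
            refine ENNReal.ofReal_le_ofReal ?_
            have h4 : (1 : ℝ) / 4 ≤ (1 / 4) ^ j := by
              interval_cases j <;> norm_num
            have h5 : 0 ≤ √(M * B) * Q1 * (1 / 2) ^ j := by positivity
            have h6 : 4 * (G' : ℝ) ≤ A' := by rw [hA']; linarith
            calc M * (Q2 * (M * G')) = (4 * G') * M * (M * Q2 * (1 / 4)) := by ring
              _ ≤ A' * M * (M * Q2 * (1 / 4) ^ j) := by gcongr
              _ ≤ A' * M * (√(M * B) * Q1 * (1 / 2) ^ j + M * Q2 * (1 / 4) ^ j) := by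
                  refine mul_le_mul_of_nonneg_left ?_ (by positivity)
                  linarith
    · -- small scales
      have h4j : (1 / 4 : ℝ) ^ j ≤ 1 / 16 := by
        calc (1 / 4 : ℝ) ^ j ≤ (1 / 4) ^ 2 := pow_le_pow_of_le_one (by norm_num) (by norm_num) hj2
          _ = 1 / 16 := by norm_num
      have h4j0 : (0 : ℝ) < (1 / 4) ^ j := by positivity
      have hρ1 : 2 * ρ ≤ 1 := by linarith
      set b : ℝ := min M (10 * B * (1 / 4) ^ j) with hb
      have hb0 : 0 ≤ b := le_min hM (by positivity)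
      have hgrow : ∀ w : ℍ, ∑ s ∈ J, m s * ic (dist w (z s) ≤ 4 * ρ) ≤ ENNReal.ofReal b := by
        intro w
        rcases le_total M (10 * B * (1 / 4) ^ j) with h | h
        · rw [hb, min_eq_left h]
          refine le_trans (Finset.sum_le_sum fun s _ => ?_) hmM
          exact mul_le_of_le_one_right zero_le (ic_le_one _)
        · rw [hb, min_eq_right h]
          have h5 : 10 * B * (1 / 4) ^ j = B * (10 * (1 / 4) ^ j) := by ring
          rw [h5]
          refine le_trans (Finset.sum_le_sum fun s _ => ?_) (hgr w (10 * (1 / 4) ^ j) ?_ ?_)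
          · exact mul_le_mul_right (ic_mono fun h6 => h6.trans (by linarith)) _
          · -- 1/T ≤ 10 (1/4)^j
            have h6 : (2 : ℝ) ^ j ≤ 2 * √T := by
              refine le_trans ?_ hL
              exact pow_le_pow_right₀ (by norm_num) (by omega)
            have h7 : (4 : ℝ) ^ j ≤ 4 * T := by
              have h8 := pow_le_pow_left₀ (by positivity) h6 2
              rw [mul_pow, Real.sq_sqrt hT0.le] at h8
              have h9 : ((2 : ℝ) ^ j) ^ 2 = 4 ^ j := by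
                rw [← pow_mul, mul_comm j 2, pow_mul]; norm_num
              rw [h9] at h8
              linarith
            rw [div_le_iff₀ hT0, div_pow, one_pow]
            rw [show 10 * (1 / (4 : ℝ) ^ j) * T = 10 * T / 4 ^ j by ring, le_div_iff₀ (by positivity)]
            linarith
          · linarith
      set e2 : ℝ := √(G * M * b) with he2
      have he20 : 0 ≤ e2 := Real.sqrt_nonneg _
      have hE2 : ∑ s ∈ J, ∑ s' ∈ J, m s * m s' * NN (4 * ρ) (z s) (z s') ≤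
          ENNReal.ofReal (e2 ^ 2) := by
        have h5 : ∀ s ∈ J, ∑ s' ∈ J, m s * m s' * NN (4 * ρ) (z s) (z s') ≤
            m s * (ENNReal.ofReal G * ENNReal.ofReal b) := by
          intro s hs
          simp_rw [mul_assoc]
          rw [← Finset.mul_sum]
          exact mul_le_mul_right (hG J m z hz (4 * ρ) (by linarith) _ hgrow s hs) _
        refine (Finset.sum_le_sum h5).trans ?_
        rw [← Finset.sum_mul]
        refine (mul_le_mul_left hmM _).trans (le_of_eq ?_)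
        rw [he2, Real.sq_sqrt (by positivity), ← ENNReal.ofReal_mul (by linarith),
          ← ENNReal.ofReal_mul hM]
        congr 1; ring
      have he1 : 0 ≤ Q1 + Q2 * (1 / 4) ^ j := by positivity
      have hXr : ∀ r ∈ J, ∑ i ∈ F.sigma RR, ∑ s ∈ J, 1 * m s * NN ρ (hx i.1 i.2 (z r)) (z s) ≤
          ENNReal.ofReal (2000 * ((Q1 + Q2 * (1 / 4) ^ j) * e2)) := by
        intro r hr
        refine cs_real (F.sigma RR) J (fun _ => 1) m (fun i => hx i.1 i.2 (z r)) z hρ0 hρ1 he1 he20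
          ?_ hE2
        refine (energy_NN F (z r) hρ1).trans ?_
        have h5 : 8 * ρ ^ 2 = 48 / 16 ^ j := by
          rw [hρ, Real.sq_sqrt (by positivity)]; ring
        rw [h5]
        refine (hEE r hr j hj2).trans (le_of_eq ?_)
        congr 2
        rw [div_pow, one_pow]; ring
      calc ∑ r ∈ J, m r * ∑ i ∈ F.sigma RR, ∑ s ∈ J, 1 * m s * NN ρ (hx i.1 i.2 (z r)) (z s)
          ≤ ∑ r ∈ J, m r * ENNReal.ofReal (2000 * ((Q1 + Q2 * (1 / 4) ^ j) * e2)) :=
            Finset.sum_le_sum fun r hr => mul_le_mul_right (hXr r hr) _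
        _ = (∑ r ∈ J, m r) * ENNReal.ofReal (2000 * ((Q1 + Q2 * (1 / 4) ^ j) * e2)) := by
            rw [Finset.sum_mul]
        _ ≤ ENNReal.ofReal M * ENNReal.ofReal (2000 * ((Q1 + Q2 * (1 / 4) ^ j) * e2)) :=
            mul_le_mul_left hmM _
        _ = ENNReal.ofReal (M * (2000 * ((Q1 + Q2 * (1 / 4) ^ j) * e2))) :=
            (ENNReal.ofReal_mul hM).symm
        _ ≤ _ := by
            refine ENNReal.ofReal_le_ofReal ?_
            have h6 : e2 ≤ √(10 * G) * √(M * B) * (1 / 2) ^ j := by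
              have h7 : √(10 * G) * √(M * B) * (1 / 2) ^ j = √(10 * G * (M * B) * (1 / 4) ^ j) := by
                have h10 : ((1 : ℝ) / 4) ^ j = ((1 / 2) ^ j) ^ 2 := by
                  rw [← pow_mul, mul_comm j 2, pow_mul]; norm_num
                have h11 : 0 ≤ 10 * G := by linarith
                have h12 : 0 ≤ M * B := mul_nonneg hM hB
                rw [h10, Real.sqrt_mul (mul_nonneg h11 h12), Real.sqrt_sq (by positivity),
                  Real.sqrt_mul h11]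
              rw [h7, he2]
              refine Real.sqrt_le_sqrt ?_
              calc G * M * b ≤ G * M * (10 * B * (1 / 4) ^ j) := by
                    refine mul_le_mul_of_nonneg_left (min_le_right _ _) (by positivity)
                _ = _ := by ring
            have h8 : e2 ≤ √(10 * G) * M := by
              have h7 : √(10 * G) * M = √(10 * G * M ^ 2) := by
                have h11 : 0 ≤ 10 * G := by linarith
                rw [Real.sqrt_mul h11, Real.sqrt_sq hM]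
              rw [h7, he2]
              refine Real.sqrt_le_sqrt ?_
              calc G * M * b ≤ G * M * M := by
                    refine mul_le_mul_of_nonneg_left (min_le_left _ _) (by positivity)
                _ ≤ 10 * (G * M * M) := by
                    have : 0 ≤ G * M * M := by positivity
                    linarith
                _ = _ := by ring
            have h9 : 2000 * √(10 * G) ≤ A' := by rw [hA']; linarith
            calc M * (2000 * ((Q1 + Q2 * (1 / 4) ^ j) * e2))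
                = M * 2000 * (Q1 * e2 + Q2 * (1 / 4) ^ j * e2) := by ring
              _ ≤ M * 2000 * (Q1 * (√(10 * G) * √(M * B) * (1 / 2) ^ j) +
                  Q2 * (1 / 4) ^ j * (√(10 * G) * M)) := by gcongr
              _ = (2000 * √(10 * G)) * M * (√(M * B) * Q1 * (1 / 2) ^ j +
                  M * Q2 * (1 / 4) ^ j) := by ring
              _ ≤ _ := by gcongr
  -- assemble
  calc ∑ l ∈ F, ∑ r ∈ J, ∑ s ∈ J, m r * m s * ct2 (ph C T L) (l : ℕ) (z r) (z s)
      ≤ ∑ l ∈ F, ∑ r ∈ J, ∑ s ∈ J, m r * m s * HH (ph C T L) l (z r) (z s) :=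
        Finset.sum_le_sum fun l hl => Finset.sum_le_sum fun r _ => Finset.sum_le_sum fun s _ =>
          mul_le_mul_right (ct2_le _ (hF l hl) _ _) _
    _ = ∑ j ∈ Finset.range (L + 1), ENNReal.ofReal (C * √T * 2 ^ j) *
          ∑ l ∈ F, ∑ r ∈ J, ∑ s ∈ J, m r * m s *
            HH (fun s => ic (s ≤ 6 / 16 ^ j)) l (z r) (z s) := by
        have h1 : ∀ l ∈ F, ∑ r ∈ J, ∑ s ∈ J, m r * m s * HH (ph C T L) l (z r) (z s) =
            ∑ j ∈ Finset.range (L + 1), ENNReal.ofReal (C * √T * 2 ^ j) *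
              ∑ r ∈ J, ∑ s ∈ J, m r * m s *
                HH (fun s => ic (s ≤ 6 / 16 ^ j)) l (z r) (z s) := by
          intro l _
          simp_rw [HH_ph, Finset.mul_sum]
          have h2 : ∀ r ∈ J, ∑ s ∈ J, ∑ j ∈ Finset.range (L + 1), m r * m s *
              (ENNReal.ofReal (C * √T * 2 ^ j) *
                HH (fun s => ic (s ≤ 6 / 16 ^ j)) l (z r) (z s)) =
              ∑ j ∈ Finset.range (L + 1), ∑ s ∈ J, ENNReal.ofReal (C * √T * 2 ^ j) *
                (m r * m s * HH (fun s => ic (s ≤ 6 / 16 ^ j)) l (z r) (z s)) := by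
            intro r _
            rw [Finset.sum_comm]
            refine Finset.sum_congr rfl fun j _ => Finset.sum_congr rfl fun s _ => ?_
            ring
          rw [Finset.sum_congr rfl h2, Finset.sum_comm]
        rw [Finset.sum_congr rfl h1, Finset.sum_comm]
        refine Finset.sum_congr rfl fun j _ => ?_
        rw [← Finset.mul_sum]
    _ ≤ ∑ j ∈ Finset.range (L + 1), ENNReal.ofReal (C * √T * 2 ^ j) *
          ENNReal.ofReal (A' * M * (√(M * B) * Q1 * (1 / 2) ^ j + M * Q2 * (1 / 4) ^ j)) :=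
        Finset.sum_le_sum fun j hj => mul_le_mul_right (hW j hj) _
    _ ≤ _ := by
        refine ennsum_le _ _ (fun j => C * √T * A' * M * (√(M * B) * Q1 +
          M * Q2 * (1 / 2) ^ j)) (fun j _ => by positivity) ?_ ?_
        · intro j _
          rw [← ENNReal.ofReal_mul (by positivity)]
          refine ENNReal.ofReal_le_ofReal (le_of_eq ?_)
          have h1 : (2 : ℝ) ^ j * (1 / 2) ^ j = 1 := by rw [← mul_pow]; norm_num
          have h2 : (2 : ℝ) ^ j * (1 / 4) ^ j = (1 / 2) ^ j := by rw [← mul_pow]; norm_num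
          calc C * √T * 2 ^ j * (A' * M * (√(M * B) * Q1 * (1 / 2) ^ j + M * Q2 * (1 / 4) ^ j))
              = C * √T * A' * M * (√(M * B) * Q1 * (2 ^ j * (1 / 2) ^ j) +
                M * Q2 * (2 ^ j * (1 / 4) ^ j)) := by ring
            _ = _ := by rw [h1, h2]; ring
        · rw [← Finset.mul_sum, Finset.sum_add_distrib, Finset.sum_const, ← Finset.mul_sum,
            Finset.card_range, nsmul_eq_mul]
          have h1 := geom_half_le L
          push_cast
          have h2 : 0 ≤ √(M * B) * Q1 * (L + 1) := by positivity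
          calc C * √T * A' * M * ((L + 1) * (√(M * B) * Q1) +
                M * Q2 * ∑ j ∈ Finset.range (L + 1), (1 / 2 : ℝ) ^ j)
              ≤ C * √T * A' * M * ((L + 1) * (√(M * B) * Q1) + M * Q2 * 2) := by gcongr
            _ ≤ C * √T * A' * M * (2 * (√(M * B) * Q1 * (L + 1) + M * Q2)) := by
                refine mul_le_mul_of_nonneg_left ?_ (by positivity)
                linarith
            _ = _ := by ring

end Pool.Agent.H19.Maass
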