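import Mathlib
import Pool.Agent.H19.Maass.Rows

set_option autoImplicit false

namespace Pool.Agent.H19.Maass

open Chebyshev

lemma theta_sub_le (N : ℕ) : θ ((4 * N : ℕ) : ℝ) - θ (N : ℝ) ≤ (PR N).card * Real.log (4 * N) := by
  rw [theta_eq_theta_coe_floor, theta_eq_theta_coe_floor (N : ℝ), Nat.floor_natCast,
    Nat.floor_natCast]
  have h1 : θ ((4 * N : ℕ) : ℝ) = θ (N : ℝ) + ∑ p ∈ PR N, Real.log p := by
    unfold theta
    rw [Nat.floor_natCast, Nat.floor_natCast, PR]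
    rw [← Finset.sum_union]
    · congr 1
      ext p
      simp only [Finset.mem_filter, Finset.mem_Ioc, Finset.mem_union]
      constructor
      · rintro ⟨⟨h1, h2⟩, h3⟩
        by_cases h : p ≤ N
        · left; exact ⟨⟨h1, h⟩, h3⟩
        · right; exact ⟨⟨by omega, h2⟩, h3⟩
      · rintro (⟨⟨h1, h2⟩, h3⟩ | ⟨⟨h1, h2⟩, h3⟩)
        · exact ⟨⟨h1, by omega⟩, h3⟩
        · exact ⟨⟨by omega, h2⟩, h3⟩
    · rw [Finset.disjoint_left]
      intro p h1 h2
      simp only [Finset.mem_filter, Finset.mem_Ioc] at h1 h2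
      omega
  rw [h1, add_sub_cancel_left]
  calc ∑ p ∈ PR N, Real.log p ≤ ∑ p ∈ PR N, Real.log (4 * N) := by
        refine Finset.sum_le_sum fun p hp => ?_
        rw [mem_PR] at hp
        have h2 : (0 : ℝ) < p := by exact_mod_cast hp.2.pos
        have h3 : (p : ℝ) ≤ 4 * N := by exact_mod_cast hp.1.2
        exact Real.log_le_log h2 h3
    _ = _ := by rw [Finset.sum_const, nsmul_eq_mul]

lemma le_card_mul_log {N : ℕ} (hN : 100000000 ≤ N) : (N : ℝ) ≤ (PR N).card * Real.log (4 * N) := by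
  refine le_trans ?_ (theta_sub_le N)
  have h1 := theta_ge (4 * N)
  have h2 := theta_le_log4_mul_x (x := (N : ℝ)) (Nat.cast_nonneg N)
  set M : ℝ := (N : ℝ) ^ (1 / 4 : ℝ) with hM
  have hN0 : (0 : ℝ) < N := by
    have : (100000000 : ℝ) ≤ N := by exact_mod_cast hN
    linarith
  have hM4 : M ^ 4 = N := by
    rw [hM, ← Real.rpow_natCast, ← Real.rpow_mul hN0.le]; norm_num
  have hM0 : 0 < M := Real.rpow_pos_of_pos hN0 _
  have hM100 : 100 ≤ M := by
    have h3 : (100 : ℝ) ^ 4 ≤ M ^ 4 := by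
      rw [hM4]
      have : (100000000 : ℝ) ≤ N := by exact_mod_cast hN
      norm_num
      linarith
    exact le_of_pow_le_pow_left₀ (by norm_num) hM0.le h3
  have hlog2 := Real.log_two_gt_d9
  have hlog2' := Real.log_two_lt_d9
  have hlog4 : Real.log 4 = 2 * Real.log 2 := by
    rw [show (4 : ℝ) = 2 ^ 2 by norm_num, Real.log_pow]; norm_num
  have hlogM : Real.log M ≤ M := by
    have := Real.log_le_sub_one_of_pos hM0
    linarith
  have hlogN : Real.log N ≤ 4 * M := by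
    rw [← hM4, Real.log_pow]; push_cast; linarith
  have hlog4N : Real.log (4 * N) ≤ 2 + 4 * M := by
    rw [Real.log_mul (by norm_num) hN0.ne']; linarith
  have hlog4N1 : Real.log (4 * N + 1) ≤ 3 + 4 * M := by
    have h3 : Real.log (4 * N + 1) ≤ Real.log (8 * N) := by
      refine Real.log_le_log (by positivity) ?_
      have : (1 : ℝ) ≤ N := by
        have : (100000000 : ℝ) ≤ N := by exact_mod_cast hN
        linarith
      linarith
    have h4 : Real.log (8 * N) = 3 * Real.log 2 + Real.log N := by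
      rw [Real.log_mul (by norm_num) hN0.ne', show (8 : ℝ) = 2 ^ 3 by norm_num, Real.log_pow]
      norm_num
    linarith
  have hsq : √((4 * N : ℕ) : ℝ) = 2 * M ^ 2 := by
    rw [show ((4 * N : ℕ) : ℝ) = (2 * M ^ 2) ^ 2 by push_cast; rw [← hM4]; ring]
    exact Real.sqrt_sq (by positivity)
  rw [hsq] at h1
  push_cast at h1
  rw [hlog4] at h2
  have h5 : 2 * (2 * M ^ 2) * Real.log (4 * N) ≤ 2 * (2 * M ^ 2) * (2 + 4 * M) :=
    mul_le_mul_of_nonneg_left hlog4N (by positivity)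
  push_cast
  have h6 : (N : ℝ) * Real.log 2 ≥ 0.69 * N := by nlinarith
  have h7 : (M : ℝ) ^ 3 * 100 ≤ N := by rw [← hM4]; nlinarith [pow_pos hM0 3]
  have h8 : (M : ℝ) ^ 2 * 100 ≤ M ^ 3 := by nlinarith [pow_pos hM0 2]
  have h9 : M * 100 ≤ M ^ 2 := by nlinarith
  nlinarith

lemma card_PR_pos {N : ℕ} (hN : 1 ≤ N) : 1 ≤ (PR N).card := by
  obtain ⟨p, hp, h1, h2⟩ := Nat.exists_prime_lt_and_le_two_mul N (by omega)
  exact Finset.card_pos.2 ⟨p, mem_PR.2 ⟨⟨h1, by omega⟩, hp⟩⟩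

/-- weak Chebyshev lower bound -/
theorem card_PR_ge (ε : ℝ) (hε : 0 < ε) : ∃ c : ℝ, 0 < c ∧ ∀ N : ℕ, 1 ≤ N →
    c * (N / (N : ℝ) ^ ε) ≤ (PR N).card := by
  refine ⟨min (ε / 4 ^ ε) (1 / 100000000), lt_min (by positivity) (by norm_num), ?_⟩
  intro N hN
  have hNr : (1 : ℝ) ≤ N := by exact_mod_cast hN
  have hN0 : (0 : ℝ) < N := by linarith
  have hNe : 1 ≤ (N : ℝ) ^ ε := Real.one_le_rpow hNr hε.le
  by_cases h : 100000000 ≤ N
  · have h1 := le_card_mul_log h
    have h2 : Real.log (4 * N) ≤ (4 * N : ℝ) ^ ε / ε := Real.log_le_rpow_div (by positivity) hε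
    rw [Real.mul_rpow (by norm_num) hN0.le] at h2
    have h3 : (N : ℝ) ≤ (PR N).card * (4 ^ ε * (N : ℝ) ^ ε / ε) :=
      h1.trans (mul_le_mul_of_nonneg_left h2 (Nat.cast_nonneg _))
    calc min (ε / 4 ^ ε) (1 / 100000000) * (N / (N : ℝ) ^ ε)
        ≤ ε / 4 ^ ε * (N / (N : ℝ) ^ ε) := by
          refine mul_le_mul_of_nonneg_right (min_le_left _ _) (by positivity)
      _ ≤ ε / 4 ^ ε * ((PR N).card * (4 ^ ε * (N : ℝ) ^ ε / ε) / (N : ℝ) ^ ε) := by
          gcongr
      _ = (PR N).card := by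
          have : (0 : ℝ) < 4 ^ ε := by positivity
          have : (0 : ℝ) < (N : ℝ) ^ ε := by positivity
          field_simp
  · have h1 : (1 : ℝ) ≤ (PR N).card := by exact_mod_cast card_PR_pos hN
    have h2 : (N : ℝ) ≤ 100000000 := by
      have : N ≤ 100000000 := by omega
      exact_mod_cast this
    calc min (ε / 4 ^ ε) (1 / 100000000) * (N / (N : ℝ) ^ ε)
        ≤ 1 / 100000000 * (N / 1) := by
          refine mul_le_mul (min_le_right _ _) ?_ (by positivity) (by norm_num)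
          exact div_le_div_of_nonneg_left hN0.le one_pos hNe
      _ ≤ 1 := by linarith
      _ ≤ _ := h1

end Pool.Agent.H19.Maass
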