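import Mathlib
import Pool.Agent.H19.Maass.Level
import Pool.Agent.H19.Maass.PrimeCount

set_option autoImplicit false

namespace Pool.Agent.H19.Maass

open MeasureTheory UpperHalfPlane ModularGroup Metric
open scoped MatrixGroups Modular UpperHalfPlane ENNReal

/-- the data of a weighted family of points -/
structure Pts {ι : Type} (Y T M B : ℝ) (J : Finset ι) (m : ι → ℝ≥0∞) (z : ι → ℍ) : Prop where
  mem : ∀ s ∈ J, z s ∈ D0 Y
  M0 : 0 ≤ M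
  B0 : 0 ≤ B
  mass : ∑ s ∈ J, m s ≤ ENNReal.ofReal M
  grow : ∀ w : ℍ, ∀ ρ : ℝ, 1 / T ≤ ρ → ρ ≤ 1 →
      ∑ s ∈ J, m s * ic (dist w (z s) ≤ ρ) ≤ ENNReal.ofReal (B * ρ)

/-- the weighted count -/
noncomputable def QQ {ι : Type} (J : Finset ι) (m : ι → ℝ≥0∞) (z : ι → ℍ) (φ : ℝ → ℝ≥0∞)
    (l : ℕ) : ℝ≥0∞ :=
  ∑ r ∈ J, ∑ s ∈ J, m r * m s * ct2 φ (l : ℕ) (z r) (z s)

lemma card_RR_le {l : ℕ} : (RR l).card ≤ l.divisors.card * l := by
  unfold RR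
  rw [Finset.card_sigma]
  refine (Finset.sum_le_card_nsmul _ _ l fun d hd => ?_).trans (by rw [smul_eq_mul])
  rw [Finset.card_range]
  exact Nat.divisor_le hd

theorem SA_le (ε : ℝ) (hε : 0 < ε) (Y : ℝ) (hY0 : 0 ≤ Y) : ∃ A : ℝ, 0 < A ∧
    ∀ {ι : Type} (J : Finset ι) (m : ι → ℝ≥0∞) (z : ι → ℍ) (C T M B : ℝ) (L : ℕ), 0 ≤ C →
    1 ≤ T → (2 : ℝ) ^ L ≤ 2 * √T → Pts Y T M B J m z → ∀ X : ℕ, 1 ≤ X →
    ∑ l ∈ Finset.Icc 1 X, QQ J m z (ph C T L) l ≤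
      ENNReal.ofReal (A * C * √T * M * ((X : ℝ) ^ ε * (√(M * B) * X * (L + 1) + M * X ^ 2))) := by
  obtain ⟨A1, hA1, h1⟩ := scale_sum Y
  obtain ⟨C1, hC1, h2⟩ := energy_all ε hε
  obtain ⟨C2, hC2, hdiv⟩ := H41.Eis.divisor_bound ε hε
  set K : ℝ := C1 * (1 + Y) + C2 + 1 with hK
  have hK1 : 1 ≤ K := by rw [hK]; nlinarith
  refine ⟨7 * A1 * K, by positivity, ?_⟩
  intro ι J m z C T M B L hC hT hL hP X hX
  have hM0 := hP.M0
  have hB0 := hP.B0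
  have hX1 : (1 : ℝ) ≤ X := by exact_mod_cast hX
  have hX0 : (0 : ℝ) < X := by linarith
  set E := (X : ℝ) ^ ε with hE
  have hE1 : 1 ≤ E := Real.one_le_rpow hX1 hε.le
  have h3 := h1 J m z hP.mem C T M B L hC hT hL hP.M0 hP.B0 hP.mass hP.grow (Finset.Icc 1 X)
    (fun n hn => (Finset.mem_Icc.1 hn).1) (K * E * X) (7 * K * E * (X : ℝ) ^ 2) (by positivity)
    (by positivity) ?_ ?_
  · refine h3.trans (ENNReal.ofReal_le_ofReal ?_)
    have e1 : 0 ≤ √(M * B) * X * (L + 1) := by positivity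
    have e2 : 0 ≤ M * (X : ℝ) ^ 2 := by positivity
    calc A1 * C * √T * M * (√(M * B) * (K * E * X) * (L + 1) + M * (7 * K * E * (X : ℝ) ^ 2))
        = A1 * C * √T * M * (K * E) * (√(M * B) * X * (L + 1) + 7 * (M * (X : ℝ) ^ 2)) := by ring
      _ ≤ A1 * C * √T * M * (K * E) * (7 * (√(M * B) * X * (L + 1) + M * (X : ℝ) ^ 2)) := by
          refine mul_le_mul_of_nonneg_left ?_ (by positivity)
          linarith
      _ = _ := by ring
  · intro r hr j hj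
    obtain ⟨g1, g2, g3⟩ := hP.mem r hr
    have h16 : (256 : ℝ) ≤ 16 ^ j := by
      calc (256 : ℝ) = 16 ^ 2 := by norm_num
        _ ≤ 16 ^ j := pow_le_pow_right₀ (by norm_num) hj
    have h4 := h2 (z r) g1 g2 Y g3 (48 / 16 ^ j) (by positivity)
      (by rw [div_le_iff₀ (by positivity)]; linarith) X hX
    refine h4.trans (ENNReal.ofReal_le_ofReal ?_)
    have h44 : ((4 : ℝ) ^ j) ^ 2 = 16 ^ j := by
      rw [← pow_mul, mul_comm j 2, pow_mul]; norm_num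
    have h5 : C1 * (1 + Y) ≤ K ^ 2 := by
      have : C1 * (1 + Y) ≤ K := by rw [hK]; linarith
      nlinarith
    have h6 : E ≤ E ^ 2 := by nlinarith
    have h7 : 1 + 48 / 16 ^ j * (X : ℝ) ^ 2 ≤ (1 + 7 * X / 4 ^ j) ^ 2 := by
      have h8 : (7 * X / 4 ^ j : ℝ) ^ 2 = 49 / 16 ^ j * (X : ℝ) ^ 2 := by
        rw [div_pow, h44]; ring
      have h9 : 0 ≤ 7 * X / (4 : ℝ) ^ j := by positivity
      have h10 : 48 / 16 ^ j * (X : ℝ) ^ 2 ≤ 49 / 16 ^ j * (X : ℝ) ^ 2 := by gcongr; norm_num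
      nlinarith
    calc C1 * (1 + Y) * (E * ((X : ℝ) ^ 2 * (1 + 48 / 16 ^ j * (X : ℝ) ^ 2)))
        ≤ K ^ 2 * (E ^ 2 * ((X : ℝ) ^ 2 * (1 + 7 * X / 4 ^ j) ^ 2)) := by gcongr
      _ = _ := by
          field_simp
  · have h4 : ∀ l ∈ Finset.Icc 1 X, ((RR l).card : ℝ) ≤ C2 * E * X := by
      intro l hl
      rw [Finset.mem_Icc] at hl
      have h5 := hdiv l hl.1
      have hlX : (l : ℝ) ≤ X := by exact_mod_cast hl.2
      have h6 : (l : ℝ) ^ ε ≤ E := Real.rpow_le_rpow (Nat.cast_nonneg l) hlX hε.le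
      calc ((RR l).card : ℝ) ≤ (l.divisors.card : ℝ) * l := by exact_mod_cast card_RR_le
        _ ≤ (C2 * E) * X := by
            refine mul_le_mul (h5.trans ?_) hlX (Nat.cast_nonneg l) (by positivity)
            exact mul_le_mul_of_nonneg_left h6 (by linarith)
    refine (Finset.sum_le_card_nsmul _ _ _ h4).trans ?_
    rw [Nat.card_Icc, Nat.add_sub_cancel, nsmul_eq_mul]
    have h5 : C2 ≤ 7 * K := by rw [hK]; nlinarith
    calc (X : ℝ) * (C2 * E * X) = C2 * (E * (X : ℝ) ^ 2) := by ring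
      _ ≤ 7 * K * (E * (X : ℝ) ^ 2) := mul_le_mul_of_nonneg_right h5 (by positivity)
      _ = _ := by ring

theorem SB_le (ε : ℝ) (hε : 0 < ε) (Y : ℝ) (hY0 : 0 ≤ Y) : ∃ A : ℝ, 0 < A ∧
    ∀ {ι : Type} (J : Finset ι) (m : ι → ℝ≥0∞) (z : ι → ℍ) (C T M B : ℝ) (L : ℕ), 0 ≤ C →
    1 ≤ T → (2 : ℝ) ^ L ≤ 2 * √T → Pts Y T M B J m z → ∀ X : ℕ, 1 ≤ X →
    ∑ D ∈ Finset.Icc 1 X, QQ J m z (ph C T L) (D ^ 2) ≤
      ENNReal.ofReal (A * C * √T * M *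
        ((X : ℝ) ^ ε * (√(M * B) * (X * √X) * (L + 1) + M * X ^ 3))) := by
  classical
  obtain ⟨A1, hA1, h1⟩ := scale_sum Y
  obtain ⟨C1, hC1, h2⟩ := energy_sq ε hε
  obtain ⟨C2, hC2, hdiv⟩ := H41.Eis.divisor_bound (ε / 2) (by positivity)
  set K : ℝ := C1 * (1 + Y) + C2 + 1 with hK
  have hK1 : 1 ≤ K := by rw [hK]; nlinarith
  refine ⟨7 * A1 * K, by positivity, ?_⟩
  intro ι J m z C T M B L hC hT hL hP X hX
  have hM0 := hP.M0
  have hB0 := hP.B0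
  have hX1 : (1 : ℝ) ≤ X := by exact_mod_cast hX
  have hX0 : (0 : ℝ) < X := by linarith
  have hsX : 0 ≤ √(X : ℝ) := Real.sqrt_nonneg _
  have hsX2 : √(X : ℝ) ^ 2 = X := Real.sq_sqrt hX0.le
  set E := (X : ℝ) ^ ε with hE
  have hE1 : 1 ≤ E := Real.one_le_rpow hX1 hε.le
  have hinj : Set.InjOn (fun D : ℕ => D ^ 2) (Finset.Icc 1 X : Set ℕ) := by
    intro p _ q _ h
    exact Nat.pow_left_injective (by norm_num) h
  have h3 := h1 J m z hP.mem C T M B L hC hT hL hP.M0 hP.B0 hP.mass hP.grow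
    ((Finset.Icc 1 X).image fun D => D ^ 2)
    (fun n hn => by
      rw [Finset.mem_image] at hn
      obtain ⟨D, hD, rfl⟩ := hn
      exact pow_pos (Finset.mem_Icc.1 hD).1 2)
    (K * E * (X * √X)) (7 * K * E * (X : ℝ) ^ 3) (by positivity)
    (by positivity) ?_ ?_
  · rw [Finset.sum_image hinj] at h3
    refine h3.trans (ENNReal.ofReal_le_ofReal ?_)
    have e1 : 0 ≤ √(M * B) * (X * √X) * (L + 1) := by positivity
    have e2 : 0 ≤ M * (X : ℝ) ^ 3 := by positivity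
    calc A1 * C * √T * M * (√(M * B) * (K * E * (X * √X)) * (L + 1) + M * (7 * K * E * (X : ℝ) ^ 3))
        = A1 * C * √T * M * (K * E) * (√(M * B) * (X * √X) * (L + 1) + 7 * (M * (X : ℝ) ^ 3)) := by
          ring
      _ ≤ A1 * C * √T * M * (K * E) * (7 * (√(M * B) * (X * √X) * (L + 1) + M * (X : ℝ) ^ 3)) := by
          refine mul_le_mul_of_nonneg_left ?_ (by positivity)
          linarith
      _ = _ := by ring
  · intro r hr j hj
    obtain ⟨g1, g2, g3⟩ := hP.mem r hr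
    have h16 : (256 : ℝ) ≤ 16 ^ j := by
      calc (256 : ℝ) = 16 ^ 2 := by norm_num
        _ ≤ 16 ^ j := pow_le_pow_right₀ (by norm_num) hj
    have h4 := h2 (z r) g1 g2 Y g3 (48 / 16 ^ j) (by positivity)
      (by rw [div_le_iff₀ (by positivity)]; linarith) X hX
    refine h4.trans (ENNReal.ofReal_le_ofReal ?_)
    have h44 : ((4 : ℝ) ^ j) ^ 2 = 16 ^ j := by
      rw [← pow_mul, mul_comm j 2, pow_mul]; norm_num
    have h5 : C1 * (1 + Y) ≤ K ^ 2 := by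
      have : C1 * (1 + Y) ≤ K := by rw [hK]; linarith
      nlinarith
    have h6 : E ≤ E ^ 2 := by nlinarith
    have h7 : (X : ℝ) ^ 3 + 48 / 16 ^ j * (X : ℝ) ^ 6 ≤ (X * √X + 7 * X ^ 3 / 4 ^ j) ^ 2 := by
      have h8 : (7 * X ^ 3 / 4 ^ j : ℝ) ^ 2 = 49 / 16 ^ j * (X : ℝ) ^ 6 := by
        rw [div_pow, h44]; ring
      have h9 : 0 ≤ 7 * X ^ 3 / (4 : ℝ) ^ j := by positivity
      have h10 : 48 / 16 ^ j * (X : ℝ) ^ 6 ≤ 49 / 16 ^ j * (X : ℝ) ^ 6 := by gcongr; norm_num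
      have h11 : (X * √X : ℝ) ^ 2 = (X : ℝ) ^ 3 := by rw [mul_pow, hsX2]; ring
      have h12 : 0 ≤ X * √(X : ℝ) := by positivity
      nlinarith [mul_nonneg h9 h12]
    calc C1 * (1 + Y) * (E * ((X : ℝ) ^ 3 + 48 / 16 ^ j * (X : ℝ) ^ 6))
        ≤ K ^ 2 * (E ^ 2 * (X * √X + 7 * X ^ 3 / 4 ^ j) ^ 2) := by gcongr
      _ = (K * E * (X * √X) + 7 * K * E * (X : ℝ) ^ 3 / 4 ^ j) ^ 2 := by ring
  · rw [Finset.sum_image hinj]
    have h4 : ∀ D ∈ Finset.Icc 1 X, ((RR (D ^ 2)).card : ℝ) ≤ C2 * E * (X : ℝ) ^ 2 := by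
      intro D hD
      rw [Finset.mem_Icc] at hD
      have h5 := hdiv (D ^ 2) (Nat.one_le_pow 2 D hD.1)
      have hlX : (((D ^ 2 : ℕ)) : ℝ) ≤ (X : ℝ) ^ 2 := by
        have := Nat.pow_le_pow_left hD.2 2
        exact_mod_cast this
      have h6 : (((D ^ 2 : ℕ)) : ℝ) ^ (ε / 2) ≤ E := by
        calc (((D ^ 2 : ℕ)) : ℝ) ^ (ε / 2) ≤ ((X : ℝ) ^ 2) ^ (ε / 2) :=
              Real.rpow_le_rpow (Nat.cast_nonneg _) hlX (by positivity)
          _ = E := by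
              rw [hE, ← Real.rpow_natCast, ← Real.rpow_mul hX0.le]
              congr 1; push_cast; ring
      calc ((RR (D ^ 2)).card : ℝ) ≤ ((D ^ 2).divisors.card : ℝ) * ((D ^ 2 : ℕ) : ℝ) := by
            exact_mod_cast card_RR_le
        _ ≤ (C2 * E) * (X : ℝ) ^ 2 := by
            refine mul_le_mul (h5.trans ?_) hlX (Nat.cast_nonneg _) (by positivity)
            exact mul_le_mul_of_nonneg_left h6 (by linarith)
    refine (Finset.sum_le_card_nsmul _ _ _ h4).trans ?_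
    rw [Nat.card_Icc, Nat.add_sub_cancel, nsmul_eq_mul]
    have h5 : C2 ≤ 7 * K := by rw [hK]; nlinarith
    calc (X : ℝ) * (C2 * E * (X : ℝ) ^ 2) = C2 * (E * (X : ℝ) ^ 3) := by ring
      _ ≤ 7 * K * (E * (X : ℝ) ^ 3) := mul_le_mul_of_nonneg_right h5 (by positivity)
      _ = _ := by ring

end Pool.Agent.H19.Maass
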