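import Mathlib
import Pool.Agent.H19.Maass.Weighted

set_option autoImplicit false

namespace Pool.Agent.H19.Maass

open MeasureTheory UpperHalfPlane ModularGroup Metric
open scoped MatrixGroups Modular UpperHalfPlane ENNReal ComplexConjugate

section
variable {ι : Type} (J : Finset ι) (m : ι → ℝ) (z : ι → ℍ) (φ : ℝ → ℝ≥0∞)

/-- weighted count with real weights -/
noncomputable def QR (l : ℕ) : ℝ≥0∞ := QQ J (fun r => ENNReal.ofReal (m r)) z φ l

lemma MQ_prime (hm : ∀ r, 0 ≤ m r) {p q : ℕ} (hp : p.Prime) (hq : q.Prime) :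
    ∑ r ∈ J, ∑ s ∈ J, ENNReal.ofReal (m r * m s) * MM2 φ p q (z r) (z s) ≤
      2 * QR J m z φ (p * q) + if q = p then 2 * (p : ℝ≥0∞) * QR J m z φ 1 else 0 := by
  have h1 : ∀ r ∈ J, ∀ s ∈ J, ENNReal.ofReal (m r * m s) * MM2 φ p q (z r) (z s) ≤
      2 * (ENNReal.ofReal (m r) * ENNReal.ofReal (m s) * ct2 φ (p * q : ℕ) (z r) (z s)) +
      if q = p then 2 * (p : ℝ≥0∞) * (ENNReal.ofReal (m r) * ENNReal.ofReal (m s) *
        ct2 φ (1 : ℕ) (z r) (z s)) else 0 := by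
    intro r _ s _
    refine (mul_le_mul_right (MM2_prime φ hp hq (z r) (z s)) _).trans (le_of_eq ?_)
    rw [ENNReal.ofReal_mul (hm r)]
    split_ifs
    · ring
    · ring
  refine (Finset.sum_le_sum fun r hr => Finset.sum_le_sum fun s hs => h1 r hr s hs).trans
    (le_of_eq ?_)
  simp_rw [Finset.sum_add_distrib, ← Finset.mul_sum]
  unfold QR QQ
  congr 1
  split_ifs
  · simp_rw [← Finset.mul_sum]
  · simp

lemma MQ_sq (hm : ∀ r, 0 ≤ m r) {p q : ℕ} (hp : p.Prime) (hq : q.Prime) :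
    ∑ r ∈ J, ∑ s ∈ J, ENNReal.ofReal (m r * m s) * MM2 φ (p ^ 2) (q ^ 2) (z r) (z s) ≤
      3 * QR J m z φ ((p * q) ^ 2) + if q = p then 3 * (p : ℝ≥0∞) * QR J m z φ (p ^ 2) +
        3 * (p : ℝ≥0∞) ^ 2 * QR J m z φ 1 else 0 := by
  have h1 : ∀ r ∈ J, ∀ s ∈ J, ENNReal.ofReal (m r * m s) * MM2 φ (p ^ 2) (q ^ 2) (z r) (z s) ≤
      3 * (ENNReal.ofReal (m r) * ENNReal.ofReal (m s) * ct2 φ ((p * q) ^ 2 : ℕ) (z r) (z s)) +
      if q = p then 3 * (p : ℝ≥0∞) * (ENNReal.ofReal (m r) * ENNReal.ofReal (m s) *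
        ct2 φ (p ^ 2 : ℕ) (z r) (z s)) + 3 * (p : ℝ≥0∞) ^ 2 *
        (ENNReal.ofReal (m r) * ENNReal.ofReal (m s) * ct2 φ (1 : ℕ) (z r) (z s)) else 0 := by
    intro r _ s _
    refine (mul_le_mul_right (MM2_sq φ hp hq (z r) (z s)) _).trans (le_of_eq ?_)
    rw [ENNReal.ofReal_mul (hm r)]
    split_ifs
    · ring
    · ring
  refine (Finset.sum_le_sum fun r hr => Finset.sum_le_sum fun s hs => h1 r hr s hs).trans
    (le_of_eq ?_)
  simp_rw [Finset.sum_add_distrib, ← Finset.mul_sum]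
  unfold QR QQ
  congr 1
  split_ifs
  · simp_rw [Finset.sum_add_distrib, ← Finset.mul_sum]
  · simp

/-- linear amplifier -/
lemma p_type (hm : ∀ r, 0 ≤ m r) {N : ℕ} (hN : 1 ≤ N) (F : Finset ℕ) (hF : F ⊆ PR N) (a : ℕ → ℂ)
    (ha : ∀ p ∈ F, ‖a p‖ ^ 2 ≤ 1 / p) :
    ∑ p ∈ F, ∑ q ∈ F, ENNReal.ofReal (‖a p‖ * ‖a q‖) *
      ∑ r ∈ J, ∑ s ∈ J, ENNReal.ofReal (m r * m s) * MM2 φ p q (z r) (z s) ≤
    ENNReal.ofReal (4 / N) * ∑ l ∈ Finset.Icc 1 (16 * N ^ 2), QR J m z φ l +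
      ENNReal.ofReal (6 * N) * QR J m z φ 1 := by
  have hN0 : (0 : ℝ) < N := by exact_mod_cast hN
  have h1 : ∀ p ∈ F, ∀ q ∈ F, ENNReal.ofReal (‖a p‖ * ‖a q‖) *
      ∑ r ∈ J, ∑ s ∈ J, ENNReal.ofReal (m r * m s) * MM2 φ p q (z r) (z s) ≤
      ENNReal.ofReal (1 / N) * (2 * QR J m z φ (p * q)) +
        if q = p then 2 * QR J m z φ 1 else 0 := by
    intro p hp q hq
    obtain ⟨⟨hp1, hp2⟩, hpp⟩ := mem_PR.1 (hF hp)
    obtain ⟨⟨hq1, hq2⟩, hqq⟩ := mem_PR.1 (hF hq)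
    have hp0 : (0 : ℝ) < p := by exact_mod_cast hpp.pos
    have hpN : (N : ℝ) ≤ p := by exact_mod_cast hp1.le
    have hqN : (N : ℝ) ≤ q := by exact_mod_cast hq1.le
    refine (mul_le_mul_right (MQ_prime J m z φ hm hpp hqq) _).trans ?_
    rw [mul_add]
    refine add_le_add ?_ ?_
    · refine mul_le_mul_left (ENNReal.ofReal_le_ofReal ?_) _
      have e1 := ha p hp
      have e2 := ha q hq
      have e3 : 1 / (p : ℝ) ≤ 1 / N := one_div_le_one_div_of_le hN0 hpN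
      have e4 : 1 / (q : ℝ) ≤ 1 / N := one_div_le_one_div_of_le hN0 hqN
      nlinarith [sq_nonneg (‖a p‖ - ‖a q‖)]
    · by_cases h : q = p
      · rw [if_pos h, if_pos h]
        subst h
        rw [← mul_assoc]
        refine mul_le_mul_left ?_ _
        have e1 := ha q hq
        calc ENNReal.ofReal (‖a q‖ * ‖a q‖) * (2 * (q : ℝ≥0∞))
            ≤ ENNReal.ofReal (1 / q) * (2 * ENNReal.ofReal q) := by
              rw [ENNReal.ofReal_natCast]
              refine mul_le_mul_left (ENNReal.ofReal_le_ofReal ?_) _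
              rw [← sq]; exact e1
          _ = 2 * ENNReal.ofReal (1 / q * q) := by
              rw [ENNReal.ofReal_mul (by positivity)]; ring
          _ = 2 := by
              rw [one_div_mul_cancel hp0.ne', ENNReal.ofReal_one, mul_one]
      · rw [if_neg h, if_neg h, mul_zero]
  refine (Finset.sum_le_sum fun p hp => Finset.sum_le_sum fun q hq => h1 p hp q hq).trans ?_
  simp_rw [Finset.sum_add_distrib]
  refine add_le_add ?_ ?_
  · simp_rw [← Finset.mul_sum]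
    have h2 : ∑ p ∈ F, ∑ q ∈ F, QR J m z φ (p * q) ≤
        2 * ∑ D ∈ Finset.Icc 1 (16 * N ^ 2), QR J m z φ D := by
      refine le_trans ?_ (sum_prod_le N (fun D => QR J m z φ D))
      refine (Finset.sum_le_sum_of_subset hF).trans ?_
      exact Finset.sum_le_sum fun p _ => Finset.sum_le_sum_of_subset hF
    calc ENNReal.ofReal (1 / N) * (2 * ∑ p ∈ F, ∑ q ∈ F, QR J m z φ (p * q))
        ≤ ENNReal.ofReal (1 / N) * (2 * (2 * ∑ D ∈ Finset.Icc 1 (16 * N ^ 2), QR J m z φ D)) := by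
          gcongr
      _ = (ENNReal.ofReal (1 / N) * ENNReal.ofReal 4) *
          ∑ D ∈ Finset.Icc 1 (16 * N ^ 2), QR J m z φ D := by
          rw [show ENNReal.ofReal 4 = 4 by norm_num]; ring
      _ = _ := by
          rw [← ENNReal.ofReal_mul (by positivity)]
          congr 2; ring
  · have h2 : ∀ p ∈ F, ∑ q ∈ F, (if q = p then 2 * QR J m z φ 1 else 0) = 2 * QR J m z φ 1 := by
      intro p hp
      rw [Finset.sum_ite_eq', if_pos hp]
    rw [Finset.sum_congr rfl h2, Finset.sum_const, nsmul_eq_mul, ← mul_assoc]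
    refine mul_le_mul_left ?_ _
    rw [← ENNReal.ofReal_natCast, show (2 : ℝ≥0∞) = ENNReal.ofReal 2 by norm_num,
      ← ENNReal.ofReal_mul (by positivity)]
    refine ENNReal.ofReal_le_ofReal ?_
    have : (F.card : ℝ) ≤ 3 * N := by
      exact_mod_cast (Finset.card_le_card hF).trans (card_PR_le N)
    linarith

/-- quadratic amplifier -/
lemma sq_type (hm : ∀ r, 0 ≤ m r) {N : ℕ} (hN : 1 ≤ N) (F : Finset ℕ) (hF : F ⊆ PR N) (a : ℕ → ℂ)
    (ha : ∀ p ∈ F, ‖a (p ^ 2)‖ ≤ 1 / p) :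
    ∑ p ∈ F, ∑ q ∈ F, ENNReal.ofReal (‖a (p ^ 2)‖ * ‖a (q ^ 2)‖) *
      ∑ r ∈ J, ∑ s ∈ J, ENNReal.ofReal (m r * m s) * MM2 φ (p ^ 2) (q ^ 2) (z r) (z s) ≤
    ENNReal.ofReal (6 / N ^ 2) * ∑ D ∈ Finset.Icc 1 (16 * N ^ 2), QR J m z φ (D ^ 2) +
      (ENNReal.ofReal (3 / N) * ∑ D ∈ Finset.Icc 1 (4 * N), QR J m z φ (D ^ 2) +
      ENNReal.ofReal (9 * N) * QR J m z φ 1) := by
  have hN0 : (0 : ℝ) < N := by exact_mod_cast hN
  have h1 : ∀ p ∈ F, ∀ q ∈ F, ENNReal.ofReal (‖a (p ^ 2)‖ * ‖a (q ^ 2)‖) *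
      ∑ r ∈ J, ∑ s ∈ J, ENNReal.ofReal (m r * m s) * MM2 φ (p ^ 2) (q ^ 2) (z r) (z s) ≤
      ENNReal.ofReal (1 / N ^ 2) * (3 * QR J m z φ ((p * q) ^ 2)) +
        if q = p then ENNReal.ofReal (3 / N) * QR J m z φ (p ^ 2) + 3 * QR J m z φ 1 else 0 := by
    intro p hp q hq
    obtain ⟨⟨hp1, hp2⟩, hpp⟩ := mem_PR.1 (hF hp)
    obtain ⟨⟨hq1, hq2⟩, hqq⟩ := mem_PR.1 (hF hq)
    have hp0 : (0 : ℝ) < p := by exact_mod_cast hpp.pos
    have hq0 : (0 : ℝ) < q := by exact_mod_cast hqq.pos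
    have hpN : (N : ℝ) ≤ p := by exact_mod_cast hp1.le
    have hqN : (N : ℝ) ≤ q := by exact_mod_cast hq1.le
    have e1 := ha p hp
    have e2 := ha q hq
    have hprod : ‖a (p ^ 2)‖ * ‖a (q ^ 2)‖ ≤ 1 / p * (1 / q) :=
      mul_le_mul e1 e2 (norm_nonneg _) (by positivity)
    refine (mul_le_mul_right (MQ_sq J m z φ hm hpp hqq) _).trans ?_
    rw [mul_add]
    refine add_le_add ?_ ?_
    · refine mul_le_mul_left (ENNReal.ofReal_le_ofReal (hprod.trans ?_)) _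
      rw [one_div_mul_one_div, sq]
      exact one_div_le_one_div_of_le (by positivity) (mul_le_mul hpN hqN hN0.le hp0.le)
    · by_cases h : q = p
      · rw [if_pos h, if_pos h]
        subst h
        refine (mul_le_mul_left (ENNReal.ofReal_le_ofReal hprod) _).trans ?_
        rw [mul_add, ← mul_assoc (ENNReal.ofReal _) (3 * (q : ℝ≥0∞)),
          ← mul_assoc (ENNReal.ofReal _) (3 * (q : ℝ≥0∞) ^ 2)]
        refine add_le_add (mul_le_mul_left ?_ _) (mul_le_mul_left ?_ _)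
        · rw [show (3 : ℝ≥0∞) = ENNReal.ofReal 3 by norm_num, ← ENNReal.ofReal_natCast,
            ← ENNReal.ofReal_mul (by norm_num), ← ENNReal.ofReal_mul (by positivity)]
          refine ENNReal.ofReal_le_ofReal ?_
          calc 1 / (q : ℝ) * (1 / q) * (3 * q) = 3 * (1 / q) := by field_simp
            _ ≤ 3 * (1 / N) := by
                refine mul_le_mul_of_nonneg_left ?_ (by norm_num)
                exact one_div_le_one_div_of_le hN0 hqN
            _ = 3 / N := by ring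
        · rw [show (3 : ℝ≥0∞) = ENNReal.ofReal 3 by norm_num, ← ENNReal.ofReal_natCast,
            ← ENNReal.ofReal_pow hq0.le, ← ENNReal.ofReal_mul (by norm_num),
            ← ENNReal.ofReal_mul (by positivity)]
          refine ENNReal.ofReal_le_ofReal (le_of_eq ?_)
          field_simp
      · rw [if_neg h, if_neg h, mul_zero]
  refine (Finset.sum_le_sum fun p hp => Finset.sum_le_sum fun q hq => h1 p hp q hq).trans ?_
  simp_rw [Finset.sum_add_distrib]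
  refine add_le_add ?_ ?_
  · simp_rw [← Finset.mul_sum]
    have h2 : ∑ p ∈ F, ∑ q ∈ F, QR J m z φ ((p * q) ^ 2) ≤
        2 * ∑ D ∈ Finset.Icc 1 (16 * N ^ 2), QR J m z φ (D ^ 2) := by
      refine le_trans ?_ (sum_prod_le N (fun D => QR J m z φ (D ^ 2)))
      refine (Finset.sum_le_sum_of_subset hF).trans ?_
      exact Finset.sum_le_sum fun p _ => Finset.sum_le_sum_of_subset hF
    calc ENNReal.ofReal (1 / N ^ 2) * (3 * ∑ p ∈ F, ∑ q ∈ F, QR J m z φ ((p * q) ^ 2))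
        ≤ ENNReal.ofReal (1 / N ^ 2) *
          (3 * (2 * ∑ D ∈ Finset.Icc 1 (16 * N ^ 2), QR J m z φ (D ^ 2))) := by
          gcongr
      _ = (ENNReal.ofReal (1 / N ^ 2) * ENNReal.ofReal 6) *
          ∑ D ∈ Finset.Icc 1 (16 * N ^ 2), QR J m z φ (D ^ 2) := by
          rw [show ENNReal.ofReal 6 = 3 * 2 by norm_num]; ring
      _ = _ := by
          rw [← ENNReal.ofReal_mul (by positivity)]
          congr 2; ring
  · have h2 : ∀ p ∈ F, ∑ q ∈ F, (if q = p then ENNReal.ofReal (3 / N) * QR J m z φ (p ^ 2) +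
        3 * QR J m z φ 1 else 0) = ENNReal.ofReal (3 / N) * QR J m z φ (p ^ 2) +
        3 * QR J m z φ 1 := by
      intro p hp
      rw [Finset.sum_ite_eq', if_pos hp]
    rw [Finset.sum_congr rfl h2, Finset.sum_add_distrib]
    refine add_le_add ?_ ?_
    · rw [← Finset.mul_sum]
      refine mul_le_mul_right ?_ _
      refine Finset.sum_le_sum_of_subset ?_
      intro q hq
      obtain ⟨⟨hq1, hq2⟩, hqq⟩ := mem_PR.1 (hF hq)
      rw [Finset.mem_Icc]
      omega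
    · rw [Finset.sum_const, nsmul_eq_mul, ← mul_assoc]
      refine mul_le_mul_left ?_ _
      rw [← ENNReal.ofReal_natCast, show (3 : ℝ≥0∞) = ENNReal.ofReal 3 by norm_num,
        ← ENNReal.ofReal_mul (by positivity)]
      refine ENNReal.ofReal_le_ofReal ?_
      have : (F.card : ℝ) ≤ 3 * N := by
        exact_mod_cast (Finset.card_le_card hF).trans (card_PR_le N)
      linarith

end

end Pool.Agent.H19.Maass
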