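import Mathlib
import Pool.Agent.H19.Maass.Types
import Pool.Agent.H19.Maass.Window

set_option autoImplicit false

namespace Pool.Agent.H19.Maass

open MeasureTheory UpperHalfPlane ModularGroup Metric
open scoped MatrixGroups Modular UpperHalfPlane ENNReal ComplexConjugate

lemma L_bound (ε : ℝ) (hε : 0 < ε) : ∃ A : ℝ, 1 ≤ A ∧ ∀ T : ℝ, 1 ≤ T → ∀ L : ℕ,
    (2 : ℝ) ^ L ≤ 2 * √T → (L : ℝ) + 1 ≤ A * T ^ ε := by
  have hl2 : 0 < Real.log 2 := Real.log_pos (by norm_num)
  set A0 : ℝ := max 1 (1 / (ε * Real.log 2)) with hA0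
  have hA1 : 1 ≤ A0 := le_max_left _ _
  have hA2 : 1 ≤ A0 * (ε * Real.log 2) := by
    have h1 : 1 / (ε * Real.log 2) ≤ A0 := le_max_right _ _
    rwa [div_le_iff₀ (by positivity)] at h1
  have h2e : 1 ≤ (2 : ℝ) ^ ε := Real.one_le_rpow (by norm_num) hε.le
  refine ⟨A0 * 2 ^ ε, by nlinarith, ?_⟩
  intro T hT L hL
  have hT0 : 0 < T := by linarith
  have hsT : √T ≤ T := by
    rw [Real.sqrt_le_left (by linarith)]
    nlinarith
  have h2 : ((2 : ℝ) ^ L) ^ ε = Real.exp (L * (ε * Real.log 2)) := by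
    rw [Real.rpow_def_of_pos (by positivity), Real.log_pow]
    congr 1; ring
  have h3 : (L : ℝ) * (ε * Real.log 2) + 1 ≤ Real.exp (L * (ε * Real.log 2)) :=
    Real.add_one_le_exp _
  have h4 : ((2 : ℝ) ^ L) ^ ε ≤ 2 ^ ε * T ^ ε := by
    rw [← Real.mul_rpow (by norm_num) hT0.le]
    exact Real.rpow_le_rpow (by positivity) (hL.trans (by linarith)) hε.le
  have hL0 : (0 : ℝ) ≤ L := Nat.cast_nonneg L
  rw [← h2] at h3
  calc (L : ℝ) + 1 ≤ A0 * (L * (ε * Real.log 2) + 1) := by nlinarith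
    _ ≤ A0 * (2 ^ ε * T ^ ε) := mul_le_mul_of_nonneg_left (h3.trans h4) (by linarith)
    _ = _ := by ring

/-- the amplified bound for a weighted family of points -/
theorem level_ineq (ε : ℝ) (hε : 0 < ε) (Y : ℝ) (hY0 : 0 ≤ Y) : ∃ A : ℝ, 0 < A ∧
    ∀ {ι : Type} (J : Finset ι) (m : ι → ℝ) (z : ι → ℍ) (T t M B : ℝ) (U : ℂ → ℂ) (c : ℕ → ℂ),
    1 ≤ T → |t - T| ≤ 1 / 10 → Frm t U c → (∀ p : ℕ, p.Prime → c p ^ 2 = c (p ^ 2) + p) →
    (∀ r, 0 ≤ m r) → Pts Y T M B J (fun r => ENNReal.ofReal (m r)) z → ∀ N : ℕ, 1 ≤ N →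
    ((PR N).card : ℝ) ^ 2 * (∑ r ∈ J, m r * ‖U (z r)‖) ^ 2 ≤
      A * √T * M * (((N : ℝ) ^ ε) ^ 2 * (√(M * B) * N * T ^ ε + M * N ^ 4)) := by
  classical
  obtain ⟨C, hC, hker⟩ := window_kernel
  obtain ⟨A1, hA1, hSA⟩ := SA_le ε hε Y hY0
  obtain ⟨A2, hA2, hSB⟩ := SB_le ε hε Y hY0
  obtain ⟨A3, hA3, hL3⟩ := L_bound ε hε
  refine ⟨16 * 13 * (25000 * (A1 + A2) * C * 16 ^ ε) * A3, by positivity, ?_⟩
  intro ι J m z T t M B U c hT ht hF hrel hm hP N hN
  obtain ⟨L, k, _, hL, hk, hsel, hφ⟩ := hker T hT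
  have hLT := hL3 T hT L hL
  have hM0 := hP.M0
  have hB0 := hP.B0
  have hN1 : (1 : ℝ) ≤ N := by exact_mod_cast hN
  have hN0 : (0 : ℝ) < N := by linarith
  have hsT : 0 ≤ √T := Real.sqrt_nonneg T
  set φ := ph C T L with hφd
  set S := ∑ r ∈ J, m r * ‖U (z r)‖ with hS
  have hS0 : 0 ≤ S := Finset.sum_nonneg fun r _ => mul_nonneg (hm r) (norm_nonneg _)
  set E := (N : ℝ) ^ ε with hE
  have hE1 : 1 ≤ E := Real.one_le_rpow hN1 hε.le
  have h16e : 1 ≤ (16 : ℝ) ^ ε := Real.one_le_rpow (by norm_num) hε.le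
  have h4e : 1 ≤ (4 : ℝ) ^ ε := Real.one_le_rpow (by norm_num) hε.le
  have h416 : (4 : ℝ) ^ ε ≤ 16 ^ ε := Real.rpow_le_rpow (by norm_num) (by norm_num) hε.le
  set W := √(M * B) * N * (L + 1) + M * (N : ℝ) ^ 4 with hW
  have hW0 : 0 ≤ W := by positivity
  have hsMB : 0 ≤ √(M * B) := Real.sqrt_nonneg _
  have hL1 : (0 : ℝ) ≤ (L : ℝ) + 1 := by positivity
  have hx1 : 0 ≤ √(M * B) * N * (L + 1) := by positivity
  have hx2 : 0 ≤ M * (N : ℝ) ^ 4 := by positivity
  -- common conclusion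
  have hmain : ∃ Am : ℝ, ((PR N).card : ℝ) / 4 ≤ Am ∧ Am ^ 2 * S ^ 2 ≤
      13 * (25000 * (A1 + A2) * C * 16 ^ ε * (√T * M * (E ^ 2 * W))) := by
    have hone : QR J m z φ 1 ≤ ENNReal.ofReal (A1 * C * √T * M * (√(M * B) * (L + 1) + M)) := by
      have h1 := hSA J (fun r => ENNReal.ofReal (m r)) z C T M B L hC.le hT hL hP 1 le_rfl
      simp only [Finset.Icc_self, Finset.sum_singleton, Nat.cast_one, one_pow, mul_one,
        Real.one_rpow, one_mul] at h1
      exact h1
    set F1 := (PR N).filter (fun p : ℕ => (p : ℝ) / 2 ≤ ‖c p‖ ^ 2) with hF1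
    set F2 := (PR N).filter (fun p : ℕ => (p : ℝ) / 2 ≤ ‖c (p ^ 2)‖) with hF2
    have hcov : PR N ⊆ F1 ∪ F2 := by
      intro p hp
      rw [Finset.mem_union, hF1, hF2, Finset.mem_filter, Finset.mem_filter]
      by_contra hcon
      push Not at hcon
      have h1 := hcon.1 hp
      have h2 := hcon.2 hp
      have h3 := hrel p (mem_PR.1 hp).2
      have h4 : (p : ℝ) ≤ ‖c p‖ ^ 2 + ‖c (p ^ 2)‖ := by
        have h5 : (p : ℂ) = c p ^ 2 - c (p ^ 2) := by rw [h3]; ring
        have h6 : (p : ℝ) = ‖(p : ℂ)‖ := (Complex.norm_natCast p).symm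
        rw [h6, h5, ← norm_pow]
        exact norm_sub_le _ _
      linarith
    have hcard : (PR N).card ≤ F1.card + F2.card :=
      (Finset.card_le_card hcov).trans (Finset.card_union_le _ _)
    have hcardr : ((PR N).card : ℝ) ≤ F1.card + F2.card := by exact_mod_cast hcard
    rcases le_total F2.card F1.card with h | h
    · -- linear amplifier
      have hr : (F2.card : ℝ) ≤ F1.card := by exact_mod_cast h
      set a : ℕ → ℂ := fun p => conj (c p) / (‖c p‖ * √(p : ℝ) : ℝ) with ha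
      have hac : ∀ p ∈ F1, a p * c p = ((‖c p‖ / √(p : ℝ) : ℝ) : ℂ) ∧ 1 / 2 ≤ ‖c p‖ / √(p : ℝ) ∧
          ‖a p‖ ^ 2 ≤ 1 / p := by
        intro p hp
        rw [hF1, Finset.mem_filter] at hp
        have hp0 : (0 : ℝ) < p := by exact_mod_cast (mem_PR.1 hp.1).2.pos
        have hsp : 0 < √(p : ℝ) := Real.sqrt_pos.2 hp0
        have hcp : 0 < ‖c p‖ := by
          rcases (norm_nonneg (c p)).eq_or_lt with h0 | h0
          · have := hp.2
            rw [← h0] at this
            norm_num at this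
            linarith
          · exact h0
        have hsq : √(p : ℝ) ^ 2 = p := Real.sq_sqrt hp0.le
        refine ⟨?_, ?_, ?_⟩
        · rw [ha]; simp only
          rw [div_mul_eq_mul_div, mul_comm (conj (c p)), Complex.mul_conj,
            Complex.normSq_eq_norm_sq, ← Complex.ofReal_div]
          congr 1
          field_simp
        · rw [le_div_iff₀ hsp]
          refine abs_le_of_sq_le_sq' ?_ hcp.le |>.2
          have := hp.2
          nlinarith
        · rw [ha]; simp only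
          rw [norm_div, RCLike.norm_conj, Complex.norm_real, Real.norm_of_nonneg (by positivity)]
          have : ‖c p‖ / (‖c p‖ * √(p : ℝ)) = 1 / √(p : ℝ) := by field_simp
          rw [this, div_pow, hsq, one_pow]
      have hamp := amplified2 hk φ hφ hF (hsel t ht) F1
        (fun n hn => by
          rw [hF1, Finset.mem_filter] at hn
          exact (mem_PR.1 hn.1).2.one_lt.le) a J m hm z
      have hsum : ∑ n ∈ F1, a n * c n = ((∑ n ∈ F1, ‖c n‖ / √(n : ℝ) : ℝ) : ℂ) := by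
        push_cast
        refine Finset.sum_congr rfl fun p hp => ?_
        rw [(hac p hp).1]
        push_cast; rfl
      have hlow : (F1.card : ℝ) * (1 / 2) ≤ ∑ n ∈ F1, ‖c n‖ / √(n : ℝ) := by
        have := Finset.card_nsmul_le_sum F1 (fun n => ‖c n‖ / √(n : ℝ)) (1 / 2)
          (fun n hn => (hac n hn).2.1)
        rwa [nsmul_eq_mul] at this
      refine ⟨∑ n ∈ F1, ‖c n‖ / √(n : ℝ), by linarith, ?_⟩
      rw [hsum, Complex.norm_real, Real.norm_eq_abs, sq_abs] at hamp
      have hp := p_type J m z φ hm hN F1 (Finset.filter_subset _ _) a (fun p hp => (hac p hp).2.2)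
      have hA := hSA J (fun r => ENNReal.ofReal (m r)) z C T M B L hC.le hT hL hP (16 * N ^ 2)
        (by nlinarith)
      have hbig : ENNReal.ofReal (4 / N) * ∑ l ∈ Finset.Icc 1 (16 * N ^ 2), QR J m z φ l +
          ENNReal.ofReal (6 * N) * QR J m z φ 1 ≤
          ENNReal.ofReal (25000 * (A1 + A2) * C * 16 ^ ε * (√T * M * (E ^ 2 * W))) := by
        refine (add_le_add (mul_le_mul_right hA _) (mul_le_mul_right hone _)).trans ?_
        rw [← ENNReal.ofReal_mul (by positivity), ← ENNReal.ofReal_mul (by positivity),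
          ← ENNReal.ofReal_add (by positivity) (by positivity)]
        refine ENNReal.ofReal_le_ofReal ?_
        have hpow : (((16 * N ^ 2 : ℕ)) : ℝ) ^ ε = 16 ^ ε * E ^ 2 := by
          push_cast
          rw [Real.mul_rpow (by norm_num) (by positivity), hE, ← Real.rpow_natCast (N : ℝ) 2,
            ← Real.rpow_mul hN0.le, ← Real.rpow_natCast ((N : ℝ) ^ ε) 2, ← Real.rpow_mul hN0.le]
          congr 2; ring
        rw [hpow]
        push_cast
        have hN34 : (N : ℝ) ^ 3 ≤ (N : ℝ) ^ 4 := pow_le_pow_right₀ hN1 (by norm_num)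
        have hN14 : (N : ℝ) ≤ (N : ℝ) ^ 4 := by
          calc (N : ℝ) = (N : ℝ) ^ 1 := (pow_one _).symm
            _ ≤ _ := pow_le_pow_right₀ hN1 (by norm_num)
        have g1 : 4 / (N : ℝ) * (A1 * C * √T * M * (16 ^ ε * E ^ 2 *
            (√(M * B) * (16 * N ^ 2) * (L + 1) + M * (16 * (N : ℝ) ^ 2) ^ 2))) ≤
            1024 * (A1 * C * 16 ^ ε * (√T * M * (E ^ 2 * W))) := by
          have g2 : 4 / (N : ℝ) * (√(M * B) * (16 * N ^ 2) * (L + 1) +
              M * (16 * (N : ℝ) ^ 2) ^ 2) ≤ 1024 * W := by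
            have g3 : 4 / (N : ℝ) * (√(M * B) * (16 * N ^ 2) * (L + 1) +
              M * (16 * (N : ℝ) ^ 2) ^ 2) = 64 * (√(M * B) * N * (L + 1)) +
              1024 * (M * (N : ℝ) ^ 3) := by field_simp; ring
            rw [g3, hW]
            have g4 : M * (N : ℝ) ^ 3 ≤ M * (N : ℝ) ^ 4 := mul_le_mul_of_nonneg_left hN34 hM0
            linarith
          calc 4 / (N : ℝ) * (A1 * C * √T * M * (16 ^ ε * E ^ 2 *
            (√(M * B) * (16 * N ^ 2) * (L + 1) + M * (16 * (N : ℝ) ^ 2) ^ 2)))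
              = A1 * C * √T * M * (16 ^ ε * E ^ 2) * (4 / (N : ℝ) *
            (√(M * B) * (16 * N ^ 2) * (L + 1) + M * (16 * (N : ℝ) ^ 2) ^ 2)) := by ring
            _ ≤ A1 * C * √T * M * (16 ^ ε * E ^ 2) * (1024 * W) := by gcongr
            _ = _ := by ring
        have g5 : 6 * (N : ℝ) * (A1 * C * √T * M * (√(M * B) * (L + 1) + M)) ≤
            6 * (A1 * C * 16 ^ ε * (√T * M * (E ^ 2 * W))) := by
          have g6 : (N : ℝ) * (√(M * B) * (L + 1) + M) ≤ W := by
            rw [hW]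
            have g4 : M * (N : ℝ) ≤ M * (N : ℝ) ^ 4 := mul_le_mul_of_nonneg_left hN14 hM0
            linarith
          have g7 : W ≤ 16 ^ ε * (E ^ 2 * W) := by
            have : 1 ≤ E ^ 2 := one_le_pow₀ hE1
            have g8 : W ≤ E ^ 2 * W := le_mul_of_one_le_left hW0 this
            exact g8.trans (le_mul_of_one_le_left (by positivity) h16e)
          calc 6 * (N : ℝ) * (A1 * C * √T * M * (√(M * B) * (L + 1) + M))
              = 6 * (A1 * C * √T * M) * (N * (√(M * B) * (L + 1) + M)) := by ring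
            _ ≤ 6 * (A1 * C * √T * M) * (16 ^ ε * (E ^ 2 * W)) :=
                mul_le_mul_of_nonneg_left (g6.trans g7) (by positivity)
            _ = _ := by ring
        have g9 : 0 ≤ C * 16 ^ ε * (√T * M * (E ^ 2 * W)) := by positivity
        nlinarith [mul_nonneg hA1.le g9, mul_nonneg hA2.le g9]
      have hfin := hamp.trans (mul_le_mul_right (hp.trans hbig) 13)
      rw [show (13 : ℝ≥0∞) = ENNReal.ofReal 13 by norm_num, ← ENNReal.ofReal_mul (by norm_num)]
        at hfin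
      exact (ENNReal.ofReal_le_ofReal_iff (by positivity)).1 hfin
    · -- quadratic amplifier
      have hr : (F1.card : ℝ) ≤ F2.card := by exact_mod_cast h
      have hinj : Set.InjOn (fun p : ℕ => p ^ 2) (F2 : Set ℕ) := by
        intro p _ q _ h
        exact Nat.pow_left_injective (by norm_num) h
      set 𝒩 := F2.image fun p => p ^ 2 with h𝒩
      set a : ℕ → ℂ := fun n => conj (c n) / (‖c n‖ * (Nat.sqrt n : ℝ) : ℝ) with ha
      have hac : ∀ p ∈ F2, a (p ^ 2) * c (p ^ 2) = ((‖c (p ^ 2)‖ / p : ℝ) : ℂ) ∧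
          1 / 2 ≤ ‖c (p ^ 2)‖ / p ∧ ‖a (p ^ 2)‖ ≤ 1 / p := by
        intro p hp
        rw [hF2, Finset.mem_filter] at hp
        have hp0 : (0 : ℝ) < p := by exact_mod_cast (mem_PR.1 hp.1).2.pos
        have hcp : 0 < ‖c (p ^ 2)‖ := lt_of_lt_of_le (by positivity) hp.2
        have hsq : Nat.sqrt (p ^ 2) = p := by rw [sq, Nat.sqrt_eq]
        refine ⟨?_, ?_, ?_⟩
        · rw [ha]; simp only
          rw [hsq, div_mul_eq_mul_div, mul_comm (conj (c (p ^ 2))), Complex.mul_conj,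
            Complex.normSq_eq_norm_sq, ← Complex.ofReal_div]
          congr 1
          field_simp
        · rw [le_div_iff₀ hp0]
          have := hp.2
          linarith
        · rw [ha]; simp only
          rw [hsq, norm_div, RCLike.norm_conj, Complex.norm_real,
            Real.norm_of_nonneg (by positivity)]
          refine le_of_eq ?_
          field_simp
      have hamp := amplified2 hk φ hφ hF (hsel t ht) 𝒩
        (fun n hn => by
          rw [h𝒩, Finset.mem_image] at hn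
          obtain ⟨p, hp, rfl⟩ := hn
          rw [hF2, Finset.mem_filter] at hp
          exact Nat.one_le_pow _ _ (mem_PR.1 hp.1).2.pos) a J m hm z
      have hsum : ∑ n ∈ 𝒩, a n * c n = ((∑ p ∈ F2, ‖c (p ^ 2)‖ / p : ℝ) : ℂ) := by
        rw [h𝒩, Finset.sum_image hinj]
        push_cast
        refine Finset.sum_congr rfl fun p hp => ?_
        rw [(hac p hp).1]
        push_cast; rfl
      have hlow : (F2.card : ℝ) * (1 / 2) ≤ ∑ p ∈ F2, ‖c (p ^ 2)‖ / p := by
        have := Finset.card_nsmul_le_sum F2 (fun p => ‖c (p ^ 2)‖ / (p : ℝ)) (1 / 2)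
          (fun n hn => (hac n hn).2.1)
        rwa [nsmul_eq_mul] at this
      refine ⟨∑ p ∈ F2, ‖c (p ^ 2)‖ / p, by linarith, ?_⟩
      rw [hsum, Complex.norm_real, Real.norm_eq_abs, sq_abs] at hamp
      rw [h𝒩, Finset.sum_image hinj] at hamp
      have hamp2 : ∀ p ∈ F2, ∑ n' ∈ F2.image (fun p => p ^ 2),
          ENNReal.ofReal (‖a (p ^ 2)‖ * ‖a n'‖) *
          ∑ r ∈ J, ∑ s ∈ J, ENNReal.ofReal (m r * m s) * MM2 φ (p ^ 2) n' (z r) (z s) =
          ∑ q ∈ F2, ENNReal.ofReal (‖a (p ^ 2)‖ * ‖a (q ^ 2)‖) *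
          ∑ r ∈ J, ∑ s ∈ J, ENNReal.ofReal (m r * m s) * MM2 φ (p ^ 2) (q ^ 2) (z r) (z s) :=
        fun p _ => Finset.sum_image hinj
      rw [Finset.sum_congr rfl hamp2] at hamp
      have hp := sq_type J m z φ hm hN F2 (Finset.filter_subset _ _) a (fun p hp => (hac p hp).2.2)
      have hB1 := hSB J (fun r => ENNReal.ofReal (m r)) z C T M B L hC.le hT hL hP (16 * N ^ 2)
        (by nlinarith)
      have hB2 := hSB J (fun r => ENNReal.ofReal (m r)) z C T M B L hC.le hT hL hP (4 * N)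
        (by omega)
      have hbig : ENNReal.ofReal (6 / N ^ 2) *
            ∑ D ∈ Finset.Icc 1 (16 * N ^ 2), QR J m z φ (D ^ 2) +
          (ENNReal.ofReal (3 / N) * ∑ D ∈ Finset.Icc 1 (4 * N), QR J m z φ (D ^ 2) +
          ENNReal.ofReal (9 * N) * QR J m z φ 1) ≤
          ENNReal.ofReal (25000 * (A1 + A2) * C * 16 ^ ε * (√T * M * (E ^ 2 * W))) := by
        refine (add_le_add (mul_le_mul_right hB1 _) (add_le_add (mul_le_mul_right hB2 _)
          (mul_le_mul_right hone _))).trans ?_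
        rw [← ENNReal.ofReal_mul (by positivity), ← ENNReal.ofReal_mul (by positivity),
          ← ENNReal.ofReal_mul (by positivity), ← ENNReal.ofReal_add (by positivity)
          (by positivity), ← ENNReal.ofReal_add (by positivity) (by positivity)]
        refine ENNReal.ofReal_le_ofReal ?_
        have hpow : (((16 * N ^ 2 : ℕ)) : ℝ) ^ ε = 16 ^ ε * E ^ 2 := by
          push_cast
          rw [Real.mul_rpow (by norm_num) (by positivity), hE, ← Real.rpow_natCast (N : ℝ) 2,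
            ← Real.rpow_mul hN0.le, ← Real.rpow_natCast ((N : ℝ) ^ ε) 2, ← Real.rpow_mul hN0.le]
          congr 2; ring
        have hpow2 : (((4 * N : ℕ)) : ℝ) ^ ε = 4 ^ ε * E := by
          push_cast
          rw [Real.mul_rpow (by norm_num) (by positivity), hE]
        have hsq1 : √(((16 * N ^ 2 : ℕ)) : ℝ) = 4 * N := by
          rw [Real.sqrt_eq_iff_mul_self_eq (by positivity) (by positivity)]
          push_cast; ring
        have hsq2 : √(((4 * N : ℕ)) : ℝ) ≤ 2 * N := by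
          rw [Real.sqrt_le_left (by positivity)]
          push_cast; nlinarith
        rw [hpow, hpow2, hsq1]
        push_cast
        push_cast at hsq2
        have hN14 : (N : ℝ) ≤ (N : ℝ) ^ 4 := by
          calc (N : ℝ) = (N : ℝ) ^ 1 := (pow_one _).symm
            _ ≤ _ := pow_le_pow_right₀ hN1 (by norm_num)
        have hN24 : (N : ℝ) ^ 2 ≤ (N : ℝ) ^ 4 := pow_le_pow_right₀ hN1 (by norm_num)
        have g1 : 6 / (N : ℝ) ^ 2 * (A2 * C * √T * M * (16 ^ ε * E ^ 2 *
            (√(M * B) * (16 * N ^ 2 * (4 * N)) * (L + 1) + M * (16 * (N : ℝ) ^ 2) ^ 3))) ≤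
            24576 * (A2 * C * 16 ^ ε * (√T * M * (E ^ 2 * W))) := by
          have g2 : 6 / (N : ℝ) ^ 2 * (√(M * B) * (16 * N ^ 2 * (4 * N)) * (L + 1) +
              M * (16 * (N : ℝ) ^ 2) ^ 3) ≤ 24576 * W := by
            have g3 : 6 / (N : ℝ) ^ 2 * (√(M * B) * (16 * N ^ 2 * (4 * N)) * (L + 1) +
              M * (16 * (N : ℝ) ^ 2) ^ 3) = 384 * (√(M * B) * N * (L + 1)) +
              24576 * (M * (N : ℝ) ^ 4) := by field_simp; ring
            rw [g3, hW]
            linarith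
          calc 6 / (N : ℝ) ^ 2 * (A2 * C * √T * M * (16 ^ ε * E ^ 2 *
            (√(M * B) * (16 * N ^ 2 * (4 * N)) * (L + 1) + M * (16 * (N : ℝ) ^ 2) ^ 3)))
              = A2 * C * √T * M * (16 ^ ε * E ^ 2) * (6 / (N : ℝ) ^ 2 *
            (√(M * B) * (16 * N ^ 2 * (4 * N)) * (L + 1) + M * (16 * (N : ℝ) ^ 2) ^ 3)) := by ring
            _ ≤ A2 * C * √T * M * (16 ^ ε * E ^ 2) * (24576 * W) := by gcongr
            _ = _ := by ring
        have g10 : 3 / (N : ℝ) * (A2 * C * √T * M * (4 ^ ε * E *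
            (√(M * B) * (4 * N * √(4 * (N : ℝ))) * (L + 1) + M * (4 * (N : ℝ)) ^ 3))) ≤
            192 * (A2 * C * 16 ^ ε * (√T * M * (E ^ 2 * W))) := by
          have g2 : 3 / (N : ℝ) * (√(M * B) * (4 * N * √(4 * (N : ℝ))) * (L + 1) +
              M * (4 * (N : ℝ)) ^ 3) ≤ 192 * W := by
            have g3 : 3 / (N : ℝ) * (√(M * B) * (4 * N * √(4 * (N : ℝ))) * (L + 1) +
              M * (4 * (N : ℝ)) ^ 3) = 12 * (√(M * B) * √(4 * (N : ℝ)) * (L + 1)) +
              192 * (M * (N : ℝ) ^ 2) := by field_simp; ring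
            rw [g3, hW]
            have g4 : M * (N : ℝ) ^ 2 ≤ M * (N : ℝ) ^ 4 := mul_le_mul_of_nonneg_left hN24 hM0
            have g5 : √(M * B) * √(4 * (N : ℝ)) * (L + 1) ≤ √(M * B) * (2 * N) * (L + 1) := by
              gcongr
            nlinarith
          have g6 : (4 : ℝ) ^ ε * E ≤ 16 ^ ε * E ^ 2 := by
            have : E ≤ E ^ 2 := by nlinarith
            exact mul_le_mul h416 this (by linarith) (by positivity)
          calc 3 / (N : ℝ) * (A2 * C * √T * M * (4 ^ ε * E *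
            (√(M * B) * (4 * N * √(4 * (N : ℝ))) * (L + 1) + M * (4 * (N : ℝ)) ^ 3)))
              = A2 * C * √T * M * (4 ^ ε * E) * (3 / (N : ℝ) *
            (√(M * B) * (4 * N * √(4 * (N : ℝ))) * (L + 1) + M * (4 * (N : ℝ)) ^ 3)) := by ring
            _ ≤ A2 * C * √T * M * (16 ^ ε * E ^ 2) * (192 * W) := by gcongr
            _ = _ := by ring
        have g5 : 9 * (N : ℝ) * (A1 * C * √T * M * (√(M * B) * (L + 1) + M)) ≤
            9 * (A1 * C * 16 ^ ε * (√T * M * (E ^ 2 * W))) := by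
          have g6 : (N : ℝ) * (√(M * B) * (L + 1) + M) ≤ W := by
            rw [hW]
            have g4 : M * (N : ℝ) ≤ M * (N : ℝ) ^ 4 := mul_le_mul_of_nonneg_left hN14 hM0
            linarith
          have g7 : W ≤ 16 ^ ε * (E ^ 2 * W) := by
            have : 1 ≤ E ^ 2 := one_le_pow₀ hE1
            have g8 : W ≤ E ^ 2 * W := le_mul_of_one_le_left hW0 this
            exact g8.trans (le_mul_of_one_le_left (by positivity) h16e)
          calc 9 * (N : ℝ) * (A1 * C * √T * M * (√(M * B) * (L + 1) + M))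
              = 9 * (A1 * C * √T * M) * (N * (√(M * B) * (L + 1) + M)) := by ring
            _ ≤ 9 * (A1 * C * √T * M) * (16 ^ ε * (E ^ 2 * W)) :=
                mul_le_mul_of_nonneg_left (g6.trans g7) (by positivity)
            _ = _ := by ring
        have g9 : 0 ≤ C * 16 ^ ε * (√T * M * (E ^ 2 * W)) := by positivity
        nlinarith [mul_nonneg hA1.le g9, mul_nonneg hA2.le g9]
      have hfin := hamp.trans (mul_le_mul_right (hp.trans hbig) 13)
      rw [show (13 : ℝ≥0∞) = ENNReal.ofReal 13 by norm_num, ← ENNReal.ofReal_mul (by norm_num)]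
        at hfin
      exact (ENNReal.ofReal_le_ofReal_iff (by positivity)).1 hfin
  obtain ⟨Am, hAm1, hAm2⟩ := hmain
  have hcard0 : (0 : ℝ) ≤ (PR N).card := Nat.cast_nonneg _
  have h1 : ((PR N).card : ℝ) ^ 2 ≤ 16 * Am ^ 2 := by nlinarith
  have hW2 : W ≤ A3 * (√(M * B) * N * T ^ ε + M * (N : ℝ) ^ 4) := by
    rw [hW, mul_add A3]
    refine add_le_add ?_ (le_mul_of_one_le_left hx2 hA3)
    calc √(M * B) * N * (L + 1) ≤ √(M * B) * N * (A3 * T ^ ε) :=
          mul_le_mul_of_nonneg_left hLT (by positivity)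
      _ = _ := by ring
  calc ((PR N).card : ℝ) ^ 2 * S ^ 2 ≤ 16 * Am ^ 2 * S ^ 2 :=
        mul_le_mul_of_nonneg_right h1 (by positivity)
    _ = 16 * (Am ^ 2 * S ^ 2) := by ring
    _ ≤ 16 * (13 * (25000 * (A1 + A2) * C * 16 ^ ε * (√T * M * (E ^ 2 * W)))) := by gcongr
    _ ≤ 16 * (13 * (25000 * (A1 + A2) * C * 16 ^ ε * (√T * M * (E ^ 2 *
        (A3 * (√(M * B) * N * T ^ ε + M * (N : ℝ) ^ 4)))))) := by gcongr
    _ = _ := by ring

end Pool.Agent.H19.Maass
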