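import Mathlib
import Pool.Agent.H19.Maass.LevelIneq
import Pool.Agent.H19.Maass.Forms

set_option autoImplicit false

namespace Pool.Agent.H19.Maass

open MeasureTheory UpperHalfPlane ModularGroup Metric
open scoped MatrixGroups Modular UpperHalfPlane ENNReal ComplexConjugate

/-- the total mass is controlled by the growth constant -/
lemma exists_mass (Y : ℝ) : ∃ n : ℕ, 1 ≤ n ∧ ∀ {ι : Type} (J : Finset ι) (m : ι → ℝ≥0∞)
    (z : ι → ℍ) (T M B : ℝ), 1 ≤ T → Pts Y T M B J m z →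
    ∑ r ∈ J, m r ≤ ENNReal.ofReal (n * B) := by
  have hc := isCompact_D0 Y
  obtain ⟨t, ht1, ht2⟩ := hc.elim_nhds_subcover (fun w => closedBall w 1)
    (fun w _ => closedBall_mem_nhds w one_pos)
  refine ⟨t.card + 1, by omega, ?_⟩
  intro ι J m z T M B hT hP
  have h1 : ∀ r ∈ J, m r ≤ ∑ w ∈ t, m r * ic (dist w (z r) ≤ 1) := by
    intro r hr
    have h2 := ht2 (hP.mem r hr)
    simp only [Set.mem_iUnion] at h2
    obtain ⟨w, hw, h3⟩ := h2
    rw [mem_closedBall, dist_comm] at h3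
    refine le_trans ?_ (Finset.single_le_sum (f := fun w => m r * ic (dist w (z r) ≤ 1))
      (fun _ _ => zero_le) hw)
    rw [ic_true h3, mul_one]
  refine (Finset.sum_le_sum h1).trans ?_
  rw [Finset.sum_comm]
  have h4 : ∀ w ∈ t, ∑ r ∈ J, m r * ic (dist w (z r) ≤ 1) ≤ ENNReal.ofReal B := by
    intro w _
    have := hP.grow w 1 (by rw [div_le_iff₀ (by linarith)]; linarith) le_rfl
    rwa [mul_one] at this
  refine (Finset.sum_le_card_nsmul _ _ _ h4).trans ?_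
  rw [nsmul_eq_mul, ← ENNReal.ofReal_natCast, ← ENNReal.ofReal_mul (by positivity)]
  refine ENNReal.ofReal_le_ofReal ?_
  push_cast
  have := hP.B0
  nlinarith

lemma pointwise_bound : ∃ C : ℝ, 0 < C ∧ ∀ T : ℝ, 1 ≤ T → ∀ (t : ℝ) (U : ℂ → ℂ) (c : ℕ → ℂ),
    |t - T| ≤ 1 / 10 → Frm t U c → ∀ z : ℍ, |z.re| ≤ 1 / 2 → 1 / 2 ≤ z.im →
    ‖U z‖ ^ 2 ≤ C * (1 + z.im) * T := by
  obtain ⟨C, hC, h⟩ := weyl_bound
  refine ⟨C, hC, fun T hT t U c ht hF z hx hy => ?_⟩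
  have := h T hT Unit (fun _ => t) (fun _ => U) (fun _ => c) (fun _ => ht) (fun _ => hF)
    (fun i j hij => absurd (Subsingleton.elim i j) hij) z hx hy
  simpa using this

/-- **Level set bound.** -/
theorem level_bound (ε : ℝ) (hε : 0 < ε) (Y : ℝ) (hY0 : 0 ≤ Y) : ∃ A : ℝ, 0 < A ∧
    ∀ {ι : Type} (J : Finset ι) (m : ι → ℝ) (z : ι → ℍ) (T t B V : ℝ) (U : ℂ → ℂ) (c : ℕ → ℂ),
    1 ≤ T → |t - T| ≤ 1 / 10 → Frm t U c → (∀ p : ℕ, p.Prime → c p ^ 2 = c (p ^ 2) + p) →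
    (∀ r, 0 ≤ m r) → Pts Y T (∑ r ∈ J, m r) B J (fun r => ENNReal.ofReal (m r)) z → 0 ≤ V →
    (∀ r ∈ J, V ≤ ‖U (z r)‖) → V ^ 6 * ∑ r ∈ J, m r ≤ A * B * T ^ (3 / 2 + ε) := by
  obtain ⟨A, hA, hlev⟩ := level_ineq (ε / 27) (by positivity) Y hY0
  obtain ⟨n, hn, hmass⟩ := exists_mass Y
  obtain ⟨C1, hC1, hpt⟩ := pointwise_bound
  obtain ⟨c0, hc0, hPR⟩ := card_PR_ge (ε / 27) (by positivity)
  have hnr : (1 : ℝ) ≤ n := by exact_mod_cast hn
  set A5 : ℝ := A / c0 ^ 2 * 2 ^ (4 * (ε / 27)) * (3 + 2 * n) with hA5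
  have hA50 : 0 < A5 := by positivity
  refine ⟨A5 ^ 3 + (C1 * (1 + Y)) ^ 3, by positivity, ?_⟩
  intro ι J m z T t B V U c hT ht hF hrel hm hP hV hVU
  set M := ∑ r ∈ J, m r with hM
  have hT0 : 0 < T := by linarith
  have hM0 : 0 ≤ M := hP.M0
  have hB0 : 0 ≤ B := hP.B0
  have hTp : 1 ≤ T ^ (3 / 2 + ε) := Real.one_le_rpow hT (by positivity)
  have hnB : M ≤ n * B := by
    have h1 := hmass J _ z T M B hT hP
    rw [← ENNReal.ofReal_sum_of_nonneg (fun r _ => hm r)] at h1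
    exact (ENNReal.ofReal_le_ofReal_iff (by positivity)).1 h1
  rcases hM0.eq_or_lt with hM1 | hM1
  · rw [← hM1, mul_zero]; positivity
  have hBpos : 0 < B := by
    by_contra hcon
    rw [not_lt] at hcon
    have : (n : ℝ) * B ≤ 0 := mul_nonpos_of_nonneg_of_nonpos (by positivity) hcon
    linarith
  have hJ : J.Nonempty := by
    by_contra hcon
    rw [Finset.not_nonempty_iff_eq_empty] at hcon
    rw [hM, hcon, Finset.sum_empty] at hM1
    exact lt_irrefl _ hM1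
  have hK0 : 0 ≤ A5 ^ 3 := by positivity
  have hK1 : 0 ≤ (C1 * (1 + Y)) ^ 3 := by positivity
  rcases le_or_gt (B / M) (T ^ 12) with hcase | hcase
  · -- main case
    set x : ℝ := (B / M) ^ (1 / 6 : ℝ) with hx
    have hBM : 0 < B / M := by positivity
    have hx0 : 0 < x := Real.rpow_pos_of_pos hBM _
    have hx6 : x ^ 6 = B / M := by
      rw [hx, ← Real.rpow_natCast, ← Real.rpow_mul hBM.le]
      norm_num
    have hxn : 1 / (n : ℝ) ≤ x ^ 2 := by
      by_contra hcon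
      rw [not_le] at hcon
      have h1 : (x ^ 2) ^ 3 < (1 / (n : ℝ)) ^ 3 := pow_lt_pow_left₀ hcon (by positivity) (by norm_num)
      have h2 : (1 / (n : ℝ)) ^ 3 ≤ 1 / n := by
        have h3 : 1 / (n : ℝ) ≤ 1 := by rw [div_le_one (by positivity)]; exact hnr
        calc (1 / (n : ℝ)) ^ 3 ≤ (1 / (n : ℝ)) ^ 1 :=
              pow_le_pow_of_le_one (by positivity) h3 (by norm_num)
          _ = _ := pow_one _
      have h4 : 1 / (n : ℝ) ≤ B / M := by
        rw [div_le_div_iff₀ (by positivity) hM1]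
        linarith
      rw [← pow_mul] at h1
      norm_num at h1
      rw [hx6] at h1
      have h5 := h1.trans_le (by simpa using h2)
      rw [one_div] at h4
      linarith
    have hxT : x ≤ T ^ 2 := by
      refine le_of_pow_le_pow_left₀ (n := 6) (by norm_num) (by positivity) ?_
      rw [hx6, ← pow_mul]
      exact hcase
    set N : ℕ := ⌈x⌉₊ with hN
    have hN1 : 1 ≤ N := Nat.one_le_ceil_iff.2 hx0
    have hN1r : (1 : ℝ) ≤ N := by exact_mod_cast hN1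
    have hN0 : (0 : ℝ) < N := by linarith
    have hNx : x ≤ N := Nat.le_ceil x
    have hNx1 : (N : ℝ) ≤ x + 1 := (Nat.ceil_lt_add_one hx0.le).le
    have h1 := hlev J m z T t M B U c hT ht hF hrel hm hP N hN1
    have hS : V * M ≤ ∑ r ∈ J, m r * ‖U (z r)‖ := by
      rw [hM, Finset.mul_sum]
      refine Finset.sum_le_sum fun r hr => ?_
      rw [mul_comm]
      exact mul_le_mul_of_nonneg_left (hVU r hr) (hm r)
    set e := (N : ℝ) ^ (ε / 27) with he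
    have he1 : 1 ≤ e := Real.one_le_rpow hN1r (by positivity)
    have he0 : 0 < e := by linarith
    have hPR1 := hPR N hN1
    rw [← he] at hPR1
    set Te := T ^ (ε / 27) with hTe
    have hTe1 : 1 ≤ Te := Real.one_le_rpow hT (by positivity)
    have hsMB : √(M * B) = M * x ^ 3 := by
      rw [Real.sqrt_eq_iff_mul_self_eq (by positivity) (by positivity)]
      have h2 : M * x ^ 6 = B := by rw [hx6]; field_simp
      calc M * B = M * (M * x ^ 6) := by rw [h2]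
        _ = M * x ^ 3 * (M * x ^ 3) := by ring
    rw [hsMB] at h1
    have h2 : (c0 * (N / e)) ^ 2 * (V * M) ^ 2 ≤
        A * √T * M * (e ^ 2 * (M * x ^ 3 * N * Te + M * (N : ℝ) ^ 4)) := by
      refine le_trans ?_ h1
      have h3 : 0 ≤ c0 * (N / e) := by positivity
      have h4 : 0 ≤ V * M := by positivity
      gcongr
    have hsT : 0 ≤ √T := Real.sqrt_nonneg T
    have h3 : V ^ 2 ≤ A / c0 ^ 2 * √T * e ^ 4 * (x ^ 3 * Te / N + (N : ℝ) ^ 2) := by
      have h4 : (c0 ^ 2 * N ^ 2 * M ^ 2 / e ^ 2) * V ^ 2 ≤ (c0 ^ 2 * N ^ 2 * M ^ 2 / e ^ 2) *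
          (A / c0 ^ 2 * √T * e ^ 4 * (x ^ 3 * Te / N + (N : ℝ) ^ 2)) := by
        calc (c0 ^ 2 * N ^ 2 * M ^ 2 / e ^ 2) * V ^ 2 = (c0 * (N / e)) ^ 2 * (V * M) ^ 2 := by
              field_simp
          _ ≤ _ := h2
          _ = _ := by field_simp
      exact le_of_mul_le_mul_left h4 (by positivity)
    have h4 : x ^ 3 * Te / N + (N : ℝ) ^ 2 ≤ (3 + 2 * n) * (Te * x ^ 2) := by
      have h5 : x ^ 3 * Te / N ≤ Te * x ^ 2 := by
        rw [div_le_iff₀ hN0]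
        calc x ^ 3 * Te = Te * x ^ 2 * x := by ring
          _ ≤ Te * x ^ 2 * N := mul_le_mul_of_nonneg_left hNx (by positivity)
      have h6 : (N : ℝ) ^ 2 ≤ 2 * x ^ 2 + 2 := by
        have : (N : ℝ) ^ 2 ≤ (x + 1) ^ 2 := pow_le_pow_left₀ hN0.le hNx1 2
        nlinarith [sq_nonneg (x - 1)]
      have h7 : 1 ≤ n * x ^ 2 := by
        rw [div_le_iff₀ (by positivity)] at hxn
        linarith
      have h8 : x ^ 2 ≤ Te * x ^ 2 := le_mul_of_one_le_left (by positivity) hTe1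
      have h9 : (n : ℝ) * x ^ 2 ≤ n * (Te * x ^ 2) := mul_le_mul_of_nonneg_left h8 (by positivity)
      nlinarith
    have he4 : e ^ 4 ≤ 2 ^ (4 * (ε / 27)) * Te ^ 8 := by
      have hT2 : T ≤ T ^ 2 := by nlinarith
      have h5 : (N : ℝ) ≤ 2 * T ^ 2 := by
        have : (1 : ℝ) ≤ T ^ 2 := one_le_pow₀ hT
        linarith
      have h6 : e ≤ (2 * T ^ 2) ^ (ε / 27) := Real.rpow_le_rpow hN0.le h5 (by positivity)
      calc e ^ 4 ≤ ((2 * T ^ 2) ^ (ε / 27)) ^ 4 := pow_le_pow_left₀ he0.le h6 4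
        _ = 2 ^ (4 * (ε / 27)) * Te ^ 8 := by
            rw [Real.mul_rpow (by norm_num) (by positivity), mul_pow, hTe,
              ← Real.rpow_natCast T 2, ← Real.rpow_mul hT0.le, ← Real.rpow_natCast _ 4,
              ← Real.rpow_mul (by norm_num), ← Real.rpow_natCast _ 4, ← Real.rpow_mul hT0.le,
              ← Real.rpow_natCast _ 8, ← Real.rpow_mul hT0.le]
            congr 2
            · push_cast; ring
            · push_cast; ring
    have h5 : V ^ 2 ≤ A5 * (√T * Te ^ 9 * x ^ 2) := by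
      calc V ^ 2 ≤ A / c0 ^ 2 * √T * e ^ 4 * (x ^ 3 * Te / N + (N : ℝ) ^ 2) := h3
        _ ≤ A / c0 ^ 2 * √T * (2 ^ (4 * (ε / 27)) * Te ^ 8) * ((3 + 2 * n) * (Te * x ^ 2)) := by
            gcongr
        _ = _ := by rw [hA5]; ring
    have h6 : V ^ 6 ≤ A5 ^ 3 * (T ^ (3 / 2 + ε) * x ^ 6) := by
      have h7 := pow_le_pow_left₀ (sq_nonneg V) h5 3
      have h8 : (√T) ^ 3 = T ^ (3 / 2 : ℝ) := by
        rw [Real.sqrt_eq_rpow, ← Real.rpow_natCast, ← Real.rpow_mul hT0.le]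
        congr 1; norm_num
      have h9 : (Te ^ 9) ^ 3 = T ^ ε := by
        rw [hTe, ← pow_mul, ← Real.rpow_natCast, ← Real.rpow_mul hT0.le]
        congr 1; push_cast; ring
      calc V ^ 6 = (V ^ 2) ^ 3 := by ring
        _ ≤ (A5 * (√T * Te ^ 9 * x ^ 2)) ^ 3 := h7
        _ = A5 ^ 3 * ((√T) ^ 3 * (Te ^ 9) ^ 3 * x ^ 6) := by ring
        _ = _ := by rw [h8, h9, ← Real.rpow_add hT0]
    rw [hx6] at h6
    calc V ^ 6 * M ≤ A5 ^ 3 * (T ^ (3 / 2 + ε) * (B / M)) * M :=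
          mul_le_mul_of_nonneg_right h6 hM0
      _ = A5 ^ 3 * B * T ^ (3 / 2 + ε) := by field_simp
      _ ≤ (A5 ^ 3 + (C1 * (1 + Y)) ^ 3) * B * T ^ (3 / 2 + ε) := by
          gcongr
          linarith
  · -- tiny mass
    obtain ⟨r, hr⟩ := hJ
    obtain ⟨g1, g2, g3⟩ := hP.mem r hr
    have h1 := hpt T hT t U c ht hF (z r) g1 g2
    have h2 : V ^ 2 ≤ C1 * (1 + Y) * T := by
      calc V ^ 2 ≤ ‖U (z r)‖ ^ 2 := pow_le_pow_left₀ hV (hVU r hr) 2
        _ ≤ C1 * (1 + (z r).im) * T := h1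
        _ ≤ _ := by gcongr
    have h3 : V ^ 6 ≤ (C1 * (1 + Y)) ^ 3 * T ^ 3 := by
      calc V ^ 6 = (V ^ 2) ^ 3 := by ring
        _ ≤ (C1 * (1 + Y) * T) ^ 3 := pow_le_pow_left₀ (sq_nonneg V) h2 3
        _ = _ := by ring
    have h4 : T ^ 3 * M ≤ B := by
      rw [lt_div_iff₀ hM1] at hcase
      have h5 : T ^ 3 ≤ T ^ 12 := pow_le_pow_right₀ hT (by norm_num)
      calc T ^ 3 * M ≤ T ^ 12 * M := mul_le_mul_of_nonneg_right h5 hM0
        _ ≤ B := hcase.le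
    calc V ^ 6 * M ≤ (C1 * (1 + Y)) ^ 3 * T ^ 3 * M := mul_le_mul_of_nonneg_right h3 hM0
      _ = (C1 * (1 + Y)) ^ 3 * (T ^ 3 * M) := by ring
      _ ≤ (C1 * (1 + Y)) ^ 3 * B := mul_le_mul_of_nonneg_left h4 hK1
      _ ≤ (C1 * (1 + Y)) ^ 3 * B * T ^ (3 / 2 + ε) := le_mul_of_one_le_right (by positivity) hTp
      _ ≤ _ := by
          gcongr
          linarith

end Pool.Agent.H19.Maass
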