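import Mathlib
import Pool.Agent.H19.Maass.LevelBound
import Pool.Agent.H19.Maass.Hyp
import Pool.Agent.H19.Maass.Defs

set_option autoImplicit false

namespace Pool.Agent.H19.Maass

open MeasureTheory UpperHalfPlane ModularGroup Metric
open scoped MatrixGroups Modular UpperHalfPlane ENNReal ComplexConjugate

/-- moving a point into the fundamental domain -/
lemma exists_move' (z : ℍ) : ∃ g : SL(2, ℤ), |(g • z).re| ≤ 1 / 2 ∧ 1 / 2 ≤ (g • z).im ∧
    (g • z).im ≤ z.im + 1 / z.im := by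
  obtain ⟨g, hg⟩ := exists_smul_mem_fd z
  have hy0 := z.im_pos
  refine ⟨g, hg.2, ?_, ?_⟩
  · have h1 := three_le_four_mul_im_sq_of_mem_fd hg
    have h2 := (g • z).im_pos
    nlinarith
  · have h1 : (g • z).im = z.im / Complex.normSq (denom g z) := by
      exact ModularGroup.im_smul_eq_div_normSq g z
    have h2 : denom g z = (g 1 0 : ℂ) * z + g 1 1 := by
      rw [ModularGroup.denom_apply]
    have h3 : Complex.normSq (denom g z) = ((g 1 0 : ℝ) * z.re + g 1 1) ^ 2 + ((g 1 0 : ℝ) * z.im) ^ 2 := by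
      rw [h2, Complex.normSq_apply]
      simp
      ring
    have hpos : 0 < Complex.normSq (denom g z) := by
      by_contra hcon
      rw [not_lt] at hcon
      have h4 := (g • z).im_pos
      rw [h1] at h4
      have := div_nonpos_of_nonneg_of_nonpos hy0.le hcon
      linarith
    by_cases hc : g 1 0 = 0
    · have hd : (g 1 1 : ℝ) ^ 2 = 1 := by
        have h5 := Matrix.det_fin_two (g : Matrix (Fin 2) (Fin 2) ℤ)
        rw [g.2, hc, mul_zero, sub_zero] at h5
        have h6 : IsUnit (g 1 1) := IsUnit.of_mul_eq_one (g 0 0) (by rw [mul_comm]; exact h5.symm)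
        rcases Int.isUnit_iff.1 h6 with h7 | h7 <;> rw [h7] <;> norm_num
      rw [h1, h3, hc]
      have : ((((0 : ℤ) : ℝ)) * z.re + (g 1 1 : ℝ)) ^ 2 + (((0 : ℤ) : ℝ) * z.im) ^ 2 = 1 := by
        push_cast
        rw [zero_mul, zero_mul, zero_add, hd]
        norm_num
      rw [this, div_one]
      have : 0 < 1 / z.im := by positivity
      linarith
    · have hc2 : (1 : ℝ) ≤ (g 1 0 : ℝ) ^ 2 := by
        have : 1 ≤ (g 1 0) ^ 2 := by
          have := sq_nonneg (g 1 0)
          have h7 : (g 1 0) ^ 2 ≠ 0 := pow_ne_zero 2 hc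
          omega
        exact_mod_cast this
      have h8 : z.im ^ 2 ≤ Complex.normSq (denom g z) := by
        rw [h3]
        nlinarith [sq_nonneg ((g 1 0 : ℝ) * z.re + g 1 1), sq_nonneg z.im]
      rw [h1]
      have h9 : z.im / Complex.normSq (denom g z) ≤ 1 / z.im := by
        rw [div_le_div_iff₀ hpos hy0]
        nlinarith
      linarith

/-- cell of a point -/
noncomputable def cell (T : ℝ) (z : ℂ) : ℤ × ℤ := (⌊T * z.re⌋, ⌊T * z.im⌋)

lemma measurable_cell (T : ℝ) : Measurable (cell T) :=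
  (Int.measurable_floor.comp (Complex.measurable_re.const_mul T)).prodMk
    (Int.measurable_floor.comp (Complex.measurable_im.const_mul T))

lemma floor_close {T x y : ℝ} (hT : 0 < T) (h : ⌊T * x⌋ = ⌊T * y⌋) : |x - y| ≤ 1 / T := by
  have h1 := Int.floor_le (T * x)
  have h2 := Int.lt_floor_add_one (T * x)
  have h3 := Int.floor_le (T * y)
  have h4 := Int.lt_floor_add_one (T * y)
  rw [h] at h1 h2
  have h5 : |T * (x - y)| ≤ 1 := by rw [abs_le]; constructor <;> nlinarith
  rw [abs_mul, abs_of_pos hT] at h5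
  rw [le_div_iff₀ hT]
  linarith

lemma cell_close {T : ℝ} (hT : 0 < T) {z w : ℂ} (h : cell T z = cell T w) : dist z w ≤ 2 / T := by
  unfold cell at h
  rw [Prod.mk.injEq] at h
  have h1 := floor_close hT h.1
  have h2 := floor_close hT h.2
  rw [dist_eq_norm]
  refine (Complex.norm_le_abs_re_add_abs_im _).trans ?_
  rw [Complex.sub_re, Complex.sub_im]
  calc |z.re - w.re| + |z.im - w.im| ≤ 1 / T + 1 / T := add_le_add h1 h2
    _ = 2 / T := by ring

lemma finite_cells {T : ℝ} (hT : 0 < T) {E K : Set ℂ} (hK : IsCompact K) (hE : E ⊆ K) :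
    (cell T '' E).Finite := by
  obtain ⟨R, hR⟩ := hK.isBounded.exists_norm_le
  refine ((Set.finite_Icc (-⌈T * R⌉ - 1) (⌈T * R⌉)).prod
    (Set.finite_Icc (-⌈T * R⌉ - 1) (⌈T * R⌉))).subset ?_
  rintro _ ⟨z, hz, rfl⟩
  have h1 := hR z (hE hz)
  have h2 : ∀ x : ℝ, |x| ≤ R → ⌊T * x⌋ ∈ Set.Icc (-⌈T * R⌉ - 1) (⌈T * R⌉) := by
    intro x hx
    rw [abs_le] at hx
    have h3 : T * x ≤ T * R := mul_le_mul_of_nonneg_left hx.2 hT.le
    have h4 : -(T * R) ≤ T * x := by nlinarith [mul_le_mul_of_nonneg_left hx.1 hT.le]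
    have h5 := Int.le_ceil (T * R)
    constructor
    · rw [Int.le_floor]
      push_cast
      linarith
    · have : (⌊T * x⌋ : ℝ) ≤ ⌈T * R⌉ := (Int.floor_le _).trans (h3.trans h5)
      exact_mod_cast this
  exact ⟨h2 _ ((Complex.abs_re_le_norm z).trans h1), h2 _ ((Complex.abs_im_le_norm z).trans h1)⟩

/-- hyperbolic versus Euclidean distance -/
lemma euclid_le {z w : ℍ} {d Y : ℝ} (h : dist z w ≤ d) (hd : d ≤ 2) (hz : z.im ≤ Y)
    (hw : w.im ≤ Y) : dist (z : ℂ) (w : ℂ) ≤ 3 / 2 * d * Y := by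
  have h0 : 0 ≤ dist z w := dist_nonneg
  have hY : 0 < Y := lt_of_lt_of_le z.im_pos hz
  have h1 := UpperHalfPlane.cosh_dist z w
  have h2 := Real.cosh_two_mul (dist z w / 2)
  have h3 := Real.cosh_sq (dist z w / 2)
  rw [show 2 * (dist z w / 2) = dist z w by ring] at h2
  have hzi := z.im_pos
  have hwi := w.im_pos
  have h4 : dist (z : ℂ) (w : ℂ) ^ 2 = (2 * Real.cosh (dist z w) - 2) * (z.im * w.im) := by
    rw [h1]; field_simp; ring
  have h5 : Real.sinh (dist z w / 2) ≤ 3 / 2 * (d / 2) := by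
    have h6 : Real.sinh (dist z w / 2) ≤ Real.sinh (d / 2) := Real.sinh_le_sinh.2 (by linarith)
    rcases (h0.trans h).eq_or_lt with h7 | h7
    · rw [← h7] at h6 ⊢
      simpa using h6
    · exact h6.trans (sinh_bd (by linarith) (by linarith)).2
  have h6 : 0 ≤ Real.sinh (dist z w / 2) := by
    rw [Real.sinh_nonneg_iff]; positivity
  have h7 : 2 * Real.cosh (dist z w) - 2 ≤ 4 * (3 / 2 * (d / 2)) ^ 2 := by
    have := pow_le_pow_left₀ h6 h5 2
    nlinarith
  refine abs_le_of_sq_le_sq' ?_ (by positivity [h0.trans h]) |>.2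
  rw [h4]
  have h8 : z.im * w.im ≤ Y * Y := mul_le_mul hz hw hwi.le hY.le
  calc (2 * Real.cosh (dist z w) - 2) * (z.im * w.im)
      ≤ (4 * (3 / 2 * (d / 2)) ^ 2) * (Y * Y) := by
        refine mul_le_mul h7 h8 (by positivity) (by positivity)
    _ = (3 / 2 * d * Y) ^ 2 := by ring

lemma interp {a M D θ : ℝ} (ha : 0 ≤ a) (h1 : a ≤ M) (h2 : a ≤ D) (hθ : 1 ≤ θ) :
    a ≤ M ^ (1 - 1 / θ) * D ^ (1 / θ) := by
  rcases ha.eq_or_lt with h0 | h0
  · rw [← h0] at h1 h2 ⊢
    exact mul_nonneg (Real.rpow_nonneg h1 _) (Real.rpow_nonneg h2 _)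
  · have hθ0 : 0 < θ := by linarith
    have h3 : 1 / θ ≤ 1 := by rw [div_le_one hθ0]; exact hθ
    calc a = a ^ (1 - 1 / θ) * a ^ (1 / θ) := by
          rw [← Real.rpow_add h0]
          norm_num
      _ ≤ _ := by
          refine mul_le_mul (Real.rpow_le_rpow ha h1 (by linarith))
            (Real.rpow_le_rpow ha h2 (by positivity)) (Real.rpow_nonneg ha _)
            (Real.rpow_nonneg (ha.trans h1) _)

end Pool.Agent.H19.Maass
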