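import Mathlib
import Pool.Agent.H19.Maass.Cells

set_option autoImplicit false

namespace Pool.Agent.H19.Maass

open MeasureTheory UpperHalfPlane ModularGroup Metric
open scoped MatrixGroups Modular UpperHalfPlane ENNReal ComplexConjugate

lemma im_bound (K : Set ℂ) (hK : IsCompact K) (hKU : K ⊆ {z : ℂ | 0 < z.im}) :
    ∃ Y : ℝ, 0 ≤ Y ∧ ∀ z ∈ K, z.im + 1 / z.im ≤ Y := by
  have hcont : ContinuousOn (fun z : ℂ => z.im + 1 / z.im) K := by
    refine ContinuousOn.add Complex.continuous_im.continuousOn ?_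
    exact continuousOn_const.div Complex.continuous_im.continuousOn fun z hz => (hKU hz).ne'
  obtain ⟨Y1, hY1⟩ := hK.bddAbove_image hcont
  exact ⟨max Y1 0, le_max_right _ _, fun w hw => (hY1 ⟨w, hw, rfl⟩).trans (le_max_left _ _)⟩

lemma compact_pre (K : Set ℂ) (hK : IsCompact K) (hKU : K ⊆ {z : ℂ | 0 < z.im}) :
    IsCompact {w : ℍ | (w : ℂ) ∈ K} := by
  rw [isEmbedding_coe.isCompact_iff (f := ((↑) : ℍ → ℂ))]
  have : ((↑) : ℍ → ℂ) '' {w : ℍ | (w : ℂ) ∈ K} = K := by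
    ext w
    constructor
    · rintro ⟨v, hv, rfl⟩; exact hv
    · intro hw
      have hwi : 0 < w.im := hKU hw
      exact ⟨⟨w, hwi⟩, hw, rfl⟩
  rw [this]; exact hK

/-- level sets against a measure -/
theorem level_measure (K : Set ℂ) (hK : IsCompact K) (hKU : K ⊆ {z : ℂ | 0 < z.im}) (θ : ℝ)
    (hθ : 1 ≤ θ) (ε : ℝ) (hε : 0 < ε) : ∃ A : ℝ, 0 < A ∧ ∀ T : ℝ, 1 ≤ T → ∀ U : ℂ → ℂ,
    IsHeckeMaass T U → ∀ (ν : Measure ℂ) (B : ℝ), 0 ≤ B →
    (∀ w : ℂ, ∀ ρ : ℝ, 1 / T ≤ ρ → ν (closedBall w ρ) ≤ ENNReal.ofReal (B * ρ ^ θ)) →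
    ∀ E : Set ℂ, MeasurableSet E → E ⊆ K → ∀ V : ℝ, 0 ≤ V → (∀ z ∈ E, V ≤ ‖U z‖) →
    V ^ (6 * θ) * (ν E).toReal ≤ A * B * T ^ (3 / 2 * θ + ε) := by
  classical
  have hθ0 : 0 < θ := by linarith
  -- bounds on K
  obtain ⟨Y, hY0, hYK⟩ := im_bound K hK hKU
  have hfin := finite_near (compact_pre K hK hKU) (isCompact_D0 Y)
  set G : Finset SL(2, ℤ) := hfin.toFinset with hG
  obtain ⟨A0, hA0, hlev⟩ := level_bound (ε / θ) (by positivity) Y hY0
  set κ : ℝ := (G.card : ℝ) * (3 * Y + 2) with hκ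
  have hκ0 : 0 ≤ κ := by positivity
  refine ⟨(A0 * κ + 1) ^ θ, by positivity, ?_⟩
  intro T hT U hU ν B hB hν E hEm hEK V hV hVE
  have hT0 : 0 < T := by linarith
  obtain ⟨c, hF, hrel⟩ := hU.exists_frm
  -- finiteness
  have hKfin : ν K < ∞ := by
    obtain ⟨R, hR⟩ := hK.isBounded.subset_closedBall 0
    have h1 : K ⊆ closedBall 0 (max R 1) := hR.trans (closedBall_subset_closedBall (le_max_left _ _))
    refine (measure_mono h1).trans_lt ((hν 0 (max R 1) ?_).trans_lt ENNReal.ofReal_lt_top)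
    refine le_trans ?_ (le_max_right _ _)
    rw [div_le_one hT0]; exact hT
  have hEfin : ν E ≠ ∞ := ((measure_mono hEK).trans_lt hKfin).ne
  set M : ℝ := (ν E).toReal with hM
  have hM0 : 0 ≤ M := ENNReal.toReal_nonneg
  -- cells
  set J : Finset (ℤ × ℤ) := (finite_cells hT0 hK hEK).toFinset with hJ
  have hJmem : ∀ ab, ab ∈ J ↔ ∃ z ∈ E, cell T z = ab := by
    intro ab
    rw [hJ, Set.Finite.mem_toFinset]
    rfl
  have hex : ∀ ab : ℤ × ℤ, ∃ (v : ℍ) (g : SL(2, ℤ)), ab ∈ J →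
      ((v : ℂ) ∈ E ∧ cell T v = ab ∧ g ∈ G ∧ g • v ∈ D0 Y) := by
    intro ab
    by_cases hab : ab ∈ J
    · obtain ⟨z, hz, hcz⟩ := (hJmem ab).1 hab
      have hzi : 0 < z.im := hKU (hEK hz)
      obtain ⟨v, hv⟩ : ∃ v : ℍ, (v : ℂ) = z := ⟨⟨z, hzi⟩, rfl⟩
      have hvK : (v : ℂ) ∈ K := by rw [hv]; exact hEK hz
      obtain ⟨g, hg1, hg2, hg3⟩ := exists_move' v
      have hgD : g • v ∈ D0 Y := ⟨hg1, hg2, hg3.trans (hYK v hvK)⟩
      refine ⟨v, g, fun _ => ⟨?_, ?_, ?_, hgD⟩⟩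
      · rw [hv]; exact hz
      · rw [hv]; exact hcz
      · rw [hG, Set.Finite.mem_toFinset]
        exact ⟨v, hvK, hgD⟩
    · exact ⟨UpperHalfPlane.I, 1, fun h => absurd h hab⟩
  choose v g hvg using hex
  set Q : ℤ × ℤ → Set ℂ := fun ab => E ∩ cell T ⁻¹' {ab} with hQ
  have hQm : ∀ ab, MeasurableSet (Q ab) := fun ab =>
    hEm.inter (measurable_cell T (measurableSet_singleton ab))
  have hQdisj : ∀ S : Finset (ℤ × ℤ), Set.PairwiseDisjoint (S : Set (ℤ × ℤ)) Q := by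
    intro S a _ b _ hab
    refine Set.disjoint_left.2 fun z hza hzb => hab ?_
    have h1 : cell T z = a := hza.2
    have h2 : cell T z = b := hzb.2
    rw [← h1, h2]
  have hQE : ∀ ab, Q ab ⊆ E := fun ab => Set.inter_subset_left
  have hQfin : ∀ ab, ν (Q ab) ≠ ∞ := fun ab => ((measure_mono (hQE ab)).trans_lt
    (lt_top_iff_ne_top.2 hEfin)).ne
  set m : ℤ × ℤ → ℝ := fun ab => (ν (Q ab)).toReal with hm
  have hm0 : ∀ ab, 0 ≤ m ab := fun ab => ENNReal.toReal_nonneg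
  have hmof : ∀ ab, ENNReal.ofReal (m ab) = ν (Q ab) := fun ab => ENNReal.ofReal_toReal (hQfin ab)
  have hunion : E = ⋃ ab ∈ J, Q ab := by
    ext z
    simp only [Set.mem_iUnion]
    constructor
    · intro hz
      exact ⟨cell T z, (hJmem _).2 ⟨z, hz, rfl⟩, hz, rfl⟩
    · rintro ⟨ab, _, hz⟩
      exact hz.1
  have hsumM : ∑ ab ∈ J, m ab = M := by
    have h1 : ν E = ∑ ab ∈ J, ν (Q ab) := by
      conv_lhs => rw [hunion]
      exact measure_biUnion_finset (hQdisj J) (fun ab _ => hQm ab)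
    rw [hM, h1, ENNReal.toReal_sum (fun ab _ => hQfin ab)]
  clear hunion
  -- growth of the family of unmoved points
  have hgrow1 : ∀ w : ℍ, ∀ ρ : ℝ, 1 / T ≤ ρ → ρ ≤ 1 →
      ∑ ab ∈ J, ENNReal.ofReal (m ab) * ic (dist w (v ab) ≤ ρ) ≤
        ENNReal.ofReal ((3 * Y + 2) * (M ^ (1 - 1 / θ) * B ^ (1 / θ)) * ρ) := by
    intro w ρ hρ1 hρ2
    have hρ0 : 0 < ρ := lt_of_lt_of_le (by positivity) hρ1
    by_cases hexx : ∃ ab ∈ J, dist w (v ab) ≤ ρ
    · obtain ⟨a0, ha0, hd0⟩ := hexx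
      set Jf := J.filter fun ab => dist w (v ab) ≤ ρ with hJf
      have h1 : ∑ ab ∈ J, ENNReal.ofReal (m ab) * ic (dist w (v ab) ≤ ρ) =
          ∑ ab ∈ Jf, ν (Q ab) := by
        rw [hJf, Finset.sum_filter]
        refine Finset.sum_congr rfl fun ab _ => ?_
        by_cases h : dist w (v ab) ≤ ρ
        · rw [ic_true h, mul_one, hmof, if_pos h]
        · rw [ic_false h, mul_zero, if_neg h]
      rw [h1, ← measure_biUnion_finset (hQdisj Jf) (fun ab _ => hQm ab)]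
      set W := ⋃ ab ∈ Jf, Q ab with hW
      have hWE : W ⊆ E := by
        refine Set.iUnion₂_subset fun ab _ => hQE ab
      have hcl : W ⊆ closedBall ((v a0 : ℍ) : ℂ) ((3 * Y + 2) * ρ) := by
        refine Set.iUnion₂_subset fun ab hab z hz => ?_
        rw [hJf, Finset.mem_filter] at hab
        obtain ⟨g1, g2, _, _⟩ := hvg ab hab.1
        obtain ⟨k1, _, _, _⟩ := hvg a0 ha0
        have h2 : dist (v ab) (v a0) ≤ 2 * ρ := by
          have := dist_triangle (v ab) w (v a0)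
          rw [dist_comm (v ab) w] at this
          linarith [hab.2]
        have him : ∀ u : ℍ, (u : ℂ) ∈ E → u.im ≤ Y := by
          intro u hu
          have h3 := hYK u (hEK hu)
          rw [coe_im] at h3
          have h4 : 0 < 1 / u.im := by have := u.im_pos; positivity
          linarith
        have h3 := euclid_le h2 (by linarith) (him _ g1) (him _ k1)
        have h4 : dist z (v ab : ℂ) ≤ 2 / T := cell_close hT0 (by
          have : cell T z = ab := hz.2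
          rw [this, g2])
        rw [mem_closedBall]
        have h5 := dist_triangle z (v ab : ℂ) (v a0 : ℂ)
        have h6 : 2 / T ≤ 2 * ρ := by
          rw [show 2 / T = 2 * (1 / T) by ring]; linarith
        calc dist z (v a0 : ℂ) ≤ 2 * ρ + 3 / 2 * (2 * ρ) * Y := by linarith
          _ = _ := by ring
      have hWfin : ν W ≠ ∞ := ((measure_mono hWE).trans_lt (lt_top_iff_ne_top.2 hEfin)).ne
      have hrad : 1 / T ≤ (3 * Y + 2) * ρ := by nlinarith
      have hWB : ν W ≤ ENNReal.ofReal (B * ((3 * Y + 2) * ρ) ^ θ) :=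
        (measure_mono hcl).trans (hν _ _ hrad)
      have h2 : (ν W).toReal ≤ M := ENNReal.toReal_mono hEfin (measure_mono hWE)
      have h3 : (ν W).toReal ≤ B * ((3 * Y + 2) * ρ) ^ θ := by
        refine ENNReal.toReal_le_of_le_ofReal (by positivity) hWB
      have h4 := interp ENNReal.toReal_nonneg h2 h3 hθ
      rw [← ENNReal.ofReal_toReal hWfin]
      refine ENNReal.ofReal_le_ofReal (h4.trans (le_of_eq ?_))
      have h5 : (B * ((3 * Y + 2) * ρ) ^ θ) ^ (1 / θ) = B ^ (1 / θ) * ((3 * Y + 2) * ρ) := by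
        rw [Real.mul_rpow hB (by positivity), ← Real.rpow_mul (by positivity),
          mul_one_div_cancel hθ0.ne', Real.rpow_one]
      rw [h5]; ring
    · push Not at hexx
      rw [Finset.sum_eq_zero fun ab hab => by rw [ic_false (not_le.2 (hexx ab hab)), mul_zero]]
      exact zero_le
  set B' : ℝ := κ * (M ^ (1 - 1 / θ) * B ^ (1 / θ)) with hB'
  have hB'0 : 0 ≤ B' := by positivity
  have hP : Pts Y T (∑ ab ∈ J, m ab) B' J (fun ab => ENNReal.ofReal (m ab))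
      (fun ab => g ab • v ab) := by
    refine ⟨fun ab hab => (hvg ab hab).2.2.2, ?_, hB'0, ?_, ?_⟩
    · exact Finset.sum_nonneg fun ab _ => hm0 ab
    · rw [ENNReal.ofReal_sum_of_nonneg fun ab _ => hm0 ab]
    · intro w ρ hρ1 hρ2
      have hρ0 : 0 < ρ := lt_of_lt_of_le (by positivity) hρ1
      have h1 : ∀ ab ∈ J, ENNReal.ofReal (m ab) * ic (dist w (g ab • v ab) ≤ ρ) ≤
          ∑ γ ∈ G, ENNReal.ofReal (m ab) * ic (dist (γ⁻¹ • w) (v ab) ≤ ρ) := by
        intro ab hab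
        refine le_trans (le_of_eq ?_) (Finset.single_le_sum
          (f := fun γ => ENNReal.ofReal (m ab) * ic (dist (γ⁻¹ • w) (v ab) ≤ ρ))
          (fun _ _ => zero_le) (hvg ab hab).2.2.1)
        rw [dist_sl']
      refine (Finset.sum_le_sum h1).trans ?_
      rw [Finset.sum_comm]
      refine (Finset.sum_le_card_nsmul _ _ _ fun γ _ => hgrow1 (γ⁻¹ • w) ρ hρ1 hρ2).trans ?_
      rw [nsmul_eq_mul, ← ENNReal.ofReal_natCast, ← ENNReal.ofReal_mul (by positivity)]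
      refine ENNReal.ofReal_le_ofReal (le_of_eq ?_)
      rw [hB', hκ]; ring
  have hfinal := hlev J m (fun ab => g ab • v ab) T T B' V U c hT (by norm_num) hF hrel hm0 hP hV
    (fun ab hab => by
      rw [hF.inv]
      exact hVE _ (hvg ab hab).1)
  rw [hsumM] at hfinal
  rcases hM0.eq_or_lt with h0 | h0
  · rw [← h0, mul_zero]; positivity
  -- extract
  have h1 : V ^ 6 * M ^ (1 / θ) ≤ (A0 * κ + 1) * B ^ (1 / θ) * T ^ (3 / 2 + ε / θ) := by
    have h2 : M ^ (1 - 1 / θ) * M ^ (1 / θ) = M := by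
      rw [← Real.rpow_add h0]; norm_num
    have h3 : M ^ (1 - 1 / θ) * (V ^ 6 * M ^ (1 / θ)) ≤
        M ^ (1 - 1 / θ) * ((A0 * κ + 1) * B ^ (1 / θ) * T ^ (3 / 2 + ε / θ)) := by
      calc M ^ (1 - 1 / θ) * (V ^ 6 * M ^ (1 / θ)) = V ^ 6 * (M ^ (1 - 1 / θ) * M ^ (1 / θ)) := by
            ring
        _ = V ^ 6 * M := by rw [h2]
        _ ≤ A0 * B' * T ^ (3 / 2 + ε / θ) := hfinal
        _ = M ^ (1 - 1 / θ) * ((A0 * κ) * B ^ (1 / θ) * T ^ (3 / 2 + ε / θ)) := by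
            rw [hB']; ring
        _ ≤ _ := by
            gcongr
            linarith
    exact le_of_mul_le_mul_left h3 (Real.rpow_pos_of_pos h0 _)
  have h2 := Real.rpow_le_rpow (by positivity) h1 hθ0.le
  have e1 : (V ^ 6 * M ^ (1 / θ)) ^ θ = V ^ (6 * θ) * M := by
    rw [Real.mul_rpow (by positivity) (by positivity), ← Real.rpow_mul hM0,
      one_div_mul_cancel hθ0.ne', Real.rpow_one, ← Real.rpow_natCast V 6, ← Real.rpow_mul hV]
    norm_num
  have e2 : ((A0 * κ + 1) * B ^ (1 / θ) * T ^ (3 / 2 + ε / θ)) ^ θ =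
      (A0 * κ + 1) ^ θ * B * T ^ (3 / 2 * θ + ε) := by
    rw [Real.mul_rpow (by positivity) (by positivity), Real.mul_rpow (by positivity)
      (by positivity), ← Real.rpow_mul hB, one_div_mul_cancel hθ0.ne', Real.rpow_one,
      ← Real.rpow_mul hT0.le]
    congr 2
    field_simp
  rw [e1, e2] at h2
  exact h2

end Pool.Agent.H19.Maass
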