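import Mathlib
import Pool.Agent.H19.Maass.LevelMeasure

set_option autoImplicit false

namespace Pool.Agent.H19.Maass

open MeasureTheory UpperHalfPlane ModularGroup Metric
open scoped MatrixGroups Modular UpperHalfPlane ENNReal ComplexConjugate

lemma pow_levels (ε : ℝ) (hε : 0 < ε) : ∃ A : ℝ, 1 ≤ A ∧ ∀ n : ℕ,
    (n : ℝ) + 1 ≤ A * ((2 : ℝ) ^ n) ^ ε := by
  have hl2 : 0 < Real.log 2 := Real.log_pos (by norm_num)
  set A0 : ℝ := max 1 (1 / (ε * Real.log 2)) with hA0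
  have hA1 : 1 ≤ A0 := le_max_left _ _
  have hA2 : 1 ≤ A0 * (ε * Real.log 2) := by
    have h1 : 1 / (ε * Real.log 2) ≤ A0 := le_max_right _ _
    rwa [div_le_iff₀ (by positivity)] at h1
  refine ⟨A0, hA1, ?_⟩
  intro L
  have h2 : ((2 : ℝ) ^ L) ^ ε = Real.exp (L * (ε * Real.log 2)) := by
    rw [Real.rpow_def_of_pos (by positivity), Real.log_pow]
    congr 1; ring
  have h3 : (L : ℝ) * (ε * Real.log 2) + 1 ≤ Real.exp (L * (ε * Real.log 2)) :=
    Real.add_one_le_exp _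
  have hL0 : (0 : ℝ) ≤ L := Nat.cast_nonneg L
  rw [← h2] at h3
  calc (L : ℝ) + 1 ≤ A0 * (L * (ε * Real.log 2) + 1) := by nlinarith
    _ ≤ A0 * ((2 : ℝ) ^ L) ^ ε := mul_le_mul_of_nonneg_left h3 (by linarith)

/-- local bound on compact sets -/
lemma sup_bound (K : Set ℂ) (hK : IsCompact K) (hKU : K ⊆ {z : ℂ | 0 < z.im}) :
    ∃ D : ℝ, 1 ≤ D ∧ ∀ T : ℝ, 1 ≤ T → ∀ U : ℂ → ℂ, IsHeckeMaass T U → ∀ z ∈ K, ‖U z‖ ≤ D * T := by
  obtain ⟨C1, hC1, hpt⟩ := pointwise_bound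
  obtain ⟨Y, hY0, hY1⟩ := im_bound K hK hKU
  refine ⟨C1 * (1 + Y) + 1, by nlinarith, ?_⟩
  intro T hT U hU z hz
  have hzi : 0 < z.im := hKU hz
  obtain ⟨c, hF, _⟩ := hU.exists_frm
  obtain ⟨v, hv⟩ : ∃ v : ℍ, (v : ℂ) = z := ⟨⟨z, hzi⟩, rfl⟩
  obtain ⟨g, h1, h2, h3⟩ := exists_move' v
  have h4 := hpt T hT T U c (by norm_num) hF (g • v) h1 h2
  rw [hF.inv, hv] at h4
  have h5 : (g • v).im ≤ Y := by
    refine h3.trans ?_
    have := hY1 z hz
    rwa [← hv] at this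
  have h6 : ‖U z‖ ^ 2 ≤ C1 * (1 + Y) * T := by
    refine h4.trans ?_
    gcongr
  have h7 : C1 * (1 + Y) * T ≤ ((C1 * (1 + Y) + 1) * T) ^ 2 := by
    have a1 : 0 ≤ C1 * (1 + Y) := by positivity
    have a2 : T ≤ T ^ 2 := by nlinarith
    calc C1 * (1 + Y) * T ≤ (C1 * (1 + Y) + 1) ^ 2 * T ^ 2 := by
          refine mul_le_mul ?_ a2 (by linarith) (by positivity)
          nlinarith
      _ = _ := by ring
  have h8 : 0 ≤ (C1 * (1 + Y) + 1) * T := by positivity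
  exact (abs_le_of_sq_le_sq' (h6.trans h7) h8).2

lemma level_cover {u q : ℝ} {N : ℕ} (hu0 : 0 ≤ u) (hu : u < 2 ^ N) (hq : 0 ≤ q) :
    ENNReal.ofReal (u ^ q) ≤ 1 + ∑ k ∈ Finset.range N, ENNReal.ofReal (((2 : ℝ) ^ (k + 1)) ^ q) *
      ic ((2 : ℝ) ^ k ≤ u) := by
  rcases lt_or_ge u 1 with h | h
  · refine le_trans ?_ le_self_add
    rw [← ENNReal.ofReal_one]
    exact ENNReal.ofReal_le_ofReal (Real.rpow_le_one hu0 h.le hq)
  · obtain ⟨k, hk1, hk2⟩ := exists_nat_pow_near h (by norm_num : (1 : ℝ) < 2)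
    have hkN : k < N := by
      by_contra hcon
      rw [not_lt] at hcon
      have : (2 : ℝ) ^ N ≤ 2 ^ k := pow_le_pow_right₀ (by norm_num) hcon
      linarith
    refine le_trans ?_ le_add_self
    refine le_trans ?_ (Finset.single_le_sum (f := fun k : ℕ =>
      ENNReal.ofReal (((2 : ℝ) ^ (k + 1)) ^ q) * ic ((2 : ℝ) ^ k ≤ u))
      (fun _ _ => zero_le) (Finset.mem_range.2 hkN))
    rw [ic_true hk1, mul_one]
    exact ENNReal.ofReal_le_ofReal (Real.rpow_le_rpow hu0 hk2.le hq)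

/-- **Main theorem.** -/
theorem frostman (K : Set ℂ) (hK : IsCompact K) (hKU : K ⊆ {z : ℂ | 0 < z.im}) (θ : ℝ)
    (hθ : 1 ≤ θ) (ε : ℝ) (hε : 0 < ε) : ∃ C : ℝ, ∀ T : ℝ, 1 ≤ T → ∀ U : ℂ → ℂ,
    IsHeckeMaass T U → ∀ (ν : Measure ℂ) (B : ℝ), 0 ≤ B →
    (∀ w : ℂ, ∀ ρ : ℝ, 1 / T ≤ ρ → ν (closedBall w ρ) ≤ ENNReal.ofReal (B * ρ ^ θ)) →
    ∫⁻ z in K, ENNReal.ofReal (‖U z‖ ^ (6 * θ)) ∂ν ≤
      ENNReal.ofReal (C * B * T ^ (3 * θ / 2 + ε)) := by
  have hθ0 : 0 < θ := by linarith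
  obtain ⟨A, hA, hlev⟩ := level_measure K hK hKU θ hθ (ε / 2) (by positivity)
  obtain ⟨D, hD, hsup⟩ := sup_bound K hK hKU
  obtain ⟨A3, hA3, hpl⟩ := pow_levels (ε / 2) (by positivity)
  obtain ⟨s, _, hs⟩ := hK.elim_nhds_subcover (fun w => closedBall w 1)
    (fun w _ => closedBall_mem_nhds w one_pos)
  refine ⟨(s.card : ℝ) + A3 * D ^ (ε / 2) * (2 ^ (6 * θ) * A), ?_⟩
  intro T hT U hU ν B hB hν
  have hT0 : 0 < T := by linarith
  have hmono : ∀ a : ℝ, 0 ≤ a → 1 ≤ T ^ a := fun a ha => Real.one_le_rpow hT ha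
  -- mass of K
  have hνK : ν K ≤ ENNReal.ofReal (s.card * B) := by
    have h1 : ν K ≤ ∑ w ∈ s, ν (closedBall w 1) :=
      (measure_mono hs).trans (measure_biUnion_finset_le _ _)
    refine h1.trans ?_
    have h2 : ∀ w ∈ s, ν (closedBall w 1) ≤ ENNReal.ofReal B := by
      intro w _
      have := hν w 1 (by rw [div_le_one hT0]; exact hT)
      rwa [Real.one_rpow, mul_one] at this
    refine (Finset.sum_le_card_nsmul _ _ _ h2).trans ?_
    rw [nsmul_eq_mul, ← ENNReal.ofReal_natCast, ← ENNReal.ofReal_mul (by positivity)]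
  have hKfin : ν K < ∞ := hνK.trans_lt ENNReal.ofReal_lt_top
  -- number of levels
  have hDT : 1 ≤ D * T := by nlinarith
  obtain ⟨N, hN1, hN2⟩ := exists_nat_pow_near hDT (by norm_num : (1 : ℝ) < 2)
  have hNb : ((N + 1 : ℕ) : ℝ) ≤ A3 * D ^ (ε / 2) * T ^ (ε / 2) := by
    push_cast
    refine (hpl N).trans ?_
    rw [mul_assoc, ← Real.mul_rpow (by linarith) hT0.le]
    refine mul_le_mul_of_nonneg_left ?_ (by linarith)
    exact Real.rpow_le_rpow (by positivity) hN1 (by positivity)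
  -- level sets
  have hUc : ContinuousOn (fun z => ‖U z‖) K := (hU.smooth.continuousOn.mono hKU).norm
  set E : ℕ → Set ℂ := fun k => K ∩ (fun z => ‖U z‖) ⁻¹' (Set.Ici ((2 : ℝ) ^ k)) with hE
  have hEm : ∀ k, MeasurableSet (E k) := fun k =>
    (hUc.preimage_isClosed_of_isClosed hK.isClosed isClosed_Ici).measurableSet
  have hEK : ∀ k, E k ⊆ K := fun k => Set.inter_subset_left
  have hEb : ∀ k, ENNReal.ofReal (((2 : ℝ) ^ (k + 1)) ^ (6 * θ)) * ν (E k) ≤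
      ENNReal.ofReal (2 ^ (6 * θ) * A * B * T ^ (3 / 2 * θ + ε / 2)) := by
    intro k
    have hfin : ν (E k) ≠ ∞ := ((measure_mono (hEK k)).trans_lt hKfin).ne
    have h1 := hlev T hT U hU ν B hB hν (E k) (hEm k) (hEK k) (2 ^ k) (by positivity)
      (fun z hz => hz.2)
    rw [← ENNReal.ofReal_toReal hfin, ← ENNReal.ofReal_mul (by positivity)]
    refine ENNReal.ofReal_le_ofReal ?_
    have h2 : ((2 : ℝ) ^ (k + 1)) ^ (6 * θ) = 2 ^ (6 * θ) * ((2 : ℝ) ^ k) ^ (6 * θ) := by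
      rw [pow_succ, Real.mul_rpow (by positivity) (by norm_num)]
      ring
    rw [h2]
    calc 2 ^ (6 * θ) * ((2 : ℝ) ^ k) ^ (6 * θ) * (ν (E k)).toReal
        = 2 ^ (6 * θ) * (((2 : ℝ) ^ k) ^ (6 * θ) * (ν (E k)).toReal) := by ring
      _ ≤ 2 ^ (6 * θ) * (A * B * T ^ (3 / 2 * θ + ε / 2)) :=
          mul_le_mul_of_nonneg_left h1 (by positivity)
      _ = _ := by ring
  -- integrate
  have hint : ∫⁻ z in K, ENNReal.ofReal (‖U z‖ ^ (6 * θ)) ∂ν ≤
      ν K + ∑ k ∈ Finset.range (N + 1), ENNReal.ofReal (((2 : ℝ) ^ (k + 1)) ^ (6 * θ)) *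
        ν (E k) := by
    have hind : ∀ k, Measurable ((E k).indicator (1 : ℂ → ℝ≥0∞)) := fun k =>
      measurable_one.indicator (hEm k)
    calc ∫⁻ z in K, ENNReal.ofReal (‖U z‖ ^ (6 * θ)) ∂ν
        ≤ ∫⁻ z in K, (1 + ∑ k ∈ Finset.range (N + 1),
            ENNReal.ofReal (((2 : ℝ) ^ (k + 1)) ^ (6 * θ)) * (E k).indicator 1 z) ∂ν := by
          refine setLIntegral_mono' hK.measurableSet fun z hz => ?_
          have h1 : ‖U z‖ < 2 ^ (N + 1) := (hsup T hT U hU z hz).trans_lt hN2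
          refine (level_cover (norm_nonneg _) h1 (by positivity : (0 : ℝ) ≤ 6 * θ)).trans ?_
          refine add_le_add le_rfl (Finset.sum_le_sum fun k _ => mul_le_mul_right ?_ _)
          by_cases h2 : (2 : ℝ) ^ k ≤ ‖U z‖
          · rw [ic_true h2, Set.indicator_of_mem (show z ∈ E k from ⟨hz, h2⟩), Pi.one_apply]
          · rw [ic_false h2]; exact zero_le
      _ = ν K + ∑ k ∈ Finset.range (N + 1), ENNReal.ofReal (((2 : ℝ) ^ (k + 1)) ^ (6 * θ)) *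
            (ν.restrict K) (E k) := by
          rw [lintegral_add_left measurable_const, lintegral_finsetSum _
            (fun k _ => (hind k).const_mul _), setLIntegral_one]
          congr 1
          refine Finset.sum_congr rfl fun k _ => ?_
          rw [lintegral_const_mul _ (hind k), lintegral_indicator_one (hEm k)]
      _ ≤ _ := by
          refine add_le_add le_rfl (Finset.sum_le_sum fun k _ => mul_le_mul_right ?_ _)
          exact Measure.restrict_apply_le _ _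
  refine hint.trans ?_
  refine (add_le_add hνK (Finset.sum_le_card_nsmul _ _ _ fun k _ => hEb k)).trans ?_
  rw [Finset.card_range, nsmul_eq_mul, ← ENNReal.ofReal_natCast (N + 1),
    ← ENNReal.ofReal_mul (by positivity), ← ENNReal.ofReal_add (by positivity) (by positivity)]
  refine ENNReal.ofReal_le_ofReal ?_
  have e1 : T ^ (3 * θ / 2 + ε) = T ^ (ε / 2) * T ^ (3 / 2 * θ + ε / 2) := by
    rw [← Real.rpow_add hT0]; congr 1; ring
  have e2 : (1 : ℝ) ≤ T ^ (3 * θ / 2 + ε) := hmono _ (by positivity)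
  calc (s.card : ℝ) * B + ((N + 1 : ℕ) : ℝ) * (2 ^ (6 * θ) * A * B * T ^ (3 / 2 * θ + ε / 2))
      ≤ (s.card : ℝ) * B * T ^ (3 * θ / 2 + ε) + (A3 * D ^ (ε / 2) * T ^ (ε / 2)) *
          (2 ^ (6 * θ) * A * B * T ^ (3 / 2 * θ + ε / 2)) := by
        refine add_le_add (le_mul_of_one_le_right (by positivity) e2) ?_
        exact mul_le_mul_of_nonneg_right hNb (by positivity)
    _ = _ := by rw [e1]; ring

end Pool.Agent.H19.Maass
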