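import Mathlib
import Pool.Agent.H19.Maass.Eigen

set_option autoImplicit false

namespace Pool.Agent.H19.Maass

open MeasureTheory Set Filter Topology

/-- additive character -/
noncomputable def en (n : ℤ) (x : ℝ) : ℂ := Complex.exp (-(2 * Real.pi * Complex.I * n * x))

lemma hasDerivAt_en (n : ℤ) (x : ℝ) :
    HasDerivAt (en n) (-(2 * Real.pi * Complex.I * n) * en n x) x := by
  unfold en
  have h1 : HasDerivAt (fun x : ℝ => -(2 * Real.pi * Complex.I * n * (x : ℂ)))
      (-(2 * Real.pi * Complex.I * n)) x := by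
    have := ((Complex.ofRealCLM.hasDerivAt (x := x)).const_mul (-(2 * Real.pi * Complex.I * n)))
    simp only [Complex.ofRealCLM_apply, Complex.ofReal_one, mul_one] at this
    refine this.congr_of_eventuallyEq (Eventually.of_forall fun y => ?_)
    simp only
    ring
  exact h1.cexp.congr_deriv (by ring)

lemma continuous_en (n : ℤ) : Continuous (en n) :=
  continuous_iff_continuousAt.2 fun x => (hasDerivAt_en n x).continuousAt

lemma norm_en (n : ℤ) (x : ℝ) : ‖en n x‖ = 1 := by
  unfold en
  rw [Complex.norm_exp]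
  simp

lemma en_one (n : ℤ) : en n 1 = 1 := by
  unfold en
  have : -(2 * (Real.pi : ℂ) * Complex.I * n * ((1 : ℝ) : ℂ)) = ((-n : ℤ) : ℂ) * (2 * Real.pi * Complex.I) := by
    push_cast; ring
  rw [this, Complex.exp_int_mul_two_pi_mul_I]

lemma en_zero (n : ℤ) : en n 0 = 1 := by
  unfold en; simp

lemma en_add (n : ℤ) (x y : ℝ) : en n (x + y) = en n x * en n y := by
  unfold en
  rw [← Complex.exp_add]
  congr 1
  push_cast; ring

lemma en_int (n k : ℤ) : en n k = 1 := by
  unfold en
  have : -(2 * (Real.pi : ℂ) * Complex.I * n * ((k : ℝ) : ℂ)) =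
      ((-(n * k) : ℤ) : ℂ) * (2 * Real.pi * Complex.I) := by
    push_cast; ring
  rw [this, Complex.exp_int_mul_two_pi_mul_I]

/-- integration by parts on the circle -/
lemma ibp_en {G G1 : ℝ → ℂ} (hG : ∀ x, HasDerivAt G (G1 x) x) (hG1 : Continuous G1)
    (hper : G 1 = G 0) (n : ℤ) :
    ∫ x in (0 : ℝ)..1, G1 x * en n x = (2 * Real.pi * Complex.I * n) *
      ∫ x in (0 : ℝ)..1, G x * en n x := by
  have hc : Continuous fun x => -(2 * Real.pi * Complex.I * n) * en n x :=
    continuous_const.mul (continuous_en n)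
  have h := intervalIntegral.integral_mul_deriv_eq_deriv_mul (a := 0) (b := 1)
    (u := G) (v := en n) (u' := G1) (v' := fun x => -(2 * Real.pi * Complex.I * n) * en n x)
    (fun x _ => hG x) (fun x _ => hasDerivAt_en n x)
    (hG1.intervalIntegrable _ _) (hc.intervalIntegrable _ _)
  rw [en_one, en_zero, hper, sub_self, zero_sub] at h
  have h2 : ∫ x in (0 : ℝ)..1, G x * (-(2 * Real.pi * Complex.I * n) * en n x) =
      -(2 * Real.pi * Complex.I * n) * ∫ x in (0 : ℝ)..1, G x * en n x := by
    rw [← intervalIntegral.integral_const_mul]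
    congr 1
    funext x; ring
  rw [h2] at h
  linear_combination h

/-- Fourier coefficient along the horocycle of height `y` -/
noncomputable def fcf (F : ℂ → ℂ) (n : ℤ) (y : ℝ) : ℂ :=
  ∫ x in (0 : ℝ)..1, F (x + y * Complex.I) * en n x

lemma xy_mem {x y : ℝ} (hy : 0 < y) : (x : ℂ) + y * Complex.I ∈ UH := by
  change 0 < ((x : ℂ) + y * Complex.I).im
  simpa using hy

lemma continuous_line {F : ℂ → ℂ} {E : Type*} [TopologicalSpace E] {G : ℂ → E}
    (_hF : F = F) (hG : ContinuousOn G UH) {y : ℝ} (hy : 0 < y) :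
    Continuous fun x : ℝ => G (x + y * Complex.I) := by
  have h1 : Continuous fun x : ℝ => (x : ℂ) + y * Complex.I := by fun_prop
  exact hG.comp_continuous h1 fun x => xy_mem hy

lemma continuousOn_strip {E : Type*} [TopologicalSpace E] {G : ℂ → E}
    (hG : ContinuousOn G UH) :
    ContinuousOn (fun p : ℝ × ℝ => G (p.2 + p.1 * Complex.I)) (Ioi 0 ×ˢ univ) := by
  have h1 : Continuous fun p : ℝ × ℝ => (p.2 : ℂ) + p.1 * Complex.I := by fun_prop
  exact hG.comp h1.continuousOn fun p hp => xy_mem hp.1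

lemma hasDerivAt_x {F : ℂ → ℂ} (hF : ContDiffOn ℝ 2 F UH) {y : ℝ} (hy : 0 < y) (x : ℝ) :
    HasDerivAt (fun x : ℝ => F (x + y * Complex.I)) (fderiv ℝ F (x + y * Complex.I) 1) x := by
  have h := hasDerivAt_line1 hF (z := y * Complex.I) (v := 1) (t := x)
    (by rw [mul_one, add_comm]; exact xy_mem hy)
  simp only [mul_one] at h
  simp_rw [add_comm ((y : ℂ) * Complex.I)] at h
  exact h

lemma hasDerivAt_x2 {F : ℂ → ℂ} (hF : ContDiffOn ℝ 2 F UH) {y : ℝ} (hy : 0 < y) (x : ℝ) :
    HasDerivAt (fun x : ℝ => fderiv ℝ F (x + y * Complex.I) 1)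
      (fderiv ℝ (fderiv ℝ F) (x + y * Complex.I) 1 1) x := by
  have h := hasDerivAt_line2 hF (z := y * Complex.I) (v := 1) (t := x)
    (by rw [mul_one, add_comm]; exact xy_mem hy)
  simp only [mul_one] at h
  simp_rw [add_comm ((y : ℂ) * Complex.I)] at h
  exact h

lemma hasDerivAt_y {F : ℂ → ℂ} (hF : ContDiffOn ℝ 2 F UH) {y : ℝ} (hy : 0 < y) (x : ℝ) :
    HasDerivAt (fun y : ℝ => F (x + y * Complex.I))
      (fderiv ℝ F (x + y * Complex.I) Complex.I) y :=
  hasDerivAt_line1 hF (z := x) (v := Complex.I) (t := y) (xy_mem hy)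

lemma hasDerivAt_y2 {F : ℂ → ℂ} (hF : ContDiffOn ℝ 2 F UH) {y : ℝ} (hy : 0 < y) (x : ℝ) :
    HasDerivAt (fun y : ℝ => fderiv ℝ F (x + y * Complex.I) Complex.I)
      (fderiv ℝ (fderiv ℝ F) (x + y * Complex.I) Complex.I Complex.I) y :=
  hasDerivAt_line2 hF (z := x) (v := Complex.I) (t := y) (xy_mem hy)

lemma fderiv_per {F : ℂ → ℂ} (hF : ContDiffOn ℝ 2 F UH)
    (hper : ∀ z : ℂ, 0 < z.im → F (z + 1) = F z) {y : ℝ} (hy : 0 < y) (x : ℝ) :
    fderiv ℝ F (((x + 1 : ℝ) : ℂ) + y * Complex.I) 1 = fderiv ℝ F (x + y * Complex.I) 1 := by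
  have h1 := hasDerivAt_x hF hy (x + 1)
  have h2 := hasDerivAt_x hF hy x
  have h3 : HasDerivAt (fun x : ℝ => F (((x + 1 : ℝ) : ℂ) + y * Complex.I))
      (fderiv ℝ F (((x + 1 : ℝ) : ℂ) + y * Complex.I) 1) x :=
    h1.comp_add_const x 1
  have h4 : (fun x : ℝ => F (((x + 1 : ℝ) : ℂ) + y * Complex.I)) =
      fun x : ℝ => F (x + y * Complex.I) := by
    funext x
    rw [← hper (x + y * Complex.I) (xy_mem hy)]
    congr 1
    push_cast; ring
  rw [h4] at h3
  exact h3.unique h2

/-- the differential equation of the Fourier coefficients -/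
theorem fcf_ode {lam : ℂ} {F : ℂ → ℂ} (hF : IsEig lam F)
    (hper : ∀ z : ℂ, 0 < z.im → F (z + 1) = F z) (n : ℤ) :
    ∃ v1 : ℝ → ℂ, (∀ y, 0 < y → HasDerivAt (fcf F n) (v1 y) y) ∧
      ∀ y : ℝ, 0 < y → HasDerivAt v1 ((4 * Real.pi ^ 2 * n ^ 2 - lam / y ^ 2) * fcf F n y) y := by
  have hs := hF.smooth
  have hc0 : ContinuousOn F UH := hs.continuousOn
  have hc1 : ContinuousOn (fun z => fderiv ℝ F z Complex.I) UH :=
    (continuousOn_D1 hs).clm_apply continuousOn_const
  have hc2 : ContinuousOn (fun z => fderiv ℝ (fderiv ℝ F) z Complex.I Complex.I) UH :=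
    ((continuousOn_D2 hs).clm_apply continuousOn_const).clm_apply continuousOn_const
  have hcx : ContinuousOn (fun z => fderiv ℝ F z 1) UH :=
    (continuousOn_D1 hs).clm_apply continuousOn_const
  have hcxx : ContinuousOn (fun z => fderiv ℝ (fderiv ℝ F) z 1 1) UH :=
    ((continuousOn_D2 hs).clm_apply continuousOn_const).clm_apply continuousOn_const
  refine ⟨fun y => ∫ x in (0 : ℝ)..1, fderiv ℝ F (x + y * Complex.I) Complex.I * en n x,
    fun y hy => ?_, fun y hy => ?_⟩
  · refine hasDerivAt_param (s := Ioi 0) isOpen_Ioi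
      (f := fun y x => F (x + y * Complex.I) * en n x)
      (f' := fun y x => fderiv ℝ F (x + y * Complex.I) Complex.I * en n x) ?_ ?_ ?_ hy
    · intro y hy
      exact (continuous_line (F := F) rfl hc0 hy).mul (continuous_en n)
    · intro y hy x
      exact (hasDerivAt_y hs hy x).mul_const _
    · exact (continuousOn_strip hc1).mul
        ((continuous_en n).comp continuous_snd).continuousOn
  · have h1 : HasDerivAt
        (fun y : ℝ => ∫ x in (0 : ℝ)..1, fderiv ℝ F (x + y * Complex.I) Complex.I * en n x)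
        (∫ x in (0 : ℝ)..1, fderiv ℝ (fderiv ℝ F) (x + y * Complex.I) Complex.I Complex.I *
          en n x) y := by
      refine hasDerivAt_param (s := Ioi 0) isOpen_Ioi
        (f := fun y x => fderiv ℝ F (x + y * Complex.I) Complex.I * en n x)
        (f' := fun y x => fderiv ℝ (fderiv ℝ F) (x + y * Complex.I) Complex.I Complex.I *
          en n x) ?_ ?_ ?_ hy
      · intro y hy
        exact (continuous_line (F := F) rfl hc1 hy).mul (continuous_en n)
      · intro y hy x
        exact (hasDerivAt_y2 hs hy x).mul_const _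
      · exact (continuousOn_strip hc2).mul
          ((continuous_en n).comp continuous_snd).continuousOn
    refine h1.congr_deriv ?_
    have hy0 : (y : ℂ) ≠ 0 := by exact_mod_cast hy.ne'
    have hpt : ∀ x : ℝ, fderiv ℝ (fderiv ℝ F) (x + y * Complex.I) Complex.I Complex.I * en n x =
        -(fderiv ℝ (fderiv ℝ F) (x + y * Complex.I) 1 1 * en n x) -
          lam / y ^ 2 * (F (x + y * Complex.I) * en n x) := by
      intro x
      have h2 := hF.eq _ (xy_mem (x := x) hy)
      have h3 : ((x : ℂ) + y * Complex.I).im = y := by simp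
      rw [h3] at h2
      field_simp
      linear_combination (en n x) * h2
    simp_rw [hpt]
    have hx2 := ibp_en (G := fun x : ℝ => fderiv ℝ F (x + y * Complex.I) 1)
      (G1 := fun x : ℝ => fderiv ℝ (fderiv ℝ F) (x + y * Complex.I) 1 1)
      (hasDerivAt_x2 hs hy) (continuous_line (F := F) rfl hcxx hy)
      (by have := fderiv_per hs hper hy 0
          rw [zero_add] at this
          exact this) n
    have hx1 := ibp_en (G := fun x : ℝ => F (x + y * Complex.I))
      (G1 := fun x : ℝ => fderiv ℝ F (x + y * Complex.I) 1)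
      (hasDerivAt_x hs hy) (continuous_line (F := F) rfl hcx hy)
      (by have := hper (((0 : ℝ) : ℂ) + y * Complex.I) (xy_mem hy)
          rw [← this]
          congr 1
          push_cast; ring) n
    rw [intervalIntegral.integral_sub, intervalIntegral.integral_neg,
      intervalIntegral.integral_const_mul, hx2, hx1]
    · have h4 : Complex.I ^ 2 = -1 := Complex.I_sq
      unfold fcf
      linear_combination (-(4 * (Real.pi : ℂ) ^ 2 * n ^ 2 *
        ∫ x in (0 : ℝ)..1, F (x + y * Complex.I) * en n x)) * h4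
    · exact (((continuous_line (F := F) rfl hcxx hy).mul (continuous_en n)).neg).intervalIntegrable _ _
    · exact (continuous_const.mul ((continuous_line (F := F) rfl hc0 hy).mul
        (continuous_en n))).intervalIntegrable _ _

end Pool.Agent.H19.Maass
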