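import Mathlib
import Pool.Agent.H19.Maass.Four

set_option autoImplicit false

namespace Pool.Agent.H19.Maass

open MeasureTheory Set Filter Topology

/-- solutions of the radial equation in the logarithmic variable -/
structure Sol (T : ℝ) (f f1 : ℝ → ℂ) : Prop where
  d1 : ∀ r, HasDerivAt f (f1 r) r
  d2 : ∀ r, HasDerivAt f1 (((4 * Real.pi ^ 2 * Real.exp (2 * r) - T ^ 2 : ℝ) : ℂ) * f r) r

/-- normalised Fourier coefficient in the logarithmic variable -/
noncomputable def lf (F : ℂ → ℂ) (n : ℤ) (r : ℝ) : ℂ :=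
  ((Real.exp (-(r / 2)) : ℝ) : ℂ) * fcf F n (Real.exp r)

theorem exists_sol {T : ℝ} {F : ℂ → ℂ} (hF : IsEig (1 / 4 + (T : ℂ) ^ 2) F)
    (hper : ∀ z : ℂ, 0 < z.im → F (z + 1) = F z) {n : ℤ} (hn : n ^ 2 = 1) :
    ∃ f1 : ℝ → ℂ, Sol T (lf F n) f1 := by
  obtain ⟨v1, hv, hv1⟩ := fcf_ode hF hper n
  have hn' : ((n : ℂ)) ^ 2 = 1 := by exact_mod_cast hn
  have hexp : ∀ r : ℝ, HasDerivAt Real.exp (Real.exp r) r := Real.hasDerivAt_exp
  have hA : ∀ r : ℝ, HasDerivAt (fun r : ℝ => ((Real.exp (-(r / 2)) : ℝ) : ℂ))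
      (-(1 / 2) * ((Real.exp (-(r / 2)) : ℝ) : ℂ)) r := by
    intro r
    have h1 : HasDerivAt (fun r : ℝ => Real.exp (-(r / 2))) (Real.exp (-(r / 2)) * (-(1 / 2))) r :=
      (((hasDerivAt_id r).div_const 2).neg).exp
    exact h1.ofReal_comp.congr_deriv (by push_cast; ring)
  have hB : ∀ r : ℝ, HasDerivAt (fun r : ℝ => ((Real.exp (r / 2) : ℝ) : ℂ))
      ((1 / 2) * ((Real.exp (r / 2) : ℝ) : ℂ)) r := by
    intro r
    have h1 : HasDerivAt (fun r : ℝ => Real.exp (r / 2)) (Real.exp (r / 2) * (1 / 2)) r :=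
      ((hasDerivAt_id r).div_const 2).exp
    exact h1.ofReal_comp.congr_deriv (by push_cast; ring)
  have hv' : ∀ r : ℝ, HasDerivAt (fun r : ℝ => fcf F n (Real.exp r))
      (Real.exp r • v1 (Real.exp r)) r := by
    intro r
    exact (hv _ (Real.exp_pos r)).scomp r (hexp r)
  have hv1' : ∀ r : ℝ, HasDerivAt (fun r : ℝ => v1 (Real.exp r))
      (Real.exp r • ((4 * Real.pi ^ 2 * n ^ 2 - (1 / 4 + (T : ℂ) ^ 2) / (Real.exp r : ℝ) ^ 2) *
        fcf F n (Real.exp r))) r := by
    intro r
    exact (hv1 _ (Real.exp_pos r)).scomp r (hexp r)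
  have hE1 : ∀ r : ℝ, Real.exp r = Real.exp (r / 2) * Real.exp (r / 2) := fun r => by
    rw [← Real.exp_add]; ring_nf
  have hE2 : ∀ r : ℝ, Real.exp (-(r / 2)) = (Real.exp (r / 2))⁻¹ := fun r => Real.exp_neg _
  have hE3 : ∀ r : ℝ, Real.exp (2 * r) = Real.exp (r / 2) ^ 4 := fun r => by
    rw [← Real.exp_nat_mul]; congr 1; push_cast; ring
  refine ⟨fun r => -(1 / 2) * lf F n r + ((Real.exp (r / 2) : ℝ) : ℂ) * v1 (Real.exp r), ?_, ?_⟩
  · intro r
    refine ((hA r).mul (hv' r)).congr_deriv ?_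
    unfold lf
    rw [Complex.real_smul, hE2, hE1 r]
    have h0 : ((Real.exp (r / 2) : ℝ) : ℂ) ≠ 0 := by exact_mod_cast (Real.exp_pos _).ne'
    push_cast
    push_cast at h0
    field_simp
  · intro r
    have hlf : HasDerivAt (lf F n)
        (-(1 / 2) * lf F n r + ((Real.exp (r / 2) : ℝ) : ℂ) * v1 (Real.exp r)) r := by
      refine ((hA r).mul (hv' r)).congr_deriv ?_
      unfold lf
      rw [Complex.real_smul, hE2, hE1 r]
      have h0 : ((Real.exp (r / 2) : ℝ) : ℂ) ≠ 0 := by exact_mod_cast (Real.exp_pos _).ne'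
      push_cast
      push_cast at h0
      field_simp
    refine ((hlf.const_mul (-(1 / 2) : ℂ)).add ((hB r).mul (hv1' r))).congr_deriv ?_
    unfold lf
    rw [Complex.real_smul, hE2, hE3, hn']
    have h0 : ((Real.exp (r / 2) : ℝ) : ℂ) ≠ 0 := by exact_mod_cast (Real.exp_pos _).ne'
    have h1 : ((Real.exp r : ℝ) : ℂ) = ((Real.exp (r / 2) : ℝ) : ℂ) ^ 2 := by
      rw [hE1 r]; push_cast; ring
    rw [h1]
    set E : ℂ := ((Real.exp (r / 2) : ℝ) : ℂ) with hE
    set u := fcf F n (Real.exp r)
    set w := v1 (Real.exp r)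
    have h2 : (((4 * Real.pi ^ 2 * Real.exp (r / 2) ^ 4 - T ^ 2 : ℝ)) : ℂ) =
        4 * Real.pi ^ 2 * E ^ 4 - T ^ 2 := by rw [hE]; push_cast; ring
    have h3 : (((Real.exp (r / 2))⁻¹ : ℝ) : ℂ) = E⁻¹ := by rw [hE]; push_cast; rfl
    rw [h2, h3]
    field_simp
    ring

lemma en_mul_nat (k : ℤ) (d : ℕ) (x : ℝ) : en (k * d) x = en k (d * x) := by
  unfold en
  congr 1
  push_cast
  ring

lemma per_shift {U : ℂ → ℂ} (hper : ∀ z : ℂ, 0 < z.im → U (z + 1) = U z) {y : ℝ} (hy : 0 < y) :
    Function.Periodic (fun t : ℝ => U (t + y * Complex.I)) 1 := by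
  intro t
  change U (((t + 1 : ℝ) : ℂ) + y * Complex.I) = U (t + y * Complex.I)
  rw [← hper (t + y * Complex.I) (xy_mem hy)]
  congr 1
  push_cast; ring

lemma per_en (n : ℤ) : Function.Periodic (en n) 1 := by
  intro x
  rw [en_add, en_one, mul_one]

/-- Hecke relation: one divisor -/
lemma hecke_piece {U : ℂ → ℂ} (hU : ContinuousOn U UH)
    (hper : ∀ z : ℂ, 0 < z.im → U (z + 1) = U z) {a d : ℕ} (ha : 0 < a) (hd : 0 < d)
    (n : ℤ) {y : ℝ} (hy : 0 < y) :
    ∑ b ∈ Finset.range d, ∫ x in (0 : ℝ)..1,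
      U (((a : ℂ) * (x + y * Complex.I) + b) / d) * en n x =
    if (a : ℤ) ∣ n then (d : ℂ) * fcf U (n / a * d) (a * y / d) else 0 := by
  have ha' : (0 : ℝ) < a := by exact_mod_cast ha
  have hd' : (0 : ℝ) < d := by exact_mod_cast hd
  have hdc : (d : ℂ) ≠ 0 := by exact_mod_cast hd.ne'
  set η : ℝ := a * y / d with hη
  have hη0 : 0 < η := by positivity
  set g : ℝ → ℂ := fun t => U (t + η * Complex.I) with hg
  have hgc : Continuous g := continuous_line (F := U) rfl hU hη0
  have hgp : Function.Periodic g 1 := per_shift hper hη0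
  set H : ℝ → ℂ := fun s => ∑ b ∈ Finset.range d, g ((s + b) / d) with hH
  have hHc : Continuous H := by
    refine continuous_finsetSum _ fun b _ => hgc.comp ?_
    fun_prop
  have hHp : Function.Periodic H 1 := by
    intro s
    have h1 : H (s + 1) = ∑ b ∈ Finset.range d, g ((s + (b + 1 : ℕ)) / d) := by
      rw [hH]
      refine Finset.sum_congr rfl fun b _ => ?_
      congr 1
      push_cast; ring
    have h2 := Finset.sum_range_succ (fun b : ℕ => g ((s + b) / d)) d
    rw [Finset.sum_range_succ'] at h2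
    have h3 : g ((s + (d : ℕ)) / d) = g ((s + ((0 : ℕ) : ℝ)) / d) := by
      have : (s + (d : ℕ)) / d = (s + ((0 : ℕ) : ℝ)) / d + 1 := by
        field_simp
        push_cast
        ring
      rw [this, hgp]
    rw [h3] at h2
    rw [h1]
    exact add_right_cancel h2
  have hsum : ∑ b ∈ Finset.range d, ∫ x in (0 : ℝ)..1,
      U (((a : ℂ) * (x + y * Complex.I) + b) / d) * en n x =
      ∫ x in (0 : ℝ)..1, H (a * x) * en n x := by
    have h1 : ∀ (b : ℕ) (x : ℝ), U (((a : ℂ) * (x + y * Complex.I) + b) / d) =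
        g ((a * x + b) / d) := by
      intro b x
      rw [hg]
      simp only
      congr 1
      rw [hη]
      push_cast
      field_simp
      ring
    simp_rw [h1]
    rw [← intervalIntegral.integral_finsetSum]
    · refine intervalIntegral.integral_congr fun x _ => ?_
      exact (Finset.sum_mul _ _ _).symm
    · intro b _
      refine Continuous.intervalIntegrable ?_ _ _
      refine Continuous.mul (hgc.comp (by fun_prop)) (continuous_en n)
  rw [hsum]
  by_cases hdiv : (a : ℤ) ∣ n
  · rw [if_pos hdiv]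
    obtain ⟨k, hk⟩ := hdiv
    have hk' : n / (a : ℤ) = k := by
      rw [hk]; exact Int.mul_ediv_cancel_left k (by exact_mod_cast ha.ne')
    rw [hk']
    have h1 : ∀ x : ℝ, H (a * x) * en n x = (fun s => H s * en k s) (a * x) := by
      intro x
      change H (a * x) * en n x = H (a * x) * en k (a * x)
      rw [hk, mul_comm (a : ℤ) k, en_mul_nat]
    simp_rw [h1]
    rw [intervalIntegral.integral_comp_mul_left (fun s => H s * en k s) ha'.ne', mul_zero, mul_one]
    have hP : Function.Periodic (fun s => H s * en k s) 1 := fun s => by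
      simp only; rw [hHp, per_en]
    have hcont : Continuous fun s => H s * en k s := hHc.mul (continuous_en k)
    have h2 := hP.intervalIntegral_add_zsmul_eq (a : ℤ) 0 (fun _ _ => hcont.intervalIntegrable _ _)
    simp only [zsmul_eq_mul, mul_one, zero_add, Int.cast_natCast] at h2
    rw [h2]
    have h3 : ((a : ℝ)⁻¹ : ℝ) • ((a : ℂ) * ∫ x in (0 : ℝ)..1, H x * en k x) =
        ∫ x in (0 : ℝ)..1, H x * en k x := by
      rw [Complex.real_smul]
      have : (a : ℂ) ≠ 0 := by exact_mod_cast ha.ne'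
      push_cast
      field_simp
    rw [h3]
    have h4 : ∫ x in (0 : ℝ)..1, H x * en k x = ∑ b ∈ Finset.range d,
        ∫ x in (0 : ℝ)..1, g ((x + b) / d) * en k x := by
      rw [← intervalIntegral.integral_finsetSum]
      · refine intervalIntegral.integral_congr fun x _ => ?_
        exact Finset.sum_mul _ _ _
      · intro b _
        exact Continuous.intervalIntegrable ((hgc.comp (by fun_prop)).mul (continuous_en k)) _ _
    rw [h4]
    set G : ℝ → ℂ := fun t => g t * en (k * d) t with hG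
    have hGc : Continuous G := hgc.mul (continuous_en _)
    have h5 : ∀ b ∈ Finset.range d, ∫ x in (0 : ℝ)..1, g ((x + b) / d) * en k x =
        (d : ℂ) * ∫ t in ((b : ℝ) / d)..(((b + 1 : ℕ) : ℝ) / d), G t := by
      intro b _
      have h6 : ∀ x : ℝ, g ((x + b) / d) * en k x = G (x / d + b / d) := by
        intro x
        change g ((x + b) / d) * en k x = g (x / d + b / d) * en (k * d) (x / d + b / d)
        rw [add_div, en_mul_nat]
        congr 1
        have : (d : ℝ) * (x / d + b / d) = x + ((b : ℤ) : ℝ) := by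
          push_cast
          field_simp
        rw [this, en_add, en_int, mul_one]
      simp_rw [h6]
      rw [intervalIntegral.integral_comp_div_add G hd'.ne', zero_div, zero_add,
        Complex.real_smul]
      push_cast
      rw [← add_div, add_comm (1 : ℝ) b]
    rw [Finset.sum_congr rfl h5, ← Finset.mul_sum,
      intervalIntegral.sum_integral_adjacent_intervals (a := fun b : ℕ => (b : ℝ) / d)
      (fun _ _ => hGc.intervalIntegrable _ _)]
    simp only [Nat.cast_zero, zero_div]
    rw [div_self hd'.ne']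
    rfl
  · rw [if_neg hdiv]
    set J := ∫ x in (0 : ℝ)..1, H (a * x) * en n x with hJ
    set φ : ℝ → ℂ := fun x => H (a * x) * en n x with hφ
    have hφp : Function.Periodic φ 1 := by
      intro x
      rw [hφ]; simp only
      rw [per_en]
      have h1 := (hHp.nat_mul a) (a * x)
      rw [mul_one] at h1
      rw [mul_add, mul_one, h1]
    have h1 : ∫ x in (0 : ℝ)..1, φ (x + 1 / a) = J := by
      rw [intervalIntegral.integral_comp_add_right φ (1 / (a : ℝ)), zero_add, add_comm (1 : ℝ),
        hφp.intervalIntegral_add_eq (1 / (a : ℝ)) 0, zero_add]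
    have h2 : ∀ x : ℝ, φ (x + 1 / a) = en n (1 / a) * φ x := by
      intro x
      rw [hφ]; simp only
      rw [en_add]
      have : (a : ℝ) * (x + 1 / a) = a * x + 1 := by field_simp
      rw [this, hHp]
      ring
    simp_rw [h2] at h1
    rw [intervalIntegral.integral_const_mul] at h1
    have h3 : (1 - en n (1 / a)) * J = 0 := by
      rw [sub_mul, one_mul, sub_eq_zero]
      exact h1.symm
    rcases mul_eq_zero.1 h3 with h4 | h4
    · exfalso
      have h5 : en n (1 / a) = 1 := (sub_eq_zero.1 h4).symm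
      unfold en at h5
      rw [Complex.exp_eq_one_iff] at h5
      obtain ⟨m, hm⟩ := h5
      apply hdiv
      have hpi : (2 * (Real.pi : ℂ) * Complex.I) ≠ 0 := by
        simp [Real.pi_ne_zero]
      have hac : (a : ℂ) ≠ 0 := by exact_mod_cast ha.ne'
      have h6 : (n : ℂ) = -(m * a) := by
        push_cast at hm
        have h7 : (2 * (Real.pi : ℂ) * Complex.I) * (n + m * a) = 0 := by
          field_simp at hm
          linear_combination (-(2 * (Real.pi : ℂ) * Complex.I)) * hm
        rcases mul_eq_zero.1 h7 with h8 | h8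
        · exact absurd h8 hpi
        · linear_combination h8
      have h9 : n = -(m * a) := by exact_mod_cast h6
      exact ⟨-m, by rw [h9]; ring⟩
    · exact h4

/-- Parseval -/
lemma hasSum_fcf {U : ℂ → ℂ} (hU : ContinuousOn U UH) {y : ℝ} (hy : 0 < y) :
    HasSum (fun n : ℤ => ‖fcf U n y‖ ^ 2) (∫ x in (0 : ℝ)..1, ‖U (x + y * Complex.I)‖ ^ 2) := by
  have hc : Continuous fun x : ℝ => U (x + y * Complex.I) := continuous_line (F := U) rfl hU hy
  have hL : MemLp (fun x : ℝ => U (x + y * Complex.I)) 2 (volume.restrict (Ioc (0 : ℝ) 1)) := by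
    obtain ⟨C, hC⟩ := isCompact_Icc.exists_bound_of_continuousOn (s := Icc (0 : ℝ) 1)
      hc.continuousOn
    refine MemLp.of_bound hc.aestronglyMeasurable C ?_
    rw [ae_restrict_iff' measurableSet_Ioc]
    exact Eventually.of_forall fun x hx => hC x (Ioc_subset_Icc_self hx)
  have h := hasSum_sq_fourierCoeffOn (zero_lt_one (α := ℝ)) hL
  rw [sub_zero, inv_one, one_smul] at h
  convert h using 1
  funext n
  congr 2
  rw [fourierCoeffOn_eq_integral, sub_zero, div_one, one_smul]
  unfold fcf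
  refine intervalIntegral.integral_congr fun x _ => ?_
  change U (x + y * Complex.I) * en n x = (fourier (-n)) (x : AddCircle (1 : ℝ)) •
    U (x + y * Complex.I)
  rw [smul_eq_mul, mul_comm, fourier_coe_apply]
  congr 1
  unfold en
  congr 1
  push_cast
  ring

end Pool.Agent.H19.Maass
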