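import Mathlib
import Pool.Agent.H19.Maass.Coef

set_option autoImplicit false

namespace Pool.Agent.H19.Maass

open MeasureTheory Set Filter Topology
open scoped ENNReal

/-- the frequency function -/
noncomputable def qq (T r : ℝ) : ℝ := T ^ 2 - 4 * Real.pi ^ 2 * Real.exp (2 * r)

/-- energy -/
noncomputable def En (T : ℝ) (f f1 : ℝ → ℂ) (r : ℝ) : ℝ := ‖f1 r‖ ^ 2 + qq T r * ‖f r‖ ^ 2

/-- square integrable solutions -/
structure Dec (T : ℝ) (f f1 : ℝ → ℂ) : Prop extends Sol T f f1 where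
  fin : ∀ x : ℝ, ∫⁻ r in Ioi x, ENNReal.ofReal (‖f r‖ ^ 2) < ⊤

lemma hasDerivAt_qq (T r : ℝ) : HasDerivAt (qq T) (-(8 * Real.pi ^ 2 * Real.exp (2 * r))) r := by
  unfold qq
  have h1 : HasDerivAt (fun r : ℝ => Real.exp (2 * r)) (Real.exp (2 * r) * 2) r := by
    have := ((hasDerivAt_id r).const_mul (2 : ℝ)).exp
    simpa using this
  exact ((h1.const_mul (4 * Real.pi ^ 2)).const_sub (T ^ 2)).congr_deriv (by ring)

lemma continuous_qq (T : ℝ) : Continuous (qq T) := by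
  unfold qq; fun_prop

variable {T : ℝ} {f f1 : ℝ → ℂ}

lemma Sol.cont (h : Sol T f f1) : Continuous f :=
  continuous_iff_continuousAt.2 fun r => (h.d1 r).continuousAt

lemma Sol.cont1 (h : Sol T f f1) : Continuous f1 :=
  continuous_iff_continuousAt.2 fun r => (h.d2 r).continuousAt

lemma Sol.d2' (h : Sol T f f1) (r : ℝ) : HasDerivAt f1 ((-qq T r) • f r) r := by
  refine (h.d2 r).congr_deriv ?_
  rw [Complex.real_smul]
  unfold qq
  push_cast
  ring

/-- derivative of `‖f‖²` -/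
noncomputable def gd (f f1 : ℝ → ℂ) (r : ℝ) : ℝ := 2 * inner ℝ (f r) (f1 r)

lemma Sol.hasDerivAt_g (h : Sol T f f1) (r : ℝ) :
    HasDerivAt (fun r => ‖f r‖ ^ 2) (gd f f1 r) r := (h.d1 r).norm_sq

lemma Sol.hasDerivAt_gd (h : Sol T f f1) (r : ℝ) :
    HasDerivAt (gd f f1) (2 * ‖f1 r‖ ^ 2 - 2 * qq T r * ‖f r‖ ^ 2) r := by
  unfold gd
  refine (((h.d1 r).inner ℝ (h.d2' r)).const_mul 2).congr_deriv ?_
  rw [real_inner_smul_right, real_inner_self_eq_norm_sq, real_inner_self_eq_norm_sq]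
  ring

lemma Sol.hasDerivAt_En (h : Sol T f f1) (r : ℝ) :
    HasDerivAt (En T f f1) (-(8 * Real.pi ^ 2 * Real.exp (2 * r)) * ‖f r‖ ^ 2) r := by
  unfold En
  have h1 := (h.d2' r).norm_sq
  have h2 := (hasDerivAt_qq T r).mul (h.hasDerivAt_g r)
  refine (h1.add h2).congr_deriv ?_
  unfold gd
  rw [real_inner_smul_right, real_inner_comm]
  ring

lemma Sol.antitone_En (h : Sol T f f1) : Antitone (En T f f1) := by
  refine antitone_of_deriv_nonpos (fun r => (h.hasDerivAt_En r).differentiableAt) fun r => ?_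
  rw [(h.hasDerivAt_En r).deriv]
  have : 0 ≤ 8 * Real.pi ^ 2 * Real.exp (2 * r) := by positivity
  nlinarith [sq_nonneg ‖f r‖]

lemma Sol.cont_En (h : Sol T f f1) : Continuous (En T f f1) :=
  continuous_iff_continuousAt.2 fun r => (h.hasDerivAt_En r).continuousAt

lemma Sol.cont_gd (h : Sol T f f1) : Continuous (gd f f1) :=
  continuous_iff_continuousAt.2 fun r => (h.hasDerivAt_gd r).continuousAt

/-- nonincrease beyond the turning point -/
lemma Dec.gd_nonpos (h : Dec T f f1) {r1 : ℝ} (h1 : ∀ r, r1 ≤ r → qq T r ≤ 0) {r : ℝ}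
    (hr : r1 ≤ r) : gd f f1 r ≤ 0 := by
  by_contra hcon
  rw [not_le] at hcon
  set δ := gd f f1 r with hδ
  have hmono : MonotoneOn (gd f f1) (Ici r1) := by
    refine monotoneOn_of_deriv_nonneg (convex_Ici r1) h.toSol.cont_gd.continuousOn
      (fun x _ => (h.toSol.hasDerivAt_gd x).differentiableAt.differentiableWithinAt) ?_
    intro x hx
    rw [interior_Ici] at hx
    rw [(h.toSol.hasDerivAt_gd x).deriv]
    have := h1 x (le_of_lt hx)
    nlinarith [sq_nonneg ‖f1 x‖, sq_nonneg ‖f x‖]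
  have hgrow : ∀ x, r + 1 ≤ x → δ ≤ ‖f x‖ ^ 2 := by
    intro x hx
    have h2 : MonotoneOn (fun y => ‖f y‖ ^ 2 - δ * (y - r)) (Ici r) := by
      refine monotoneOn_of_deriv_nonneg (convex_Ici r)
        ((h.toSol.cont.norm.pow 2).sub (by fun_prop)).continuousOn
        (fun y _ => ((h.toSol.hasDerivAt_g y).sub
          (((hasDerivAt_id y).sub_const r).const_mul δ)).differentiableAt.differentiableWithinAt) ?_
      intro y hy
      rw [interior_Ici] at hy
      have h3 := ((h.toSol.hasDerivAt_g y).sub (((hasDerivAt_id y).sub_const r).const_mul δ)).deriv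
      have h4 : deriv (fun y => ‖f y‖ ^ 2 - δ * (y - r)) y = gd f f1 y - δ * 1 := h3
      rw [h4]
      have := hmono hr (le_trans hr (le_of_lt hy) : y ∈ Ici r1) (le_of_lt hy)
      linarith
    have h5 := h2 (mem_Ici.2 (le_refl r)) (by rw [mem_Ici]; linarith : x ∈ Ici r) (by linarith)
    simp only [sub_self, mul_zero, sub_zero] at h5
    have h6 : 0 ≤ ‖f r‖ ^ 2 := by positivity
    nlinarith
  have h7 := h.fin (r + 1)
  have h8 : ∫⁻ x in Ioi (r + 1), ENNReal.ofReal δ ≤ ∫⁻ x in Ioi (r + 1), ENNReal.ofReal (‖f x‖ ^ 2) :=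
    setLIntegral_mono' measurableSet_Ioi fun x hx =>
      ENNReal.ofReal_le_ofReal (hgrow x (le_of_lt hx))
  rw [setLIntegral_const, Real.volume_Ioi, ENNReal.mul_top (by
    rw [ne_eq, ENNReal.ofReal_eq_zero]; linarith)] at h8
  exact absurd (lt_of_le_of_lt h8 h7) (lt_irrefl _)

lemma Dec.antitoneOn_g (h : Dec T f f1) {r1 : ℝ} (h1 : ∀ r, r1 ≤ r → qq T r ≤ 0) :
    AntitoneOn (fun r => ‖f r‖ ^ 2) (Ici r1) := by
  refine antitoneOn_of_deriv_nonpos (convex_Ici r1) (h.toSol.cont.norm.pow 2).continuousOn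
    (fun x _ => (h.toSol.hasDerivAt_g x).differentiableAt.differentiableWithinAt) ?_
  intro x hx
  rw [interior_Ici] at hx
  rw [(h.toSol.hasDerivAt_g x).deriv]
  exact h.gd_nonpos h1 (le_of_lt hx)

/-- the derivative is bounded by a difference quotient -/
lemma Dec.neg_gd_le (h : Dec T f f1) {r1 : ℝ} (h1 : ∀ r, r1 ≤ r → qq T r ≤ 0) {r δ : ℝ}
    (hr : r1 ≤ r) (hδ : 0 < δ) : -gd f f1 (r + δ) ≤ ‖f r‖ ^ 2 / δ := by
  have hmono : MonotoneOn (gd f f1) (Ici r1) := by
    refine monotoneOn_of_deriv_nonneg (convex_Ici r1) h.toSol.cont_gd.continuousOn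
      (fun x _ => (h.toSol.hasDerivAt_gd x).differentiableAt.differentiableWithinAt) ?_
    intro x hx
    rw [interior_Ici] at hx
    rw [(h.toSol.hasDerivAt_gd x).deriv]
    have := h1 x (le_of_lt hx)
    nlinarith [sq_nonneg ‖f1 x‖, sq_nonneg ‖f x‖]
  obtain ⟨ξ, hξ, hξ2⟩ := exists_hasDerivAt_eq_slope (fun r => ‖f r‖ ^ 2) (gd f f1)
    (lt_add_of_pos_right r hδ) (h.toSol.cont.norm.pow 2).continuousOn
    (fun x _ => h.toSol.hasDerivAt_g x)
  have h2 := hmono (le_trans hr (le_of_lt hξ.1) : ξ ∈ Ici r1)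
    (by rw [mem_Ici]; linarith : r + δ ∈ Ici r1) (le_of_lt hξ.2)
  rw [hξ2, add_sub_cancel_left] at h2
  have h3 : 0 ≤ ‖f (r + δ)‖ ^ 2 := by positivity
  have h4 : -(‖f r‖ ^ 2 / δ) ≤ (‖f (r + δ)‖ ^ 2 - ‖f r‖ ^ 2) / δ := by
    rw [sub_div]
    have : 0 ≤ ‖f (r + δ)‖ ^ 2 / δ := by positivity
    linarith
  linarith

/-- integrating the convexity inequality -/
lemma Dec.lintegral_le (h : Dec T f f1) {r1 : ℝ} (h1 : ∀ r, r1 ≤ r → qq T r ≤ 0) {x m : ℝ}
    (hx : r1 ≤ x) (hm : 0 < m) (hq : ∀ r, x ≤ r → m ≤ -qq T r) :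
    ∫⁻ r in Ioi x, ENNReal.ofReal (‖f r‖ ^ 2) ≤ ENNReal.ofReal (-gd f f1 x / (2 * m)) := by
  -- finite intervals
  have hfin : ∀ R : ℝ, x ≤ R → ∫⁻ r in Ioc x R, ENNReal.ofReal (‖f r‖ ^ 2) ≤
      ENNReal.ofReal (-gd f f1 x / (2 * m)) := by
    intro R hR
    have hint : IntegrableOn (fun r => ‖f r‖ ^ 2) (Ioc x R) volume :=
      (h.toSol.cont.norm.pow 2).integrableOn_Icc.mono_set Ioc_subset_Icc_self
    rw [← ofReal_integral_eq_lintegral_ofReal hint
      (Eventually.of_forall fun _ => by positivity)]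
    refine ENNReal.ofReal_le_ofReal ?_
    rw [← intervalIntegral.integral_of_le hR]
    have h2 : ∫ r in x..R, (2 * ‖f1 r‖ ^ 2 - 2 * qq T r * ‖f r‖ ^ 2) = gd f f1 R - gd f f1 x := by
      refine intervalIntegral.integral_eq_sub_of_hasDerivAt
        (fun y _ => h.toSol.hasDerivAt_gd y) ?_
      refine Continuous.intervalIntegrable ?_ _ _
      have := h.toSol.cont; have := h.toSol.cont1; have := continuous_qq T
      fun_prop
    have h3 : ∫ r in x..R, 2 * m * ‖f r‖ ^ 2 ≤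
        ∫ r in x..R, (2 * ‖f1 r‖ ^ 2 - 2 * qq T r * ‖f r‖ ^ 2) := by
      refine intervalIntegral.integral_mono_on hR ?_ ?_ fun r hr => ?_
      · refine Continuous.intervalIntegrable ?_ _ _
        have := h.toSol.cont
        fun_prop
      · refine Continuous.intervalIntegrable ?_ _ _
        have := h.toSol.cont; have := h.toSol.cont1; have := continuous_qq T
        fun_prop
      · have := hq r hr.1
        nlinarith [sq_nonneg ‖f1 r‖, sq_nonneg ‖f r‖]
    rw [intervalIntegral.integral_const_mul, h2] at h3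
    have h4 := h.gd_nonpos h1 (hx.trans hR)
    rw [le_div_iff₀ (by positivity)]
    linarith
  have hmono : Monotone fun R : ℝ => Ioc x R := fun a b hab => Ioc_subset_Ioc_right hab
  have hU : ⋃ n : ℕ, Ioc x (n : ℝ) = Ioi x := by
    ext y
    simp only [mem_iUnion, mem_Ioc, mem_Ioi]
    constructor
    · rintro ⟨n, h1, _⟩; exact h1
    · intro hy
      obtain ⟨n, hn⟩ := exists_nat_ge y
      exact ⟨n, hy, hn⟩
  rw [← hU, setLIntegral_iUnion_of_directed]
  · refine iSup_le fun n => ?_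
    rcases le_total x n with hn | hn
    · exact hfin n hn
    · rw [Ioc_eq_empty (by linarith)]
      simp
  · exact directed_of_isDirected_le (fun a b hab => Ioc_subset_Ioc_right (by exact_mod_cast hab))

end Pool.Agent.H19.Maass
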