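import Mathlib
import Pool.Agent.H19.Maass.Energy

set_option autoImplicit false

namespace Pool.Agent.H19.Maass

open MeasureTheory Set Filter Topology
open scoped ENNReal

/-- tail of the square norm -/
noncomputable def tl (f : ℝ → ℂ) (x : ℝ) : ℝ≥0∞ := ∫⁻ r in Ioi x, ENNReal.ofReal (‖f r‖ ^ 2)

variable {T b : ℝ} {f f1 : ℝ → ℂ}

lemma pi_sq_lt : Real.pi ^ 2 < 9.87 := by
  have h1 := Real.pi_lt_d4
  have h2 := Real.pi_pos
  nlinarith

lemma pi_sq_gt : 9.86 < Real.pi ^ 2 := by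
  have h1 := Real.pi_gt_d4
  nlinarith

lemma qq_ge (hT : 0 < T) (hb2 : Real.exp b ≤ T / 99) {r : ℝ} (hr : r ≤ b) :
    239 / 240 * T ^ 2 ≤ qq T r := by
  unfold qq
  have h1 : Real.exp (2 * r) ≤ (T / 99) ^ 2 := by
    calc Real.exp (2 * r) ≤ Real.exp (2 * b) := Real.exp_le_exp.2 (by linarith)
      _ = Real.exp b ^ 2 := by rw [← Real.exp_nat_mul]; norm_num
      _ ≤ (T / 99) ^ 2 := pow_le_pow_left₀ (Real.exp_pos b).le hb2 2
  have h2 := pi_sq_lt
  have h3 : 0 < Real.exp (2 * r) := Real.exp_pos _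
  have h4 : Real.pi ^ 2 * Real.exp (2 * r) ≤ 9.87 * (T / 99) ^ 2 :=
    mul_le_mul h2.le h1 h3.le (by norm_num)
  have h5 : (T / 99) ^ 2 = T ^ 2 / 9801 := by ring
  rw [h5] at h4
  have h6 : 0 < T ^ 2 := by positivity
  linarith

lemma Sol.En_nonneg (h : Sol T f f1) (hT : 0 < T) (hb2 : Real.exp b ≤ T / 99) {r : ℝ}
    (hr : r ≤ b) : 0 ≤ En T f f1 r := by
  unfold En
  have h1 := qq_ge hT hb2 hr
  have h2 : 0 ≤ qq T r := le_trans (by positivity) h1
  positivity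

lemma Sol.En_le (h : Sol T f f1) (hT : 0 < T) (hb2 : Real.exp b ≤ T / 99) {r : ℝ}
    (hr : r ≤ b) : En T f f1 r ≤ 1.01 * En T f f1 b := by
  set κ : ℝ := 4 * Real.pi ^ 2 * (240 / 239) / T ^ 2 with hκ
  have hκ0 : 0 < κ := by positivity
  set H : ℝ → ℝ := fun r => En T f f1 r * Real.exp (κ * Real.exp (2 * r)) with hH
  have hexp : ∀ r : ℝ, HasDerivAt (fun r : ℝ => Real.exp (κ * Real.exp (2 * r)))
      (Real.exp (κ * Real.exp (2 * r)) * (κ * (Real.exp (2 * r) * 2))) r := by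
    intro r
    have h1 : HasDerivAt (fun r : ℝ => Real.exp (2 * r)) (Real.exp (2 * r) * 2) r := by
      have := ((hasDerivAt_id r).const_mul (2 : ℝ)).exp
      simpa using this
    exact (h1.const_mul κ).exp
  have hd : ∀ r, HasDerivAt H (-(8 * Real.pi ^ 2 * Real.exp (2 * r)) * ‖f r‖ ^ 2 *
      Real.exp (κ * Real.exp (2 * r)) + En T f f1 r *
      (Real.exp (κ * Real.exp (2 * r)) * (κ * (Real.exp (2 * r) * 2)))) r :=
    fun r => (h.hasDerivAt_En r).mul (hexp r)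
  have hmono : MonotoneOn H (Iic b) := by
    refine monotoneOn_of_deriv_nonneg (convex_Iic b)
      (fun x _ => (hd x).continuousAt.continuousWithinAt)
      (fun x _ => (hd x).differentiableAt.differentiableWithinAt) ?_
    intro x hx
    rw [interior_Iic] at hx
    rw [(hd x).deriv]
    have h1 := qq_ge hT hb2 (le_of_lt hx)
    have h2 : 239 / 240 * T ^ 2 * ‖f x‖ ^ 2 ≤ En T f f1 x := by
      unfold En
      nlinarith [sq_nonneg ‖f1 x‖, sq_nonneg ‖f x‖]
    have h3 : ‖f x‖ ^ 2 * (8 * Real.pi ^ 2) ≤ 2 * κ * En T f f1 x := by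
      have h4 : 2 * κ * (239 / 240 * T ^ 2 * ‖f x‖ ^ 2) ≤ 2 * κ * En T f f1 x := by gcongr
      have h5 : 2 * κ * (239 / 240 * T ^ 2 * ‖f x‖ ^ 2) = ‖f x‖ ^ 2 * (8 * Real.pi ^ 2) := by
        rw [hκ]
        field_simp
        ring
      linarith
    have h6 : 0 < Real.exp (2 * x) * Real.exp (κ * Real.exp (2 * x)) := by positivity
    have h7 : -(8 * Real.pi ^ 2 * Real.exp (2 * x)) * ‖f x‖ ^ 2 *
      Real.exp (κ * Real.exp (2 * x)) + En T f f1 x *
      (Real.exp (κ * Real.exp (2 * x)) * (κ * (Real.exp (2 * x) * 2))) =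
      (Real.exp (2 * x) * Real.exp (κ * Real.exp (2 * x))) *
        (2 * κ * En T f f1 x - ‖f x‖ ^ 2 * (8 * Real.pi ^ 2)) := by ring
    rw [h7]
    exact mul_nonneg h6.le (by linarith)
  have h1 := hmono (mem_Iic.2 hr) (mem_Iic.2 (le_refl b)) hr
  have hE0 := h.En_nonneg hT hb2 hr
  have hEb := h.En_nonneg hT hb2 (le_refl b)
  have h2 : En T f f1 r ≤ H r := by
    rw [hH]
    refine le_mul_of_one_le_right hE0 ?_
    rw [Real.one_le_exp_iff]
    positivity
  have h3 : H b ≤ En T f f1 b * 1.01 := by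
    rw [hH]
    refine mul_le_mul_of_nonneg_left ?_ hEb
    have h4 : κ * Real.exp (2 * b) ≤ 0.005 := by
      have h5 : Real.exp (2 * b) ≤ T ^ 2 / 9801 := by
        calc Real.exp (2 * b) = Real.exp b ^ 2 := by rw [← Real.exp_nat_mul]; norm_num
          _ ≤ (T / 99) ^ 2 := pow_le_pow_left₀ (Real.exp_pos b).le hb2 2
          _ = T ^ 2 / 9801 := by ring
      calc κ * Real.exp (2 * b) ≤ κ * (T ^ 2 / 9801) := by gcongr
        _ = 4 * Real.pi ^ 2 * (240 / 239) / 9801 := by rw [hκ]; field_simp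
        _ ≤ 0.005 := by
            have := pi_sq_lt
            norm_num
            linarith
    have h6 : 1 - 0.005 ≤ Real.exp (-(κ * Real.exp (2 * b))) := by
      have := Real.one_sub_le_exp_neg (κ * Real.exp (2 * b))
      linarith
    rw [Real.exp_neg] at h6
    have h7 : 0 < Real.exp (κ * Real.exp (2 * b)) := Real.exp_pos _
    have h8 : (1 - 0.005) * Real.exp (κ * Real.exp (2 * b)) ≤ 1 := by
      calc (1 - 0.005) * Real.exp (κ * Real.exp (2 * b))
          ≤ (Real.exp (κ * Real.exp (2 * b)))⁻¹ * Real.exp (κ * Real.exp (2 * b)) := by gcongr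
        _ = 1 := inv_mul_cancel₀ h7.ne'
    norm_num at h8 ⊢
    linarith
  linarith

lemma Sol.normsq_le (h : Sol T f f1) (hT : 0 < T) (hb2 : Real.exp b ≤ T / 99) {r : ℝ}
    (hr : r ≤ b) : T ^ 2 * ‖f r‖ ^ 2 ≤ 1.02 * En T f f1 b := by
  have h1 := h.En_le hT hb2 hr
  have h2 := qq_ge hT hb2 hr
  have h3 : 239 / 240 * T ^ 2 * ‖f r‖ ^ 2 ≤ En T f f1 r := by
    unfold En
    nlinarith [sq_nonneg ‖f1 r‖, sq_nonneg ‖f r‖]
  have h4 := h.En_nonneg hT hb2 (le_refl b)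
  nlinarith

lemma Sol.norm1sq_le (h : Sol T f f1) (hT : 0 < T) (hb2 : Real.exp b ≤ T / 99) {r : ℝ}
    (hr : r ≤ b) : ‖f1 r‖ ^ 2 ≤ 1.01 * En T f f1 b := by
  have h1 := h.En_le hT hb2 hr
  have h2 := qq_ge hT hb2 hr
  have h3 : ‖f1 r‖ ^ 2 ≤ En T f f1 r := by
    unfold En
    have : 0 ≤ qq T r * ‖f r‖ ^ 2 := mul_nonneg (le_trans (by positivity) h2) (by positivity)
    linarith
  linarith

lemma Sol.gd_le (h : Sol T f f1) (hT : 0 < T) (hb2 : Real.exp b ≤ T / 99) {r : ℝ}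
    (hr : r ≤ b) : T * |gd f f1 r| ≤ 2.1 * En T f f1 b := by
  have h1 := h.normsq_le hT hb2 hr
  have h2 := h.norm1sq_le hT hb2 hr
  have h3 : |gd f f1 r| ≤ 2 * (‖f r‖ * ‖f1 r‖) := by
    unfold gd
    rw [abs_mul, abs_of_pos (by norm_num : (0 : ℝ) < 2)]
    exact mul_le_mul_of_nonneg_left (abs_real_inner_le_norm _ _) (by norm_num)
  have h4 : 2 * (T * ‖f r‖) * ‖f1 r‖ ≤ (T * ‖f r‖) ^ 2 + ‖f1 r‖ ^ 2 := two_mul_le_add_sq _ _
  have h5 : (T * ‖f r‖) ^ 2 = T ^ 2 * ‖f r‖ ^ 2 := by ring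
  calc T * |gd f f1 r| ≤ T * (2 * (‖f r‖ * ‖f1 r‖)) := by gcongr
    _ = 2 * (T * ‖f r‖) * ‖f1 r‖ := by ring
    _ ≤ T ^ 2 * ‖f r‖ ^ 2 + ‖f1 r‖ ^ 2 := by rw [← h5]; exact h4
    _ ≤ 2.1 * En T f f1 b := by
        have := h.En_nonneg hT hb2 (le_refl b)
        linarith

/-- lower bound for the mass on `[b-1,b]` -/
lemma Sol.mass_ge (h : Sol T f f1) (hT : 100 ≤ T) (hb2 : Real.exp b ≤ T / 99) :
    En T f f1 b / 4 ≤ T ^ 2 * ∫ r in (b - 1)..b, ‖f r‖ ^ 2 := by
  have hT0 : 0 < T := by linarith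
  have hE := h.En_nonneg hT0 hb2 (le_refl b)
  have hc := h.cont
  have hc1 := h.cont1
  have hcE := h.cont_En
  have h1 : ∫ r in (b - 1)..b, (2 * ‖f1 r‖ ^ 2 - 2 * qq T r * ‖f r‖ ^ 2) =
      gd f f1 b - gd f f1 (b - 1) := by
    refine intervalIntegral.integral_eq_sub_of_hasDerivAt (fun y _ => h.hasDerivAt_gd y) ?_
    refine Continuous.intervalIntegrable ?_ _ _
    have := continuous_qq T
    fun_prop
  have h2 : ∫ r in (b - 1)..b, (2 * En T f f1 b - 4 * T ^ 2 * ‖f r‖ ^ 2) ≤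
      ∫ r in (b - 1)..b, (2 * ‖f1 r‖ ^ 2 - 2 * qq T r * ‖f r‖ ^ 2) := by
    refine intervalIntegral.integral_mono_on (by linarith) ?_ ?_ fun r hr => ?_
    · refine Continuous.intervalIntegrable ?_ _ _
      fun_prop
    · refine Continuous.intervalIntegrable ?_ _ _
      have := continuous_qq T
      fun_prop
    · have h3 := h.antitone_En hr.2
      unfold En at h3 ⊢
      have h4 : qq T r ≤ T ^ 2 := by
        unfold qq
        have : 0 < 4 * Real.pi ^ 2 * Real.exp (2 * r) := by positivity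
        linarith
      have h5 : 0 ≤ ‖f r‖ ^ 2 := by positivity
      nlinarith
  rw [h1, intervalIntegral.integral_sub (by simp) (by
    refine Continuous.intervalIntegrable ?_ _ _
    fun_prop), intervalIntegral.integral_const, intervalIntegral.integral_const_mul] at h2
  simp only [sub_sub_cancel, smul_eq_mul, one_mul] at h2
  have h6 := h.gd_le hT0 hb2 (le_refl b)
  have h7 := h.gd_le hT0 hb2 (by linarith : b - 1 ≤ b)
  have h8 : |gd f f1 b| ≤ 0.021 * En T f f1 b := by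
    have : 100 * |gd f f1 b| ≤ T * |gd f f1 b| := by gcongr
    linarith
  have h9 : |gd f f1 (b - 1)| ≤ 0.021 * En T f f1 b := by
    have : 100 * |gd f f1 (b - 1)| ≤ T * |gd f f1 (b - 1)| := by gcongr
    linarith
  have h10 := le_abs_self (gd f f1 b)
  have h11 := neg_abs_le (gd f f1 (b - 1))
  linarith

lemma tl_ge (h : Sol T f f1) (hT : 100 ≤ T) (hb2 : Real.exp b ≤ T / 99) {x : ℝ}
    (hx : x ≤ b - 1) : ENNReal.ofReal (En T f f1 b / (4 * T ^ 2)) ≤ tl f x := by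
  have hT0 : 0 < T := by linarith
  have h1 := h.mass_ge hT hb2
  have h2 : En T f f1 b / (4 * T ^ 2) ≤ ∫ r in (b - 1)..b, ‖f r‖ ^ 2 := by
    rw [div_le_iff₀ (by positivity)]
    linarith
  refine (ENNReal.ofReal_le_ofReal h2).trans ?_
  rw [intervalIntegral.integral_of_le (by linarith)]
  have hint : IntegrableOn (fun r => ‖f r‖ ^ 2) (Ioc (b - 1) b) volume :=
    (h.cont.norm.pow 2).integrableOn_Icc.mono_set Ioc_subset_Icc_self
  rw [ofReal_integral_eq_lintegral_ofReal hint (Eventually.of_forall fun _ => by positivity)]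
  unfold tl
  exact lintegral_mono_set fun r hr => lt_of_le_of_lt hx hr.1

end Pool.Agent.H19.Maass
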