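import Mathlib
import Pool.Agent.H19.Maass.Tail

set_option autoImplicit false

namespace Pool.Agent.H19.Maass

open MeasureTheory Set Filter Topology
open scoped ENNReal

/-- local frequency -/
noncomputable def sr (T r : ℝ) : ℝ := √(qq T r)

/-- phase -/
noncomputable def ph0 (T b r : ℝ) : ℝ := ∫ x in b..r, sr T x

/-- twist -/
noncomputable def tw (σ T b r : ℝ) : ℂ := Complex.exp (((-(σ * ph0 T b r) : ℝ) : ℂ) * Complex.I)

variable {T b t σ : ℝ} {f f1 : ℝ → ℂ}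

lemma continuous_sr (T : ℝ) : Continuous (sr T) := (continuous_qq T).sqrt

lemma hasDerivAt_ph0 (T b r : ℝ) : HasDerivAt (ph0 T b) (sr T r) r :=
  intervalIntegral.integral_hasDerivAt_right ((continuous_sr T).intervalIntegrable _ _)
    (continuous_sr T).aestronglyMeasurable.stronglyMeasurableAtFilter
    (continuous_sr T).continuousAt

lemma norm_tw (σ T b r : ℝ) : ‖tw σ T b r‖ = 1 := Complex.norm_exp_ofReal_mul_I _

lemma hasDerivAt_tw (σ T b r : ℝ) :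
    HasDerivAt (tw σ T b) (-((σ * sr T r : ℝ) : ℂ) * Complex.I * tw σ T b r) r := by
  have h1 : HasDerivAt (fun r => ((-(σ * ph0 T b r) : ℝ) : ℂ) * Complex.I)
      (((-(σ * sr T r) : ℝ) : ℂ) * Complex.I) r :=
    (((hasDerivAt_ph0 T b r).const_mul σ).neg.ofReal_comp).mul_const _
  have h2 := h1.cexp
  refine h2.congr_deriv ?_
  unfold tw
  push_cast
  ring

lemma continuous_tw (σ T b : ℝ) : Continuous (tw σ T b) :=
  continuous_iff_continuousAt.2 fun r => (hasDerivAt_tw σ T b r).continuousAt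

/-- derivative of the local frequency -/
noncomputable def sr1 (T r : ℝ) : ℝ := -(8 * Real.pi ^ 2 * Real.exp (2 * r)) / (2 * sr T r)

lemma hasDerivAt_sr (hT : 0 < T) (hb : Real.exp b ≤ T / 99) {r : ℝ} (hr : r ≤ b) :
    HasDerivAt (sr T) (sr1 T r) r := by
  have h1 := qq_ge hT hb hr
  have h2 : 0 < T ^ 2 := by positivity
  have h3 : qq T r ≠ 0 := by nlinarith
  exact (hasDerivAt_qq T r).sqrt h3

lemma sr_sq (hT : 0 < T) (hb : Real.exp b ≤ T / 99) {r : ℝ} (hr : r ≤ b) :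
    sr T r ^ 2 = qq T r := by
  have h1 := qq_ge hT hb hr
  have h2 : 0 < T ^ 2 := by positivity
  exact Real.sq_sqrt (by nlinarith)

lemma sr_ge (hT : 0 < T) (hb : Real.exp b ≤ T / 99) {r : ℝ} (hr : r ≤ b) :
    0.99 * T ≤ sr T r := by
  have h1 := qq_ge hT hb hr
  have h2 : 0 < T ^ 2 := by positivity
  refine Real.le_sqrt_of_sq_le ?_
  have : (0.99 * T) ^ 2 = 0.9801 * T ^ 2 := by ring
  rw [this]
  linarith

lemma sr_le (hT : 0 < T) (r : ℝ) : sr T r ≤ T := by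
  refine Real.sqrt_le_iff.2 ⟨hT.le, ?_⟩
  unfold qq
  have : 0 < 4 * Real.pi ^ 2 * Real.exp (2 * r) := by positivity
  linarith

lemma abs_sr1_le (hT : 0 < T) (hb : Real.exp b ≤ T / 99) {r : ℝ} (hr : r ≤ b) :
    |sr1 T r| ≤ 0.005 * T := by
  have h1 := sr_ge hT hb hr
  have h0 : 0 < sr T r := by nlinarith
  have h2 : Real.exp (2 * r) ≤ (T / 99) ^ 2 := by
    calc Real.exp (2 * r) ≤ Real.exp (2 * b) := Real.exp_le_exp.2 (by linarith)
      _ = Real.exp b ^ 2 := by rw [← Real.exp_nat_mul]; norm_num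
      _ ≤ (T / 99) ^ 2 := pow_le_pow_left₀ (Real.exp_pos b).le hb 2
  have h3 := pi_sq_lt
  have h4 : 0 < Real.exp (2 * r) := Real.exp_pos _
  have h5 : Real.pi ^ 2 * Real.exp (2 * r) ≤ 9.87 * (T / 99) ^ 2 :=
    mul_le_mul h3.le h2 h4.le (by norm_num)
  have h6 : (T / 99) ^ 2 = T ^ 2 / 9801 := by ring
  rw [h6] at h5
  unfold sr1
  rw [neg_div, abs_neg, abs_of_pos (by positivity), div_le_iff₀ (by positivity)]
  have h7 : T * (0.99 * T) ≤ T * sr T r := by gcongr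
  have h8 : 0 < T ^ 2 := by positivity
  nlinarith

/-- the outgoing and incoming amplitudes -/
noncomputable def amA (σ T b : ℝ) (f f1 : ℝ → ℂ) (r : ℝ) : ℂ :=
  (f1 r + ((σ * sr T r : ℝ) : ℂ) * Complex.I * f r) * tw σ T b r

noncomputable def amB (σ T b : ℝ) (f f1 : ℝ → ℂ) (r : ℝ) : ℂ :=
  (f1 r - ((σ * sr T r : ℝ) : ℂ) * Complex.I * f r) * tw σ T b r

lemma hasDerivAt_amA (hσ : σ ^ 2 = 1) (h : Sol t f f1) (hT : 0 < T) (hb : Real.exp b ≤ T / 99)
    {r : ℝ} (hr : r ≤ b) : HasDerivAt (amA σ T b f f1)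
      ((((T ^ 2 - t ^ 2 : ℝ) : ℂ) + ((σ * sr1 T r : ℝ) : ℂ) * Complex.I) * f r * tw σ T b r) r := by
  have h1 := (h.d2 r).add ((((hasDerivAt_sr hT hb hr).const_mul σ).ofReal_comp.mul_const
    Complex.I).mul (h.d1 r))
  have h2 := h1.mul (hasDerivAt_tw σ T b r)
  refine h2.congr_deriv ?_
  have h3 := sr_sq hT hb hr
  unfold qq at h3
  have h4 : ((sr T r : ℝ) : ℂ) ^ 2 = ((T ^ 2 - 4 * Real.pi ^ 2 * Real.exp (2 * r) : ℝ) : ℂ) := by
    rw [← h3]; push_cast; ring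
  have h5 : ((σ : ℝ) : ℂ) ^ 2 = 1 := by exact_mod_cast hσ
  have h6 := Complex.I_sq
  simp only [Pi.add_apply, Pi.mul_apply]
  push_cast at h4 ⊢
  linear_combination (tw σ T b r * f r) * h4 +
    (((sr T r : ℝ) : ℂ) ^ 2 * f r * tw σ T b r) * h5 -
    (((σ : ℝ) : ℂ) ^ 2 * ((sr T r : ℝ) : ℂ) ^ 2 * f r * tw σ T b r) * h6

lemma hasDerivAt_amB (hσ : σ ^ 2 = 1) (h : Sol t f f1) (hT : 0 < T) (hb : Real.exp b ≤ T / 99)
    {r : ℝ} (hr : r ≤ b) : HasDerivAt (amB σ T b f f1)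
      (-((2 * σ * sr T r : ℝ) : ℂ) * Complex.I * amB σ T b f f1 r +
        (((T ^ 2 - t ^ 2 : ℝ) : ℂ) - ((σ * sr1 T r : ℝ) : ℂ) * Complex.I) * f r *
          tw σ T b r) r := by
  have h1 := (h.d2 r).sub ((((hasDerivAt_sr hT hb hr).const_mul σ).ofReal_comp.mul_const
    Complex.I).mul (h.d1 r))
  have h2 := h1.mul (hasDerivAt_tw σ T b r)
  refine h2.congr_deriv ?_
  have h3 := sr_sq hT hb hr
  unfold qq at h3
  have h4 : ((sr T r : ℝ) : ℂ) ^ 2 = ((T ^ 2 - 4 * Real.pi ^ 2 * Real.exp (2 * r) : ℝ) : ℂ) := by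
    rw [← h3]; push_cast; ring
  have h5 : ((σ : ℝ) : ℂ) ^ 2 = 1 := by exact_mod_cast hσ
  have h6 := Complex.I_sq
  simp only [Pi.sub_apply, Pi.mul_apply, amB]
  push_cast at h4 ⊢
  linear_combination (tw σ T b r * f r) * h4 +
    (((sr T r : ℝ) : ℂ) ^ 2 * f r * tw σ T b r) * h5 -
    (((σ : ℝ) : ℂ) ^ 2 * ((sr T r : ℝ) : ℂ) ^ 2 * f r * tw σ T b r) * h6


/-- the integration factor -/
noncomputable def bt (σ T r : ℝ) : ℂ := -((σ / (2 * sr T r) : ℝ) : ℂ) * Complex.I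

lemma hasDerivAt_bt (hT : 0 < T) (hb : Real.exp b ≤ T / 99) {r : ℝ} (hr : r ≤ b) :
    HasDerivAt (bt σ T) (((σ * sr1 T r / (2 * sr T r ^ 2) : ℝ) : ℂ) * Complex.I) r := by
  have h0 := sr_ge hT hb hr
  have h00 : sr T r ≠ 0 := by
    have : 0 < sr T r := by nlinarith
    exact this.ne'
  have h1 : HasDerivAt (fun r => σ / (2 * sr T r)) (-(σ * sr1 T r / (2 * sr T r ^ 2))) r := by
    have h2 := (((hasDerivAt_sr hT hb hr).const_mul 2).inv (by positivity)).const_mul σ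
    refine (h2.congr_deriv ?_).congr_of_eventuallyEq (Eventually.of_forall fun x => ?_)
    · field_simp
    · simp only [Pi.inv_apply]
      rw [div_eq_mul_inv]
  have h2 := (h1.ofReal_comp.neg).mul_const Complex.I
  refine h2.congr_deriv ?_
  push_cast
  ring

lemma norm_sr_real {x : ℝ} : ‖((x : ℝ) : ℂ) * Complex.I‖ = |x| := by
  rw [norm_mul, Complex.norm_I, mul_one, Complex.norm_real, Real.norm_eq_abs]

/-- pointwise bounds on `[b-1,b]` -/
structure Loc (T t b e : ℝ) (f f1 : ℝ → ℂ) : Prop where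
  sol : Sol t f f1
  hT : 100 ≤ T
  ht : |t - T| ≤ 1 / 20
  hb : Real.exp b ≤ T / 100
  he : 0 ≤ e
  e2 : e ^ 2 = En t f f1 b

variable {e : ℝ}

lemma Loc.basic (h : Loc T t b e f f1) : 0 < T ∧ 0 < t ∧ 0.99 * T ≤ t ∧ Real.exp b ≤ T / 99 ∧
    Real.exp b ≤ t / 99 ∧ |T ^ 2 - t ^ 2| ≤ 0.101 * T := by
  have h1 := h.hT
  have h2 := abs_le.1 h.ht
  have h3 := h.hb
  refine ⟨by linarith, by linarith, by linarith [h2.1], by linarith, by linarith [h2.1], ?_⟩
  have h4 : T ^ 2 - t ^ 2 = -(t - T) * (T + t) := by ring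
  rw [h4, abs_mul, abs_neg, abs_of_pos (by linarith : 0 < T + t)]
  calc |t - T| * (T + t) ≤ 1 / 20 * (T + t) := by
        refine mul_le_mul_of_nonneg_right h.ht (by linarith)
    _ ≤ 0.101 * T := by linarith [h2.2]

lemma Loc.norm_f (h : Loc T t b e f f1) {r : ℝ} (hr : r ≤ b) : T * ‖f r‖ ≤ 1.03 * e := by
  obtain ⟨hT, ht, htT, hb, hbt, _⟩ := h.basic
  have h1 := h.sol.normsq_le ht hbt hr
  rw [← h.e2] at h1
  refine le_of_pow_le_pow_left₀ (n := 2) (by norm_num) (by have := h.he; positivity) ?_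
  have h2 : (T * ‖f r‖) ^ 2 ≤ (t / 0.99 * ‖f r‖) ^ 2 := by
    refine pow_le_pow_left₀ (by positivity) ?_ 2
    refine mul_le_mul_of_nonneg_right ?_ (norm_nonneg _)
    rw [le_div_iff₀ (by norm_num)]; linarith
  refine h2.trans ?_
  have h3 : (t / 0.99 * ‖f r‖) ^ 2 = (t ^ 2 * ‖f r‖ ^ 2) / 0.9801 := by ring
  rw [h3, div_le_iff₀ (by norm_num)]
  nlinarith [sq_nonneg e]

lemma Loc.norm_f1 (h : Loc T t b e f f1) {r : ℝ} (hr : r ≤ b) : ‖f1 r‖ ≤ 1.01 * e := by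
  obtain ⟨hT, ht, htT, hb, hbt, _⟩ := h.basic
  have h1 := h.sol.norm1sq_le ht hbt hr
  rw [← h.e2] at h1
  refine le_of_pow_le_pow_left₀ (n := 2) (by norm_num) (by have := h.he; positivity) ?_
  nlinarith [sq_nonneg e]

lemma Loc.norm_err (h : Loc T t b e f f1) (hσ : |σ| = 1) {r : ℝ} (hr : r ≤ b) (s : ℝ)
    (hs : |s| = 1) :
    ‖(((T ^ 2 - t ^ 2 : ℝ) : ℂ) + ((s * (σ * sr1 T r) : ℝ) : ℂ) * Complex.I) * f r * tw σ T b r‖ ≤
      0.11 * e := by
  obtain ⟨hT, ht, htT, hb, hbt, hTt⟩ := h.basic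
  rw [norm_mul, norm_tw, mul_one, norm_mul]
  have h1 : ‖((T ^ 2 - t ^ 2 : ℝ) : ℂ) + ((s * (σ * sr1 T r) : ℝ) : ℂ) * Complex.I‖ ≤
      0.106 * T := by
    refine (norm_add_le _ _).trans ?_
    rw [norm_sr_real, Complex.norm_real, Real.norm_eq_abs, abs_mul, abs_mul, hσ, hs, one_mul,
      one_mul]
    have := abs_sr1_le hT hb hr
    linarith
  have h2 := h.norm_f hr
  calc _ ≤ 0.106 * T * ‖f r‖ := mul_le_mul_of_nonneg_right h1 (norm_nonneg _)
    _ = 0.106 * (T * ‖f r‖) := by ring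
    _ ≤ 0.11 * e := by have := h.he; linarith

lemma Loc.norm_amB (h : Loc T t b e f f1) (hσ : |σ| = 1) {r : ℝ} (hr : r ≤ b) :
    ‖amB σ T b f f1 r‖ ≤ 2.04 * e := by
  obtain ⟨hT, ht, htT, hb, hbt, hTt⟩ := h.basic
  unfold amB
  rw [norm_mul, norm_tw, mul_one]
  refine (norm_sub_le _ _).trans ?_
  rw [norm_mul, norm_sr_real, abs_mul, hσ, one_mul,
    abs_of_nonneg (show 0 ≤ sr T r from Real.sqrt_nonneg _)]
  have h1 := h.norm_f hr
  have h2 := h.norm_f1 hr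
  have h3 : sr T r * ‖f r‖ ≤ T * ‖f r‖ :=
    mul_le_mul_of_nonneg_right (sr_le hT r) (norm_nonneg _)
  linarith

lemma norm_bt_le (hσ : |σ| = 1) (hT : 0 < T) (hb : Real.exp b ≤ T / 99) {r : ℝ} (hr : r ≤ b) :
    ‖bt σ T r‖ ≤ 0.51 / T := by
  have h0 := sr_ge hT hb hr
  have h00 : 0 < sr T r := by nlinarith
  unfold bt
  rw [← neg_mul_eq_neg_mul, norm_neg, norm_sr_real, abs_div, hσ, abs_of_pos (by positivity),
    div_le_div_iff₀ (by positivity) hT]
  linarith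

lemma norm_bt1_le (hσ : |σ| = 1) (hT : 0 < T) (hb : Real.exp b ≤ T / 99) {r : ℝ} (hr : r ≤ b) :
    ‖((σ * sr1 T r / (2 * sr T r ^ 2) : ℝ) : ℂ) * Complex.I‖ ≤ 0.003 / T := by
  have h0 := sr_ge hT hb hr
  have h00 : 0 < sr T r := by nlinarith
  have h1 := abs_sr1_le hT hb hr
  rw [norm_sr_real, abs_div, abs_mul, hσ, one_mul, abs_of_pos (by positivity : 0 < 2 * sr T r ^ 2),
    div_le_div_iff₀ (by positivity) hT]
  have h2 : (0.99 * T) ^ 2 ≤ sr T r ^ 2 := pow_le_pow_left₀ (by positivity) h0 2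
  have h3 : |sr1 T r| * T ≤ 0.005 * T * T := by gcongr
  nlinarith [sq_nonneg T]

/-- **The local expansion.** -/
theorem Loc.main (h : Loc T t b e f f1) (hσ : |σ| = 1) :
    ‖((2 * σ : ℝ) : ℂ) * Complex.I * (∫ r in (b - 1)..b, ((sr T r : ℝ) : ℂ) * f r * tw σ T b r) -
      amA σ T b f f1 b‖ ≤ 0.14 * e := by
  obtain ⟨hT, ht, htT, hb, hbt, hTt⟩ := h.basic
  have hσ2 : σ ^ 2 = 1 := by rw [← sq_abs, hσ, one_pow]
  have he := h.he
  set A := amA σ T b f f1 with hA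
  set B := amB σ T b f f1 with hB
  set H : ℝ → ℂ := fun r => ((r - (b - 1) : ℝ) : ℂ) * A r + bt σ T r * B r with hH
  set err : ℝ → ℂ := fun r => ((r - (b - 1) : ℝ) : ℂ) *
      ((((T ^ 2 - t ^ 2 : ℝ) : ℂ) + ((σ * sr1 T r : ℝ) : ℂ) * Complex.I) * f r * tw σ T b r) +
    ((σ * sr1 T r / (2 * sr T r ^ 2) : ℝ) : ℂ) * Complex.I * B r +
    bt σ T r * ((((T ^ 2 - t ^ 2 : ℝ) : ℂ) - ((σ * sr1 T r : ℝ) : ℂ) * Complex.I) * f r *
      tw σ T b r) with herr
  have hd : ∀ r, r ≤ b → HasDerivAt H (((2 * σ : ℝ) : ℂ) * Complex.I *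
      (((sr T r : ℝ) : ℂ) * f r * tw σ T b r) + err r) r := by
    intro r hr
    have h0 := sr_ge hT hb hr
    have h00 : sr T r ≠ 0 := by
      have : 0 < sr T r := by nlinarith
      exact this.ne'
    have h1 : HasDerivAt (fun r : ℝ => ((r - (b - 1) : ℝ) : ℂ)) 1 r := by
      have := ((hasDerivAt_id r).sub_const (b - 1)).ofReal_comp
      simpa using this
    have h2 := (h1.mul (hasDerivAt_amA hσ2 h.sol hT hb hr)).add
      ((hasDerivAt_bt (σ := σ) hT hb hr).mul (hasDerivAt_amB hσ2 h.sol hT hb hr))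
    refine h2.congr_deriv ?_
    rw [herr]
    simp only [hB]
    have h5 : ((σ : ℝ) : ℂ) ^ 2 = 1 := by exact_mod_cast hσ2
    have h6 := Complex.I_sq
    have h7 : bt σ T r * (-((2 * σ * sr T r : ℝ) : ℂ) * Complex.I * amB σ T b f f1 r) =
        -amB σ T b f f1 r := by
      unfold bt
      have h8 : ((sr T r : ℝ) : ℂ) ≠ 0 := by exact_mod_cast h00
      push_cast
      field_simp
      rw [h5, h6]
      ring
    have h9 : amA σ T b f f1 r - amB σ T b f f1 r = ((2 * σ : ℝ) : ℂ) * Complex.I *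
      (((sr T r : ℝ) : ℂ) * f r * tw σ T b r) := by
      unfold amA amB
      push_cast
      ring
    rw [mul_add (bt σ T r), h7, ← h9]
    ring
  have hcA : ContinuousOn A (Icc (b - 1) b) := fun r hr =>
    (hasDerivAt_amA hσ2 h.sol hT hb hr.2).continuousAt.continuousWithinAt
  have hcB : ContinuousOn B (Icc (b - 1) b) := fun r hr =>
    (hasDerivAt_amB hσ2 h.sol hT hb hr.2).continuousAt.continuousWithinAt
  have hsr1 : ContinuousOn (sr1 T) (Icc (b - 1) b) := by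
    unfold sr1
    refine ContinuousOn.div (by fun_prop) ?_ ?_
    · exact ((continuous_sr T).const_mul 2).continuousOn
    · intro r hr
      have h0 := sr_ge hT hb hr.2
      have h00 : 0 < sr T r := by nlinarith
      positivity
  have hsr0 : ∀ r ∈ Icc (b - 1) b, sr T r ≠ 0 := by
    intro r hr
    have h0 := sr_ge hT hb hr.2
    have h00 : 0 < sr T r := by nlinarith
    exact h00.ne'
  have hcs := continuous_sr T
  have hcf := h.sol.cont
  have hctw := continuous_tw σ T b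
  have hcbt : ContinuousOn (bt σ T) (Icc (b - 1) b) := fun r hr =>
    (hasDerivAt_bt hT hb hr.2).continuousAt.continuousWithinAt
  have hcerr : ContinuousOn err (Icc (b - 1) b) := by
    rw [herr]
    have e1 : ContinuousOn (fun r => ((σ * sr1 T r : ℝ) : ℂ) * Complex.I) (Icc (b - 1) b) :=
      (Complex.continuous_ofReal.comp_continuousOn (hsr1.const_mul σ)).mul continuousOn_const
    have e2 : ContinuousOn (fun r => ((σ * sr1 T r / (2 * sr T r ^ 2) : ℝ) : ℂ) * Complex.I)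
        (Icc (b - 1) b) := by
      refine (Complex.continuous_ofReal.comp_continuousOn ?_).mul continuousOn_const
      refine ContinuousOn.div (hsr1.const_mul σ) (by fun_prop) ?_
      intro r hr
      have := hsr0 r hr
      positivity
    have e3 : ContinuousOn (fun r : ℝ => ((r - (b - 1) : ℝ) : ℂ)) (Icc (b - 1) b) := by fun_prop
    exact ((e3.mul (((continuousOn_const.add e1).mul hcf.continuousOn).mul
      hctw.continuousOn)).add (e2.mul hcB)).add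
      (hcbt.mul (((continuousOn_const.sub e1).mul hcf.continuousOn).mul hctw.continuousOn))
  have hIcc : uIcc (b - 1) b = Icc (b - 1) b := uIcc_of_le (by linarith)
  have hcmain : Continuous fun r => ((2 * σ : ℝ) : ℂ) * Complex.I *
      (((sr T r : ℝ) : ℂ) * f r * tw σ T b r) := by fun_prop
  have hftc : ∫ r in (b - 1)..b, (((2 * σ : ℝ) : ℂ) * Complex.I *
      (((sr T r : ℝ) : ℂ) * f r * tw σ T b r) + err r) = H b - H (b - 1) := by
    refine intervalIntegral.integral_eq_sub_of_hasDerivAt (fun r hr => hd r ?_) ?_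
    · rw [hIcc] at hr; exact hr.2
    · refine ContinuousOn.intervalIntegrable ?_
      rw [hIcc]
      exact hcmain.continuousOn.add hcerr
  rw [intervalIntegral.integral_add (hcmain.intervalIntegrable _ _)
    (by refine ContinuousOn.intervalIntegrable ?_; rwa [hIcc]),
    intervalIntegral.integral_const_mul] at hftc
  have hHb : H b = A b + bt σ T b * B b := by
    rw [hH]; simp
  have hHb1 : H (b - 1) = bt σ T (b - 1) * B (b - 1) := by
    rw [hH]; simp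
  have hmain : ((2 * σ : ℝ) : ℂ) * Complex.I *
      (∫ r in (b - 1)..b, ((sr T r : ℝ) : ℂ) * f r * tw σ T b r) - A b =
      bt σ T b * B b - bt σ T (b - 1) * B (b - 1) - ∫ r in (b - 1)..b, err r := by
    rw [hHb, hHb1] at hftc
    linear_combination hftc
  rw [hmain]
  have hTi : 1 / T ≤ 1 / 100 := one_div_le_one_div_of_le (by norm_num) h.hT
  have hTi0 : 0 < 1 / T := by positivity
  have hbB : ∀ r, r ≤ b → ‖bt σ T r * B r‖ ≤ 0.0105 * e := by
    intro r hr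
    rw [norm_mul]
    calc ‖bt σ T r‖ * ‖B r‖ ≤ 0.51 / T * (2.04 * e) :=
          mul_le_mul (norm_bt_le hσ hT hb hr) (h.norm_amB hσ hr) (norm_nonneg _) (by positivity)
      _ = 1.0404 * e * (1 / T) := by ring
      _ ≤ 1.0404 * e * (1 / 100) := by gcongr
      _ ≤ 0.0105 * e := by linarith
  have herrb : ∀ r ∈ Icc (b - 1) b, ‖err r‖ ≤ 0.112 * e := by
    intro r hr
    rw [herr]
    simp only
    have e1 := h.norm_err hσ hr.2 1 (by simp)
    have e2 := h.norm_err hσ hr.2 (-1) (by simp)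
    rw [one_mul] at e1
    rw [neg_one_mul] at e2
    have e2' : ((((T ^ 2 - t ^ 2 : ℝ) : ℂ)) + ((-(σ * sr1 T r) : ℝ) : ℂ) * Complex.I) =
        (((T ^ 2 - t ^ 2 : ℝ) : ℂ) - ((σ * sr1 T r : ℝ) : ℂ) * Complex.I) := by
      push_cast; ring
    rw [e2'] at e2
    have e3 : ‖((r - (b - 1) : ℝ) : ℂ)‖ ≤ 1 := by
      rw [Complex.norm_real, Real.norm_eq_abs, abs_le]
      constructor <;> linarith [hr.1, hr.2]
    refine (norm_add₃_le).trans ?_
    rw [norm_mul, norm_mul (bt σ T r)]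
    have e4 : ‖((r - (b - 1) : ℝ) : ℂ)‖ * ‖(((T ^ 2 - t ^ 2 : ℝ) : ℂ) +
        ((σ * sr1 T r : ℝ) : ℂ) * Complex.I) * f r * tw σ T b r‖ ≤ 1 * (0.11 * e) :=
      mul_le_mul e3 e1 (norm_nonneg _) (by norm_num)
    have e5 : ‖((σ * sr1 T r / (2 * sr T r ^ 2) : ℝ) : ℂ) * Complex.I * B r‖ ≤
        0.0001 * e := by
      rw [norm_mul]
      calc _ ≤ 0.003 / T * (2.04 * e) :=
            mul_le_mul (norm_bt1_le hσ hT hb hr.2) (h.norm_amB hσ hr.2) (norm_nonneg _)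
              (by positivity)
        _ = 0.00612 * e * (1 / T) := by ring
        _ ≤ 0.00612 * e * (1 / 100) := by gcongr
        _ ≤ _ := by linarith
    have e6 : ‖bt σ T r‖ * ‖(((T ^ 2 - t ^ 2 : ℝ) : ℂ) - ((σ * sr1 T r : ℝ) : ℂ) * Complex.I) *
        f r * tw σ T b r‖ ≤ 0.0006 * e := by
      calc _ ≤ 0.51 / T * (0.11 * e) :=
            mul_le_mul (norm_bt_le hσ hT hb hr.2) e2 (norm_nonneg _) (by positivity)
        _ = 0.0561 * e * (1 / T) := by ring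
        _ ≤ 0.0561 * e * (1 / 100) := by gcongr
        _ ≤ _ := by linarith
    linarith
  have hint : ‖∫ r in (b - 1)..b, err r‖ ≤ 0.112 * e := by
    have := intervalIntegral.norm_integral_le_of_norm_le_const (a := b - 1) (b := b) (f := err)
      (C := 0.112 * e) (fun r hr => herrb r (by
        rw [uIoc_of_le (by linarith)] at hr
        exact ⟨hr.1.le, hr.2⟩))
    simpa using this
  calc ‖bt σ T b * B b - bt σ T (b - 1) * B (b - 1) - ∫ r in (b - 1)..b, err r‖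
      ≤ ‖bt σ T b * B b‖ + ‖bt σ T (b - 1) * B (b - 1)‖ + ‖∫ r in (b - 1)..b, err r‖ :=
        (norm_sub_le _ _).trans (add_le_add_left (norm_sub_le _ _) _)
    _ ≤ 0.0105 * e + 0.0105 * e + 0.112 * e :=
        add_le_add (add_le_add (hbB b le_rfl) (hbB (b - 1) (by linarith))) hint
    _ ≤ 0.14 * e := by linarith

/-- **Correlation with the two test functions.** -/
theorem corr (h : Sol t f f1) (hT : 100 ≤ T) (ht : |t - T| ≤ 1 / 20)
    (hb : Real.exp b ≤ T / 100) :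
    En t f f1 b ≤ 5 * (‖∫ r in (b - 1)..b, ((sr T r : ℝ) : ℂ) * f r * tw 1 T b r‖ ^ 2 +
      ‖∫ r in (b - 1)..b, ((sr T r : ℝ) : ℂ) * f r * tw (-1) T b r‖ ^ 2) := by
  have ht2 := abs_le.1 ht
  have hbt : Real.exp b ≤ t / 99 := by linarith [ht2.1]
  have ht0 : 0 < t := by linarith [ht2.1]
  have hE := h.En_nonneg ht0 hbt (le_refl b)
  set e := √(En t f f1 b) with he
  have he2 : e ^ 2 = En t f f1 b := Real.sq_sqrt hE
  have hL : Loc T t b e f f1 := ⟨h, hT, ht, hb, Real.sqrt_nonneg _, he2⟩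
  obtain ⟨hT0, _, htT, hb', _, hTt⟩ := hL.basic
  have m1 := hL.main (σ := 1) (by simp)
  have m2 := hL.main (σ := -1) (by simp)
  set I1 := ∫ r in (b - 1)..b, ((sr T r : ℝ) : ℂ) * f r * tw 1 T b r with hI1
  set I2 := ∫ r in (b - 1)..b, ((sr T r : ℝ) : ℂ) * f r * tw (-1) T b r with hI2
  have he0 : 0 ≤ e := Real.sqrt_nonneg _
  have key : ∀ (σ : ℝ) (I : ℂ), |σ| = 1 →
      ‖((2 * σ : ℝ) : ℂ) * Complex.I * I - amA σ T b f f1 b‖ ≤ 0.14 * e →
      ‖amA σ T b f f1 b‖ ^ 2 ≤ 8 * ‖I‖ ^ 2 + 0.04 * e ^ 2 := by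
    intro σ I hσ hm
    have h1 : ‖((2 * σ : ℝ) : ℂ) * Complex.I * I‖ = 2 * ‖I‖ := by
      rw [norm_mul, norm_sr_real, abs_mul, hσ, mul_one, abs_of_pos (by norm_num)]
    have h2 : ‖amA σ T b f f1 b‖ ≤ 2 * ‖I‖ + 0.14 * e := by
      have := norm_le_norm_add_norm_sub (((2 * σ : ℝ) : ℂ) * Complex.I * I) (amA σ T b f f1 b)
      rw [h1, norm_sub_rev] at this
      rw [norm_sub_rev] at hm
      linarith
    have h3 : ‖amA σ T b f f1 b‖ ^ 2 ≤ (2 * ‖I‖ + 0.14 * e) ^ 2 :=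
      pow_le_pow_left₀ (norm_nonneg _) h2 2
    nlinarith [sq_nonneg (2 * ‖I‖ - 0.14 * e)]
  have k1 := key 1 I1 (by simp) m1
  have k2 := key (-1) I2 (by simp) m2
  -- parallelogram
  have hpar : ‖amA 1 T b f f1 b‖ ^ 2 + ‖amA (-1) T b f f1 b‖ ^ 2 =
      2 * (‖f1 b‖ ^ 2 + qq T b * ‖f b‖ ^ 2) := by
    unfold amA
    rw [norm_mul, norm_tw, norm_mul, norm_tw, mul_one, mul_one]
    have h1 := parallelogram_law_with_norm ℝ (f1 b) (((sr T b : ℝ) : ℂ) * Complex.I * f b)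
    have h2 : ‖((sr T b : ℝ) : ℂ) * Complex.I * f b‖ ^ 2 = qq T b * ‖f b‖ ^ 2 := by
      rw [norm_mul, norm_sr_real, mul_pow, sq_abs, sr_sq hT0 hb' le_rfl]
    have h3 : f1 b + ((1 * sr T b : ℝ) : ℂ) * Complex.I * f b =
        f1 b + ((sr T b : ℝ) : ℂ) * Complex.I * f b := by rw [one_mul]
    have h4 : f1 b + ((-1 * sr T b : ℝ) : ℂ) * Complex.I * f b =
        f1 b - ((sr T b : ℝ) : ℂ) * Complex.I * f b := by push_cast; ring
    rw [h3, h4, ← h2]
    linarith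
  have hE2 : En t f f1 b - 0.0011 * e ^ 2 ≤ ‖f1 b‖ ^ 2 + qq T b * ‖f b‖ ^ 2 := by
    have h1 : ‖f1 b‖ ^ 2 + qq T b * ‖f b‖ ^ 2 = En t f f1 b + (T ^ 2 - t ^ 2) * ‖f b‖ ^ 2 := by
      unfold En qq; ring
    rw [h1]
    have h2 := neg_abs_le (T ^ 2 - t ^ 2)
    have h3 : |T ^ 2 - t ^ 2| * ‖f b‖ ^ 2 ≤ 0.0011 * e ^ 2 := by
      have h4 := hL.norm_f le_rfl
      have h5 : (T * ‖f b‖) ^ 2 ≤ (1.03 * e) ^ 2 := pow_le_pow_left₀ (by positivity) h4 2
      have h6 : |T ^ 2 - t ^ 2| * ‖f b‖ ^ 2 ≤ 0.101 * T * ‖f b‖ ^ 2 := by gcongr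
      have h7 : T * (0.101 * T * ‖f b‖ ^ 2) ≤ 0.108 * e ^ 2 := by
        have : T * (0.101 * T * ‖f b‖ ^ 2) = 0.101 * (T * ‖f b‖) ^ 2 := by ring
        rw [this]
        nlinarith [sq_nonneg e]
      have h8 : 100 * (0.101 * T * ‖f b‖ ^ 2) ≤ T * (0.101 * T * ‖f b‖ ^ 2) := by
        gcongr
      nlinarith
    have h4 : -|T ^ 2 - t ^ 2| * ‖f b‖ ^ 2 ≤ (T ^ 2 - t ^ 2) * ‖f b‖ ^ 2 :=
      mul_le_mul_of_nonneg_right h2 (by positivity)
    linarith
  nlinarith [sq_nonneg e]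

end Pool.Agent.H19.Maass
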