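import Mathlib
import Pool.Agent.H19.Maass.Horo

set_option autoImplicit false

namespace Pool.Agent.H19.Maass

open MeasureTheory Set Filter Topology UpperHalfPlane
open scoped MatrixGroups UpperHalfPlane ENNReal

lemma continuousOn_ofComplex : ContinuousOn (fun z : ℂ => (ofComplex z : ℍ)) UH := by
  have h := ofComplex.continuousOn
  refine h.mono ?_
  intro z hz
  change z ∈ (isOpenEmbedding_coe.toOpenPartialHomeomorph _).target
  simp only [IsOpenEmbedding.toOpenPartialHomeomorph_target]
  exact ⟨⟨z, hz⟩, rfl⟩

/-- integration of nonnegative functions in horocyclic coordinates -/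
theorem horo_l {f : ℍ → ℝ≥0∞} (hf : Measurable f) :
    ∫⁻ w : ℍ, f w = ∫⁻ a : ℝ, ENNReal.ofReal (Real.exp (-a)) * ∫⁻ x : ℝ, f (pt x a) := by
  have hmeas : Measurable fun z : ℍ => ((1 / NNReal.mk z.im z.im_pos.le : NNReal) ^ 2) := by
    refine Measurable.pow_const ?_ _
    refine Measurable.div measurable_const ?_
    refine Continuous.measurable ?_
    exact continuous_im.subtype_mk _
  rw [UpperHalfPlane.volume_def]
  rw [lintegral_withDensity_eq_lintegral_mul _ hmeas.coe_nnreal_ennreal hf]
  set F : ℂ → ℝ≥0∞ := fun z => ENNReal.ofReal (1 / z.im ^ 2) * f (ofComplex z) with hF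
  have h1 : ∀ w : ℍ, ((fun z : ℍ => (((1 / NNReal.mk z.im z.im_pos.le : NNReal) ^ 2 : NNReal) :
      ℝ≥0∞)) * f) w = F w := by
    intro w
    rw [hF]
    simp only [Pi.mul_apply]
    rw [ofComplex_apply]
    congr 1
    rw [← ENNReal.ofReal_coe_nnreal]
    congr 1
    simp
  have hmp : MeasurePreserving UpperHalfPlane.coe (volume.comap UpperHalfPlane.coe)
      (volume.restrict (.range UpperHalfPlane.coe)) :=
    ⟨measurable_coe, by rw [measurableEmbedding_coe.map_comap]⟩
  have hrange : Set.range UpperHalfPlane.coe = UH := by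
    ext z
    constructor
    · rintro ⟨w, rfl⟩; exact w.im_pos
    · intro hz; exact ⟨⟨z, hz⟩, rfl⟩
  have h2 : ∫⁻ a : ℍ, ((fun z : ℍ => (((1 / NNReal.mk z.im z.im_pos.le : NNReal) ^ 2 : NNReal) :
      ℝ≥0∞)) * f) a ∂(volume.comap UpperHalfPlane.coe) = ∫⁻ z in UH, F z := by
    rw [← hrange, ← hmp.lintegral_comp_emb measurableEmbedding_coe F]
    exact lintegral_congr fun w => h1 w
  rw [h2]
  have hset : Complex.measurableEquivRealProd.symm ⁻¹' UH = (univ : Set ℝ) ×ˢ Ioi (0 : ℝ) := by
    ext ⟨x, y⟩
    simp [Complex.measurableEquivRealProd, UH]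
  have hmp2 := (Complex.volume_preserving_equiv_real_prod.symm)
  rw [← hmp2.setLIntegral_comp_preimage_emb
    Complex.measurableEquivRealProd.symm.measurableEmbedding, hset]
  have hFm : AEMeasurable F (volume.restrict UH) := by
    refine AEMeasurable.mul ?_ ?_
    · exact (ENNReal.measurable_ofReal.comp (measurable_const.div
        (Complex.measurable_im.pow_const 2))).aemeasurable
    · exact hf.comp_aemeasurable (continuousOn_ofComplex.aemeasurable isOpen_UH.measurableSet)
  have hGm : AEMeasurable (fun p : ℝ × ℝ => F (Complex.measurableEquivRealProd.symm p))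
      (volume.restrict ((univ : Set ℝ) ×ˢ Ioi (0 : ℝ))) := by
    rw [← hset]
    have hq : MeasurePreserving Complex.measurableEquivRealProd.symm
        (volume.restrict (Complex.measurableEquivRealProd.symm ⁻¹' UH)) (volume.restrict UH) :=
      hmp2.restrict_preimage_emb Complex.measurableEquivRealProd.symm.measurableEmbedding UH
    exact hFm.comp_quasiMeasurePreserving hq.quasiMeasurePreserving
  rw [Measure.volume_eq_prod, ← Measure.prod_restrict] at hGm ⊢
  rw [lintegral_prod_symm _ hGm]
  have himg : Real.exp '' univ = Ioi (0 : ℝ) := by rw [image_univ, Real.range_exp]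
  rw [← himg, lintegral_image_eq_lintegral_abs_deriv_mul MeasurableSet.univ
    (fun x _ => (Real.hasDerivAt_exp x).hasDerivWithinAt) Real.exp_injective.injOn]
  rw [setLIntegral_univ]
  refine lintegral_congr fun a => ?_
  simp only [Measure.restrict_univ]
  have h3 : ∀ x : ℝ, F (Complex.measurableEquivRealProd.symm (x, Real.exp a)) =
      ENNReal.ofReal (1 / Real.exp a ^ 2) * f (pt x a) := by
    intro x
    have h4 : Complex.measurableEquivRealProd.symm (x, Real.exp a) = ((pt x a : ℍ) : ℂ) := by
      apply Complex.ext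
      · simp [Complex.measurableEquivRealProd, pt, Complex.equivRealProdCLM_symm_apply]
      · simp only [Complex.measurableEquivRealProd, pt]
        simp [-Complex.ofReal_exp, Complex.equivRealProdCLM_symm_apply]
    rw [h4, hF]
    simp only
    rw [ofComplex_apply]
    rfl
  simp_rw [h3]
  have hfx : Measurable fun x : ℝ => f (pt x a) := by
    refine hf.comp (Continuous.measurable ?_)
    exact UpperHalfPlane.isEmbedding_coe.continuous_iff.2 (by
      change Continuous fun x : ℝ => ((pt x a : ℍ) : ℂ)
      have : (fun x : ℝ => ((pt x a : ℍ) : ℂ)) = fun x : ℝ => (x : ℂ) + (Real.exp a : ℝ) * Complex.I := by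
        funext x
        apply Complex.ext <;> simp [pt, -Complex.ofReal_exp]
      rw [this]
      fun_prop)
  rw [lintegral_const_mul _ hfx, ← mul_assoc, ← ENNReal.ofReal_mul (abs_nonneg _),
    abs_of_pos (Real.exp_pos a)]
  congr 2
  rw [Real.exp_neg]
  have := Real.exp_pos a
  field_simp

end Pool.Agent.H19.Maass
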