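import Mathlib
import Pool.Agent.H19.Maass.Coef
import Pool.Agent.H19.Maass.Hyp

set_option autoImplicit false

namespace Pool.Agent.H19.Maass

open MeasureTheory Set Filter Topology UpperHalfPlane

/-- A cuspidal Hecke-Maass form. -/
structure CFrm (T : ℝ) (U : ℂ → ℂ) (c : ℕ → ℂ) : Prop extends Frm T U c where
  cusp : ∀ y : ℝ, 0 < y → fcf U 0 y = 0
  per : ∀ z : ℂ, 0 < z.im → U (z + 1) = U z
  eig' : IsEig (1 / 4 + (T : ℂ) ^ 2) U

variable {T : ℝ} {U : ℂ → ℂ} {c : ℕ → ℂ}

lemma CFrm.cont (h : CFrm T U c) : ContinuousOn U UH := h.eig.smooth.continuousOn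

/-- Hecke operators on Fourier coefficients -/
lemma CFrm.hecke_fcf (h : CFrm T U c) {m : ℕ} (hm : 1 ≤ m) (n : ℤ) {y : ℝ} (hy : 0 < y) :
    c m * fcf U n y = ∑ d ∈ m.divisors,
      if ((m / d : ℕ) : ℤ) ∣ n then (d : ℂ) * fcf U (n / (m / d : ℕ) * d) ((m / d : ℕ) * y / d)
      else 0 := by
  have h1 : c m * fcf U n y = ∫ x in (0 : ℝ)..1, ∑ d ∈ m.divisors, ∑ b ∈ Finset.range d,
      U ((((m / d : ℕ) : ℂ) * (x + y * Complex.I) + (b : ℂ)) / (d : ℂ)) * en n x := by
    unfold fcf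
    rw [← intervalIntegral.integral_const_mul]
    refine intervalIntegral.integral_congr fun x _ => ?_
    change c m * (U (x + y * Complex.I) * en n x) = ∑ d ∈ m.divisors, ∑ b ∈ Finset.range d,
      U ((((m / d : ℕ) : ℂ) * (x + y * Complex.I) + (b : ℂ)) / (d : ℂ)) * en n x
    rw [← mul_assoc, ← h.heckeC m hm _ (xy_mem hy), Finset.sum_mul]
    exact Finset.sum_congr rfl fun d _ => Finset.sum_mul _ _ _
  have hcont : ∀ d ∈ m.divisors, ∀ b : ℕ, Continuous fun x : ℝ =>
      U ((((m / d : ℕ) : ℂ) * (x + y * Complex.I) + (b : ℂ)) / (d : ℂ)) * en n x := by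
    intro d hd b
    rw [Nat.mem_divisors] at hd
    have hd0 : 0 < d := Nat.pos_of_dvd_of_pos hd.1 hm
    have ha0 : 0 < m / d := Nat.div_pos (Nat.le_of_dvd hm hd.1) hd0
    refine Continuous.mul ?_ (continuous_en n)
    have h2 : Continuous fun x : ℝ => (((m / d : ℕ) : ℂ) * (x + y * Complex.I) + (b : ℂ)) / (d : ℂ) := by
      fun_prop
    refine h.cont.comp_continuous h2 fun x => ?_
    change 0 < ((((m / d : ℕ) : ℂ) * (x + y * Complex.I) + (b : ℂ)) / (d : ℂ)).im
    rw [Complex.div_natCast_im]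
    have h3 : ((((m / d : ℕ) : ℂ)) * (x + y * Complex.I) + (b : ℂ)).im = ((m / d : ℕ) : ℝ) * y := by
      simp
    rw [h3]
    have : (0 : ℝ) < (m / d : ℕ) := by exact_mod_cast ha0
    have : (0 : ℝ) < d := by exact_mod_cast hd0
    positivity
  rw [h1, intervalIntegral.integral_finsetSum]
  · refine Finset.sum_congr rfl fun d hd => ?_
    rw [intervalIntegral.integral_finsetSum]
    · rw [Nat.mem_divisors] at hd
      have hd0 : 0 < d := Nat.pos_of_dvd_of_pos hd.1 hm
      have ha0 : 0 < m / d := Nat.div_pos (Nat.le_of_dvd hm hd.1) hd0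
      exact hecke_piece h.cont h.per ha0 hd0 n hy
    · exact fun b _ => (hcont d hd b).intervalIntegrable _ _
  · intro d hd
    exact (continuous_finsetSum _ fun b _ => hcont d hd b).intervalIntegrable _ _

lemma sq_eq_one_iff_of_side {e : ℤ} (he : e ^ 2 = 1) : e = 1 ∨ e = -1 := by
  have : (e - 1) * (e + 1) = 0 := by ring_nf; rw [he]; norm_num
  rcases mul_eq_zero.1 this with h | h
  · left; omega
  · right; omega

/-- the coefficient of index `± m` in terms of the one of index `± 1` -/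
lemma CFrm.fcf_mul (h : CFrm T U c) {e : ℤ} (he : e ^ 2 = 1) {m : ℕ} (hm : 1 ≤ m) {y : ℝ}
    (hy : 0 < y) : fcf U (e * m) y = c m / m * fcf U e (m * y) := by
  have hm0 : (0 : ℝ) < m := by exact_mod_cast hm
  have hmc : (m : ℂ) ≠ 0 := by exact_mod_cast hm0.ne'
  have he' : e = 1 ∨ e = -1 := sq_eq_one_iff_of_side he
  have h1 := h.hecke_fcf hm e (y := m * y) (by positivity)
  rw [Finset.sum_eq_single m] at h1
  · rw [Nat.div_self hm] at h1
    have h2 : (((1 : ℕ) : ℤ)) ∣ e := ⟨e, by simp⟩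
    rw [if_pos h2] at h1
    have h3 : e / ((1 : ℕ) : ℤ) * m = e * m := by simp
    have h4 : ((1 : ℕ) : ℝ) * (m * y) / m = y := by
      push_cast; field_simp
    rw [h3, h4] at h1
    field_simp
    linear_combination -h1
  · intro d hd hdm
    rw [if_neg]
    intro hdvd
    rw [Nat.mem_divisors] at hd
    have h5 : ((m / d : ℕ) : ℤ) ∣ 1 := by
      rcases he' with rfl | rfl
      · exact hdvd
      · exact (dvd_neg).1 hdvd
    have h6 : (m / d : ℕ) ∣ 1 := by exact_mod_cast h5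
    have h7 : m / d = 1 := Nat.dvd_one.1 h6
    have h8 := Nat.div_mul_cancel hd.1
    rw [h7, one_mul] at h8
    exact hdm h8
  · intro hmm
    exact absurd (Nat.mem_divisors.2 ⟨dvd_rfl, by omega⟩) hmm

/-- some first coefficient does not vanish -/
lemma CFrm.exists_ne (h : CFrm T U c) : ∃ e : ℤ, e ^ 2 = 1 ∧ ∃ y : ℝ, 0 < y ∧ fcf U e y ≠ 0 := by
  obtain ⟨z, hz⟩ : ∃ z : ℍ, U z ≠ 0 := by
    by_contra hcon
    push Not at hcon
    have h1 := h.nrm
    simp_rw [hcon] at h1
    simp at h1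
  have hy := z.im_pos
  have hc : Continuous fun x : ℝ => U (x + z.im * Complex.I) :=
    continuous_line (F := U) rfl h.cont hy
  have hper := per_shift h.per hy
  have hpos : 0 < ∫ x in (0 : ℝ)..1, ‖U (x + z.im * Complex.I)‖ ^ 2 := by
    have hp2 : Function.Periodic (fun x : ℝ => ‖U (x + z.im * Complex.I)‖ ^ 2) 1 := fun x => by
      have := hper x
      simp only at this ⊢
      rw [this]
    have h2 := hp2.intervalIntegral_add_eq 0 (z.re - 1 / 2)
    rw [zero_add] at h2
    rw [h2]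
    refine intervalIntegral.integral_pos (by linarith) (hc.norm.pow 2).continuousOn
      (fun x _ => by positivity) ⟨z.re, ⟨by linarith, by linarith⟩, ?_⟩
    have h3 : ((z.re : ℝ) : ℂ) + z.im * Complex.I = z := by
      exact Complex.re_add_im (z : ℂ)
    rw [h3]
    positivity
  have hsum := hasSum_fcf h.cont hy
  obtain ⟨n, hn⟩ : ∃ n : ℤ, fcf U n z.im ≠ 0 := by
    by_contra hcon
    push Not at hcon
    have h4 : ∀ n : ℤ, ‖fcf U n z.im‖ ^ 2 = 0 := fun n => by rw [hcon n]; simp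
    simp_rw [h4] at hsum
    have := hsum.unique hasSum_zero
    linarith
  have hn0 : n ≠ 0 := by
    rintro rfl
    exact hn (h.cusp _ hy)
  have hk : 1 ≤ n.natAbs := Int.natAbs_pos.2 hn0
  have hsign : n = n.sign * (n.natAbs : ℤ) := (Int.sign_mul_natAbs n).symm
  have hs2 : n.sign ^ 2 = 1 := by
    rcases lt_or_gt_of_ne hn0 with h5 | h5
    · rw [Int.sign_eq_neg_one_of_neg h5]; norm_num
    · rw [Int.sign_eq_one_of_pos h5]; norm_num
  refine ⟨n.sign, hs2, n.natAbs * z.im, ?_, ?_⟩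
  · have : (0 : ℝ) < n.natAbs := by exact_mod_cast hk
    positivity
  · intro h6
    apply hn
    rw [hsign, h.fcf_mul hs2 hk hy, h6, mul_zero]

/-- the multiplicativity relation of Hecke eigenvalues -/
theorem CFrm.mult (h : CFrm T U c) {m k : ℕ} (hm : 1 ≤ m) (hk : 1 ≤ k) :
    c m * c k = ∑ a ∈ m.divisors.filter (fun a => a ∣ k), (a : ℂ) * c (m / a * (k / a)) := by
  obtain ⟨e, he, y, hy, hne⟩ := h.exists_ne
  have hk0 : (0 : ℝ) < k := by exact_mod_cast hk
  have hkc : (k : ℂ) ≠ 0 := by exact_mod_cast hk0.ne'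
  have h1 := h.hecke_fcf hm (e * k) (y := y / k) (by positivity)
  rw [h.fcf_mul he hk (by positivity)] at h1
  have h2 : (k : ℝ) * (y / k) = y := by field_simp
  rw [h2] at h1
  have h3 : ∑ d ∈ m.divisors,
      (if ((m / d : ℕ) : ℤ) ∣ e * k then (d : ℂ) * fcf U (e * k / (m / d : ℕ) * d)
        ((m / d : ℕ) * (y / k) / d) else 0) =
      ∑ a ∈ m.divisors, (if a ∣ k then (a : ℂ) * c (m / a * (k / a)) / k * fcf U e y else 0) := by
    rw [← Nat.sum_div_divisors]
    refine Finset.sum_congr rfl fun a ha => ?_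
    rw [Nat.mem_divisors] at ha
    have ha0 : 0 < a := Nat.pos_of_dvd_of_pos ha.1 hm
    have had : m / (m / a) = a := Nat.div_div_self ha.1 (by omega)
    rw [had]
    have he' : e = 1 ∨ e = -1 := sq_eq_one_iff_of_side he
    have hiff : ((a : ℕ) : ℤ) ∣ e * k ↔ a ∣ k := by
      rcases he' with rfl | rfl
      · rw [one_mul]; exact Int.natCast_dvd_natCast
      · rw [neg_one_mul, dvd_neg]; exact Int.natCast_dvd_natCast
    by_cases hak : a ∣ k
    · rw [if_pos (hiff.2 hak), if_pos hak]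
      obtain ⟨l, rfl⟩ := hak
      obtain ⟨b, rfl⟩ := ha.1
      have hl0 : 0 < l := Nat.pos_of_ne_zero fun h => by rw [h, mul_zero] at hk; omega
      have hb0 : 0 < b := Nat.pos_of_ne_zero fun h => by rw [h, mul_zero] at hm; omega
      have e1 : e * ((a * l : ℕ) : ℤ) / (a : ℤ) = e * l := by
        push_cast
        rw [show e * ((a : ℤ) * l) = (a : ℤ) * (e * l) by ring]
        exact Int.mul_ediv_cancel_left _ (by exact_mod_cast ha0.ne')
      have e2 : a * b / a = b := Nat.mul_div_cancel_left b ha0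
      have e3 : a * l / a = l := Nat.mul_div_cancel_left l ha0
      rw [e1, e2, e3]
      have e4 : e * (l : ℤ) * (b : ℤ) = e * ((b * l : ℕ) : ℤ) := by push_cast; ring
      rw [e4]
      have hb0' : (0 : ℝ) < b := by exact_mod_cast hb0
      have hl0' : (0 : ℝ) < l := by exact_mod_cast hl0
      have ha0' : (0 : ℝ) < a := by exact_mod_cast ha0
      rw [h.fcf_mul he (Nat.mul_pos hb0 hl0) (by positivity)]
      have e5 : ((b * l : ℕ) : ℝ) * ((a : ℝ) * (y / ((a * l : ℕ) : ℝ)) / b) = y := by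
        push_cast
        field_simp
      rw [e5]
      have hbc : (b : ℂ) ≠ 0 := by exact_mod_cast hb0'.ne'
      have hlc : (l : ℂ) ≠ 0 := by exact_mod_cast hl0'.ne'
      have hac : (a : ℂ) ≠ 0 := by exact_mod_cast ha0'.ne'
      push_cast
      field_simp
    · rw [if_neg (fun h => hak (hiff.1 h)), if_neg hak]
  rw [h3, ← Finset.sum_filter] at h1
  have h4 : c m * (c k / k * fcf U e y) = (∑ a ∈ m.divisors.filter (fun a => a ∣ k),
      (a : ℂ) * c (m / a * (k / a))) / k * fcf U e y := by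
    rw [h1, Finset.sum_div, Finset.sum_mul]
  have h5 : (c m * c k) / k * fcf U e y = (∑ a ∈ m.divisors.filter (fun a => a ∣ k),
      (a : ℂ) * c (m / a * (k / a))) / k * fcf U e y := by
    rw [← h4]; ring
  have h6 := mul_right_cancel₀ hne h5
  exact (div_left_inj' hkc).1 h6

end Pool.Agent.H19.Maass
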