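import Mathlib
import Pool.Agent.H19.Maass.Unfold
import Pool.Agent.H19.Maass.Count
import Pool.Agent.H19.Maass.Mult

set_option autoImplicit false

namespace Pool.Agent.H19.Maass

open MeasureTheory Set Filter Topology UpperHalfPlane ModularGroup
open scoped MatrixGroups Modular UpperHalfPlane ENNReal

lemma tsum_ic_le {α : Type*} {R : α → Prop} {Q : Prop} (h : ∀ x y, R x → R y → x = y)
    (hQ : ∀ x, R x → Q) : ∑' x, ic (R x) ≤ ic Q := by
  by_cases hex : ∃ x, R x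
  · obtain ⟨x0, hx0⟩ := hex
    rw [tsum_eq_single x0, ic_true hx0, ic_true (hQ x0 hx0)]
    intro y hy
    exact ic_false fun h' => hy (h y x0 h' hx0)
  · rw [ENNReal.tsum_eq_zero.2 fun x => ic_false fun h' => hex ⟨x, h'⟩]
    exact zero_le

/-- the vertical strip above height `Y` -/
def inStrip (Y : ℝ) (w : ℍ) : Prop := Y < w.im ∧ -(1 / 2) ≤ w.re ∧ w.re < 1 / 2

lemma row_unique {σ τ : SL(2, ℤ)} {w : ℍ} {Y : ℝ} (hσ : inStrip Y (σ • w))
    (hτ : inStrip Y (τ • w)) (h0 : σ 1 0 = τ 1 0) (h1 : σ 1 1 = τ 1 1) : σ = τ := by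
  have hdσ := sl_det σ
  have hdτ := sl_det τ
  set g := τ * σ⁻¹ with hg
  have hinv : (σ⁻¹ : SL(2, ℤ)).1 = !![σ 1 1, -σ 0 1; -σ 1 0, σ 0 0] := by
    rw [Matrix.SpecialLinearGroup.SL2_inv_expl]
    rfl
  have hgm : g.1 = τ.1 * (σ⁻¹ : SL(2, ℤ)).1 := by rw [hg]; rfl
  have g10 : g 1 0 = 0 := by
    change g.1 1 0 = 0
    rw [hgm, hinv, Matrix.mul_apply, Fin.sum_univ_two]
    simp
    change τ 1 0 * σ 1 1 + -(τ 1 1 * σ 1 0) = 0
    rw [← h0, ← h1]; ring
  have g11 : g 1 1 = 1 := by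
    change g.1 1 1 = 1
    rw [hgm, hinv, Matrix.mul_apply, Fin.sum_univ_two]
    simp
    change -(τ 1 0 * σ 0 1) + τ 1 1 * σ 0 0 = 1
    rw [← h0, ← h1]; linarith
  have g00 : g 0 0 = 1 := by
    have := sl_det g
    rw [g10, g11] at this
    linarith
  have hgT : g = T ^ (g 0 1) := by
    ext i j
    fin_cases i <;> fin_cases j
    · change g 0 0 = (T ^ (g 0 1)).1 0 0
      rw [g00, coe_T_zpow]; simp
    · change g 0 1 = (T ^ (g 0 1)).1 0 1
      rw [coe_T_zpow]; simp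
    · change g 1 0 = (T ^ (g 0 1)).1 1 0
      rw [g10, coe_T_zpow]; simp
    · change g 1 1 = (T ^ (g 0 1)).1 1 1
      rw [g11, coe_T_zpow]; simp
  have hact : τ • w = g • (σ • w) := by
    rw [hg, mul_smul, inv_smul_smul]
  have hre : (τ • w).re = (σ • w).re + (g 0 1 : ℝ) := by
    rw [hact]
    conv_lhs => rw [hgT]
    exact re_T_zpow_smul _ _
  have hn : g 0 1 = 0 := by
    have a1 := hσ.2.1
    have a2 := hσ.2.2
    have b1 := hτ.2.1
    have b2 := hτ.2.2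
    rw [hre] at b1 b2
    have c1 : (g 0 1 : ℝ) < 1 := by linarith
    have c2 : (-1 : ℝ) < g 0 1 := by linarith
    have c3 : g 0 1 < 1 := by exact_mod_cast c1
    have c4 : -1 < g 0 1 := by exact_mod_cast c2
    omega
  have hg1 : g = 1 := by rw [hgT, hn, zpow_zero]
  rw [hg, mul_inv_eq_one] at hg1
  exact hg1.symm

/-- number of translates in a strip -/
lemma count_strip {Y : ℝ} (hY : 0 < Y) {w : ℍ} (hw : 1 / 2 ≤ w.im) :
    ∑' σ : SL(2, ℤ), ic (inStrip Y (σ • w)) ≤ ENNReal.ofReal (3 + 8 / Y) := by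
  have hy0 := w.im_pos
  set y := w.im with hy
  -- bottom row condition
  have him : ∀ σ : SL(2, ℤ), (σ • w).im = y / (((σ 1 0 : ℝ) * w.re + σ 1 1) ^ 2 +
      ((σ 1 0 : ℝ) * y) ^ 2) ∧ 0 < ((σ 1 0 : ℝ) * w.re + σ 1 1) ^ 2 + ((σ 1 0 : ℝ) * y) ^ 2 := by
    intro σ
    have h1 := ModularGroup.im_smul_eq_div_normSq σ w
    have h3 : Complex.normSq (denom σ w) = ((σ 1 0 : ℝ) * w.re + σ 1 1) ^ 2 +
        ((σ 1 0 : ℝ) * w.im) ^ 2 := by
      rw [ModularGroup.denom_apply, Complex.normSq_apply]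
      simp
      ring
    rw [h3] at h1
    refine ⟨h1, ?_⟩
    by_contra hcon
    rw [not_lt] at hcon
    have h4 := (σ • w).im_pos
    rw [h1] at h4
    have := div_nonpos_of_nonneg_of_nonpos hy0.le hcon
    linarith
  have hcond : ∀ σ : SL(2, ℤ), inStrip Y (σ • w) →
      (((σ 1 0 : ℝ) * w.re + σ 1 1) ^ 2 + ((σ 1 0 : ℝ) * y) ^ 2) * Y < y := by
    intro σ h
    have h1 := h.1
    obtain ⟨h2, h3⟩ := him σ
    rw [h2, lt_div_iff₀ h3] at h1
    linarith
  set r : ℝ := √(y / Y) with hr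
  have hr0 : 0 ≤ r := Real.sqrt_nonneg _
  have hr2 : r ^ 2 = y / Y := Real.sq_sqrt (by positivity)
  -- reduction to pairs
  have h1 : ∑' σ : SL(2, ℤ), ic (inStrip Y (σ • w)) ≤
      ∑' c : ℤ, ∑' d : ℤ, ic ((c = 0 ∧ (|(d : ℝ)| ≤ 1 ∧ d ≠ 0)) ∨
        ((|(c : ℝ)| ≤ r / y ∧ c ≠ 0) ∧ |(d : ℝ) + c * w.re| ≤ r ∧ y < 1 / Y)) := by
    have e1 : ∀ σ : SL(2, ℤ), ic (inStrip Y (σ • w)) = ∑' c : ℤ, ∑' d : ℤ,
        ic (inStrip Y (σ • w) ∧ σ 1 0 = c ∧ σ 1 1 = d) := by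
      intro σ
      rw [tsum_eq_single (σ 1 0), tsum_eq_single (σ 1 1)]
      · by_cases h : inStrip Y (σ • w)
        · rw [ic_true h, ic_true ⟨h, rfl, rfl⟩]
        · rw [ic_false h, ic_false fun h' => h h'.1]
      · intro d hd
        exact ic_false fun h' => hd h'.2.2.symm
      · intro c hc
        rw [ENNReal.tsum_eq_zero]
        intro d
        exact ic_false fun h' => hc h'.2.1.symm
    simp_rw [e1]
    rw [ENNReal.tsum_comm]
    refine ENNReal.tsum_le_tsum fun c => ?_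
    rw [ENNReal.tsum_comm]
    refine ENNReal.tsum_le_tsum fun d => ?_
    refine tsum_ic_le ?_ ?_
    · rintro σ τ ⟨h1, h2, h3⟩ ⟨h4, h5, h6⟩
      exact row_unique h1 h4 (h2.trans h5.symm) (h3.trans h6.symm)
    · rintro σ ⟨h1, rfl, rfl⟩
      have h2 := hcond σ h1
      have hdet := sl_det σ
      by_cases hc : σ 1 0 = 0
      · left
        rw [hc, mul_zero, sub_zero] at hdet
        have h6 : IsUnit (σ 1 1) := IsUnit.of_mul_eq_one (σ 0 0) (by rw [mul_comm]; exact hdet)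
        refine ⟨hc, ?_⟩
        rcases Int.isUnit_iff.1 h6 with h7 | h7 <;> rw [h7] <;> norm_num
      · right
        have hsum : ((σ 1 0 : ℝ) * w.re + σ 1 1) ^ 2 + ((σ 1 0 : ℝ) * y) ^ 2 < r ^ 2 := by
          rw [hr2, lt_div_iff₀ hY]; exact h2
        have hc1 : (1 : ℝ) ≤ (σ 1 0 : ℝ) ^ 2 := by
          have : 1 ≤ (σ 1 0) ^ 2 := by
            have := sq_nonneg (σ 1 0)
            have h7 : (σ 1 0) ^ 2 ≠ 0 := pow_ne_zero 2 hc
            omega
          exact_mod_cast this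
        refine ⟨⟨?_, hc⟩, ?_, ?_⟩
        · rw [le_div_iff₀ hy0]
          refine abs_le_of_sq_le_sq' ?_ hr0 |>.2 |> fun h => h
          have : (|(σ 1 0 : ℝ)| * y) ^ 2 = ((σ 1 0 : ℝ) * y) ^ 2 := by
            rw [mul_pow, sq_abs, mul_pow]
          rw [this]
          nlinarith [sq_nonneg ((σ 1 0 : ℝ) * w.re + σ 1 1)]
        · refine abs_le_of_sq_le_sq ?_ hr0
          have : ((σ 1 1 : ℝ) + σ 1 0 * w.re) ^ 2 = ((σ 1 0 : ℝ) * w.re + σ 1 1) ^ 2 := by ring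
          rw [this]
          nlinarith [sq_nonneg ((σ 1 0 : ℝ) * y)]
        · rw [lt_div_iff₀ hY]
          have h8 : ((σ 1 0 : ℝ) * y) ^ 2 * Y < y := by
            have : 0 ≤ ((σ 1 0 : ℝ) * w.re + σ 1 1) ^ 2 * Y := by positivity
            nlinarith
          have h9 : y ^ 2 * Y ≤ ((σ 1 0 : ℝ) * y) ^ 2 * Y := by
            rw [mul_pow]
            have : 0 ≤ y ^ 2 * Y := by positivity
            nlinarith
          have h10 : y * (y * Y) < y * 1 := by nlinarith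
          exact lt_of_mul_lt_mul_left h10 hy0.le
  refine h1.trans ?_
  have h2 : ∀ c d : ℤ, ic ((c = 0 ∧ (|(d : ℝ)| ≤ 1 ∧ d ≠ 0)) ∨
        ((|(c : ℝ)| ≤ r / y ∧ c ≠ 0) ∧ |(d : ℝ) + c * w.re| ≤ r ∧ y < 1 / Y)) ≤
      ic (c = 0) * ic (|(d : ℝ)| ≤ 1 ∧ d ≠ 0) +
      ic (|(c : ℝ)| ≤ r / y ∧ c ≠ 0) * (ic (|(d : ℝ) + c * w.re| ≤ r) * ic (y < 1 / Y)) := by
    intro c d
    refine (ic_or _ _).trans ?_
    rw [ic_and, ic_and (|(c : ℝ)| ≤ r / y ∧ c ≠ 0), ic_and (|(d : ℝ) + c * w.re| ≤ r)]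
  calc ∑' c : ℤ, ∑' d : ℤ, ic ((c = 0 ∧ (|(d : ℝ)| ≤ 1 ∧ d ≠ 0)) ∨
        ((|(c : ℝ)| ≤ r / y ∧ c ≠ 0) ∧ |(d : ℝ) + c * w.re| ≤ r ∧ y < 1 / Y))
      ≤ ∑' c : ℤ, ∑' d : ℤ, (ic (c = 0) * ic (|(d : ℝ)| ≤ 1 ∧ d ≠ 0) +
          ic (|(c : ℝ)| ≤ r / y ∧ c ≠ 0) * (ic (|(d : ℝ) + c * w.re| ≤ r) * ic (y < 1 / Y))) :=
        ENNReal.tsum_le_tsum fun c => ENNReal.tsum_le_tsum fun d => h2 c d
    _ = ∑' c : ℤ, (ic (c = 0) * ∑' d : ℤ, ic (|(d : ℝ)| ≤ 1 ∧ d ≠ 0)) +
        ∑' c : ℤ, (ic (|(c : ℝ)| ≤ r / y ∧ c ≠ 0) *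
          ((∑' d : ℤ, ic (|(d : ℝ) + c * w.re| ≤ r)) * ic (y < 1 / Y))) := by
        rw [← ENNReal.tsum_add]
        refine tsum_congr fun c => ?_
        rw [ENNReal.tsum_add, ENNReal.tsum_mul_left, ENNReal.tsum_mul_left,
          ENNReal.tsum_mul_right]
    _ ≤ ENNReal.ofReal (2 * 1) + ENNReal.ofReal (2 * (r / y)) *
          (ENNReal.ofReal (2 * r + 1) * ic (y < 1 / Y)) := by
        refine add_le_add ?_ ?_
        · rw [ENNReal.tsum_mul_right, tsum_eq_single 0 (fun c hc => ic_false hc), ic_true rfl,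
            one_mul]
          exact tsum_int_ne_le 1 zero_le_one
        · calc ∑' c : ℤ, (ic (|(c : ℝ)| ≤ r / y ∧ c ≠ 0) *
              ((∑' d : ℤ, ic (|(d : ℝ) + c * w.re| ≤ r)) * ic (y < 1 / Y)))
              ≤ ∑' c : ℤ, (ic (|(c : ℝ)| ≤ r / y ∧ c ≠ 0) *
              (ENNReal.ofReal (2 * r + 1) * ic (y < 1 / Y))) := by
                refine ENNReal.tsum_le_tsum fun c => ?_
                gcongr
                exact tsum_int_le _ r hr0
            _ = (∑' c : ℤ, ic (|(c : ℝ)| ≤ r / y ∧ c ≠ 0)) *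
              (ENNReal.ofReal (2 * r + 1) * ic (y < 1 / Y)) := ENNReal.tsum_mul_right
            _ ≤ _ := by
                gcongr
                exact tsum_int_ne_le _ (by positivity)
    _ ≤ ENNReal.ofReal (3 + 8 / Y) := by
        by_cases hyY : y < 1 / Y
        · rw [ic_true hyY, mul_one (ENNReal.ofReal (2 * r + 1)),
            ← ENNReal.ofReal_mul (by positivity),
            ← ENNReal.ofReal_add (by norm_num) (by positivity)]
          refine ENNReal.ofReal_le_ofReal ?_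
          have hyY' : y * Y < 1 := by rwa [lt_div_iff₀ hY] at hyY
          -- r ≤ (1 + r²)/2 ; r² = y / Y
          have h3 : 2 * (r / y) * (2 * r + 1) = 4 / Y + 2 * r / y := by
            have : r ^ 2 * Y = y := by rw [hr2]; field_simp
            field_simp
            nlinarith
          rw [h3]
          have h4 : 2 * r / y ≤ 4 / Y := by
            rw [div_le_div_iff₀ hy0 hY]
            -- 2 r Y ≤ 4 y
            have h5 : (r * Y) ^ 2 ≤ (2 * y) ^ 2 := by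
              rw [mul_pow, hr2]
              have : y / Y * Y ^ 2 = y * Y := by field_simp
              rw [this]
              nlinarith
            have h6 : r * Y ≤ 2 * y := le_of_pow_le_pow_left₀ (by norm_num) (by positivity) h5
            linarith
          have h7 : 4 / Y + 4 / Y = 8 / Y := by ring
          linarith
        · rw [ic_false hyY, mul_zero, mul_zero, add_zero]
          refine ENNReal.ofReal_le_ofReal ?_
          have : 0 < 8 / Y := by positivity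
          linarith

end Pool.Agent.H19.Maass
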