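import Mathlib
import Pool.Agent.H19.Maass.Strip
import Pool.Agent.H19.Maass.HoroL

set_option autoImplicit false

namespace Pool.Agent.H19.Maass

open MeasureTheory Set Filter Topology UpperHalfPlane ModularGroup
open scoped MatrixGroups Modular UpperHalfPlane ENNReal

/-- mass in the strip above height `Y` -/
noncomputable def strip (U : ℂ → ℂ) (Y : ℝ) : ℝ≥0∞ :=
  ∫⁻ w : ℍ, ic (inStrip Y w) * ENNReal.ofReal (‖U w‖ ^ 2)

/-- tail mass of the first Fourier coefficients -/
noncomputable def tail (U : ℂ → ℂ) (x : ℝ) : ℝ≥0∞ :=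
  ∫⁻ r in Ioi x, ENNReal.ofReal (‖lf U 1 r‖ ^ 2 + ‖lf U (-1) r‖ ^ 2)

variable {T : ℝ} {U : ℂ → ℂ} {c : ℕ → ℂ}

lemma measurableSet_strip (Y : ℝ) : MeasurableSet {w : ℍ | inStrip Y w} := by
  unfold inStrip
  refine MeasurableSet.inter ?_ (MeasurableSet.inter ?_ ?_)
  · exact measurableSet_lt measurable_const continuous_im.measurable
  · exact measurableSet_le measurable_const continuous_re.measurable
  · exact measurableSet_lt continuous_re.measurable measurable_const

lemma measurable_ic {α : Type*} [MeasurableSpace α] {P : α → Prop}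
    (h : MeasurableSet {x | P x}) : Measurable fun x => ic (P x) := by
  have : (fun x => ic (P x)) = {x | P x}.indicator fun _ => 1 := by
    funext x
    by_cases hx : P x
    · rw [ic_true hx, indicator_of_mem (by exact hx)]
    · rw [ic_false hx, indicator_of_notMem (by exact hx)]
  rw [this]
  exact measurable_const.indicator h

lemma measurable_normsq (h : CFrm T U c) : Measurable fun w : ℍ => ENNReal.ofReal (‖U w‖ ^ 2) :=
  ENNReal.measurable_ofReal.comp ((h.continuous.norm.pow 2).measurable)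

lemma measurable_strip (h : CFrm T U c) (Y : ℝ) :
    Measurable fun w : ℍ => ic (inStrip Y w) * ENNReal.ofReal (‖U w‖ ^ 2) :=
  (measurable_ic (measurableSet_strip Y)).mul (measurable_normsq h)

lemma lintegral_fd_eq_one (h : CFrm T U c) :
    ∫⁻ w : ℍ in 𝒟, ENNReal.ofReal (‖U w‖ ^ 2) = 1 := by
  have hint : Integrable (fun w : ℍ => ‖U w‖ ^ 2) (volume.restrict 𝒟) :=
    (memLp_two_iff_integrable_sq_norm h.continuous.aestronglyMeasurable).1 h.l2
  rw [← ofReal_integral_eq_lintegral_ofReal hint (Eventually.of_forall fun _ => by positivity)]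
  have h1 := h.nrm
  have h2 : ∀ w : ℍ, U w * (starRingEnd ℂ) (U w) = ((‖U w‖ ^ 2 : ℝ) : ℂ) := by
    intro w
    rw [Complex.mul_conj, Complex.normSq_eq_norm_sq]
  simp_rw [h2] at h1
  rw [integral_complex_ofReal] at h1
  have h3 : ∫ w : ℍ in 𝒟, ‖U w‖ ^ 2 = 1 := by exact_mod_cast h1
  rw [h3, ENNReal.ofReal_one]

lemma half_le_im_of_fd {w : ℍ} (hw : w ∈ 𝒟) : 1 / 2 ≤ w.im := by
  have h1 := three_le_four_mul_im_sq_of_mem_fd hw
  have h2 := w.im_pos
  nlinarith

theorem strip_le (h : CFrm T U c) {Y : ℝ} (hY : 0 < Y) :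
    strip U Y ≤ ENNReal.ofReal (3 + 8 / Y) := by
  have h1 := lintegral_unfold (measurable_strip h Y)
  have h2 : ∫⁻ w in 𝒟, ∑' σ : SL(2, ℤ), (ic (inStrip Y (σ • w)) *
      ENNReal.ofReal (‖U ((σ • w : ℍ) : ℂ)‖ ^ 2)) ≤ ENNReal.ofReal (3 + 8 / Y) := by
    calc ∫⁻ w in 𝒟, ∑' σ : SL(2, ℤ), (ic (inStrip Y (σ • w)) *
        ENNReal.ofReal (‖U ((σ • w : ℍ) : ℂ)‖ ^ 2))
        ≤ ∫⁻ w : ℍ in 𝒟, ENNReal.ofReal (3 + 8 / Y) * ENNReal.ofReal (‖U w‖ ^ 2) := by
          refine setLIntegral_mono ((measurable_normsq h).const_mul _) fun w hw => ?_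
          simp_rw [h.inv]
          rw [ENNReal.tsum_mul_right]
          gcongr
          exact count_strip hY (half_le_im_of_fd hw)
      _ = ENNReal.ofReal (3 + 8 / Y) := by
          rw [lintegral_const_mul _ (measurable_normsq h), lintegral_fd_eq_one h, mul_one]
  rw [h1] at h2
  refine le_trans ?_ h2
  unfold strip
  rw [two_mul]
  exact le_self_add

theorem one_le_strip (h : CFrm T U c) : 1 ≤ strip U (1 / 2) := by
  rw [← lintegral_fd_eq_one h]
  have h1 : ∫⁻ w : ℍ in 𝒟, ENNReal.ofReal (‖U w‖ ^ 2) =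
      ∫⁻ w : ℍ in 𝒟ᵒ, ENNReal.ofReal (‖U w‖ ^ 2) := by
    refine setLIntegral_congr ?_
    rw [ae_eq_set]
    refine ⟨volume_fd_diff_fdo, ?_⟩
    rw [sdiff_eq_empty.2 fdo_subset_fd, measure_empty]
  rw [h1, ← lintegral_indicator isOpen_fdo.measurableSet]
  refine lintegral_mono fun w => ?_
  by_cases hw : w ∈ 𝒟ᵒ
  · rw [indicator_of_mem hw, ic_true, one_mul]
    have h2 := half_le_im_of_fd (fdo_subset_fd hw)
    have h3 := three_lt_four_mul_im_sq_of_mem_fdo hw
    have h4 := hw.2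
    rw [abs_lt] at h4
    refine ⟨?_, by linarith [h4.1], h4.2⟩
    nlinarith
  · rw [indicator_of_notMem hw]
    exact zero_le

lemma lf_normsq (F : ℂ → ℂ) (n : ℤ) (r : ℝ) :
    ‖fcf F n (Real.exp r)‖ ^ 2 = Real.exp r * ‖lf F n r‖ ^ 2 := by
  unfold lf
  rw [norm_mul, Complex.norm_real, Real.norm_of_nonneg (Real.exp_pos _).le, mul_pow,
    ← Real.exp_nat_mul, ← mul_assoc, ← Real.exp_add]
  have : r + ((2 : ℕ) : ℝ) * -(r / 2) = 0 := by push_cast; ring
  rw [this, Real.exp_zero, one_mul]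

lemma continuous_lf (h : CFrm T U c) {e : ℤ} (he : e ^ 2 = 1) : Continuous (lf U e) := by
  obtain ⟨f1, hf⟩ := exists_sol h.eig' h.per he
  exact continuous_iff_continuousAt.2 fun r => (hf.d1 r).continuousAt

lemma inner_parseval (h : CFrm T U c) (a : ℝ) :
    ∫⁻ x : ℝ in Ico (-(1 / 2)) (1 / 2), ENNReal.ofReal (‖U (pt x a)‖ ^ 2) =
      ∑' n : ℤ, ENNReal.ofReal (‖fcf U n (Real.exp a)‖ ^ 2) := by
  have hy := Real.exp_pos a
  have hc : Continuous fun x : ℝ => U (x + Real.exp a * Complex.I) :=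
    continuous_line (F := U) rfl h.cont hy
  have hpt : ∀ x : ℝ, ((pt x a : ℍ) : ℂ) = x + (Real.exp a : ℝ) * Complex.I := by
    intro x
    apply Complex.ext <;> simp [pt, -Complex.ofReal_exp]
  simp_rw [hpt]
  have hsum := hasSum_fcf h.cont hy
  have hper := per_shift h.per hy
  have hp2 : Function.Periodic (fun x : ℝ => ‖U (x + Real.exp a * Complex.I)‖ ^ 2) 1 := fun x => by
    have := hper x
    simp only at this ⊢
    rw [this]
  have h2 := hp2.intervalIntegral_add_eq 0 (-(1 / 2))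
  rw [zero_add, show -(1 / 2 : ℝ) + 1 = 1 / 2 by norm_num] at h2
  rw [← ENNReal.ofReal_tsum_of_nonneg (fun n => by positivity) hsum.summable, hsum.tsum_eq, h2,
    intervalIntegral.integral_of_le (by norm_num), ← integral_Ico_eq_integral_Ioc]
  rw [ofReal_integral_eq_lintegral_ofReal]
  · exact ((hc.norm.pow 2).integrableOn_Icc (a := -(1 / 2)) (b := 1 / 2)).mono_set
      Ico_subset_Icc_self
  · exact Eventually.of_forall fun _ => by positivity

theorem strip_eq (h : CFrm T U c) {Y : ℝ} (hY : 0 < Y) :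
    strip U Y = ∑' k : ℕ, ENNReal.ofReal (‖c (k + 1)‖ ^ 2 / ((k + 1 : ℕ) : ℝ)) *
      tail U (Real.log (((k + 1 : ℕ) : ℝ) * Y)) := by
  unfold strip
  rw [horo_l (measurable_strip h Y)]
  have h1 : ∀ a : ℝ, ∫⁻ x : ℝ, ic (inStrip Y (pt x a)) * ENNReal.ofReal (‖U (pt x a)‖ ^ 2) =
      ic (Real.log Y < a) * ∑' n : ℤ, ENNReal.ofReal (‖fcf U n (Real.exp a)‖ ^ 2) := by
    intro a
    rw [← inner_parseval h a, ← lintegral_indicator measurableSet_Ico]
    have h2 : ∀ x : ℝ, ic (inStrip Y (pt x a)) * ENNReal.ofReal (‖U (pt x a)‖ ^ 2) =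
        ic (Real.log Y < a) * (Ico (-(1 / 2 : ℝ)) (1 / 2)).indicator
          (fun x => ENNReal.ofReal (‖U (pt x a)‖ ^ 2)) x := by
      intro x
      have h3 : inStrip Y (pt x a) ↔ Real.log Y < a ∧ x ∈ Ico (-(1 / 2 : ℝ)) (1 / 2) := by
        unfold inStrip
        rw [pt_im, pt_re, Real.log_lt_iff_lt_exp hY, mem_Ico]
      by_cases ha : Real.log Y < a
      · by_cases hx : x ∈ Ico (-(1 / 2 : ℝ)) (1 / 2)
        · rw [ic_true (h3.2 ⟨ha, hx⟩), ic_true ha, indicator_of_mem hx]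
        · rw [ic_false (fun h' => hx (h3.1 h').2), indicator_of_notMem hx, mul_zero, zero_mul]
      · rw [ic_false (fun h' => ha (h3.1 h').1), ic_false ha, zero_mul, zero_mul]
    simp_rw [h2]
    rw [lintegral_const_mul']
    exact (lt_of_le_of_lt (ic_le_one _) ENNReal.one_lt_top).ne
  simp_rw [h1]
  -- measurability of coefficients
  have hmeas : ∀ n : ℤ, Measurable fun a : ℝ => ENNReal.ofReal (‖fcf U n (Real.exp a)‖ ^ 2) := by
    intro n
    obtain ⟨v1, hv, _⟩ := fcf_ode h.eig' h.per n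
    have hc : Continuous fun a : ℝ => fcf U n (Real.exp a) := by
      refine continuous_iff_continuousAt.2 fun a => ?_
      exact (ContinuousAt.comp (g := fcf U n) (f := Real.exp)
        (hv _ (Real.exp_pos a)).continuousAt Real.continuous_exp.continuousAt)
    exact ENNReal.measurable_ofReal.comp (hc.norm.pow 2).measurable
  have hexp : Measurable fun a : ℝ => ENNReal.ofReal (Real.exp (-a)) :=
    ENNReal.measurable_ofReal.comp (Real.continuous_exp.comp continuous_neg).measurable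
  have hicm : Measurable fun a : ℝ => ic (Real.log Y < a) := by
    refine measurable_ic ?_
    exact measurableSet_lt measurable_const measurable_id
  have h2 : ∀ a : ℝ, ENNReal.ofReal (Real.exp (-a)) * (ic (Real.log Y < a) *
      ∑' n : ℤ, ENNReal.ofReal (‖fcf U n (Real.exp a)‖ ^ 2)) =
      ∑' n : ℤ, ENNReal.ofReal (Real.exp (-a)) * (ic (Real.log Y < a) *
        ENNReal.ofReal (‖fcf U n (Real.exp a)‖ ^ 2)) := by
    intro a
    rw [← ENNReal.tsum_mul_left, ← ENNReal.tsum_mul_left]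
  simp_rw [h2]
  have hm3 : ∀ n : ℤ, AEMeasurable (fun a : ℝ => ENNReal.ofReal (Real.exp (-a)) *
      (ic (Real.log Y < a) * ENNReal.ofReal (‖fcf U n (Real.exp a)‖ ^ 2))) volume :=
    fun n => (hexp.mul (hicm.mul (hmeas n))).aemeasurable
  rw [lintegral_tsum hm3]
  rw [tsum_of_nat_of_neg_add_one ENNReal.summable ENNReal.summable,
    tsum_eq_zero_add' ENNReal.summable]
  have h0 : ∫⁻ a : ℝ, ENNReal.ofReal (Real.exp (-a)) * (ic (Real.log Y < a) *
      ENNReal.ofReal (‖fcf U ((0 : ℕ) : ℤ) (Real.exp a)‖ ^ 2)) = 0 := by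
    rw [Nat.cast_zero]
    simp_rw [h.cusp _ (Real.exp_pos _)]
    simp
  rw [h0, zero_add, ← ENNReal.tsum_add]
  refine tsum_congr fun k => ?_
  -- a single index
  have hk : 1 ≤ k + 1 := by omega
  have hk0 : (0 : ℝ) < ((k + 1 : ℕ) : ℝ) := by positivity
  have hpiece : ∀ e : ℤ, e ^ 2 = 1 → ∫⁻ a : ℝ, ENNReal.ofReal (Real.exp (-a)) *
      (ic (Real.log Y < a) * ENNReal.ofReal (‖fcf U (e * ((k + 1 : ℕ) : ℤ)) (Real.exp a)‖ ^ 2)) =
      ENNReal.ofReal (‖c (k + 1)‖ ^ 2 / ((k + 1 : ℕ) : ℝ)) *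
        ∫⁻ r in Ioi (Real.log (((k + 1 : ℕ) : ℝ) * Y)), ENNReal.ofReal (‖lf U e r‖ ^ 2) := by
    intro e he
    have h3 : ∀ a : ℝ, ENNReal.ofReal (Real.exp (-a)) * (ic (Real.log Y < a) *
        ENNReal.ofReal (‖fcf U (e * ((k + 1 : ℕ) : ℤ)) (Real.exp a)‖ ^ 2)) =
        ENNReal.ofReal (‖c (k + 1)‖ ^ 2 / ((k + 1 : ℕ) : ℝ)) *
          (Ioi (Real.log (((k + 1 : ℕ) : ℝ) * Y))).indicator
            (fun r => ENNReal.ofReal (‖lf U e r‖ ^ 2)) (a + Real.log ((k + 1 : ℕ) : ℝ)) := by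
      intro a
      have hlog : Real.log (((k + 1 : ℕ) : ℝ) * Y) = Real.log Y + Real.log ((k + 1 : ℕ) : ℝ) := by
        rw [Real.log_mul hk0.ne' hY.ne']; ring
      by_cases ha : Real.log Y < a
      · rw [ic_true ha, one_mul, indicator_of_mem (by rw [mem_Ioi, hlog]; linarith),
          ← ENNReal.ofReal_mul (Real.exp_pos _).le, ← ENNReal.ofReal_mul (by positivity)]
        congr 1
        rw [h.fcf_mul he hk (Real.exp_pos a), norm_mul, mul_pow, norm_div, div_pow,
          Complex.norm_natCast]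
        have h4 : ((k + 1 : ℕ) : ℝ) * Real.exp a = Real.exp (a + Real.log ((k + 1 : ℕ) : ℝ)) := by
          rw [Real.exp_add, Real.exp_log hk0]; ring
        rw [h4, lf_normsq, ← h4, Real.exp_neg]
        have := Real.exp_pos a
        field_simp
      · rw [ic_false ha, zero_mul, mul_zero, indicator_of_notMem (by
          rw [mem_Ioi, hlog]; intro h'; apply ha; linarith), mul_zero]
    simp_rw [h3]
    have hm : Measurable fun r : ℝ => (Ioi (Real.log (((k + 1 : ℕ) : ℝ) * Y))).indicator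
        (fun r => ENNReal.ofReal (‖lf U e r‖ ^ 2)) r :=
      (ENNReal.measurable_ofReal.comp ((continuous_lf h he).norm.pow 2).measurable).indicator
        measurableSet_Ioi
    rw [lintegral_const_mul' _ _ ENNReal.ofReal_ne_top]
    rw [lintegral_add_right_eq_self (fun r => (Ioi (Real.log (((k + 1 : ℕ) : ℝ) * Y))).indicator
        (fun r => ENNReal.ofReal (‖lf U e r‖ ^ 2)) r), lintegral_indicator measurableSet_Ioi]
  have e1 := hpiece 1 (by norm_num)
  have e2 := hpiece (-1) (by norm_num)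
  rw [one_mul] at e1
  rw [neg_one_mul] at e2
  push_cast at e1 e2 ⊢
  rw [e1, e2, ← mul_add]
  congr 1
  unfold tail
  rw [← lintegral_add_left]
  · refine setLIntegral_congr_fun measurableSet_Ioi fun r _ => ?_
    exact (ENNReal.ofReal_add (by positivity) (by positivity)).symm
  · exact ENNReal.measurable_ofReal.comp ((continuous_lf h (by norm_num)).norm.pow 2).measurable

end Pool.Agent.H19.Maass
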