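import Mathlib
import Pool.Agent.H19.Maass.Tail

set_option autoImplicit false

namespace Pool.Agent.H19.Maass

open MeasureTheory Set Filter Topology
open scoped ENNReal

variable {T b : ℝ} {f f1 : ℝ → ℂ}

/-- the turning point -/
noncomputable def tp (T : ℝ) : ℝ := Real.log (T / (2 * Real.pi))

lemma exp_tp (hT : 0 < T) : Real.exp (tp T) = T / (2 * Real.pi) := by
  unfold tp
  exact Real.exp_log (by positivity)

lemma qq_eq (hT : 0 < T) (r : ℝ) : qq T r = T ^ 2 * (1 - Real.exp (2 * (r - tp T))) := by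
  unfold qq
  have h1 : Real.exp (2 * (r - tp T)) = Real.exp (2 * r) / (Real.exp (tp T)) ^ 2 := by
    rw [← Real.exp_nat_mul, ← Real.exp_sub]
    congr 1
    push_cast; ring
  rw [h1, exp_tp hT]
  have := Real.pi_pos
  field_simp
  ring

lemma qq_nonpos (hT : 0 < T) {r : ℝ} (hr : tp T ≤ r) : qq T r ≤ 0 := by
  rw [qq_eq hT]
  have h1 : 1 ≤ Real.exp (2 * (r - tp T)) := Real.one_le_exp (by linarith)
  have h2 : 0 < T ^ 2 := by positivity
  nlinarith

lemma qq_nonneg (hT : 0 < T) {r : ℝ} (hr : r ≤ tp T) : 0 ≤ qq T r := by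
  rw [qq_eq hT]
  have h1 : Real.exp (2 * (r - tp T)) ≤ 1 := Real.exp_le_one_iff.2 (by linarith)
  have h2 : 0 < T ^ 2 := by positivity
  nlinarith

/-- lower bound before the turning point -/
lemma qq_ge_lin (hT : 0 < T) {r : ℝ} (h0 : 0 ≤ tp T - r) (h3 : tp T - r ≤ 3) :
    2 / 7 * T ^ 2 * (tp T - r) ≤ qq T r := by
  rw [qq_eq hT]
  set s := tp T - r with hs
  have h1 : 2 * (r - tp T) = -(2 * s) := by rw [hs]; ring
  rw [h1, Real.exp_neg]
  have h2 : 1 + 2 * s ≤ Real.exp (2 * s) := by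
    have := Real.add_one_le_exp (2 * s)
    linarith
  have h4 : (Real.exp (2 * s))⁻¹ ≤ (1 + 2 * s)⁻¹ := inv_anti₀ (by linarith) h2
  have h5 : (1 + 2 * s)⁻¹ ≤ 1 - 2 / 7 * s := by
    rw [inv_le_iff_one_le_mul₀ (by linarith)]
    nlinarith
  have h6 : 0 < T ^ 2 := by positivity
  nlinarith

lemma neg_qq_ge (hT : 0 < T) {r x : ℝ} (hx : tp T ≤ x) (hr : x ≤ r) :
    2 * T ^ 2 * (x - tp T) ≤ -qq T r := by
  rw [qq_eq hT]
  have h1 : 2 * (x - tp T) + 1 ≤ Real.exp (2 * (r - tp T)) := by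
    have := Real.add_one_le_exp (2 * (r - tp T))
    linarith
  have h6 : 0 < T ^ 2 := by positivity
  nlinarith

lemma tp_sub_le (hT : 0 < T) (hb1 : T / 101 ≤ Real.exp b) : tp T - b ≤ 3 := by
  have h1 : Real.exp (tp T - b) ≤ Real.exp 3 := by
    rw [Real.exp_sub, exp_tp hT, div_le_iff₀ (Real.exp_pos b)]
    have h2 : (20 : ℝ) ≤ Real.exp 3 := by
      have h3 : Real.exp 3 = Real.exp 1 ^ 3 := by rw [← Real.exp_nat_mul]; norm_num
      have h4 := Real.exp_one_gt_d9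
      rw [h3]
      calc (20 : ℝ) ≤ 2.718 ^ 3 := by norm_num
        _ ≤ Real.exp 1 ^ 3 := pow_le_pow_left₀ (by norm_num) (by linarith) 3
    have h5 := Real.pi_gt_d4
    have h6 : T / (2 * Real.pi) ≤ 20 * (T / 101) := by
      rw [div_le_iff₀ (by positivity)]
      nlinarith
    calc T / (2 * Real.pi) ≤ 20 * (T / 101) := h6
      _ ≤ Real.exp 3 * Real.exp b := mul_le_mul h2 hb1 (by positivity) (Real.exp_pos _).le
  exact Real.exp_le_exp.1 h1

lemma one_le_tp_sub (hT : 0 < T) (hb2 : Real.exp b ≤ T / 99) : 1 ≤ tp T - b := by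
  have h1 : Real.exp 1 ≤ Real.exp (tp T - b) := by
    rw [Real.exp_sub, exp_tp hT, le_div_iff₀ (Real.exp_pos b)]
    have h4 := Real.exp_one_lt_d9
    have h5 := Real.pi_lt_d4
    have hp := Real.pi_pos
    rw [le_div_iff₀ (by positivity)]
    calc Real.exp 1 * Real.exp b * (2 * Real.pi) ≤ 2.7183 * (T / 99) * (2 * 3.1416) := by
          gcongr
          linarith
      _ ≤ T := by nlinarith
  exact Real.exp_le_exp.1 h1

/-- value at the beginning of the transition region and beyond -/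
theorem Dec.tl_le (h : Dec T f f1) (hT : 1 ≤ T) (hb1 : T / 101 ≤ Real.exp b)
    (hb2 : Real.exp b ≤ T / 99) :
    tl f b ≤ ENNReal.ofReal (En T f f1 b / T ^ 2 * (25 + 3 * Real.log T)) := by
  have hT0 : 0 < T := by linarith
  set E := En T f f1 b with hE
  have hE0 : 0 ≤ E := h.toSol.En_nonneg hT0 hb2 (le_refl b)
  set r1 := tp T with hr1
  set δ : ℝ := T ^ (-(2 / 3) : ℝ) with hδ
  have hδ0 : 0 < δ := Real.rpow_pos_of_pos hT0 _
  have hδ1 : δ ≤ 1 := Real.rpow_le_one_of_one_le_of_nonpos hT (by norm_num)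
  have hδ3 : δ ^ 3 * T ^ 2 = 1 := by
    rw [hδ, ← Real.rpow_natCast (T ^ (-(2 / 3) : ℝ)), ← Real.rpow_mul hT0.le,
      ← Real.rpow_natCast T 2, ← Real.rpow_add hT0]
    norm_num
  have hlogδ : Real.log δ = -(2 / 3) * Real.log T := Real.log_rpow hT0 _
  have hs3 := tp_sub_le hT0 hb1
  have hs1 := one_le_tp_sub hT0 hb2
  have hbr : b ≤ r1 - δ := by linarith
  have hEn : ∀ r, b ≤ r → En T f f1 r ≤ E := fun r hr => h.toSol.antitone_En hr
  have hc := h.toSol.cont
  -- region A pointwise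
  have hA : ∀ r, b ≤ r → r < r1 → T ^ 2 * ‖f r‖ ^ 2 ≤ 7 / 2 * E / (r1 - r) := by
    intro r hbr' hr
    have h1 := qq_ge_lin hT0 (by linarith : 0 ≤ tp T - r) (by linarith)
    have h2 := hEn r hbr'
    unfold En at h2
    rw [le_div_iff₀ (by linarith)]
    have h3 : 2 / 7 * T ^ 2 * (r1 - r) * ‖f r‖ ^ 2 ≤ E := by
      have : 2 / 7 * T ^ 2 * (r1 - r) * ‖f r‖ ^ 2 ≤ qq T r * ‖f r‖ ^ 2 := by gcongr
      nlinarith [sq_nonneg ‖f1 r‖]
    nlinarith
  -- region B pointwise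
  have hB : ∀ r, r1 - δ ≤ r → r ≤ r1 → ‖f r‖ ^ 2 ≤ 9 * E * δ ^ 2 := by
    intro r hr hr'
    have h1 := hA (r1 - δ) hbr (by linarith)
    have h2 : ‖f (r1 - δ)‖ ^ 2 ≤ 7 / 2 * E * δ ^ 2 := by
      rw [sub_sub_cancel] at h1
      have h3 : δ ^ 3 * (T ^ 2 * ‖f (r1 - δ)‖ ^ 2) ≤ δ ^ 3 * (7 / 2 * E / δ) := by gcongr
      have h4 : δ ^ 3 * (7 / 2 * E / δ) = 7 / 2 * E * δ ^ 2 := by field_simp
      have h5 : δ ^ 3 * (T ^ 2 * ‖f (r1 - δ)‖ ^ 2) = ‖f (r1 - δ)‖ ^ 2 := by
        rw [← mul_assoc, hδ3, one_mul]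
      linarith
    have h6 : ‖f r - f (r1 - δ)‖ ≤ √E * (r - (r1 - δ)) := by
      refine norm_image_sub_le_of_norm_deriv_le_segment' (f := f) (f' := f1)
        (fun x _ => (h.toSol.d1 x).hasDerivWithinAt) ?_ r ⟨hr, le_refl r⟩
      intro x hx
      have h7 := hEn x (by linarith [hx.1])
      unfold En at h7
      have h8 : 0 ≤ qq T x := qq_nonneg hT0 (by linarith [hx.2])
      refine Real.le_sqrt_of_sq_le ?_
      nlinarith [sq_nonneg ‖f x‖]
    have h7 : ‖f r‖ ≤ ‖f (r1 - δ)‖ + √E * δ := by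
      have h8 : ‖f r‖ ≤ ‖f (r1 - δ)‖ + ‖f r - f (r1 - δ)‖ := by
        have := norm_add_le (f (r1 - δ)) (f r - f (r1 - δ))
        simpa using this
      have h9 : √E * (r - (r1 - δ)) ≤ √E * δ := by
        refine mul_le_mul_of_nonneg_left (by linarith) (Real.sqrt_nonneg _)
      linarith
    have h10 : (√E * δ) ^ 2 = E * δ ^ 2 := by rw [mul_pow, Real.sq_sqrt hE0]
    calc ‖f r‖ ^ 2 ≤ (‖f (r1 - δ)‖ + √E * δ) ^ 2 := pow_le_pow_left₀ (norm_nonneg _) h7 2
      _ ≤ 2 * ‖f (r1 - δ)‖ ^ 2 + 2 * (√E * δ) ^ 2 := by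
          nlinarith [sq_nonneg (‖f (r1 - δ)‖ - √E * δ)]
      _ ≤ 9 * E * δ ^ 2 := by rw [h10]; nlinarith
  -- beyond the turning point
  have hq0 : ∀ r, r1 ≤ r → qq T r ≤ 0 := fun r hr => qq_nonpos hT0 hr
  have hanti := h.antitoneOn_g hq0
  have hC : ∀ r, r1 ≤ r → ‖f r‖ ^ 2 ≤ 9 * E * δ ^ 2 := by
    intro r hr
    exact (hanti (mem_Ici.2 (le_refl r1)) (mem_Ici.2 hr) hr).trans
      (hB r1 (by linarith) (le_refl r1))
  have hDm := h.lintegral_le hq0 (x := r1 + δ) (m := 2 * T ^ 2 * δ) (by linarith) (by positivity)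
    (fun r hr => by
      have := neg_qq_ge hT0 (x := r1 + δ) (by linarith) hr
      rwa [add_sub_cancel_left] at this)
  have hgd := h.neg_gd_le hq0 (le_refl r1) hδ0
  have hE9 := hC r1 (le_refl r1)
  -- splitting
  have hsplit : tl f b ≤ (∫⁻ r in Ioc b (r1 - δ), ENNReal.ofReal (‖f r‖ ^ 2)) +
      ((∫⁻ r in Ioc (r1 - δ) (r1 + δ), ENNReal.ofReal (‖f r‖ ^ 2)) +
        ∫⁻ r in Ioi (r1 + δ), ENNReal.ofReal (‖f r‖ ^ 2)) := by
    unfold tl
    have hsub : Ioi b ⊆ Ioc b (r1 - δ) ∪ (Ioc (r1 - δ) (r1 + δ) ∪ Ioi (r1 + δ)) := by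
      intro r hr
      rw [mem_Ioi] at hr
      rcases le_or_gt r (r1 - δ) with h1 | h1
      · left; exact ⟨hr, h1⟩
      · right
        rcases le_or_gt r (r1 + δ) with h2 | h2
        · left; exact ⟨h1, h2⟩
        · right; exact h2
    refine (lintegral_mono_set hsub).trans ?_
    refine (lintegral_union_le _ _ _).trans ?_
    exact add_le_add le_rfl (lintegral_union_le _ _ _)
  refine hsplit.trans ?_
  have hA' : ∫⁻ r in Ioc b (r1 - δ), ENNReal.ofReal (‖f r‖ ^ 2) ≤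
      ENNReal.ofReal (E / T ^ 2 * (4 + 3 * Real.log T)) := by
    have hint : IntegrableOn (fun r => ‖f r‖ ^ 2) (Ioc b (r1 - δ)) volume :=
      (hc.norm.pow 2).integrableOn_Icc.mono_set Ioc_subset_Icc_self
    rw [← ofReal_integral_eq_lintegral_ofReal hint (Eventually.of_forall fun _ => by positivity)]
    refine ENNReal.ofReal_le_ofReal ?_
    rw [← intervalIntegral.integral_of_le hbr]
    have hF : ∀ r ∈ uIcc b (r1 - δ), HasDerivAt (fun r => -(7 / 2 * E / T ^ 2) * Real.log (r1 - r))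
        (7 / 2 * E / T ^ 2 / (r1 - r)) r := by
      intro r hr
      rw [uIcc_of_le hbr] at hr
      have h1 : r1 - r ≠ 0 := by linarith [hr.2]
      have h2 := (((hasDerivAt_id r).const_sub r1).log h1).const_mul (-(7 / 2 * E / T ^ 2))
      refine h2.congr_deriv ?_
      simp only [id]
      field_simp
    have hcont : ContinuousOn (fun r => 7 / 2 * E / T ^ 2 / (r1 - r)) (uIcc b (r1 - δ)) := by
      refine continuousOn_const.div (by fun_prop) fun r hr => ?_
      rw [uIcc_of_le hbr] at hr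
      linarith [hr.2]
    have hi : IntervalIntegrable (fun r => 7 / 2 * E / T ^ 2 / (r1 - r)) volume b (r1 - δ) :=
      hcont.intervalIntegrable
    have hFTC := intervalIntegral.integral_eq_sub_of_hasDerivAt hF hi
    have hle : ∫ r in b..(r1 - δ), ‖f r‖ ^ 2 ≤ ∫ r in b..(r1 - δ), 7 / 2 * E / T ^ 2 / (r1 - r) := by
      refine intervalIntegral.integral_mono_on hbr ((hc.norm.pow 2).intervalIntegrable _ _) hi
        fun r hr => ?_
      have h1 := hA r hr.1 (by linarith [hr.2])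
      have h2 : 7 / 2 * E / T ^ 2 / (r1 - r) = 7 / 2 * E / (r1 - r) / T ^ 2 := by ring
      rw [h2, le_div_iff₀ (by positivity)]
      linarith
    refine hle.trans ?_
    rw [hFTC, sub_sub_cancel, hlogδ]
    have h1 : Real.log (r1 - b) ≤ 1.1 := by
      have h2 : Real.log (r1 - b) ≤ Real.log 3 := Real.log_le_log (by linarith) hs3
      have h3 := Real.log_three_lt_d9
      linarith
    have h4 : 0 ≤ E / T ^ 2 := by positivity
    have h5 : 0 ≤ Real.log T := Real.log_nonneg hT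
    calc -(7 / 2 * E / T ^ 2) * (-(2 / 3) * Real.log T) -
          -(7 / 2 * E / T ^ 2) * Real.log (r1 - b)
        = E / T ^ 2 * (7 / 3 * Real.log T + 7 / 2 * Real.log (r1 - b)) := by ring
      _ ≤ E / T ^ 2 * (4 + 3 * Real.log T) := by
          refine mul_le_mul_of_nonneg_left ?_ h4
          linarith
  have hB' : ∫⁻ r in Ioc (r1 - δ) (r1 + δ), ENNReal.ofReal (‖f r‖ ^ 2) ≤
      ENNReal.ofReal (E / T ^ 2 * 18) := by
    calc ∫⁻ r in Ioc (r1 - δ) (r1 + δ), ENNReal.ofReal (‖f r‖ ^ 2)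
        ≤ ∫⁻ r in Ioc (r1 - δ) (r1 + δ), ENNReal.ofReal (9 * E * δ ^ 2) := by
          refine setLIntegral_mono' measurableSet_Ioc fun r hr => ENNReal.ofReal_le_ofReal ?_
          rcases le_total r r1 with h1 | h1
          · exact hB r (le_of_lt hr.1) h1
          · exact hC r h1
      _ = ENNReal.ofReal (9 * E * δ ^ 2 * (2 * δ)) := by
          rw [setLIntegral_const, Real.volume_Ioc, ← ENNReal.ofReal_mul (by positivity)]
          congr 1
          ring
      _ ≤ _ := by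
          refine ENNReal.ofReal_le_ofReal (le_of_eq ?_)
          rw [div_mul_eq_mul_div, eq_div_iff (by positivity)]
          calc 9 * E * δ ^ 2 * (2 * δ) * T ^ 2 = 18 * E * (δ ^ 3 * T ^ 2) := by ring
            _ = E * 18 := by rw [hδ3]; ring
  have hD' : ∫⁻ r in Ioi (r1 + δ), ENNReal.ofReal (‖f r‖ ^ 2) ≤ ENNReal.ofReal (E / T ^ 2 * 3) := by
    refine hDm.trans (ENNReal.ofReal_le_ofReal ?_)
    have h1 : -gd f f1 (r1 + δ) ≤ 9 * E * δ := by
      refine hgd.trans ?_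
      rw [div_le_iff₀ hδ0]
      calc ‖f r1‖ ^ 2 ≤ 9 * E * δ ^ 2 := hE9
        _ = 9 * E * δ * δ := by ring
    rw [div_le_iff₀ (by positivity)]
    have h2 : E / T ^ 2 * 3 * (2 * (2 * T ^ 2 * δ)) = 12 * E * δ := by
      field_simp
      ring
    rw [h2]
    have : 0 ≤ E * δ := by positivity
    linarith
  calc (∫⁻ r in Ioc b (r1 - δ), ENNReal.ofReal (‖f r‖ ^ 2)) +
      ((∫⁻ r in Ioc (r1 - δ) (r1 + δ), ENNReal.ofReal (‖f r‖ ^ 2)) +
        ∫⁻ r in Ioi (r1 + δ), ENNReal.ofReal (‖f r‖ ^ 2))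
      ≤ ENNReal.ofReal (E / T ^ 2 * (4 + 3 * Real.log T)) + (ENNReal.ofReal (E / T ^ 2 * 18) +
          ENNReal.ofReal (E / T ^ 2 * 3)) := add_le_add hA' (add_le_add hB' hD')
    _ = ENNReal.ofReal (E / T ^ 2 * (25 + 3 * Real.log T)) := by
        have h5 : 0 ≤ Real.log T := Real.log_nonneg hT
        rw [← ENNReal.ofReal_add (by positivity) (by positivity),
          ← ENNReal.ofReal_add (by positivity) (by positivity)]
        congr 1
        ring

/-- total mass from `- log 2` on -/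
theorem Dec.tl_total_le (h : Dec T f f1) (hT : 202 ≤ T) (hb1 : T / 101 ≤ Real.exp b)
    (hb2 : Real.exp b ≤ T / 99) :
    tl f (-Real.log 2) ≤ ENNReal.ofReal (En T f f1 b / T ^ 2 * (27 + 5 * Real.log T)) := by
  have hT0 : 0 < T := by linarith
  set E := En T f f1 b with hE
  have hE0 : 0 ≤ E := h.toSol.En_nonneg hT0 hb2 (le_refl b)
  have h1 := h.tl_le (by linarith) hb1 hb2
  have hlogT : 0 ≤ Real.log T := Real.log_nonneg (by linarith)
  have hb0 : 0 ≤ b := by
    have h2 : Real.exp 0 ≤ Real.exp b := by rw [Real.exp_zero]; linarith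
    exact Real.exp_le_exp.1 h2
  have hbT : b ≤ Real.log T := by
    rw [Real.le_log_iff_exp_le hT0]
    linarith
  have hlog2 := Real.log_two_gt_d9
  have hlog2' := Real.log_two_lt_d9
  have h2 : tl f (-Real.log 2) ≤ (∫⁻ r in Ioc (-Real.log 2) b, ENNReal.ofReal (‖f r‖ ^ 2)) +
      tl f b := by
    unfold tl
    have hsub : Ioi (-Real.log 2) ⊆ Ioc (-Real.log 2) b ∪ Ioi b := by
      intro r hr
      rcases le_or_gt r b with h1 | h1
      · left; exact ⟨hr, h1⟩
      · right; exact h1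
    exact (lintegral_mono_set hsub).trans (lintegral_union_le _ _ _)
  refine h2.trans ?_
  have h3 : ∫⁻ r in Ioc (-Real.log 2) b, ENNReal.ofReal (‖f r‖ ^ 2) ≤
      ENNReal.ofReal (E / T ^ 2 * (2 + 2 * Real.log T)) := by
    calc ∫⁻ r in Ioc (-Real.log 2) b, ENNReal.ofReal (‖f r‖ ^ 2)
        ≤ ∫⁻ r in Ioc (-Real.log 2) b, ENNReal.ofReal (1.02 * E / T ^ 2) := by
          refine setLIntegral_mono' measurableSet_Ioc fun r hr => ENNReal.ofReal_le_ofReal ?_
          rw [le_div_iff₀ (by positivity)]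
          have := h.toSol.normsq_le hT0 hb2 hr.2
          linarith
      _ = ENNReal.ofReal (1.02 * E / T ^ 2 * (b + Real.log 2)) := by
          rw [setLIntegral_const, Real.volume_Ioc, ← ENNReal.ofReal_mul (by positivity)]
          congr 1
          ring
      _ ≤ _ := by
          refine ENNReal.ofReal_le_ofReal ?_
          have h4 : 0 ≤ E / T ^ 2 := by positivity
          calc 1.02 * E / T ^ 2 * (b + Real.log 2) = E / T ^ 2 * (1.02 * (b + Real.log 2)) := by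
                ring
            _ ≤ E / T ^ 2 * (2 + 2 * Real.log T) := by
                refine mul_le_mul_of_nonneg_left ?_ h4
                linarith
  calc (∫⁻ r in Ioc (-Real.log 2) b, ENNReal.ofReal (‖f r‖ ^ 2)) + tl f b
      ≤ ENNReal.ofReal (E / T ^ 2 * (2 + 2 * Real.log T)) +
        ENNReal.ofReal (E / T ^ 2 * (25 + 3 * Real.log T)) := add_le_add h3 h1
    _ = _ := by
        rw [← ENNReal.ofReal_add (by positivity) (by positivity)]
        congr 1
        ring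

/-- decay far beyond the turning point -/
theorem Dec.tl_decay (h : Dec T f f1) (hT : 0 < T) {x : ℝ} (hx : tp T + 1 ≤ x) :
    tl f x ≤ ENNReal.ofReal (Real.exp (-(2 * x))) * tl f (x - 1) := by
  have hq0 : ∀ r, tp T ≤ r → qq T r ≤ 0 := fun r hr => qq_nonpos hT hr
  have hanti := h.antitoneOn_g hq0
  have hexp : ∀ r, x ≤ r → 33 * Real.exp (2 * x) ≤ -qq T r := by
    intro r hr
    unfold qq
    have h1 : Real.exp (2 * x) ≤ Real.exp (2 * r) := Real.exp_le_exp.2 (by linarith)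
    have h2 : T ^ 2 * 7 ≤ 4 * Real.pi ^ 2 * Real.exp (2 * x) := by
      have h3 : Real.exp (2 * (tp T + 1)) ≤ Real.exp (2 * x) := Real.exp_le_exp.2 (by linarith)
      have h4 : Real.exp (2 * (tp T + 1)) = (T / (2 * Real.pi)) ^ 2 * Real.exp 2 := by
        rw [← exp_tp hT, ← Real.exp_nat_mul, ← Real.exp_add]
        congr 1
        push_cast; ring
      have h5 : (7 : ℝ) ≤ Real.exp 2 := by
        have h6 : Real.exp 2 = Real.exp 1 ^ 2 := by rw [← Real.exp_nat_mul]; norm_num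
        have h7 := Real.exp_one_gt_d9
        rw [h6]
        calc (7 : ℝ) ≤ 2.718 ^ 2 := by norm_num
          _ ≤ Real.exp 1 ^ 2 := pow_le_pow_left₀ (by norm_num) (by linarith) 2
      have hp := Real.pi_pos
      calc T ^ 2 * 7 = 4 * Real.pi ^ 2 * ((T / (2 * Real.pi)) ^ 2 * 7) := by field_simp; ring
        _ ≤ 4 * Real.pi ^ 2 * ((T / (2 * Real.pi)) ^ 2 * Real.exp 2) := by gcongr
        _ ≤ 4 * Real.pi ^ 2 * Real.exp (2 * x) := by rw [← h4]; gcongr
    have h8 := pi_sq_gt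
    have h9 : 0 < Real.exp (2 * x) := Real.exp_pos _
    have h10 : 4 * Real.pi ^ 2 * Real.exp (2 * x) ≤ 4 * Real.pi ^ 2 * Real.exp (2 * r) := by gcongr
    nlinarith
  have h1 := h.lintegral_le hq0 (x := x) (m := 33 * Real.exp (2 * x)) (by linarith)
    (by positivity) hexp
  have h2 := h.neg_gd_le hq0 (r := x - 1 / 2) (δ := 1 / 2) (by linarith) (by norm_num)
  rw [sub_add_cancel] at h2
  have h3 : ENNReal.ofReal (‖f (x - 1 / 2)‖ ^ 2 * (1 / 2)) ≤ tl f (x - 1) := by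
    calc ENNReal.ofReal (‖f (x - 1 / 2)‖ ^ 2 * (1 / 2))
        = ∫⁻ r in Ioc (x - 1) (x - 1 / 2), ENNReal.ofReal (‖f (x - 1 / 2)‖ ^ 2) := by
          rw [setLIntegral_const, Real.volume_Ioc, ← ENNReal.ofReal_mul (by positivity)]
          congr 2
          ring
      _ ≤ ∫⁻ r in Ioc (x - 1) (x - 1 / 2), ENNReal.ofReal (‖f r‖ ^ 2) := by
          refine setLIntegral_mono' measurableSet_Ioc fun r hr => ENNReal.ofReal_le_ofReal ?_
          exact hanti (mem_Ici.2 (by linarith [hr.1])) (mem_Ici.2 (by linarith)) hr.2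
      _ ≤ tl f (x - 1) := lintegral_mono_set fun r hr => hr.1
  refine h1.trans ?_
  calc ENNReal.ofReal (-gd f f1 x / (2 * (33 * Real.exp (2 * x))))
      ≤ ENNReal.ofReal (Real.exp (-(2 * x)) * (‖f (x - 1 / 2)‖ ^ 2 * (1 / 2))) := by
        refine ENNReal.ofReal_le_ofReal ?_
        rw [Real.exp_neg, div_le_iff₀ (by positivity)]
        have h4 : (Real.exp (2 * x))⁻¹ * (‖f (x - 1 / 2)‖ ^ 2 * (1 / 2)) *
            (2 * (33 * Real.exp (2 * x))) = 33 * ‖f (x - 1 / 2)‖ ^ 2 := by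
          have := Real.exp_pos (2 * x)
          field_simp
        rw [h4]
        have h5 : 0 ≤ ‖f (x - 1 / 2)‖ ^ 2 := by positivity
        have h6 : ‖f (x - 1 / 2)‖ ^ 2 / (1 / 2) = 2 * ‖f (x - 1 / 2)‖ ^ 2 := by ring
        linarith
    _ = ENNReal.ofReal (Real.exp (-(2 * x))) * ENNReal.ofReal (‖f (x - 1 / 2)‖ ^ 2 * (1 / 2)) :=
        ENNReal.ofReal_mul (Real.exp_pos _).le
    _ ≤ _ := by gcongr

end Pool.Agent.H19.Maass
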