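import Mathlib
import Pool.Agent.H19.Maass.StripMass
import Pool.Agent.H19.Maass.Turn
import Pool.Agent.H19.Maass.Forms
import Pool.Agent.H41.Eis.Divisor

set_option autoImplicit false

namespace Pool.Agent.H19.Maass

open MeasureTheory Set Filter Topology UpperHalfPlane ModularGroup
open scoped MatrixGroups Modular UpperHalfPlane ENNReal

variable {t b : ℝ} {U : ℂ → ℂ} {c : ℕ → ℂ}

lemma CFrm.sol (h : CFrm t U c) {e : ℤ} (he : e ^ 2 = 1) : Sol t (lf U e) (deriv (lf U e)) := by
  obtain ⟨f1, hf⟩ := exists_sol h.eig' h.per he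
  have : deriv (lf U e) = f1 := funext fun r => (hf.d1 r).deriv
  rw [this]
  exact hf

lemma CFrm.c_one (h : CFrm t U c) : c 1 = 1 := by
  obtain ⟨z, hz⟩ : ∃ z : ℍ, U z ≠ 0 := by
    by_contra hcon
    push Not at hcon
    have h1 := h.nrm
    simp_rw [hcon] at h1
    simp at h1
  have h1 := h.toFrm.one z
  have h2 : c 1 * U z = 1 * U z := by rw [h1, one_mul]
  exact mul_right_cancel₀ hz h2

lemma tail_eq (h : CFrm t U c) (x : ℝ) : tail U x = tl (lf U 1) x + tl (lf U (-1)) x := by
  unfold tail tl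
  rw [← lintegral_add_left]
  · refine setLIntegral_congr_fun measurableSet_Ioi fun r _ => ?_
    exact ENNReal.ofReal_add (by positivity) (by positivity)
  · exact ENNReal.measurable_ofReal.comp ((continuous_lf h (by norm_num)).norm.pow 2).measurable

lemma tail_le (h : CFrm t U c) (x : ℝ) : tail U x ≤ ENNReal.ofReal (3 + 8 / Real.exp x) := by
  have h1 := strip_le h (Real.exp_pos x)
  rw [strip_eq h (Real.exp_pos x)] at h1
  refine le_trans ?_ h1
  refine le_trans (le_of_eq ?_) (ENNReal.le_tsum 0)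
  rw [zero_add, h.c_one]
  simp

lemma CFrm.dec (h : CFrm t U c) {e : ℤ} (he : e ^ 2 = 1) : Dec t (lf U e) (deriv (lf U e)) := by
  refine ⟨h.sol he, fun x => ?_⟩
  have h1 : tl (lf U e) x ≤ tail U x := by
    rw [tail_eq h]
    rcases sq_eq_one_iff_of_side he with rfl | rfl
    · exact le_self_add
    · exact le_add_self
  exact lt_of_le_of_lt (h1.trans (tail_le h x)) ENNReal.ofReal_lt_top

/-- total energy of the first coefficients -/
noncomputable def EE (U : ℂ → ℂ) (t b : ℝ) : ℝ :=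
  En t (lf U 1) (deriv (lf U 1)) b + En t (lf U (-1)) (deriv (lf U (-1))) b

lemma EE_nonneg (h : CFrm t U c) (ht : 0 < t) (hb2 : Real.exp b ≤ t / 99) : 0 ≤ EE U t b :=
  add_nonneg ((h.sol (by norm_num)).En_nonneg ht hb2 (le_refl b))
    ((h.sol (by norm_num)).En_nonneg ht hb2 (le_refl b))

/-- partial sums of the squares of the normalised Hecke eigenvalues -/
noncomputable def SS (c : ℕ → ℂ) (N : ℕ) : ℝ := ∑ n ∈ Finset.Icc 1 N, ‖c n‖ ^ 2 / n

lemma SS_nonneg (c : ℕ → ℂ) (N : ℕ) : 0 ≤ SS c N :=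
  Finset.sum_nonneg fun n _ => by positivity

/-- upper bound for the partial sums -/
theorem SS_le (h : CFrm t U c) (ht : 100 ≤ t) (hb1 : t / 101 ≤ Real.exp b)
    (hb2 : Real.exp b ≤ t / 99) {N : ℕ} (hN : 1 ≤ N) :
    SS c N * (EE U t b / t ^ 2) ≤ 12 + 8800 * (N / t) := by
  have ht0 : 0 < t := by linarith
  have hN0 : (0 : ℝ) < N := by exact_mod_cast hN
  set Y : ℝ := Real.exp (b - 1) / N with hY
  have hY0 : 0 < Y := by positivity
  have h1 := strip_le h hY0
  rw [strip_eq h hY0] at h1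
  have hEE := EE_nonneg h ht0 hb2
  have h2 : ∑ k ∈ Finset.range N, ENNReal.ofReal (‖c (k + 1)‖ ^ 2 / ((k + 1 : ℕ) : ℝ)) *
      ENNReal.ofReal (EE U t b / (4 * t ^ 2)) ≤ ENNReal.ofReal (3 + 8 / Y) := by
    refine le_trans ?_ h1
    refine le_trans ?_ (ENNReal.sum_le_tsum (Finset.range N))
    refine Finset.sum_le_sum fun k hk => ?_
    rw [Finset.mem_range] at hk
    gcongr
    have hx : Real.log (((k + 1 : ℕ) : ℝ) * Y) ≤ b - 1 := by
      rw [Real.log_le_iff_le_exp (by positivity), hY]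
      have h3 : ((k + 1 : ℕ) : ℝ) ≤ N := by exact_mod_cast hk
      rw [mul_div_assoc', div_le_iff₀ hN0, mul_comm]
      gcongr
    rw [tail_eq h]
    have h4 := tl_ge (h.sol (e := 1) (by norm_num)) ht hb2 hx
    have h5 := tl_ge (h.sol (e := -1) (by norm_num)) ht hb2 hx
    refine le_trans (le_of_eq ?_) (add_le_add h4 h5)
    rw [← ENNReal.ofReal_add]
    · unfold EE; rw [add_div]
    · exact div_nonneg ((h.sol (by norm_num)).En_nonneg ht0 hb2 (le_refl b)) (by positivity)
    · exact div_nonneg ((h.sol (by norm_num)).En_nonneg ht0 hb2 (le_refl b)) (by positivity)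
  rw [← Finset.sum_mul, ← ENNReal.ofReal_sum_of_nonneg (fun _ _ => by positivity),
    ← ENNReal.ofReal_mul (Finset.sum_nonneg fun _ _ => by positivity),
    ENNReal.ofReal_le_ofReal_iff (by positivity)] at h2
  have h3 : ∑ k ∈ Finset.range N, ‖c (k + 1)‖ ^ 2 / ((k + 1 : ℕ) : ℝ) = SS c N := by
    unfold SS
    rw [Finset.range_eq_Ico, Finset.sum_Ico_add' (fun n : ℕ => ‖c n‖ ^ 2 / (n : ℝ)) 0 N 1]
    rfl
  rw [h3] at h2
  have h4 : 8 / Y ≤ 2200 * (N / t) := by
    rw [hY, Real.exp_sub]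
    have h5 := Real.exp_one_lt_d9
    have h6 : 0 < Real.exp 1 := Real.exp_pos 1
    have h7 : 0 < Real.exp b := Real.exp_pos b
    have h8 : 8 / (Real.exp b / Real.exp 1 / N) = 8 * Real.exp 1 * N / Real.exp b := by
      field_simp
    rw [h8, div_le_iff₀ h7]
    have h9 : 2200 * (N / t) * (t / 101) ≤ 2200 * ((N : ℝ) / t) * Real.exp b := by gcongr
    have h10 : 2200 * ((N : ℝ) / t) * (t / 101) = 2200 / 101 * N := by field_simp
    have h11 : 8 * Real.exp 1 * N ≤ 2200 / 101 * N := by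
      refine mul_le_mul_of_nonneg_right ?_ hN0.le
      linarith
    linarith
  have h5 : SS c N * (EE U t b / (4 * t ^ 2)) = SS c N * (EE U t b / t ^ 2) / 4 := by ring
  rw [h5] at h2
  linarith

/-- lower bound for the partial sum of length `t` -/
theorem SS_ge (h : CFrm t U c) (ht : 202 ≤ t) (hb1 : t / 101 ≤ Real.exp b)
    (hb2 : Real.exp b ≤ t / 99) :
    1 / 2 ≤ SS c ⌊t⌋₊ * (EE U t b / t ^ 2 * (27 + 5 * Real.log t)) := by
  have ht0 : 0 < t := by linarith
  have h1 := one_le_strip h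
  rw [strip_eq h (by norm_num : (0 : ℝ) < 1 / 2)] at h1
  set M := ⌊t⌋₊ with hM
  have hlog : 0 ≤ Real.log t := Real.log_nonneg (by linarith)
  have hEE := EE_nonneg h ht0 hb2
  -- two parts
  have hpt : ∀ k : ℕ, ENNReal.ofReal (‖c (k + 1)‖ ^ 2 / ((k + 1 : ℕ) : ℝ)) *
      tail U (Real.log (((k + 1 : ℕ) : ℝ) * (1 / 2))) ≤
      (if k ∈ Finset.range M then ENNReal.ofReal (‖c (k + 1)‖ ^ 2 / ((k + 1 : ℕ) : ℝ)) *
        tail U (-Real.log 2) else 0) +
      ENNReal.ofReal (4 / t ^ 2) * (ENNReal.ofReal (‖c (k + 1)‖ ^ 2 / ((k + 1 : ℕ) : ℝ)) *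
        tail U (Real.log (((k + 1 : ℕ) : ℝ) * (Real.exp (-1) / 2)))) := by
    intro k
    have hk0 : (0 : ℝ) < ((k + 1 : ℕ) : ℝ) := by positivity
    by_cases hk : k ∈ Finset.range M
    · rw [if_pos hk]
      refine le_trans ?_ le_self_add
      refine mul_le_mul_right ?_ _
      unfold tail
      refine lintegral_mono_set fun r hr => ?_
      rw [mem_Ioi] at hr ⊢
      refine lt_of_le_of_lt ?_ hr
      rw [← Real.log_inv]
      refine Real.log_le_log (by norm_num) ?_
      have : (1 : ℝ) ≤ ((k + 1 : ℕ) : ℝ) := by exact_mod_cast Nat.le_add_left 1 k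
      linarith
    · rw [if_neg hk, zero_add]
      rw [Finset.mem_range, not_lt] at hk
      have hkt : t ≤ ((k + 1 : ℕ) : ℝ) := by
        have h2 : t < M + 1 := Nat.lt_floor_add_one t
        have h3 : (M : ℝ) ≤ k := by exact_mod_cast hk
        push_cast; linarith
      have hx : tp t + 1 ≤ Real.log (((k + 1 : ℕ) : ℝ) * (1 / 2)) := by
        rw [Real.le_log_iff_exp_le (by positivity), Real.exp_add, exp_tp ht0]
        have h5 := Real.exp_one_lt_d9
        have h6 := Real.pi_gt_d4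
        calc t / (2 * Real.pi) * Real.exp 1 ≤ t / (2 * 3.1415) * 2.7183 := by
              gcongr
              linarith
          _ ≤ t * (1 / 2) := by
              rw [div_mul_eq_mul_div, div_le_iff₀ (by norm_num)]
              linarith
          _ ≤ _ := by gcongr
      have hdec : tail U (Real.log (((k + 1 : ℕ) : ℝ) * (1 / 2))) ≤
          ENNReal.ofReal (Real.exp (-(2 * Real.log (((k + 1 : ℕ) : ℝ) * (1 / 2))))) *
            tail U (Real.log (((k + 1 : ℕ) : ℝ) * (1 / 2)) - 1) := by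
        rw [tail_eq h, tail_eq h, mul_add]
        exact add_le_add ((h.dec (by norm_num)).tl_decay ht0 hx)
          ((h.dec (by norm_num)).tl_decay ht0 hx)
      have h7 : Real.log (((k + 1 : ℕ) : ℝ) * (1 / 2)) - 1 =
          Real.log (((k + 1 : ℕ) : ℝ) * (Real.exp (-1) / 2)) := by
        have : ((k + 1 : ℕ) : ℝ) * (Real.exp (-1) / 2) =
            ((k + 1 : ℕ) : ℝ) * (1 / 2) * Real.exp (-1) := by ring
        rw [this, Real.log_mul (by positivity) (Real.exp_pos _).ne', Real.log_exp]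
        ring
      have h8 : Real.exp (-(2 * Real.log (((k + 1 : ℕ) : ℝ) * (1 / 2)))) ≤ 4 / t ^ 2 := by
        rw [Real.exp_neg, two_mul, Real.exp_add, Real.exp_log (by positivity)]
        rw [inv_eq_one_div, div_le_div_iff₀ (by positivity) (by positivity)]
        nlinarith
      rw [h7] at hdec
      calc ENNReal.ofReal (‖c (k + 1)‖ ^ 2 / ((k + 1 : ℕ) : ℝ)) *
          tail U (Real.log (((k + 1 : ℕ) : ℝ) * (1 / 2)))
          ≤ ENNReal.ofReal (‖c (k + 1)‖ ^ 2 / ((k + 1 : ℕ) : ℝ)) *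
            (ENNReal.ofReal (4 / t ^ 2) *
              tail U (Real.log (((k + 1 : ℕ) : ℝ) * (Real.exp (-1) / 2)))) := by
            refine mul_le_mul_right (hdec.trans ?_) _
            gcongr
        _ = _ := by ring
  have hsum := h1.trans (ENNReal.tsum_le_tsum hpt)
  rw [ENNReal.tsum_add, ENNReal.tsum_mul_left,
    ← strip_eq h (by positivity : (0 : ℝ) < Real.exp (-1) / 2)] at hsum
  have h2 : ∑' k : ℕ, (if k ∈ Finset.range M then ENNReal.ofReal (‖c (k + 1)‖ ^ 2 /
      ((k + 1 : ℕ) : ℝ)) * tail U (-Real.log 2) else 0) =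
      ENNReal.ofReal (SS c M) * tail U (-Real.log 2) := by
    rw [tsum_eq_sum (s := Finset.range M) (fun k hk => by rw [if_neg hk]),
      Finset.sum_congr rfl (fun k hk => if_pos hk), ← Finset.sum_mul,
      ← ENNReal.ofReal_sum_of_nonneg (fun _ _ => by positivity)]
    congr 2
    unfold SS
    rw [Finset.range_eq_Ico, Finset.sum_Ico_add' (fun n : ℕ => ‖c n‖ ^ 2 / (n : ℝ)) 0 M 1]
    rfl
  rw [h2] at hsum
  have h3 : tail U (-Real.log 2) ≤ ENNReal.ofReal (EE U t b / t ^ 2 * (27 + 5 * Real.log t)) := by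
    rw [tail_eq h]
    refine (add_le_add ((h.dec (by norm_num)).tl_total_le ht hb1 hb2)
      ((h.dec (by norm_num)).tl_total_le ht hb1 hb2)).trans (le_of_eq ?_)
    have hE1 := (h.sol (e := 1) (by norm_num)).En_nonneg ht0 hb2 (le_refl b)
    have hE2 := (h.sol (e := -1) (by norm_num)).En_nonneg ht0 hb2 (le_refl b)
    rw [← ENNReal.ofReal_add (by positivity) (by positivity)]
    congr 1
    unfold EE
    ring
  have h4 : ENNReal.ofReal (4 / t ^ 2) * strip U (Real.exp (-1) / 2) ≤ ENNReal.ofReal (1 / 2) := by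
    calc ENNReal.ofReal (4 / t ^ 2) * strip U (Real.exp (-1) / 2)
        ≤ ENNReal.ofReal (4 / t ^ 2) * ENNReal.ofReal (3 + 8 / (Real.exp (-1) / 2)) := by
          gcongr
          exact strip_le h (by positivity)
      _ ≤ ENNReal.ofReal (1 / 2) := by
          rw [← ENNReal.ofReal_mul (by positivity)]
          refine ENNReal.ofReal_le_ofReal ?_
          have h5 : 8 / (Real.exp (-1) / 2) = 16 * Real.exp 1 := by
            rw [Real.exp_neg]
            have := Real.exp_pos 1
            field_simp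
            norm_num
          have h6 := Real.exp_one_lt_d9
          rw [h5, div_mul_eq_mul_div, div_le_iff₀ (by positivity)]
          nlinarith
  have h5 : (1 : ℝ≥0∞) ≤ ENNReal.ofReal (SS c M * (EE U t b / t ^ 2 * (27 + 5 * Real.log t)) +
      1 / 2) := by
    refine hsum.trans ?_
    rw [ENNReal.ofReal_add (mul_nonneg (SS_nonneg c M) (by positivity)) (by norm_num),
      ENNReal.ofReal_mul (SS_nonneg c M)]
    gcongr
  rw [← ENNReal.ofReal_one, ENNReal.ofReal_le_ofReal_iff (by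
    have := SS_nonneg c M
    positivity)] at h5
  linarith

end Pool.Agent.H19.Maass
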