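import Mathlib
import Pool.Agent.H19.Maass.Omega

set_option autoImplicit false

namespace Pool.Agent.H19.Maass

variable {t b : ℝ} {U : ℂ → ℂ} {c : ℕ → ℂ}

lemma sum_dvd_le (N a : ℕ) (ha : 1 ≤ a) (H : ℕ → ℝ) (hH : ∀ n, 0 ≤ H n) :
    ∑ m ∈ (Finset.Icc 1 N).filter (fun m => a ∣ m), H (m / a) ≤
      ∑ m ∈ Finset.Icc 1 (N / a), H m := by
  have hinj : Set.InjOn (fun m : ℕ => m / a)
      ((Finset.Icc 1 N).filter (fun m => a ∣ m) : Finset ℕ) := by
    intro x hx y hy hxy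
    simp only [Finset.coe_filter, Set.mem_setOf_eq] at hx hy
    have h1 := Nat.div_mul_cancel hx.2
    have h2 := Nat.div_mul_cancel hy.2
    simp only at hxy
    rw [← h1, ← h2, hxy]
  rw [← Finset.sum_image (f := H) hinj]
  refine Finset.sum_le_sum_of_subset_of_nonneg ?_ fun n _ _ => hH n
  intro n hn
  rw [Finset.mem_image] at hn
  obtain ⟨m, hm, rfl⟩ := hn
  rw [Finset.mem_filter, Finset.mem_Icc] at hm
  rw [Finset.mem_Icc]
  exact ⟨Nat.div_pos (Nat.le_of_dvd (by omega) hm.2) (by omega), Nat.div_le_div_right hm.1.2⟩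

lemma sum_mul_le (Q : ℕ) (G : ℕ → ℝ) (hG : ∀ n, 0 ≤ G n) :
    ∑ m ∈ Finset.Icc 1 Q, ∑ k ∈ Finset.Icc 1 Q, G (m * k) ≤
      ∑ l ∈ Finset.Icc 1 (Q ^ 2), (l.divisors.card : ℝ) * G l := by
  classical
  rw [← Finset.sum_product']
  have hmaps : ∀ x ∈ Finset.Icc 1 Q ×ˢ Finset.Icc 1 Q, x.1 * x.2 ∈ Finset.Icc 1 (Q ^ 2) := by
    intro x hx
    rw [Finset.mem_product, Finset.mem_Icc, Finset.mem_Icc] at hx
    rw [Finset.mem_Icc]
    exact ⟨Nat.mul_pos hx.1.1 hx.2.1, by rw [sq]; exact Nat.mul_le_mul hx.1.2 hx.2.2⟩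
  rw [← Finset.sum_fiberwise_of_maps_to hmaps]
  refine Finset.sum_le_sum fun l hl => ?_
  rw [Finset.mem_Icc] at hl
  have hcard : ((Finset.Icc 1 Q ×ˢ Finset.Icc 1 Q).filter fun x => x.1 * x.2 = l).card ≤
      l.divisors.card := by
    refine Finset.card_le_card_of_injOn Prod.fst ?_ ?_
    · intro x hx
      simp only [Finset.coe_filter, Set.mem_setOf_eq] at hx
      simp only [Finset.mem_coe, Nat.mem_divisors]
      exact ⟨⟨x.2, hx.2.symm⟩, by omega⟩
    · intro x hx y hy hxy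
      simp only [Finset.coe_filter, Set.mem_setOf_eq, Finset.mem_product, Finset.mem_Icc] at hx hy
      refine Prod.ext hxy ?_
      have h1 : x.1 * x.2 = x.1 * y.2 := by rw [hx.2, hxy, hy.2]
      exact Nat.eq_of_mul_eq_mul_left (by omega) h1
  calc ∑ x ∈ (Finset.Icc 1 Q ×ˢ Finset.Icc 1 Q).filter fun x => x.1 * x.2 = l, G (x.1 * x.2)
      = ∑ x ∈ (Finset.Icc 1 Q ×ˢ Finset.Icc 1 Q).filter fun x => x.1 * x.2 = l, G l :=
        Finset.sum_congr rfl fun x hx => by rw [(Finset.mem_filter.1 hx).2]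
    _ = (((Finset.Icc 1 Q ×ˢ Finset.Icc 1 Q).filter fun x => x.1 * x.2 = l).card : ℝ) * G l := by
        rw [Finset.sum_const, nsmul_eq_mul]
    _ ≤ _ := by
        have := hG l
        gcongr

/-- submultiplicativity of the partial sums -/
lemma SS_sq_le (h : CFrm t U c) {N : ℕ} {D : ℝ} (hD0 : 0 ≤ D)
    (hD : ∀ n ∈ Finset.Icc 1 (N ^ 2), (n.divisors.card : ℝ) ≤ D) :
    SS c N ^ 2 ≤ D ^ 2 * ∑ a ∈ Finset.Icc 1 N, SS c ((N / a) ^ 2) := by
  classical
  set G : ℕ → ℝ := fun n => ‖c n‖ ^ 2 / n with hG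
  have hG0 : ∀ n, 0 ≤ G n := fun n => by rw [hG]; positivity
  have hpt : ∀ m ∈ Finset.Icc 1 N, ∀ k ∈ Finset.Icc 1 N, G m * G k ≤
      D * ∑ a ∈ Finset.Icc 1 N, if a ∣ m ∧ a ∣ k then G (m / a * (k / a)) else 0 := by
    intro m hm k hk
    rw [Finset.mem_Icc] at hm hk
    have hm0 : (0 : ℝ) < m := by exact_mod_cast hm.1
    have hk0 : (0 : ℝ) < k := by exact_mod_cast hk.1
    set S := m.divisors.filter (fun a => a ∣ k) with hS
    have hmult := h.mult hm.1 hk.1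
    rw [← hS] at hmult
    have hcard : (S.card : ℝ) ≤ D := by
      refine le_trans ?_ (hD m (by
        rw [Finset.mem_Icc]
        refine ⟨hm.1, hm.2.trans ?_⟩
        nlinarith [hm.1, hm.2]))
      exact_mod_cast Finset.card_filter_le _ _
    have h1 : ‖c m * c k‖ ^ 2 ≤ S.card * ∑ a ∈ S, ‖(a : ℂ) * c (m / a * (k / a))‖ ^ 2 := by
      rw [hmult]
      calc ‖∑ a ∈ S, (a : ℂ) * c (m / a * (k / a))‖ ^ 2
          ≤ (∑ a ∈ S, ‖(a : ℂ) * c (m / a * (k / a))‖) ^ 2 :=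
            pow_le_pow_left₀ (norm_nonneg _) (norm_sum_le _ _) 2
        _ ≤ S.card * ∑ a ∈ S, ‖(a : ℂ) * c (m / a * (k / a))‖ ^ 2 := sq_sum_le_card_mul_sum_sq
    have h2 : ∀ a ∈ S, ‖(a : ℂ) * c (m / a * (k / a))‖ ^ 2 / (m * k) = G (m / a * (k / a)) := by
      intro a ha
      rw [hS, Finset.mem_filter, Nat.mem_divisors] at ha
      have ha0 : 0 < a := Nat.pos_of_dvd_of_pos ha.1.1 hm.1
      have ha0r : (0 : ℝ) < a := by exact_mod_cast ha0
      obtain ⟨m', hm'⟩ := ha.1.1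
      obtain ⟨k', hk'⟩ := ha.2
      have e1 : m / a = m' := by rw [hm']; exact Nat.mul_div_cancel_left _ ha0
      have e2 : k / a = k' := by rw [hk']; exact Nat.mul_div_cancel_left _ ha0
      have hm'0 : (0 : ℝ) < m' := by
        have : 0 < m' := Nat.pos_of_ne_zero fun h => by rw [h, mul_zero] at hm'; omega
        exact_mod_cast this
      have hk'0 : (0 : ℝ) < k' := by
        have : 0 < k' := Nat.pos_of_ne_zero fun h => by rw [h, mul_zero] at hk'; omega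
        exact_mod_cast this
      rw [e1, e2, hG]
      simp only
      rw [norm_mul, Complex.norm_natCast, hm', hk']
      push_cast
      field_simp
    have h3 : ∑ a ∈ S, G (m / a * (k / a)) ≤
        ∑ a ∈ Finset.Icc 1 N, if a ∣ m ∧ a ∣ k then G (m / a * (k / a)) else 0 := by
      rw [← Finset.sum_filter]
      refine Finset.sum_le_sum_of_subset_of_nonneg ?_ fun n _ _ => hG0 _
      intro a ha
      rw [hS, Finset.mem_filter, Nat.mem_divisors] at ha
      rw [Finset.mem_filter, Finset.mem_Icc]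
      have ha0 : 0 < a := Nat.pos_of_dvd_of_pos ha.1.1 hm.1
      exact ⟨⟨ha0, (Nat.le_of_dvd hm.1 ha.1.1).trans hm.2⟩, ha.1.1, ha.2⟩
    calc G m * G k = ‖c m * c k‖ ^ 2 / (m * k) := by
          rw [hG]; simp only
          rw [norm_mul]; field_simp
      _ ≤ (S.card * ∑ a ∈ S, ‖(a : ℂ) * c (m / a * (k / a))‖ ^ 2) / (m * k) := by gcongr
      _ = S.card * ∑ a ∈ S, G (m / a * (k / a)) := by
          rw [mul_div_assoc, Finset.sum_div]
          congr 1
          exact Finset.sum_congr rfl h2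
      _ ≤ D * ∑ a ∈ Finset.Icc 1 N, if a ∣ m ∧ a ∣ k then G (m / a * (k / a)) else 0 := by
          refine mul_le_mul hcard h3 (Finset.sum_nonneg fun a _ => hG0 _) hD0
  have hsum : SS c N ^ 2 ≤ D * ∑ a ∈ Finset.Icc 1 N, ∑ m ∈ Finset.Icc 1 N,
      ∑ k ∈ Finset.Icc 1 N, if a ∣ m ∧ a ∣ k then G (m / a * (k / a)) else 0 := by
    calc SS c N ^ 2 = ∑ m ∈ Finset.Icc 1 N, ∑ k ∈ Finset.Icc 1 N, G m * G k := by
          unfold SS
          rw [sq, Finset.sum_mul_sum]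
      _ ≤ ∑ m ∈ Finset.Icc 1 N, ∑ k ∈ Finset.Icc 1 N,
          D * ∑ a ∈ Finset.Icc 1 N, if a ∣ m ∧ a ∣ k then G (m / a * (k / a)) else 0 :=
          Finset.sum_le_sum fun m hm => Finset.sum_le_sum fun k hk => hpt m hm k hk
      _ = D * ∑ a ∈ Finset.Icc 1 N, ∑ m ∈ Finset.Icc 1 N,
          ∑ k ∈ Finset.Icc 1 N, if a ∣ m ∧ a ∣ k then G (m / a * (k / a)) else 0 := by
          simp_rw [← Finset.mul_sum]
          congr 1
          rw [Finset.sum_congr rfl fun m _ => Finset.sum_comm, Finset.sum_comm]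
  refine hsum.trans ?_
  rw [sq D, mul_assoc]
  refine mul_le_mul_of_nonneg_left ?_ hD0
  rw [Finset.mul_sum]
  refine Finset.sum_le_sum fun a ha => ?_
  rw [Finset.mem_Icc] at ha
  calc ∑ m ∈ Finset.Icc 1 N, ∑ k ∈ Finset.Icc 1 N,
        (if a ∣ m ∧ a ∣ k then G (m / a * (k / a)) else 0)
      = ∑ m ∈ (Finset.Icc 1 N).filter (fun m => a ∣ m),
          ∑ k ∈ (Finset.Icc 1 N).filter (fun k => a ∣ k), G (m / a * (k / a)) := by
        rw [Finset.sum_filter]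
        refine Finset.sum_congr rfl fun m _ => ?_
        by_cases hm : a ∣ m
        · rw [if_pos hm, Finset.sum_filter]
          refine Finset.sum_congr rfl fun k _ => ?_
          by_cases hk : a ∣ k
          · rw [if_pos ⟨hm, hk⟩, if_pos hk]
          · rw [if_neg (fun h => hk h.2), if_neg hk]
        · rw [if_neg hm]
          exact Finset.sum_eq_zero fun k _ => if_neg fun h => hm h.1
    _ ≤ ∑ m ∈ (Finset.Icc 1 N).filter (fun m => a ∣ m),
          ∑ k ∈ Finset.Icc 1 (N / a), G (m / a * k) :=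
        Finset.sum_le_sum fun m _ => sum_dvd_le N a ha.1 (fun k => G (m / a * k)) fun k => hG0 _
    _ ≤ ∑ m ∈ Finset.Icc 1 (N / a), ∑ k ∈ Finset.Icc 1 (N / a), G (m * k) :=
        sum_dvd_le N a ha.1 (fun m => ∑ k ∈ Finset.Icc 1 (N / a), G (m * k))
          fun m => Finset.sum_nonneg fun k _ => hG0 _
    _ ≤ ∑ l ∈ Finset.Icc 1 ((N / a) ^ 2), (l.divisors.card : ℝ) * G l :=
        sum_mul_le (N / a) G hG0
    _ ≤ ∑ l ∈ Finset.Icc 1 ((N / a) ^ 2), D * G l := by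
        refine Finset.sum_le_sum fun l hl => ?_
        rw [Finset.mem_Icc] at hl
        refine mul_le_mul_of_nonneg_right (hD l ?_) (hG0 l)
        rw [Finset.mem_Icc]
        refine ⟨hl.1, hl.2.trans ?_⟩
        exact Nat.pow_le_pow_left (Nat.div_le_self N a) 2
    _ = D * SS c ((N / a) ^ 2) := by
        rw [← Finset.mul_sum]; rfl

lemma sum_inv_sq_le (N : ℕ) : ∑ a ∈ Finset.Icc 1 N, 1 / (a : ℝ) ^ 2 ≤ 2 := by
  have h : ∀ N : ℕ, 1 ≤ N → ∑ a ∈ Finset.Icc 1 N, 1 / (a : ℝ) ^ 2 ≤ 2 - 1 / (N : ℝ) := by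
    intro N hN
    induction N, hN using Nat.le_induction with
    | base => norm_num
    | succ n hn ih =>
      rw [Finset.sum_Icc_succ_top (by omega)]
      have hn0 : (0 : ℝ) < n := by exact_mod_cast hn
      have h1 : 1 / ((n + 1 : ℕ) : ℝ) ^ 2 ≤ 1 / n - 1 / ((n + 1 : ℕ) : ℝ) := by
        push_cast
        rw [div_sub_div _ _ hn0.ne' (by positivity), div_le_div_iff₀ (by positivity) (by positivity)]
        nlinarith
      linarith
  rcases Nat.eq_zero_or_pos N with rfl | hN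
  · simp
  · have := h N hN
    have h0 : 0 ≤ 1 / (N : ℝ) := by positivity
    linarith

/-- lower bound for the energy of the first coefficients -/
theorem omega_ge (ε : ℝ) (hε : 0 < ε) : ∃ C : ℝ, 0 < C ∧ ∀ (t b : ℝ) (U : ℂ → ℂ) (c : ℕ → ℂ),
    CFrm t U c → 202 ≤ t → t / 101 ≤ Real.exp b → Real.exp b ≤ t / 99 →
    1 ≤ C * t ^ (1 + ε) * (EE U t b / t ^ 2) := by
  set η : ℝ := min ε 1 / 8 with hη
  have hη0 : 0 < η := by positivity
  have hηε : 8 * η ≤ ε := by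
    have : min ε 1 ≤ ε := min_le_left _ _
    rw [hη]; linarith
  obtain ⟨C₀, hC₀, hdiv⟩ := H41.Eis.divisor_bound η hη0
  refine ⟨4 * 17612 * C₀ ^ 2 * (27 + 5 / η) ^ 2, by positivity, ?_⟩
  intro t b U c h ht hb1 hb2
  have ht0 : 0 < t := by linarith
  have ht1 : 1 ≤ t := by linarith
  set ω := EE U t b / t ^ 2 with hω
  have hω0 : 0 ≤ ω := div_nonneg (EE_nonneg h ht0 hb2) (by positivity)
  set M := ⌊t⌋₊ with hM
  have hMt : (M : ℝ) ≤ t := Nat.floor_le ht0.le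
  have hM1 : 1 ≤ M := by
    rw [hM, Nat.one_le_floor_iff]
    exact ht1
  have hM1r : (1 : ℝ) ≤ M := by exact_mod_cast hM1
  set L := 27 + 5 * Real.log t with hL
  have hlog : 0 ≤ Real.log t := Real.log_nonneg ht1
  have hL0 : 0 < L := by rw [hL]; linarith
  have h1 := SS_ge h ht hb1 hb2
  rw [← hω, ← hL, ← hM] at h1
  set S := SS c M with hS
  have hS0 : 0 ≤ S := SS_nonneg c M
  -- divisor bound
  set D : ℝ := C₀ * t ^ (2 * η) with hD
  have hD0 : 0 ≤ D := by positivity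
  have hDb : ∀ n ∈ Finset.Icc 1 (M ^ 2), (n.divisors.card : ℝ) ≤ D := by
    intro n hn
    rw [Finset.mem_Icc] at hn
    refine (hdiv n hn.1).trans ?_
    rw [hD]
    refine mul_le_mul_of_nonneg_left ?_ (by linarith)
    have h2 : (n : ℝ) ≤ t ^ 2 := by
      calc (n : ℝ) ≤ ((M ^ 2 : ℕ) : ℝ) := by exact_mod_cast hn.2
        _ = (M : ℝ) ^ 2 := by push_cast; ring
        _ ≤ t ^ 2 := by gcongr
    calc (n : ℝ) ^ η ≤ (t ^ 2) ^ η := Real.rpow_le_rpow (Nat.cast_nonneg _) h2 hη0.le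
      _ = t ^ (2 * η) := by
          rw [← Real.rpow_natCast t 2, ← Real.rpow_mul ht0.le]
          norm_num
  have h2 := SS_sq_le h hD0 hDb
  rw [← hS] at h2
  have h3 : (∑ a ∈ Finset.Icc 1 M, SS c ((M / a) ^ 2)) * ω ≤ 17612 * t := by
    rw [Finset.sum_mul]
    calc ∑ a ∈ Finset.Icc 1 M, SS c ((M / a) ^ 2) * ω
        ≤ ∑ a ∈ Finset.Icc 1 M, (12 + 8800 * t * (1 / (a : ℝ) ^ 2)) := by
          refine Finset.sum_le_sum fun a ha => ?_
          rw [Finset.mem_Icc] at ha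
          have hq : 1 ≤ M / a := Nat.div_pos ha.2 (by omega)
          have h4 := SS_le h (by linarith) hb1 hb2 (N := (M / a) ^ 2) (Nat.one_le_pow _ _ hq)
          refine h4.trans ?_
          have ha0 : (0 : ℝ) < a := by exact_mod_cast ha.1
          have h5 : ((M / a : ℕ) : ℝ) ≤ t / a := by
            refine (Nat.cast_div_le).trans ?_
            gcongr
          have h6 : (((M / a) ^ 2 : ℕ) : ℝ) / t ≤ t * (1 / (a : ℝ) ^ 2) := by
            rw [div_le_iff₀ ht0]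
            push_cast
            calc ((M / a : ℕ) : ℝ) ^ 2 ≤ (t / a) ^ 2 := by gcongr
              _ = t * (1 / (a : ℝ) ^ 2) * t := by field_simp
          linarith
      _ = 12 * M + 8800 * t * ∑ a ∈ Finset.Icc 1 M, 1 / (a : ℝ) ^ 2 := by
          rw [Finset.sum_add_distrib, Finset.sum_const, Nat.card_Icc, nsmul_eq_mul,
            ← Finset.mul_sum]
          simp
          ring
      _ ≤ 12 * t + 8800 * t * 2 := by
          have := sum_inv_sq_le M
          gcongr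
      _ = _ := by ring
  have h4 : S ^ 2 * ω ≤ D ^ 2 * (17612 * t) := by
    calc S ^ 2 * ω ≤ (D ^ 2 * ∑ a ∈ Finset.Icc 1 M, SS c ((M / a) ^ 2)) * ω := by gcongr
      _ = D ^ 2 * ((∑ a ∈ Finset.Icc 1 M, SS c ((M / a) ^ 2)) * ω) := by ring
      _ ≤ D ^ 2 * (17612 * t) := by gcongr
  -- combine
  have h5 : 1 ≤ 4 * (S * (ω * L)) ^ 2 := by nlinarith
  have h6 : (S * (ω * L)) ^ 2 = S ^ 2 * ω * (ω * L ^ 2) := by ring
  have h7 : 1 ≤ 4 * (D ^ 2 * (17612 * t) * (ω * L ^ 2)) := by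
    rw [h6] at h5
    refine h5.trans ?_
    gcongr
  have hLη : L ≤ (27 + 5 / η) * t ^ η := by
    have h8 : Real.log t ≤ t ^ η / η := Real.log_le_rpow_div ht0.le hη0
    have h9 : 1 ≤ t ^ η := Real.one_le_rpow ht1 hη0.le
    calc L = 27 * 1 + 5 * Real.log t := by rw [hL]; ring
      _ ≤ 27 * t ^ η + 5 * (t ^ η / η) := by gcongr
      _ = (27 + 5 / η) * t ^ η := by ring
  refine h7.trans ?_
  have h10 : D ^ 2 * t * (t ^ η) ^ 2 ≤ C₀ ^ 2 * t ^ (1 + ε) := by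
    rw [hD, mul_pow, ← Real.rpow_natCast (t ^ (2 * η)) 2, ← Real.rpow_natCast (t ^ η) 2,
      ← Real.rpow_mul ht0.le, ← Real.rpow_mul ht0.le]
    rw [mul_assoc, mul_assoc]
    refine mul_le_mul_of_nonneg_left ?_ (by positivity)
    nth_rw 2 [← Real.rpow_one t]
    rw [← Real.rpow_add ht0, ← Real.rpow_add ht0]
    refine Real.rpow_le_rpow_of_exponent_le ht1 ?_
    push_cast
    linarith
  calc 4 * (D ^ 2 * (17612 * t) * (ω * L ^ 2))
      ≤ 4 * (D ^ 2 * (17612 * t) * (ω * ((27 + 5 / η) * t ^ η) ^ 2)) := by gcongr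
    _ = 4 * 17612 * (27 + 5 / η) ^ 2 * (D ^ 2 * t * (t ^ η) ^ 2) * ω := by ring
    _ ≤ 4 * 17612 * (27 + 5 / η) ^ 2 * (C₀ ^ 2 * t ^ (1 + ε)) * ω := by gcongr
    _ = _ := by ring

end Pool.Agent.H19.Maass
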