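import Mathlib
import Pool.Agent.H19.Maass.StripMass
import Pool.Agent.H19.Maass.Forms
import Pool.Agent.H19.Maass.OmegaLow
import Pool.Agent.H19.Maass.Corr

set_option autoImplicit false

namespace Pool.Agent.H19.Maass

open MeasureTheory Set Filter Topology UpperHalfPlane ModularGroup
open scoped MatrixGroups Modular UpperHalfPlane ENNReal
open scoped ComplexConjugate

/-- linear combination -/
noncomputable def lc {J : Type*} [Fintype J] (a : J → ℂ) (U : J → ℂ → ℂ) (z : ℂ) : ℂ :=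
  ∑ j, a j * U j z

variable {J : Type} [Fintype J] {t : J → ℝ} {U : J → ℂ → ℂ} {c : J → ℕ → ℂ}

lemma lc_cont (h : ∀ j, CFrm (t j) (U j) (c j)) (a : J → ℂ) : ContinuousOn (lc a U) UH := by
  unfold lc
  exact continuousOn_finsetSum _ fun j _ => (h j).cont.const_mul (a j)

lemma lc_contH (h : ∀ j, CFrm (t j) (U j) (c j)) (a : J → ℂ) :
    Continuous fun w : ℍ => lc a U w := continuous_coe_of (lc_cont h a)

lemma lc_inv (h : ∀ j, CFrm (t j) (U j) (c j)) (a : J → ℂ) (γ : SL(2, ℤ)) (w : ℍ) :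
    lc a U ((γ • w : ℍ) : ℂ) = lc a U w := by
  unfold lc
  exact Finset.sum_congr rfl fun j _ => by rw [(h j).inv]

lemma lc_per (h : ∀ j, CFrm (t j) (U j) (c j)) (a : J → ℂ) (z : ℂ) (hz : 0 < z.im) :
    lc a U (z + 1) = lc a U z := by
  unfold lc
  exact Finset.sum_congr rfl fun j _ => by rw [(h j).per z hz]

lemma fcf_lc (h : ∀ j, CFrm (t j) (U j) (c j)) (a : J → ℂ) (n : ℤ) {y : ℝ} (hy : 0 < y) :
    fcf (lc a U) n y = ∑ j, a j * fcf (U j) n y := by
  unfold fcf lc
  simp_rw [Finset.sum_mul]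
  rw [intervalIntegral.integral_finsetSum]
  · refine Finset.sum_congr rfl fun j _ => ?_
    rw [← intervalIntegral.integral_const_mul]
    exact intervalIntegral.integral_congr fun x _ => mul_assoc _ _ _
  · intro j _
    refine Continuous.intervalIntegrable ?_ _ _
    exact (continuous_const.mul (continuous_line (F := U j) rfl (h j).cont hy)).mul
      (continuous_en n)

lemma lintegral_lc (h : ∀ j, CFrm (t j) (U j) (c j)) (horth : Orth U) (a : J → ℂ) :
    ∫⁻ w : ℍ in 𝒟, ENNReal.ofReal (‖lc a U w‖ ^ 2) = ENNReal.ofReal (∑ j, ‖a j‖ ^ 2) := by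
  classical
  have hL : MemLp (fun w : ℍ => lc a U w) 2 ((volume : Measure ℍ).restrict 𝒟) := by
    unfold lc
    exact memLp_finsetSum _ fun j _ => (h j).l2.const_mul (a j)
  have hint : Integrable (fun w : ℍ => ‖lc a U w‖ ^ 2) (volume.restrict 𝒟) :=
    (memLp_two_iff_integrable_sq_norm (lc_contH h a).aestronglyMeasurable).1 hL
  rw [← ofReal_integral_eq_lintegral_ofReal hint (Eventually.of_forall fun _ => by positivity)]
  congr 1
  have h1 : ((∫ w : ℍ in 𝒟, ‖lc a U w‖ ^ 2 : ℝ) : ℂ) = ((∑ j, ‖a j‖ ^ 2 : ℝ) : ℂ) := by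
    rw [← integral_complex_ofReal]
    have h2 : ∀ w : ℍ, ((‖lc a U w‖ ^ 2 : ℝ) : ℂ) = ∑ i, ∑ j, (a i * conj (a j)) *
        (U i w * conj (U j w)) := by
      intro w
      rw [← Complex.normSq_eq_norm_sq, ← Complex.mul_conj]
      unfold lc
      rw [map_sum, Finset.sum_mul_sum]
      refine Finset.sum_congr rfl fun i _ => Finset.sum_congr rfl fun j _ => ?_
      rw [map_mul]
      ring
    simp_rw [h2]
    have hi : ∀ i j, Integrable (fun w : ℍ => (a i * conj (a j)) * (U i w * conj (U j w)))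
        (volume.restrict 𝒟) := by
      intro i j
      refine Integrable.const_mul ?_ _
      exact (h i).l2.integrable_mul (h j).l2.star
    rw [integral_finsetSum _ fun i _ => integrable_finsetSum _ fun j _ => hi i j]
    have h3 : ∀ i, ∫ w : ℍ in 𝒟, ∑ j, (a i * conj (a j)) * (U i w * conj (U j w)) =
        ((‖a i‖ ^ 2 : ℝ) : ℂ) := by
      intro i
      rw [integral_finsetSum _ fun j _ => hi i j, Finset.sum_eq_single i]
      · rw [integral_const_mul, (h i).nrm, mul_one, Complex.mul_conj, Complex.normSq_eq_norm_sq]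
      · intro j _ hj
        rw [integral_const_mul, horth i j (Ne.symm hj), mul_zero]
      · intro hi; exact absurd (Finset.mem_univ i) hi
    rw [Finset.sum_congr rfl fun i _ => h3 i]
    push_cast
    rfl
  exact_mod_cast h1

lemma strip_lc_le (h : ∀ j, CFrm (t j) (U j) (c j)) (horth : Orth U) (a : J → ℂ) :
    strip (lc a U) 1 ≤ ENNReal.ofReal (11 * ∑ j, ‖a j‖ ^ 2) := by
  have hm : Measurable fun w : ℍ => ENNReal.ofReal (‖lc a U w‖ ^ 2) :=
    ENNReal.measurable_ofReal.comp (((lc_contH h a).norm.pow 2).measurable)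
  have h1 := lintegral_unfold ((measurable_ic (measurableSet_strip 1)).mul hm)
  have h2 : ∫⁻ w in 𝒟, ∑' σ : SL(2, ℤ), (ic (inStrip 1 (σ • w)) *
      ENNReal.ofReal (‖lc a U ((σ • w : ℍ) : ℂ)‖ ^ 2)) ≤ ENNReal.ofReal (11 * ∑ j, ‖a j‖ ^ 2) := by
    calc ∫⁻ w in 𝒟, ∑' σ : SL(2, ℤ), (ic (inStrip 1 (σ • w)) *
        ENNReal.ofReal (‖lc a U ((σ • w : ℍ) : ℂ)‖ ^ 2))
        ≤ ∫⁻ w : ℍ in 𝒟, ENNReal.ofReal 11 * ENNReal.ofReal (‖lc a U w‖ ^ 2) := by
          refine setLIntegral_mono (hm.const_mul _) fun w hw => ?_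
          simp_rw [lc_inv h]
          rw [ENNReal.tsum_mul_right]
          gcongr
          have := count_strip one_pos (half_le_im_of_fd hw)
          norm_num at this ⊢
          exact this
      _ = _ := by
          rw [lintegral_const_mul _ hm, lintegral_lc h horth, ← ENNReal.ofReal_mul (by norm_num)]
  have h3 : 2 * ∫⁻ w : ℍ, ic (inStrip 1 w) * ENNReal.ofReal (‖lc a U w‖ ^ 2) ≤
      ENNReal.ofReal (11 * ∑ j, ‖a j‖ ^ 2) := by
    rw [← show _ = 2 * ∫⁻ w : ℍ, ic (inStrip 1 w) * ENNReal.ofReal (‖lc a U w‖ ^ 2) from h1]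
    exact h2
  refine le_trans ?_ h3
  unfold strip
  rw [two_mul]
  exact le_self_add

/-- Parseval on horocycles for periodic functions -/
lemma inner_parseval' {F : ℂ → ℂ} (hF : ContinuousOn F UH)
    (hper : ∀ z : ℂ, 0 < z.im → F (z + 1) = F z) (a : ℝ) :
    ∫⁻ x : ℝ in Ico (-(1 / 2)) (1 / 2), ENNReal.ofReal (‖F (pt x a)‖ ^ 2) =
      ∑' n : ℤ, ENNReal.ofReal (‖fcf F n (Real.exp a)‖ ^ 2) := by
  have hy := Real.exp_pos a
  have hc : Continuous fun x : ℝ => F (x + Real.exp a * Complex.I) :=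
    continuous_line (F := F) rfl hF hy
  have hpt : ∀ x : ℝ, ((pt x a : ℍ) : ℂ) = x + (Real.exp a : ℝ) * Complex.I := by
    intro x
    apply Complex.ext <;> simp [pt, -Complex.ofReal_exp]
  simp_rw [hpt]
  have hsum := hasSum_fcf hF hy
  have hper' := per_shift hper hy
  have hp2 : Function.Periodic (fun x : ℝ => ‖F (x + Real.exp a * Complex.I)‖ ^ 2) 1 := fun x => by
    have := hper' x
    simp only at this ⊢
    rw [this]
  have h2 := hp2.intervalIntegral_add_eq 0 (-(1 / 2))
  rw [zero_add, show -(1 / 2 : ℝ) + 1 = 1 / 2 by norm_num] at h2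
  rw [← ENNReal.ofReal_tsum_of_nonneg (fun n => by positivity) hsum.summable, hsum.tsum_eq, h2,
    intervalIntegral.integral_of_le (by norm_num), ← integral_Ico_eq_integral_Ioc]
  rw [ofReal_integral_eq_lintegral_ofReal]
  · exact ((hc.norm.pow 2).integrableOn_Icc (a := -(1 / 2)) (b := 1 / 2)).mono_set
      Ico_subset_Icc_self
  · exact Eventually.of_forall fun _ => by positivity

/-- Bessel's inequality in the strip -/
lemma strip_ge {F : ℂ → ℂ} (hF : ContinuousOn F UH)
    (hper : ∀ z : ℂ, 0 < z.im → F (z + 1) = F z)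
    (hcf : ∀ n : ℤ, Continuous fun a : ℝ => fcf F n (Real.exp a)) (s : Finset ℤ) :
    ∑ n ∈ s, ∫⁻ a : ℝ in Ioi 0, ENNReal.ofReal (Real.exp (-a)) *
      ENNReal.ofReal (‖fcf F n (Real.exp a)‖ ^ 2) ≤ strip F 1 := by
  have hm : Measurable fun w : ℍ => ENNReal.ofReal (‖F w‖ ^ 2) :=
    ENNReal.measurable_ofReal.comp (((continuous_coe_of hF).norm.pow 2).measurable)
  have hm2 : Measurable fun w : ℍ => ic (inStrip 1 w) * ENNReal.ofReal (‖F w‖ ^ 2) :=
    (measurable_ic (measurableSet_strip 1)).mul hm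
  unfold strip
  rw [horo_l hm2]
  have hexp : Measurable fun a : ℝ => ENNReal.ofReal (Real.exp (-a)) :=
    ENNReal.measurable_ofReal.comp (Real.continuous_exp.comp continuous_neg).measurable
  have hmeas : ∀ n : ℤ, Measurable fun a : ℝ => ENNReal.ofReal (‖fcf F n (Real.exp a)‖ ^ 2) :=
    fun n => ENNReal.measurable_ofReal.comp ((hcf n).norm.pow 2).measurable
  have hm3 : ∀ n : ℤ, Measurable fun a : ℝ => ENNReal.ofReal (Real.exp (-a)) *
      ENNReal.ofReal (‖fcf F n (Real.exp a)‖ ^ 2) := fun n => hexp.mul (hmeas n)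
  rw [← lintegral_finsetSum _ fun n _ => hm3 n]
  rw [← lintegral_indicator measurableSet_Ioi]
  refine lintegral_mono fun a => ?_
  by_cases ha : a ∈ Ioi (0 : ℝ)
  · rw [indicator_of_mem ha, ← Finset.mul_sum]
    refine mul_le_mul_right ?_ _
    have h1 : ∫⁻ x : ℝ, ic (inStrip 1 (pt x a)) * ENNReal.ofReal (‖F (pt x a)‖ ^ 2) =
        ∑' n : ℤ, ENNReal.ofReal (‖fcf F n (Real.exp a)‖ ^ 2) := by
      rw [← inner_parseval' hF hper a, ← lintegral_indicator measurableSet_Ico]
      refine lintegral_congr fun x => ?_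
      have h3 : inStrip 1 (pt x a) ↔ x ∈ Ico (-(1 / 2 : ℝ)) (1 / 2) := by
        unfold inStrip
        rw [pt_im, pt_re, mem_Ico]
        have : 1 < Real.exp a := Real.one_lt_exp_iff.2 ha
        tauto
      by_cases hx : x ∈ Ico (-(1 / 2 : ℝ)) (1 / 2)
      · rw [ic_true (h3.2 hx), indicator_of_mem hx, one_mul]
      · rw [ic_false (fun h' => hx (h3.1 h')), indicator_of_notMem hx, zero_mul]
    rw [h1]
    exact ENNReal.sum_le_tsum s
  · rw [indicator_of_notMem ha]
    exact zero_le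

/-- **Dual large sieve in the cusp.** -/
theorem cusp_dual (h : ∀ j, CFrm (t j) (U j) (c j)) (horth : Orth U) (a : J → ℂ)
    (𝒩 : Finset ℕ) {b : ℝ} (h𝒩 : ∀ n ∈ 𝒩, 1 ≤ n ∧ (n : ℝ) ≤ Real.exp (b - 1)) {e : ℤ}
    (he : e ^ 2 = 1) :
    ∑ n ∈ 𝒩, 1 / (n : ℝ) * ∫ r in (b - 1)..b, ‖∑ j, a j * c j n * lf (U j) e r‖ ^ 2 ≤
      11 * ∑ j, ‖a j‖ ^ 2 := by
  classical
  have hcU : ∀ (j : J) (n : ℤ), Continuous fun a : ℝ => fcf (U j) n (Real.exp a) := by
    intro j n
    obtain ⟨v1, hv, _⟩ := fcf_ode (h j).eig' (h j).per n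
    refine continuous_iff_continuousAt.2 fun a => ?_
    exact (ContinuousAt.comp (g := fcf (U j) n) (f := Real.exp)
      (hv _ (Real.exp_pos a)).continuousAt Real.continuous_exp.continuousAt)
  have hcf : ∀ n : ℤ, Continuous fun x : ℝ => fcf (lc a U) n (Real.exp x) := by
    intro n
    have h1 : (fun x : ℝ => fcf (lc a U) n (Real.exp x)) =
        fun x => ∑ j, a j * fcf (U j) n (Real.exp x) := funext fun x => fcf_lc h a n (Real.exp_pos x)
    rw [h1]
    exact continuous_finsetSum _ fun j _ => (hcU j n).const_mul _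
  have hinj : Set.InjOn (fun n : ℕ => e * (n : ℤ)) (𝒩 : Set ℕ) := by
    intro x _ y _ hxy
    simp only at hxy
    have he0 : e ≠ 0 := by rintro rfl; norm_num at he
    have := mul_left_cancel₀ he0 hxy
    exact_mod_cast this
  have hmain := (strip_ge (lc_cont h a) (lc_per h a) hcf (𝒩.image fun n : ℕ => e * (n : ℤ))).trans
    (strip_lc_le h horth a)
  rw [Finset.sum_image hinj] at hmain
  have hG : ∀ n : ℕ, Continuous fun r => ‖∑ j, a j * c j n * lf (U j) e r‖ ^ 2 := by
    intro n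
    refine Continuous.pow (Continuous.norm ?_) 2
    exact continuous_finsetSum _ fun j _ => (continuous_lf (h j) he).const_mul _
  have hpiece : ∀ n ∈ 𝒩, ENNReal.ofReal (1 / (n : ℝ) *
      ∫ r in (b - 1)..b, ‖∑ j, a j * c j n * lf (U j) e r‖ ^ 2) ≤
      ∫⁻ x : ℝ in Ioi 0, ENNReal.ofReal (Real.exp (-x)) *
      ENNReal.ofReal (‖fcf (lc a U) (e * (n : ℤ)) (Real.exp x)‖ ^ 2) := by
    intro n hn
    obtain ⟨hn1, hn2⟩ := h𝒩 n hn
    have hn0 : (0 : ℝ) < n := by exact_mod_cast hn1
    have hlog : Real.log n ≤ b - 1 := by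
      rw [← Real.log_exp (b - 1)]
      exact Real.log_le_log hn0 hn2
    have h3 : ∀ x : ℝ, ENNReal.ofReal (Real.exp (-x)) *
        ENNReal.ofReal (‖fcf (lc a U) (e * (n : ℤ)) (Real.exp x)‖ ^ 2) =
        ENNReal.ofReal (1 / (n : ℝ) * ‖∑ j, a j * c j n * lf (U j) e (x + Real.log n)‖ ^ 2) := by
      intro x
      rw [← ENNReal.ofReal_mul (Real.exp_pos _).le]
      congr 1
      rw [fcf_lc h a _ (Real.exp_pos x)]
      have h4 : (n : ℝ) * Real.exp x = Real.exp (x + Real.log n) := by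
        rw [Real.exp_add, Real.exp_log hn0]; ring
      have h5 : ∀ j, a j * fcf (U j) (e * (n : ℤ)) (Real.exp x) =
          (((Real.exp ((x + Real.log n) / 2) / n : ℝ)) : ℂ) *
            (a j * c j n * lf (U j) e (x + Real.log n)) := by
        intro j
        rw [(h j).fcf_mul he hn1 (Real.exp_pos x), h4]
        unfold lf
        have h6 : Real.exp (-((x + Real.log n) / 2)) = (Real.exp ((x + Real.log n) / 2))⁻¹ :=
          Real.exp_neg _
        rw [h6]
        have h7 : ((Real.exp ((x + Real.log n) / 2) : ℝ) : ℂ) ≠ 0 := by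
          exact_mod_cast (Real.exp_pos _).ne'
        have h8 : (n : ℂ) ≠ 0 := by exact_mod_cast hn0.ne'
        rw [Complex.ofReal_div, Complex.ofReal_inv, Complex.ofReal_natCast]
        field_simp
      rw [Finset.sum_congr rfl fun j _ => h5 j, ← Finset.mul_sum, norm_mul, mul_pow,
        Complex.norm_real, Real.norm_eq_abs, sq_abs, div_pow, ← Real.exp_nat_mul]
      have h9 : ((2 : ℕ) : ℝ) * ((x + Real.log n) / 2) = x + Real.log n := by push_cast; ring
      rw [h9, Real.exp_add, Real.exp_log hn0, Real.exp_neg]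
      have := Real.exp_pos x
      field_simp
    simp_rw [h3]
    have h10 : ∫⁻ x : ℝ in Ioi 0, ENNReal.ofReal (1 / (n : ℝ) *
        ‖∑ j, a j * c j n * lf (U j) e (x + Real.log n)‖ ^ 2) ≥
        ∫⁻ r in Ioc (b - 1) b, ENNReal.ofReal (1 / (n : ℝ) *
          ‖∑ j, a j * c j n * lf (U j) e r‖ ^ 2) := by
      rw [← lintegral_indicator measurableSet_Ioi, ← lintegral_indicator measurableSet_Ioc,
        ← lintegral_add_right_eq_self (fun r => (Ioc (b - 1) b).indicator
          (fun r => ENNReal.ofReal (1 / (n : ℝ) * ‖∑ j, a j * c j n * lf (U j) e r‖ ^ 2)) r)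
          (Real.log n)]
      refine lintegral_mono fun x => ?_
      by_cases hx : x + Real.log n ∈ Ioc (b - 1) b
      · rw [indicator_of_mem hx, indicator_of_mem]
        rw [mem_Ioi]
        linarith [hx.1]
      · rw [indicator_of_notMem hx]
        exact zero_le
    refine le_trans (le_of_eq ?_) h10
    rw [← intervalIntegral.integral_const_mul, intervalIntegral.integral_of_le (by linarith),
      ofReal_integral_eq_lintegral_ofReal]
    · exact ((continuous_const.mul (hG n)).integrableOn_Icc (a := b - 1) (b := b)).mono_set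
        Ioc_subset_Icc_self
    · exact Eventually.of_forall fun _ => by positivity
  have hfin := (Finset.sum_le_sum hpiece).trans hmain
  rw [← ENNReal.ofReal_sum_of_nonneg] at hfin
  · exact (ENNReal.ofReal_le_ofReal_iff (by positivity)).1 hfin
  · intro n _
    refine mul_nonneg (by positivity) ?_
    exact intervalIntegral.integral_nonneg (by linarith) fun _ _ => by positivity

end Pool.Agent.H19.Maass
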