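import Mathlib
import Pool.Agent.H19.Maass.Cusp

set_option autoImplicit false

namespace Pool.Agent.H19.Maass

open MeasureTheory Set Filter Topology UpperHalfPlane ModularGroup
open scoped MatrixGroups Modular UpperHalfPlane ENNReal
open scoped ComplexConjugate

variable {J : Type} [Fintype J] {t : J → ℝ} {U : J → ℂ → ℂ} {c : J → ℕ → ℂ}

theorem cusp_sieve (h : ∀ j, CFrm (t j) (U j) (c j)) (horth : Orth U)
    (𝒩 : Finset ℕ) {b : ℝ} (h𝒩 : ∀ n ∈ 𝒩, 1 ≤ n ∧ (n : ℝ) ≤ Real.exp (b - 1)) {e : ℤ}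
    (he : e ^ 2 = 1) (β : ℕ → ℂ) {W : ℝ → ℂ} (hW : Continuous W) {M : ℝ}
    (hM : ∀ r, ‖W r‖ ≤ M) :
    ∑ j, ‖∑ n ∈ 𝒩, β n * c j n‖ ^ 2 * ‖∫ r in (b - 1)..b, W r * lf (U j) e r‖ ^ 2 ≤
      11 * M ^ 2 * ∑ n ∈ 𝒩, n * ‖β n‖ ^ 2 := by
  classical
  set B : J → ℂ := fun j => ∑ n ∈ 𝒩, β n * c j n with hB
  set I : J → ℂ := fun j => ∫ r in (b - 1)..b, W r * lf (U j) e r with hI
  set a : J → ℂ := fun j => conj (B j * I j) with ha
  set X : ℝ := ∑ j, ‖B j‖ ^ 2 * ‖I j‖ ^ 2 with hX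
  have hX' : X = ∑ j, ‖a j‖ ^ 2 := by
    rw [hX]
    refine Finset.sum_congr rfl fun j _ => ?_
    rw [ha]; simp only
    rw [RCLike.norm_conj, norm_mul, mul_pow]
  have hcl : ∀ j, Continuous (lf (U j) e) := fun j => continuous_lf (h j) he
  set G : ℕ → ℝ → ℂ := fun n r => ∑ j, a j * c j n * lf (U j) e r with hG
  have hGc : ∀ n, Continuous (G n) := fun n =>
    continuous_finsetSum _ fun j _ => (hcl j).const_mul _
  have hXc : (X : ℂ) = ∑ n ∈ 𝒩, β n * ∫ r in (b - 1)..b, W r * G n r := by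
    have h1 : (X : ℂ) = ∑ j, a j * (B j * I j) := by
      rw [hX]
      push_cast
      refine Finset.sum_congr rfl fun j _ => ?_
      rw [ha]; simp only
      rw [mul_comm (conj _), Complex.mul_conj, Complex.normSq_eq_norm_sq, norm_mul]
      push_cast
      ring
    have h2 : ∀ n, ∫ r in (b - 1)..b, W r * G n r = ∑ j, a j * c j n * I j := by
      intro n
      have h3 : ∀ r, W r * G n r = ∑ j, a j * c j n * (W r * lf (U j) e r) := by
        intro r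
        rw [hG]; simp only
        rw [Finset.mul_sum]
        exact Finset.sum_congr rfl fun j _ => by ring
      simp_rw [h3]
      have h4 : ∀ j, Continuous fun r => a j * c j n * (W r * lf (U j) e r) := fun j =>
        (hW.mul (hcl j)).const_mul _
      rw [intervalIntegral.integral_finsetSum fun j _ => (h4 j).intervalIntegrable _ _]
      refine Finset.sum_congr rfl fun j _ => ?_
      rw [intervalIntegral.integral_const_mul]
    rw [h1]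
    simp_rw [h2]
    rw [hB]
    simp only
    simp_rw [Finset.sum_mul, Finset.mul_sum]
    rw [Finset.sum_comm]
    exact Finset.sum_congr rfl fun n _ => Finset.sum_congr rfl fun j _ => by ring
  have hb : b - 1 ≤ b := by linarith
  have hpiece : ∀ n ∈ 𝒩, ‖β n * ∫ r in (b - 1)..b, W r * G n r‖ ≤
      11 / 2 * M ^ 2 * (n * ‖β n‖ ^ 2) + 1 / 22 * (1 / (n : ℝ) * ∫ r in (b - 1)..b, ‖G n r‖ ^ 2) := by
    intro n hn
    have hn0 : (0 : ℝ) < n := by exact_mod_cast (h𝒩 n hn).1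
    have h1 : ‖β n * ∫ r in (b - 1)..b, W r * G n r‖ ≤
        ∫ r in (b - 1)..b, (11 / 2 * M ^ 2 * (n * ‖β n‖ ^ 2) + 1 / 22 * (1 / (n : ℝ) *
          ‖G n r‖ ^ 2)) := by
      rw [norm_mul]
      have h2 : ‖∫ r in (b - 1)..b, W r * G n r‖ ≤ ∫ r in (b - 1)..b, ‖W r * G n r‖ :=
        intervalIntegral.norm_integral_le_integral_norm hb
      refine (mul_le_mul_of_nonneg_left h2 (norm_nonneg _)).trans ?_
      rw [← intervalIntegral.integral_const_mul]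
      have hc2 := (hGc n)
      refine intervalIntegral.integral_mono_on hb ?_ ?_ fun r _ => ?_
      · exact Continuous.intervalIntegrable (by fun_prop) _ _
      · exact Continuous.intervalIntegrable (by fun_prop) _ _
      · rw [norm_mul]
        have h3 : ‖W r‖ * ‖G n r‖ ≤ M * ‖G n r‖ :=
          mul_le_mul_of_nonneg_right (hM r) (norm_nonneg _)
        calc ‖β n‖ * (‖W r‖ * ‖G n r‖) ≤ ‖β n‖ * (M * ‖G n r‖) := by gcongr
          _ ≤ _ := by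
            have h4 : 11 / 2 * M ^ 2 * (n * ‖β n‖ ^ 2) + 1 / 22 * (1 / (n : ℝ) * ‖G n r‖ ^ 2) -
                ‖β n‖ * (M * ‖G n r‖) = 1 / (22 * n) * (11 * n * M * ‖β n‖ - ‖G n r‖) ^ 2 := by
              field_simp
              ring
            have h5 : 0 ≤ 1 / (22 * (n : ℝ)) * (11 * n * M * ‖β n‖ - ‖G n r‖) ^ 2 := by positivity
            linarith
    refine h1.trans (le_of_eq ?_)
    rw [intervalIntegral.integral_add (by simp) (by
      refine Continuous.intervalIntegrable ?_ _ _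
      have := hGc n
      fun_prop), intervalIntegral.integral_const, intervalIntegral.integral_const_mul,
      intervalIntegral.integral_const_mul]
    simp
  have hX0 : 0 ≤ X := by rw [hX]; positivity
  have h5 : X ≤ ∑ n ∈ 𝒩, (11 / 2 * M ^ 2 * (n * ‖β n‖ ^ 2) +
      1 / 22 * (1 / (n : ℝ) * ∫ r in (b - 1)..b, ‖G n r‖ ^ 2)) := by
    have h6 : X = ‖(X : ℂ)‖ := by rw [Complex.norm_real, Real.norm_of_nonneg hX0]
    rw [h6, hXc]
    exact (norm_sum_le _ _).trans (Finset.sum_le_sum hpiece)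
  have h7 := cusp_dual h horth a 𝒩 h𝒩 he
  rw [← hX'] at h7
  rw [Finset.sum_add_distrib, ← Finset.mul_sum, ← Finset.mul_sum] at h5
  have h8 : ∑ n ∈ 𝒩, 1 / (n : ℝ) * ∫ r in (b - 1)..b, ‖G n r‖ ^ 2 ≤ 11 * X := h7
  linarith

/-- **Large sieve inequality in a short window.** -/
theorem large_sieve (ε : ℝ) (hε : 0 < ε) : ∃ C : ℝ, 0 < C ∧ ∀ T : ℝ, 210 ≤ T →
    ∀ (J : Type) [Fintype J] (t : J → ℝ) (U : J → ℂ → ℂ) (c : J → ℕ → ℂ),
    (∀ j, |t j - T| ≤ 1 / 20) → (∀ j, CFrm (t j) (U j) (c j)) → Orth U →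
    ∀ (𝒩 : Finset ℕ), (∀ n ∈ 𝒩, 1 ≤ n ∧ (n : ℝ) ≤ T / 272) → ∀ β : ℕ → ℂ,
    ∑ j, ‖∑ n ∈ 𝒩, β n * c j n‖ ^ 2 ≤ C * T ^ (1 + ε) * ∑ n ∈ 𝒩, n * ‖β n‖ ^ 2 := by
  obtain ⟨C, hC, homega⟩ := omega_ge ε hε
  refine ⟨C * 2 ^ (1 + ε) * 230, by positivity, ?_⟩
  intro T hT J _ t U c ht hF horth 𝒩 h𝒩 β
  classical
  have hT0 : 0 < T := by linarith
  set b : ℝ := Real.log (T / 100) with hb
  have hexpb : Real.exp b = T / 100 := Real.exp_log (by positivity)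
  have h𝒩' : ∀ n ∈ 𝒩, 1 ≤ n ∧ (n : ℝ) ≤ Real.exp (b - 1) := by
    intro n hn
    refine ⟨(h𝒩 n hn).1, (h𝒩 n hn).2.trans ?_⟩
    rw [Real.exp_sub, hexpb, div_le_div_iff₀ (by norm_num) (Real.exp_pos 1)]
    have := Real.exp_one_lt_d9
    nlinarith
  set S : ℝ := ∑ n ∈ 𝒩, n * ‖β n‖ ^ 2 with hS
  have hS0 : 0 ≤ S := Finset.sum_nonneg fun n _ => by positivity
  set B : J → ℂ := fun j => ∑ n ∈ 𝒩, β n * c j n with hB
  have hpiece : ∀ (σ : ℝ) (e : ℤ), e ^ 2 = 1 → ∑ j, ‖B j‖ ^ 2 *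
      ‖∫ r in (b - 1)..b, ((sr T r : ℝ) : ℂ) * lf (U j) e r * tw σ T b r‖ ^ 2 ≤
      11 * T ^ 2 * S := by
    intro σ e he
    have hW : Continuous fun r => ((sr T r : ℝ) : ℂ) * tw σ T b r :=
      (Complex.continuous_ofReal.comp (continuous_sr T)).mul (continuous_tw σ T b)
    have h1 := cusp_sieve hF horth 𝒩 h𝒩' he β hW (M := T) (fun r => by
      rw [norm_mul, norm_tw, mul_one, Complex.norm_real,
        Real.norm_of_nonneg (show 0 ≤ sr T r from Real.sqrt_nonneg _)]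
      exact sr_le hT0 r)
    refine le_trans (le_of_eq ?_) h1
    refine Finset.sum_congr rfl fun j _ => ?_
    congr 3
    refine intervalIntegral.integral_congr fun r _ => ?_
    change ((sr T r : ℝ) : ℂ) * lf (U j) e r * tw σ T b r =
      ((sr T r : ℝ) : ℂ) * tw σ T b r * lf (U j) e r
    ring
  have hE : ∀ j, EE (U j) (t j) b ≤ 5 * ((‖∫ r in (b - 1)..b, ((sr T r : ℝ) : ℂ) *
      lf (U j) 1 r * tw 1 T b r‖ ^ 2 + ‖∫ r in (b - 1)..b, ((sr T r : ℝ) : ℂ) *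
      lf (U j) 1 r * tw (-1) T b r‖ ^ 2) + (‖∫ r in (b - 1)..b, ((sr T r : ℝ) : ℂ) *
      lf (U j) (-1) r * tw 1 T b r‖ ^ 2 + ‖∫ r in (b - 1)..b, ((sr T r : ℝ) : ℂ) *
      lf (U j) (-1) r * tw (-1) T b r‖ ^ 2)) := by
    intro j
    unfold EE
    rw [mul_add]
    exact add_le_add (corr ((hF j).sol (by norm_num)) (by linarith) (ht j) hexpb.le)
      (corr ((hF j).sol (by norm_num)) (by linarith) (ht j) hexpb.le)
  have hsum : ∑ j, ‖B j‖ ^ 2 * EE (U j) (t j) b ≤ 220 * T ^ 2 * S := by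
    calc ∑ j, ‖B j‖ ^ 2 * EE (U j) (t j) b
        ≤ ∑ j, ‖B j‖ ^ 2 * (5 * ((‖∫ r in (b - 1)..b, ((sr T r : ℝ) : ℂ) *
      lf (U j) 1 r * tw 1 T b r‖ ^ 2 + ‖∫ r in (b - 1)..b, ((sr T r : ℝ) : ℂ) *
      lf (U j) 1 r * tw (-1) T b r‖ ^ 2) + (‖∫ r in (b - 1)..b, ((sr T r : ℝ) : ℂ) *
      lf (U j) (-1) r * tw 1 T b r‖ ^ 2 + ‖∫ r in (b - 1)..b, ((sr T r : ℝ) : ℂ) *
      lf (U j) (-1) r * tw (-1) T b r‖ ^ 2))) :=
          Finset.sum_le_sum fun j _ => mul_le_mul_of_nonneg_left (hE j) (by positivity)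
      _ = 5 * (∑ j, ‖B j‖ ^ 2 * ‖∫ r in (b - 1)..b, ((sr T r : ℝ) : ℂ) *
      lf (U j) 1 r * tw 1 T b r‖ ^ 2 + ∑ j, ‖B j‖ ^ 2 * ‖∫ r in (b - 1)..b, ((sr T r : ℝ) : ℂ) *
      lf (U j) 1 r * tw (-1) T b r‖ ^ 2 + (∑ j, ‖B j‖ ^ 2 * ‖∫ r in (b - 1)..b, ((sr T r : ℝ) : ℂ) *
      lf (U j) (-1) r * tw 1 T b r‖ ^ 2 + ∑ j, ‖B j‖ ^ 2 * ‖∫ r in (b - 1)..b, ((sr T r : ℝ) : ℂ) *
      lf (U j) (-1) r * tw (-1) T b r‖ ^ 2)) := by
          simp_rw [← Finset.sum_add_distrib]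
          rw [Finset.mul_sum]
          exact Finset.sum_congr rfl fun j _ => by ring
      _ ≤ 5 * (11 * T ^ 2 * S + 11 * T ^ 2 * S + (11 * T ^ 2 * S + 11 * T ^ 2 * S)) := by
          gcongr
          · exact hpiece 1 1 (by norm_num)
          · exact hpiece (-1) 1 (by norm_num)
          · exact hpiece 1 (-1) (by norm_num)
          · exact hpiece (-1) (-1) (by norm_num)
      _ = _ := by ring
  have hfin : ∀ j, ‖B j‖ ^ 2 ≤ C * (2 ^ (1 + ε) * T ^ (1 + ε)) / (0.99 * T) ^ 2 *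
      (‖B j‖ ^ 2 * EE (U j) (t j) b) := by
    intro j
    have h1 := abs_le.1 (ht j)
    have ht0 : 0 < t j := by linarith [h1.1]
    have h2 := homega (t j) b (U j) (c j) (hF j) (by linarith [h1.1]) (by
      rw [hexpb]; linarith [h1.2]) (by rw [hexpb]; linarith [h1.1])
    have hEE : 0 ≤ EE (U j) (t j) b := EE_nonneg (hF j) ht0 (by rw [hexpb]; linarith [h1.1])
    have h3 : (t j) ^ (1 + ε) ≤ 2 ^ (1 + ε) * T ^ (1 + ε) := by
      rw [← Real.mul_rpow (by norm_num) hT0.le]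
      exact Real.rpow_le_rpow ht0.le (by linarith [h1.2]) (by linarith)
    have h4 : EE (U j) (t j) b / (t j) ^ 2 ≤ EE (U j) (t j) b / (0.99 * T) ^ 2 := by
      refine div_le_div_of_nonneg_left hEE (by positivity) ?_
      exact pow_le_pow_left₀ (by positivity) (by linarith [h1.1]) 2
    have h5 : 1 ≤ C * (2 ^ (1 + ε) * T ^ (1 + ε)) * (EE (U j) (t j) b / (0.99 * T) ^ 2) := by
      refine h2.trans ?_
      gcongr
    calc ‖B j‖ ^ 2 = ‖B j‖ ^ 2 * 1 := (mul_one _).symm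
      _ ≤ ‖B j‖ ^ 2 * (C * (2 ^ (1 + ε) * T ^ (1 + ε)) *
          (EE (U j) (t j) b / (0.99 * T) ^ 2)) := by gcongr
      _ = _ := by ring
  calc ∑ j, ‖B j‖ ^ 2 ≤ ∑ j, C * (2 ^ (1 + ε) * T ^ (1 + ε)) / (0.99 * T) ^ 2 *
      (‖B j‖ ^ 2 * EE (U j) (t j) b) := Finset.sum_le_sum fun j _ => hfin j
    _ = C * (2 ^ (1 + ε) * T ^ (1 + ε)) / (0.99 * T) ^ 2 *
        ∑ j, ‖B j‖ ^ 2 * EE (U j) (t j) b := by rw [← Finset.mul_sum]
    _ ≤ C * (2 ^ (1 + ε) * T ^ (1 + ε)) / (0.99 * T) ^ 2 * (220 * T ^ 2 * S) := by gcongr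
    _ = C * 2 ^ (1 + ε) * (220 / 0.9801) * T ^ (1 + ε) * S := by
        field_simp
        ring
    _ ≤ C * 2 ^ (1 + ε) * 230 * T ^ (1 + ε) * S := by
        gcongr
        norm_num

end Pool.Agent.H19.Maass
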