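import Mathlib
import Pool.Agent.H19.Maass.Forms
import Pool.Agent.H19.Maass.PrimeCount

set_option autoImplicit false

namespace Pool.Agent.H19.Maass

open MeasureTheory UpperHalfPlane ModularGroup
open scoped MatrixGroups Modular UpperHalfPlane ENNReal

/-- Forms which are at least `V` at the point `z`: a bound for their number. -/
theorem weak_point (ε : ℝ) (hε : 0 < ε) : ∃ C : ℝ, 0 < C ∧ ∀ T : ℝ, 1 ≤ T →
    ∀ (J : Type) [Fintype J] (t : J → ℝ) (U : J → ℂ → ℂ) (c : J → ℕ → ℂ),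
    (∀ j, |t j - T| ≤ 1 / 10) → (∀ j, Frm (t j) (U j) (c j)) → Orth U →
    (∀ j, ∀ p : ℕ, p.Prime → c j p ^ 2 = c j (p ^ 2) + p) →
    ∀ z : ℍ, |z.re| ≤ 1 / 2 → 1 / 2 ≤ z.im → ∀ V : ℝ, 0 < V → (∀ j, V ≤ ‖U j z‖) →
    (Fintype.card J : ℝ) * V ^ 6 ≤ C * (1 + z.im) ^ 3 * (T ^ ε * (T ^ 2 * √T)) := by
  set δ : ℝ := min ε 1 / 12 with hδ
  have hδ0 : 0 < δ := by positivity
  have hδ1 : 4 * δ ≤ 1 := by
    have : min ε 1 ≤ 1 := min_le_right _ _
    rw [hδ]; linarith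
  have hδε : 12 * δ ≤ ε := by
    have : min ε 1 ≤ ε := min_le_left _ _
    rw [hδ]; linarith
  obtain ⟨C₀, hC₀, hweyl⟩ := weyl_bound
  obtain ⟨C₁, hC₁, hlarge⟩ := large_bound
  obtain ⟨C₂, hC₂, hsmall⟩ := small_bound δ hδ0
  obtain ⟨c₀, hc₀, hcard⟩ := card_PR_ge δ hδ0
  set K : ℝ := C₀ + 4 * C₁ / c₀ + 2 * C₂ / c₀ ^ 2 with hK
  have hK0 : 0 < K := by positivity
  refine ⟨86 * K ^ 3, by positivity, ?_⟩
  intro T hT J _ t U c ht hF horth hrel z hx hy V hV hVU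
  have hy0 := z.im_pos
  set Y : ℝ := 1 + z.im with hY
  have hY0 : 0 < Y := by positivity
  set s : ℝ := √T with hs
  have hs1 : 1 ≤ s := by rw [hs, Real.one_le_sqrt]; exact hT
  have hT0 : 0 < T := by linarith
  have hTs : s * s = T := Real.mul_self_sqrt hT0.le
  set θ : ℝ := T ^ (4 * δ) with hθ
  have hθ1 : 1 ≤ θ := Real.one_le_rpow hT (by positivity)
  have hθ0 : 0 < θ := by linarith
  set A : ℝ := K * Y * θ with hA
  have hA0 : 0 < A := by positivity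
  have hA3 : A ^ 3 ≤ K ^ 3 * Y ^ 3 * T ^ ε := by
    rw [hA, mul_pow, mul_pow]
    refine mul_le_mul_of_nonneg_left ?_ (by positivity)
    rw [hθ, ← Real.rpow_natCast, ← Real.rpow_mul hT0.le]
    refine Real.rpow_le_rpow_of_exponent_le hT ?_
    push_cast; linarith
  suffices hmain : (Fintype.card J : ℝ) * V ^ 6 ≤ 86 * A ^ 3 * (T ^ 2 * s) by
    refine hmain.trans ?_
    calc 86 * A ^ 3 * (T ^ 2 * s) ≤ 86 * (K ^ 3 * Y ^ 3 * T ^ ε) * (T ^ 2 * s) := by gcongr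
      _ = _ := by ring
  set m : ℝ := (Fintype.card J : ℝ) with hm
  have hm0 : 0 ≤ m := Nat.cast_nonneg _
  set W : ℝ := V ^ 2 with hW
  have hW0 : 0 < W := by positivity
  have hV6 : V ^ 6 = W ^ 3 := by rw [hW]; ring
  rw [hV6]
  have hsumV : m * W ≤ ∑ j, ‖U j z‖ ^ 2 := by
    calc m * W = ∑ _j : J, W := by
          rw [Finset.sum_const, Finset.card_univ, nsmul_eq_mul]
      _ ≤ ∑ j, ‖U j z‖ ^ 2 := Finset.sum_le_sum fun j _ => by
          rw [hW]; exact pow_le_pow_left₀ hV.le (hVU j) 2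
  have hweyl1 : m * W ≤ C₀ * Y * T := hsumV.trans (hweyl T hT J t U c ht hF horth z hx hy)
  have hKC0 : C₀ ≤ K := by
    have : 0 < 4 * C₁ / c₀ := by positivity
    have : 0 < 2 * C₂ / c₀ ^ 2 := by positivity
    rw [hK]; linarith
  have hKC1 : 4 * C₁ ≤ c₀ * K := by
    have h1 : 4 * C₁ / c₀ ≤ K := by
      have : 0 < 2 * C₂ / c₀ ^ 2 := by positivity
      rw [hK]; linarith
    rw [div_le_iff₀ hc₀] at h1
    linarith
  have hKC2 : 2 * C₂ ≤ c₀ ^ 2 * K := by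
    have h1 : 2 * C₂ / c₀ ^ 2 ≤ K := by
      have : 0 < 4 * C₁ / c₀ := by positivity
      rw [hK]; linarith
    rw [div_le_iff₀ (by positivity)] at h1
    linarith
  have hAC0 : C₀ * Y ≤ A := by
    rw [hA]
    calc C₀ * Y ≤ K * Y := by gcongr
      _ ≤ K * Y * θ := le_mul_of_one_le_right (by positivity) hθ1
  by_cases hcase : W ^ 2 ≤ 32 * A ^ 2 * (T * s)
  · calc m * W ^ 3 = (m * W) * W ^ 2 := by ring
      _ ≤ (C₀ * Y * T) * (32 * A ^ 2 * (T * s)) := by gcongr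
      _ ≤ (A * T) * (32 * A ^ 2 * (T * s)) := by gcongr
      _ = 32 * (A ^ 3 * (T ^ 2 * s)) := by ring
      _ ≤ 86 * (A ^ 3 * (T ^ 2 * s)) := by
          refine mul_le_mul_of_nonneg_right (by norm_num) (by positivity)
      _ = _ := by ring
  rw [not_le] at hcase
  rcases isEmpty_or_nonempty J with hJ | hJ
  · have : m = 0 := by rw [hm, Fintype.card_eq_zero, Nat.cast_zero]
    rw [this, zero_mul]; positivity
  have hm1 : 1 ≤ m := by
    rw [hm]; exact_mod_cast Fintype.card_pos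
  have hWA : W ≤ A * T := by
    calc W ≤ m * W := le_mul_of_one_le_left hW0.le hm1
      _ ≤ C₀ * Y * T := hweyl1
      _ ≤ A * T := by gcongr
  -- choice of the length
  set X : ℝ := 4 * A * T / W with hX
  have hX4 : 4 ≤ X := by
    rw [hX, le_div_iff₀ hW0]; linarith
  set N : ℕ := ⌈X⌉₊ with hN
  have hXN : X ≤ N := Nat.le_ceil X
  have hNX : (N : ℝ) ≤ 2 * X := by
    have : (N : ℝ) < X + 1 := Nat.ceil_lt_add_one (by linarith)
    linarith
  have hN0 : (0 : ℝ) < N := by linarith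
  have hN1 : 1 ≤ N := by exact_mod_cast (by linarith : (0 : ℝ) < N)
  have hNW : 4 * A * T ≤ N * W := by
    rw [hX, div_le_iff₀ hW0] at hXN; exact hXN
  have hNW2 : N * W ≤ 8 * A * T := by
    have : N * W ≤ 2 * X * W := by gcongr
    rw [hX] at this
    calc N * W ≤ 2 * (4 * A * T / W) * W := this
      _ = 8 * A * T := by field_simp; ring
  have hAsN : 4 * (A * s * N) ≤ W := by
    have h1 : 4 * (A * s * N) * W ≤ W * W := by
      calc 4 * (A * s * N) * W = 4 * A * s * (N * W) := by ring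
        _ ≤ 4 * A * s * (8 * A * T) := by gcongr
        _ = 32 * A ^ 2 * (T * s) := by ring
        _ ≤ W * W := by rw [← sq]; exact hcase.le
    exact le_of_mul_le_mul_right h1 hW0
  have hN2T : (N : ℝ) ≤ 2 * T := by
    have h1 : 4 * A ≤ W := by
      by_contra hcon
      rw [not_le] at hcon
      have h2 : W ^ 2 < (4 * A) ^ 2 := by gcongr
      have h3 : (4 * A) ^ 2 ≤ 32 * A ^ 2 * (T * s) := by
        have h11 : 1 ≤ T * s := one_le_mul_of_one_le_of_one_le hT hs1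
        calc (4 * A) ^ 2 = 16 * A ^ 2 * 1 := by ring
          _ ≤ 32 * A ^ 2 * (T * s) := by gcongr; norm_num
      exact absurd (h2.trans_le h3) (not_lt.2 hcase.le)
    have h2 : N * (4 * A) ≤ 2 * T * (4 * A) := by
      calc N * (4 * A) ≤ N * W := by gcongr
        _ ≤ 8 * A * T := hNW2
        _ = 2 * T * (4 * A) := by ring
    exact le_of_mul_le_mul_right h2 (by positivity)
  have hNδ4 : (N : ℝ) ^ (4 * δ) ≤ 2 * θ := by
    calc (N : ℝ) ^ (4 * δ) ≤ (2 * T) ^ (4 * δ) := Real.rpow_le_rpow hN0.le hN2T (by positivity)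
      _ = 2 ^ (4 * δ) * T ^ (4 * δ) := Real.mul_rpow (by norm_num) hT0.le
      _ ≤ 2 * θ := by
          refine mul_le_mul_of_nonneg_right ?_ hθ0.le
          calc (2 : ℝ) ^ (4 * δ) ≤ 2 ^ (1 : ℝ) :=
                Real.rpow_le_rpow_of_exponent_le (by norm_num) hδ1
            _ = 2 := Real.rpow_one 2
  have hN1r : (1 : ℝ) ≤ N := by exact_mod_cast hN1
  have hNδ : (N : ℝ) ^ δ ≤ 2 * θ :=
    (Real.rpow_le_rpow_of_exponent_le hN1r (by linarith)).trans hNδ4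
  set P : ℝ := ((PR N).card : ℝ) with hP
  have hPge : c₀ * (N / (N : ℝ) ^ δ) ≤ P := hcard N hN1
  have hNδ0 : 0 < (N : ℝ) ^ δ := by positivity
  -- all forms have small eigenvalues
  have hall : ∀ j, ∑ p ∈ PR N, ‖c j p‖ ^ 2 / p ≤ (PR N).card / 2 := by
    intro j
    by_contra hcon
    rw [not_le] at hcon
    set S : ℝ := ∑ p ∈ PR N, ‖c j p‖ ^ 2 / p with hS
    have h1 := hlarge T hT (t j) (U j) (c j) (ht j) (hF j) z hx hy N hN1
    rw [← hS, ← hY] at h1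
    have h2 : W ≤ ‖U j z‖ ^ 2 := by rw [hW]; exact pow_le_pow_left₀ hV.le (hVU j) 2
    have hP0 : 0 < P := lt_of_lt_of_le (by positivity) hPge
    have h3 : P / 2 * W ≤ C₁ * Y * (T + s * N ^ 2) := by
      refine le_trans ?_ h1
      exact mul_le_mul hcon.le h2 hW0.le (by linarith)
    have h4 : c₀ * (N / (2 * θ)) ≤ P := by
      refine le_trans ?_ hPge
      gcongr
    have h5 : N * W ≤ A * (T + s * N ^ 2) := by
      have h6 : c₀ * (N / (2 * θ)) / 2 * W ≤ C₁ * Y * (T + s * N ^ 2) := by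
        refine le_trans ?_ h3
        gcongr
      have h7 : c₀ * (N * W) ≤ 4 * C₁ * (Y * θ * (T + s * N ^ 2)) := by
        have h8 : c₀ * (N / (2 * θ)) / 2 * W * (4 * θ) ≤ C₁ * Y * (T + s * N ^ 2) * (4 * θ) := by
          gcongr
        calc c₀ * (N * W) = c₀ * (N / (2 * θ)) / 2 * W * (4 * θ) := by field_simp; ring
          _ ≤ _ := h8
          _ = _ := by ring
      have h8 : c₀ * (N * W) ≤ c₀ * (A * (T + s * N ^ 2)) := by
        calc c₀ * (N * W) ≤ 4 * C₁ * (Y * θ * (T + s * N ^ 2)) := h7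
          _ ≤ c₀ * K * (Y * θ * (T + s * N ^ 2)) := by gcongr
          _ = _ := by rw [hA]; ring
      exact le_of_mul_le_mul_left h8 hc₀
    have h9 : 4 * (A * (s * N ^ 2)) ≤ N * W := by
      calc 4 * (A * (s * N ^ 2)) = N * (4 * (A * s * N)) := by ring
        _ ≤ N * W := by gcongr
    have h10 : 0 < N * W := by positivity
    have h11 : A * (T + s * N ^ 2) = A * T + A * (s * N ^ 2) := by ring
    have h12 : 4 * (A * T) ≤ N * W := by
      calc 4 * (A * T) = 4 * A * T := by ring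
        _ ≤ N * W := hNW
    linarith only [h5, h9, h10, h11, h12]
  have h1 := hsmall T hT J t U c ht hF horth hrel z hx hy N hN1 hall
  rw [← hP, ← hY, ← hs] at h1
  have hsum0 : 0 ≤ ∑ j, ‖U j z‖ ^ 2 := Finset.sum_nonneg fun j _ => by positivity
  have h2 : c₀ ^ 2 * (N ^ 2 * (m * W)) ≤ c₀ ^ 2 * (A * (N * T + s * N ^ 4)) := by
    have h3 : (c₀ * (N / (N : ℝ) ^ δ)) ^ 2 * (m * W) ≤ C₂ * Y * ((N : ℝ) ^ (2 * δ) *
        (N * T + s * N ^ 4)) := by
      refine le_trans ?_ h1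
      refine mul_le_mul ?_ hsumV (by positivity) (by positivity)
      exact pow_le_pow_left₀ (by positivity) hPge 2
    have h4 : (N : ℝ) ^ (2 * δ) * ((N : ℝ) ^ δ) ^ 2 = (N : ℝ) ^ (4 * δ) := by
      rw [← Real.rpow_natCast ((N : ℝ) ^ δ), ← Real.rpow_mul hN0.le, ← Real.rpow_add hN0]
      congr 1
      push_cast; ring
    calc c₀ ^ 2 * (N ^ 2 * (m * W))
        = ((c₀ * (N / (N : ℝ) ^ δ)) ^ 2 * (m * W)) * ((N : ℝ) ^ δ) ^ 2 := by
          field_simp
      _ ≤ (C₂ * Y * ((N : ℝ) ^ (2 * δ) * (N * T + s * N ^ 4))) * ((N : ℝ) ^ δ) ^ 2 := by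
          gcongr
      _ = C₂ * Y * (((N : ℝ) ^ (2 * δ) * ((N : ℝ) ^ δ) ^ 2) * (N * T + s * N ^ 4)) := by ring
      _ = C₂ * Y * ((N : ℝ) ^ (4 * δ) * (N * T + s * N ^ 4)) := by rw [h4]
      _ ≤ C₂ * Y * (2 * θ * (N * T + s * N ^ 4)) := by gcongr
      _ = 2 * C₂ * (Y * θ * (N * T + s * N ^ 4)) := by ring
      _ ≤ c₀ ^ 2 * K * (Y * θ * (N * T + s * N ^ 4)) := by gcongr
      _ = _ := by rw [hA]; ring
  have h3 : N ^ 2 * (m * W) ≤ A * (N * T + s * N ^ 4) :=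
    le_of_mul_le_mul_left h2 (by positivity)
  have h4 : N * (m * W) ≤ A * T + A * s * N ^ 3 := by
    have : N * (N * (m * W)) ≤ N * (A * T + A * s * N ^ 3) := by
      calc N * (N * (m * W)) = N ^ 2 * (m * W) := by ring
        _ ≤ A * (N * T + s * N ^ 4) := h3
        _ = _ := by ring
    exact le_of_mul_le_mul_left this hN0
  have h5 : 4 * (A * T) ≤ N * (m * W) := by
    calc 4 * (A * T) = 4 * A * T := by ring
      _ ≤ N * W := hNW
      _ ≤ N * (m * W) := by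
          refine mul_le_mul_of_nonneg_left (le_mul_of_one_le_left hW0.le hm1) hN0.le
  have h6 : 3 * (m * W) ≤ 4 * (A * s * N ^ 2) := by
    have e1 : N * (3 * (m * W)) = 3 * (N * (m * W)) := by ring
    have e2 : N * (4 * (A * s * N ^ 2)) = 4 * (A * s * N ^ 3) := by ring
    have : N * (3 * (m * W)) ≤ N * (4 * (A * s * N ^ 2)) := by
      rw [e1, e2]; linarith only [h4, h5]
    exact le_of_mul_le_mul_left this hN0
  have h7 : (N * W) ^ 2 ≤ (8 * A * T) ^ 2 := pow_le_pow_left₀ (by positivity) hNW2 2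
  have h8 : 3 * (m * W ^ 3) ≤ 256 * (A ^ 3 * (T ^ 2 * s)) := by
    calc 3 * (m * W ^ 3) = 3 * (m * W) * W ^ 2 := by ring
      _ ≤ 4 * (A * s * N ^ 2) * W ^ 2 := by gcongr
      _ = 4 * A * s * (N * W) ^ 2 := by ring
      _ ≤ 4 * A * s * (8 * A * T) ^ 2 := by gcongr
      _ = _ := by ring
  have h9 : 0 ≤ A ^ 3 * (T ^ 2 * s) := by positivity
  calc m * W ^ 3 ≤ 256 / 3 * (A ^ 3 * (T ^ 2 * s)) := by linarith
    _ ≤ 86 * (A ^ 3 * (T ^ 2 * s)) := by gcongr; norm_num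
    _ = _ := by ring

end Pool.Agent.H19.Maass
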