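import Mathlib
import Pool.Agent.H19.Maass.Hyp
import Pool.Agent.H19.Maass.Weak

set_option autoImplicit false

namespace Pool.Agent.H19.Maass

open MeasureTheory UpperHalfPlane ModularGroup
open scoped MatrixGroups Modular UpperHalfPlane ENNReal

open scoped ComplexConjugate

lemma OrthForms.integral {U W : ℂ → ℂ} (h : OrthForms U W) :
    ∫ w : ℍ in 𝒟, U w * conj (W w) = 0 := by
  rw [integral_fd (fun z => U z * conj (W z))]
  refine Eq.trans ?_ h
  refine integral_congr_ae (Filter.Eventually.of_forall fun z => ?_)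
  simp only
  rw [Complex.real_smul]
  push_cast
  ring

/-- moving a point into the fundamental domain -/
lemma exists_move (z : ℍ) : ∃ w : ℍ, |w.re| ≤ 1 / 2 ∧ 1 / 2 ≤ w.im ∧ w.im ≤ z.im + 1 / z.im ∧
    ∀ U : ℂ → ℂ, (∀ (γ : SL(2, ℤ)) (v : ℍ), U ((γ • v : ℍ) : ℂ) = U v) → U w = U z := by
  obtain ⟨g, hg⟩ := exists_smul_mem_fd z
  have hy0 := z.im_pos
  refine ⟨g • z, hg.2, ?_, ?_, fun U hU => hU g z⟩
  · have h1 := three_le_four_mul_im_sq_of_mem_fd hg
    have h2 := (g • z).im_pos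
    nlinarith
  · have h1 : (g • z).im = z.im / Complex.normSq (denom g z) := by
      exact ModularGroup.im_smul_eq_div_normSq g z
    have h2 : denom g z = (g 1 0 : ℂ) * z + g 1 1 := by
      rw [ModularGroup.denom_apply]
    have h3 : Complex.normSq (denom g z) = ((g 1 0 : ℝ) * z.re + g 1 1) ^ 2 + ((g 1 0 : ℝ) * z.im) ^ 2 := by
      rw [h2, Complex.normSq_apply]
      simp
      ring
    have hpos : 0 < Complex.normSq (denom g z) := by
      by_contra hcon
      rw [not_lt] at hcon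
      have h4 := (g • z).im_pos
      rw [h1] at h4
      have := div_nonpos_of_nonneg_of_nonpos hy0.le hcon
      linarith
    by_cases hc : g 1 0 = 0
    · have hd : (g 1 1 : ℝ) ^ 2 = 1 := by
        have h5 := Matrix.det_fin_two (g : Matrix (Fin 2) (Fin 2) ℤ)
        rw [g.2, hc, mul_zero, sub_zero] at h5
        have h6 : IsUnit (g 1 1) := IsUnit.of_mul_eq_one (g 0 0) (by rw [mul_comm]; exact h5.symm)
        rcases Int.isUnit_iff.1 h6 with h7 | h7 <;> rw [h7] <;> norm_num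
      rw [h1, h3, hc]
      have : ((((0 : ℤ) : ℝ)) * z.re + (g 1 1 : ℝ)) ^ 2 + (((0 : ℤ) : ℝ) * z.im) ^ 2 = 1 := by
        push_cast
        rw [zero_mul, zero_mul, zero_add, hd]
        norm_num
      rw [this, div_one]
      have : 0 < 1 / z.im := by positivity
      linarith
    · have hc2 : (1 : ℝ) ≤ (g 1 0 : ℝ) ^ 2 := by
        have : 1 ≤ (g 1 0) ^ 2 := by
          have := sq_nonneg (g 1 0)
          have h7 : (g 1 0) ^ 2 ≠ 0 := pow_ne_zero 2 hc
          omega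
        exact_mod_cast this
      have h8 : z.im ^ 2 ≤ Complex.normSq (denom g z) := by
        rw [h3]
        nlinarith [sq_nonneg ((g 1 0 : ℝ) * z.re + g 1 1), sq_nonneg z.im]
      rw [h1]
      have h9 : z.im / Complex.normSq (denom g z) ≤ 1 / z.im := by
        rw [div_le_div_iff₀ hpos hy0]
        nlinarith
      linarith

lemma sum_six_le {J : Type*} [Fintype J] (a : J → ℝ) (ha : ∀ j, 0 ≤ a j) {B W : ℝ} {K : ℕ}
    (hK : ∀ j, a j < 2 ^ K) (hB : ∑ j, a j ^ 2 ≤ B)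
    (hW : ∀ k < K, ((Finset.univ.filter fun j => (2 : ℝ) ^ k ≤ a j).card : ℝ) * (2 ^ k) ^ 6 ≤ W) :
    ∑ j, a j ^ 6 ≤ B + 64 * K * W := by
  classical
  have h1 : ∀ j, a j ^ 6 ≤ a j ^ 2 + ∑ k ∈ Finset.range K,
      if (2 : ℝ) ^ k ≤ a j then 64 * (2 ^ k : ℝ) ^ 6 else 0 := by
    intro j
    have hnn : ∀ k ∈ Finset.range K, (0 : ℝ) ≤ if (2 : ℝ) ^ k ≤ a j then 64 * (2 ^ k : ℝ) ^ 6 else 0 := by
      intro k _
      split_ifs <;> positivity
    rcases lt_or_ge (a j) 1 with h | h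
    · have h2 : a j ^ 6 ≤ a j ^ 2 := pow_le_pow_of_le_one (ha j) h.le (by norm_num)
      have := Finset.sum_nonneg hnn
      linarith
    · obtain ⟨k, hk1, hk2⟩ := exists_nat_pow_near h (by norm_num : (1 : ℝ) < 2)
      have hkK : k < K := by
        by_contra hcon
        rw [not_lt] at hcon
        have := pow_le_pow_right₀ (by norm_num : (1 : ℝ) ≤ 2) hcon
        linarith [hK j]
      have h3 := Finset.single_le_sum hnn (Finset.mem_range.2 hkK)
      rw [if_pos hk1] at h3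
      have h4 : a j ^ 6 ≤ 64 * (2 ^ k : ℝ) ^ 6 := by
        calc a j ^ 6 ≤ (2 ^ (k + 1) : ℝ) ^ 6 := pow_le_pow_left₀ (ha j) hk2.le 6
          _ = 64 * (2 ^ k : ℝ) ^ 6 := by rw [pow_succ (2 : ℝ) k, mul_pow]; ring
      have : 0 ≤ a j ^ 2 := by positivity
      linarith
  calc ∑ j, a j ^ 6 ≤ ∑ j, (a j ^ 2 + ∑ k ∈ Finset.range K,
        if (2 : ℝ) ^ k ≤ a j then 64 * (2 ^ k : ℝ) ^ 6 else 0) := Finset.sum_le_sum fun j _ => h1 j
    _ = ∑ j, a j ^ 2 + ∑ k ∈ Finset.range K, 64 *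
        (((Finset.univ.filter fun j => (2 : ℝ) ^ k ≤ a j).card : ℝ) * (2 ^ k) ^ 6) := by
        rw [Finset.sum_add_distrib, Finset.sum_comm]
        congr 1
        refine Finset.sum_congr rfl fun k _ => ?_
        rw [← Finset.sum_filter, Finset.sum_const, nsmul_eq_mul]
        ring
    _ ≤ B + ∑ k ∈ Finset.range K, 64 * W := by
        refine add_le_add hB (Finset.sum_le_sum fun k hk => ?_)
        exact mul_le_mul_of_nonneg_left (hW k (Finset.mem_range.1 hk)) (by norm_num)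
    _ = _ := by rw [Finset.sum_const, Finset.card_range, nsmul_eq_mul]; ring

/-- restriction of a family to a subset -/
lemma Orth.comp {J J' : Type*} {U : J → ℂ → ℂ} (h : Orth U) {f : J' → J}
    (hf : Function.Injective f) : Orth (fun j => U (f j)) :=
  fun i j hij => h (f i) (f j) fun h' => hij (hf h')

/-- sixth moment in a short window, at a point of the fundamental domain -/
theorem sixth_window (ε : ℝ) (hε : 0 < ε) (Y : ℝ) : ∃ C : ℝ, 0 < C ∧ ∀ T : ℝ, 1 ≤ T →
    ∀ (J : Type) [Fintype J] (t : J → ℝ) (U : J → ℂ → ℂ) (c : J → ℕ → ℂ),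
    (∀ j, |t j - T| ≤ 1 / 10) → (∀ j, Frm (t j) (U j) (c j)) → Orth U →
    (∀ j, ∀ p : ℕ, p.Prime → c j p ^ 2 = c j (p ^ 2) + p) →
    ∀ z : ℍ, |z.re| ≤ 1 / 2 → 1 / 2 ≤ z.im → z.im ≤ Y →
    ∑ j, ‖U j z‖ ^ 6 ≤ C * (T ^ ε * (T ^ 2 * √T)) := by
  obtain ⟨C₀, hC₀, hweyl⟩ := weyl_bound
  set η : ℝ := min (ε / 2) 1 with hη
  have hη0 : 0 < η := by positivity
  have hη1 : η ≤ 1 := min_le_right _ _
  have hηε : η ≤ ε / 2 := min_le_left _ _
  obtain ⟨C₁, hC₁, hweak⟩ := weak_point η hη0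
  set Y' : ℝ := 1 + |Y| with hY'
  have hY'1 : 1 ≤ Y' := by rw [hY']; linarith [abs_nonneg Y]
  set D : ℝ := (C₀ + 1) * Y' with hD
  have hD1 : 1 ≤ D := by rw [hD]; nlinarith
  refine ⟨D + 64 * (2 * D / η + 2) * (C₁ * Y' ^ 3), by positivity, ?_⟩
  intro T hT J _ t U c ht hF horth hrel z hx hy hzY
  classical
  have hT0 : 0 < T := by linarith
  have hs1 : 1 ≤ √T := by rw [Real.one_le_sqrt]; exact hT
  have hy0 := z.im_pos
  have hzY' : 1 + z.im ≤ Y' := by rw [hY']; linarith [le_abs_self Y]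
  have hTη : 1 ≤ T ^ η := Real.one_le_rpow hT hη0.le
  have hTε2 : T ^ η * T ^ η ≤ T ^ ε := by
    rw [← Real.rpow_add hT0]
    exact Real.rpow_le_rpow_of_exponent_le hT (by linarith)
  have hB : ∑ j, ‖U j z‖ ^ 2 ≤ D * T := by
    refine (hweyl T hT J t U c ht hF horth z hx hy).trans ?_
    rw [hD]
    gcongr
    linarith
  -- number of dyadic levels
  have hDT1 : 1 ≤ D * T := by nlinarith
  obtain ⟨n, hn1, hn2⟩ := exists_nat_pow_near hDT1 (by norm_num : (1 : ℝ) < 2)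
  set K : ℕ := n + 1 with hK
  have hKbound : (K : ℝ) ≤ (2 * D / η + 2) * T ^ η := by
    have h1 : (n : ℝ) * Real.log 2 ≤ Real.log (D * T) := by
      rw [← Real.log_pow]
      exact Real.log_le_log (by positivity) hn1
    have h2 : Real.log (D * T) ≤ (D * T) ^ η / η := Real.log_le_rpow_div (by positivity) hη0
    have h3 : (D * T) ^ η ≤ D * T ^ η := by
      rw [Real.mul_rpow (by positivity) hT0.le]
      refine mul_le_mul_of_nonneg_right ?_ (by positivity)
      calc D ^ η ≤ D ^ (1 : ℝ) := Real.rpow_le_rpow_of_exponent_le hD1 hη1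
        _ = D := Real.rpow_one D
    have h4 : (1 / 2 : ℝ) ≤ Real.log 2 := by
      have := Real.log_two_gt_d9
      linarith
    have h5 : (n : ℝ) * (1 / 2) ≤ D * T ^ η / η := by
      calc (n : ℝ) * (1 / 2) ≤ n * Real.log 2 := by gcongr
        _ ≤ _ := h1
        _ ≤ (D * T) ^ η / η := h2
        _ ≤ D * T ^ η / η := by gcongr
    rw [hK]; push_cast
    have h6 : (n : ℝ) ≤ 2 * D / η * T ^ η := by
      calc (n : ℝ) = 2 * (n * (1 / 2)) := by ring
        _ ≤ 2 * (D * T ^ η / η) := by gcongr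
        _ = _ := by ring
    nlinarith
  set W : ℝ := C₁ * Y' ^ 3 * (T ^ η * (T ^ 2 * √T)) with hW
  have hmain := sum_six_le (fun j => ‖U j z‖) (fun j => norm_nonneg _) (B := D * T) (W := W) (K := K)
    (fun j => by
      have h1 : ‖U j z‖ ^ 2 ≤ D * T := by
        refine le_trans ?_ hB
        exact Finset.single_le_sum (f := fun j => ‖U j z‖ ^ 2) (fun i _ => by positivity)
          (Finset.mem_univ j)
      have h2 : ‖U j z‖ ^ 2 < (2 ^ K) ^ 2 := by
        have h3 : (1 : ℝ) ≤ 2 ^ K := one_le_pow₀ (by norm_num)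
        calc ‖U j z‖ ^ 2 ≤ D * T := h1
          _ < 2 ^ K := hn2
          _ ≤ (2 ^ K) ^ 2 := by nlinarith
      exact lt_of_pow_lt_pow_left₀ 2 (by positivity) h2)
    hB (fun k _ => by
      have h1 := hweak T hT {j // (2 : ℝ) ^ k ≤ ‖U j z‖} (fun j => t j) (fun j => U j)
        (fun j => c j) (fun j => ht j) (fun j => hF j) (horth.comp Subtype.val_injective)
        (fun j => hrel j) z hx hy (2 ^ k) (by positivity) (fun j => j.2)
      rw [Fintype.card_subtype] at h1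
      refine h1.trans ?_
      rw [hW]
      gcongr)
  refine hmain.trans ?_
  have hTT : T ≤ T ^ ε * (T ^ 2 * √T) := by
    have h1 : 1 ≤ T ^ ε := Real.one_le_rpow hT hε.le
    have h2 : T ≤ T ^ 2 * √T := by nlinarith
    calc T ≤ T ^ 2 * √T := h2
      _ ≤ _ := le_mul_of_one_le_left (by positivity) h1
  calc D * T + 64 * K * W
      ≤ D * (T ^ ε * (T ^ 2 * √T)) + 64 * ((2 * D / η + 2) * T ^ η) * W := by gcongr
    _ = D * (T ^ ε * (T ^ 2 * √T)) + 64 * (2 * D / η + 2) * (C₁ * Y' ^ 3) *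
          ((T ^ η * T ^ η) * (T ^ 2 * √T)) := by rw [hW]; ring
    _ ≤ D * (T ^ ε * (T ^ 2 * √T)) + 64 * (2 * D / η + 2) * (C₁ * Y' ^ 3) *
          (T ^ ε * (T ^ 2 * √T)) := by gcongr
    _ = _ := by ring

lemma exists_subwindow {T t : ℝ} (h1 : T ≤ t) (h2 : t ≤ T + 1) :
    ∃ i ∈ Finset.range 5, |t - (T + (2 * (i : ℝ) + 1) / 10)| ≤ 1 / 10 := by
  rcases le_total t (T + 2 / 10) with h | h
  · exact ⟨0, by simp, by rw [abs_le]; constructor <;> push_cast <;> linarith⟩
  rcases le_total t (T + 4 / 10) with h' | h'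
  · exact ⟨1, by simp, by rw [abs_le]; constructor <;> push_cast <;> linarith⟩
  rcases le_total t (T + 6 / 10) with h'' | h''
  · exact ⟨2, by simp, by rw [abs_le]; constructor <;> push_cast <;> linarith⟩
  rcases le_total t (T + 8 / 10) with h3 | h3
  · exact ⟨3, by simp, by rw [abs_le]; constructor <;> push_cast <;> linarith⟩
  · exact ⟨4, by simp, by rw [abs_le]; constructor <;> push_cast <;> linarith⟩

/-- **Sixth moment in unit windows.** -/
theorem sixth_moment (K : Set ℂ) (hK : IsCompact K) (hKU : K ⊆ {z : ℂ | 0 < z.im})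
    (ε : ℝ) (hε : 0 < ε) : ∃ C : ℝ, ∀ T : ℝ, 1 ≤ T →
    ∀ (n : ℕ) (t : Fin n → ℝ) (U : Fin n → ℂ → ℂ),
    (∀ j, T ≤ t j ∧ t j ≤ T + 1) → (∀ j, IsHeckeMaass (t j) (U j)) →
    (∀ i j, i ≠ j → OrthForms (U i) (U j)) →
    ∀ z ∈ K, ∑ j, ‖U j z‖ ^ 6 ≤ C * T ^ (5 / 2 + ε) := by
  classical
  -- bound for heights
  obtain ⟨Y, hY⟩ : ∃ Y : ℝ, ∀ z ∈ K, z.im + 1 / z.im ≤ Y := by
    have hcont : ContinuousOn (fun z : ℂ => z.im + 1 / z.im) K := by
      refine ContinuousOn.add Complex.continuous_im.continuousOn ?_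
      refine ContinuousOn.div continuousOn_const Complex.continuous_im.continuousOn ?_
      intro z hz
      exact ne_of_gt (hKU hz)
    obtain ⟨Y, hY⟩ := (hK.image_of_continuousOn hcont).bddAbove
    exact ⟨Y, fun z hz => hY ⟨z, hz, rfl⟩⟩
  obtain ⟨C, hC, hmain⟩ := sixth_window ε hε Y
  refine ⟨5 * (C * (2 ^ ε * 6)), ?_⟩
  intro T hT n t U ht hF horth z hz
  choose c hc using fun j => (hF j).exists_frm
  have hzim : 0 < z.im := hKU hz
  obtain ⟨w, hw1, hw2, hw3, hw4⟩ := exists_move ⟨z, hzim⟩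
  have hwU : ∀ j, U j w = U j z := fun j => hw4 (U j) (hc j).1.inv
  have hwY : w.im ≤ Y := hw3.trans (hY z hz)
  have hT0 : 0 < T := by linarith
  set f : Fin n → ℝ := fun j => ‖U j z‖ ^ 6 with hf
  have hf0 : ∀ j, 0 ≤ f j := fun j => by rw [hf]; positivity
  set P : ℕ → Fin n → Prop := fun i j => |t j - (T + (2 * (i : ℝ) + 1) / 10)| ≤ 1 / 10 with hP
  have h1 : ∀ j, f j ≤ ∑ i ∈ Finset.range 5, if P i j then f j else 0 := by
    intro j
    obtain ⟨i, hi, hi2⟩ := exists_subwindow (ht j).1 (ht j).2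
    have hnn : ∀ i ∈ Finset.range 5, 0 ≤ if P i j then f j else 0 := by
      intro i _
      split_ifs
      · exact hf0 j
      · exact le_rfl
    have := Finset.single_le_sum hnn hi
    rwa [if_pos hi2] at this
  have h2 : ∀ i ∈ Finset.range 5, ∑ j, (if P i j then f j else 0) ≤
      C * (2 ^ ε * 6) * T ^ (5 / 2 + ε) := by
    intro i hi
    have hi5 : (i : ℝ) ≤ 4 := by
      have : i ≤ 4 := by have := Finset.mem_range.1 hi; omega
      exact_mod_cast this
    set T' : ℝ := T + (2 * (i : ℝ) + 1) / 10 with hT'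
    have hT'1 : 1 ≤ T' := by
      have : (0 : ℝ) ≤ i := Nat.cast_nonneg i
      rw [hT']; linarith
    have hT'2 : T' ≤ 2 * T := by rw [hT']; linarith
    have h3 := hmain T' hT'1 {j // P i j} (fun j => t j) (fun j => U j) (fun j => c j)
      (fun j => j.2) (fun j => (hc j).1)
      (fun i j hij => (horth i j fun h => hij (Subtype.ext h)).integral)
      (fun j => (hc j).2) w hw1 hw2 hwY
    rw [← Finset.sum_filter, Finset.sum_subtype (p := P i) _ (by simp)]
    have h4 : ∀ j : {j // P i j}, f j = ‖U j w‖ ^ 6 := fun j => by rw [hf]; simp only; rw [hwU]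
    simp_rw [h4]
    refine h3.trans ?_
    rw [mul_assoc C]
    refine mul_le_mul_of_nonneg_left ?_ hC.le
    have e1 : T' ^ ε ≤ 2 ^ ε * T ^ ε := by
      rw [← Real.mul_rpow (by norm_num) hT0.le]
      exact Real.rpow_le_rpow (by linarith) hT'2 hε.le
    have e2 : T' ^ 2 ≤ 4 * T ^ 2 := by nlinarith
    have e3 : √T' ≤ 3 / 2 * √T := by
      rw [Real.sqrt_le_left (by positivity), mul_pow, Real.sq_sqrt hT0.le]
      linarith
    have e4 : T ^ (5 / 2 + ε) = T ^ ε * (T ^ 2 * √T) := by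
      rw [Real.sqrt_eq_rpow, ← Real.rpow_natCast T 2, ← Real.rpow_add hT0, ← Real.rpow_add hT0]
      congr 1
      push_cast; ring
    rw [e4]
    calc T' ^ ε * (T' ^ 2 * √T') ≤ (2 ^ ε * T ^ ε) * ((4 * T ^ 2) * (3 / 2 * √T)) := by
          gcongr
      _ = _ := by ring
  calc ∑ j, ‖U j z‖ ^ 6 = ∑ j, f j := rfl
    _ ≤ ∑ j, ∑ i ∈ Finset.range 5, (if P i j then f j else 0) := Finset.sum_le_sum fun j _ => h1 j
    _ = ∑ i ∈ Finset.range 5, ∑ j, (if P i j then f j else 0) := Finset.sum_comm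
    _ ≤ ∑ i ∈ Finset.range 5, C * (2 ^ ε * 6) * T ^ (5 / 2 + ε) := Finset.sum_le_sum h2
    _ = _ := by rw [Finset.sum_const, Finset.card_range]; simp; ring

end Pool.Agent.H19.Maass
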