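import Mathlib
import Pool.Agent.H19.Maass.Sieve
import Pool.Agent.H19.Maass.Sixth

set_option autoImplicit false

namespace Pool.Agent.H19.Maass

open MeasureTheory Set Filter Topology UpperHalfPlane ModularGroup
open scoped MatrixGroups Modular UpperHalfPlane ENNReal
open scoped ComplexConjugate

lemma IsHeckeMaass.exists_cfrm {T : ℝ} {U : ℂ → ℂ} (h : IsHeckeMaass T U) :
    ∃ c : ℕ → ℂ, CFrm T U c ∧ ∀ p : ℕ, p.Prime → c p ^ 2 = c (p ^ 2) + p := by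
  obtain ⟨c, hc, hp⟩ := h.exists_frm
  refine ⟨c, ⟨hc, ?_, fun z hz => (h.modular z hz).1, ?_⟩, hp⟩
  · intro y hy
    unfold fcf
    have h1 : ∀ x : ℝ, U (x + y * Complex.I) * en 0 x = U (x + y * Complex.I) := by
      intro x
      unfold en
      simp
    simp_rw [h1]
    exact h.cuspidal y hy
  · have h4 : (1 / 2 + (T : ℂ) * Complex.I) * (1 - (1 / 2 + T * Complex.I)) = 1 / 4 + T ^ 2 := by
      have : Complex.I ^ 2 = -1 := Complex.I_sq
      linear_combination (-(T : ℂ) ^ 2) * this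
    rw [← h4]
    exact hc.eig

lemma CFrm.c_coprime {T : ℝ} {U : ℂ → ℂ} {c : ℕ → ℂ} (h : CFrm T U c) {m k : ℕ} (hm : 1 ≤ m)
    (hk : 1 ≤ k) (hmk : m.Coprime k) : c (m * k) = c m * c k := by
  rw [h.mult hm hk]
  have h1 : m.divisors.filter (fun a => a ∣ k) = {1} := by
    ext a
    rw [Finset.mem_filter, Nat.mem_divisors, Finset.mem_singleton]
    constructor
    · rintro ⟨⟨h1, _⟩, h2⟩
      have := Nat.dvd_gcd h1 h2
      rw [Nat.Coprime.gcd_eq_one hmk] at this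
      exact Nat.dvd_one.1 this
    · rintro rfl
      exact ⟨⟨one_dvd _, by omega⟩, one_dvd _⟩
  rw [h1, Finset.sum_singleton]
  simp

/-- number of forms with small Hecke eigenvalues at primes of two ranges -/
theorem small_count (ε : ℝ) (hε : 0 < ε) : ∃ C : ℝ, 0 < C ∧ ∀ T : ℝ, 210 ≤ T →
    ∀ (J : Type) [Fintype J] (t : J → ℝ) (U : J → ℂ → ℂ) (c : J → ℕ → ℂ),
    (∀ j, |t j - T| ≤ 1 / 20) → (∀ j, CFrm (t j) (U j) (c j)) → Orth U →
    (∀ j, ∀ p : ℕ, p.Prime → c j p ^ 2 = c j (p ^ 2) + p) →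
    ∀ N : ℕ, 1 ≤ N → 4096 * (N : ℝ) ^ 4 ≤ T / 272 →
    (∀ j, ∑ p ∈ PR N, ‖c j p‖ ^ 2 / p ≤ (PR N).card / 2) →
    (∀ j, ∑ p ∈ PR (4 * N), ‖c j p‖ ^ 2 / p ≤ (PR (4 * N)).card / 2) →
    (Fintype.card J : ℝ) * ((PR N).card * (PR (4 * N)).card) ≤ C * T ^ (1 + ε) := by
  obtain ⟨C, hC, hls⟩ := large_sieve ε hε
  refine ⟨16 * C, by positivity, ?_⟩
  intro T hT J _ t U c ht hF horth hrel N hN hNT hs1 hs2
  classical
  have hT0 : 0 < T := by linarith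
  set P : Finset (ℕ × ℕ) := PR N ×ˢ PR (4 * N) with hP
  set g : ℕ × ℕ → ℕ := fun x => x.1 ^ 2 * x.2 ^ 2 with hg
  have hmem : ∀ x ∈ P, (N < x.1 ∧ x.1 ≤ 4 * N ∧ x.1.Prime) ∧ (4 * N < x.2 ∧ x.2 ≤ 16 * N ∧
      x.2.Prime) := by
    intro x hx
    rw [hP, Finset.mem_product, mem_PR, mem_PR] at hx
    exact ⟨⟨hx.1.1.1, hx.1.1.2, hx.1.2⟩, ⟨hx.2.1.1, by omega, hx.2.2⟩⟩
  have hinj : Set.InjOn g (P : Set (ℕ × ℕ)) := by
    intro x hx y hy hxy
    obtain ⟨⟨a1, a2, a3⟩, ⟨a4, a5, a6⟩⟩ := hmem x hx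
    obtain ⟨⟨b1, b2, b3⟩, ⟨b4, b5, b6⟩⟩ := hmem y hy
    have h1 : (x.1 * x.2) ^ 2 = (y.1 * y.2) ^ 2 := by
      rw [mul_pow, mul_pow]; exact hxy
    have h2 : x.1 * x.2 = y.1 * y.2 := Nat.pow_left_injective (by norm_num) h1
    have h3 : x.1 ∣ y.1 * y.2 := ⟨x.2, h2.symm⟩
    rcases (Nat.Prime.dvd_mul a3).1 h3 with h4 | h4
    · have h5 : x.1 = y.1 := (Nat.prime_dvd_prime_iff_eq a3 b3).1 h4
      rw [h5] at h2
      have h6 : x.2 = y.2 := Nat.eq_of_mul_eq_mul_left b3.pos h2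
      exact Prod.ext h5 h6
    · have h5 : x.1 = y.2 := (Nat.prime_dvd_prime_iff_eq a3 b6).1 h4
      omega
  have hcop : ∀ x ∈ P, Nat.Coprime (x.1 ^ 2) (x.2 ^ 2) := by
    intro x hx
    obtain ⟨⟨a1, a2, a3⟩, ⟨a4, a5, a6⟩⟩ := hmem x hx
    exact Nat.Coprime.pow 2 2 ((Nat.coprime_primes a3 a6).2 (by omega))
  set 𝒩 := P.image g with h𝒩
  set β : ℕ → ℂ := fun n => 1 / (Nat.sqrt n : ℂ) with hβ
  have hβg : ∀ x : ℕ × ℕ, β (g x) = 1 / ((x.1 : ℂ) * x.2) := by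
    intro x
    rw [hβ, hg]; simp only
    rw [← mul_pow, sq, Nat.sqrt_eq]
    push_cast
    rfl
  have hcard : (P.card : ℝ) = (PR N).card * (PR (4 * N)).card := by
    rw [hP, Finset.card_product]; push_cast; ring
  have hmain := hls T hT J t U c ht hF horth 𝒩 (by
    intro n hn
    rw [h𝒩, Finset.mem_image] at hn
    obtain ⟨x, hx, rfl⟩ := hn
    obtain ⟨⟨a1, a2, a3⟩, ⟨a4, a5, a6⟩⟩ := hmem x hx
    refine ⟨Nat.mul_pos (pow_pos a3.pos 2) (pow_pos a6.pos 2), le_trans ?_ hNT⟩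
    rw [hg]; simp only
    have e1 : (x.1 : ℝ) ≤ 4 * N := by exact_mod_cast a2
    have e2 : (x.2 : ℝ) ≤ 16 * N := by exact_mod_cast a5
    push_cast
    calc (x.1 : ℝ) ^ 2 * (x.2 : ℝ) ^ 2 ≤ (4 * N) ^ 2 * (16 * N) ^ 2 := by gcongr
      _ = 4096 * (N : ℝ) ^ 4 := by ring) β
  have hS : ∑ n ∈ 𝒩, (n : ℝ) * ‖β n‖ ^ 2 = P.card := by
    rw [h𝒩, Finset.sum_image hinj, Finset.card_eq_sum_ones]
    push_cast
    refine Finset.sum_congr rfl fun x hx => ?_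
    obtain ⟨⟨a1, a2, a3⟩, ⟨a4, a5, a6⟩⟩ := hmem x hx
    have e1 : (0 : ℝ) < x.1 := by exact_mod_cast a3.pos
    have e2 : (0 : ℝ) < x.2 := by exact_mod_cast a6.pos
    rw [hβg, norm_div, norm_one, norm_mul, Complex.norm_natCast, Complex.norm_natCast, hg]
    push_cast
    field_simp
  rw [hS] at hmain
  have hval : ∀ (M : ℕ) (j : J), ∑ p ∈ PR M, ‖c j p‖ ^ 2 / p ≤ (PR M).card / 2 →
      (PR M).card / 2 ≤ ‖∑ p ∈ PR M, c j (p ^ 2) / (p : ℂ)‖ := by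
    intro M j hs
    have e1 : ∑ p ∈ PR M, c j (p ^ 2) / (p : ℂ) = ∑ p ∈ PR M, c j p ^ 2 / p - (PR M).card := by
      rw [Finset.card_eq_sum_ones]
      push_cast
      rw [← Finset.sum_sub_distrib]
      refine Finset.sum_congr rfl fun p hp => ?_
      have hp0 : (p : ℂ) ≠ 0 := by exact_mod_cast (mem_PR.1 hp).2.ne_zero
      rw [hrel j p (mem_PR.1 hp).2]
      field_simp
      ring
    rw [e1]
    have e2 : ‖∑ p ∈ PR M, c j p ^ 2 / (p : ℂ)‖ ≤ (PR M).card / 2 := by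
      refine (norm_sum_le _ _).trans (le_trans (le_of_eq ?_) hs)
      refine Finset.sum_congr rfl fun p _ => ?_
      rw [norm_div, norm_pow, Complex.norm_natCast]
    have e3 := norm_sub_norm_le ((PR M).card : ℂ) (∑ p ∈ PR M, c j p ^ 2 / (p : ℂ))
    rw [norm_sub_rev, Complex.norm_natCast] at e3
    linarith
  have hlow : ∀ j, (P.card : ℝ) / 4 ≤ ‖∑ n ∈ 𝒩, β n * c j n‖ := by
    intro j
    have e1 : ∑ n ∈ 𝒩, β n * c j n = (∑ p ∈ PR N, c j (p ^ 2) / (p : ℂ)) *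
        ∑ q ∈ PR (4 * N), c j (q ^ 2) / (q : ℂ) := by
      rw [h𝒩, Finset.sum_image hinj, Finset.sum_mul_sum, ← Finset.sum_product']
      refine Finset.sum_congr rfl fun x hx => ?_
      obtain ⟨⟨a1, a2, a3⟩, ⟨a4, a5, a6⟩⟩ := hmem x hx
      rw [hβg, hg]
      simp only
      rw [(hF j).c_coprime (pow_pos a3.pos 2) (pow_pos a6.pos 2) (hcop x hx)]
      have e1 : (x.1 : ℂ) ≠ 0 := by exact_mod_cast a3.ne_zero
      have e2 : (x.2 : ℂ) ≠ 0 := by exact_mod_cast a6.ne_zero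
      field_simp
    rw [e1, norm_mul, hcard]
    have e2 := hval N j (hs1 j)
    have e3 := hval (4 * N) j (hs2 j)
    calc ((PR N).card : ℝ) * (PR (4 * N)).card / 4 = (PR N).card / 2 * ((PR (4 * N)).card / 2) := by
          ring
      _ ≤ _ := by gcongr
  have hP1 : (0 : ℝ) < P.card := by
    rw [hcard]
    have e1 : (1 : ℝ) ≤ (PR N).card := by exact_mod_cast card_PR_pos hN
    have e2 : (1 : ℝ) ≤ (PR (4 * N)).card := by
      exact_mod_cast card_PR_pos (show 1 ≤ 4 * N by omega)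
    positivity
  have hsum : (Fintype.card J : ℝ) * ((P.card : ℝ) / 4) ^ 2 ≤ ∑ j, ‖∑ n ∈ 𝒩, β n * c j n‖ ^ 2 := by
    calc (Fintype.card J : ℝ) * ((P.card : ℝ) / 4) ^ 2 = ∑ _j : J, ((P.card : ℝ) / 4) ^ 2 := by
          rw [Finset.sum_const, nsmul_eq_mul, Finset.card_univ]
      _ ≤ _ := Finset.sum_le_sum fun j _ => pow_le_pow_left₀ (by positivity) (hlow j) 2
  have hfin := hsum.trans hmain
  rw [← hcard]
  have h1 : ((Fintype.card J : ℝ) * P.card) * P.card ≤ (16 * C * T ^ (1 + ε)) * P.card := by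
    calc ((Fintype.card J : ℝ) * P.card) * P.card =
          16 * ((Fintype.card J : ℝ) * ((P.card : ℝ) / 4) ^ 2) := by ring
      _ ≤ 16 * (C * T ^ (1 + ε) * P.card) := by gcongr
      _ = _ := by ring
  exact le_of_mul_le_mul_right h1 hP1


/-- **Exceptional forms in a short window.** -/
theorem short_window (ε : ℝ) (hε : 0 < ε) (Y : ℝ) : ∃ C : ℝ, 0 < C ∧ ∀ T : ℝ, 1 ≤ T →
    ∀ (J : Type) [Fintype J] (t : J → ℝ) (U : J → ℂ → ℂ) (c : J → ℕ → ℂ),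
    (∀ j, |t j - T| ≤ 1 / 20) → (∀ j, CFrm (t j) (U j) (c j)) → Orth U →
    (∀ j, ∀ p : ℕ, p.Prime → c j p ^ 2 = c j (p ^ 2) + p) →
    (∀ j, ∃ z : ℍ, |z.re| ≤ 1 / 2 ∧ 1 / 2 ≤ z.im ∧ z.im ≤ Y ∧
      C * T ^ (3 / 8 + ε) < ‖U j z‖) →
    (Fintype.card J : ℝ) ≤ C * T ^ (1 / 2 + ε) := by
  obtain ⟨C₀, hC₀, hweyl⟩ := weyl_bound
  obtain ⟨C₁, hC₁, hlarge⟩ := large_bound
  set η : ℝ := min (ε / 2) (1 / 2) with hη
  have hη0 : 0 < η := by positivity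
  have hη1 : η ≤ 1 / 2 := min_le_right _ _
  have hηε : η ≤ ε / 2 := min_le_left _ _
  obtain ⟨C₂, hC₂, hsmall⟩ := small_count η hη0
  obtain ⟨c₀, hc₀, hcard⟩ := card_PR_ge η hη0
  set Y' : ℝ := 1 + |Y| with hY'
  have hY'1 : 1 ≤ Y' := by rw [hY']; linarith [abs_nonneg Y]
  -- lower bound for the number of primes
  set κ : ℝ := c₀ / 66 with hκ
  have hκ0 : 0 < κ := by positivity
  set A : ℝ := 1 + C₀ * Y' * 1185921 + 4 * C₁ * Y' / κ + C₂ / κ ^ 2 with hA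
  have hA0 : 0 < A := by positivity
  have hA1 : C₀ * Y' * 1185921 ≤ A := by
    rw [hA]
    have e1 : 0 ≤ 4 * C₁ * Y' / κ := by positivity
    have e2 : 0 ≤ C₂ / κ ^ 2 := by positivity
    linarith
  have hA2 : 4 * C₁ * Y' / κ ≤ A := by
    rw [hA]
    have e1 : 0 ≤ C₀ * Y' * 1185921 := by positivity
    have e2 : 0 ≤ C₂ / κ ^ 2 := by positivity
    linarith
  have hA3 : C₂ / κ ^ 2 ≤ A := by
    rw [hA]
    have e1 : 0 ≤ C₀ * Y' * 1185921 := by positivity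
    have e2 : 0 ≤ 4 * C₁ * Y' / κ := by positivity
    linarith
  have hA4 : 1 ≤ A := by
    rw [hA]
    have e1 : 0 ≤ C₀ * Y' * 1185921 := by positivity
    have e2 : 0 ≤ 4 * C₁ * Y' / κ := by positivity
    have e3 : 0 ≤ C₂ / κ ^ 2 := by positivity
    linarith
  refine ⟨A, hA0, ?_⟩
  intro T hT J _ t U c ht hF horth hrel hbig
  classical
  have hT0 : 0 < T := by linarith
  rcases isEmpty_or_nonempty J with hJ | ⟨⟨j₀⟩⟩
  · rw [Fintype.card_eq_zero]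
    push_cast
    positivity
  rcases lt_or_ge T 1185921 with hTs | hTl
  · -- small `T`: the hypothesis is impossible
    exfalso
    obtain ⟨z, hz1, hz2, hz3, hz4⟩ := hbig j₀
    have h1 := hweyl T hT J t U c (fun j => (ht j).trans (by norm_num)) (fun j => (hF j).toFrm)
      horth z hz1 hz2
    have h2 : ‖U j₀ z‖ ^ 2 ≤ C₀ * (1 + z.im) * T :=
      (Finset.single_le_sum (f := fun j => ‖U j z‖ ^ 2) (fun i _ => by positivity)
        (Finset.mem_univ j₀)).trans h1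
    have h3 : C₀ * (1 + z.im) * T ≤ A := by
      refine le_trans ?_ hA1
      have : 1 + z.im ≤ Y' := by rw [hY']; linarith [le_abs_self Y]
      gcongr
    have h4 : A ≤ (A * T ^ (3 / 8 + ε)) ^ 2 := by
      have e1 : 1 ≤ T ^ (3 / 8 + ε) := Real.one_le_rpow hT (by linarith)
      have e2 : A ≤ A * T ^ (3 / 8 + ε) := le_mul_of_one_le_right hA0.le e1
      nlinarith
    have h5 : (A * T ^ (3 / 8 + ε)) ^ 2 < ‖U j₀ z‖ ^ 2 := pow_lt_pow_left₀ hz4 (by positivity)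
      (by norm_num)
    linarith
  -- large `T`
  set R : ℝ := T ^ (1 / 4 : ℝ) with hR
  have hR4 : R ^ 4 = T := by
    rw [hR, ← Real.rpow_natCast, ← Real.rpow_mul hT0.le]; norm_num
  have hR0 : 0 < R := Real.rpow_pos_of_pos hT0 _
  have hR33 : 33 ≤ R := by
    have h3 : (33 : ℝ) ^ 4 ≤ R ^ 4 := by
      rw [hR4]; norm_num; linarith
    exact le_of_pow_le_pow_left₀ (by norm_num) hR0.le h3
  have hR2 : √T = R ^ 2 := by
    rw [← hR4, show R ^ 4 = (R ^ 2) ^ 2 by ring]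
    exact Real.sqrt_sq (by positivity)
  set N : ℕ := ⌊R / 33⌋₊ with hN
  have hN1 : 1 ≤ N := by
    rw [hN, Nat.one_le_floor_iff, le_div_iff₀ (by norm_num)]
    linarith
  have hN1r : (1 : ℝ) ≤ N := by exact_mod_cast hN1
  have hNle : (N : ℝ) ≤ R / 33 := Nat.floor_le (by positivity)
  have hNge : R / 66 ≤ N := by
    have h1 : R / 33 < N + 1 := Nat.lt_floor_add_one _
    linarith
  have hNT : 4096 * (N : ℝ) ^ 4 ≤ T / 272 := by
    calc 4096 * (N : ℝ) ^ 4 ≤ 4096 * (R / 33) ^ 4 := by gcongr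
      _ = 4096 / 1185921 * T := by rw [div_pow, hR4]; ring
      _ ≤ T / 272 := by linarith
  have hprime : ∀ M : ℕ, N ≤ M → κ * R ^ (1 - η) ≤ (PR M).card := by
    intro M hM
    have hM1 : 1 ≤ M := hN1.trans hM
    have hM0 : (0 : ℝ) < M := by exact_mod_cast hM1
    have hNM : (N : ℝ) ≤ M := by exact_mod_cast hM
    refine le_trans ?_ (hcard M hM1)
    have h1 : (M : ℝ) / (M : ℝ) ^ η = (M : ℝ) ^ (1 - η) := by
      rw [Real.rpow_sub hM0, Real.rpow_one]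
    rw [h1, hκ]
    have h2 : (R / 66) ^ (1 - η) ≤ (M : ℝ) ^ (1 - η) :=
      Real.rpow_le_rpow (by positivity) (by linarith) (by linarith)
    have h3 : R ^ (1 - η) / 66 ≤ (R / 66) ^ (1 - η) := by
      rw [Real.div_rpow hR0.le (by norm_num)]
      refine div_le_div_of_nonneg_left (by positivity) (by positivity) ?_
      calc (66 : ℝ) ^ (1 - η) ≤ 66 ^ (1 : ℝ) :=
            Real.rpow_le_rpow_of_exponent_le (by norm_num) (by linarith)
        _ = 66 := Real.rpow_one _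
    calc c₀ / 66 * R ^ (1 - η) = c₀ * (R ^ (1 - η) / 66) := by ring
      _ ≤ c₀ * (M : ℝ) ^ (1 - η) := by
          refine mul_le_mul_of_nonneg_left (h3.trans h2) hc₀.le
  -- forms with a large value have small Hecke eigenvalues
  have hsm : ∀ (M : ℕ), N ≤ M → (M : ℝ) ≤ R → ∀ j,
      ∑ p ∈ PR M, ‖c j p‖ ^ 2 / p ≤ (PR M).card / 2 := by
    intro M hM hMR j
    by_contra hcon
    rw [not_le] at hcon
    obtain ⟨z, hz1, hz2, hz3, hz4⟩ := hbig j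
    have hM1 : 1 ≤ M := hN1.trans hM
    have h1 := hlarge T hT (t j) (U j) (c j) ((ht j).trans (by norm_num)) (hF j).toFrm z hz1 hz2
      M hM1
    have h2 : T + √T * (M : ℝ) ^ 2 ≤ 2 * T := by
      rw [hR2]
      have : R ^ 2 * (M : ℝ) ^ 2 ≤ R ^ 2 * R ^ 2 := by gcongr
      have e : R ^ 2 * R ^ 2 = T := by rw [← hR4]; ring
      linarith
    have h3 : ((PR M).card : ℝ) / 2 * ‖U j z‖ ^ 2 ≤ C₁ * Y' * (2 * T) := by
      calc ((PR M).card : ℝ) / 2 * ‖U j z‖ ^ 2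
          ≤ (∑ p ∈ PR M, ‖c j p‖ ^ 2 / p) * ‖U j z‖ ^ 2 := by gcongr
        _ ≤ C₁ * (1 + z.im) * (T + √T * M ^ 2) := h1
        _ ≤ C₁ * Y' * (2 * T) := by
            have : 1 + z.im ≤ Y' := by rw [hY']; linarith [le_abs_self Y]
            have := z.im_pos
            gcongr
    have h4 := hprime M hM
    have h5 : κ * R ^ (1 - η) * ‖U j z‖ ^ 2 ≤ 4 * C₁ * Y' * T := by
      calc κ * R ^ (1 - η) * ‖U j z‖ ^ 2 ≤ (PR M).card * ‖U j z‖ ^ 2 := by gcongr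
        _ = 2 * (((PR M).card : ℝ) / 2 * ‖U j z‖ ^ 2) := by ring
        _ ≤ 2 * (C₁ * Y' * (2 * T)) := by gcongr
        _ = _ := by ring
    have h6 : (A * T ^ (3 / 8 + ε)) ^ 2 < ‖U j z‖ ^ 2 := pow_lt_pow_left₀ hz4 (by positivity)
      (by norm_num)
    have h7 : R ^ (1 - η) * (T ^ (3 / 8 + ε)) ^ 2 ≥ T := by
      have e1 : R ^ (1 - η) = T ^ ((1 - η) / 4) := by
        rw [hR, ← Real.rpow_mul hT0.le]
        congr 1; ring
      rw [e1, ← Real.rpow_natCast (T ^ (3 / 8 + ε)), ← Real.rpow_mul hT0.le, ← Real.rpow_add hT0]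
      calc T = T ^ (1 : ℝ) := (Real.rpow_one T).symm
        _ ≤ _ := Real.rpow_le_rpow_of_exponent_le hT (by push_cast; linarith)
    have h8 : κ * A ^ 2 * T < 4 * C₁ * Y' * T := by
      calc κ * A ^ 2 * T ≤ κ * A ^ 2 * (R ^ (1 - η) * (T ^ (3 / 8 + ε)) ^ 2) := by gcongr
        _ = κ * R ^ (1 - η) * (A * T ^ (3 / 8 + ε)) ^ 2 := by ring
        _ < κ * R ^ (1 - η) * ‖U j z‖ ^ 2 := by
            refine mul_lt_mul_of_pos_left h6 (by positivity)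
        _ ≤ _ := h5
    have h9 : κ * A ^ 2 < 4 * C₁ * Y' := lt_of_mul_lt_mul_right h8 hT0.le
    have h10 : 4 * C₁ * Y' ≤ κ * A := by
      rw [div_le_iff₀ hκ0] at hA2
      linarith
    have h11 : κ * A ≤ κ * A ^ 2 := by
      refine mul_le_mul_of_nonneg_left ?_ hκ0.le
      nlinarith
    linarith
  have hfin := hsmall T (by linarith) J t U c ht hF horth hrel N hN1 hNT
    (hsm N le_rfl (by linarith)) (hsm (4 * N) (by omega) (by push_cast; linarith))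
  have h1 := hprime N le_rfl
  have h2 := hprime (4 * N) (by omega)
  have h3 : (Fintype.card J : ℝ) * (κ ^ 2 * T ^ ((1 - η) / 2)) ≤ C₂ * T ^ (1 + η) := by
    refine le_trans ?_ hfin
    have e1 : κ ^ 2 * T ^ ((1 - η) / 2) = (κ * R ^ (1 - η)) * (κ * R ^ (1 - η)) := by
      have e2 : T ^ ((1 - η) / 2) = R ^ (1 - η) * R ^ (1 - η) := by
        rw [hR, ← Real.rpow_mul hT0.le, ← Real.rpow_add hT0]
        congr 1; ring
      rw [e2]; ring
    rw [e1]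
    have : 0 ≤ κ * R ^ (1 - η) := by positivity
    gcongr
  have h4 : (Fintype.card J : ℝ) ≤ C₂ / κ ^ 2 * (T ^ (1 + η) / T ^ ((1 - η) / 2)) := by
    rw [div_mul_div_comm, le_div_iff₀ (by positivity)]
    exact h3
  refine h4.trans ?_
  have h5 : T ^ (1 + η) / T ^ ((1 - η) / 2) ≤ T ^ (1 / 2 + ε) := by
    rw [← Real.rpow_sub hT0]
    exact Real.rpow_le_rpow_of_exponent_le hT (by linarith)
  exact mul_le_mul hA3 h5 (by positivity) hA0.le

end Pool.Agent.H19.Maass
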