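import Mathlib
import Pool.Agent.H19.Maass.Unit

set_option autoImplicit false

namespace Pool.Agent.H19.Maass

open MeasureTheory Set Filter Topology UpperHalfPlane ModularGroup
open scoped MatrixGroups Modular UpperHalfPlane ENNReal
open scoped ComplexConjugate

lemma exists_subwindow' {T t : ℝ} (h1 : T ≤ t) (h2 : t ≤ T + 1) :
    ∃ i ∈ Finset.range 10, |t - (T + (2 * (i : ℝ) + 1) / 20)| ≤ 1 / 20 := by
  set x : ℝ := (t - T) * 10 with hx
  have hx0 : 0 ≤ x := by rw [hx]; linarith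
  have hx1 : x ≤ 10 := by rw [hx]; linarith
  rcases lt_or_ge x 10 with h | h
  · refine ⟨⌊x⌋₊, ?_, ?_⟩
    · rw [Finset.mem_range]
      exact (Nat.floor_lt hx0).2 (by exact_mod_cast h)
    · have h3 := Nat.floor_le hx0
      have h4 := Nat.lt_floor_add_one x
      rw [abs_le]
      constructor <;> linarith
  · refine ⟨9, by simp, ?_⟩
    rw [abs_le]
    constructor <;> push_cast <;> linarith

/-- **Exceptional forms in unit windows.** -/
theorem unit_window (K : Set ℂ) (hK : IsCompact K) (hKU : K ⊆ {z : ℂ | 0 < z.im})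
    (ε : ℝ) (hε : 0 < ε) : ∃ C : ℝ, ∀ T : ℝ, 1 ≤ T →
    ∀ (n : ℕ) (t : Fin n → ℝ) (U : Fin n → ℂ → ℂ),
    (∀ j, T ≤ t j ∧ t j ≤ T + 1) → (∀ j, IsHeckeMaass (t j) (U j)) →
    (∀ i j, i ≠ j → OrthForms (U i) (U j)) →
    (∀ j, ∃ z ∈ K, C * T ^ (3 / 8 + ε) < ‖U j z‖) →
    (n : ℝ) ≤ C * T ^ (1 / 2 + ε) := by
  classical
  obtain ⟨Y, hY⟩ : ∃ Y : ℝ, ∀ z ∈ K, z.im + 1 / z.im ≤ Y := by
    have hcont : ContinuousOn (fun z : ℂ => z.im + 1 / z.im) K := by
      refine ContinuousOn.add Complex.continuous_im.continuousOn ?_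
      refine ContinuousOn.div continuousOn_const Complex.continuous_im.continuousOn ?_
      intro z hz
      exact ne_of_gt (hKU hz)
    obtain ⟨Y, hY⟩ := (hK.image_of_continuousOn hcont).bddAbove
    exact ⟨Y, fun z hz => hY ⟨z, hz, rfl⟩⟩
  obtain ⟨C, hC, hmain⟩ := short_window ε hε Y
  set D : ℝ := 10 * (C * 2 ^ (1 / 2 + ε)) with hD
  have h2e : (1 : ℝ) ≤ 2 ^ (1 / 2 + ε) := Real.one_le_rpow (by norm_num) (by linarith)
  refine ⟨D, ?_⟩
  intro T hT n t U ht hF horth hbig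
  have hT0 : 0 < T := by linarith
  choose c hc using fun j => (hF j).exists_cfrm
  set P : ℕ → Fin n → Prop := fun i j => |t j - (T + (2 * (i : ℝ) + 1) / 20)| ≤ 1 / 20 with hP
  have hcover : (Finset.univ : Finset (Fin n)) ⊆
      (Finset.range 10).biUnion fun i => Finset.univ.filter (P i) := by
    intro j _
    obtain ⟨i, hi, hi2⟩ := exists_subwindow' (ht j).1 (ht j).2
    rw [Finset.mem_biUnion]
    exact ⟨i, hi, Finset.mem_filter.2 ⟨Finset.mem_univ _, hi2⟩⟩
  have hcount : ∀ i ∈ Finset.range 10, ((Finset.univ.filter (P i)).card : ℝ) ≤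
      C * 2 ^ (1 / 2 + ε) * T ^ (1 / 2 + ε) := by
    intro i hi
    have hi9 : (i : ℝ) ≤ 9 := by
      have : i ≤ 9 := by have := Finset.mem_range.1 hi; omega
      exact_mod_cast this
    have hi0 : (0 : ℝ) ≤ i := Nat.cast_nonneg i
    set T' : ℝ := T + (2 * (i : ℝ) + 1) / 20 with hT'
    have hT'1 : 1 ≤ T' := by rw [hT']; linarith
    have hT'2 : T' ≤ 2 * T := by rw [hT']; linarith
    have h3 := hmain T' hT'1 {j // P i j} (fun j => t j) (fun j => U j) (fun j => c j)
      (fun j => j.2) (fun j => (hc j).1)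
      (fun i j hij => (horth i j fun h => hij (Subtype.ext h)).integral)
      (fun j => (hc j).2) (fun j => by
        obtain ⟨z, hz, hzU⟩ := hbig j
        have hzim : 0 < z.im := hKU hz
        obtain ⟨w, hw1, hw2, hw3, hw4⟩ := exists_move ⟨z, hzim⟩
        refine ⟨w, hw1, hw2, hw3.trans (hY z hz), ?_⟩
        rw [hw4 (U j) (hc j).1.inv]
        refine lt_of_le_of_lt ?_ hzU
        have e1 : T' ^ (3 / 8 + ε) ≤ 2 ^ (1 / 2 + ε) * T ^ (3 / 8 + ε) := by
          calc T' ^ (3 / 8 + ε) ≤ (2 * T) ^ (3 / 8 + ε) :=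
                Real.rpow_le_rpow (by linarith) hT'2 (by linarith)
            _ = 2 ^ (3 / 8 + ε) * T ^ (3 / 8 + ε) := Real.mul_rpow (by norm_num) hT0.le
            _ ≤ 2 ^ (1 / 2 + ε) * T ^ (3 / 8 + ε) := by
                refine mul_le_mul_of_nonneg_right ?_ (by positivity)
                exact Real.rpow_le_rpow_of_exponent_le (by norm_num) (by linarith)
        calc C * T' ^ (3 / 8 + ε) ≤ C * (2 ^ (1 / 2 + ε) * T ^ (3 / 8 + ε)) := by gcongr
          _ = 1 * (C * 2 ^ (1 / 2 + ε)) * T ^ (3 / 8 + ε) := by ring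
          _ ≤ D * T ^ (3 / 8 + ε) := by
              rw [hD]
              gcongr
              norm_num)
    rw [Fintype.card_subtype] at h3
    refine h3.trans ?_
    have e2 : T' ^ (1 / 2 + ε) ≤ 2 ^ (1 / 2 + ε) * T ^ (1 / 2 + ε) := by
      rw [← Real.mul_rpow (by norm_num) hT0.le]
      exact Real.rpow_le_rpow (by linarith) hT'2 (by linarith)
    calc C * T' ^ (1 / 2 + ε) ≤ C * (2 ^ (1 / 2 + ε) * T ^ (1 / 2 + ε)) := by gcongr
      _ = _ := by ring
  have h1 : (n : ℝ) ≤ ∑ i ∈ Finset.range 10, ((Finset.univ.filter (P i)).card : ℝ) := by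
    have h2 := (Finset.card_le_card hcover).trans Finset.card_biUnion_le
    rw [Finset.card_univ, Fintype.card_fin] at h2
    exact_mod_cast h2
  refine (h1.trans (Finset.sum_le_sum hcount)).trans (le_of_eq ?_)
  rw [Finset.sum_const, Finset.card_range, nsmul_eq_mul, hD]
  push_cast
  ring

end Pool.Agent.H19.Maass
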